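import Pool.Agent.P.MP_d2ed07_lc.Basic

/-!
Rational linear algebra.
-/

namespace Pool.Agent.P.MP_d2ed07_lc

open MvPolynomial Metric Filter Topology

theorem adapt_den {n : ℕ} (q : Fin n → ℚ) :
    ∃ (N : ℚ) (l : Fin n → ℤ), 0 < N ∧ ∀ i, (l i : ℚ) = N * q i := by
  classical
  refine ⟨∏ j, ((q j).den : ℚ), fun i => (∏ j ∈ Finset.univ.erase i, ((q j).den : ℤ)) * (q i).num,
    Finset.prod_pos fun j _ => by exact_mod_cast (q j).den_pos, fun i => ?_⟩
  rw [← Finset.prod_erase_mul _ _ (Finset.mem_univ i), mul_assoc, Rat.den_mul_eq_num]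
  push_cast
  rfl

theorem adapt_dz {n : ℕ} {q : Fin n → ℚ} {N : ℚ} {l : Fin n → ℤ} (h : ∀ i, (l i : ℚ) = N * q i)
    {K : Type} [Field K] [CharZero K] (u : Fin n → K) :
    dz l u = (N : K) * ∑ i, (q i : K) * u i := by
  rw [dz, Finset.mul_sum]
  refine Finset.sum_congr rfl fun i _ => ?_
  rw [← mul_assoc, ← Rat.cast_mul, ← h, Rat.cast_intCast]

theorem adapt_exp {n : ℕ} {K : Type} [Field K] [CharZero K] (a : Fin n → K) :
    ∃ (m : ℕ) (b : Fin m → K) (q : Fin m → Fin n → ℚ), (∀ i, a i = ∑ c, (q c i : K) * b c) ∧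
      ∀ v : Fin n → ℚ, ∑ i, a i * (v i : K) = 0 → ∀ c, ∑ i, q c i * v i = 0 := by
  have : FiniteDimensional ℚ (Submodule.span ℚ (Set.range a)) :=
    FiniteDimensional.span_of_finite ℚ (Set.finite_range a)
  let B := Module.finBasis ℚ (Submodule.span ℚ (Set.range a))
  have li : LinearIndependent ℚ fun c => (B c : K) :=
    B.linearIndependent.map' (Submodule.subtype _) (Submodule.ker_subtype _)
  have e : ∀ i, a i = ∑ c, ((B.repr ⟨a i, Submodule.subset_span ⟨i, rfl⟩⟩ c : ℚ) : K) * B c := by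
    intro i
    have := congrArg Subtype.val (B.sum_repr ⟨a i, Submodule.subset_span ⟨i, rfl⟩⟩)
    simp only [AddSubmonoidClass.coe_finsetSum, SetLike.val_smul, Rat.smul_def] at this
    exact this.symm
  refine ⟨_, fun c => B c, fun c i => B.repr ⟨a i, Submodule.subset_span ⟨i, rfl⟩⟩ c, e,
    fun v hv => Fintype.linearIndependent_iff.1 li _ ?_⟩
  rw [← hv]
  simp only [Rat.smul_def, Rat.cast_sum, Rat.cast_mul, Finset.sum_mul]
  rw [Finset.sum_comm]
  refine Finset.sum_congr rfl fun i _ => ?_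
  conv_rhs => rw [e i, Finset.sum_mul]
  exact Finset.sum_congr rfl fun c _ => by ring

theorem t_adapt : T_ADAPT := by
  intro n ν Z
  obtain ⟨m, b, q, h1, h2⟩ := adapt_exp ν
  let F : (Fin n → ℚ) → (Fin m → ℝ) → ℝ := fun d β => ∑ i, (∑ c, (q c i : ℝ) * β c) * (d i : ℝ)
  have F1 : ∀ d, Continuous (F d) := fun d => by fun_prop
  have F2 : ∀ d, F d b = dq ν d := fun d => Finset.sum_congr rfl fun i _ => by rw [← h1]
  have ev : ∀ᶠ β in 𝓝 b, ∀ d ∈ Z, (0 < dq ν d → 0 < F d β) ∧ (dq ν d < 0 → F d β < 0) := by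
    refine (eventually_all_finset Z).2 fun d _ => Eventually.and ?_ ?_
    · by_cases h : 0 < dq ν d
      · exact ((F1 d).continuousAt.eventually_const_lt (by rwa [F2])).mono fun β hβ _ => hβ
      · exact Eventually.of_forall fun β h' => absurd h' h
    · by_cases h : dq ν d < 0
      · exact ((F1 d).continuousAt.eventually_lt_const (by rwa [F2])).mono fun β hβ _ => hβ
      · exact Eventually.of_forall fun β h' => absurd h' h
  obtain ⟨β, hβ⟩ := (DenseRange.piMap fun _ : Fin m => Rat.denseRange_cast (𝕜 := ℝ)).mem_nhds ev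
  obtain ⟨N, l, N0, hl⟩ := adapt_den fun i => ∑ c, q c i * β c
  refine ⟨l, fun d hd => ?_⟩
  have e1 := adapt_dz hl d
  simp only [Rat.cast_id] at e1
  have e2 : F d (Pi.map (fun _ => Rat.cast) β) = ((∑ i, (∑ c, q c i * β c) * d i : ℚ) : ℝ) := by
    push_cast
    rfl
  obtain ⟨a1, a2⟩ := hβ d hd
  rw [e2] at a1 a2
  have b1 : 0 < dq ν d → 0 < dz l d := fun h => by
    rw [e1]; exact mul_pos N0 (by exact_mod_cast a1 h)
  have b2 : dq ν d < 0 → dz l d < 0 := fun h => by
    rw [e1]; exact mul_neg_of_pos_of_neg N0 (by exact_mod_cast a2 h)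
  have b3 : dq ν d = 0 → dz l d = 0 := fun h => by
    rw [e1]
    refine mul_eq_zero_of_right _ ?_
    simp only [Finset.sum_mul]
    rw [Finset.sum_comm]
    refine Finset.sum_eq_zero fun c _ => ?_
    have := congrArg (· * β c) (h2 d h c)
    simp only [Finset.sum_mul, zero_mul] at this
    rw [← this]
    exact Finset.sum_congr rfl fun i _ => by ring
  rcases lt_trichotomy (dq ν d) 0 with h | h | h
  · have := b2 h
    exact ⟨⟨b1, fun _ => by linarith⟩, b2, fun _ => h⟩
  · have := b3 h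
    exact ⟨⟨b1, fun _ => by linarith⟩, b2, fun _ => by linarith⟩
  · have := b1 h
    exact ⟨⟨b1, fun _ => h⟩, b2, fun _ => by linarith⟩

theorem t_span : T_SPAN := by
  intro n Z u a h1 h2
  obtain ⟨m, b, q, e1, e2⟩ := adapt_exp a
  have key : ∀ c, ∑ i, (q c i : ℂ) * u i = 0 := fun c => by
    obtain ⟨N, l, N0, hl⟩ := adapt_den (q c)
    have := h1 l fun v hv => by
      rw [adapt_dz hl v]
      exact mul_eq_zero_of_right _ (e2 v (h2 v hv) c)
    rw [adapt_dz hl u] at this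
    exact (mul_eq_zero.1 this).resolve_left (by exact_mod_cast N0.ne')
  simp only [e1, Finset.sum_mul]
  rw [Finset.sum_comm]
  refine Finset.sum_eq_zero fun c _ => ?_
  have := congrArg (· * b c) (key c)
  simp only [Finset.sum_mul, zero_mul] at this
  rw [← this]
  exact Finset.sum_congr rfl fun i _ => by ring

theorem t_sep : T_SEP := by
  intro n Z
  obtain ⟨f, hf⟩ := Module.exists_dual_forall_apply_ne_zero (K := ℚ)
    (fun p : {p : Z × Z // p.1 ≠ p.2} => (p.1.1 : Fin n → ℚ) - p.1.2)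
    fun p => sub_ne_zero.2 fun h => p.2 (Subtype.ext h)
  obtain ⟨N, l, N0, hl⟩ := adapt_den fun i => f fun j => if i = j then 1 else 0
  have e : ∀ v, dz l v = N * f v := fun v => by
    rw [adapt_dz hl v, LinearMap.pi_apply_eq_sum_univ f v]
    simp only [Rat.cast_id, smul_eq_mul, mul_comm]
  refine ⟨l, fun v hv v' hv' h => ?_⟩
  by_contra h0
  refine hf ⟨(⟨v, hv⟩, ⟨v', hv'⟩), fun h1 => h0 (congrArg Subtype.val h1)⟩ ?_
  rw [e, e] at h
  rw [map_sub, sub_eq_zero]
  exact mul_left_cancel₀ N0.ne' h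

end Pool.Agent.P.MP_d2ed07_lc
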