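import Pool.Agent.P.MP_d2ed07_lc.Basic

/-!
From long thin sheets to limit data.
-/

namespace Pool.Agent.P.MP_d2ed07_lc

open MvPolynomial Metric Filter Topology

variable {n : ℕ}

theorem sc1_small (K : ℝ) {e : ℝ} (he : 0 < e) : ∀ᶠ d : ℝ in 𝓝[>] 0, K * d ≤ e := by
  have h : Tendsto (fun d : ℝ => K * d) (𝓝[>] 0) (𝓝 (K * 0)) :=
    (continuous_const.mul continuous_id).continuousAt.tendsto.mono_left nhdsWithin_le_nhds
  rw [mul_zero] at h
  exact h.eventually (ge_mem_nhds he)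

theorem sc1_abs_sum (a e : Fin n → ℝ) {M : ℝ} (h : ∀ i, |e i| ≤ M) :
    |∑ i, a i * e i| ≤ (∑ i, |a i|) * M := by
  rw [Finset.sum_mul]
  refine (Finset.abs_sum_le_sum_abs _ _).trans (Finset.sum_le_sum fun i _ => ?_)
  rw [abs_mul]
  exact mul_le_mul_of_nonneg_left (h i) (abs_nonneg _)

theorem sc1_const (ν : Fin n → ℝ) (l : Fin n → ℤ) (N : ℕ) (h : Adapt N ν l) :
    ∃ c : ℝ, 0 < c ∧ ∀ d ∈ dirs n N, (0 < dz l d → ((dz l d : ℚ) : ℝ) * c ≤ dq ν d) ∧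
      (dz l d < 0 → -((dz l d : ℚ) : ℝ) * c ≤ -dq ν d) ∧
      (dz l d ≠ 0 → ∀ i, |(d i : ℝ)| * c ≤ |((dz l d : ℚ) : ℝ)|) := by
  have h1 : ∀ᶠ c : ℝ in 𝓝[>] 0, ∀ d ∈ dirs n N,
      (0 < dz l d → ((dz l d : ℚ) : ℝ) * c ≤ dq ν d) ∧
      (dz l d < 0 → -((dz l d : ℚ) : ℝ) * c ≤ -dq ν d) ∧
      (dz l d ≠ 0 → ∀ i, |(d i : ℝ)| * c ≤ |((dz l d : ℚ) : ℝ)|) := by
    refine (eventually_all_finset _).2 fun d hd => ?_
    refine Eventually.and ?_ (Eventually.and ?_ ?_)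
    · exact eventually_imp_distrib_left.2 fun h0 => sc1_small _ ((h d hd).1 h0)
    · exact eventually_imp_distrib_left.2 fun h0 => sc1_small _ (neg_pos.2 ((h d hd).2 h0))
    · exact eventually_imp_distrib_left.2 fun h0 => eventually_all.2 fun i =>
        sc1_small _ (abs_pos.2 (by exact_mod_cast h0))
  obtain ⟨c, hc, h0⟩ := (h1.and self_mem_nhdsWithin).exists
  exact ⟨c, h0, hc⟩

theorem sc1_dir (ν : Fin n → ℝ) (l : Fin n → ℤ) (N : ℕ) (h : Adapt N ν l) {C : ℝ} (hC : 0 ≤ C) :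
    ∃ K₁ K₃ : ℝ, 0 < K₁ ∧ 0 ≤ K₃ ∧ ∀ (A : ℝ) (u : Fin n → ℝ), 0 < A →
      (∃ d ∈ dirs n N, ∃ s : ℝ, 0 ≤ s ∧ ∀ i, |u i - s * (d i : ℝ)| ≤ C * A) →
      (dz l u = K₁ * A → 3 * A ≤ ∑ i, ν i * u i ∧ ∀ i, |u i| ≤ K₃ * A) ∧
      (dz l u = -(K₁ * A) → ∑ i, ν i * u i ≤ -(3 * A)) := by
  obtain ⟨c, c0, hc⟩ := sc1_const ν l N h
  obtain ⟨a, ha⟩ : ∃ a, a = ∑ i, |(l i : ℝ)| := ⟨_, rfl⟩
  obtain ⟨b, hb⟩ : ∃ b, b = ∑ i, |ν i| := ⟨_, rfl⟩
  have a0 : 0 ≤ a := ha ▸ Finset.sum_nonneg fun _ _ => abs_nonneg _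
  have b0 : 0 ≤ b := hb ▸ Finset.sum_nonneg fun _ _ => abs_nonneg _
  obtain ⟨k, hk⟩ : ∃ k, k = (3 + b * C) / c := ⟨_, rfl⟩
  have k0 : 0 < k := hk ▸ by positivity
  have kc : k * c = 3 + b * C := by rw [hk]; field_simp
  refine ⟨a * C + k, (2 * a * C + k) / c + C, by positivity, by positivity, ?_⟩
  rintro A u A0 ⟨d, hd, s, s0, he⟩
  obtain ⟨h1, h2, h3⟩ := hc d hd
  have e1 := abs_le.1 (ha ▸ sc1_abs_sum (fun i => (l i : ℝ)) _ he)
  have e2 := abs_le.1 (hb ▸ sc1_abs_sum ν _ he)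
  have f1 : ∑ i, (l i : ℝ) * (u i - s * (d i : ℝ)) = dz l u - s * ((dz l d : ℚ) : ℝ) := by
    simp [dz, mul_sub, Finset.sum_sub_distrib, Finset.mul_sum, mul_left_comm]
  have f2 : ∑ i, ν i * (u i - s * (d i : ℝ)) = ∑ i, ν i * u i - s * dq ν d := by
    simp [dq, mul_sub, Finset.sum_sub_distrib, Finset.mul_sum, mul_left_comm]
  rw [f1] at e1
  rw [f2] at e2
  generalize hD : ((dz l d : ℚ) : ℝ) = D at *
  have kA : 0 < k * A := mul_pos k0 A0
  constructor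
  · intro hu
    have g1 : k * A ≤ s * D := by nlinarith [e1.2]
    have g2 : 0 < D := (pos_iff_pos_of_mul_pos (kA.trans_le g1)).1
      (s0.lt_of_ne fun h => by rw [← h, zero_mul] at g1; linarith)
    have g3 : 0 < dz l d := by rw [← hD] at g2; exact_mod_cast g2
    have g4 := mul_le_mul_of_nonneg_left (h1 g3) s0
    have g5 := mul_le_mul_of_nonneg_right g1 c0.le
    refine ⟨by nlinarith [e2.1], fun i => ?_⟩
    have g6 := mul_le_mul_of_nonneg_left (h3 g3.ne' i) s0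
    rw [abs_of_pos g2] at g6
    have g7 : s * |(d i : ℝ)| ≤ (2 * a * C + k) / c * A := by
      rw [div_mul_eq_mul_div, le_div_iff₀ c0]
      nlinarith [e1.1]
    have g8 : |u i| ≤ |u i - s * d i| + s * |(d i : ℝ)| := by
      have := abs_add_le (u i - s * d i) (s * d i)
      rwa [sub_add_cancel, abs_mul, abs_of_nonneg s0] at this
    nlinarith [he i]
  · intro hu
    have g1 : k * A ≤ s * -D := by nlinarith [e1.1]
    have g2 : 0 < -D := (pos_iff_pos_of_mul_pos (kA.trans_le g1)).1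
      (s0.lt_of_ne fun h => by rw [← h, zero_mul] at g1; linarith)
    have g3 : dz l d < 0 := by rw [← hD, neg_pos] at g2; exact_mod_cast g2
    have g4 := mul_le_mul_of_nonneg_left (h2 g3) s0
    have g5 := mul_le_mul_of_nonneg_right g1 c0.le
    nlinarith [e2.2]

theorem sc1_osc {f : ℝ → ℝ} {C : ℝ} (C0 : 0 ≤ C) (h : ∀ t t', |t - t'| ≤ 1 → |f t - f t'| ≤ C)
    (t t' : ℝ) : |f t - f t'| ≤ C * (|t - t'| + 1) := by
  have key : ∀ k : ℕ, ∀ t', |t - t'| ≤ k → |f t - f t'| ≤ C * k := by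
    intro k
    induction k with
    | zero =>
      intro t' h0
      have : t = t' := by simpa [sub_eq_zero] using h0
      simp [this]
    | succ k ih =>
      intro t' h0
      have k0 : (0 : ℝ) < k + 1 := by positivity
      push_cast at h0 ⊢
      have h1 := h (t' + (t - t') / (k + 1)) t' (by
        rw [add_sub_cancel_left, abs_div, abs_of_pos k0, div_le_one k0]; exact h0)
      have h2 := ih (t' + (t - t') / (k + 1)) (by
        have : t - (t' + (t - t') / (k + 1)) = (t - t') / (k + 1) * k := by field_simp; ring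
        rw [this, abs_mul, abs_div, abs_of_pos k0, Nat.abs_cast]
        exact mul_le_of_le_one_left k.cast_nonneg ((div_le_one k0).2 h0))
      have h3 := abs_sub_le (f t) (f (t' + (t - t') / (k + 1))) (f t')
      linarith
  exact (key _ t' (Nat.le_ceil _)).trans
    (mul_le_mul_of_nonneg_left (Nat.ceil_lt_add_one (abs_nonneg _)).le C0)

theorem sc1_mem {θ ε : ℝ} (t : ℝ) {μ : ℂ} (h : μ ∈ strip 0 ε) :
    (t : ℂ) + θ * Complex.I + μ ∈ strip θ ε := by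
  simpa [strip] using h

theorem sc1_mem0 {θ ε : ℝ} (h : 0 < ε) (t : ℝ) : (t : ℂ) + θ * Complex.I ∈ strip θ ε := by
  simpa [strip] using h

/-- the zero of the real part of the sheet along a real curve -/
theorem sc1_zero {ν : Fin n → ℝ} {x : Cn n} {r η A T K : ℝ} {τ : Cn n → ℂ}
    (hτ : ContinuousOn τ (ball x r)) (hn : NearLin ν η x r τ) (η0 : 0 ≤ η) {u : ℝ → Fin n → ℝ}
    (hu : Continuous u) (T0 : 0 ≤ T) (A0 : 0 < A) (hA : ‖τ x‖ ≤ A) (K0 : 0 ≤ K) (hK : K * η ≤ 1)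
    (hr : K * A < r) (hb : ∀ t ∈ Set.Icc (-T) T, ∀ i, |u t i| ≤ K * A)
    (h1 : 3 * A ≤ ∑ i, ν i * u T i) (h2 : ∑ i, ν i * u (-T) i ≤ -(3 * A)) :
    ∃ t : ℝ, ∃ U : Cn n, (∀ i, U i = u t i) ∧ ‖U‖ ≤ K * A ∧ (τ (x + U)).re = 0 ∧
      ‖τ (x + U)‖ ≤ (2 + (∑ i, |ν i|) * K) * A := by
  obtain ⟨U, hU⟩ : ∃ U : ℝ → Cn n, U = fun t i => (u t i : ℂ) := ⟨_, rfl⟩
  have KA : 0 ≤ K * A := mul_nonneg K0 A0.le
  have a1 : ∀ t ∈ Set.Icc (-T) T, ‖U t‖ ≤ K * A := fun t ht =>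
    (pi_norm_le_iff_of_nonneg KA).2 fun i => by simpa [hU] using hb t ht i
  have a2 : ∀ t ∈ Set.Icc (-T) T, x + U t ∈ ball x r := fun t ht => by
    simpa [dist_eq_norm] using (a1 t ht).trans_lt hr
  have a3 : ∀ t ∈ Set.Icc (-T) T, ‖τ (x + U t) - τ x + dr ν (U t)‖ ≤ A := fun t ht => by
    have := hn _ (a2 t ht) x (mem_ball_self (KA.trans_lt hr))
    rw [add_sub_cancel_left] at this
    refine this.trans ((mul_le_mul_of_nonneg_left (a1 t ht) η0).trans ?_)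
    nlinarith
  have a4 : ∀ t ∈ Set.Icc (-T) T, |(τ (x + U t)).re - (τ x).re + ∑ i, ν i * u t i| ≤ A :=
    fun t ht => by
      refine le_trans (le_of_eq ?_) ((Complex.abs_re_le_norm _).trans (a3 t ht))
      simp [dr, hU]
  have a5 := abs_le.1 ((Complex.abs_re_le_norm (τ x)).trans hA)
  have hc : ContinuousOn (fun t => (τ (x + U t)).re) (Set.Icc (-T) T) :=
    Complex.continuous_re.comp_continuousOn (hτ.comp (by rw [hU]; fun_prop) a2)
  have hT : -T ≤ T := by linarith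
  obtain ⟨t, ht, h0⟩ := intermediate_value_Icc' hT hc (show (0 : ℝ) ∈ _ from
    ⟨by linarith [(abs_le.1 (a4 T ⟨hT, le_rfl⟩)).2],
      by linarith [(abs_le.1 (a4 (-T) ⟨le_rfl, hT⟩)).1]⟩)
  refine ⟨t, U t, fun i => by rw [hU], a1 t ht, h0, ?_⟩
  have b1 : τ (x + U t) = (τ (x + U t) - τ x + dr ν (U t)) + τ x - dr ν (U t) := by ring
  have b2 := (norm_dr_le ν (U t)).trans (mul_le_mul_of_nonneg_left (a1 t ht)
    (Finset.sum_nonneg fun i _ => abs_nonneg (ν i)))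
  have b3 := norm_sub_le (τ (x + U t) - τ x + dr ν (U t) + τ x) (dr ν (U t))
  have b4 := norm_add_le (τ (x + U t) - τ x + dr ν (U t)) (τ x)
  rw [← b1] at b3
  nlinarith [a3 t ht]

theorem t_sc1 (hbc : T_BC) (hrelv : T_RELV) (hvrel : T_VREL) (hvtrop : T_VTROP)
    (hadapt : T_ADAPT) (hr2 : T_R2) (hstrip : T_STRIP) (hsc2 : T_SC2) : T_SC1 := by
  classical
  intro n F _ _ D v ν hcur hray hv hden
  obtain ⟨N, c, hrel⟩ := hvrel n F D hcur
  obtain ⟨S₀, C₀, g₀, hC₀, hc₀, htrop⟩ := hvtrop n F D N c hrel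
  obtain ⟨l, hl⟩ := hadapt n ν (insert v (dirs n N))
  have had : Adapt N ν l := fun d hd =>
    ⟨(hl d (Finset.mem_insert_of_mem hd)).1.2, (hl d (Finset.mem_insert_of_mem hd)).2.2⟩
  have hna : ¬ D.Alg (mon D.y l) := fun h =>
    ((hl v (Finset.mem_insert_self _ _)).1.1 (by rw [hv]; exact one_pos)).ne' (hr2 n F D v l hray h)
  obtain ⟨S₁, C, ε, η, g₁, C0, ε0, η0, hst⟩ := hstrip n F D hcur l hna
  obtain ⟨cr, cr0, cr1, hcr⟩ := hrelv η η0
  refine ⟨S₀ ∪ S₁, g₀.union g₁, fun H => hsc2 n F D (cQ v) ν l N c C ε ε0 hrel had hden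
    fun δ δ0 => ?_⟩
  obtain ⟨K₁, K₃, K1, K3, hdir⟩ := sc1_dir ν l N had (zero_le_one.trans hC₀)
  obtain ⟨K₂, hK₂⟩ : ∃ K₂, K₂ = K₃ + C * (2 * K₁ + 1) := ⟨_, rfl⟩
  have K2 : 0 ≤ K₂ := hK₂ ▸ by positivity
  have b0 : 0 ≤ ∑ i, |ν i| := Finset.sum_nonneg fun i _ => abs_nonneg _
  obtain ⟨K₄, hK₄⟩ : ∃ K₄, K₄ = K₂ + (2 + (∑ i, |ν i|) * K₂) * ‖cQ v‖ := ⟨_, rfl⟩
  have K24 : K₂ ≤ K₄ := hK₄ ▸ le_add_of_nonneg_right (by positivity)
  have K4 : 0 ≤ K₄ := K2.trans K24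
  obtain ⟨d, ⟨d1, d2, d3, d4, d5⟩, d0⟩ := (((sc1_small 1 δ0).and ((sc1_small K₂ one_pos).and
    ((sc1_small (4 * K₄) cr0).and ((sc1_small (8 * C * K₄) (mul_pos δ0 cr0)).and
      (sc1_small 4 (mul_pos δ0 cr0)))))).and self_mem_nhdsWithin).exists
  have d0 : 0 < d := d0
  obtain ⟨x, r, L, τ, hx, r0, L1, ⟨hτ, hP, hinv⟩, hnl, htm, hA⟩ := H d d0
  obtain ⟨A, eA⟩ : ∃ A, A = ‖τ x‖ + L := ⟨_, rfl⟩
  obtain ⟨r', er⟩ : ∃ r', r' = cr * r / L := ⟨_, rfl⟩
  have L0 : 0 < L := one_pos.trans_le L1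
  have LA : L ≤ A := eA ▸ le_add_of_nonneg_left (norm_nonneg _)
  have A0 : 0 < A := L0.trans_le LA
  have r'0 : 0 < r' := er ▸ by positivity
  have r'r : r' ≤ r := by
    rw [er, div_le_iff₀ L0]
    nlinarith
  have Ar : A * cr ≤ d * r' := by
    rw [er, ← mul_div_assoc, le_div_iff₀ L0]
    rw [← eA] at hA
    nlinarith
  have K4A : K₄ * A ≤ r' / 4 := by
    refine le_of_mul_le_mul_right ?_ cr0
    linarith [mul_le_mul_of_nonneg_left Ar K4, mul_le_mul_of_nonneg_right d3 r'0.le]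
  have K2A : K₂ * A < r := by linarith [mul_le_mul_of_nonneg_right K24 A0.le]
  have hB : ball x r' ⊆ ball x r := ball_subset_ball r'r
  have hζ : DifferentiableOn ℂ (fun p => p + τ p • cQ v) (ball x r) :=
    differentiableOn_id.add (hτ.smul_const _)
  have x0 : x ∈ ball x r' := mem_ball_self r'0
  obtain ⟨θ, j, w, hw, hE, hosc⟩ := hst (ball x r') x (fun p => p + τ p • cQ v) (convex_ball _ _)
    isOpen_ball x0 (hζ.mono hB) (fun p hp => hP p (hB hp)) fun g hg =>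
      ⟨(htm x (hB x0)).ne_zero (Finset.mem_union_right _ hg), fun p hp =>
        hcr n (fun p => eval (p + τ p • cQ v) g) x r L r0 L1
          ((differentiable_eval g).comp_differentiableOn hζ)
          (fun p hp => htm p hp g (Finset.mem_union_right _ hg)) p (er ▸ hp)⟩
  obtain ⟨u, hu⟩ : ∃ u : ℝ → Fin n → ℝ,
      u = fun (t : ℝ) i => (w (x, t + θ * Complex.I) i).re := ⟨_, rfl⟩
  have u1 : ∀ t, dz l (u t) = t := fun t => by
    rw [hu, ← re_dz, (hE x x0 _ (sc1_mem0 ε0 t)).2]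
    simp
  have u2 := fun t => hdir A (u t) A0 (by
    obtain ⟨d, hd, s, s0, h⟩ := htrop _ _ L L1 (hE x x0 _ (sc1_mem0 ε0 t)).1
      ((htm x (hB x0)).subset Finset.subset_union_left)
    exact ⟨d, hd, s, s0, fun i => hu ▸ (h i).trans
      (mul_le_mul_of_nonneg_left LA (zero_le_one.trans hC₀))⟩)
  have u3 : Continuous u := by
    have : Continuous fun t : ℝ => w (x, t + θ * Complex.I) :=
      hw.continuousOn.comp_continuous (by fun_prop) fun t => ⟨x0, sc1_mem0 ε0 t⟩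
    rw [hu]
    exact continuous_pi fun i => Complex.continuous_re.comp ((continuous_apply i).comp this)
  have u4 : ∀ t ∈ Set.Icc (-(K₁ * A)) (K₁ * A), ∀ i, |u t i| ≤ K₂ * A := fun t ht i => by
    have h1 := sc1_osc (f := fun t => u t i) C0 (fun t t' h => by
      rw [hu]
      exact hosc x x0 x x0 _ (sc1_mem0 ε0 t) _ (sc1_mem0 ε0 t') (by simpa using h) i) t (K₁ * A)
    have h2 := ((u2 _).1 (u1 _)).2 i
    have h3 : |t - K₁ * A| + 1 ≤ (2 * K₁ + 1) * A := by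
      rw [abs_of_nonpos (by linarith [ht.2])]
      linarith [ht.1]
    have h4 := abs_add_le (u t i - u (K₁ * A) i) (u (K₁ * A) i)
    rw [sub_add_cancel] at h4
    rw [hK₂]
    linarith [mul_le_mul_of_nonneg_left h3 C0]
  obtain ⟨t, U, hU, nU, hre, nτ⟩ := sc1_zero hτ.continuousOn hnl d0.le u3 (by positivity) A0
    (by linarith) K2 d2 K2A u4
    ((u2 _).1 (u1 _)).1 ((u2 _).2 (u1 _))
  obtain ⟨p, hp⟩ : ∃ p, p = x + U + τ (x + U) • cQ v := ⟨_, rfl⟩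
  have p1 : ‖p - x‖ ≤ K₄ * A := by
    have h1 : p - x = U + τ (x + U) • cQ v := by rw [hp]; abel
    have h2 := norm_add_le U (τ (x + U) • cQ v)
    rw [norm_smul, ← h1] at h2
    rw [hK₄]
    linarith [mul_le_mul_of_nonneg_right nτ (norm_nonneg (cQ v))]
  have hB' : ball p (r' / 4) ⊆ ball x (r' / 2) :=
    ball_subset_ball' (by rw [dist_eq_norm]; linarith)
  have hB2 : ball p (r' / 4) ⊆ ball x r' := hB'.trans (ball_subset_ball (by linarith))
  have p0 : p ∈ ball p (r' / 4) := mem_ball_self (by positivity)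
  have p2 : τ p = 0 := by
    have := hinv (x + U) (by simpa [dist_eq_norm] using nU.trans_lt K2A) (τ (x + U))
      (hp ▸ hB (hB2 p0))
    rwa [← hp, sub_self] at this
  refine ⟨p, r' / 4, τ, fun z => w (z.1, t + θ * Complex.I + z.2), ?_, hτ.mono (hB2.trans hB), p2,
    fun a ha b hb => (hnl a (hB (hB2 ha)) b (hB (hB2 hb))).trans
      (mul_le_mul_of_nonneg_right (by linarith) (norm_nonneg _)),
    hw.comp (by fun_prop) fun z hz => ⟨hB2 hz.1, sc1_mem t hz.2⟩, fun a ha μ hμ => ⟨(hE a (hB2 ha) _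
      (sc1_mem t hμ)).1, ?_⟩, fun a ha a' ha' μ hμ μ' hμ' h i => hosc a (hB2 ha) a' (hB2 ha') _
      (sc1_mem t hμ) _ (sc1_mem t hμ') (by simpa using h) i, fun i => ?_, fun i j => ?_⟩
  · rw [inv_le_iff_one_le_mul₀ δ0]
    refine le_of_mul_le_mul_right ?_ cr0
    linarith [mul_le_mul_of_nonneg_right d5 r'0.le, mul_le_mul_of_nonneg_right (L1.trans LA) cr0.le]
  · simp only [add_zero]
    rw [(hE a (hB2 ha) _ (sc1_mem t hμ)).2, (hE a (hB2 ha) _ (sc1_mem0 ε0 t)).2]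
    ring
  · have h1 : (p i).re = (w (x, t + θ * Complex.I) i).re := by
      simp [hp, hU, hu, hx i, hre, cQ]
    have h2 := (hbc (Cn n) (fun a => w (a, t + θ * Complex.I) i) x r' C r'0
      (differentiableOn_pi.1 (hw.comp (by fun_prop) fun a ha => ⟨ha, sc1_mem0 ε0 t⟩) i)
      fun a ha a' ha' => hosc a ha a' ha' _ (sc1_mem0 ε0 t) _ (sc1_mem0 ε0 t) (by simp) i).2
      p (hB' p0) x (mem_ball_self (by positivity))
    simp only [add_zero]
    rw [h1, ← Complex.sub_re]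
    refine (Complex.abs_re_le_norm _).trans (h2.trans
      ((mul_le_mul_of_nonneg_left p1 (by positivity)).trans ?_))
    rw [div_mul_eq_mul_div, div_le_iff₀ r'0]
    refine le_of_mul_le_mul_right ?_ cr0
    linarith [mul_le_mul_of_nonneg_left Ar (by positivity : 0 ≤ 8 * C * K₄),
      mul_le_mul_of_nonneg_right d4 r'0.le]
  · obtain ⟨ab, h1, h2⟩ := hc₀ i j
    have := (htm p (hB (hB2 p0))).ne_zero (Finset.mem_union_left _ h2)
    rw [p2, zero_smul, add_zero] at this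
    exact ⟨ab, h1, this⟩

end Pool.Agent.P.MP_d2ed07_lc
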