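import Pool.Agent.P.MP_d2ed07_lc.Basic2
import Pool.Agent.P.MP_d2ed07_lc.SC1

/-!
The abstract strip engine.
-/

namespace Pool.Agent.P.MP_d2ed07_lc

open MvPolynomial Metric Filter Topology

theorem t_aeng (hbc : T_BC) (hasc2 : T_ASC2) : T_AENG := by
  intro n v ν l N C ε C₀ C0 ε0 hC₀ had hden
  obtain ⟨δ, δ0, H⟩ := hasc2 n ν l N C ε C0 ε0 had hden
  obtain ⟨K₁, K₃, K1, K3, hdir⟩ := sc1_dir ν l N had hC₀
  obtain ⟨K₂, hK₂⟩ : ∃ K₂, K₂ = K₃ + C * (2 * K₁ + 1) := ⟨_, rfl⟩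
  have K2 : 0 ≤ K₂ := hK₂ ▸ by positivity
  have b0 : 0 ≤ ∑ i, |ν i| := Finset.sum_nonneg fun i _ => abs_nonneg _
  obtain ⟨K₄, hK₄⟩ : ∃ K₄, K₄ = K₂ + (2 + (∑ i, |ν i|) * K₂) * ‖cQ v‖ := ⟨_, rfl⟩
  have K24 : K₂ ≤ K₄ := hK₄ ▸ le_add_of_nonneg_right (by positivity)
  have K4 : 0 ≤ K₄ := K2.trans K24
  obtain ⟨d, ⟨d1, d2, d3, d4, d5⟩, d0⟩ := (((sc1_small 1 δ0).and ((sc1_small K₂ one_pos).and
    ((sc1_small (4 * K₄) one_pos).and ((sc1_small (8 * C * K₄) δ0).and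
      (sc1_small 4 δ0))))).and self_mem_nhdsWithin).exists
  have d0 : 0 < d := d0
  refine ⟨d, d0, fun x r L θ j τ w hx L1 hτ hinv hnl hA hw hE hosc htrop hrel => ?_⟩
  obtain ⟨A, eA⟩ : ∃ A, A = ‖τ x‖ + L := ⟨_, rfl⟩
  have L0 : 0 < L := one_pos.trans_le L1
  have LA : L ≤ A := eA ▸ le_add_of_nonneg_left (norm_nonneg _)
  have A0 : 0 < A := L0.trans_le LA
  rw [← eA] at hA
  have r0 : 0 < r := (pos_iff_pos_of_mul_pos (A0.trans_le hA)).1 d0
  have K4A : K₄ * A ≤ r / 4 := by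
    linarith [mul_le_mul_of_nonneg_left hA K4, mul_le_mul_of_nonneg_right d3 r0.le]
  have K2A : K₂ * A < r := by linarith [mul_le_mul_of_nonneg_right K24 A0.le]
  have x0 : x ∈ ball x r := mem_ball_self r0
  obtain ⟨u, hu⟩ : ∃ u : ℝ → Fin n → ℝ,
      u = fun (t : ℝ) i => (w (x, t + θ * Complex.I) i).re := ⟨_, rfl⟩
  have u1 : ∀ t, dz l (u t) = t := fun t => by
    rw [hu, ← re_dz, hE x x0 _ (sc1_mem0 ε0 t)]
    simp
  have u2 := fun t => hdir A (u t) A0 (by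
    obtain ⟨d, hd, s, s0, h⟩ := htrop _ (sc1_mem0 ε0 t)
    exact ⟨d, hd, s, s0, fun i => hu ▸ (h i).trans (mul_le_mul_of_nonneg_left LA hC₀)⟩)
  have u3 : Continuous u := by
    have : Continuous fun t : ℝ => w (x, t + θ * Complex.I) :=
      hw.continuousOn.comp_continuous (by fun_prop) fun t => ⟨x0, sc1_mem0 ε0 t⟩
    rw [hu]
    exact continuous_pi fun i => Complex.continuous_re.comp ((continuous_apply i).comp this)
  have u4 : ∀ t ∈ Set.Icc (-(K₁ * A)) (K₁ * A), ∀ i, |u t i| ≤ K₂ * A := fun t ht i => by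
    have h1 := sc1_osc (f := fun t => u t i) C0 (fun t t' h => by
      rw [hu]
      exact hosc x x0 x x0 _ (sc1_mem0 ε0 t) _ (sc1_mem0 ε0 t') (by simpa using h) i) t (K₁ * A)
    have h2 := ((u2 _).1 (u1 _)).2 i
    have h3 : |t - K₁ * A| + 1 ≤ (2 * K₁ + 1) * A := by
      rw [abs_of_nonpos (by linarith [ht.2])]
      linarith [ht.1]
    have h4 := abs_add_le (u t i - u (K₁ * A) i) (u (K₁ * A) i)
    rw [sub_add_cancel] at h4
    rw [hK₂]
    linarith [mul_le_mul_of_nonneg_left h3 C0]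
  obtain ⟨t, U, hU, nU, hre, nτ⟩ := sc1_zero hτ.continuousOn hnl d0.le u3 (by positivity) A0
    (by linarith) K2 d2 K2A u4
    ((u2 _).1 (u1 _)).1 ((u2 _).2 (u1 _))
  obtain ⟨p, hp⟩ : ∃ p, p = x + U + τ (x + U) • cQ v := ⟨_, rfl⟩
  have p1 : ‖p - x‖ ≤ K₄ * A := by
    have h1 : p - x = U + τ (x + U) • cQ v := by rw [hp]; abel
    have h2 := norm_add_le U (τ (x + U) • cQ v)
    rw [norm_smul, ← h1] at h2
    rw [hK₄]
    linarith [mul_le_mul_of_nonneg_right nτ (norm_nonneg (cQ v))]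
  have hB' : ball p (r / 4) ⊆ ball x (r / 2) :=
    ball_subset_ball' (by rw [dist_eq_norm]; linarith)
  have hB2 : ball p (r / 4) ⊆ ball x r := hB'.trans (ball_subset_ball (by linarith))
  have p0 : p ∈ ball p (r / 4) := mem_ball_self (by positivity)
  have p2 : τ p = 0 := by
    have := hinv (x + U) (by simpa [dist_eq_norm] using nU.trans_lt K2A) (τ (x + U))
      (hp ▸ hB2 p0)
    rwa [← hp, sub_self] at this
  obtain ⟨a, ha, μ, hμ, k, h1, h2⟩ := H p (r / 4) τ (fun z => w (z.1, t + θ * Complex.I + z.2))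
    (by
      rw [inv_le_iff_one_le_mul₀ δ0]
      linarith [mul_le_mul_of_nonneg_right d5 r0.le])
    (hτ.mono hB2) p2
    (fun a ha b hb => (hnl a (hB2 ha) b (hB2 hb)).trans
      (mul_le_mul_of_nonneg_right (by linarith) (norm_nonneg _)))
    (hw.comp (by fun_prop) fun z hz => ⟨hB2 hz.1, sc1_mem t hz.2⟩)
    (fun a ha μ hμ => by
      simp only [add_zero]
      rw [hE a (hB2 ha) _ (sc1_mem t hμ), hE a (hB2 ha) _ (sc1_mem0 ε0 t)]
      ring)
    (fun a ha a' ha' μ hμ μ' hμ' h i => hosc a (hB2 ha) a' (hB2 ha') _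
      (sc1_mem t hμ) _ (sc1_mem t hμ') (by simpa using h) i)
    (fun i => by
      have h1 : (p i).re = (w (x, t + θ * Complex.I) i).re := by
        simp [hp, hU, hu, hx i, hre, cQ]
      have h2 := (hbc (Cn n) (fun a => w (a, t + θ * Complex.I) i) x r C r0
        (differentiableOn_pi.1 (hw.comp (by fun_prop) fun a ha => ⟨ha, sc1_mem0 ε0 t⟩) i)
        fun a ha a' ha' => hosc a ha a' ha' _ (sc1_mem0 ε0 t) _ (sc1_mem0 ε0 t) (by simp) i).2
        p (hB' p0) x (mem_ball_self (by positivity))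
      simp only [add_zero]
      rw [h1, ← Complex.sub_re]
      refine (Complex.abs_re_le_norm _).trans (h2.trans
        ((mul_le_mul_of_nonneg_left p1 (by positivity)).trans ?_))
      rw [div_mul_eq_mul_div, div_le_iff₀ r0]
      linarith [mul_le_mul_of_nonneg_left hA (by positivity : 0 ≤ 8 * C * K₄),
        mul_le_mul_of_nonneg_right d4 r0.le])
    (fun i j => by
      obtain ⟨c, h1, h2⟩ := hrel p (hB2 p0) i j
      exact ⟨c, h1, fun μ hμ => h2 _ (sc1_mem t hμ)⟩)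
  exact ⟨a, hB2 ha, _, sc1_mem t hμ, k, by rw [h1, zero_smul, add_zero]; exact h2⟩

end Pool.Agent.P.MP_d2ed07_lc
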