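import Pool.Agent.P.MP_d2ed07_lc.Basic

/-! Holomorphic lifts to the variety over the hypersurface. -/

namespace Pool.Agent.P.MP_d2ed07_lc

open MvPolynomial Metric Filter Topology

variable {n : ℕ}

theorem lift_deg (x : Cn n) (β : ℂ) (G : P2 n) : (sp2 x β G).natDegree ≤ G.natDegree :=
  Polynomial.natDegree_map_le

theorem lift_monic (x : Cn n) (β : ℂ) {G : P2 n} (h : G.Monic) : (sp2 x β G).Monic := h.map _

theorem lift_deg_eq (x : Cn n) (β : ℂ) {G : P2 n} (h : G.Monic) :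
    (sp2 x β G).natDegree = G.natDegree := h.natDegree_map _

theorem lift_diff {E : Type} [NormedAddCommGroup E] [NormedSpace ℂ E] {Ω : Set E}
    {ζ : E → Cn n} {b θ : E → ℂ} (hζ : DifferentiableOn ℂ ζ Ω) (hb : DifferentiableOn ℂ b Ω)
    (hθ : DifferentiableOn ℂ θ Ω) (G : P2 n) :
    DifferentiableOn ℂ (fun x => (sp2 (ζ x) (b x) G).eval (θ x)) Ω := by
  have : (fun x => (sp2 (ζ x) (b x) G).eval (θ x)) = fun x =>
      ∑ j ∈ Finset.range (G.natDegree + 1), ev1 (ζ x) (b x) (G.coeff j) * θ x ^ j := by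
    funext x
    rw [Polynomial.eval_eq_sum_range' (Nat.lt_succ_of_le (lift_deg _ _ G))]
    simp only [coeff_sp2]
  rw [this]
  exact DifferentiableOn.fun_sum fun j _ => (differentiableOn_ev1 hζ hb _).mul (hθ.pow j)

theorem lift_int {E : Type} [TopologicalSpace E] {Ω : Set E} (hΩ : IsPreconnected Ω) {f : E → ℂ}
    (hf : ContinuousOn f Ω) (h1 : ∀ x ∈ Ω, Complex.exp (f x) = 1) :
    ∃ j : ℤ, ∀ x ∈ Ω, f x = 2 * Real.pi * Complex.I * j := by
  rcases Ω.eq_empty_or_nonempty with rfl | ⟨x₀, hx₀⟩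
  · exact ⟨0, fun x hx => hx.elim⟩
  have hc : (2 * Real.pi * Complex.I : ℂ) ≠ 0 := Complex.two_pi_I_ne_zero
  have hd : IsDiscrete (Set.range fun j : ℤ => (j : ℂ)) :=
    Complex.isClosedEmbedding_intCast.isInducing.isDiscrete_range
  have hm : Set.MapsTo (fun x => f x / (2 * Real.pi * Complex.I)) Ω
      (Set.range fun j : ℤ => (j : ℂ)) := by
    intro x hx
    obtain ⟨j, hj⟩ := Complex.exp_eq_one_iff.1 (h1 x hx)
    exact ⟨j, by simp only [hj]; field_simp⟩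
  obtain ⟨j, hj⟩ := hm hx₀
  refine ⟨j, fun x hx => ?_⟩
  have := hΩ.constant_of_mapsTo hd (hf.div_const _) hm hx hx₀
  simp only at hj this
  rw [hj, ← this]; field_simp

theorem t_lift (hsheet : T_SHEET) (hlog : T_LOG) : T_LIFT := by
  intro n F _ _ D l M μ h G hP hM E _ _ _ Ω ζ φ hc ho hζ hφ hx x₀ hx₀ t₀ ht₀
  obtain ⟨hμ, -, -, hP⟩ := hP
  have hb : DifferentiableOn ℂ (fun x => Complex.exp (φ x)) Ω := hφ.cexp
  obtain ⟨θ, hθ, hθ0, hθ1⟩ := hsheet E Ω (fun x => sp2 (ζ x) (Complex.exp (φ x)) μ) μ.natDegree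
    hc ho (fun j => by simpa only [coeff_sp2] using differentiableOn_ev1 hζ hb _)
    (fun x _ => ⟨lift_deg _ _ _, by
      rw [← lift_deg_eq (ζ x) (Complex.exp (φ x)) hμ, (lift_monic _ _ hμ).coeff_natDegree]
      exact one_ne_zero⟩)
    (fun x hx' t ht => (hP _ _ t (hx x hx').1 (hx x hx').2 ht).1) x₀ hx₀ t₀ ht₀
  choose! y hy0 hy1 hy2 hy3 using fun x (hx' : x ∈ Ω) =>
    (hP _ _ _ (hx x hx').1 (hx x hx').2 (hθ1 x hx')).2
  have hy : ∀ i, DifferentiableOn ℂ (fun x => y x i) Ω := fun i => by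
    refine ((lift_diff hζ hb hθ (G (Pi.single i 1))).mul ((differentiableOn_ev1 hζ hb h).inv
      fun x hx' => (hx x hx').2)).congr fun x hx' => ?_
    have := hy3 x hx' _ (hM i)
    rw [mon_single] at this
    exact (eq_mul_inv_iff_mul_eq₀ (hx x hx').2).2 this
  choose g hg hg1 using fun i => hlog E Ω (fun x => y x i) hc ho (hy i) fun x hx' => hy0 x hx' i
  have hw : DifferentiableOn ℂ (fun x i => g i x) Ω := differentiableOn_pi.2 hg
  have hex : ∀ x ∈ Ω, ex (fun i => g i x) = y x := fun x hx' => funext fun i => hg1 i x hx'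
  obtain ⟨j, hj⟩ := lift_int (f := fun x => dz l (fun i => g i x) - φ x) hc.isPreconnected
    (((differentiable_dz l).comp_differentiableOn hw).sub hφ).continuousOn fun x hx' => by
      rw [Complex.exp_sub, exp_dz, hex x hx', hy2 x hx', div_self (Complex.exp_ne_zero _)]
  refine ⟨θ, fun x i => g i x, j, hθ0, hw, fun x hx' => ⟨hθ1 x hx', ?_, ?_, fun m hm => ?_⟩⟩
  · unfold Data.OnE
    rw [hex x hx']; exact hy1 x hx'
  · rw [← hj x hx']; ring
  · rw [exp_dz, hex x hx']; exact hy3 x hx' m hm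

theorem lift_coef (hgrow1 : T_GROW1) (G : P2 n) : ∃ N : ℕ, ∀ (R : ℝ) (x : Cn n) (β : ℂ), 2 ≤ R →
    ‖x‖ ≤ R → ‖β‖ ≤ R → ∀ j, ‖(sp2 x β G).coeff j‖ ≤ R ^ N := by
  choose f hf using fun j => hgrow1 n (G.coeff j)
  refine ⟨(Finset.range (G.natDegree + 1)).sup f, fun R x β hR hx hβ j => ?_⟩
  rcases le_or_gt j G.natDegree with hj | hj
  · rw [coeff_sp2]
    exact (hf j R x β hR hx hβ).trans (pow_le_pow_right₀ (by linarith)
      (Finset.le_sup (Finset.mem_range.2 (Nat.lt_succ_of_le hj))))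
  · rw [Polynomial.coeff_eq_zero_of_natDegree_lt ((lift_deg _ _ G).trans_lt hj), norm_zero]
    positivity

theorem lift_root {q : Polynomial ℂ} (hq : q.Monic) {A : ℝ} (hA : 0 ≤ A)
    (h : ∀ j, ‖q.coeff j‖ ≤ A) {t : ℂ} (ht : q.eval t = 0) : ‖t‖ ≤ A + 1 := by
  have h1 := Polynomial.IsRoot.norm_lt_cauchyBound hq.ne_zero ht
  rw [Polynomial.cauchyBound, hq.leadingCoeff, nnnorm_one, div_one] at h1
  have h2 : (Finset.range q.natDegree).sup (fun j => ‖q.coeff j‖₊) ≤ ⟨A, hA⟩ :=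
    Finset.sup_le fun j _ => h j
  have h3 : ‖t‖₊ ≤ ⟨A, hA⟩ + 1 := h1.le.trans (add_le_add_left h2 1)
  exact h3

theorem lift_val (hgrow1 : T_GROW1) {μ : P2 n} (hμ : μ.Monic) (G : P2 n) :
    ∃ N : ℕ, ∀ (R : ℝ) (x : Cn n) (β t : ℂ), 2 ≤ R → ‖x‖ ≤ R → ‖β‖ ≤ R →
      (sp2 x β μ).eval t = 0 → ‖(sp2 x β G).eval t‖ ≤ R ^ N := by
  obtain ⟨a, ha⟩ := lift_coef hgrow1 μ
  obtain ⟨b, hb⟩ := lift_coef hgrow1 G
  refine ⟨G.natDegree + (b + (a + 1) * G.natDegree), fun R x β t hR hx hβ ht => ?_⟩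
  have R1 : 1 ≤ R := by linarith
  have h1 := lift_root (lift_monic x β hμ) (by positivity) (ha R x β hR hx hβ) ht
  have h2 : ‖t‖ ≤ R ^ (a + 1) := by
    have := one_le_pow₀ (n := a) R1
    rw [pow_succ]; nlinarith
  rw [Polynomial.eval_eq_sum_range' (Nat.lt_succ_of_le (lift_deg x β G))]
  refine (norm_sum_le _ _).trans ((Finset.sum_le_card_nsmul _ _
    (R ^ (b + (a + 1) * G.natDegree)) fun j hj => ?_).trans ?_)
  · rw [norm_mul, norm_pow, pow_add, pow_mul]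
    refine mul_le_mul (hb R x β hR hx hβ j) ((pow_le_pow_left₀ (norm_nonneg _) h2 j).trans
      (pow_le_pow_right₀ (one_le_pow₀ R1) (Nat.lt_succ_iff.1 (Finset.mem_range.1 hj))))
      (by positivity) (by positivity)
  · rw [Finset.card_range, nsmul_eq_mul, pow_add R G.natDegree]
    refine mul_le_mul_of_nonneg_right ?_ (by positivity)
    have h3 : ((G.natDegree + 1 : ℕ) : ℝ) ≤ 2 ^ G.natDegree := by
      exact_mod_cast Nat.lt_two_pow_self
    exact h3.trans (pow_le_pow_left₀ zero_le_two hR _)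

theorem t_fib (hparam : T_PARAM) (hlift : T_LIFT) (hgrow1 : T_GROW1) : T_FIB := by
  classical
  intro n F _ _ D hD m hm
  set M : Finset (Fin n → ℤ) := Finset.univ.image (fun i => Pi.single i 1) ∪
    Finset.univ.image (fun i => -Pi.single i 1) with hM
  have hM1 : ∀ i, Pi.single i 1 ∈ M := fun i =>
    Finset.mem_union_left _ (Finset.mem_image_of_mem _ (Finset.mem_univ i))
  have hM2 : ∀ i, -Pi.single i 1 ∈ M := fun i =>
    Finset.mem_union_right _ (Finset.mem_image_of_mem _ (Finset.mem_univ i))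
  obtain ⟨μ, h, G, hP⟩ := hparam n F D hD m hm M
  choose f hf using fun m' => lift_val hgrow1 hP.1 (G m')
  refine ⟨h, (M.sup f : ℕ) + 1, by linarith [Nat.cast_nonneg (α := ℝ) (M.sup f)], hP.2.2.1, ?_⟩
  intro B ζ φ L hc ho hζ hφ hL hx
  rcases B.eq_empty_or_nonempty with rfl | ⟨x₀, hx₀⟩
  · exact ⟨0, 0, differentiableOn_empty, fun x hx => hx.elim⟩
  have hne : ∀ x ∈ B, ev1 (ζ x) (Complex.exp (φ x)) h ≠ 0 := fun x hx' =>
    norm_pos_iff.1 ((Real.exp_pos _).trans_le (hx x hx').2.2.2)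
  obtain ⟨t₀, ht₀⟩ := Complex.exists_root (f := sp2 (ζ x₀) (Complex.exp (φ x₀)) μ)
    (Polynomial.natDegree_pos_iff_degree_pos.1 (by rw [lift_deg_eq _ _ hP.1]; exact hP.2.1))
  obtain ⟨θ, w, j, -, hw, hθ⟩ := hlift n F D m M μ h G hP hM1 (Cn n) B ζ φ hc ho hζ hφ
    (fun x hx' => ⟨(hx x hx').1, hne x hx'⟩) x₀ hx₀ t₀ ht₀
  refine ⟨w, j, hw, fun x hx' => ⟨(hθ x hx').2.1, (hθ x hx').2.2.1, ?_⟩⟩
  have hR : 2 ≤ Real.exp L := by linarith [Real.add_one_le_exp L]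
  have hβ : ‖Complex.exp (φ x)‖ ≤ Real.exp L := by
    rw [Complex.norm_exp]
    exact Real.exp_le_exp.2 ((Complex.re_le_norm _).trans (hx x hx').2.2.1)
  have key : ∀ m' ∈ M, (dz m' (w x)).re ≤ ((M.sup f : ℕ) + 1) * L := by
    intro m' hm'
    have h1 := hf m' _ _ _ _ hR (hx x hx').2.1 hβ (hθ x hx').1
    rw [← (hθ x hx').2.2.2 m' hm', norm_mul, Complex.norm_exp] at h1
    have h2 := (mul_le_mul_of_nonneg_left (hx x hx').2.2.2 (Real.exp_pos _).le).trans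
      (h1.trans (pow_le_pow_right₀ (by linarith) (Finset.le_sup (f := f) hm')))
    rw [← Real.exp_add, ← Real.exp_nat_mul, Real.exp_le_exp] at h2
    linarith
  intro i
  have h1 := key _ (hM1 i)
  have h2 := key _ (hM2 i)
  rw [dz_neg_left, dz_single_left, Complex.neg_re] at h2
  rw [dz_single_left] at h1
  exact abs_le.2 ⟨by linarith, h1⟩

end Pool.Agent.P.MP_d2ed07_lc
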