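import Pool.Agent.P.MP_d2ed07_lc.Basic

/-! Parametrisation of the fibres by a primitive element. -/

namespace Pool.Agent.P.MP_d2ed07_lc

open MvPolynomial Metric Filter Topology

section abs
variable {R K F : Type} [CommRing R] [Field K] [Field F] [Algebra K F]

theorem param_den (φ : R →+* K) (hfr : ∀ a : K, ∃ r s, φ s ≠ 0 ∧ φ s * a = φ r)
    (q : Polynomial K) : ∃ (s : R) (Q : Polynomial R), φ s ≠ 0 ∧
      Q.map φ = Polynomial.C (φ s) * q := by
  induction q using Polynomial.induction_on' with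
  | add p q hp hq =>
    obtain ⟨s, Q, hs, e⟩ := hp
    obtain ⟨s', Q', hs', e'⟩ := hq
    refine ⟨s * s', Polynomial.C s' * Q + Polynomial.C s * Q', by simp [hs, hs'], ?_⟩
    simp only [Polynomial.map_add, Polynomial.map_mul, Polynomial.map_C, e, e', map_mul]
    ring
  | monomial j a =>
    obtain ⟨r, s, hs, e⟩ := hfr a
    exact ⟨s, Polynomial.monomial j r, hs, by simp [Polynomial.C_mul_monomial, e]⟩

theorem param_prim [CharZero K] (T : Finset F) (hT : ∀ a ∈ T, IsAlgebraic K a) :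
    ∃ t : F, IsIntegral K t ∧ ∀ a ∈ T, ∃ q : Polynomial K, a = Polynomial.aeval t q := by
  have := IntermediateField.finiteDimensional_adjoin (K := K) (S := (T : Set F))
    fun a ha => (hT a ha).isIntegral
  obtain ⟨t, ht⟩ := Field.exists_primitive_element K (IntermediateField.adjoin K (T : Set F))
  have h1 : IsIntegral K t := IsIntegral.of_finite K t
  refine ⟨t, h1.map (IntermediateField.val _), fun a ha => ?_⟩
  have h2 : (⟨a, IntermediateField.subset_adjoin K _ ha⟩ : IntermediateField.adjoin K (T : Set F))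
      ∈ (IntermediateField.adjoin K {t}).toSubalgebra := by rw [ht]; trivial
  rw [IntermediateField.adjoin_simple_toSubalgebra_of_isAlgebraic h1.isAlgebraic,
    Algebra.adjoin_singleton_eq_range_aeval] at h2
  obtain ⟨q, hq⟩ := h2
  refine ⟨q, ?_⟩
  exact (congrArg (IntermediateField.val _) hq).symm.trans
    (Polynomial.aeval_algHom_apply (IntermediateField.val _) t q).symm

theorem param_monic [CharZero K] (φ : R →+* K) (hfr : ∀ a : K, ∃ r s, φ s ≠ 0 ∧ φ s * a = φ r)
    (T : Finset F) (hT : ∀ a ∈ T, IsAlgebraic K a) :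
    ∃ (θ : F) (μ : Polynomial R), IsIntegral K θ ∧ μ.Monic ∧ 0 < μ.natDegree ∧
      μ.map φ = minpoly K θ ∧ ∀ a ∈ T, ∃ q : Polynomial K, a = Polynomial.aeval θ q := by
  obtain ⟨t, ht, h⟩ := param_prim T hT
  obtain ⟨s, Q, hs, e⟩ := param_den φ hfr (minpoly K t)
  have hθ : IsIntegral K (φ s • t) := ht.smul _
  have hl : minpoly K (φ s • t) ∈ Polynomial.lifts φ := by
    rw [IsIntegrallyClosed.minpoly_smul hs ht, Polynomial.lifts_iff_coeff_lifts]
    intro j
    rw [Polynomial.coeff_scaleRoots]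
    rcases lt_trichotomy j (minpoly K t).natDegree with hj | rfl | hj
    · obtain ⟨i, hi⟩ := Nat.exists_eq_succ_of_ne_zero (Nat.sub_ne_zero_of_lt hj)
      refine ⟨Q.coeff j * s ^ i, ?_⟩
      rw [map_mul, map_pow, ← Polynomial.coeff_map, e, Polynomial.coeff_C_mul, hi, pow_succ]
      ring
    · exact ⟨1, by simp [(minpoly.monic ht).coeff_natDegree]⟩
    · exact ⟨0, by simp [Polynomial.coeff_eq_zero_of_natDegree_lt hj]⟩
  obtain ⟨μ, h1, h2, h3⟩ := Polynomial.lifts_and_natDegree_eq_and_monic hl (minpoly.monic hθ)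
  refine ⟨_, μ, hθ, h3, h2 ▸ minpoly.natDegree_pos hθ, h1, fun a ha => ?_⟩
  obtain ⟨q, rfl⟩ := h a ha
  refine ⟨q.comp (Polynomial.C (φ s)⁻¹ * Polynomial.X), ?_⟩
  rw [Polynomial.aeval_comp]
  congr 2
  simp [Algebra.smul_def, hs]

theorem param_abs [CharZero K] (φ : R →+* K) (hfr : ∀ a : K, ∃ r s, φ s ≠ 0 ∧ φ s * a = φ r)
    (T : Finset F) (hT : ∀ a ∈ T, IsAlgebraic K a) :
    ∃ (θ : F) (μ : Polynomial R) (h : R), μ.Monic ∧ 0 < μ.natDegree ∧ φ h ≠ 0 ∧
      (∀ G : Polynomial R, Polynomial.aeval θ (G.map φ) = 0 → (G %ₘ μ).map φ = 0) ∧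
      (∀ a ∈ T, ∃ G : Polynomial R, a * algebraMap K F (φ h) = Polynomial.aeval θ (G.map φ)) ∧
      ∃ A B : Polynomial R, (A * μ + B * Polynomial.derivative μ - Polynomial.C h).map φ = 0 := by
  classical
  obtain ⟨θ, μ, hθ, h1, h2, h3, h4⟩ := param_monic φ hfr T hT
  have h5 : ∀ T' : Finset F, (∀ a ∈ T', ∃ q : Polynomial K, a = Polynomial.aeval θ q) →
      ∃ h : R, φ h ≠ 0 ∧ ∀ a ∈ T', ∃ G : Polynomial R,
        a * algebraMap K F (φ h) = Polynomial.aeval θ (G.map φ) := by
    intro T'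
    induction T' using Finset.induction_on with
    | empty => exact fun _ => ⟨1, by simp, by simp⟩
    | insert a T' _ ih =>
      intro h
      obtain ⟨s, hs, e⟩ := ih fun b hb => h b (Finset.mem_insert_of_mem hb)
      obtain ⟨q, rfl⟩ := h a (Finset.mem_insert_self _ _)
      obtain ⟨s', Q, hs', e'⟩ := param_den φ hfr q
      refine ⟨s * s', by simp [hs, hs'], fun b hb => ?_⟩
      rcases Finset.mem_insert.1 hb with rfl | hb
      · refine ⟨Polynomial.C s * Q, ?_⟩
        simp only [Polynomial.map_mul, Polynomial.map_C, e', map_mul, Polynomial.aeval_C]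
        ring
      · obtain ⟨G, hG⟩ := e b hb
        refine ⟨Polynomial.C s' * G, ?_⟩
        simp only [Polynomial.map_mul, Polynomial.map_C, ← hG, map_mul, Polynomial.aeval_C]
        ring
  obtain ⟨s, hs, e⟩ := h5 T h4
  obtain ⟨a, b, hab⟩ := (minpoly.irreducible hθ).separable
  obtain ⟨sa, A, ha, ea⟩ := param_den φ hfr a
  obtain ⟨sb, B, hb, eb⟩ := param_den φ hfr b
  refine ⟨θ, μ, s * (sa * sb), h1, h2, by simp [hs, ha, hb], fun G hG => ?_, fun c hc => ?_,
    Polynomial.C (s * sb) * A, Polynomial.C (s * sa) * B, ?_⟩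
  · rw [Polynomial.map_modByMonic _ h1, h3]
    exact (Polynomial.modByMonic_eq_zero_iff_dvd (minpoly.monic hθ)).2 (minpoly.dvd K θ hG)
  · obtain ⟨G, hG⟩ := e c hc
    refine ⟨Polynomial.C (sa * sb) * G, ?_⟩
    simp only [Polynomial.map_mul, Polynomial.map_C, ← hG, map_mul, Polynomial.aeval_C]
    ring
  · simp only [Polynomial.map_sub, Polynomial.map_add, Polynomial.map_mul, Polynomial.map_C,
      ← Polynomial.derivative_map, h3, ea, eb, map_mul]
    linear_combination (Polynomial.C (φ s) * Polynomial.C (φ sa) * Polynomial.C (φ sb)) * hab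

theorem param_graph {L : Type} [Field L] (E : R →+* F) (E' : R →+* L)
    (hk : ∀ G, E G = 0 → E' G = 0) (H : R) (hH : E' H ≠ 0) :
    ∃ Γ : Subring (F × L), (∀ G, (E G, E' G) ∈ Γ) ∧
      (∀ a G, a * E H = E G → (a, E' G / E' H) ∈ Γ) ∧
      ∀ a c c', (a, c) ∈ Γ → (a, c') ∈ Γ → c = c' := by
  let Γ : Subring (F × L) :=
    { carrier := {w | ∃ (N : ℕ) (G : R), w.1 * E H ^ N = E G ∧ w.2 * E' H ^ N = E' G}
      mul_mem' := by
        rintro a b ⟨N, G, h1, h2⟩ ⟨N', G', h1', h2'⟩
        refine ⟨N + N', G * G', ?_, ?_⟩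
        · rw [map_mul, ← h1, ← h1', Prod.fst_mul]; ring
        · rw [map_mul, ← h2, ← h2', Prod.snd_mul]; ring
      one_mem' := ⟨0, 1, by simp, by simp⟩
      add_mem' := by
        rintro a b ⟨N, G, h1, h2⟩ ⟨N', G', h1', h2'⟩
        refine ⟨N + N', G * H ^ N' + G' * H ^ N, ?_, ?_⟩
        · simp only [map_add, map_mul, map_pow, ← h1, ← h1', Prod.fst_add]; ring
        · simp only [map_add, map_mul, map_pow, ← h2, ← h2', Prod.snd_add]; ring
      zero_mem' := ⟨0, 0, by simp, by simp⟩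
      neg_mem' := by
        rintro a ⟨N, G, h1, h2⟩
        exact ⟨N, -G, by simp [← h1], by simp [← h2]⟩ }
  refine ⟨Γ, fun G => ⟨0, G, by simp, by simp⟩,
    fun a G h => ⟨1, G, by simpa using h, by simp [hH]⟩, fun a c c' h h' => ?_⟩
  obtain ⟨N, G, h1, h2⟩ := Γ.sub_mem h h'
  rw [hk G (by simpa using h1.symm)] at h2
  exact sub_eq_zero.1 ((mul_eq_zero.1 h2).resolve_right (pow_ne_zero _ hH))

theorem param_alg {k : Type} [Field k] [Algebra k F] {a b : F} (hb : Transcendental k b)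
    (h : ¬ AlgebraicIndependent k ![a, b]) (L : Subfield F) (h1 : ∀ c, algebraMap k F c ∈ L)
    (h2 : b ∈ L) : IsAlgebraic L a := by
  have h3 : IsAlgebraic (Algebra.adjoin k (Set.range fun _ : Fin 1 => b)) a := by
    by_contra h4
    refine h ?_
    have h5 := (AlgebraicIndependent.option_iff (x := fun _ : Fin 1 => b) (a := a)).2
      ⟨algebraicIndependent_unique_type_iff.2 hb, h4⟩
    convert h5.comp (finSuccEquiv 1) (finSuccEquiv 1).injective using 1
    funext i
    fin_cases i <;> rfl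
  have h6 : ∀ x : Algebra.adjoin k (Set.range fun _ : Fin 1 => b), x.1 ∈ L := by
    rintro ⟨x, hx⟩
    induction hx using Algebra.adjoin_induction with
    | mem x hx => obtain ⟨_, rfl⟩ := hx; exact h2
    | algebraMap c => exact h1 c
    | add x y _ _ hx hy => exact L.add_mem hx hy
    | mul x y _ _ hx hy => exact L.mul_mem hx hy
  let f : Algebra.adjoin k (Set.range fun _ : Fin 1 => b) →+* L :=
    (Subalgebra.val _).toRingHom.codRestrict L h6
  let := f.toAlgebra
  have : IsScalarTower (Algebra.adjoin k (Set.range fun _ : Fin 1 => b)) L F :=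
    IsScalarTower.of_algebraMap_eq' rfl
  refine IsAlgebraic.extendScalars (S := L) (fun x y hxy => ?_) h3
  have h7 : (f x : F) = f y := congrArg Subtype.val hxy
  exact Subtype.ext h7

end abs

variable {n : ℕ} {F : Type} [Field F] [Algebra ℂ F]

theorem param_ker (D : Data n F) {b : F} (hb : Transcendental D.k b) (c : P1 n)
    (hc : c.eval₂ (aeval D.z : MP n →ₐ[ℂ] F).toRingHom b = 0) (a : ℕ) : D.P ∣ c.coeff a := by
  have h1 : ∀ g : MP n, aeval D.z g ∈ D.k := fun g => by
    induction g using MvPolynomial.induction_on with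
    | C a => simp
    | add p q hp hq => rw [map_add]; exact D.k.add_mem hp hq
    | mul_X p i hp =>
      rw [map_mul, aeval_X]
      exact D.k.mul_mem hp (IntermediateField.subset_adjoin _ _ ⟨i, rfl⟩)
  let f : MP n →+* D.k := (aeval D.z : MP n →ₐ[ℂ] F).toRingHom.codRestrict D.k h1
  have h2 : c.map f = 0 := by
    by_contra h
    refine hb ⟨_, h, ?_⟩
    rw [Polynomial.aeval_def, Polynomial.eval₂_map]
    exact hc
  have h3 : f (c.coeff a) = 0 := by rw [← Polynomial.coeff_map, h2, Polynomial.coeff_zero]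
  exact (D.hP _).1 (congrArg Subtype.val h3)

omit [Algebra ℂ F] in
theorem param_mon {L : Type} [Field L] (Γ : Subring (F × L)) {y : Fin n → F} {y' : Fin n → L}
    (h : ∀ i, (y i, y' i) ∈ Γ) (h' : ∀ i, ((y i)⁻¹, (y' i)⁻¹) ∈ Γ) (m : Fin n → ℤ) :
    (mon y m, mon y' m) ∈ Γ := by
  have e : (mon y m, mon y' m) = ∏ i, (y i ^ m i, y' i ^ m i) := by
    ext <;> simp [mon, Prod.fst_prod, Prod.snd_prod]
  rw [e]
  refine Γ.prod_mem fun i _ => ?_
  obtain ⟨j, hj | hj⟩ := (m i).eq_nat_or_neg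
  · simpa [hj] using Γ.pow_mem (h i) j
  · simpa [hj] using Γ.pow_mem (h' i) j

theorem t_param : T_PARAM := by
  classical
  intro n F _ _ D hC l hl M
  have : CharZero F := charZero_of_injective_algebraMap (algebraMap ℂ F).injective
  set φF : P1 n →+* F :=
    Polynomial.eval₂RingHom (aeval D.z : MP n →ₐ[ℂ] F).toRingHom (mon D.y l) with hφF
  let K : Subfield F := Subfield.closure φF.range
  let φ : P1 n →+* K := φF.codRestrict K fun r => Subfield.subset_closure ⟨r, rfl⟩
  have hφ : ∀ r, algebraMap K F (φ r) = φF r := fun _ => rfl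
  have hfr : ∀ a : K, ∃ r s, φ s ≠ 0 ∧ φ s * a = φ r := by
    rintro ⟨a, ha⟩
    obtain ⟨u, hu, v, hv, rfl⟩ := Subfield.mem_closure_iff.1 ha
    rw [Subring.closure_eq] at hu hv
    obtain ⟨r, rfl⟩ := hu
    obtain ⟨s, rfl⟩ := hv
    by_cases h : φF s = 0
    · exact ⟨0, 1, by simp, Subtype.ext (by simp [h])⟩
    · exact ⟨r, s, fun h' => h (congrArg Subtype.val h'),
        Subtype.ext (mul_div_cancel₀ _ h)⟩
  have hk : ∀ c : D.k, algebraMap D.k F c ∈ K := by
    rintro ⟨c, hc⟩
    change c ∈ K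
    induction hc using IntermediateField.adjoin_induction with
    | mem x hx =>
      obtain ⟨i, rfl⟩ := hx
      exact Subfield.subset_closure ⟨Polynomial.C (X i), by simp [hφF]⟩
    | algebraMap c => exact Subfield.subset_closure ⟨Polynomial.C (C c), by simp [hφF]⟩
    | add x y _ _ hx hy => exact K.add_mem hx hy
    | inv x _ hx => exact K.inv_mem hx
    | mul x y _ _ hx hy => exact K.mul_mem hx hy
  have hb : mon D.y l ∈ K := Subfield.subset_closure ⟨Polynomial.X, by simp [hφF]⟩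
  obtain ⟨θ, μ, h, h1, h2, h3, h4, h5, A, B, h6⟩ := param_abs φ hfr
    ((M ∪ Finset.univ.image (fun i => Pi.single i 1) ∪
      Finset.univ.image (fun i => -Pi.single i 1)).image (mon D.y)) fun a ha => by
      obtain ⟨m, -, rfl⟩ := Finset.mem_image.1 ha
      exact param_alg hl (hC m l) K hk hb
  choose! G hG using h5
  refine ⟨μ, h, fun m => G (mon D.y m), h1, h2, ?_, fun x β t hx hh ht => ?_⟩
  · by_contra! h7
    refine h3 (Subtype.ext ?_)
    change h.eval₂ _ _ = 0
    rw [Polynomial.eval₂_eq_sum]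
    exact Finset.sum_eq_zero fun a _ => mul_eq_zero_of_left ((D.hP _).2 (h7 a)) _
  set χ : P1 n →+* ℂ := Polynomial.eval₂RingHom (eval x) β with hχ
  let E : P2 n →+* F := Polynomial.eval₂RingHom φF θ
  let E' : P2 n →+* ℂ := Polynomial.eval₂RingHom χ t
  have hE : ∀ G : P2 n, Polynomial.aeval θ (G.map φ) = E G := fun G => by
    rw [Polynomial.aeval_def, Polynomial.eval₂_map]; rfl
  have hE' : ∀ G : P2 n, (sp2 x β G).eval t = E' G := fun G => Polynomial.eval_map _ _
  have k1 : ∀ G : P2 n, G.map φ = 0 → E' G = 0 := fun G hG => by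
    rw [← hE', sp2, ← hχ]
    have : G.map χ = 0 := by
      ext j
      have e : φ (G.coeff j) = 0 := by rw [← Polynomial.coeff_map, hG, Polynomial.coeff_zero]
      have e' := param_ker D hl (G.coeff j) (congrArg Subtype.val e)
      rw [Polynomial.coeff_map, Polynomial.coeff_zero]
      change Polynomial.eval₂ _ _ _ = 0
      rw [Polynomial.eval₂_eq_sum]
      refine Finset.sum_eq_zero fun a _ => mul_eq_zero_of_left ?_ _
      obtain ⟨c, hc⟩ := e' a
      rw [hc, map_mul, hx, zero_mul]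
    rw [this, Polynomial.eval_zero]
  rw [hE'] at ht
  have k2 : ∀ G, E G = 0 → E' G = 0 := fun G hG => by
    rw [← Polynomial.modByMonic_add_div G μ, map_add, map_mul, ht, zero_mul, add_zero]
    exact k1 _ (h4 G ((hE G).trans hG))
  have eh : E' (Polynomial.C h) = ev1 x β h := Polynomial.eval₂_C _ _
  have eh' : E (Polynomial.C h) = φF h := Polynomial.eval₂_C _ _
  refine ⟨fun h7 => hh ?_, ?_⟩
  · rw [sp2, Polynomial.derivative_map, ← sp2, hE'] at h7
    have := congrArg E' (sub_add_cancel (A * μ + B * Polynomial.derivative μ) (Polynomial.C h))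
    rw [map_add, k1 _ h6, map_add, map_mul, map_mul, ht, h7, eh] at this
    simpa using this
  obtain ⟨Γ, g1, g2, g3⟩ := param_graph E E' k2 (Polynomial.C h) (eh ▸ hh)
  have g4 : ∀ m ∈ M ∪ Finset.univ.image (fun i => Pi.single i 1) ∪
      Finset.univ.image (fun i => -Pi.single i 1),
      (mon D.y m, E' (G (mon D.y m)) / E' (Polynomial.C h)) ∈ Γ := fun m hm =>
    g2 _ _ (by rw [eh', ← hE, ← hG _ (Finset.mem_image_of_mem _ hm), hφ])
  have a1 : ∀ i, (D.y i, E' (G (D.y i)) / E' (Polynomial.C h)) ∈ Γ := fun i => by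
    simpa only [mon_single] using g4 (Pi.single i 1) (by simp)
  have a2 : ∀ i, ((D.y i)⁻¹, E' (G (D.y i)⁻¹) / E' (Polynomial.C h)) ∈ Γ := fun i => by
    simpa only [mon_neg, mon_single] using g4 (-Pi.single i 1) (by simp)
  choose y' a1 using fun i => (⟨_, a1 i⟩ : ∃ c, (D.y i, c) ∈ Γ)
  choose y'' a2 using fun i => (⟨_, a2 i⟩ : ∃ c, ((D.y i)⁻¹, c) ∈ Γ)
  have a3 : ∀ i, y' i * y'' i = 1 := fun i =>
    g3 1 _ _ (by simpa [D.hy i] using Γ.mul_mem (a1 i) (a2 i)) Γ.one_mem
  have a4 := param_mon Γ a1 fun i => by rw [← eq_inv_of_mul_eq_one_right (a3 i)]; exact a2 i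
  refine ⟨y', fun i => left_ne_zero_of_mul_eq_one (a3 i), fun g hg => ?_, g3 _ _ _ (a4 l) ?_,
    fun m hm => ?_⟩
  · have : (ev D.z D.y g, eval (Sum.elim x y') g) ∈ Γ := by
      clear hg
      induction g using MvPolynomial.induction_on with
      | C a => simpa [ev, E, E', hφF, hχ] using g1 (Polynomial.C (Polynomial.C (C a)))
      | add p q hp hq => simpa [ev] using Γ.add_mem hp hq
      | mul_X p i hp =>
        have : (Sum.elim D.z D.y i, Sum.elim x y' i) ∈ Γ := by
          rcases i with i | i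
          · simpa [E, E', hφF, hχ] using g1 (Polynomial.C (Polynomial.C (X i)))
          · exact a1 i
        simpa [ev] using Γ.mul_mem hp this
    rw [hg] at this
    exact g3 _ _ _ this Γ.zero_mem
  · simpa [E, E', hφF, hχ] using g1 (Polynomial.C Polynomial.X)
  · rw [g3 _ _ _ (a4 m) (g4 m (by simp [hm])), eh, hE', div_mul_cancel₀ _ hh]

end Pool.Agent.P.MP_d2ed07_lc
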