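import Pool.Agent.P.MP_d2ed07_lc.Basic2
import Pool.Agent.P.MP_d2ed07_lc.PARAM
import Pool.Agent.P.MP_d2ed07_lc.LIFT

/-! Algebraic coordinates are tame and locally determined. -/

namespace Pool.Agent.P.MP_d2ed07_lc

open MvPolynomial Metric Filter Topology

theorem t_uniq : T_UNIQ := by
  intro E _ Ω p d θ θ' hΩ hp hd hθ hθ' h x₀ hx₀ e₀ x hx
  let Q : E → ℂ := fun x => ∑ j ∈ Finset.range (d + 1),
    (p x).coeff j * ∑ i ∈ Finset.range j, θ x ^ i * θ' x ^ (j - 1 - i)
  have hQ : ContinuousOn Q Ω := continuousOn_finsetSum _ fun j _ =>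
    (hp j).mul (continuousOn_finsetSum _ fun i _ => (hθ.pow i).mul (hθ'.pow _))
  have key : ∀ x ∈ Ω, θ x = θ' x ↔ Q x ≠ 0 := fun x hx => by
    have hlt := Nat.lt_succ_of_le (hd x hx)
    refine ⟨fun e h0 => (h x hx).2.2 ?_, fun h0 => ?_⟩
    · rw [Polynomial.derivative_eval, Polynomial.sum_over_range' _ (by simp) _ hlt, ← h0]
      exact Finset.sum_congr rfl fun j _ => by rw [← e, geom_sum₂_self, mul_assoc]
    · have h1 : Q x * (θ x - θ' x) = (p x).eval (θ x) - (p x).eval (θ' x) := by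
        rw [Polynomial.eval_eq_sum_range' hlt, Polynomial.eval_eq_sum_range' hlt,
          ← Finset.sum_sub_distrib, Finset.sum_mul]
        exact Finset.sum_congr rfl fun j _ => by rw [mul_assoc, geom_sum₂_mul, mul_sub]
      rw [(h x hx).1, (h x hx).2.1, sub_zero] at h1
      exact sub_eq_zero.1 ((mul_eq_zero.1 h1).resolve_left h0)
  have := isPreconnected_iff_preconnectedSpace.1 hΩ
  have hc : IsClopen {x : Ω | θ x = θ' x} := by
    refine ⟨isClosed_eq hθ.restrict hθ'.restrict, ?_⟩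
    have : {x : Ω | θ x = θ' x} = {x : Ω | Q x ≠ 0} := Set.ext fun x => key x x.2
    rw [this]
    exact isOpen_ne_fun hQ.restrict continuous_const
  have h2 := hc.eq_univ ⟨⟨x₀, hx₀⟩, e₀⟩
  exact (Set.eq_univ_iff_forall.1 h2 ⟨x, hx⟩ :)

theorem algb_up (J : ℕ) (a : ℕ → ℂ) (L : ℝ) (Y : ℂ) (hL : 1 ≤ L) (ha : ∀ j ≤ J, ‖a j‖ ≤ Real.exp L)
    (hJ : Real.exp (-L) ≤ ‖a J‖) (h : ∑ j ∈ Finset.range (J + 1), a j * Y ^ j = 0) :
    ‖Y‖ ≤ Real.exp ((J + 2) * L) := by
  rcases le_or_gt ‖Y‖ 1 with hY | hY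
  · exact hY.trans (Real.one_le_exp (by positivity))
  rw [Finset.sum_range_succ, add_comm, add_eq_zero_iff_eq_neg] at h
  rcases J with _ | K
  · have h0 : a 0 = 0 := by simpa using h
    rw [h0, norm_zero] at hJ
    exact absurd hJ (not_le.2 (Real.exp_pos _))
  have h1 : ‖a (K + 1)‖ * ‖Y‖ ^ (K + 1) ≤ (K + 1 : ℕ) * (Real.exp L * ‖Y‖ ^ K) := by
    rw [← norm_pow, ← norm_mul, h, norm_neg]
    refine (norm_sum_le _ _).trans ((Finset.sum_le_card_nsmul _ _ (Real.exp L * ‖Y‖ ^ K)
      fun j hj => ?_).trans (by rw [Finset.card_range, nsmul_eq_mul]))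
    have hj' := Nat.lt_succ_iff.1 (Finset.mem_range.1 hj)
    rw [norm_mul, norm_pow]
    exact mul_le_mul (ha j (by omega)) (pow_le_pow_right₀ hY.le hj') (by positivity)
      (by positivity)
  have h2 : Real.exp (-L) * ‖Y‖ ≤ (K + 1 : ℕ) * Real.exp L := by
    have hp : 0 < ‖Y‖ ^ K := by positivity
    refine le_of_mul_le_mul_right ?_ hp
    rw [mul_assoc, ← pow_succ', mul_assoc]
    exact (mul_le_mul_of_nonneg_right hJ (by positivity)).trans h1
  have h3 : ((K + 1 : ℕ) : ℝ) ≤ Real.exp ((K + 1 : ℕ) * L) := by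
    have := Real.add_one_le_exp (((K + 1 : ℕ) : ℝ) * L)
    have h4 : (0 : ℝ) ≤ (K + 1 : ℕ) := Nat.cast_nonneg _
    nlinarith
  have h5 : ‖Y‖ = Real.exp L * (Real.exp (-L) * ‖Y‖) := by
    rw [← mul_assoc, ← Real.exp_add, add_neg_cancel, Real.exp_zero, one_mul]
  rw [h5, add_mul, two_mul, Real.exp_add, Real.exp_add, mul_left_comm _ (Real.exp L)]
  exact mul_le_mul_of_nonneg_left (h2.trans (mul_le_mul_of_nonneg_right h3 (Real.exp_pos _).le))
    (Real.exp_pos _).le

theorem t_rb : T_RB := by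
  intro J
  refine ⟨J + 2, by linarith [Nat.cast_nonneg (α := ℝ) J], fun a L Y hL ha h0 hJ h =>
    ⟨?_, algb_up J a L Y hL ha hJ h⟩⟩
  have hY : Y ≠ 0 := by
    rintro rfl
    have : a 0 = 0 := by simpa [Finset.sum_range_succ'] using h
    rw [this, norm_zero] at h0
    exact absurd h0 (not_le.2 (Real.exp_pos _))
  have h1 := algb_up J (fun j => a (J - j)) L Y⁻¹ hL (fun j _ => ha _ (Nat.sub_le _ _))
    (by simpa using h0) (by
      rw [← Finset.sum_range_reflect (fun j => a j * Y ^ j)] at h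
      rw [← mul_zero (Y⁻¹ ^ J), ← h, Finset.mul_sum]
      refine Finset.sum_congr rfl fun j hj => ?_
      obtain ⟨i, rfl⟩ := Nat.exists_eq_add_of_le (Nat.lt_succ_iff.1 (Finset.mem_range.1 hj))
      simp only [Nat.add_sub_cancel, Nat.add_sub_cancel_left, pow_add, inv_pow]
      field_simp)
  rw [norm_inv] at h1
  rw [Real.exp_neg]
  exact inv_le_of_inv_le₀ (norm_pos_iff.2 hY) h1

theorem t_tal (hrel1 : T_REL1) (hrb : T_RB) : T_TAL := by
  classical
  intro n F _ _ D σ a e g he hg halg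
  obtain ⟨J, c, h0, hJ, hc⟩ := hrel1 n F D _ hg halg
  obtain ⟨C, hC, hb⟩ := hrb J
  have he' : a ∘ e = D.z := funext he
  have hS : ∀ j ≤ J, ¬ D.P ∣ c j →
      c j ∈ ((Finset.range (J + 1)).image c).filter fun g => ¬ D.P ∣ g := fun j hj h =>
    Finset.mem_filter.2 ⟨Finset.mem_image_of_mem _ (Finset.mem_range.2 (by omega)), h⟩
  refine ⟨((Finset.range (J + 1)).image c).filter fun g => ¬ D.P ∣ g, C,
    fun g hg => (Finset.mem_filter.1 hg).2, hC, fun ξ L hL hξ hT => ?_⟩
  refine hb (fun j => eval (fun i => ξ (e i)) (c j)) L _ hL (fun j hj => ?_)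
    (hT _ (hS 0 (Nat.zero_le _) h0)).1 (hT _ (hS J le_rfl hJ)).1 ?_
  · by_cases h : D.P ∣ c j
    · have := hξ.comp e (c j) (by rw [show (fun s => a (e s)) = D.z from he']; exact (D.hP _).2 h)
      rw [this, norm_zero]
      exact (Real.exp_pos _).le
    · exact (hT _ (hS j hj h)).2
  · have := hξ (∑ j ∈ Finset.range (J + 1), rename e (c j) * g ^ j) (by
      simpa only [map_sum, map_mul, map_pow, aeval_rename, he'] using hc)
    simp only [map_sum, map_mul, map_pow, eval_rename] at this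
    exact this

theorem algb_sep {n : ℕ} {F : Type} [Field F] [Algebra ℂ F] (D : Data n F) (y : F)
    (hy : D.Alg y) : ∃ (c a b : P1 n) (d : MP n), ¬ D.P ∣ d ∧
      c.eval₂ (aeval D.z : MP n →ₐ[ℂ] F).toRingHom y = 0 ∧
      ∀ j, D.P ∣ (a * c + b * Polynomial.derivative c - Polynomial.C d).coeff j := by
  have : CharZero F := charZero_of_injective_algebraMap (algebraMap ℂ F).injective
  have h1 : ∀ g : MP n, aeval D.z g ∈ D.k := fun g => by
    induction g using MvPolynomial.induction_on with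
    | C a => simp
    | add p q hp hq => rw [map_add]; exact D.k.add_mem hp hq
    | mul_X p i hp =>
      rw [map_mul, aeval_X]
      exact D.k.mul_mem hp (IntermediateField.subset_adjoin _ _ ⟨i, rfl⟩)
  let φ : MP n →+* D.k := (aeval D.z : MP n →ₐ[ℂ] F).toRingHom.codRestrict D.k h1
  have hfr : ∀ a : D.k, ∃ r s, φ s ≠ 0 ∧ φ s * a = φ r := fun a => by
    obtain ⟨r, t, e⟩ := (IntermediateField.mem_adjoin_range_iff _ _ _).1 a.2
    by_cases ht : aeval D.z t = 0
    · exact ⟨0, 1, by simp, Subtype.ext (by simp [e, ht])⟩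
    · refine ⟨r, t, fun h => ht (congrArg Subtype.val h), Subtype.ext ?_⟩
      change aeval D.z t * (a : F) = aeval D.z r
      rw [e, mul_div_cancel₀ _ ht]
  have hi : IsIntegral D.k y := IsAlgebraic.isIntegral hy
  obtain ⟨u, v, huv⟩ := (minpoly.irreducible hi).separable
  obtain ⟨s, c, hs, e⟩ := param_den φ hfr (minpoly D.k y)
  obtain ⟨su, U, hu, eu⟩ := param_den φ hfr u
  obtain ⟨sv, V, hv, ev⟩ := param_den φ hfr v
  refine ⟨c, Polynomial.C sv * U, Polynomial.C su * V, s * (su * sv), fun h => ?_, ?_, fun j => ?_⟩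
  · have h2 : φ (s * (su * sv)) = 0 := Subtype.ext ((D.hP _).2 h)
    simp [hs, hu, hv] at h2
  · have h2 : Polynomial.aeval y (c.map φ) = 0 := by rw [e, map_mul, minpoly.aeval, mul_zero]
    rwa [Polynomial.aeval_def, Polynomial.eval₂_map] at h2
  · have h2 : (Polynomial.C sv * U * c + Polynomial.C su * V * Polynomial.derivative c -
        Polynomial.C (s * (su * sv))).map φ = 0 := by
      simp only [Polynomial.map_sub, Polynomial.map_add, Polynomial.map_mul, Polynomial.map_C,
        ← Polynomial.derivative_map, e, eu, ev, map_mul, Polynomial.derivative_C_mul]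
      linear_combination (Polynomial.C (φ s) * Polynomial.C (φ su) * Polynomial.C (φ sv)) * huv
    have h3 := congrArg (fun q => Polynomial.coeff q j) h2
    simp only [Polynomial.coeff_map, Polynomial.coeff_zero] at h3
    exact (D.hP _).1 (congrArg Subtype.val h3)

theorem algb_root {n : ℕ} {F : Type} [Field F] [Algebra ℂ F] {z y : Fin n → F} {x y' : Cn n}
    (h : OnV z y x y') (i : Fin n) (c : P1 n)
    (hc : c.eval₂ (aeval z : MP n →ₐ[ℂ] F).toRingHom (y i) = 0) :
    (c.map (eval x)).eval (y' i) = 0 := by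
  have h1 := h (∑ j ∈ Finset.range (c.natDegree + 1),
    rename Sum.inl (c.coeff j) * X (Sum.inr i) ^ j) (by
      rw [Polynomial.eval₂_eq_sum_range] at hc
      simp only [ev, map_sum, map_mul, map_pow, aeval_rename, aeval_X, Sum.elim_comp_inl,
        Sum.elim_inr]
      exact hc)
  rw [Polynomial.eval_map, Polynomial.eval₂_eq_sum_range]
  simpa only [map_sum, map_mul, map_pow, eval_rename, eval_X, Sum.elim_comp_inl,
    Sum.elim_inr] using h1

theorem t_algb (htal : T_TAL) (huniq : T_UNIQ) : T_ALGB := by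
  classical
  intro n F _ _ D A hA
  choose! S C hS hC hT using fun i (hi : i ∈ A) => htal n F D _ (Sum.elim D.z D.y) Sum.inl
    (X (Sum.inr i)) (fun _ => rfl) (by simpa using D.hy i) (by simpa using hA i hi)
  choose! c a b d hd hc hab using fun i (hi : i ∈ A) => algb_sep D (D.y i) (hA i hi)
  have h2 : ∀ (E : Type) [TopologicalSpace E] (Ω : Set E) (ζ w w' : E → Cn n), IsPreconnected Ω →
      ContinuousOn ζ Ω → ContinuousOn w Ω → ContinuousOn w' Ω →
      (∀ e ∈ Ω, (∀ g ∈ A.biUnion S ∪ A.image d, eval (ζ e) g ≠ 0) ∧ D.OnE (ζ e) (w e) ∧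
        D.OnE (ζ e) (w' e)) →
      ∀ i ∈ A, ∀ e₀ ∈ Ω, Complex.exp (w e₀ i) = Complex.exp (w' e₀ i) →
        ∀ e ∈ Ω, Complex.exp (w e i) = Complex.exp (w' e i) := by
    intro E _ Ω ζ w w' hΩ hζ hw hw' h i hi
    refine huniq E Ω (fun e => (c i).map (eval (ζ e))) (c i).natDegree
      (fun e => Complex.exp (w e i)) (fun e => Complex.exp (w' e i)) hΩ (fun j => ?_)
      (fun _ _ => Polynomial.natDegree_map_le)
      (continuousOn_pi.1 hw i).cexp (continuousOn_pi.1 hw' i).cexp fun e he => ?_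
    · simp only [Polynomial.coeff_map]
      exact (continuous_eval' _).comp_continuousOn hζ
    obtain ⟨h3, h4, h5⟩ := h e he
    have r1 : ((c i).map (eval (ζ e))).eval (Complex.exp (w e i)) = 0 :=
      algb_root h4 i _ (hc i hi)
    refine ⟨r1, algb_root h5 i _ (hc i hi), fun h6 => h3 (d i)
      (Finset.mem_union_right _ (Finset.mem_image_of_mem _ hi)) ?_⟩
    have h7 : (a i * c i + b i * Polynomial.derivative (c i) - Polynomial.C (d i)).map
        (eval (ζ e)) = 0 := by
      ext j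
      obtain ⟨q, hq⟩ := hab i hi j
      rw [Polynomial.coeff_map, hq, map_mul, h4.eval_P, zero_mul, Polynomial.coeff_zero]
    have h8 := congrArg (Polynomial.eval (Complex.exp (w e i))) h7
    rw [Polynomial.map_sub, Polynomial.map_add, Polynomial.map_mul, Polynomial.map_mul,
      ← Polynomial.derivative_map, Polynomial.map_C, Polynomial.eval_sub, Polynomial.eval_add,
      Polynomial.eval_mul, Polynomial.eval_mul, r1, h6] at h8
    simpa using h8
  refine ⟨A.biUnion S ∪ A.image d, 1 + ∑ i ∈ A, C i, fun g hg => ?_,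
    le_add_of_nonneg_right (Finset.sum_nonneg fun i hi => zero_le_one.trans (hC i hi)),
    fun x w L hL hx hm i hi => ?_, h2, fun E _ Ω x w hΩ hw hx h i hi e he e' he' => ?_⟩
  · rcases Finset.mem_union.1 hg with hg | hg
    · obtain ⟨i, hi, hg⟩ := Finset.mem_biUnion.1 hg
      exact hS i hi g hg
    · obtain ⟨i, hi, rfl⟩ := Finset.mem_image.1 hg
      exact hd i hi
  · have h3 := hT i hi (Sum.elim x (ex w)) L hL hx (hm.subset fun g hg =>
      Finset.mem_union_left _ (Finset.mem_biUnion.2 ⟨i, hi, hg⟩))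
    simp only [eval_X, Sum.elim_inr, ex, Complex.norm_exp, Real.exp_le_exp] at h3
    have h4 : C i ≤ 1 + ∑ i ∈ A, C i := (Finset.single_le_sum
      (fun i hi => zero_le_one.trans (hC i hi)) hi).trans (le_add_of_nonneg_left zero_le_one)
    exact (abs_le.2 h3).trans (mul_le_mul_of_nonneg_right h4 (by linarith))
  · have h3 := h2 E Ω (fun _ => x) w (fun _ => w e') hΩ continuousOn_const hw continuousOn_const
      (fun e he => ⟨hx, h e he, h e' he'⟩) i hi e' he' rfl
    obtain ⟨j, hj⟩ := lift_int (f := fun e => w e i - w e' i) hΩ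
      ((continuousOn_pi.1 hw i).sub continuousOn_const) fun e he => by
        rw [Complex.exp_sub, h3 e he, div_self (Complex.exp_ne_zero _)]
    have h4 := (hj e he).trans (hj e' he').symm
    simpa [sub_eq_zero] using h4

end Pool.Agent.P.MP_d2ed07_lc
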