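import Pool.Agent.P.MP_d2ed07_lc.Basic

/-!
The theorem of Ax for finitely generated fields, in dual form.
-/

namespace Pool.Agent.P.MP_d2ed07_lc

open MvPolynomial Metric Filter Topology

section
variable {K F : Type} [Field K] [Field F] [Algebra K F]

theorem as_logd_mul (D : Derivation K F F) {a b : F} (ha : a ≠ 0) (hb : b ≠ 0) :
    D (a * b) / (a * b) = D a / a + D b / b := by
  rw [Derivation.leibniz]; simp only [smul_eq_mul]; field_simp; ring

theorem as_logd_zpow (D : Derivation K F F) {a : F} (ha : a ≠ 0) (m : ℤ) :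
    D (a ^ m) / a ^ m = m * (D a / a) := by
  rw [Derivation.leibniz_zpow]
  simp only [smul_eq_mul, zsmul_eq_mul]
  have h1 : a ^ (m - 1) = a ^ m / a := by rw [zpow_sub_one₀ ha, div_eq_mul_inv]
  have h2 : a ^ m ≠ 0 := zpow_ne_zero _ ha
  rw [h1]; field_simp

theorem as_logd_prod {κ : Type} (D : Derivation K F F) (s : Finset κ) (y : κ → F)
    (hy : ∀ i, y i ≠ 0) : D (∏ i ∈ s, y i) / ∏ i ∈ s, y i = ∑ i ∈ s, D (y i) / y i := by
  classical
  induction s using Finset.induction_on with
  | empty => simp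
  | insert a s ha ih =>
    rw [Finset.prod_insert ha, Finset.sum_insert ha,
      as_logd_mul D (hy a) (Finset.prod_ne_zero_iff.2 fun i _ => hy i), ih]

theorem as_logd_mon {κ : Type} [Fintype κ] (D : Derivation K F F) (y : κ → F)
    (hy : ∀ i, y i ≠ 0) (m : κ → ℤ) :
    D (∏ i, y i ^ m i) / ∏ i, y i ^ m i = ∑ i, (m i : F) * (D (y i) / y i) := by
  rw [as_logd_prod D _ _ fun i => zpow_ne_zero _ (hy i)]
  exact Finset.sum_congr rfl fun i _ => as_logd_zpow D (hy i) _

theorem as_sum_apply {ι : Type} (s : Finset ι) (D : ι → Derivation K F F) (a : F) :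
    (∑ i ∈ s, D i) a = ∑ i ∈ s, D i a := by
  classical
  induction s using Finset.induction_on with
  | empty => simp
  | insert i s hi ih => rw [Finset.sum_insert hi, Finset.sum_insert hi, Derivation.add_apply, ih]

/-- the linear map `D ↦ (D y / y - D x)` -/
noncomputable def as_Phi {κ : Type} (x y : κ → F) : Derivation K F F →ₗ[F] (κ → F) where
  toFun D i := D (y i) / y i - D (x i)
  map_add' D E := by funext i; simp [add_div]; ring
  map_smul' c D := by funext i; simp [mul_sub, mul_div_assoc]

theorem as_Phi_apply {κ : Type} (x y : κ → F) (D : Derivation K F F) (i : κ) :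
    as_Phi x y D i = D (y i) / y i - D (x i) := rfl

theorem as_key {κ : Type} (x y : κ → F) (δ D : Derivation K F F) (i : κ) (hy : y i ≠ 0)
    (h : δ (y i) = y i * δ (x i)) : δ (as_Phi x y D i) = as_Phi x y ⁅δ, D⁆ i := by
  rw [as_Phi_apply, as_Phi_apply, Derivation.commutator_apply, Derivation.commutator_apply,
    map_sub, Derivation.leibniz_div, h, Derivation.leibniz]
  simp only [smul_eq_mul]
  field_simp
  ring

/-- a relation of minimal support has constant coefficients -/
theorem as_min {ι κ : Type} [Fintype κ] (x y : κ → F) (δ : ι → Derivation K F F)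
    (hy : ∀ i, y i ≠ 0) (h : ∀ l i, δ l (y i) = y i * δ l (x i))
    (c₀ : κ → F) (hc₀ : c₀ ≠ 0) (hW : ∀ D : Derivation K F F, ∑ i, c₀ i * as_Phi x y D i = 0) :
    ∃ c : κ → F, c ≠ 0 ∧ (∀ D : Derivation K F F, ∑ i, c i * as_Phi x y D i = 0) ∧
      ∀ l i, δ l (c i) = 0 := by
  classical
  let P : ℕ → Prop := fun n => ∃ c : κ → F, c ≠ 0 ∧
    (∀ D : Derivation K F F, ∑ i, c i * as_Phi x y D i = 0) ∧
    (Finset.univ.filter fun i => c i ≠ 0).card = n
  have hP : ∃ n, P n := ⟨_, c₀, hc₀, hW, rfl⟩
  obtain ⟨c₁, hc₁, hW₁, hcard⟩ := Nat.find_spec hP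
  obtain ⟨i₀, hi₀⟩ : ∃ i, c₁ i ≠ 0 := by
    by_contra hh
    push_neg at hh
    exact hc₁ (funext hh)
  let c : κ → F := fun i => (c₁ i₀)⁻¹ * c₁ i
  have hc1 : c i₀ = 1 := inv_mul_cancel₀ hi₀
  have hWc : ∀ D : Derivation K F F, ∑ i, c i * as_Phi x y D i = 0 := fun D => by
    simp only [c, mul_assoc, ← Finset.mul_sum, hW₁ D, mul_zero]
  refine ⟨c, fun h0 => one_ne_zero (hc1.symm.trans (congrFun h0 i₀)), hWc, fun l => ?_⟩
  by_contra hne
  push_neg at hne
  have hW' : ∀ D : Derivation K F F, ∑ i, δ l (c i) * as_Phi x y D i = 0 := fun D => by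
    have h1 := congrArg (δ l) (hWc D)
    rw [map_sum, map_zero] at h1
    simp only [Derivation.leibniz, smul_eq_mul, as_key x y (δ l) D _ (hy _) (h l _),
      Finset.sum_add_distrib, hWc, zero_add] at h1
    rw [← h1]
    exact Finset.sum_congr rfl fun i _ => mul_comm _ _
  have hlt : (Finset.univ.filter fun i => δ l (c i) ≠ 0).card < Nat.find hP := by
    rw [← hcard]
    apply Finset.card_lt_card
    refine ⟨fun i hi => ?_, fun hsub => ?_⟩
    · simp only [Finset.mem_filter, Finset.mem_univ, true_and] at hi ⊢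
      intro h0
      apply hi
      simp [c, h0]
    · have := hsub (Finset.mem_filter.2 ⟨Finset.mem_univ i₀, hi₀⟩)
      simp [hc1] at this
  refine Nat.find_min hP hlt ⟨fun i => δ l (c i), fun h0 => ?_, hW', rfl⟩
  obtain ⟨i, hi⟩ := hne
  exact hi (congrFun h0 i)

theorem as_exists {κ : Type} [Fintype κ] (S : Submodule F (κ → F)) (hS : S ≠ ⊤) :
    ∃ c : κ → F, c ≠ 0 ∧ ∀ v ∈ S, ∑ i, c i * v i = 0 := by
  classical
  obtain ⟨f, hf0, hf⟩ := Submodule.exists_le_ker_of_lt_top S (lt_top_iff_ne_top.2 hS)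
  refine ⟨fun i => f (Pi.single i 1), fun h0 => hf0 ?_, fun v hv => ?_⟩
  · apply LinearMap.pi_ext'
    intro i
    apply LinearMap.ext_ring
    simpa using congrFun h0 i
  · have h1 : f v = 0 := hf hv
    rw [← h1]
    conv_rhs => rw [pi_eq_sum_univ' v, map_sum]
    refine Finset.sum_congr rfl fun i _ => ?_
    rw [map_smul, smul_eq_mul, mul_comm]

theorem as_intbasis {κ : Type} [Fintype κ] [CharZero K] (c : κ → K) :
    ∃ (m : ℕ) (e : Fin m → K) (q : κ → Fin m → ℤ), LinearIndependent ℚ e ∧
      ∀ i, c i = ∑ a, (q i a : K) * e a := by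
  let S := Submodule.span ℤ (Set.range c)
  haveI : Module.Finite ℤ S := Module.Finite.span_of_finite ℤ (Set.finite_range c)
  let b := Module.finBasis ℤ S
  refine ⟨_, fun a => (b a : K), fun i a => b.repr ⟨c i, Submodule.subset_span ⟨i, rfl⟩⟩ a, ?_,
    fun i => ?_⟩
  · rw [← LinearIndependent.iff_fractionRing ℤ ℚ]
    exact b.linearIndependent.map' S.subtype (Submodule.ker_subtype S)
  · have := congrArg S.subtype (b.sum_repr ⟨c i, Submodule.subset_span ⟨i, rfl⟩⟩)
    rw [map_sum] at this
    simpa [zsmul_eq_mul] using this.symm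

end

theorem t_as (hder2 : T_DER2) (hros : T_ROS) : T_AS := by
  intro F _ _ hfg ι κ _ _ d C' x y hd hC hy hxy hind
  classical
  haveI : CharZero F := charZero_of_injective_algebraMap (algebraMap ℂ F).injective
  have hfg' : (⊤ : IntermediateField C' F).FG := by
    obtain ⟨S, hS⟩ := hfg
    refine ⟨S, eq_top_iff.2 fun a _ => ?_⟩
    have h1 : IntermediateField.adjoin ℂ (S : Set F) ≤
        (IntermediateField.adjoin C' (S : Set F)).restrictScalars ℂ :=
      IntermediateField.adjoin_le_iff.2 (IntermediateField.subset_adjoin C' _)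
    exact h1 (hS ▸ IntermediateField.mem_top)
  have hkill : ∀ l (a : C'), d l (a : F) = 0 := fun l a => (hC a).1 a.2 l
  let d' : ι → Derivation C' F F := fun l =>
    Derivation.mk'
      { toFun := d l
        map_add' := map_add (d l)
        map_smul' := fun a b => by
          change d l ((a : F) * b) = (a : F) * d l b
          rw [Derivation.leibniz, hkill]; simp }
      (fun a b => (d l).leibniz a b)
  have hd' : ∀ l a, d' l a = d l a := fun _ _ => rfl
  have hli : LinearIndependent F d' := by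
    rw [Fintype.linearIndependent_iff] at hd ⊢
    intro g hg
    apply hd g
    ext a
    have := congrArg (fun D : Derivation C' F F => D a) hg
    simp only [as_sum_apply, Derivation.smul_apply, hd'] at this ⊢
    exact this
  obtain ⟨hfin, hrank⟩ := hder2 C' F hfg'
  rw [← hrank, Nat.cast_le]
  by_contra hlt
  push_neg at hlt
  let Φ : Derivation C' F F →ₗ[F] (κ → F) := as_Phi x y
  have hker : Fintype.card ι ≤ Module.finrank F (LinearMap.ker Φ) := by
    have hmem : ∀ l, d' l ∈ LinearMap.ker Φ := fun l => by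
      rw [LinearMap.mem_ker]
      funext i
      rw [as_Phi_apply, hd', hd', hxy, mul_div_cancel_left₀ _ (hy i)]
      simp
    have : LinearIndependent F fun l => (⟨d' l, hmem l⟩ : LinearMap.ker Φ) :=
      LinearIndependent.of_comp (LinearMap.ker Φ).subtype hli
    exact this.fintype_card_le_finrank
  have hrange : LinearMap.range Φ ≠ ⊤ := by
    intro htop
    have h1 := LinearMap.finrank_range_add_finrank_ker Φ
    rw [htop, finrank_top, Module.finrank_fintype_fun_eq_card] at h1
    omega
  obtain ⟨c₀, hc₀, hW₀⟩ := as_exists _ hrange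
  obtain ⟨c, hc, hW, hconst⟩ := as_min x y d' hy hxy c₀ hc₀ fun D => hW₀ _ ⟨D, rfl⟩
  have hcC : ∀ i, c i ∈ C' := fun i => (hC _).2 fun l => hconst l i
  obtain ⟨m, e, q, he, hq⟩ := as_intbasis (K := C') fun i => ⟨c i, hcC i⟩
  have hq' : ∀ i, c i = ∑ a, (q i a : F) * (e a : F) := fun i => by
    have := congrArg (algebraMap C' F) (hq i)
    simpa using this
  have hv := hros C' F hfg' (Fin m) e (fun a => ∏ i, y i ^ q i a) (∑ i, c i * x i) he
    (fun a => Finset.prod_ne_zero_iff.2 fun i _ => zpow_ne_zero _ (hy i)) (fun D => by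
      have h1 : ∀ i, D (c i * x i) = c i * D (x i) := fun i => by
        have : D (c i) = 0 := D.map_algebraMap (⟨c i, hcC i⟩ : C')
        rw [Derivation.leibniz, this]; simp
      have h2 := hW D
      simp only [as_Phi_apply, mul_sub, Finset.sum_sub_distrib, sub_eq_zero] at h2
      rw [map_sum, Finset.sum_congr rfl fun i _ => h1 i, ← h2]
      simp only [as_logd_mon D y hy, Finset.mul_sum, hq', Finset.sum_mul]
      rw [Finset.sum_comm]
      refine Finset.sum_congr rfl fun i _ => Finset.sum_congr rfl fun a _ => ?_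
      change (e a : F) * _ = _
      ring)
  have hq0 : ∀ a, (fun i => q i a) = 0 := fun a => by
    apply hind
    rw [hC]
    intro l
    have h1 := as_logd_mon (d' l) y hy fun i => q i a
    rw [hv a (d' l), zero_div] at h1
    rw [map_sum, h1]
    refine Finset.sum_congr rfl fun i _ => ?_
    rw [hd', hxy, mul_div_cancel_left₀ _ (hy i), Derivation.leibniz]
    simp
  apply hc
  funext i
  rw [hq' i]
  refine Finset.sum_eq_zero fun a _ => ?_
  have := congrFun (hq0 a) i
  simp only [Pi.zero_apply] at this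
  simp [this]

end Pool.Agent.P.MP_d2ed07_lc
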