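import Pool.Agent.P.MP_d2ed07_lc.Defs2

/-!
Statements of all steps, second part.
-/

namespace Pool.Agent.P.MP_d2ed07_lc

open MvPolynomial Metric Filter Topology

/-! ### analysis -/

/-- abstract limit argument -/
def T_ASC2 : Prop := ∀ (n : ℕ) (ν : Fin n → ℝ) (l : Fin n → ℤ) (N : ℕ) (C ε : ℝ), 0 ≤ C → 0 < ε →
  Adapt N ν l → DenseZ ν → ∃ δ : ℝ, 0 < δ ∧
  ∀ (p : Cn n) (ρ : ℝ) (τ : Cn n → ℂ) (w : Cn n × ℂ → Cn n), δ⁻¹ ≤ ρ →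
  DifferentiableOn ℂ τ (ball p ρ) → τ p = 0 → NearLin ν δ p ρ τ →
  DifferentiableOn ℂ w (ball p ρ ×ˢ strip 0 ε) →
  (∀ x ∈ ball p ρ, ∀ μ ∈ strip 0 ε, dz l (w (x, μ)) - dz l (w (x, 0)) = μ) →
  Data.Osc (ball p ρ) 0 ε C w → (∀ i, |(w (p, 0) i).re - (p i).re| ≤ δ) →
  PairRel N (strip 0 ε) (fun μ => w (p, μ)) →
  ∃ x ∈ ball p ρ, ∃ μ ∈ strip 0 ε, ∃ k : Fin n → ℤ,
    τ x = 0 ∧ x = w (x, μ) + (2 * Real.pi * Complex.I : ℂ) • cZ k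

/-- abstract strip engine -/
def T_AENG : Prop := ∀ (n : ℕ) (v : Fin n → ℚ) (ν : Fin n → ℝ) (l : Fin n → ℤ) (N : ℕ)
  (C ε C₀ : ℝ), 0 ≤ C → 0 < ε → 0 ≤ C₀ → Adapt N ν l → DenseZ ν → ∃ δ : ℝ, 0 < δ ∧
  ∀ (x : Cn n) (r L θ : ℝ) (j : ℤ) (τ : Cn n → ℂ) (w : Cn n × ℂ → Cn n), Imag x → 1 ≤ L →
  DifferentiableOn ℂ τ (ball x r) →
  (∀ p ∈ ball x r, ∀ t : ℂ, p + t • cQ v ∈ ball x r → τ (p + t • cQ v) = τ p - t) →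
  NearLin ν δ x r τ → ‖τ x‖ + L ≤ δ * r → DifferentiableOn ℂ w (ball x r ×ˢ strip θ ε) →
  (∀ p ∈ ball x r, ∀ t ∈ strip θ ε, dz l (w (p, t)) = t + 2 * Real.pi * Complex.I * j) →
  Data.Osc (ball x r) θ ε C w → (∀ t ∈ strip θ ε, Trop N (C₀ * L) (w (x, t))) →
  (∀ p ∈ ball x r, PairRel N (strip θ ε) fun t => w (p, t)) →
  ∃ p ∈ ball x r, ∃ t ∈ strip θ ε, ∃ k : Fin n → ℤ,
    p + τ p • cQ v = w (p, t) + (2 * Real.pi * Complex.I : ℂ) • cZ k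

/-- holomorphic fixed points with parameters -/
def T_PFIX : Prop := ∀ (n : ℕ) (Ψ : Cn n × Cn n → Cn n) (e₀ g₀ : Cn n) (ρ ρ' κ : ℝ), 0 < ρ' →
  0 ≤ κ → DifferentiableOn ℂ Ψ (ball e₀ ρ ×ˢ ball g₀ ρ') →
  (∀ e ∈ ball e₀ ρ, ∀ e' ∈ ball e₀ ρ, ∀ g ∈ ball g₀ ρ', ∀ g' ∈ ball g₀ ρ',
    ‖Ψ (e, g) - Ψ (e', g')‖ ≤ κ * ‖e - e'‖ + 1 / 2 * ‖g - g'‖) →
  (∀ e ∈ ball e₀ ρ, ‖Ψ (e, g₀) - g₀‖ ≤ ρ' / 3) →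
  ∃ ψ : Cn n → Cn n, DifferentiableOn ℂ ψ (ball e₀ ρ) ∧ ∀ e ∈ ball e₀ ρ,
    ψ e ∈ ball g₀ ρ' ∧ Ψ (e, ψ e) = ψ e ∧ (∀ g ∈ ball g₀ ρ', Ψ (e, g) = g → g = ψ e) ∧
      ∀ e' ∈ ball e₀ ρ, ‖ψ e - ψ e'‖ ≤ 2 * κ * ‖e - e'‖

/-- elimination of the coordinates in `A` -/
def T_ELIM : Prop := ∀ (n : ℕ) (A : Finset (Fin n)) (ω : Cn n → Cn n) (x : Cn n) (ρ K : ℝ),
  1 ≤ K → 200 * K ≤ ρ → Imag x → DifferentiableOn ℂ ω (ball x ρ) →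
  (∀ q ∈ ball x ρ, ∀ i ∈ A, |(ω q i).re| ≤ K) →
  ∃ (k : Fin n → ℤ) (ψ : Cn n → Cn n), DifferentiableOn ℂ ψ (ball x (ρ / 8)) ∧
    ∀ e ∈ ball x (ρ / 8), ψ e ∈ ball x (ρ / 2) ∧ (∀ j, j ∉ A → ψ e j = e j) ∧
      (∀ i ∈ A, ψ e i = ω (ψ e) i + 2 * Real.pi * Complex.I * k i + (e i - x i)) ∧
      ‖ψ e - e‖ ≤ 13 * K ∧
      (∀ e' ∈ ball x (ρ / 8), ‖ψ e - ψ e'‖ ≤ 2 * ‖e - e'‖ ∧
        ‖ψ e - e - (ψ e' - e')‖ ≤ 32 * K / ρ * ‖e - e'‖) ∧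
      ∀ q ∈ ball x (ρ / 2), (∀ j, j ∉ A → q j = e j) →
        (∀ i ∈ A, q i = ω q i + 2 * Real.pi * Complex.I * k i + (e i - x i)) → q = ψ e

/-- two continuous simple roots that agree at a point agree everywhere -/
def T_UNIQ : Prop := ∀ (E : Type) [TopologicalSpace E] (Ω : Set E) (p : E → Polynomial ℂ) (d : ℕ)
  (θ θ' : E → ℂ), IsPreconnected Ω → (∀ j, ContinuousOn (fun x => (p x).coeff j) Ω) →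
  (∀ x ∈ Ω, (p x).natDegree ≤ d) → ContinuousOn θ Ω → ContinuousOn θ' Ω →
  (∀ x ∈ Ω, (p x).eval (θ x) = 0 ∧ (p x).eval (θ' x) = 0 ∧
    (Polynomial.derivative (p x)).eval (θ x) ≠ 0) →
  ∀ x₀ ∈ Ω, θ x₀ = θ' x₀ → ∀ x ∈ Ω, θ x = θ' x

/-- size of roots -/
def T_RB : Prop := ∀ J : ℕ, ∃ C : ℝ, 1 ≤ C ∧ ∀ (a : ℕ → ℂ) (L : ℝ) (Y : ℂ), 1 ≤ L →
  (∀ j ≤ J, ‖a j‖ ≤ Real.exp L) → Real.exp (-L) ≤ ‖a 0‖ → Real.exp (-L) ≤ ‖a J‖ →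
  ∑ j ∈ Finset.range (J + 1), a j * Y ^ j = 0 →
  Real.exp (-(C * L)) ≤ ‖Y‖ ∧ ‖Y‖ ≤ Real.exp (C * L)

def T_IDENT : Prop := ∀ (n : ℕ) (Ω : Set (Cn n)) (f g : Cn n → ℂ), Convex ℝ Ω → IsOpen Ω →
  DifferentiableOn ℂ f Ω → DifferentiableOn ℂ g Ω → (∀ p ∈ Ω, f p * g p = 0) →
  (∀ p ∈ Ω, f p = 0) ∨ ∀ p ∈ Ω, g p = 0

def T_HALF2 : Prop := ∀ d : ℕ, ∃ C : ℝ, 1 ≤ C ∧ ∀ (f : Polynomial ℂ) (L : ℝ) (l : ℂ), 1 ≤ L →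
  f ≠ 0 → f.natDegree ≤ d →
  (∀ a, f.coeff a = 0 ∨ (Real.exp (-L) ≤ ‖f.coeff a‖ ∧ ‖f.coeff a‖ ≤ Real.exp L)) →
  C * L < |l.re| → Real.exp (-(C * (|l.re| + L))) ≤ ‖f.eval (Complex.exp l)‖

/-- the last fixed point argument -/
def T_FINF : Prop := ∀ (n : ℕ) (v : Fin n → ℚ) (m k : Fin n → ℤ), dz m k = 1 → dz m v ≠ 0 →
  ∃ K : ℝ, 1 ≤ K ∧ ∀ (X : Cn n) (ρ L : ℝ) (τ : Cn n → ℂ) (w : Cn n → Cn n) (j : ℤ), Imag X →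
  1 ≤ L → K * L ≤ ρ → DifferentiableOn ℂ w (ball X ρ) →
  (∀ p ∈ ball X ρ, (∀ i, |(w p i).re| ≤ L) ∧
    dz m (w p) = dz m (p + τ p • cQ v) + 2 * Real.pi * Complex.I * j) →
  ∃ p ∈ ball X ρ, ∃ k' : Fin n → ℤ,
    p + τ p • cQ v = w p + (2 * Real.pi * Complex.I : ℂ) • cZ k'

/-- monochromatic homothetic grids of bounded size -/
def T_HJ : Prop := ∀ n d I : ℕ, ∃ G : ℕ, ∀ col : (Fin n → ℕ) → Fin (I + 1),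
  ∃ (a : ℕ) (b : Fin n → ℕ), 0 < a ∧ a ≤ G ∧ (∀ i, b i + a * d ≤ G) ∧
    ∀ s : Fin n → ℕ, (∀ i, s i ≤ d) → col (b + a • s) = col b

/-- iterated differences against iterated derivatives -/
def T_DIFF : Prop := ∀ (n : ℕ) (l : List (Cn n)) (r κ η : ℝ) (a c : ℂ) (f g : Cn n → ℂ)
  (s : Cn n), Chn (ball 0 r) l f g → ‖s‖ + ‖a‖ * (l.map fun u => ‖u‖).sum < r →
  (∀ p ∈ ball (0 : Cn n) r, ‖g p - c‖ ≤ κ) →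
  (∀ l' : List (Cn n), l'.Sublist l →
    ∃ z : ℤ, ‖f (s + a • l'.sum) - 2 * Real.pi * Complex.I * z‖ ≤ η) →
  ∃ z : ℤ, ‖a ^ l.length * c - 2 * Real.pi * Complex.I * z‖ ≤
    ‖a‖ ^ l.length * κ + 2 ^ l.length * η

/-- Cauchy estimate for iterated derivatives -/
def T_CAU : Prop := ∀ (n : ℕ) (l : List (Cn n)) (r B : ℝ) (c : ℂ) (f g : Cn n → ℂ), l ≠ [] →
  0 < r → Chn (ball 0 r) l f g → (∀ u ∈ l, ‖u‖ ≤ 1) →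
  (∀ p ∈ ball (0 : Cn n) r, ‖f p - c‖ ≤ B) → ‖g 0‖ ≤ B * (2 ^ (l.length + 2) / r) ^ l.length

/-- growth of functions with nonnegative real part on a half plane -/
def T_HARN : Prop := ∀ (R : ℝ) (g : ℂ → ℂ), DifferentiableOn ℂ g (half R) →
  (∀ s ∈ half R, 0 ≤ (g s).re) → ∀ j : ℕ,
  ‖g ((R + (3 / 2) ^ j : ℝ) : ℂ)‖ ≤ 3 ^ j * ‖g ((R + 1 : ℝ) : ℂ)‖

/-- one sided Caratheodory estimate -/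
def T_CARA : Prop := ∀ (g : ℂ → ℂ) (a b : ℂ) (ρ M : ℝ), 0 < ρ → DifferentiableOn ℂ g (ball a (3 * ρ)) →
  (∀ s ∈ ball a (3 * ρ), (g s).re - (g a).re ≤ M) → ‖b - a‖ < ρ → ‖g b - g a‖ ≤ M

/-! ### polynomials and sheets -/

def T_HOM2 : Prop := ∀ (n : ℕ) (P : MP n) (A : Finset (Fin n)),
  (∃ u : Cn n, Off A u ∧ ddir u P ≠ 0) → ∃ (Q : MP n) (E g B : ℕ),
    HomOff A Q B ∧ (∃ u : Cn n, Off A u ∧ ddir u Q ≠ 0) ∧ Asy P A Q E g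

def T_HYP2 : Prop := ∀ (n : ℕ) (P : MP n) (m : Fin n → ℤ) (c : ℂ), Prime P → m ≠ 0 →
  (∀ u : Cn n, dz m u = c → eval u P = 0) → P ∣ lform m - C c

def T_CONE2A : Prop := ∀ (n : ℕ) (A : Finset (Fin n)) (Q : MP n) (B : ℕ) (v : Fin n → ℚ)
  (s : Fin n → ℝ) (δ σ κ : ℝ) (K : ℕ) (T : Cn n → ℂ), HomOff A Q B → Off A v →
  Cone0 Q (cQ v) s δ σ κ K T →
  (∃ (m k : Fin n → ℤ) (δ' : ℝ), dz m k = 1 ∧ dz m v ≠ 0 ∧ Off A m ∧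
    Cone0 Q (cQ v) s δ' σ κ K T ∧ ∀ u ∈ ball (iR s) δ', dz m (u + T u • cQ v) = 0) ∨
  ∃ s' ν : Fin n → ℝ, dq ν v = 1 ∧ DenseZ (cut A ν) ∧ ConeSh Q (cQ v) s' ν

def T_LOCTA : Prop := ∀ (n : ℕ) (P : MP n) (A : Finset (Fin n)) (v : Cn n) (S : Finset (MP n))
  (α : ℝ), Prime P → Good P S → Off A v → 0 < α →
  ∃ N ε R₀ : ℝ, 1 ≤ N ∧ 0 < ε ∧ ε ≤ 1 ∧ 3 ≤ R₀ ∧ ∀ R : ℝ, R₀ ≤ R →
  ∀ (M ρ : ℝ) (x : Cn n) (c : Cn n → ℂ) (σ : ℝ), 1 ≤ M → 1 ≤ ρ → Continuous c →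
  (∀ p ∈ ball x (ρ * R ^ α),
    ‖dil A M p‖ ≤ R ^ 2 ∧ ‖c p‖ + σ ≤ R ^ 2 ∧ Rou P v (dil A M p) (c p) σ) →
  ∃ (s : Fin n → ℝ) (τ : Cn n → ℂ), ball (x + iR s) (ε * ρ) ⊆ ball x (ρ * R ^ α) ∧
    Sh P A v M (x + iR s) (ε * ρ) τ S (N * Real.log R) ∧
    ∀ p ∈ ball (x + iR s) (ε * ρ), ‖τ p - c p‖ < σ

def T_SH2 : Prop := ∀ (n : ℕ) (P : MP n) (A : Finset (Fin n)) (v : Cn n) (Q : MP n) (E g : ℕ)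
  (s : Fin n → ℝ) (δ σ κ : ℝ) (K : ℕ) (T₀ : Cn n → ℂ), Prime P → Off A v → Asy P A Q E g →
  Cone0 Q v s δ σ κ K T₀ → ddir v P ≠ 0 ∧ ∃ (γ : ℝ) (N₁ : ℕ), 0 < γ ∧ γ ≤ 1 ∧
  ∀ S, Good P S → ∃ N : ℝ, 1 ≤ N ∧ ∀ δ₁ r₀ : ℝ, 0 < δ₁ →
    ∃ (r T : ℝ) (x : Cn n) (τ : Cn n → ℂ), r₀ ≤ r ∧ 1 ≤ T ∧ Imag x ∧
      Sh P A v (T ^ E) x r τ S (N * Real.log r) ∧ ∀ q ∈ ball x r,
        (T : ℂ)⁻¹ • q ∈ ball (iR s) (min δ δ₁) ∧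
        ‖τ q - (T : ℂ) ^ E * T * T₀ ((T : ℂ)⁻¹ • q)‖ ≤ T ^ E * r ^ (1 - γ) ∧
        ‖zt A (T ^ E) v τ q‖ ≤ r ^ N₁

def T_SH2A : Prop := ∀ (n : ℕ) (P : MP n) (A : Finset (Fin n)) (v : Fin n → ℚ) (Q : MP n)
  (E g : ℕ) (s ν : Fin n → ℝ), Prime P → Off A v → Asy P A Q E g → ConeSh Q (cQ v) s ν →
  ShA P A (cQ v) ν

def T_SH2B : Prop := ∀ (n : ℕ) (P : MP n) (A : Finset (Fin n)) (v : Cn n) (Q : MP n)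
  (E g : ℕ) (s : Fin n → ℝ) (δ σ κ : ℝ) (K : ℕ) (T₀ : Cn n → ℂ) (m : Fin n → ℤ), Prime P →
  Off A v → Off A m → Asy P A Q E g → Cone0 Q v s δ σ κ K T₀ →
  (∀ u ∈ ball (iR s) δ, dz m (u + T₀ u • v) = 0) → ShB P A v m

def T_SQF : Prop := ∀ (n : ℕ) (P : MP n) (h : P1 n), Prime P → (∃ a, ¬ P ∣ h.coeff a) →
  ∃ (h₁ q : P1 n) (d c : MP n) (a e : ℕ), Simple P h₁ d ∧ ¬ P ∣ c ∧
    ∀ (x : Cn n) (β : ℂ), eval x P = 0 →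
      eval x c * β ^ a * ev1 x β h₁ ^ e = ev1 x β h * ev1 x β q

def T_BALL : Prop := ∀ (n : ℕ) (P : MP n) (h h₁ q : P1 n) (c : MP n) (a e : ℕ) (m : Fin n → ℤ)
  (N₁ : ℕ) (γ K N₀ N' : ℝ) (S : Finset (MP n)), 0 < γ → 1 ≤ K → 1 ≤ N₀ → 1 ≤ N' →
  (∃ j, ¬ P ∣ h.coeff j) → (∀ j, ¬ P ∣ h.coeff j → h.coeff j ∈ S) → c ∈ S →
  (∀ (x : Cn n) (β : ℂ), eval x P = 0 →
    eval x c * β ^ a * ev1 x β h₁ ^ e = ev1 x β h * ev1 x β q) →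
  ∃ r₀ : ℝ, ∀ r : ℝ, r₀ ≤ r → ∀ (M : ℝ) (X : Cn n) (ζ : Cn n → Cn n), 1 ≤ M →
  DifferentiableOn ℂ ζ (ball X (M * r / 16)) →
  (∀ p ∈ ball X (M * r / 16), eval (ζ p) P = 0 ∧ Tm S (N₀ * Real.log r) (ζ p) ∧
    ‖ζ p‖ ≤ r ^ N₁ ∧ ‖dz m (ζ p)‖ ≤ M * r ^ (1 - γ)) →
  Real.exp (-(N' * (N₀ * Real.log r))) ≤ ‖ev1 (ζ X) (Complex.exp (dz m (ζ X))) h₁‖ →
  ∃ (s : Fin n → ℝ) (ρ L : ℝ) (j₀ : ℤ), ball (X + iR s) ρ ⊆ ball X (M * r / 16) ∧ 1 ≤ L ∧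
    K * L ≤ ρ ∧ r ^ N₁ ≤ Real.exp L ∧ ∀ p ∈ ball (X + iR s) ρ,
      ‖dz m (ζ p) - 2 * Real.pi * Complex.I * j₀‖ ≤ L ∧
      Real.exp (-L) ≤ ‖ev1 (ζ p) (Complex.exp (dz m (ζ p))) h‖

/-! ### loci -/

def T_EXTZ : Prop := ∀ (F : Type) [Field F] [Algebra ℂ F] (σ : Type) (a : σ → F) (ξ : σ → ℂ)
  (θ : F) (μ : Polynomial (MvPolynomial σ ℂ)), μ.Monic →
  μ.eval₂ (aeval a : MvPolynomial σ ℂ →ₐ[ℂ] F).toRingHom θ = 0 → Loc a ξ →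
  ∃ t : ℂ, Loc (ext1 θ a) (ext1 t ξ)

def T_TRC : Prop := ∀ (F : Type) [Field F] [Algebra ℂ F] (σ : Type) (a : σ → F) (ξ : σ → ℂ)
  (β : F) (β' : ℂ), Transcendental (IntermediateField.adjoin ℂ (Set.range a)) β → Loc a ξ →
  Loc (ext1 β a) (ext1 β' ξ)

def T_LIFTP : Prop := ∀ (F : Type) [Field F] [Algebra ℂ F] (σ : Type) (a : σ → F) (c : F),
  IsAlgebraic (IntermediateField.adjoin ℂ (Set.range a)) c →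
  ∃ f : MvPolynomial σ ℂ, aeval a f ≠ 0 ∧ ∀ ξ : σ → ℂ, Loc a ξ → eval ξ f ≠ 0 →
    ∃ t : ℂ, Loc (ext1 c a) (ext1 t ξ)

def T_HT1 : Prop := ∀ (K F : Type) [Field K] [Field F] [Algebra K F] (n : ℕ) (a : Fin n → F)
  (i₀ : Fin n), AlgebraicIndependent K (fun s : {s // s ≠ i₀} => a s) →
  ¬ AlgebraicIndependent K a → ∃ P : MvPolynomial (Fin n) K, P ≠ 0 ∧ ∀ g, aeval a g = 0 ↔ P ∣ g

/-- algebraic functions are tame -/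
def T_TAL : Prop := ∀ (n : ℕ) (F : Type) [Field F] [Algebra ℂ F] (D : Data n F) (σ : Type)
  (a : σ → F) (e : Fin n → σ) (g : MvPolynomial σ ℂ), (∀ i, a (e i) = D.z i) → aeval a g ≠ 0 →
  D.Alg (aeval a g) → ∃ (S : Finset (MP n)) (C : ℝ), Good D.P S ∧ 1 ≤ C ∧
  ∀ (ξ : σ → ℂ) (L : ℝ), 1 ≤ L → Loc a ξ → Tm S L (fun i => ξ (e i)) →
    Real.exp (-(C * L)) ≤ ‖eval ξ g‖ ∧ ‖eval ξ g‖ ≤ Real.exp (C * L)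

def T_ALGB : Prop := ∀ (n : ℕ) (F : Type) [Field F] [Algebra ℂ F] (D : Data n F)
  (A : Finset (Fin n)), D.AlgOn A → ∃ (S : Finset (MP n)) (C : ℝ), Good D.P S ∧ 1 ≤ C ∧
  (∀ (x w : Cn n) (L : ℝ), 1 ≤ L → D.OnE x w → Tm S L x → ∀ i ∈ A, |(w i).re| ≤ C * L) ∧
  (∀ (E : Type) [TopologicalSpace E] (Ω : Set E) (ζ w w' : E → Cn n), IsPreconnected Ω →
    ContinuousOn ζ Ω → ContinuousOn w Ω → ContinuousOn w' Ω →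
    (∀ e ∈ Ω, (∀ g ∈ S, eval (ζ e) g ≠ 0) ∧ D.OnE (ζ e) (w e) ∧ D.OnE (ζ e) (w' e)) →
    ∀ i ∈ A, ∀ e₀ ∈ Ω, Complex.exp (w e₀ i) = Complex.exp (w' e₀ i) →
      ∀ e ∈ Ω, Complex.exp (w e i) = Complex.exp (w' e i)) ∧
  ∀ (E : Type) [TopologicalSpace E] (Ω : Set E) (x : Cn n) (w : E → Cn n), IsPreconnected Ω →
    ContinuousOn w Ω → (∀ g ∈ S, eval x g ≠ 0) → (∀ e ∈ Ω, D.OnE x (w e)) →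
    ∀ i ∈ A, ∀ e ∈ Ω, ∀ e' ∈ Ω, w e i = w e' i

def T_PARF : Prop := ∀ (n : ℕ) (F : Type) [Field F] [Algebra ℂ F] (D : Data n F), D.Curve →
  ∀ l, ¬ D.Alg (mon D.y l) → ∀ M, ∃ μ h G θ, D.Par l M μ h G ∧ D.ParF l M μ h G θ

def T_SURJ : Prop := ∀ (n : ℕ) (F : Type) [Field F] [Algebra ℂ F] (D : Data n F)
  (A : Finset (Fin n)) (l : Fin n → ℤ) (M : Finset (Fin n → ℤ)) (μ : P2 n) (h : P1 n)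
  (G : (Fin n → ℤ) → P2 n) (θ : F), D.AlgOn A → ¬ D.Alg (mon D.y l) → μ.Monic →
  D.ParF l M μ h G θ → (∀ i, Pi.single i 1 ∈ M) → ∀ (x y₀ : Cn n) (β : ℂ), OnV D.z D.y x y₀ →
  ∃ t : ℂ, (sp2 x β μ).eval t = 0 ∧
    ∀ i ∈ A, y₀ i * ev1 x β h = (sp2 x β (G (Pi.single i 1))).eval t

def T_FIBA : Prop := ∀ (n : ℕ) (F : Type) [Field F] [Algebra ℂ F] (D : Data n F)
  (A : Finset (Fin n)), D.Curve → D.AlgOn A → ∀ m, ¬ D.Alg (mon D.y m) →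
  ∃ (h : P1 n) (N : ℝ), 1 ≤ N ∧ (∃ a, ¬ D.P ∣ h.coeff a) ∧
  ∀ (B : Set (Cn n)) (ζ : Cn n → Cn n) (φ : Cn n → ℂ) (L : ℝ), Convex ℝ B → IsOpen B →
  DifferentiableOn ℂ ζ B → DifferentiableOn ℂ φ B → 1 ≤ L →
  (∀ x ∈ B, eval (ζ x) D.P = 0 ∧ ‖ζ x‖ ≤ Real.exp L ∧ ‖φ x‖ ≤ L ∧
    Real.exp (-L) ≤ ‖ev1 (ζ x) (Complex.exp (φ x)) h‖) →
  ∀ x₀ ∈ B, ∀ w₀ : Cn n, D.OnE (ζ x₀) w₀ →
  ∃ (w : Cn n → Cn n) (j : ℤ), DifferentiableOn ℂ w B ∧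
    (∀ i ∈ A, Complex.exp (w x₀ i) = Complex.exp (w₀ i)) ∧ ∀ x ∈ B, D.OnE (ζ x) (w x) ∧
      dz m (w x) = φ x + 2 * Real.pi * Complex.I * j ∧ ∀ i, |(w x i).re| ≤ N * L

/-! ### derivations -/

def T_ODE : Prop := ∀ (F : Type) [Field F] [Algebra ℂ F] (σ ι : Type) [Fintype σ] [Fintype ι]
  (a : σ → F) (lam : ι → σ → MvPolynomial σ ℂ), IntermediateField.adjoin ℂ (Set.range a) = ⊤ →
  (∀ d : Derivation ℂ F F, (∀ i, ∑ s, aeval a (lam i s) * d (a s) = 0) → d = 0) →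
  ∃ (c : MvPolynomial σ ℂ) (ν : σ → ι → MvPolynomial σ ℂ), aeval a c ≠ 0 ∧
    (∀ (d : Derivation ℂ F F) (s : σ),
      aeval a c * d (a s) = ∑ i, aeval a (ν s i) * ∑ s', aeval a (lam i s') * d (a s')) ∧
    ∀ ξ η : σ → ℂ, Loc a ξ →
      (∀ g : MvPolynomial σ ℂ, aeval a g = 0 → ∑ s, η s * eval ξ (pderiv s g) = 0) →
      ∀ s, eval ξ c * η s = ∑ i, eval ξ (ν s i) * ∑ s', eval ξ (lam i s') * η s'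

def T_CHAIN : Prop := ∀ (n : ℕ) (F : Type) [Field F] [Algebra ℂ F] (σ ι : Type) [Fintype σ]
  (a : σ → F) (δ : ι → Derivation ℂ F F) (c : MvPolynomial σ ℂ) (U : ι → σ → MvPolynomial σ ℂ),
  aeval a c ≠ 0 → (∀ i s, aeval a c * δ i (a s) = aeval a (U i s)) →
  ∀ (w : List ι) (f : F) (f₁ f₂ : MvPolynomial σ ℂ), aeval a f₂ ≠ 0 →
  f * aeval a f₂ = aeval a f₁ → ∃ (g₁ : MvPolynomial σ ℂ) (e : ℕ),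
    w.foldl (fun b i => δ i b) f * aeval a ((c * f₂) ^ e) = aeval a g₁ ∧
    ∀ (Ω : Set (Cn n)) (α : Cn n → σ → ℂ) (u : ι → Cn n), IsOpen Ω → DifferentiableOn ℂ α Ω →
      (∀ p ∈ Ω, eval (α p) (c * f₂) ≠ 0 ∧
        ∀ i s, eval (α p) c * fderiv ℂ (fun q => α q s) p (u i) = eval (α p) (U i s)) →
      Chn Ω (w.map u) (fun p => eval (α p) f₁ / eval (α p) f₂)
        (fun p => eval (α p) g₁ / eval (α p) ((c * f₂) ^ e))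

def T_JAC : Prop := ∀ (n : ℕ) (F : Type) [Field F] [Algebra ℂ F] (D : Data n F)
  (A : Finset (Fin n)) (v : Cn n), (⊤ : IntermediateField ℂ F).FG → (∀ a : F, D.Alg a) →
  Off A v → ddir v D.P ≠ 0 →
  (∀ d : Derivation ℂ F F, Dual A v D.z D.y 0 d → d = 0) ∧
    ∀ e : Cn n, ∃ d : Derivation ℂ F F, Dual A v D.z D.y e d

def T_LIN : Prop := ∀ (n : ℕ) (F : Type) [Field F] [Algebra ℂ F] (z y : Fin n → F)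
  (A : Finset (Fin n)) (c : Cn n) (ξ : F), (⊤ : IntermediateField ℂ F).FG → (∀ i, y i ≠ 0) →
  MFreeOn A y →
  ((∀ d : Derivation ℂ F F,
    d ξ = ∑ i ∈ A, algebraMap ℂ F (c i) * (d (z i) - d (y i) / y i)) → ∀ i ∈ A, c i = 0) ∧
  ∀ (m : Fin n → ℤ) (b : F), Free z → m ≠ 0 → Off A m → b ≠ 0 →
    ¬ ∀ d : Derivation ℂ F F, d (dz m z) - d b / b =
      ∑ i ∈ A, algebraMap ℂ F (c i) * (d (z i) - d (y i) / y i)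

def T_ALGW : Prop := ∀ (n : ℕ) (F : Type) [Field F] [Algebra ℂ F] (z y : Fin n → F)
  (A : Finset (Fin n)) (v : Cn n) (m : Fin n → ℤ) (b : F) (δ : Fin n → Derivation ℂ F F) (d : ℕ),
  (⊤ : IntermediateField ℂ F).FG → (∀ i, y i ≠ 0) → Free z → MFreeOn A y → m ≠ 0 → Off A m →
  b ≠ 0 → (∀ d : Derivation ℂ F F, Dual A v z y 0 d → d = 0) →
  (∀ l, Dual A v z y (uv l) (δ l)) →
  ∃ (i₀ : Fin n) (w : List (Fin n)), Shape A d (i₀ :: w) ∧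
    w.foldl (fun b i => δ i b) (δ i₀ (dz m z) - δ i₀ b / b) ≠ 0

def T_WORD : Prop := ∀ (n : ℕ) (F : Type) [Field F] [Algebra ℂ F] (D : Data n F)
  (A : Finset (Fin n)) (v : Cn n) (m : Fin n → ℤ) (b : F) (d : ℕ),
  IntermediateField.adjoin ℂ (Set.range (ext1 b (Sum.elim D.z D.y))) = ⊤ → (∀ a : F, D.Alg a) →
  Free D.z → MFreeOn A D.y → m ≠ 0 → Off A m → Off A v → ddir v D.P ≠ 0 → b ≠ 0 →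
  ∃ (l : List (Fin n)) (S : Finset (MP n)) (C : ℝ), Shape A d l ∧ Good D.P S ∧ 1 ≤ C ∧
  ∀ (Ω : Set (Cn n)) (ζ ω y' : Cn n → Cn n) (τ lb : Cn n → ℂ) (c₀ : Cn n) (L : ℝ), IsOpen Ω →
  DifferentiableOn ℂ ζ Ω → DifferentiableOn ℂ ω Ω → DifferentiableOn ℂ y' Ω →
  DifferentiableOn ℂ lb Ω → 1 ≤ L →
  (∀ p ∈ Ω, Loc (ext1 b (Sum.elim D.z D.y)) (ext1 (Complex.exp (lb p)) (Sum.elim (ζ p) (y' p))) ∧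
    Tm S L (ζ p) ∧ (∀ i ∈ A, y' p i = Complex.exp (ω p i)) ∧ Eqs A v c₀ (ζ p) (ω p) (τ p) p) →
  ∃ g : Cn n → ℂ, Chn Ω (l.map uv) (fun p => dz m (ζ p) - lb p) g ∧
    ∀ p ∈ Ω, Real.exp (-(C * L)) ≤ ‖g p‖ ∧ ‖g p‖ ≤ Real.exp (C * L)

def T_ROOTW : Prop := ∀ (n : ℕ) (F : Type) [Field F] [Algebra ℂ F] (D : Data n F)
  (A : Finset (Fin n)) (v : Cn n) (m : Fin n → ℤ) (h : P1 n) (d₁ : MP n) (d : ℕ), D.AlgOn A →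
  Free D.z → MFree D.y → m ≠ 0 → Off A m → Off A v → ddir v D.P ≠ 0 → Simple D.P h d₁ →
  ∃ (S : Finset (MP n)) (C : ℝ), Good D.P S ∧ 1 ≤ C ∧
  ∀ (Ω : Set (Cn n)) (ζ ω : Cn n → Cn n) (τ lb : Cn n → ℂ) (c₀ : Cn n) (L : ℝ), Convex ℝ Ω →
  IsOpen Ω → Ω.Nonempty → DifferentiableOn ℂ ζ Ω → DifferentiableOn ℂ ω Ω →
  DifferentiableOn ℂ lb Ω → 1 ≤ L →
  (∀ p ∈ Ω, D.OnE (ζ p) (ω p) ∧ Tm S L (ζ p) ∧ ev1 (ζ p) (Complex.exp (lb p)) h = 0 ∧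
    Eqs A v c₀ (ζ p) (ω p) (τ p) p) →
  ∃ (l : List (Fin n)) (g : Cn n → ℂ), Shape A d l ∧
    Chn Ω (l.map uv) (fun p => dz m (ζ p) - lb p) g ∧
    ∀ p ∈ Ω, Real.exp (-(C * L)) ≤ ‖g p‖ ∧ ‖g p‖ ≤ Real.exp (C * L)

def T_DISC : Prop := ∀ (n : ℕ) (F : Type) [Field F] [Algebra ℂ F] (D : Data n F)
  (A : Finset (Fin n)) (v : Cn n) (m : Fin n → ℤ) (h : P1 n) (d₁ : MP n) (N₁ : ℕ), D.AlgOn A →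
  Free D.z → MFree D.y → m ≠ 0 → Off A m → Off A v → ddir v D.P ≠ 0 → Simple D.P h d₁ →
  ∃ (S : Finset (MP n)) (G : ℕ) (N' δ : ℝ), Good D.P S ∧ 1 ≤ N' ∧ 0 < δ ∧
  ∀ N₀ : ℝ, 1 ≤ N₀ → ∃ r₀ : ℝ, ∀ r : ℝ, r₀ ≤ r →
  ∀ (ζ ω : Cn n → Cn n) (τ : Cn n → ℂ) (c₀ : Cn n), DifferentiableOn ℂ ζ (ball 0 r) →
  DifferentiableOn ℂ ω (ball 0 r) →
  (∀ p ∈ ball (0 : Cn n) r, D.OnE (ζ p) (ω p) ∧ Tm S (N₀ * Real.log r) (ζ p) ∧ ‖ζ p‖ ≤ r ^ N₁ ∧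
    Eqs A v c₀ (ζ p) (ω p) (τ p) p ∧
    ∀ j, j ∉ A → ‖fderiv ℂ (fun q => dz m (ζ q)) p (uv j)‖ ≤ δ) →
  ∃ t : Fin n → ℕ, (∀ i, t i ≤ G) ∧ Real.exp (-(N' * (N₀ * Real.log r))) ≤
    ‖ev1 (ζ (gp t)) (Complex.exp (dz m (ζ (gp t)))) h‖

/-! ### the cases -/

def T_CASE1A : Prop := ∀ (n : ℕ) (F : Type) [Field F] [Algebra ℂ F] (D : Data n F)
  (A : Finset (Fin n)) (Q : MP n) (E g : ℕ) (v : Fin n → ℚ) (s : Fin n → ℝ) (τ₀ : ℂ),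
  D.IsRay v → Off A v → Asy D.P A Q E g → eval (iR s + τ₀ • cQ v) Q = 0 →
  (∃ τ : ℂ, eval (iR s + τ • cQ v) Q ≠ 0) → 0 < τ₀.re → D.Sol

def T_CASE2A : Prop := ∀ (n : ℕ) (F : Type) [Field F] [Algebra ℂ F] (D : Data n F)
  (A : Finset (Fin n)) (v : Fin n → ℚ) (ν : Fin n → ℝ), D.Curve → D.AlgOn A → D.IsRay v →
  Off A v → dq ν v = 1 → DenseZ (cut A ν) → ShA D.P A (cQ v) ν → D.Sol

def T_FIN3 : Prop := ∀ (n : ℕ) (F : Type) [Field F] [Algebra ℂ F] (D : Data n F)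
  (A : Finset (Fin n)) (v : Fin n → ℚ) (m k : Fin n → ℤ), D.Curve → D.AlgOn A →
  ¬ D.Alg (mon D.y m) → Off A m → Off A v → dz m k = 1 → dz m v ≠ 0 →
  ∃ (h : P1 n) (S : Finset (MP n)) (K : ℝ), (∃ a, ¬ D.P ∣ h.coeff a) ∧ Good D.P S ∧ 1 ≤ K ∧
  ∀ (X : Cn n) (ρ L : ℝ) (ζ ω : Cn n → Cn n) (τ : Cn n → ℂ) (j₀ : ℤ), Imag X → 1 ≤ L →
  K * L ≤ ρ → DifferentiableOn ℂ ζ (ball X ρ) → DifferentiableOn ℂ ω (ball X ρ) →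
  (∀ p ∈ ball X ρ, D.PSol A (cQ v) (ζ p) (ω p) (τ p) p ∧ (∀ g ∈ S, eval (ζ p) g ≠ 0) ∧
    ‖ζ p‖ ≤ Real.exp L ∧ ‖dz m (ζ p) - 2 * Real.pi * Complex.I * j₀‖ ≤ L ∧
    Real.exp (-L) ≤ ‖ev1 (ζ p) (Complex.exp (dz m (ζ p))) h‖) → D.Sol

def T_CASE3A : Prop := ∀ (n : ℕ) (F : Type) [Field F] [Algebra ℂ F] (D : Data n F)
  (A : Finset (Fin n)) (v : Fin n → ℚ) (m k : Fin n → ℤ), D.Curve → Free D.z → MFree D.y →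
  D.AlgOn A → D.IsRay v → Off A v → Off A m → dz m k = 1 → dz m v ≠ 0 →
  ShB D.P A (cQ v) m → D.Sol

def T_COORD : Prop := ∀ (n : ℕ) (F : Type) [Field F] [Algebra ℂ F] (D : Data n F),
  ∃ (D' : Data n F) (A : Finset (Fin n)), D'.NF A ∧ (D.Curve → D'.Curve) ∧
    (Free D.z → Free D'.z) ∧ (MFree D.y → MFree D'.y) ∧ (Rot D.z D.y → Rot D'.z D'.y) ∧
    (D.Star2 ↔ D'.Star2) ∧ (D'.Sol → D.Sol)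

def T_T2 : Prop := ∀ (n : ℕ) (F : Type) [Field F] [Algebra ℂ F] (D : Data n F), D.Curve →
  Free D.z → MFree D.y → D.Star2 → D.Sol

def T_RAB2 : Prop := ∀ (n : ℕ) (F : Type) [Field F] [Algebra ℂ F] (D : Data n F) (f : MP2 n),
  ev D.z D.y f ≠ 0 → Free D.z → MFree D.y → D.Star2 →
  ∃ D' : Data (n + 1) (RatFunc F), Free D'.z ∧ MFree D'.y ∧ D'.Star2 ∧
    (D'.Sol → ∃ x, D.OnE x x ∧ eval (Sum.elim x (ex x)) f ≠ 0)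

def T_MFS : Prop := ∀ (n : ℕ) (F F' : Type) [Field F] [Algebra ℂ F] [Field F'] [Algebra ℂ F']
  (D : Data n F) (D' : Data n F'), D'.P = D.P → (∀ g, ev D.z D.y g = 0 → ev D'.z D'.y g = 0) →
  (∀ m, D'.Alg (mon D'.y m) → D.Alg (mon D.y m)) → MFree D.y → MFree D'.y

def T_DENS2 : Prop := ∀ (n : ℕ) (F : Type) [Field F] [Algebra ℂ F] (D : Data n F), Free D.z →
  MFree D.y → D.Star2 → ∀ f, ev D.z D.y f ≠ 0 →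
  ∃ x, D.OnE x x ∧ eval (Sum.elim x (ex x)) f ≠ 0

/-! ### three variables -/

def T_DOM : Prop := ∀ (n : ℕ) (F : Type) [Field F] [Algebra ℂ F] (z y : Fin (n + 1) → F),
  (∀ i, y i ≠ 0) → AlgebraicIndependent ℂ z → ∀ f, ev z y f ≠ 0 →
  ∃ x, OnV z y x (ex x) ∧ eval (Sum.elim x (ex x)) f ≠ 0

def T_S2 : Prop := ∀ (F : Type) [Field F] [Algebra ℂ F] (D : Data 2 F), Free D.z →
  (∃ i, ¬ D.Alg (D.y i)) → D.Star2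

/-- elements algebraic over the field of a hypersurface: fewer than `n` independent ones -/
def T_TDK : Prop := ∀ (n : ℕ) (F : Type) [Field F] [Algebra ℂ F] (D : Data n F) (ι : Type)
  [Fintype ι] (a : ι → F), (∀ s, D.Alg (a s)) → AlgebraicIndependent ℂ a → Fintype.card ι < n

def T_B3 : Prop := ∀ (F : Type) [Field F] [Algebra ℂ F] (D : Data 3 F), Free D.z → MFree D.y →
  Rot D.z D.y → ¬ D.Star2 → D.Sol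

def T_MMA : Prop := ∀ (n : ℕ) (F : Type) [Field F] [Algebra ℂ F] (z y : Fin n → F) (i₀ : Fin n),
  (∀ i, y i ≠ 0) →
  AlgebraicIndependent (IntermediateField.adjoin ℂ (Set.range z)) (fun s : {s // s ≠ i₀} => y s) →
  (∀ x y' : Cn n, Loc z x → OnV z y x y') ∨
  ∃ (Su : Finset (Fin n → ℤ)) (c : (Fin n → ℤ) → MP n) (g₀ : MP n), 2 ≤ Su.card ∧
    (∀ a ∈ Su, aeval z (c a) ≠ 0) ∧ aeval z g₀ ≠ 0 ∧ ∀ x y' : Cn n, Loc z x → eval x g₀ ≠ 0 →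
      ∑ a ∈ Su, eval x (c a) * mon y' a = 0 → OnV z y x y'

def T_TAL1 : Prop := ∀ (n : ℕ) (F : Type) [Field F] [Algebra ℂ F] (z : Fin n → F)
  (l : Fin n → ℤ) (g : MP n), Algebra.trdeg ℂ F ≤ 1 → Transcendental ℂ (dz l z) →
  aeval z g ≠ 0 → ∃ (C : ℕ) (R₁ : ℝ), ∀ ξ : Cn n, Loc z ξ → R₁ ≤ ‖dz l ξ‖ →
    1 ≤ ‖dz l ξ‖ ^ C * ‖eval ξ g‖ ∧ ‖eval ξ g‖ ≤ ‖dz l ξ‖ ^ C

def T_PAR1 : Prop := ∀ (n : ℕ) (F : Type) [Field F] [Algebra ℂ F] (z : Fin n → F)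
  (l : Fin n → ℤ), Algebra.trdeg ℂ F ≤ 1 → Transcendental ℂ (dz l z) →
  ∃ (R : ℝ) (ζ : ℂ → Cn n), DifferentiableOn ℂ ζ (half R) ∧
    ∀ s ∈ half R, Loc z (ζ s) ∧ dz l (ζ s) = s ^ 3

def T_WRM : Prop := ∀ (n : ℕ) (F : Type) [Field F] [Algebra ℂ F] (z : Fin n → F)
  (l : Fin n → ℤ) (Su : Finset (Fin n → ℤ)) (c : (Fin n → ℤ) → MP n) (a₀ : Fin n → ℤ),
  IntermediateField.adjoin ℂ (Set.range z) = ⊤ → Algebra.trdeg ℂ F ≤ 1 → Free z → l ≠ 0 →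
  a₀ ∈ Su → (∀ a ∈ Su, aeval z (c a) ≠ 0) → ∃ (C : ℕ) (R₁ : ℝ),
  ∀ (ζ : ℂ → Cn n) (s₀ : ℂ) (ρ B : ℝ), R₁ ≤ ‖s₀‖ → 0 < ρ → ρ ≤ 1 →
  DifferentiableOn ℂ ζ (ball s₀ ρ) →
  (∀ s ∈ ball s₀ ρ, Loc z (ζ s) ∧ dz l (ζ s) = s ^ 3 ∧
    ‖∑ a ∈ Su, eval (ζ s) (c a) * Complex.exp (dz a (ζ s))‖ ≤ B) →
  Real.exp (dz a₀ (ζ s₀)).re ≤ (‖s₀‖ / ρ) ^ C * B

def T_MMB : Prop := ∀ (n : ℕ) (F : Type) [Field F] [Algebra ℂ F] (z : Fin n → F)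
  (Su : Finset (Fin n → ℤ)) (c : (Fin n → ℤ) → MP n) (g₀ : MP n),
  IntermediateField.adjoin ℂ (Set.range z) = ⊤ → Algebra.trdeg ℂ F ≤ 1 → Free z →
  2 ≤ Su.card → (∀ a ∈ Su, aeval z (c a) ≠ 0) → aeval z g₀ ≠ 0 →
  ∃ x : Cn n, Loc z x ∧ eval x g₀ ≠ 0 ∧ ∑ a ∈ Su, eval x (c a) * Complex.exp (dz a x) = 0

def T_MM : Prop := ∀ (n : ℕ) (F : Type) [Field F] [Algebra ℂ F] (z y : Fin n → F) (i₀ : Fin n),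
  (∀ i, y i ≠ 0) → Free z → Algebra.trdeg ℂ (IntermediateField.adjoin ℂ (Set.range z)) ≤ 1 →
  AlgebraicIndependent (IntermediateField.adjoin ℂ (Set.range z)) (fun s : {s // s ≠ i₀} => y s) →
  ∃ x, OnV z y x (ex x)

def T_EC3 : Prop := ∀ (F : Type) [Field F] [Algebra ℂ F] (z y : Fin 3 → F), (∀ i, y i ≠ 0) →
  Free z → MFree y → Rot z y → ∃ x, OnV z y x (ex x)

end Pool.Agent.P.MP_d2ed07_lc
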