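import Pool.Agent.P.MP_d2ed07_lc.Basic2
import Pool.Agent.P.MP_d2ed07_lc.Iface2
import Pool.Agent.P.MP_d2ed07_lc.AS

/-!
Linear relations between logarithmic forms, and nonvanishing words of derivations.
-/

namespace Pool.Agent.P.MP_d2ed07_lc

open MvPolynomial Metric Filter Topology

section
variable {n : ℕ} {F : Type} [Field F] [Algebra ℂ F]

theorem algw_const (hder1 : T_DER1) (hfg : (⊤ : IntermediateField ℂ F).FG) {a : F}
    (h : ∀ d : Derivation ℂ F F, d a = 0) : ∃ c : ℂ, a = algebraMap ℂ F c := by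
  have ha : IsAlgebraic ℂ a := by
    by_contra hn
    obtain ⟨d, hd⟩ := hder1 ℂ F hfg a hn
    exact zero_ne_one ((h d).symm.trans hd)
  obtain ⟨c, hc⟩ := minpoly.mem_range_of_degree_eq_one ℂ a
    (IsAlgClosed.degree_eq_one_of_irreducible ℂ (minpoly.irreducible ha.isIntegral))
  exact ⟨c, hc.symm⟩

theorem algw_log (d : Derivation ℂ F F) {y : Fin n → F} (hy : ∀ i, y i ≠ 0) (w : Fin n → ℤ) :
    d (mon y w) / mon y w = dz w fun i => d (y i) / y i := as_logd_mon d y hy w

theorem algw_mon (hder1 : T_DER1) (hfg : (⊤ : IntermediateField ℂ F).FG) {y : Fin n → F}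
    (hy : ∀ i, y i ≠ 0) {A : Finset (Fin n)} (hA : MFreeOn A y) (w : Fin n → ℤ)
    (hw : ∀ j, j ∉ A → w j = 0)
    (h : ∀ d : Derivation ℂ F F, (dz w fun i => d (y i) / y i) = 0) : w = 0 := by
  by_contra hne
  obtain ⟨c, hc⟩ := algw_const hder1 hfg (a := mon y w) fun d => by
    have := h d
    rw [← algw_log d hy, div_eq_zero_iff] at this
    exact this.resolve_right (mon_ne_zero hy w)
  exact hA w hne hw c hc

theorem algw_sum {k : ℕ} {A : Finset (Fin n)} {c : Cn n} {e : Fin k → ℂ} {q : Fin k → Fin n → ℤ}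
    (h : ∀ i ∈ A, c i = ∑ a, (q a i : ℂ) * e a) (h0 : ∀ a j, j ∉ A → q a j = 0) (x : Fin n → F) :
    ∑ a, algebraMap ℂ F (e a) * dz (q a) x = ∑ i ∈ A, algebraMap ℂ F (c i) * x i := by
  simp only [dz, Finset.mul_sum]
  rw [Finset.sum_comm, ← Finset.sum_subset (Finset.subset_univ A)
    fun j _ hj => Finset.sum_eq_zero fun a _ => by simp [h0 a j hj]]
  refine Finset.sum_congr rfl fun i hi => ?_
  rw [h i hi, map_sum, Finset.sum_mul]
  refine Finset.sum_congr rfl fun a _ => ?_
  rw [map_mul, map_intCast]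
  ring

theorem algw_d (d : Derivation ℂ F F) (A : Finset (Fin n)) (c : Cn n) (z : Fin n → F) :
    d (∑ i ∈ A, algebraMap ℂ F (c i) * z i) = ∑ i ∈ A, algebraMap ℂ F (c i) * d (z i) := by
  rw [map_sum]
  exact Finset.sum_congr rfl fun i _ => by rw [Derivation.leibniz]; simp

theorem algw_br (d d' : Derivation ℂ F F) {y : F} (hy : y ≠ 0) :
    d (d' y / y) - d' (d y / y) = ⁅d, d'⁆ y / y := by
  rw [Derivation.commutator_apply, Derivation.leibniz_div, Derivation.leibniz_div]
  simp only [smul_eq_mul]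
  field_simp
  ring

theorem algw_comm {A : Finset (Fin n)} {v e e' : Cn n} {z y : Fin n → F} (hy : ∀ i, y i ≠ 0)
    {d d' : Derivation ℂ F F} (h : Dual A v z y e d) (h' : Dual A v z y e' d') :
    Dual A v z y 0 ⁅d, d'⁆ := by
  obtain ⟨h1, t, h2⟩ := h
  obtain ⟨h3, t', h4⟩ := h'
  refine ⟨fun i hi => ?_, d t' - d' t, fun j hj => ?_⟩
  · have e1 := congrArg d' (h1 i hi)
    have e2 := congrArg d (h3 i hi)
    rw [Derivation.map_algebraMap, map_sub] at e1 e2
    rw [← algw_br d d' (hy i), Derivation.commutator_apply, Pi.zero_apply, map_zero]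
    linear_combination e2 - e1
  · rw [Derivation.commutator_apply, h2 j hj, h4 j hj]
    simp only [map_add, Derivation.leibniz, Derivation.map_algebraMap, smul_eq_mul, Pi.zero_apply,
      map_zero]
    ring

theorem algw_uv (η : Fin n → F) (i : Fin n) : ∑ l, η l * algebraMap ℂ F (uv l i) = η i := by
  rw [Finset.sum_eq_single i (fun l _ hl => by simp [uv, Ne.symm hl]) (by simp)]
  simp [uv]

theorem algw_span {A : Finset (Fin n)} {v : Cn n} {z y : Fin n → F}
    {δ : Fin n → Derivation ℂ F F} (hu : ∀ d : Derivation ℂ F F, Dual A v z y 0 d → d = 0)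
    (hδ : ∀ l, Dual A v z y (uv l) (δ l)) (d : Derivation ℂ F F) :
    ∃ η : Fin n → F, (∀ i ∈ A, η i = d (z i) - d (y i) / y i) ∧ ∀ x, d x = ∑ l, η l * δ l x := by
  let η : Fin n → F := fun l => if l ∈ A then d (z l) - d (y l) / y l else d (z l)
  have e : ∀ x, (d - ∑ l, η l • δ l) x = d x - ∑ l, η l * δ l x := fun x => by
    rw [Derivation.sub_apply, as_sum_apply]
    rfl
  choose t ht using fun l => (hδ l).2
  refine ⟨η, fun i hi => if_pos hi, fun x => ?_⟩
  rw [← sub_eq_zero, ← e, hu (d - ∑ l, η l • δ l) ⟨fun i hi => ?_, -∑ l, η l * t l, fun j hj => ?_⟩,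
    Derivation.zero_apply]
  · have e1 := algw_uv η i
    have e2 : η i = d (z i) - d (y i) / y i := if_pos hi
    simp only [← (hδ _).1 i hi, mul_sub, Finset.sum_sub_distrib, ← mul_div_assoc,
      ← Finset.sum_div] at e1
    rw [e, e, Pi.zero_apply, map_zero, sub_div]
    linear_combination -e1 - e2
  · have e1 := algw_uv η j
    have e2 : η j = d (z j) := if_neg hj
    rw [e, Pi.zero_apply, map_zero]
    simp only [ht _ j hj, mul_add, Finset.sum_add_distrib, ← mul_assoc, ← Finset.sum_mul]
    linear_combination -e1 - e2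

theorem algw_fold {δ : Fin n → Derivation ℂ F F} (h : ∀ i j x, δ i (δ j x) = δ j (δ i x))
    (j : Fin n) (w : List (Fin n)) (x : F) :
    δ j (w.foldl (fun b i => δ i b) x) = w.foldl (fun b i => δ i b) (δ j x) := by
  induction w generalizing x with
  | nil => rfl
  | cons i w ih => rw [List.foldl_cons, List.foldl_cons, ih, h]

theorem algw_zero (δ : Fin n → Derivation ℂ F F) (w : List (Fin n)) :
    w.foldl (fun b i => δ i b) 0 = 0 := by
  induction w with
  | nil => rfl
  | cons i w ih => rw [List.foldl_cons, map_zero, ih]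

end

theorem t_lin (hros : T_ROS) (hder1 : T_DER1) : T_LIN := by
  intro n F _ _ z y A c ξ hfg hy hA
  haveI : CharZero F := charZero_of_injective_algebraMap (algebraMap ℂ F).injective
  refine ⟨fun h => ?_, fun m b hz hm hoff hb h => ?_⟩
  · obtain ⟨k, e, q, he, hq⟩ := as_intbasis c
    let q' : Fin k → Fin n → ℤ := fun a i => if i ∈ A then q i a else 0
    have h0 : ∀ a j, j ∉ A → q' a j = 0 := fun a j hj => if_neg hj
    have h1 : ∀ i ∈ A, c i = ∑ a, (q' a i : ℂ) * e a := fun i hi => by
      simpa only [q', if_pos hi] using hq i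
    have hv := hros ℂ F hfg (Fin k) e (fun a => mon y (q' a))
      (∑ i ∈ A, algebraMap ℂ F (c i) * z i - ξ) he (fun a => mon_ne_zero hy _) fun d => by
        simp only [algw_log d hy]
        rw [algw_sum h1 h0, map_sub, algw_d, h d, ← Finset.sum_sub_distrib]
        exact Finset.sum_congr rfl fun i _ => by ring
    have h2 : ∀ a, q' a = 0 := fun a => algw_mon hder1 hfg hy hA _ (h0 a) fun d => by
      rw [← algw_log d hy, hv a d, zero_div]
    intro i hi
    simp [h1 i hi, h2]
  · obtain ⟨k, e, q, he, hq⟩ := as_intbasis (ext1 (1 : ℂ) c)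
    let q' : Fin k → Fin n → ℤ := fun a i => if i ∈ A then q (some i) a else 0
    have h0 : ∀ a j, j ∉ A → q' a j = 0 := fun a j hj => if_neg hj
    have h1 : ∀ i ∈ A, c i = ∑ a, (q' a i : ℂ) * e a := fun i hi => by
      simp only [q', if_pos hi]
      exact hq (some i)
    have h2 : (1 : ℂ) = ∑ a, (q none a : ℂ) * e a := hq none
    have h3 : ∀ (d : Derivation ℂ F F) a, d (b ^ (-q none a) * mon y (q' a)) /
        (b ^ (-q none a) * mon y (q' a)) =
        (dz (q' a) fun i => d (y i) / y i) - q none a * (d b / b) := fun d a => by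
      rw [as_logd_mul d (zpow_ne_zero _ hb) (mon_ne_zero hy _), as_logd_zpow d hb, algw_log d hy]
      push_cast
      ring
    have h4 : ∀ d : Derivation ℂ F F, ∑ a, algebraMap ℂ F (e a) *
        (d (b ^ (-q none a) * mon y (q' a)) / (b ^ (-q none a) * mon y (q' a))) =
        d (∑ i ∈ A, algebraMap ℂ F (c i) * z i - dz m z) := fun d => by
      have e1 : ∑ a, algebraMap ℂ F (e a) * (q none a * (d b / b)) = d b / b := by
        have := congrArg (fun t => algebraMap ℂ F t * (d b / b)) h2
        simp only [map_one, one_mul, map_sum, map_mul, map_intCast, Finset.sum_mul] at this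
        exact (Finset.sum_congr rfl fun a _ => by ring).trans this.symm
      have e2 := h d
      simp only [mul_sub, Finset.sum_sub_distrib] at e2
      simp only [h3, mul_sub, Finset.sum_sub_distrib]
      rw [algw_sum h1 h0, e1, map_sub, algw_d]
      linear_combination e2
    have hv := hros ℂ F hfg (Fin k) e (fun a => b ^ (-q none a) * mon y (q' a)) _ he
      (fun a => mul_ne_zero (zpow_ne_zero _ hb) (mon_ne_zero hy _)) h4
    obtain ⟨a₀, ha₀⟩ : ∃ a, q none a ≠ 0 := by
      by_contra hn
      simp only [not_exists, not_not] at hn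
      simp [hn] at h2
    have h5 : ∀ a, q none a₀ • q' a + -(q none a • q' a₀) = 0 := fun a =>
      algw_mon hder1 hfg hy hA _ (fun j hj => by simp [h0 _ j hj]) fun d => by
        have e1 := h3 d a
        have e2 := h3 d a₀
        rw [hv _ d, zero_div] at e1 e2
        rw [dz_add_left, dz_neg_left, dz_smul_left, dz_smul_left]
        linear_combination (q none a : F) * e2 - (q none a₀ : F) * e1
    have h6 : ∀ i ∈ A, (q none a₀ : ℂ) * c i = q' a₀ i := fun i hi => by
      rw [h1 i hi, ← mul_one (q' a₀ i : ℂ), h2, Finset.mul_sum, Finset.mul_sum]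
      refine Finset.sum_congr rfl fun a _ => ?_
      have e1 : q none a₀ * q' a i + -(q none a * q' a₀ i) = 0 := congrFun (h5 a) i
      have e2 := congrArg (fun t : ℤ => (t : ℂ)) e1
      push_cast at e2
      linear_combination e a * e2
    have h7 : dz (q' a₀) z = q none a₀ * ∑ i ∈ A, algebraMap ℂ F (c i) * z i := by
      rw [dz, ← Finset.sum_subset (Finset.subset_univ A) fun j _ hj => by simp [h0 a₀ j hj],
        Finset.mul_sum]
      refine Finset.sum_congr rfl fun i hi => ?_
      rw [← map_intCast (algebraMap ℂ F), ← h6 i hi, map_mul, map_intCast, mul_assoc]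
    obtain ⟨c₀, hc₀⟩ := algw_const hder1 hfg
      (a := ∑ i ∈ A, algebraMap ℂ F (c i) * z i - dz m z) fun d => by
        rw [← h4 d]
        exact Finset.sum_eq_zero fun a _ => by rw [hv a d, zero_div, mul_zero]
    obtain ⟨j, hj⟩ := Function.ne_iff.1 hm
    refine hz (q' a₀ + -(q none a₀ • m)) (fun e0 => ?_) (q none a₀ * c₀) ?_
    · have e1 : q' a₀ j + -(q none a₀ * m j) = 0 := congrFun e0 j
      rw [h0 a₀ j fun hj' => hj (hoff j hj'), zero_add, neg_eq_zero] at e1
      exact mul_ne_zero ha₀ hj e1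
    · rw [dz_add_left, dz_neg_left, dz_smul_left, h7, map_mul, map_intCast, ← hc₀]
      ring

theorem t_algw (hlin : T_LIN) (hder1 : T_DER1) : T_ALGW := by
  intro n F _ _ z y A v m b δ d hfg hy hz hA hm hoff hb hu hδ
  have hc : ∀ i j x, δ i (δ j x) = δ j (δ i x) := fun i j x => by
    rw [← sub_eq_zero, ← Derivation.commutator_apply, hu _ (algw_comm hy (hδ i) (hδ j)),
      Derivation.zero_apply]
  have hk : ∀ x, (∀ l, δ l x = 0) → ∃ c : ℂ, x = algebraMap ℂ F c := fun x hx =>
    algw_const hder1 hfg fun d => by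
      obtain ⟨η, -, h⟩ := algw_span hu hδ d
      simp [h x, hx]
  obtain ⟨f, hf⟩ : ∃ f : Fin n → F, ∀ l, f l = δ l (dz m z) - δ l b / b := ⟨_, fun _ => rfl⟩
  have hff : ∀ i j, δ i (f j) = δ j (f i) := fun i j => by
    have e := algw_br (δ i) (δ j) hb
    rw [Derivation.commutator_apply, hc i j b, sub_self, zero_div] at e
    rw [hf, hf, map_sub, map_sub, hc]
    linear_combination -e
  simp only [← hf]
  by_contra hn
  simp only [not_exists, not_and, not_not] at hn
  have h0 : ∀ j, j ∉ A → f j = 0 := fun j hj => hn j [] (Or.inl ⟨j, hj, rfl⟩)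
  have hs : ∀ (g : Fin n → F), (∀ j, j ∉ A → g j = 0) → (∀ i ∈ A, ∀ l, δ l (g i) = 0) →
      ∃ c : Cn n, (∀ i, g i = algebraMap ℂ F (c i)) ∧ ∀ η η' : Fin n → F, (∀ i ∈ A, η i = η' i) →
        ∑ l, η l * g l = ∑ i ∈ A, algebraMap ℂ F (c i) * η' i := fun g h1 h2 => by
    choose c hc using fun i => hk (g i) fun l => by
      by_cases hi : i ∈ A
      · exact h2 i hi l
      · rw [h1 i hi, map_zero]
    refine ⟨c, hc, fun η η' h => ?_⟩
    rw [← Finset.sum_subset (Finset.subset_univ A) fun j _ hj => by rw [h1 j hj, mul_zero]]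
    exact Finset.sum_congr rfl fun i hi => by rw [h i hi, hc, mul_comm]
  have key : ∀ x, (∀ j, j ∉ A → δ j x = 0) → (∀ i ∈ A, ∀ l ∈ A, δ l (δ i x) = 0) →
      ∀ i ∈ A, δ i x = 0 := fun x h1 h2 i hi => by
    obtain ⟨c, h3, h4⟩ := hs (fun i => δ i x) h1 fun i hi l => by
      by_cases hl : l ∈ A
      · exact h2 i hi l hl
      · rw [hc, h1 l hl, map_zero]
    have h5 := (hlin n F z y A c x hfg hy hA).1 (fun d => by
      obtain ⟨η, h6, h7⟩ := algw_span hu hδ d
      rw [h7, h4 η _ h6]) i hi
    rw [h3, h5, map_zero]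
  have main : ∀ e : ℕ, ¬ ∀ i ∈ A, ∀ w : List (Fin n), w.length = e + 1 → (∀ l ∈ w, l ∈ A) →
      w.foldl (fun b i => δ i b) (f i) = 0 := fun e => by
    induction e with
    | zero =>
      intro h
      obtain ⟨c, -, h4⟩ := hs f h0 fun i hi l => by
        by_cases hl : l ∈ A
        · exact h i hi [l] rfl (by simpa using hl)
        · rw [hff, h0 l hl, map_zero]
      refine (hlin n F z y A c 0 hfg hy hA).2 m b hz hm hoff hb fun d => ?_
      obtain ⟨η, h6, h7⟩ := algw_span hu hδ d
      rw [← h4 η _ h6, h7, h7 b, Finset.sum_div, ← Finset.sum_sub_distrib]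
      exact Finset.sum_congr rfl fun l _ => by rw [hf]; ring
    | succ e ih =>
      refine fun h => ih fun i hi w hw hwA => ?_
      obtain rfl | ⟨w', i', rfl⟩ := w.eq_nil_or_concat'
      · simp at hw
      rw [List.foldl_append]
      refine key _ (fun j hj => ?_) (fun a ha l hl => ?_) i' (hwA i' (by simp))
      · rw [algw_fold hc, hff, h0 j hj, map_zero, algw_zero]
      · have := h i hi (w' ++ [a, l]) (by simp at hw ⊢; omega) fun x hx => by
          rcases List.mem_append.1 hx with hx | hx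
          · exact hwA x (List.mem_append_left _ hx)
          · rcases List.mem_pair.1 hx with rfl | rfl <;> assumption
        rwa [List.foldl_append] at this
  have hd : ∀ i ∈ A, ∀ w : List (Fin n), w.length = d → (∀ l ∈ w, l ∈ A) →
      w.foldl (fun b i => δ i b) (f i) = 0 := fun i hi w hw hwA =>
    hn i w (Or.inr ⟨by simp [hw], fun l hl => by
      rcases List.mem_cons.1 hl with rfl | hl
      · exact hi
      · exact hwA l hl⟩)
  cases d with
  | succ e => exact main e hd
  | zero =>
    refine main 0 fun i hi w _ _ => ?_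
    have e : f i = 0 := hd i hi [] rfl (by simp)
    rw [e, algw_zero]

end Pool.Agent.P.MP_d2ed07_lc
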