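import Pool.Agent.P.MP_d2ed07_lc.Basic

/-!
Lower bounds for polynomials in `exp l` on strips and half planes.
-/

namespace Pool.Agent.P.MP_d2ed07_lc

open MvPolynomial Metric Filter Topology

theorem ang_cos {ε u : ℝ} (h0 : 0 ≤ ε) (h1 : ε ≤ u) (h2 : u ≤ 2 * Real.pi - ε) :
    Real.cos u ≤ Real.cos ε := by
  rcases le_total u Real.pi with h | h
  · exact Real.cos_le_cos_of_nonneg_of_le_pi h0 h h1
  · rw [← Real.cos_two_pi_sub]
    exact Real.cos_le_cos_of_nonneg_of_le_pi h0 (by linarith) (by linarith)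

theorem ang_gap (M : ℕ) (R : Finset ℝ) (hR : R.card ≤ M) :
    ∃ θ : ℝ, -Real.pi + Real.pi / (M + 1) ≤ θ ∧ θ ≤ Real.pi - Real.pi / (M + 1) ∧
      ∀ φ ∈ R, Real.pi / (M + 1) ≤ |φ - θ| := by
  obtain ⟨h, hh⟩ : ∃ h, h = Real.pi / (M + 1) := ⟨_, rfl⟩
  have h0 : 0 < h := hh ▸ by positivity
  have h1 : Real.pi = (M + 1) * h := by rw [hh]; field_simp
  rw [← hh]
  have : ∃ k ∈ Finset.range (M + 1), ∀ φ ∈ R, h ≤ |φ - (-Real.pi + (2 * (k : ℕ) + 1) * h)| := by
    by_contra hc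
    push Not at hc
    choose! φ h2 h3 using hc
    have := Finset.card_le_card_of_injOn φ (s := Finset.range (M + 1)) (t := R) h2
      fun k hk j hj e => by
        have a := abs_lt.1 (h3 k hk)
        have b := abs_lt.1 (h3 j hj)
        rw [e] at a
        have c1 : (k : ℝ) < j + 1 := lt_of_mul_lt_mul_right (by linarith [a.1, b.2]) h0.le
        have c2 : (j : ℝ) < k + 1 := lt_of_mul_lt_mul_right (by linarith [a.2, b.1]) h0.le
        norm_cast at c1 c2
        omega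
    rw [Finset.card_range] at this
    omega
  obtain ⟨k, hk, h2⟩ := this
  have k1 : (k : ℝ) ≤ M := by exact_mod_cast Nat.lt_succ_iff.1 (Finset.mem_range.1 hk)
  have k0 : (0 : ℝ) ≤ k := k.cast_nonneg
  exact ⟨_, by nlinarith, by nlinarith, h2⟩

theorem ang_root {γ : ℝ} (l β : ℂ) (h : Real.cos (l.im - β.arg) ≤ γ) (h1 : -1 ≤ γ) :
    √((1 - γ) / 2) * (Real.exp l.re + ‖β‖) ≤ ‖Complex.exp l - β‖ := by
  have r0 := Real.exp_pos l.re
  have s0 := norm_nonneg β
  rw [← Real.sqrt_sq (by positivity : 0 ≤ Real.exp l.re + ‖β‖), ← Real.sqrt_mul' _ (sq_nonneg _),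
    Real.sqrt_le_left (norm_nonneg _), Complex.sq_norm, Complex.normSq_apply, Complex.sub_re,
    Complex.sub_im, Complex.exp_re, Complex.exp_im, ← Complex.norm_mul_cos_arg β,
    ← Complex.norm_mul_sin_arg β]
  rw [Real.cos_sub] at h
  generalize Real.exp l.re = r at *
  generalize ‖β‖ = s at *
  have e1 := Real.cos_sq_add_sin_sq l.im
  have e2 := Real.cos_sq_add_sin_sq β.arg
  have e3 := mul_le_mul_of_nonneg_left h (mul_nonneg r0.le s0)
  have e4 := mul_nonneg (by linarith : 0 ≤ 1 + γ) (sq_nonneg (r - s))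
  have e5 : r ^ 2 * (Real.cos l.im ^ 2 + Real.sin l.im ^ 2) = r ^ 2 := by rw [e1, mul_one]
  have e6 : s ^ 2 * (Real.cos β.arg ^ 2 + Real.sin β.arg ^ 2) = s ^ 2 := by rw [e2, mul_one]
  linarith

theorem ang_poly {c r : ℝ} {z : ℂ} (c0 : 0 ≤ c) (c1 : c ≤ 1) (r0 : 0 ≤ r) (d : ℕ) :
    ∀ f : Polynomial ℂ, f.natDegree ≤ d → (∀ β, f.eval β = 0 → c * (r + ‖β‖) ≤ ‖z - β‖) →
      c ^ d * ∑ a ∈ Finset.range (d + 1), ‖f.coeff a‖ * r ^ a ≤ ‖f.eval z‖ := by
  induction d with
  | zero =>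
    intro f hf _
    rw [Polynomial.eq_C_of_natDegree_le_zero hf]
    simp
  | succ d ih =>
    intro f hf hr
    have s0 : ∀ q : Polynomial ℂ, 0 ≤ ∑ a ∈ Finset.range (d + 1), ‖q.coeff a‖ * r ^ a :=
      fun q => Finset.sum_nonneg fun a _ => by positivity
    have s1 : ∀ q : Polynomial ℂ, q.natDegree ≤ d →
        ∑ a ∈ Finset.range (d + 1 + 1), ‖q.coeff a‖ * r ^ a =
          ∑ a ∈ Finset.range (d + 1), ‖q.coeff a‖ * r ^ a := fun q hq => by
      rw [Finset.sum_range_succ, Polynomial.coeff_eq_zero_of_natDegree_lt (Nat.lt_succ_of_le hq)]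
      simp
    by_cases h : f.natDegree ≤ d
    · rw [s1 f h]
      exact (mul_le_mul_of_nonneg_right (pow_le_pow_of_le_one c0 c1 d.le_succ) (s0 f)).trans
        (ih f h hr)
    have h1 : f.natDegree = d + 1 := by omega
    obtain ⟨β, hβ⟩ := Complex.exists_root (f := f) (Polynomial.natDegree_pos_iff_degree_pos.1
      (by omega))
    obtain ⟨q, rfl⟩ := Polynomial.dvd_iff_isRoot.2 hβ
    have q0 : q ≠ 0 := fun e => by simp [e] at h1
    have h2 : q.natDegree ≤ d := by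
      rw [Polynomial.natDegree_mul (Polynomial.X_sub_C_ne_zero β) q0,
        Polynomial.natDegree_X_sub_C] at h1
      omega
    have h3 := ih q h2 fun b hb => hr b (by simp [hb])
    have h4 : ∑ a ∈ Finset.range (d + 1 + 1),
        ‖((Polynomial.X - Polynomial.C β) * q).coeff a‖ * r ^ a ≤
          (r + ‖β‖) * ∑ a ∈ Finset.range (d + 1), ‖q.coeff a‖ * r ^ a := by
      rw [add_mul]
      nth_rewrite 2 [← s1 q h2]
      rw [Finset.sum_range_succ', Finset.sum_range_succ' _ (d + 1), mul_add, ← add_assoc,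
        Finset.mul_sum, Finset.mul_sum, ← Finset.sum_add_distrib]
      refine add_le_add (Finset.sum_le_sum fun a _ => ?_) (by simp)
      rw [sub_mul, Polynomial.coeff_sub, Polynomial.coeff_X_mul, Polynomial.coeff_C_mul]
      have := mul_le_mul_of_nonneg_right (norm_sub_le (q.coeff a) (β * q.coeff (a + 1)))
        (pow_nonneg r0 (a + 1))
      rw [norm_mul] at this
      exact this.trans_eq (by ring)
    rw [Polynomial.eval_mul, norm_mul, Polynomial.eval_sub, Polynomial.eval_X, Polynomial.eval_C]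
    calc _ ≤ c ^ (d + 1) * ((r + ‖β‖) * ∑ a ∈ Finset.range (d + 1), ‖q.coeff a‖ * r ^ a) :=
          mul_le_mul_of_nonneg_left h4 (pow_nonneg c0 _)
      _ = c * (r + ‖β‖) * (c ^ d * ∑ a ∈ Finset.range (d + 1), ‖q.coeff a‖ * r ^ a) := by ring
      _ ≤ _ := mul_le_mul (hr β hβ) h3 (mul_nonneg (pow_nonneg c0 _) (s0 q)) (norm_nonneg _)

theorem t_ang : T_ANG := by
  classical
  intro d K
  obtain ⟨h, hh⟩ : ∃ h, h = Real.pi / ((K * d : ℕ) + 1) := ⟨_, rfl⟩
  have h0 : 0 < h := hh ▸ by positivity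
  obtain ⟨ε, ε0, ε1, ε2⟩ : ∃ ε : ℝ, 0 < ε ∧ ε ≤ 1 ∧ ε ≤ h / 2 :=
    ⟨min 1 (h / 2), lt_min one_pos (by positivity), min_le_left _ _, min_le_right _ _⟩
  have γ1 : Real.cos ε < 1 := by
    rw [← Real.cos_zero]
    exact Real.cos_lt_cos_of_nonneg_of_le_pi le_rfl (by linarith [Real.pi_gt_three]) ε0
  have γ0 := Real.neg_one_le_cos ε
  have c0 : 0 < √((1 - Real.cos ε) / 2) := Real.sqrt_pos.2 (by linarith)
  have c1 : √((1 - Real.cos ε) / 2) ≤ 1 := Real.sqrt_le_one.2 (by linarith)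
  refine ⟨ε, √((1 - Real.cos ε) / 2) ^ d, ε0, ε1, pow_pos c0 d, pow_le_one₀ c0.le c1,
    fun A hA hd => ?_⟩
  obtain ⟨θ, t1, t2, t3⟩ := ang_gap (K * d) (A.biUnion fun f => f.roots.toFinset.image Complex.arg)
    ((Finset.card_biUnion_le_card_mul _ _ d fun f hf => Finset.card_image_le.trans
      ((Multiset.toFinset_card_le _).trans ((Polynomial.card_roots' f).trans (hd f hf)))).trans
        (Nat.mul_le_mul_right d hA))
  rw [← hh] at t1 t2 t3
  refine ⟨θ, fun f hf l hl => ?_⟩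
  rcases eq_or_ne f 0 with rfl | f0
  · simp
  simp only [Real.exp_nat_mul]
  refine ang_poly c0.le c1 (Real.exp_pos _).le d f (hd f hf) fun β hβ => ang_root l β ?_ γ0
  have a1 := t3 β.arg (Finset.mem_biUnion.2 ⟨f, hf, Finset.mem_image_of_mem _
    (Multiset.mem_toFinset.2 ((Polynomial.mem_roots f0).2 hβ))⟩)
  have a2 := abs_lt.1 (show |l.im - θ| < ε from hl)
  have a3 := Complex.neg_pi_lt_arg β
  have a4 := Complex.arg_le_pi β
  rcases le_abs'.1 a1 with a5 | a5
  · exact ang_cos ε0.le (by linarith [a2.1]) (by linarith [a2.2])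
  · rw [← Real.cos_neg]
    exact ang_cos ε0.le (by linarith [a2.2]) (by linarith [a2.1])

theorem t_half : T_HALF := by
  intro d
  have l0 : 0 ≤ Real.log (2 * d + 2) := Real.log_nonneg (by linarith [d.cast_nonneg (α := ℝ)])
  refine ⟨3 + Real.log (2 * d + 2), by linarith, fun f L l L1 f0 hd hc hl => ?_⟩
  obtain ⟨E, hE⟩ : ∃ E, E = Real.exp (f.natDegree * l.re) := ⟨_, rfl⟩
  have E0 : 0 < E := hE ▸ Real.exp_pos _
  have x1 : 3 * L + Real.log (2 * d + 2) ≤ l.re := by nlinarith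
  have a0 := Real.exp_pos (-L)
  have a1 : Real.exp (-L) * 2 ≤ 1 := by
    rw [Real.exp_neg, inv_mul_le_iff₀ (Real.exp_pos L)]
    linarith [Real.add_one_le_exp L]
  have a2 : ∀ a : ℕ, ‖f.coeff a * Complex.exp l ^ a‖ = ‖f.coeff a‖ * Real.exp (a * l.re) :=
    fun a => by rw [norm_mul, norm_pow, Complex.norm_exp, Real.exp_nat_mul]
  have a3 : ∀ a ∈ Finset.range f.natDegree,
      ‖f.coeff a * Complex.exp l ^ a‖ ≤ Real.exp (-L) * E / (2 * d + 2) := fun a ha => by
    have b1 : ‖f.coeff a‖ ≤ Real.exp L := by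
      rcases hc a with h | h
      · rw [h, norm_zero]; exact (Real.exp_pos L).le
      · exact h.2
    have b2 : (a : ℝ) + 1 ≤ f.natDegree := by exact_mod_cast Finset.mem_range.1 ha
    rw [a2]
    refine (mul_le_mul_of_nonneg_right b1 (Real.exp_pos _).le).trans ?_
    rw [hE, ← Real.exp_log (by positivity : (0 : ℝ) < 2 * d + 2), ← Real.exp_add, ← Real.exp_add,
      ← Real.exp_sub, Real.exp_le_exp]
    nlinarith [mul_le_mul_of_nonneg_right b2 (by linarith : 0 ≤ l.re)]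
  have a4 : ‖∑ a ∈ Finset.range f.natDegree, f.coeff a * Complex.exp l ^ a‖ ≤
      Real.exp (-L) * E / 2 := by
    refine ((norm_sum_le _ _).trans (Finset.sum_le_card_nsmul _ _ _ a3)).trans ?_
    have b1 : (f.natDegree : ℝ) ≤ d := by exact_mod_cast hd
    rw [Finset.card_range, nsmul_eq_mul, ← mul_div_assoc,
      div_le_div_iff₀ (by positivity) two_pos]
    nlinarith [mul_pos a0 E0]
  obtain ⟨a5, a6⟩ := (hc f.natDegree).resolve_left (Polynomial.leadingCoeff_ne_zero.2 f0)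
  have a7 := a2 f.natDegree
  rw [← hE] at a7
  rw [Polynomial.eval_eq_sum_range, Finset.sum_range_succ]
  generalize ∑ a ∈ Finset.range f.natDegree, f.coeff a * Complex.exp l ^ a = u at *
  generalize f.coeff f.natDegree * Complex.exp l ^ f.natDegree = w at *
  have b1 := norm_add_le u w
  have b2 := norm_sub_le (u + w) u
  rw [add_sub_cancel_left] at b2
  have b3 := mul_le_mul_of_nonneg_right a5 E0.le
  have b4 := mul_le_mul_of_nonneg_right a6 E0.le
  have b5 : 2 ≤ Real.exp L := by linarith [Real.add_one_le_exp L]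
  have c1 : Real.exp (f.natDegree * l.re + -L + -L) ≤ ‖u + w‖ := by
    rw [Real.exp_add, Real.exp_add, ← hE]
    nlinarith [mul_le_mul_of_nonneg_left a1 (mul_pos a0 E0).le]
  have c2 : ‖u + w‖ ≤ Real.exp (f.natDegree * l.re + L + L) := by
    rw [Real.exp_add, Real.exp_add, ← hE]
    nlinarith [mul_le_mul_of_nonneg_left b5 (mul_pos (Real.exp_pos L) E0).le,
      mul_le_mul_of_nonneg_right a1 E0.le, mul_le_mul_of_nonneg_right b5 E0.le]
  have c0 : 0 < ‖u + w‖ := (Real.exp_pos _).trans_le c1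
  have c3 := (Real.le_log_iff_exp_le c0).2 c1
  have c4 := (Real.log_le_iff_le_exp c0).2 c2
  exact ⟨norm_pos_iff.1 c0, abs_le.2 ⟨by nlinarith, by nlinarith⟩⟩

end Pool.Agent.P.MP_d2ed07_lc
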