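import Pool.Agent.P.MP_d2ed07_lc.Basic

/-!
The limit argument.
-/

namespace Pool.Agent.P.MP_d2ed07_lc

open MvPolynomial Metric Filter Topology

variable {n : ℕ}

theorem sc2_strip_sub {e ε : ℝ} (h : e ≤ ε) : strip 0 e ⊆ strip 0 ε := fun _ hl =>
  lt_of_lt_of_le hl h

theorem sc2_real_mem {e : ℝ} (he : 0 < e) (t : ℝ) : (t : ℂ) ∈ strip 0 e := by
  simpa [strip] using he

theorem sc2_lip (hbc : T_BC) {f : ℂ → ℂ} {ε e C : ℝ} (he : 0 < e) (h1 : 2 * e ≤ ε)
    (h2 : 2 * e ≤ 1) (hf : DifferentiableOn ℂ f (strip 0 ε))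
    (ho : ∀ l ∈ strip 0 ε, ∀ l' ∈ strip 0 ε, |l.re - l'.re| ≤ 1 → |(f l).re - (f l').re| ≤ C)
    {a b : ℂ} (ha : a ∈ strip 0 e) (hb : b ∈ strip 0 e) : ‖f a - f b‖ ≤ 8 * C / e * ‖a - b‖ := by
  have hsub : ∀ μ ∈ strip 0 e, ball μ e ⊆ strip 0 ε := by
    intro μ hμ l hl
    have h3 : |(l - μ).im| < e := (Complex.abs_im_le_norm _).trans_lt (mem_ball_iff_norm.1 hl)
    have h4 : |μ.im - 0| < e := hμ
    show |l.im - 0| < ε
    rw [Complex.sub_im, abs_lt] at h3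
    rw [abs_lt] at h4 ⊢
    constructor <;> linarith [h3.1, h3.2, h4.1, h4.2]
  refine (convex_strip 0 e).norm_image_sub_le_of_norm_fderiv_le (𝕜 := ℂ) (fun x hx => ?_)
    (fun x hx => ?_) hb ha
  · exact hf.differentiableAt ((isOpen_strip 0 ε).mem_nhds (hsub x hx (mem_ball_self he)))
  · refine (hbc ℂ f x e C he (hf.mono (hsub x hx)) fun p hp p' hp' => ?_).1 x
      (mem_ball_self (by positivity))
    refine ho p (hsub x hx hp) p' (hsub x hx hp') ?_
    have h3 : |(p - x).re| < e := (Complex.abs_re_le_norm _).trans_lt (mem_ball_iff_norm.1 hp)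
    have h4 : |(p' - x).re| < e := (Complex.abs_re_le_norm _).trans_lt (mem_ball_iff_norm.1 hp')
    rw [Complex.sub_re, abs_lt] at h3 h4
    rw [abs_le]
    constructor <;> linarith [h3.1, h3.2, h4.1, h4.2]

theorem sc2_slice2 {B : Set (Cn n)} {S : Set ℂ} {w : Cn n × ℂ → Cn n}
    (hw : DifferentiableOn ℂ w (B ×ˢ S)) {p : Cn n} (hp : p ∈ B) :
    DifferentiableOn ℂ (fun μ => w (p, μ)) S :=
  hw.comp (by fun_prop) fun μ hμ => ⟨hp, hμ⟩

theorem sc2_slice1 {B : Set (Cn n)} {S : Set ℂ} {w : Cn n × ℂ → Cn n}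
    (hw : DifferentiableOn ℂ w (B ×ˢ S)) {μ : ℂ} (hμ : μ ∈ S) :
    DifferentiableOn ℂ (fun x => w (x, μ)) B :=
  hw.comp (by fun_prop) fun x hx => ⟨hx, hμ⟩

theorem sc2_xlip (hbc : T_BC) {w : Cn n × ℂ → Cn n} {p : Cn n} {ρ ε C : ℝ} (hρ : 0 < ρ)
    (hC : 0 ≤ C) (hw : DifferentiableOn ℂ w (ball p ρ ×ˢ strip 0 ε))
    (ho : Data.Osc (ball p ρ) 0 ε C w) {μ : ℂ} (hμ : μ ∈ strip 0 ε) {u : Cn n}
    (hu : ‖u‖ < ρ / 2) : ‖w (p + u, μ) - w (p, μ)‖ ≤ 8 * C / ρ * ‖u‖ := by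
  refine (pi_norm_le_iff_of_nonneg (by positivity)).2 fun i => ?_
  have h := (hbc (Cn n) (fun x => w (x, μ) i) p ρ C hρ
    (differentiableOn_pi.1 (sc2_slice1 hw hμ) i)
    fun x hx x' hx' => ho x hx x' hx' μ hμ μ hμ (by simp) i).2 (p + u)
    (by simpa [mem_ball_iff_norm] using hu) p (mem_ball_self (by positivity))
  simpa using h

theorem sc2_ulim {G : Type} [NormedAddCommGroup G] [ProperSpace G] (U : Ultrafilter ℕ)
    (a : ℕ → G) (K : ℝ) (h : ∀ j, ‖a j‖ ≤ K) : ∃ A, Tendsto a U (𝓝 A) := by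
  obtain ⟨A, -, hA⟩ := (isCompact_closedBall (0 : G) K).ultrafilter_le_nhds (U.map a) (by
    rw [le_principal_iff, Ultrafilter.mem_coe, Ultrafilter.mem_map]
    exact Filter.univ_mem' fun j => by simpa using h j)
  exact ⟨A, hA⟩

theorem sc2_norm (U : Ultrafilter ℕ) {ι : Type} (s : Finset ι) (a : ℕ → ι → ℂ)
    (h : ∀ j, ∃ i ∈ s, a j i ≠ 0) : ∃ A : ι → ℂ, (∃ i ∈ s, A i ≠ 0) ∧
      ∀ (e : ℕ → ι → ℂ) (E : ι → ℂ), (∀ i, Tendsto (fun j => e j i) U (𝓝 (E i))) →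
        (∀ j, ∑ i ∈ s, a j i * e j i = 0) → ∑ i ∈ s, A i * E i = 0 := by
  have hpos : ∀ j, 0 < ∑ i ∈ s, ‖a j i‖ := fun j => by
    obtain ⟨i, hi, h0⟩ := h j
    exact Finset.sum_pos' (fun _ _ => norm_nonneg _) ⟨i, hi, norm_pos_iff.2 h0⟩
  set b : ℕ → ι → ℂ := fun j i => a j i / ((∑ i ∈ s, ‖a j i‖ : ℝ) : ℂ) with hb
  have hn : ∀ j i, ‖b j i‖ = ‖a j i‖ / ∑ i ∈ s, ‖a j i‖ := fun j i => by
    simp only [hb, norm_div, Complex.norm_real, Real.norm_eq_abs, abs_of_pos (hpos j)]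
  have hex : ∀ i, ∃ A, i ∈ s → Tendsto (fun j => b j i) U (𝓝 A) := by
    intro i
    by_cases hi : i ∈ s
    · obtain ⟨A, hA⟩ := sc2_ulim U (fun j => b j i) 1 fun j => by
        rw [hn, div_le_one (hpos j)]
        exact Finset.single_le_sum (f := fun i => ‖a j i‖) (fun _ _ => norm_nonneg _) hi
      exact ⟨A, fun _ => hA⟩
    · exact ⟨0, fun h => absurd h hi⟩
  choose A hA using hex
  refine ⟨A, ?_, fun e E he h0 => ?_⟩
  · by_contra hcon
    push Not at hcon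
    have h1 : Tendsto (fun j => ∑ i ∈ s, ‖b j i‖) U (𝓝 (∑ i ∈ s, ‖A i‖)) :=
      tendsto_finsetSum _ fun i hi => (hA i hi).norm
    have h2 : (fun j => ∑ i ∈ s, ‖b j i‖) = fun _ => 1 := by
      funext j
      simp only [hn]
      rw [← Finset.sum_div, div_self (hpos j).ne']
    rw [h2] at h1
    have h3 := tendsto_nhds_unique h1 tendsto_const_nhds
    rw [Finset.sum_eq_zero fun i hi => by rw [hcon i hi, norm_zero]] at h3
    exact zero_ne_one h3
  · have h1 : Tendsto (fun j => ∑ i ∈ s, b j i * e j i) U (𝓝 (∑ i ∈ s, A i * E i)) :=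
      tendsto_finsetSum _ fun i hi => (hA i hi).mul (he i)
    have h2 : (fun j => ∑ i ∈ s, b j i * e j i) = fun _ => 0 := by
      funext j
      simp only [hb, div_mul_eq_mul_div]
      rw [← Finset.sum_div, h0, zero_div]
    rw [h2] at h1
    exact tendsto_nhds_unique h1 tendsto_const_nhds

theorem sc2_pair (htwo : T_TWO) {N : ℕ} {A : ℕ × ℕ → ℂ} (hA : ∃ ab ∈ sq N, A ab ≠ 0)
    {x y : ℂ} (h : ∑ ab ∈ sq N, A ab * Complex.exp (ab.1 * x + ab.2 * y) = 0) :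
    ∃ a b : ℤ, (a ≠ 0 ∨ b ≠ 0) ∧ |a| ≤ N ∧ |b| ≤ N ∧
      |a * x.re + b * y.re| ≤ |Real.log (sq N).card| + 2 * ∑ ab ∈ sq N, |Real.log ‖A ab‖| := by
  obtain ⟨ab, hab, h0⟩ := hA
  obtain ⟨i, hi, j, hj, hij, hi0, hj0, hl⟩ := htwo _ _ _ h
    ⟨ab, hab, mul_ne_zero h0 (Complex.exp_ne_zero _)⟩
  have key : ∀ i : ℕ × ℕ, A i * Complex.exp (i.1 * x + i.2 * y) ≠ 0 →
      Real.log ‖A i * Complex.exp (i.1 * x + i.2 * y)‖ =
        Real.log ‖A i‖ + (i.1 * x.re + i.2 * y.re) := by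
    intro i hi
    rw [norm_mul, Real.log_mul (norm_ne_zero_iff.2 (left_ne_zero_of_mul hi))
      (norm_ne_zero_iff.2 (Complex.exp_ne_zero _)), Complex.norm_exp, Real.log_exp]
    simp
  rw [key i hi0, key j hj0] at hl
  have hi' := hi
  have hj' := hj
  simp only [sq, Finset.mem_product, Finset.mem_range] at hi' hj'
  refine ⟨(i.1 : ℤ) - j.1, (i.2 : ℤ) - j.2, ?_, ?_, ?_, ?_⟩
  · by_contra hc
    push Not at hc
    exact hij (Prod.ext (by omega) (by omega))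
  · rw [abs_le]; constructor <;> omega
  · rw [abs_le]; constructor <;> omega
  · have h1 := abs_le.1 (Finset.single_le_sum (f := fun ab => |Real.log ‖A ab‖|)
      (fun _ _ => abs_nonneg _) hi)
    have h2 := abs_le.1 (Finset.single_le_sum (f := fun ab => |Real.log ‖A ab‖|)
      (fun _ _ => abs_nonneg _) hj)
    have h3 := abs_le.1 (hl.trans (le_abs_self _))
    push_cast
    rw [abs_le]
    constructor <;> linarith [h1.1, h1.2, h2.1, h2.2, h3.1, h3.2]

theorem sc2_approx (a x d : Fin n → ℝ) (t L : ℝ) (h : ∀ i, |x i - t * d i| ≤ L) :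
    |∑ i, a i * x i - t * ∑ i, a i * d i| ≤ (∑ i, |a i|) * L := by
  rw [Finset.mul_sum, ← Finset.sum_sub_distrib, Finset.sum_mul]
  refine (Finset.abs_sum_le_sum_abs _ _).trans (Finset.sum_le_sum fun i _ => ?_)
  rw [show a i * x i - t * (a i * d i) = a i * (x i - t * d i) by ring, abs_mul]
  exact mul_le_mul_of_nonneg_left (h i) (abs_nonneg _)

theorem sc2_nonconst (htwo : T_TWO) (htrop : T_TROP) {N : ℕ} {ν : Fin n → ℝ} {l : Fin n → ℤ}
    (had : Adapt N ν l) (ga : ℝ → Cn n) (A : Fin n → Fin n → ℕ × ℕ → ℂ)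
    (hA : ∀ i j, ∃ ab ∈ sq N, A i j ab ≠ 0)
    (hrel : ∀ t i j, ∑ ab ∈ sq N, A i j ab * Complex.exp (ab.1 * ga t i + ab.2 * ga t j) = 0)
    (hl : ∀ t : ℝ, dz l (ga t) = t) : ∃ t, dr ν (ga t) ≠ 0 := by
  by_contra hcon
  push Not at hcon
  set L : ℝ := |Real.log (sq N).card| + 2 * ∑ i, ∑ j, ∑ ab ∈ sq N, |Real.log ‖A i j ab‖| with hL
  have hL0 : 0 ≤ L := by positivity
  set a : ℝ := ∑ i, |(l i : ℝ)| with ha
  set b : ℝ := ∑ i, |ν i| with hb
  set M : ℝ := ∑ d ∈ dirs n N, |((dz l d : ℚ) : ℝ) / dq ν d| with hM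
  have ha0 : 0 ≤ a := by positivity
  have hb0 : 0 ≤ b := by positivity
  have hM0 : 0 ≤ M := by positivity
  set t : ℝ := a * L + b * L * M + 1 with ht
  obtain ⟨d, hd, s, hs, hx⟩ := htrop n N (fun i => (ga t i).re) L hL0 fun i j _ => by
    obtain ⟨a, b, h1, h2, h3, h4⟩ := sc2_pair htwo (hA i j) (hrel t i j)
    refine ⟨a, b, h1, h2, h3, h4.trans ?_⟩
    have h5 : ∑ ab ∈ sq N, |Real.log ‖A i j ab‖| ≤ ∑ j, ∑ ab ∈ sq N, |Real.log ‖A i j ab‖| :=
      Finset.single_le_sum (f := fun j => ∑ ab ∈ sq N, |Real.log ‖A i j ab‖|)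
        (fun _ _ => by positivity) (Finset.mem_univ j)
    have h6 : ∑ j, ∑ ab ∈ sq N, |Real.log ‖A i j ab‖| ≤
        ∑ i, ∑ j, ∑ ab ∈ sq N, |Real.log ‖A i j ab‖| :=
      Finset.single_le_sum (f := fun i => ∑ j, ∑ ab ∈ sq N, |Real.log ‖A i j ab‖|)
        (fun _ _ => by positivity) (Finset.mem_univ i)
    rw [hL]; linarith
  have h1 := sc2_approx (fun i => (l i : ℝ)) _ _ s L hx
  have h2 := sc2_approx ν _ _ s L hx
  have e1 : ∑ i, (l i : ℝ) * (ga t i).re = t := by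
    have := congrArg Complex.re (hl t)
    rw [re_dz] at this
    simpa [dz] using this
  have e2 : ∑ i, ν i * (ga t i).re = 0 := by
    have := congrArg Complex.re (hcon t)
    simpa [dr] using this
  have e3 : ∑ i, (l i : ℝ) * (d i : ℝ) = ((dz l d : ℚ) : ℝ) := by simp [dz]
  rw [e1, e3, ← ha, abs_le] at h1
  rw [e2, ← hb, abs_le] at h2
  have e4 : ∑ i, ν i * (d i : ℝ) = dq ν d := rfl
  rw [e4] at h2
  have hbM : 0 ≤ b * L * M := by positivity
  have h3 : 0 < s * ((dz l d : ℚ) : ℝ) := by linarith [h1.2]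
  have h4 : 0 < ((dz l d : ℚ) : ℝ) := by
    by_contra hc
    push Not at hc
    exact absurd h3 (not_lt.2 (mul_nonpos_of_nonneg_of_nonpos hs hc))
  have h5 : 0 < dq ν d := (had d hd).1 (by exact_mod_cast h4)
  have h6 : ((dz l d : ℚ) : ℝ) / dq ν d ≤ M := (le_abs_self _).trans
    (Finset.single_le_sum (f := fun d => |((dz l d : ℚ) : ℝ) / dq ν d|)
      (fun _ _ => abs_nonneg _) hd)
  have h7 : s * ((dz l d : ℚ) : ℝ) = (s * dq ν d) * (((dz l d : ℚ) : ℝ) / dq ν d) := by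
    field_simp
  have h8 : (s * dq ν d) * (((dz l d : ℚ) : ℝ) / dq ν d) ≤ b * L * M :=
    mul_le_mul (by linarith [h2.1]) h6 (by positivity) (by positivity)
  linarith [h1.2]

theorem sc2_round (x y : Cn n) {δ : ℝ} (hδ : δ ≤ 1) (h : ∀ i, |(y i).re - (x i).re| ≤ δ) :
    ∃ k : Fin n → ℤ, ‖y + (2 * Real.pi * Complex.I : ℂ) • cZ k - x‖ ≤ 5 ∧
      ∀ i, |((y + (2 * Real.pi * Complex.I : ℂ) • cZ k - x) i).re| ≤ δ := by
  have hre : ∀ (k : Fin n → ℤ) i,
      ((y + (2 * Real.pi * Complex.I : ℂ) • cZ k - x) i).re = (y i).re - (x i).re := by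
    intro k i; simp [cZ]
  refine ⟨fun i => round (((x i).im - (y i).im) / (2 * Real.pi)), ?_, fun i => ?_⟩
  · refine (pi_norm_le_iff_of_nonneg (by norm_num)).2 fun i => ?_
    refine (Complex.norm_le_abs_re_add_abs_im _).trans ?_
    rw [hre]
    have h1 := abs_sub_round (((x i).im - (y i).im) / (2 * Real.pi))
    set r := round (((x i).im - (y i).im) / (2 * Real.pi)) with hr
    have h2 : ((y + (2 * Real.pi * Complex.I : ℂ) •
        cZ (fun i => round (((x i).im - (y i).im) / (2 * Real.pi))) - x) i).im =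
        -(2 * Real.pi) * (((x i).im - (y i).im) / (2 * Real.pi) - r) := by
      simp only [cZ, Pi.sub_apply, Pi.add_apply, Pi.smul_apply, smul_eq_mul, ← hr]
      have := Real.pi_pos
      simp
      field_simp
      ring
    rw [h2, abs_mul, abs_neg, abs_of_pos Real.two_pi_pos]
    have h3 := Real.pi_le_four
    have h4 := mul_le_mul_of_nonneg_left h1 Real.two_pi_pos.le
    linarith [h i]
  · rw [hre]; exact h i

theorem sc2_dr_add (ν : Fin n → ℝ) (x y : Cn n) : dr ν (x + y) = dr ν x + dr ν y := by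
  simp [dr, mul_add, Finset.sum_add_distrib]
theorem sc2_dr_smul (ν : Fin n → ℝ) (c : ℂ) (x : Cn n) : dr ν (c • x) = c * dr ν x := by
  simp [dr, Finset.mul_sum, mul_left_comm]
theorem sc2_dr_cZ (ν : Fin n → ℝ) (k : Fin n → ℤ) : dr ν (cZ k) = ((dz k ν : ℝ) : ℂ) := by
  simp [dr, dz, cZ, mul_comm]
theorem sc2_dr_imag (ν : Fin n → ℝ) {x : Cn n} (h : Imag x) :
    dr ν x = ((∑ i, ν i * (x i).im : ℝ) : ℂ) * Complex.I := by
  conv_lhs => rw [h.eq_iR]
  simp [dr, iR, Finset.sum_mul, mul_assoc]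
theorem sc2_drL (ν : Fin n → ℝ) : ∃ T : Cn n →L[ℂ] ℂ, ∀ u, T u = dr ν u :=
  ⟨∑ i, (ν i : ℂ) • ContinuousLinearMap.proj i, fun u => by simp [dr]⟩

theorem sc2_inj (ν : Fin n → ℝ) {ga : ℂ → Cn n} {μ : ℂ} (hga : DifferentiableAt ℂ ga μ)
    (hd : deriv (fun μ => dr ν (ga μ)) μ ≠ 0) (u b : Cn n) :
    Function.Injective (fderiv ℂ
      (fun q : Cn n × ℂ => ((q.1 - ga q.2 - b, -dr ν q.1) : Cn n × ℂ)) (u, μ)) := by
  obtain ⟨T, hT⟩ := sc2_drL ν
  simp only [← hT] at hd ⊢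
  have h1 : HasDerivAt (fun μ => T (ga μ)) (T (deriv ga μ)) μ :=
    T.hasFDerivAt.comp_hasDerivAt μ hga.hasDerivAt
  rw [h1.deriv] at hd
  have h2 : HasFDerivAt (fun q : Cn n × ℂ => ga q.2)
      ((ContinuousLinearMap.toSpanSingleton ℂ (deriv ga μ)).comp
        (ContinuousLinearMap.snd ℂ (Cn n) ℂ)) (u, μ) :=
    HasFDerivAt.comp (u, μ) (g := ga) hga.hasDerivAt.hasFDerivAt hasFDerivAt_snd
  have h3 : HasFDerivAt (fun q : Cn n × ℂ => T q.1)
      (T.comp (ContinuousLinearMap.fst ℂ (Cn n) ℂ)) (u, μ) :=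
    HasFDerivAt.comp (u, μ) (g := T) T.hasFDerivAt hasFDerivAt_fst
  have h4 := (((hasFDerivAt_fst (𝕜 := ℂ) (p := (u, μ))).fun_sub h2).sub_const b).prodMk h3.fun_neg
  rw [h4.fderiv, injective_iff_map_eq_zero]
  rintro ⟨x, t⟩ h
  simp only [ContinuousLinearMap.prod_apply, Prod.mk_eq_zero, sub_apply,
    ContinuousLinearMap.coe_fst', ContinuousLinearMap.comp_apply, ContinuousLinearMap.coe_snd',
    ContinuousLinearMap.toSpanSingleton_apply, neg_apply, neg_eq_zero,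
    sub_eq_zero] at h
  obtain ⟨h5, h6⟩ := h
  rw [h5, map_smul, smul_eq_mul, mul_eq_zero] at h6
  have h7 : t = 0 := h6.resolve_right hd
  rw [h7, zero_smul] at h5
  rw [h5, h7]; rfl

theorem sc2_main (hbc : T_BC) (hlim : T_LIM) (htwo : T_TWO) (htrop : T_TROP) (hpick : T_PICK)
    (hpers : T_PERS) {F : Type} [Field F] [Algebra ℂ F] (D : Data n F) (v : Cn n)
    (ν : Fin n → ℝ) (l : Fin n → ℤ) (N : ℕ) (c : Fin n → Fin n → ℕ × ℕ → MP n) (C ε : ℝ)
    (hC : 0 ≤ C) (hε : 0 < ε) (hrel : D.Rel N c) (had : Adapt N ν l) (hd : DenseZ ν)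
    (hL : ∀ δ : ℝ, 0 < δ → D.LimDat v ν l N c C ε δ) : D.Sol := by
  set δ : ℕ → ℝ := fun j => 1 / ((j : ℝ) + 1) with hδ
  have hδ0 : ∀ j, 0 < δ j := fun j => by simp only [hδ]; positivity
  have hδ1 : ∀ j, δ j ≤ 1 := fun j => by
    simp only [hδ]
    rw [div_le_one (by positivity)]
    linarith [Nat.cast_nonneg (α := ℝ) j]
  choose p ρ τ w hρ hτ hτ0 hnl hw hon hosc hre hc using fun j => hL (δ j) (hδ0 j)
  have hρ0 : ∀ j, 0 < ρ j := fun j => (inv_pos.2 (hδ0 j)).trans_le (hρ j)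
  have hp : ∀ j, p j ∈ ball (p j) (ρ j) := fun j => mem_ball_self (hρ0 j)
  set U : Ultrafilter ℕ := Ultrafilter.of atTop with hU
  have hδU : Tendsto δ U (𝓝 0) :=
    tendsto_one_div_add_atTop_nhds_zero_nat.mono_left (Ultrafilter.of_le _)
  set e : ℝ := min ε 1 / 2 with he
  have he0 : 0 < e := by rw [he]; positivity
  have he1 : 2 * e ≤ ε := by rw [he]; linarith [min_le_left ε 1]
  have he2 : 2 * e ≤ 1 := by rw [he]; linarith [min_le_right ε 1]
  have hsub : strip 0 e ⊆ strip 0 ε := sc2_strip_sub (by linarith)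
  have h0 : (0 : ℂ) ∈ strip 0 e := by simpa using sc2_real_mem he0 0
  set f : ℕ → ℂ → Cn n := fun j μ => w j (p j, μ) - w j (p j, 0) with hf
  obtain ⟨ga, hga, hpt, hun⟩ := hlim (Cn n) U (strip 0 e) f (8 * C / e) 0 (isOpen_strip _ _) h0
    (fun j => ((sc2_slice2 (hw j) (hp j)).mono hsub).sub_const _)
    (fun j => by simp only [hf, sub_self, norm_zero]; positivity)
    (fun j a ha b hb => by
      refine (pi_norm_le_iff_of_nonneg (by positivity)).2 fun i => ?_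
      have := sc2_lip hbc he0 he1 he2 (differentiableOn_pi.1 (sc2_slice2 (hw j) (hp j)) i)
        (fun l hl l' hl' h => hosc j _ (hp j) _ (hp j) l hl l' hl' h i) ha hb
      simpa [hf] using this)
  have hga0 : ga 0 = 0 := by
    have := hpt 0 h0
    simp only [hf, sub_self] at this
    exact tendsto_nhds_unique this tendsto_const_nhds
  have hgal : ∀ μ ∈ strip 0 e, dz l (ga μ) = μ := by
    intro μ hμ
    have h1 := ((differentiable_dz l).continuous.tendsto _).comp (hpt μ hμ)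
    have h2 : ((fun w : Cn n => dz l w) ∘ fun j => f j μ) = fun _ => μ := by
      funext j
      simp only [Function.comp, hf, dz_sub]
      exact (hon j _ (hp j) μ (hsub hμ)).2
    rw [h2] at h1
    exact tendsto_nhds_unique h1 tendsto_const_nhds
  choose k hk5 hkre using fun j => sc2_round (p j) (w j (p j, 0)) (hδ1 j) (hre j)
  obtain ⟨Θ, hΘ⟩ := sc2_ulim U _ 5 hk5
  have hΘi : Imag Θ := by
    intro i
    have h1 := (Complex.continuous_re.tendsto _).comp (tendsto_pi_nhds.1 hΘ i)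
    refine tendsto_nhds_unique h1 (squeeze_zero_norm (fun j => ?_) hδU)
    exact hkre j i
  have hA : ∀ i i', ∃ A : ℕ × ℕ → ℂ, (∃ ab ∈ sq N, A ab ≠ 0) ∧ ∀ μ ∈ strip 0 e,
      ∑ ab ∈ sq N, A ab * Complex.exp (ab.1 * ga μ i + ab.2 * ga μ i') = 0 := by
    intro i i'
    obtain ⟨A, hA, hA'⟩ := sc2_norm U (sq N) (fun j ab => eval (p j) (c i i' ab) *
      Complex.exp (ab.1 * w j (p j, 0) i + ab.2 * w j (p j, 0) i')) fun j => by
        obtain ⟨ab, hab, h⟩ := hc j i i'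
        exact ⟨ab, hab, mul_ne_zero h (Complex.exp_ne_zero _)⟩
    refine ⟨A, hA, fun μ hμ => hA' (fun j ab => Complex.exp (ab.1 * f j μ i + ab.2 * f j μ i'))
      _ (fun ab => ?_) fun j => ?_⟩
    · exact (((tendsto_pi_nhds.1 (hpt μ hμ) i).const_mul _).add
        ((tendsto_pi_nhds.1 (hpt μ hμ) i').const_mul _)).cexp
    · have h1 := (hon j _ (hp j) μ (hsub hμ)).1
      rw [hτ0, zero_smul, add_zero] at h1
      refine Eq.trans (Finset.sum_congr rfl fun ab _ => ?_) (hrel.2.2 _ _ h1 i i')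
      rw [mul_assoc, ← Complex.exp_add]
      simp only [hf, Pi.sub_apply]
      congr 2; ring
  choose A hA1 hA2 using hA
  obtain ⟨t₀, ht₀⟩ := sc2_nonconst htwo htrop had (fun t => ga t) A hA1
    (fun t i j => hA2 i j _ (sc2_real_mem he0 t)) fun t => hgal _ (sc2_real_mem he0 t)
  set σ : ℝ := ∑ i, ν i * (Θ i).im with hσ
  have hΛ : Dense (Set.range ((fun t : ℝ => -(σ + 2 * Real.pi * t)) ∘
      fun k : Fin n → ℤ => dz k ν)) := by
    refine DenseRange.comp (Function.Surjective.denseRange fun s => ?_) hd (by fun_prop)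
    refine ⟨(-s - σ) / (2 * Real.pi), ?_⟩
    have := Real.pi_pos
    field_simp
    ring
  obtain ⟨μ₀, hμ₀, _, ⟨k', rfl⟩, hg, hg'⟩ := hpick (strip 0 e) (fun μ => dr ν (ga μ)) _
    (isOpen_strip _ _) (convex_strip _ _).isPreconnected h0
    ((differentiable_dr ν).comp_differentiableOn hga) (by simp [hga0, dr])
    ⟨t₀, sc2_real_mem he0 t₀, ht₀⟩ hΛ
  obtain ⟨r, hr, hrs⟩ := Metric.isOpen_iff.1 (isOpen_strip 0 e) μ₀ hμ₀
  set b : Cn n := Θ + (2 * Real.pi * Complex.I : ℂ) • cZ k' with hb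
  set u₀ : Cn n := ga μ₀ + b with hu₀
  have hq2 : ∀ q ∈ ball ((u₀, μ₀) : Cn n × ℂ) r, q.2 ∈ ball μ₀ r := fun q hq => by
    rw [← ball_prod_same] at hq; exact hq.2
  set R : ℝ := ‖u₀‖ + r with hR
  have hR0 : 0 < R := by positivity
  have hq1 : ∀ q ∈ ball ((u₀, μ₀) : Cn n × ℂ) r, ‖q.1‖ ≤ R := fun q hq => by
    rw [← ball_prod_same] at hq
    have := mem_ball_iff_norm.1 hq.1
    linarith [norm_le_norm_add_norm_sub' q.1 u₀]
  obtain ⟨κ, hκ, hG⟩ := hpers (Cn n × ℂ)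
    (fun q : Cn n × ℂ => ((q.1 - ga q.2 - b, -dr ν q.1) : Cn n × ℂ)) (u₀, μ₀) r hr
    (by
      refine DifferentiableOn.prodMk ((differentiableOn_fst.sub ?_).sub_const _) ?_
      · exact hga.comp differentiableOn_snd fun q hq => hrs (hq2 q hq)
      · exact ((differentiable_dr ν).comp differentiable_fst).neg.differentiableOn)
    (by
      refine Prod.ext (by simp [hu₀]) ?_
      simp only [Prod.snd_zero, neg_eq_zero, hu₀, hb, sc2_dr_add, sc2_dr_smul, sc2_dr_cZ,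
        sc2_dr_imag ν hΘi, ← hσ]
      rw [hg]
      simp only [Function.comp]
      push_cast; ring)
    (sc2_inj ν (hga.differentiableAt ((isOpen_strip _ _).mem_nhds hμ₀)) hg' u₀ b)
  have ev1 : ∀ᶠ j in (U : Filter ℕ), δ j * ((8 * C + 1) * R) < κ / 3 :=
    (by simpa using hδU.mul_const ((8 * C + 1) * R) :
      Tendsto (fun j => δ j * ((8 * C + 1) * R)) U (𝓝 0)).eventually_lt_const (by positivity)
  have ev2 : ∀ᶠ j in (U : Filter ℕ), δ j * (2 * R) < 1 :=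
    (by simpa using hδU.mul_const (2 * R) :
      Tendsto (fun j => δ j * (2 * R)) U (𝓝 0)).eventually_lt_const one_pos
  have ev3 := Metric.tendstoUniformlyOn_iff.1 (hun (ball μ₀ r) hrs isBounded_ball) (κ / 3)
    (by positivity)
  have ev4 := Metric.tendsto_nhds.1 hΘ (κ / 3) (by positivity)
  obtain ⟨j, j1, j2, j3, j4⟩ := (ev1.and (ev2.and (ev3.and ev4))).exists
  have hRρ : R < ρ j / 2 := by
    have h1 : 1 ≤ δ j * ρ j := by
      have := mul_le_mul_of_nonneg_left (hρ j) (hδ0 j).le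
      rwa [mul_inv_cancel₀ (hδ0 j).ne'] at this
    have h2 : δ j * (2 * R) < δ j * ρ j := j2.trans_le h1
    linarith [lt_of_mul_lt_mul_left h2 (hδ0 j).le]
  have hin : ∀ q ∈ ball ((u₀, μ₀) : Cn n × ℂ) r, p j + q.1 ∈ ball (p j) (ρ j) := fun q hq => by
    rw [mem_ball_iff_norm, add_sub_cancel_left]
    linarith [hq1 q hq, hρ0 j]
  obtain ⟨q, hq, hq0⟩ := hG (fun q => (p j + q.1 - w j (p j + q.1, q.2) -
      (2 * Real.pi * Complex.I : ℂ) • cZ (k j + k'), τ j (p j + q.1)))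
    (by
      refine DifferentiableOn.prodMk ((DifferentiableOn.sub (by fun_prop) ?_).sub_const _) ?_
      · exact (hw j).comp (by fun_prop) fun q hq => ⟨hin q hq, hsub (hrs (hq2 q hq))⟩
      · exact (hτ j).comp (by fun_prop) hin)
    (by
      intro q hq
      have hCR : 0 ≤ δ j * (8 * C * R) := by have := hδ0 j; positivity
      have hδR : 0 ≤ δ j * R := by have := hδ0 j; positivity
      rw [Prod.norm_def]
      refine max_le ?_ ?_
      · have a1 := sc2_xlip hbc (hρ0 j) hC (hw j) (hosc j) (hsub (hrs (hq2 q hq)))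
          ((hq1 q hq).trans_lt hRρ)
        have a1' : 8 * C / ρ j * ‖q.1‖ ≤ δ j * (8 * C * R) := by
          have h1 : (ρ j)⁻¹ ≤ δ j := inv_le_of_inv_le₀ (hδ0 j) (hρ j)
          calc 8 * C / ρ j * ‖q.1‖ = (ρ j)⁻¹ * (8 * C * ‖q.1‖) := by ring
            _ ≤ δ j * (8 * C * R) := by
              have := hq1 q hq
              have := hδ0 j
              gcongr
        have a2 := j3 q.2 (hq2 q hq)
        rw [dist_eq_norm] at a2
        rw [dist_comm, dist_eq_norm] at j4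
        have a3 : p j + q.1 - w j (p j + q.1, q.2) -
            (2 * Real.pi * Complex.I : ℂ) • cZ (k j + k') - (q.1 - ga q.2 - b) =
            (ga q.2 - f j q.2) + (Θ - (w j (p j, 0) +
              (2 * Real.pi * Complex.I : ℂ) • cZ (k j) - p j)) -
              (w j (p j + q.1, q.2) - w j (p j, q.2)) := by
          funext i
          simp only [hf, hb, cZ, Pi.sub_apply, Pi.add_apply, Pi.smul_apply, smul_eq_mul]
          push_cast; ring
        simp only [Prod.fst_sub]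
        rw [a3]
        refine (norm_sub_le _ _).trans ?_
        have a4 := norm_add_le (ga q.2 - f j q.2) (Θ - (w j (p j, 0) +
              (2 * Real.pi * Complex.I : ℂ) • cZ (k j) - p j))
        nlinarith
      · have a1 := hnl j _ (hin q hq) _ (hp j)
        rw [hτ0, sub_zero, add_sub_cancel_left] at a1
        simp only [Prod.snd_sub, sub_neg_eq_add]
        have a2 : δ j * ‖q.1‖ ≤ δ j * R := mul_le_mul_of_nonneg_left (hq1 q hq) (hδ0 j).le
        nlinarith)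
  rw [Prod.mk_eq_zero] at hq0
  have h1 := (hon j _ (hin q hq) q.2 (hsub (hrs (hq2 q hq)))).1
  rw [hq0.2, zero_smul, add_zero] at h1
  refine D.sol_of_shift h1 (k j + k') ?_
  have h2 := hq0.1
  rwa [sub_sub, sub_eq_zero] at h2

theorem t_sc2 (hbc : T_BC) (hlim : T_LIM) (htwo : T_TWO) (htrop : T_TROP) (hpick : T_PICK)
    (hpers : T_PERS) : T_SC2 := by
  intro n F _ _ D v ν l N c C ε hε hrel had hd hL
  refine sc2_main hbc hlim htwo htrop hpick hpers D v ν l N c |C| ε (abs_nonneg _) hε hrel had hd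
    fun δ hδ => ?_
  obtain ⟨p, ρ, τ, w, h1, h2, h3, h4, h5, h6, h7, h8⟩ := hL δ hδ
  exact ⟨p, ρ, τ, w, h1, h2, h3, h4, h5, h6,
    fun x hx x' hx' l hl l' hl' h i => (h7 x hx x' hx' l hl l' hl' h i).trans (le_abs_self _), h8⟩

end Pool.Agent.P.MP_d2ed07_lc
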