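import Pool.Agent.P.MP_d2ed07_lc.Basic2
import Pool.Agent.P.MP_d2ed07_lc.SC2

/-!
The abstract limit argument.
-/

namespace Pool.Agent.P.MP_d2ed07_lc

open MvPolynomial Metric Filter Topology

theorem t_asc2 (hbc : T_BC) (hlim : T_LIM) (htwo : T_TWO) (htrop : T_TROP) (hpick : T_PICK)
    (hpers : T_PERS) : T_ASC2 := by
  intro n ν l N C ε hC hε had hd
  by_contra hcon
  have hL : ∀ δ : ℝ, 0 < δ → ∃ (p : Cn n) (ρ : ℝ) (τ : Cn n → ℂ) (w : Cn n × ℂ → Cn n),
      δ⁻¹ ≤ ρ ∧ DifferentiableOn ℂ τ (ball p ρ) ∧ τ p = 0 ∧ NearLin ν δ p ρ τ ∧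
      DifferentiableOn ℂ w (ball p ρ ×ˢ strip 0 ε) ∧
      (∀ x ∈ ball p ρ, ∀ μ ∈ strip 0 ε, dz l (w (x, μ)) - dz l (w (x, 0)) = μ) ∧
      Data.Osc (ball p ρ) 0 ε C w ∧ (∀ i, |(w (p, 0) i).re - (p i).re| ≤ δ) ∧
      PairRel N (strip 0 ε) (fun μ => w (p, μ)) ∧
      ¬ ∃ x ∈ ball p ρ, ∃ μ ∈ strip 0 ε, ∃ k : Fin n → ℤ,
        τ x = 0 ∧ x = w (x, μ) + (2 * Real.pi * Complex.I : ℂ) • cZ k := by
    intro δ hδ
    by_contra hc
    refine hcon ⟨δ, hδ, fun p ρ τ w h1 h2 h3 h4 h5 h6 h7 h8 h9 => ?_⟩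
    by_contra h10
    exact hc ⟨p, ρ, τ, w, h1, h2, h3, h4, h5, h6, h7, h8, h9, h10⟩
  set δ : ℕ → ℝ := fun j => 1 / ((j : ℝ) + 1) with hδ
  have hδ0 : ∀ j, 0 < δ j := fun j => by simp only [hδ]; positivity
  have hδ1 : ∀ j, δ j ≤ 1 := fun j => by
    simp only [hδ]
    rw [div_le_one (by positivity)]
    linarith [Nat.cast_nonneg (α := ℝ) j]
  choose p ρ τ w hρ hτ hτ0 hnl hw hon hosc hre hc hno using fun j => hL (δ j) (hδ0 j)
  have hρ0 : ∀ j, 0 < ρ j := fun j => (inv_pos.2 (hδ0 j)).trans_le (hρ j)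
  have hp : ∀ j, p j ∈ ball (p j) (ρ j) := fun j => mem_ball_self (hρ0 j)
  set U : Ultrafilter ℕ := Ultrafilter.of atTop with hU
  have hδU : Tendsto δ U (𝓝 0) :=
    tendsto_one_div_add_atTop_nhds_zero_nat.mono_left (Ultrafilter.of_le _)
  set e : ℝ := min ε 1 / 2 with he
  have he0 : 0 < e := by rw [he]; positivity
  have he1 : 2 * e ≤ ε := by rw [he]; linarith [min_le_left ε 1]
  have he2 : 2 * e ≤ 1 := by rw [he]; linarith [min_le_right ε 1]
  have hsub : strip 0 e ⊆ strip 0 ε := sc2_strip_sub (by linarith)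
  have h0 : (0 : ℂ) ∈ strip 0 e := by simpa using sc2_real_mem he0 0
  set f : ℕ → ℂ → Cn n := fun j μ => w j (p j, μ) - w j (p j, 0) with hf
  obtain ⟨ga, hga, hpt, hun⟩ := hlim (Cn n) U (strip 0 e) f (8 * C / e) 0 (isOpen_strip _ _) h0
    (fun j => ((sc2_slice2 (hw j) (hp j)).mono hsub).sub_const _)
    (fun j => by simp only [hf, sub_self, norm_zero]; positivity)
    (fun j a ha b hb => by
      refine (pi_norm_le_iff_of_nonneg (by positivity)).2 fun i => ?_
      have := sc2_lip hbc he0 he1 he2 (differentiableOn_pi.1 (sc2_slice2 (hw j) (hp j)) i)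
        (fun l hl l' hl' h => hosc j _ (hp j) _ (hp j) l hl l' hl' h i) ha hb
      simpa [hf] using this)
  have hga0 : ga 0 = 0 := by
    have := hpt 0 h0
    simp only [hf, sub_self] at this
    exact tendsto_nhds_unique this tendsto_const_nhds
  have hgal : ∀ μ ∈ strip 0 e, dz l (ga μ) = μ := by
    intro μ hμ
    have h1 := ((differentiable_dz l).continuous.tendsto _).comp (hpt μ hμ)
    have h2 : ((fun w : Cn n => dz l w) ∘ fun j => f j μ) = fun _ => μ := by
      funext j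
      simp only [Function.comp, hf, dz_sub]
      exact hon j _ (hp j) μ (hsub hμ)
    rw [h2] at h1
    exact tendsto_nhds_unique h1 tendsto_const_nhds
  choose k hk5 hkre using fun j => sc2_round (p j) (w j (p j, 0)) (hδ1 j) (hre j)
  obtain ⟨Θ, hΘ⟩ := sc2_ulim U _ 5 hk5
  have hΘi : Imag Θ := by
    intro i
    have h1 := (Complex.continuous_re.tendsto _).comp (tendsto_pi_nhds.1 hΘ i)
    refine tendsto_nhds_unique h1 (squeeze_zero_norm (fun j => ?_) hδU)
    exact hkre j i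
  have hA : ∀ i i', ∃ A : ℕ × ℕ → ℂ, (∃ ab ∈ sq N, A ab ≠ 0) ∧ ∀ μ ∈ strip 0 e,
      ∑ ab ∈ sq N, A ab * Complex.exp (ab.1 * ga μ i + ab.2 * ga μ i') = 0 := by
    intro i i'
    choose a ha1 ha2 using fun j => hc j i i'
    obtain ⟨A, hA, hA'⟩ := sc2_norm U (sq N) (fun j ab => a j ab *
      Complex.exp (ab.1 * w j (p j, 0) i + ab.2 * w j (p j, 0) i')) fun j => by
        obtain ⟨ab, hab, h⟩ := ha1 j
        exact ⟨ab, hab, mul_ne_zero h (Complex.exp_ne_zero _)⟩
    refine ⟨A, hA, fun μ hμ => hA' (fun j ab => Complex.exp (ab.1 * f j μ i + ab.2 * f j μ i'))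
      _ (fun ab => ?_) fun j => ?_⟩
    · exact (((tendsto_pi_nhds.1 (hpt μ hμ) i).const_mul _).add
        ((tendsto_pi_nhds.1 (hpt μ hμ) i').const_mul _)).cexp
    · refine Eq.trans (Finset.sum_congr rfl fun ab _ => ?_) (ha2 j μ (hsub hμ))
      rw [mul_assoc, ← Complex.exp_add]
      simp only [hf, Pi.sub_apply]
      congr 2; ring
  choose A hA1 hA2 using hA
  obtain ⟨t₀, ht₀⟩ := sc2_nonconst htwo htrop had (fun t => ga t) A hA1
    (fun t i j => hA2 i j _ (sc2_real_mem he0 t)) fun t => hgal _ (sc2_real_mem he0 t)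
  set σ : ℝ := ∑ i, ν i * (Θ i).im with hσ
  have hΛ : Dense (Set.range ((fun t : ℝ => -(σ + 2 * Real.pi * t)) ∘
      fun k : Fin n → ℤ => dz k ν)) := by
    refine DenseRange.comp (Function.Surjective.denseRange fun s => ?_) hd (by fun_prop)
    refine ⟨(-s - σ) / (2 * Real.pi), ?_⟩
    have := Real.pi_pos
    field_simp
    ring
  obtain ⟨μ₀, hμ₀, _, ⟨k', rfl⟩, hg, hg'⟩ := hpick (strip 0 e) (fun μ => dr ν (ga μ)) _
    (isOpen_strip _ _) (convex_strip _ _).isPreconnected h0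
    ((differentiable_dr ν).comp_differentiableOn hga) (by simp [hga0, dr])
    ⟨t₀, sc2_real_mem he0 t₀, ht₀⟩ hΛ
  obtain ⟨r, hr, hrs⟩ := Metric.isOpen_iff.1 (isOpen_strip 0 e) μ₀ hμ₀
  set b : Cn n := Θ + (2 * Real.pi * Complex.I : ℂ) • cZ k' with hb
  set u₀ : Cn n := ga μ₀ + b with hu₀
  have hq2 : ∀ q ∈ ball ((u₀, μ₀) : Cn n × ℂ) r, q.2 ∈ ball μ₀ r := fun q hq => by
    rw [← ball_prod_same] at hq; exact hq.2
  set R : ℝ := ‖u₀‖ + r with hR
  have hR0 : 0 < R := by positivity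
  have hq1 : ∀ q ∈ ball ((u₀, μ₀) : Cn n × ℂ) r, ‖q.1‖ ≤ R := fun q hq => by
    rw [← ball_prod_same] at hq
    have := mem_ball_iff_norm.1 hq.1
    linarith [norm_le_norm_add_norm_sub' q.1 u₀]
  obtain ⟨κ, hκ, hG⟩ := hpers (Cn n × ℂ)
    (fun q : Cn n × ℂ => ((q.1 - ga q.2 - b, -dr ν q.1) : Cn n × ℂ)) (u₀, μ₀) r hr
    (by
      refine DifferentiableOn.prodMk ((differentiableOn_fst.sub ?_).sub_const _) ?_
      · exact hga.comp differentiableOn_snd fun q hq => hrs (hq2 q hq)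
      · exact ((differentiable_dr ν).comp differentiable_fst).neg.differentiableOn)
    (by
      refine Prod.ext (by simp [hu₀]) ?_
      simp only [Prod.snd_zero, neg_eq_zero, hu₀, hb, sc2_dr_add, sc2_dr_smul, sc2_dr_cZ,
        sc2_dr_imag ν hΘi, ← hσ]
      rw [hg]
      simp only [Function.comp]
      push_cast; ring)
    (sc2_inj ν (hga.differentiableAt ((isOpen_strip _ _).mem_nhds hμ₀)) hg' u₀ b)
  have ev1 : ∀ᶠ j in (U : Filter ℕ), δ j * ((8 * C + 1) * R) < κ / 3 :=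
    (by simpa using hδU.mul_const ((8 * C + 1) * R) :
      Tendsto (fun j => δ j * ((8 * C + 1) * R)) U (𝓝 0)).eventually_lt_const (by positivity)
  have ev2 : ∀ᶠ j in (U : Filter ℕ), δ j * (2 * R) < 1 :=
    (by simpa using hδU.mul_const (2 * R) :
      Tendsto (fun j => δ j * (2 * R)) U (𝓝 0)).eventually_lt_const one_pos
  have ev3 := Metric.tendstoUniformlyOn_iff.1 (hun (ball μ₀ r) hrs isBounded_ball) (κ / 3)
    (by positivity)
  have ev4 := Metric.tendsto_nhds.1 hΘ (κ / 3) (by positivity)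
  obtain ⟨j, j1, j2, j3, j4⟩ := (ev1.and (ev2.and (ev3.and ev4))).exists
  have hRρ : R < ρ j / 2 := by
    have h1 : 1 ≤ δ j * ρ j := by
      have := mul_le_mul_of_nonneg_left (hρ j) (hδ0 j).le
      rwa [mul_inv_cancel₀ (hδ0 j).ne'] at this
    have h2 : δ j * (2 * R) < δ j * ρ j := j2.trans_le h1
    linarith [lt_of_mul_lt_mul_left h2 (hδ0 j).le]
  have hin : ∀ q ∈ ball ((u₀, μ₀) : Cn n × ℂ) r, p j + q.1 ∈ ball (p j) (ρ j) := fun q hq => by
    rw [mem_ball_iff_norm, add_sub_cancel_left]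
    linarith [hq1 q hq, hρ0 j]
  obtain ⟨q, hq, hq0⟩ := hG (fun q => (p j + q.1 - w j (p j + q.1, q.2) -
      (2 * Real.pi * Complex.I : ℂ) • cZ (k j + k'), τ j (p j + q.1)))
    (by
      refine DifferentiableOn.prodMk ((DifferentiableOn.sub (by fun_prop) ?_).sub_const _) ?_
      · exact (hw j).comp (by fun_prop) fun q hq => ⟨hin q hq, hsub (hrs (hq2 q hq))⟩
      · exact (hτ j).comp (by fun_prop) hin)
    (by
      intro q hq
      have hCR : 0 ≤ δ j * (8 * C * R) := by have := hδ0 j; positivity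
      have hδR : 0 ≤ δ j * R := by have := hδ0 j; positivity
      rw [Prod.norm_def]
      refine max_le ?_ ?_
      · have a1 := sc2_xlip hbc (hρ0 j) hC (hw j) (hosc j) (hsub (hrs (hq2 q hq)))
          ((hq1 q hq).trans_lt hRρ)
        have a1' : 8 * C / ρ j * ‖q.1‖ ≤ δ j * (8 * C * R) := by
          have h1 : (ρ j)⁻¹ ≤ δ j := inv_le_of_inv_le₀ (hδ0 j) (hρ j)
          calc 8 * C / ρ j * ‖q.1‖ = (ρ j)⁻¹ * (8 * C * ‖q.1‖) := by ring
            _ ≤ δ j * (8 * C * R) := by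
              have := hq1 q hq
              have := hδ0 j
              gcongr
        have a2 := j3 q.2 (hq2 q hq)
        rw [dist_eq_norm] at a2
        rw [dist_comm, dist_eq_norm] at j4
        have a3 : p j + q.1 - w j (p j + q.1, q.2) -
            (2 * Real.pi * Complex.I : ℂ) • cZ (k j + k') - (q.1 - ga q.2 - b) =
            (ga q.2 - f j q.2) + (Θ - (w j (p j, 0) +
              (2 * Real.pi * Complex.I : ℂ) • cZ (k j) - p j)) -
              (w j (p j + q.1, q.2) - w j (p j, q.2)) := by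
          funext i
          simp only [hf, hb, cZ, Pi.sub_apply, Pi.add_apply, Pi.smul_apply, smul_eq_mul]
          push_cast; ring
        simp only [Prod.fst_sub]
        rw [a3]
        refine (norm_sub_le _ _).trans ?_
        have a4 := norm_add_le (ga q.2 - f j q.2) (Θ - (w j (p j, 0) +
              (2 * Real.pi * Complex.I : ℂ) • cZ (k j) - p j))
        nlinarith
      · have a1 := hnl j _ (hin q hq) _ (hp j)
        rw [hτ0, sub_zero, add_sub_cancel_left] at a1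
        simp only [Prod.snd_sub, sub_neg_eq_add]
        have a2 : δ j * ‖q.1‖ ≤ δ j * R := mul_le_mul_of_nonneg_left (hq1 q hq) (hδ0 j).le
        nlinarith)
  rw [Prod.mk_eq_zero] at hq0
  refine hno j ⟨_, hin q hq, q.2, hsub (hrs (hq2 q hq)), k j + k', hq0.2, ?_⟩
  have h2 := hq0.1
  rwa [sub_sub, sub_eq_zero] at h2

end Pool.Agent.P.MP_d2ed07_lc
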