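import Pool.Agent.P.MP_d2ed07_lc.Basic

/-! The case of a purely imaginary sheet of the cone with dense slopes. -/

namespace Pool.Agent.P.MP_d2ed07_lc

open MvPolynomial Metric Filter Topology

variable {n : ℕ}

theorem case2_ball {s : Fin n → ℝ} {d R : ℝ} (R0 : 0 < R) {p : Cn n}
    (hp : p ∈ ball ((R : ℂ) • iR s) (d * R)) : (R : ℂ)⁻¹ • p ∈ ball (iR s) d := by
  have h : (R : ℂ) ≠ 0 := by exact_mod_cast R0.ne'
  have e : (R : ℂ)⁻¹ • p - iR s = (R : ℂ)⁻¹ • (p - (R : ℂ) • iR s) := by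
    rw [smul_sub, inv_smul_smul₀ h]
  rw [mem_ball_iff_norm] at hp ⊢
  rw [e, norm_smul, norm_inv, Complex.norm_of_nonneg R0.le, inv_mul_lt_iff₀ R0, mul_comm]
  exact hp

theorem case2_est {P Q : MP n} {V : Cn n} {s : Fin n → ℝ} {de sg R κ : ℝ} {Dg : ℕ} (R0 : 0 < R)
    (H : ∀ u : Cn n, ‖u‖ ≤ ‖s‖ + de + sg * ‖V‖ →
      ‖eval ((R : ℂ) • u) P / (R : ℂ) ^ Dg - eval u Q‖ ≤ κ)
    {p : Cn n} (hp : (R : ℂ)⁻¹ • p ∈ ball (iR s) de) {t : ℂ} (ht : ‖t‖ ≤ sg) :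
    ‖eval (p + (R * t) • V) P / (R : ℂ) ^ Dg - eval ((R : ℂ)⁻¹ • p + t • V) Q‖ ≤ κ := by
  have h : (R : ℂ) ≠ 0 := by exact_mod_cast R0.ne'
  have e : p + (R * t) • V = (R : ℂ) • ((R : ℂ)⁻¹ • p + t • V) := by
    rw [smul_add, smul_inv_smul₀ h, smul_smul]
  rw [e]
  refine H _ ((norm_add_le _ _).trans (add_le_add ?_ ?_))
  · rw [← norm_iR]
    exact (norm_lt_of_mem_ball hp).le
  · rw [norm_smul]
    exact mul_le_mul_of_nonneg_right ht (norm_nonneg _)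

theorem case2_rou (hminmod : T_MINMOD) {P Q : MP n} {V : Cn n} {s : Fin n → ℝ}
    {de sg ka R κ : ℝ} {K Dg : ℕ} {T : Cn n → ℂ} (hc : Cone0 Q V s de sg ka K T) (R0 : 0 < R)
    (H : ∀ u : Cn n, ‖u‖ ≤ ‖s‖ + de + sg * ‖V‖ →
      ‖eval ((R : ℂ) • u) P / (R : ℂ) ^ Dg - eval u Q‖ ≤ κ)
    (hκ : 2 * κ < ka * (sg / 2) ^ K) {p : Cn n} (hp : (R : ℂ)⁻¹ • p ∈ ball (iR s) de) :
    Rou P V p 0 (sg * R) := by
  obtain ⟨-, sg0, ka0, -, -, -, -, hT⟩ := hc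
  obtain ⟨t1, t2, t3⟩ := hT _ hp
  have h : (R : ℂ) ≠ 0 := by exact_mod_cast R0.ne'
  have h0 := case2_est R0 H hp (t := T ((R : ℂ)⁻¹ • p)) (by linarith)
  rw [t2, sub_zero] at h0
  have h1 : ∀ t : ℂ, ‖t‖ = sg → κ < ‖eval (p + (R * t) • V) P / (R : ℂ) ^ Dg‖ := fun t ht => by
    have a1 := case2_est R0 H hp ht.le
    have a2 := t3 t ht.le
    have a3 : sg / 2 ≤ ‖t - T ((R : ℂ)⁻¹ • p)‖ := by
      linarith [norm_sub_norm_le t (T ((R : ℂ)⁻¹ • p))]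
    have a4 := mul_le_mul_of_nonneg_left (pow_le_pow_left₀ (by positivity) a3 K) ka0.le
    rw [norm_sub_rev] at a1
    linarith [norm_sub_norm_le (eval ((R : ℂ)⁻¹ • p + t • V) Q)
      (eval (p + (R * t) • V) P / (R : ℂ) ^ Dg)]
  constructor
  · obtain ⟨t, a1, a2⟩ := hminmod (fun t => eval (p + (R * t) • V) P / (R : ℂ) ^ Dg) 0
      (T ((R : ℂ)⁻¹ • p)) sg (((differentiable_eval P).comp (by fun_prop)).div_const _)
      (by rw [sub_zero]; linarith) fun t ht => h0.trans_lt (h1 t (by rwa [sub_zero] at ht))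
    refine ⟨R * t, ?_, (div_eq_zero_iff.1 a2).resolve_right (pow_ne_zero _ h)⟩
    rw [sub_zero] at a1 ⊢
    rw [norm_mul, Complex.norm_of_nonneg R0.le, mul_comm]
    exact mul_lt_mul_of_pos_right a1 R0
  · intro τ hτ h2
    have a1 := h1 (τ / R) (by
      rw [norm_div, Complex.norm_of_nonneg R0.le, ← sub_zero τ, hτ, mul_div_cancel_right₀ _ R0.ne'])
    rw [mul_div_cancel₀ _ h, h2, zero_div, norm_zero] at a1
    exact a1.not_ge ((norm_nonneg _).trans h0)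

theorem case2_err {P Q : MP n} {V : Cn n} {s : Fin n → ℝ}
    {de sg ka R κ b : ℝ} {K Dg : ℕ} {T : Cn n → ℂ} (hc : Cone0 Q V s de sg ka K T) (R0 : 0 < R)
    (H : ∀ u : Cn n, ‖u‖ ≤ ‖s‖ + de + sg * ‖V‖ →
      ‖eval ((R : ℂ) • u) P / (R : ℂ) ^ Dg - eval u Q‖ ≤ κ) (b0 : 0 ≤ b) (hb : κ ≤ ka * b ^ K)
    {p : Cn n} (hp : (R : ℂ)⁻¹ • p ∈ ball (iR s) de) {τ : ℂ} (h1 : ‖τ‖ < sg * R)
    (h2 : eval (p + τ • V) P = 0) : ‖τ - R * T ((R : ℂ)⁻¹ • p)‖ ≤ b * R := by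
  obtain ⟨-, -, ka0, K1, -, -, -, hT⟩ := hc
  have h : (R : ℂ) ≠ 0 := by exact_mod_cast R0.ne'
  have ht : ‖τ / R‖ ≤ sg := by
    rw [norm_div, Complex.norm_of_nonneg R0.le, div_le_iff₀ R0]
    exact h1.le
  have a1 := case2_est R0 H hp ht
  rw [mul_div_cancel₀ _ h, h2, zero_div, zero_sub, norm_neg] at a1
  have a2 := le_of_mul_le_mul_left ((((hT _ hp).2.2 _ ht).trans a1).trans hb) ka0
  rw [pow_le_pow_iff_left₀ (norm_nonneg _) b0 (by omega)] at a2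
  have e : τ - R * T ((R : ℂ)⁻¹ • p) = (τ / R - T ((R : ℂ)⁻¹ • p)) * R := by field_simp
  rw [e, norm_mul, Complex.norm_of_nonneg R0.le]
  exact mul_le_mul_of_nonneg_right a2 R0.le

theorem case2_shift {P : MP n} {v : Fin n → ℚ} {x : Cn n} {r δ L : ℝ} {τ : Cn n → ℂ}
    {ν : Fin n → ℝ} {S : Finset (MP n)} (hx : Imag x) (h1 : Sheet P (cQ v) x r τ)
    (h2 : NearLin ν δ x r τ) (h3 : ∀ p ∈ ball x r, Tm S L (p + τ p • cQ v)) :
    ∃ (x' : Cn n) (τ' : Cn n → ℂ), Imag x' ∧ Sheet P (cQ v) x' r τ' ∧ NearLin ν δ x' r τ' ∧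
      (∀ p ∈ ball x' r, Tm S L (p + τ' p • cQ v)) ∧ ‖τ' x'‖ = |(τ x).re| := by
  obtain ⟨a, ha⟩ : ∃ a : ℂ, a = (τ x).im * Complex.I := ⟨_, rfl⟩
  have hb : ∀ p ∈ ball (x + a • cQ v) r, p - a • cQ v ∈ ball x r := fun p hp => by
    rw [mem_ball_iff_norm] at hp ⊢
    rwa [sub_sub, add_comm]
  have e : ∀ p : Cn n, p + (τ (p - a • cQ v) - a) • cQ v =
      (p - a • cQ v) + τ (p - a • cQ v) • cQ v := fun p => by rw [sub_smul]; abel
  refine ⟨x + a • cQ v, fun p => τ (p - a • cQ v) - a, hx.add fun i => ?_,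
    ⟨(h1.1.comp (by fun_prop) hb).sub_const a, fun p hp => ?_, fun p hp t ht => ?_⟩,
    fun p hp p' hp' => ?_, fun p hp => ?_, ?_⟩
  · simp [ha, cQ]
  · rw [e]; exact h1.2.1 _ (hb p hp)
  · have := hb _ ht
    rw [add_sub_right_comm] at this
    beta_reduce
    rw [add_sub_right_comm, h1.2.2 _ (hb p hp) t this]
    ring
  · have := h2 _ (hb p hp) _ (hb p' hp')
    rw [sub_sub_sub_cancel_right] at this
    rwa [sub_sub_sub_cancel_right]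
  · rw [e]; exact h3 _ (hb p hp)
  · beta_reduce
    rw [add_sub_cancel_right, ha, ← Real.norm_eq_abs, ← Complex.norm_real]
    congr 1
    rw [sub_eq_iff_eq_add, Complex.re_add_im]

theorem case2_near {ν s : Fin n → ℝ} {η d R r : ℝ} {x : Cn n} {T τ : Cn n → ℂ} (R0 : 0 < R)
    (hT : NearLin ν η (iR s) d T) (hb : ∀ p ∈ ball x r, (R : ℂ)⁻¹ • p ∈ ball (iR s) d)
    (he : ∀ p ∈ ball x r, ∀ p' ∈ ball x r, ‖(τ p - R * T ((R : ℂ)⁻¹ • p)) -
      (τ p' - R * T ((R : ℂ)⁻¹ • p'))‖ ≤ η * ‖p - p'‖) : NearLin ν (2 * η) x r τ := by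
  intro p hp p' hp'
  have h : (R : ℂ) ≠ 0 := by exact_mod_cast R0.ne'
  have a1 := hT _ (hb p hp) _ (hb p' hp')
  have e1 : dr ν (p - p') = R * dr ν ((R : ℂ)⁻¹ • p - (R : ℂ)⁻¹ • p') := by
    simp only [dr, Finset.mul_sum, Pi.sub_apply, Pi.smul_apply, smul_eq_mul]
    exact Finset.sum_congr rfl fun i _ => by field_simp
  have e2 : τ p - τ p' + dr ν (p - p') = ((τ p - R * T ((R : ℂ)⁻¹ • p)) -
      (τ p' - R * T ((R : ℂ)⁻¹ • p'))) + R * (T ((R : ℂ)⁻¹ • p) - T ((R : ℂ)⁻¹ • p') +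
        dr ν ((R : ℂ)⁻¹ • p - (R : ℂ)⁻¹ • p')) := by rw [e1]; ring
  rw [e2]
  refine (norm_add_le _ _).trans ?_
  rw [norm_mul, Complex.norm_of_nonneg R0.le]
  refine (add_le_add (he p hp p' hp') (mul_le_mul_of_nonneg_left a1 R0.le)).trans_eq ?_
  rw [← smul_sub, norm_smul, norm_inv, Complex.norm_of_nonneg R0.le]
  field_simp
  ring

theorem case2_num {W R A b L c : ℝ} (W1 : 1 ≤ W) (hR : W ^ 8 ≤ R) (A0 : 0 ≤ A) (b0 : 0 ≤ b)
    (L0 : 0 ≤ L) (hL : L ≤ A * W) (h : (b + A) * A ≤ c * W) :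
    (b / W ^ 8 * R + L) * L ≤ c * (R / W ^ 4) := by
  have W0 : 0 < W := by linarith
  have R0 : 0 ≤ R := le_trans (by positivity) hR
  have a1 : b / W ^ 8 * R ≤ b * (R / W ^ 6) := by
    rw [div_mul_eq_mul_div, mul_div_assoc]
    gcongr
    norm_num
  have a2 : W ≤ R / W ^ 6 := by
    rw [le_div_iff₀ (by positivity), ← pow_succ']
    exact (pow_le_pow_right₀ W1 (by norm_num)).trans hR
  have a3 : L ≤ A * (R / W ^ 6) := hL.trans (mul_le_mul_of_nonneg_left a2 A0)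
  calc _ ≤ (b * (R / W ^ 6) + A * (R / W ^ 6)) * (A * W) := by gcongr
    _ = (b + A) * A * (R / W ^ 5) := by field_simp
    _ ≤ c * W * (R / W ^ 5) := by gcongr
    _ = _ := by field_simp

theorem t_case2 (hsc1 : T_SC1) (hloct : T_LOCT) (hhom : T_HOM) (hcl : T_CL)
    (hminmod : T_MINMOD) : T_CASE2 := by
  intro n F _ _ D v s ν hcur hray hν hden ⟨de, sg, ka, K, T, hc, hnl⟩
  obtain ⟨S, hS, hsol⟩ := hsc1 n F D v ν hcur hray hν hden
  refine hsol fun δ δ0 => ?_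
  obtain ⟨d1, d10, hnl⟩ := hnl (δ / 2) (half_pos δ0)
  obtain ⟨C, C0, hC⟩ := hhom n D.P (‖s‖ + de + sg * ‖cQ v‖)
  have hc' := hc
  obtain ⟨de0, sg0, ka0, K1, Td, -, Tre, -⟩ := hc'
  obtain ⟨N, ε, R₀, N1, ε0, -, R3, hl⟩ := hloct n D.P (cQ v) S ((4 * K : ℕ) : ℝ)⁻¹ D.prime hS
    (by positivity)
  obtain ⟨b, b1, hb⟩ : ∃ b : ℝ, 1 ≤ b ∧ C ≤ ka * b :=
    ⟨max 1 (C / ka), le_max_left _ _, (div_le_iff₀' ka0).1 (le_max_right _ _)⟩
  obtain ⟨W, w1, w2, w3, w4, w5, w6, w7, w8⟩ : ∃ W : ℝ, R₀ ≤ W ∧ ‖s‖ + de ≤ W ∧ sg ≤ W ∧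
      2 * C / (ka * (sg / 2) ^ K) < W ∧ de⁻¹ ≤ W ∧ d1⁻¹ ≤ W ∧ 8 * b / (ε * δ) ≤ W ∧
      (b + N * (8 * K)) * (N * (8 * K)) / (δ * ε / 2) ≤ W :=
    ((eventually_ge_atTop _).and <| (eventually_ge_atTop _).and <| (eventually_ge_atTop _).and <|
      (eventually_gt_atTop _).and <| (eventually_ge_atTop _).and <| (eventually_ge_atTop _).and <|
      (eventually_ge_atTop _).and (eventually_ge_atTop _)).exists
  have W1 : 1 ≤ W := by linarith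
  have W0 : 0 < W := by linarith
  obtain ⟨R, hR⟩ : ∃ R : ℝ, R = W ^ (8 * K) := ⟨_, rfl⟩
  have R8 : W ^ 8 ≤ R := hR ▸ pow_le_pow_right₀ W1 (by omega)
  have RW : W ≤ R := (le_self_pow₀ W1 (by norm_num)).trans R8
  have R0 : 0 < R := by linarith
  have eα : R / W ^ 4 * R ^ ((4 * K : ℕ) : ℝ)⁻¹ = (W ^ 2)⁻¹ * R := by
    have : R ^ ((4 * K : ℕ) : ℝ)⁻¹ = W ^ 2 := by
      rw [hR, show 8 * K = 2 * (4 * K) by ring, pow_mul,
        Real.pow_rpow_inv_natCast (by positivity) (by omega)]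
    rw [this]
    field_simp
  have hW2 : ∀ d : ℝ, 0 < d → d⁻¹ ≤ W → (W ^ 2)⁻¹ ≤ d := fun d d0 hd =>
    inv_le_of_inv_le₀ d0 (hd.trans (le_self_pow₀ W1 two_ne_zero))
  have hball : ∀ d : ℝ, 0 < d → d⁻¹ ≤ W → ∀ p ∈ ball ((R : ℂ) • iR s) ((W ^ 2)⁻¹ * R),
      (R : ℂ)⁻¹ • p ∈ ball (iR s) d := fun d d0 hd p hp =>
    ball_subset_ball (hW2 d d0 hd) (case2_ball R0 hp)
  have H := fun u => hC R u (by linarith)
  have ρ1 : 1 ≤ R / W ^ 4 := by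
    rw [le_div_iff₀ (by positivity), one_mul]
    exact (pow_le_pow_right₀ W1 (by norm_num)).trans R8
  obtain ⟨s1, τ, hsub, hsh, hτ⟩ := hl R (by linarith) (R / W ^ 4) ((R : ℂ) • iR s) (fun _ => 0)
    (sg * R) ρ1 continuous_const (fun p hp => by
      rw [eα] at hp
      refine ⟨(norm_lt_of_mem_ball hp).le.trans ?_, ?_,
        case2_rou hminmod hc R0 H ?_ (hball de de0 w5 p hp)⟩
      · rw [norm_smul, Complex.norm_of_nonneg R0.le, norm_iR]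
        nlinarith [hW2 de de0 w5]
      · rw [norm_zero]
        nlinarith
      · rw [← mul_div_assoc, div_lt_iff₀ R0]
        rw [div_lt_iff₀' (by positivity)] at w4
        exact w4.trans_le (by gcongr))
  rw [eα] at hsub
  have r0 : 0 < ε * (R / W ^ 4) := by positivity
  have hx : Imag ((R : ℂ) • iR s + iR s1) := ((imag_iR s).smul R).add (imag_iR s1)
  generalize (R : ℂ) • iR s + iR s1 = x at hsub hsh hτ hx
  have he : ∀ p ∈ ball x (ε * (R / W ^ 4)), ‖τ p - R * T ((R : ℂ)⁻¹ • p)‖ ≤ b / W ^ 8 * R :=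
    fun p hp => by
      refine case2_err hc R0 H (by positivity) ?_ (hball de de0 w5 p (hsub hp))
        (by simpa using (hτ p hp).1) (hsh.2.1 p hp)
      rw [div_pow, ← pow_mul, ← hR, ← mul_div_assoc]
      gcongr
      exact hb.trans (mul_le_mul_of_nonneg_left (le_self_pow₀ b1 (by omega)) ka0.le)
  have hlip := (hcl _ _ (fun p => τ p - R * T ((R : ℂ)⁻¹ • p)) x _ _ r0
    (hsh.1.sub ((Td.comp (by fun_prop) fun p hp => hball de de0 w5 p (hsub hp)).const_mul _))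
    he).2
  have hss : ball x (ε * (R / W ^ 4) / 2) ⊆ ball x (ε * (R / W ^ 4)) :=
    ball_subset_ball (half_le_self r0.le)
  have hn : NearLin ν (2 * (δ / 2)) x (ε * (R / W ^ 4) / 2) τ := by
    refine case2_near R0 hnl (fun p hp => hball d1 d10 w6 p (hsub (hss hp))) fun p hp p' hp' =>
      (hlip p hp p' hp').trans (mul_le_mul_of_nonneg_right ?_ (norm_nonneg _))
    have e : 4 * (b / W ^ 8 * R) / (ε * (R / W ^ 4)) = 8 * b / (ε * δ) / W ^ 4 * (δ / 2) := by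
      field_simp
      norm_num
    rw [e]
    refine mul_le_of_le_one_left (by positivity) ((div_le_one (by positivity)).2 ?_)
    exact w7.trans (le_self_pow₀ W1 (by norm_num))
  rw [mul_div_cancel₀ _ two_ne_zero] at hn
  obtain ⟨x', τ', a1, a2, a3, a4, a5⟩ := case2_shift hx ⟨hsh.1.mono hss,
    fun p hp => hsh.2.1 p (hss hp), fun p hp t ht => hsh.2.2 p (hss hp) t (hss ht)⟩ hn
    fun p hp => (hτ p (hss hp)).2
  have l1 : 1 ≤ Real.log R := by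
    rw [Real.le_log_iff_exp_le R0]
    linarith [Real.exp_one_lt_d9]
  have l2 : Real.log R ≤ 8 * K * W := by
    rw [hR, Real.log_pow]
    push_cast
    gcongr
    linarith [Real.log_le_sub_one_of_pos W0]
  refine ⟨x', _, _, τ', a1, half_pos r0, one_le_mul_of_one_le_of_one_le N1 l1, a2, a3, a4, ?_⟩
  have hre : |(τ x).re| ≤ b / W ^ 8 * R := by
    have i1 : Imag ((R : ℂ)⁻¹ • x) := by
      rw [← Complex.ofReal_inv]; exact hx.smul _
    have i2 := hball de de0 w5 x (hsub (mem_ball_self r0))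
    have i3 : (T ((R : ℂ)⁻¹ • x)).re = 0 := by
      rw [i1.eq_iR] at i2 ⊢; exact Tre _ i2
    refine le_trans (le_of_eq ?_) ((Complex.abs_re_le_norm _).trans (he x (mem_ball_self r0)))
    rw [Complex.sub_re, Complex.re_ofReal_mul, i3, mul_zero, sub_zero]
  rw [a5]
  refine (mul_le_mul_of_nonneg_right (add_le_add hre le_rfl) (by positivity)).trans
    ((case2_num (A := N * (8 * K)) (c := δ * ε / 2) W1 R8 (by positivity) (by positivity)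
      (by positivity) ?_ ((div_le_iff₀' (by positivity)).1 w8)).trans_eq (by ring))
  rw [mul_assoc]
  gcongr

end Pool.Agent.P.MP_d2ed07_lc
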