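import Pool.Agent.P.MP_d2ed07_lc.Basic

/-!
Cauchy type estimates, a fixed point theorem, the minimum principle and Hurwitz' theorem.
-/

namespace Pool.Agent.P.MP_d2ed07_lc

open MvPolynomial Metric Filter Topology

theorem cl_sub {E : Type} [NormedAddCommGroup E] {x p : E} {ρ : ℝ} (hp : p ∈ ball x (ρ / 2)) :
    ball p (ρ / 2) ⊆ ball x ρ :=
  ball_subset_ball' (by rw [mem_ball] at hp; linarith)

theorem cl_lip {E G : Type} [NormedAddCommGroup E] [NormedSpace ℂ E]
    [NormedAddCommGroup G] [NormedSpace ℂ G] {f : E → G} {x : E} {ρ C : ℝ} (hρ : 0 < ρ)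
    (hf : DifferentiableOn ℂ f (ball x ρ)) (h : ∀ p ∈ ball x (ρ / 2), ‖fderiv ℂ f p‖ ≤ C) :
    ∀ p ∈ ball x (ρ / 2), ∀ p' ∈ ball x (ρ / 2), ‖f p - f p'‖ ≤ C * ‖p - p'‖ :=
  fun _ hp _ hp' => (convex_ball x (ρ / 2)).norm_image_sub_le_of_norm_fderiv_le
    (fun _ hq => hf.differentiableAt
      (isOpen_ball.mem_nhds (ball_subset_ball (by linarith) hq))) h hp' hp

theorem t_cl : T_CL := by
  intro E G _ _ _ _ _ f x ρ M hρ hf hM
  have h : ∀ p ∈ ball x (ρ / 2), ‖fderiv ℂ f p‖ ≤ 4 * M / ρ := by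
    intro p hp
    have h1 := Complex.norm_fderiv_le_div_of_mapsTo_ball (R₂ := 2 * M) (hf.mono (cl_sub hp))
      (fun q hq => by
        rw [mem_closedBall_iff_norm]
        have a1 := hM q (cl_sub hp hq)
        have a2 := hM p (ball_subset_ball (by linarith) hp)
        exact (norm_sub_le _ _).trans (by linarith)) (half_pos hρ)
    refine h1.trans_eq ?_
    field_simp
    ring
  exact ⟨h, cl_lip hρ hf h⟩

theorem t_bc : T_BC := by
  intro E _ _ f x ρ M hρ hf hM
  have h : ∀ p ∈ ball x (ρ / 2), ‖fderiv ℂ f p‖ ≤ 8 * M / ρ := by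
    intro p hp
    have hp' : p ∈ ball x ρ := ball_subset_ball (by linarith) hp
    have hM0 : 0 ≤ M := (abs_nonneg _).trans (hM p hp' p hp')
    have key : ∀ N : ℝ, M < N → ‖fderiv ℂ f p‖ ≤ 8 * N / ρ := by
      intro N hN
      have hN0 : 0 < N := by linarith
      have hre : ∀ q ∈ ball p (ρ / 2), (f q - f p).re ≤ M := fun q hq => by
        rw [Complex.sub_re]; exact (le_abs_self _).trans (hM q (cl_sub hp hq) p hp')
      have hne : ∀ q ∈ ball p (ρ / 2), (2 * N : ℂ) - (f q - f p) ≠ 0 := by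
        intro q hq h0
        have a1 := hre q hq
        rw [← sub_eq_zero.1 h0] at a1
        simp at a1
        linarith
      have hd : DifferentiableOn ℂ (fun q => f q - f p) (ball p (ρ / 2)) :=
        (hf.mono (cl_sub hp)).sub_const _
      have hg : DifferentiableOn ℂ (fun q => (f q - f p) / (2 * N - (f q - f p)))
          (ball p (ρ / 2)) := by
        simp only [div_eq_mul_inv]
        exact hd.mul ((hd.const_sub _).inv hne)
      have hb : ∀ q ∈ ball p (ρ / 2), ‖f q - f p‖ ≤ ‖(2 * N : ℂ) - (f q - f p)‖ := by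
        intro q hq
        have a1 := hre q hq
        generalize f q - f p = z at a1
        rw [← sq_le_sq₀ (by positivity) (by positivity)]
        suffices z.re * z.re ≤ (2 * N - z.re) * (2 * N - z.re) by
          simpa [Complex.sq_norm, Complex.normSq_apply]
        nlinarith
      refine norm_fderiv_le_of_lip' ℂ (by positivity) ?_
      filter_upwards [ball_mem_nhds p (show 0 < ρ / 4 by positivity)] with q hq
      have hq' : q ∈ ball p (ρ / 2) := ball_subset_ball (by linarith) hq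
      have a1 := Complex.dist_le_div_mul_dist_of_mapsTo_ball (R₂ := 1) hg (fun z hz => by
        simp only [sub_self, zero_div, mem_closedBall_zero_iff, norm_div]
        exact div_le_one_of_le₀ (hb z hz) (norm_nonneg _)) hq'
      simp only [sub_self, zero_div, dist_eq_norm] at a1
      rw [sub_zero, norm_div] at a1
      rw [div_le_iff₀ (norm_pos_iff.2 (hne q hq'))] at a1
      have a2 : ‖(2 * N : ℂ) - (f q - f p)‖ ≤ 2 * N + ‖f q - f p‖ := by
        refine (norm_sub_le _ _).trans_eq ?_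
        simp [abs_of_pos hN0]
      have a3 : 1 / (ρ / 2) * ‖q - p‖ ≤ 1 / 2 := by
        rw [mem_ball_iff_norm] at hq
        rw [one_div_mul_eq_div, div_le_iff₀ (half_pos hρ)]
        linarith
      have a4 : 8 * N / ρ * ‖q - p‖ = 4 * N * (1 / (ρ / 2) * ‖q - p‖) := by
        field_simp
        ring
      have a5 : 0 ≤ 1 / (ρ / 2) * ‖q - p‖ := by positivity
      rw [a4]
      generalize 1 / (ρ / 2) * ‖q - p‖ = t at a1 a3 a5
      have a6 := mul_le_mul_of_nonneg_left a2 a5
      have a7 := mul_le_mul_of_nonneg_right a3 (norm_nonneg (f q - f p))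
      linarith
    refine le_of_forall_pos_le_add fun e he => (key (M + e * ρ / 8) (by
      have : 0 < e * ρ / 8 := by positivity
      linarith)).trans_eq ?_
    field_simp
  exact ⟨h, cl_lip hρ hf h⟩

theorem t_fix : T_FIX := by
  intro E _ _ Ψ x ρ hρ h1 h2
  have hx : x ∈ closedBall x ρ := mem_closedBall_self hρ.le
  have hm : Set.MapsTo Ψ (closedBall x ρ) (closedBall x ρ) := by
    intro p hp
    have a1 := h1 p hp x hx
    rw [mem_closedBall_iff_norm] at hp ⊢
    have a2 := norm_sub_le_norm_sub_add_norm_sub (Ψ p) (Ψ x) x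
    linarith
  have hc : ContractingWith (1 / 2) (hm.restrict Ψ _ _) := by
    refine ⟨by norm_num, LipschitzWith.of_dist_le_mul fun p q => ?_⟩
    simpa [Subtype.dist_eq, dist_eq_norm] using h1 p p.2 q q.2
  obtain ⟨y, hy, hfy, -⟩ := hc.exists_fixedPoint' isClosed_closedBall.isComplete hm hx
    (edist_ne_top _ _)
  exact ⟨y, hy, hfy⟩

theorem t_minmod : T_MINMOD := by
  intro f c a σ hf ha h
  by_contra h0
  push Not at h0
  have hσ : 0 < σ := (norm_nonneg _).trans_lt ha
  have hne : ∀ t ∈ closedBall c σ, f t ≠ 0 := by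
    intro t ht
    rcases (mem_closedBall_iff_norm.1 ht).lt_or_eq with h1 | h1
    · exact h0 t h1
    · exact norm_pos_iff.1 ((norm_nonneg _).trans_lt (h t h1))
  have hd : DiffContOnCl ℂ (fun t => (f t)⁻¹) (ball c σ) := by
    refine DifferentiableOn.diffContOnCl ?_
    rw [closure_ball c hσ.ne']
    exact hf.differentiableOn.inv hne
  obtain ⟨z, hz, hmax⟩ := Complex.exists_mem_frontier_isMaxOn_norm isBounded_ball
    ⟨c, mem_ball_self hσ⟩ hd
  have ha' : a ∈ ball c σ := mem_ball_iff_norm.2 ha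
  rw [frontier_ball c hσ.ne', mem_sphere_iff_norm] at hz
  have h1 : ‖(f a)⁻¹‖ ≤ ‖(f z)⁻¹‖ := hmax (subset_closure ha')
  have h2 := h z hz
  have h3 : 0 < ‖f a‖ := norm_pos_iff.2 (hne a (ball_subset_closedBall ha'))
  rw [norm_inv, norm_inv, inv_le_inv₀ h3 (h3.trans h2)] at h1
  linarith

theorem t_hur (hminmod : T_MINMOD) : T_HUR := by
  intro q t₀ σ₀ hq h0 hσ₀
  have hfin : ({t | q.IsRoot t} \ {t₀}).Finite := (Polynomial.finite_setOfPred_isRoot hq).subset
    Set.sdiff_subset
  obtain ⟨ε, hε, hb⟩ := Metric.isOpen_iff.1 hfin.isClosed.isOpen_compl t₀ (by simp)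
  have hσ : 0 < min σ₀ (ε / 2) := lt_min hσ₀ (half_pos hε)
  obtain ⟨m, hm, hm'⟩ := (isCompact_sphere t₀ (min σ₀ (ε / 2))).exists_forall_le'
    (f := fun t => ‖q.eval t‖) (a := 0) (by fun_prop) (fun t ht => by
      rw [norm_pos_iff]
      intro h1
      rw [mem_sphere] at ht
      refine hb (mem_ball.2 (ht.trans_lt ((min_le_right _ _).trans_lt (half_lt_self hε))))
        ⟨h1, fun h2 => ?_⟩
      rw [Set.mem_singleton_iff.1 h2, dist_self] at ht
      exact hσ.ne ht)
  refine ⟨_, m / 3, hσ, min_le_left _ _, by positivity, fun f hf h => ?_⟩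
  have h1 : ‖f t₀‖ ≤ m / 3 := by simpa [h0] using h t₀ (by simpa using hσ.le)
  have h2 : ∀ t, ‖t - t₀‖ = min σ₀ (ε / 2) → ‖f t₀‖ < ‖f t‖ := by
    intro t ht
    have a1 := h t ht.le
    have a2 : m ≤ ‖q.eval t‖ := hm' t (mem_sphere_iff_norm.2 ht)
    have a3 := norm_sub_norm_le (q.eval t) (f t)
    rw [norm_sub_rev] at a3
    linarith
  exact ⟨hminmod f t₀ t₀ _ hf (by simpa using hσ) h2,
    fun t ht => norm_pos_iff.1 ((norm_nonneg _).trans_lt (h2 t ht))⟩

theorem t_relv (hbc : T_BC) (hlog : T_LOG) : T_RELV := by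
  intro η hη
  have hc1 : min (1 / 32) (η / 32) ≤ 1 / 32 := min_le_left _ _
  have hc2 : min (1 / 32) (η / 32) ≤ η / 32 := min_le_right _ _
  have hc0 : 0 < min (1 / 32) (η / 32) := lt_min (by norm_num) (by positivity)
  generalize min (1 / 32) (η / 32) = c at hc1 hc2 hc0
  refine ⟨c, hc0, by linarith, fun n f x r L hr hL hf h p hp => ?_⟩
  obtain ⟨g, hg, hgf⟩ := hlog (Cn n) (ball x r) f (convex_ball x r) isOpen_ball hf
    fun q hq => norm_pos_iff.1 ((Real.exp_pos _).trans_le (h q hq).1)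
  have hre : ∀ q ∈ ball x r, -L ≤ (g q).re ∧ (g q).re ≤ L := by
    intro q hq
    have a1 := h q hq
    rwa [← hgf q hq, Complex.norm_exp, Real.exp_le_exp, Real.exp_le_exp] at a1
  obtain ⟨-, h2⟩ := hbc (Cn n) g x r (2 * L) hr hg fun q hq q' hq' => by
    have a1 := hre q hq
    have a2 := hre q' hq'
    rw [abs_le]; constructor <;> linarith [a1.1, a1.2, a2.1, a2.2]
  have hL0 : 0 < L := by linarith
  have h3 : c * r / L ≤ r / 2 := by
    refine (div_le_self (by positivity) hL).trans ?_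
    nlinarith
  have hp' : p ∈ ball x (r / 2) := ball_subset_ball h3 hp
  have h4 := h2 p hp' x (mem_ball_self (half_pos hr))
  have h5 : ‖g p - g x‖ ≤ 16 * c := by
    refine h4.trans ?_
    calc 8 * (2 * L) / r * ‖p - x‖ ≤ 8 * (2 * L) / r * (c * r / L) := by
          gcongr; exact (mem_ball_iff_norm.1 hp).le
      _ = 16 * c := by field_simp; norm_num
  have h6 := Complex.norm_exp_sub_one_le (x := g p - g x) (by linarith)
  have h7 : f p - f x = (Complex.exp (g p - g x) - 1) * f x := by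
    rw [← hgf p (ball_subset_ball (by linarith) hp'), ← hgf x (mem_ball_self hr), sub_mul,
      ← Complex.exp_add, sub_add_cancel, one_mul]
  rw [h7, norm_mul]
  gcongr
  linarith

end Pool.Agent.P.MP_d2ed07_lc
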