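import Pool.Agent.P.MP_d2ed07_lc.Basic

/-!
A local sheet of the cone at an imaginary point.
-/

namespace Pool.Agent.P.MP_d2ed07_lc

open MvPolynomial Metric Filter Topology

variable {n : ℕ}

theorem cone1_ift {E : Type} [NormedAddCommGroup E] [NormedSpace ℂ E] [CompleteSpace E]
    {f g : E × ℂ → ℂ} {u : E} (hf : ContDiff ℂ 1 f) (h0 : f (u, 0) = 0) {A : ℂ} (hA : A ≠ 0)
    (hd : ∀ t, fderiv ℂ f (u, 0) (0, t) = t * A) (hg : Continuous g) (hg0 : g (u, 0) ≠ 0) :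
    ∃ (δ σ κ : ℝ) (T : E → ℂ), 0 < δ ∧ 0 < σ ∧ 0 < κ ∧ DifferentiableOn ℂ T (ball u δ) ∧
      T u = 0 ∧ ∀ x ∈ ball u δ, ‖T x‖ ≤ σ / 2 ∧ f (x, T x) = 0 ∧
        ∀ τ : ℂ, ‖τ‖ ≤ σ → κ * ‖τ - T x‖ ≤ ‖f (x, τ)‖ ∧ κ ≤ ‖g (x, τ)‖ := by
  have cdf : ContDiffAt ℂ 1 f (u, 0) := hf.contDiffAt
  have hi : (fderiv ℂ f (u, 0) ∘L .inr ℂ E ℂ).IsInvertible :=
    ⟨ContinuousLinearEquiv.unitsEquivAut ℂ (Units.mk0 A hA), by ext; simp [hd]⟩
  set T := cdf.implicitFunction one_ne_zero hi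
  have hT0 : T u = 0 := cdf.implicitFunction_apply_self one_ne_zero hi
  have hT1 : ∀ᶠ x in 𝓝 u, f (x, T x) = f (u, 0) :=
    cdf.eventually_apply_implicitFunction one_ne_zero hi
  have hT2 : ContDiffAt ℂ 1 T u := cdf.contDiffAt_implicitFunction one_ne_zero hi
  have hA' : 0 < ‖A‖ / 2 := by positivity
  have hg' : 0 < ‖g (u, 0)‖ / 2 := by positivity
  obtain ⟨ε, hε, h1⟩ := Metric.eventually_nhds_iff.1
    ((cdf.hasStrictFDerivAt one_ne_zero).isLittleO.def hA')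
  obtain ⟨ε', hε', h2⟩ := Metric.eventually_nhds_iff.1
    (hg.norm.continuousAt.eventually (lt_mem_nhds (half_lt_self (norm_pos_iff.2 hg0))))
  have hm : 0 < min ε ε' := lt_min hε hε'
  have hT3 : ∀ᶠ x in 𝓝 u, ‖T x‖ ≤ min ε ε' / 2 / 2 :=
    hT2.continuousAt.norm.eventually (ge_mem_nhds (by simp only [hT0, norm_zero]; positivity))
  obtain ⟨δ, hδ, h3⟩ := Metric.eventually_nhds_iff_ball.1
    ((hT1.and hT3).and ((hT2.eventually (by simp)).and (ball_mem_nhds u hm)))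
  refine ⟨δ, min ε ε' / 2, min (‖A‖ / 2) (‖g (u, 0)‖ / 2), T, hδ, by positivity, lt_min hA' hg',
    fun x hx => ((h3 x hx).2.1.differentiableAt one_ne_zero).differentiableWithinAt, hT0,
    fun x hx => ?_⟩
  obtain ⟨⟨e1, e2⟩, -, e3⟩ := h3 x hx
  rw [h0] at e1
  have hb : ∀ τ : ℂ, ‖τ‖ ≤ min ε ε' / 2 → dist (x, τ) (u, (0 : ℂ)) < min ε ε' := fun τ hτ => by
    rw [Prod.dist_eq, dist_zero_right]
    exact max_lt e3 (by linarith)
  refine ⟨e2, e1, fun τ hτ => ⟨?_, (min_le_right _ _).trans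
    (h2 ((hb τ hτ).trans_le (min_le_right _ _))).le⟩⟩
  have h4 := @h1 ((x, τ), (x, T x)) (by
    rw [Prod.dist_eq]
    exact (max_lt (hb τ hτ) (hb _ (by linarith))).trans_le (min_le_left _ _))
  simp only [e1, sub_zero, Prod.mk_sub_mk, sub_self, hd, Prod.norm_mk, norm_zero,
    max_eq_right (norm_nonneg _)] at h4
  have h5 := norm_sub_norm_le ((τ - T x) * A) (f (x, τ))
  rw [norm_sub_rev, norm_mul] at h5
  have h6 := mul_le_mul_of_nonneg_right (min_le_left (‖A‖ / 2) (‖g (u, 0)‖ / 2))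
    (norm_nonneg (τ - T x))
  linarith

theorem cone1_prime (v : Cn n) (Q : MP n) :
    ddir v Q ≠ 0 → ∃ q : MP n, Prime q ∧ q ∣ Q ∧ ddir v q ≠ 0 := by
  induction Q using UniqueFactorizationMonoid.induction_on_prime with
  | h₁ => intro h; simp [ddir] at h
  | h₂ x hx =>
    intro h
    have := natDegree_lin_pos.2 h
    rw [lin, Polynomial.natDegree_eq_zero_of_isUnit (hx.map _)] at this
    exact absurd this (lt_irrefl _)
  | h₃ a p _ hp ih =>
    intro h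
    by_cases e : ddir v p = 0
    · rw [ddir_mul, e, mul_zero, add_zero] at h
      obtain ⟨q, h1, h2, h3⟩ := ih (right_ne_zero_of_mul h)
      exact ⟨q, h1, h2.mul_left _, h3⟩
    · exact ⟨p, hp, dvd_mul_right _ _, e⟩

theorem cone1_contDiff (v : Cn n) (q : MP n) :
    ContDiff ℂ 1 fun p : Cn n × ℂ => eval (p.1 + p.2 • v) q := by
  induction q using MvPolynomial.induction_on with
  | C a => simpa using contDiff_const
  | add p q hp hq => simp only [map_add]; exact hp.add hq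
  | mul_X p i hp =>
    simp only [map_mul, eval_X, Pi.add_apply, Pi.smul_apply, smul_eq_mul]
    exact hp.mul (by fun_prop)

theorem cone1_fderiv (v u : Cn n) (q : MP n) (t : ℂ) :
    fderiv ℂ (fun p : Cn n × ℂ => eval (p.1 + p.2 • v) q) (u, 0) (0, t) =
      t * eval u (ddir v q) := by
  obtain ⟨A, hA, hA'⟩ := hasFDerivAt_eval q (u + (0 : ℂ) • v)
  have h : HasFDerivAt (fun p : Cn n × ℂ => p.1 + p.2 • v) _ (u, 0) :=
    hasFDerivAt_fst.add ((hasFDerivAt_snd (𝕜 := ℂ)).smul_const v)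
  have := (HasFDerivAt.comp (u, (0 : ℂ)) (g := fun x => eval x q) hA h).fderiv
  rw [Function.comp_def] at this
  rw [zero_smul, add_zero] at hA'
  rw [this, ← hA']
  simp

theorem cone1_pt (hcop : T_COP) (himag : T_IMAG) {Q q Q' : MP n} {v : Cn n}
    (hv : ∀ i, (v i).im = 0) (hQ : Q ≠ 0) (hq : Prime q) (hd : ddir v q ≠ 0) (h1 : q ∣ Q)
    (h2 : ¬ q ∣ Q') (h : ∀ (s : Fin n → ℝ) (τ : ℂ), eval (iR s + τ • v) Q = 0 →
      (∃ τ' : ℂ, eval (iR s + τ' • v) Q ≠ 0) → τ.re = 0) :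
    ∃ s, eval (iR s) q = 0 ∧ eval (iR s) (ddir v q * Q') ≠ 0 := by
  have hp := natDegree_lin_pos.2 hd
  obtain ⟨A, B, c, hc, e⟩ := hcop n q (ddir v q * Q') v hq hp
    fun h => (hq.dvd_or_dvd h).elim (not_dvd_ddir hd) h2
  obtain ⟨s, hs⟩ : ∃ s, eval (iR s) ((lin v q).leadingCoeff * (lin v Q).leadingCoeff * c) ≠ 0 := by
    by_contra hcon
    push Not at hcon
    exact mul_ne_zero (mul_ne_zero (Polynomial.leadingCoeff_ne_zero.2 (lin_ne_zero v hq.ne_zero))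
      (Polynomial.leadingCoeff_ne_zero.2 (lin_ne_zero v hQ))) hc
      (himag n _ Set.univ isOpen_univ Set.univ_nonempty fun s _ => hcon s)
  rw [map_mul, map_mul, mul_ne_zero_iff, mul_ne_zero_iff] at hs
  obtain ⟨t, ht⟩ := Complex.exists_root (f := (lin v q).map (eval (iR s))) (by
    rw [Polynomial.degree_map_eq_of_leadingCoeff_ne_zero _ hs.1.1]
    exact Polynomial.natDegree_pos_iff_degree_pos.1 hp)
  rw [Polynomial.IsRoot.def, ← ev1_eq, lin_eval] at ht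
  have ht0 : t.re = 0 := by
    obtain ⟨r, rfl⟩ := h1
    refine h s t (by rw [map_mul, ht, zero_mul]) ?_
    by_contra hcon
    push Not at hcon
    have : (lin v (q * r)).map (eval (iR s)) = 0 :=
      Polynomial.funext fun τ => by rw [← ev1_eq, lin_eval, hcon, Polynomial.eval_zero]
    exact hs.1.2 (by rw [← Polynomial.leadingCoeff_map_of_leadingCoeff_ne_zero _ hs.1.2, this]; rfl)
  have hu : iR (s + t.im • fun i => (v i).re) = iR s + t • v := by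
    funext i
    apply Complex.ext <;> simp [iR, hv i, ht0]
  refine ⟨_, hu ▸ ht, ?_⟩
  have e' := congrArg (ev1 (iR s) t) e
  rw [ev1, ev1, Polynomial.eval₂_add, Polynomial.eval₂_mul, Polynomial.eval₂_mul,
    Polynomial.eval₂_C, ← ev1, ← ev1, ← ev1, ← ev1, lin_eval, lin_eval, ht, mul_zero,
    zero_add] at e'
  rw [hu]
  exact right_ne_zero_of_mul (e' ▸ hs.2)

theorem t_cone1 (hcop : T_COP) (himag : T_IMAG) : T_CONE1 := by
  intro n Q v hv hd h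
  have hQ : Q ≠ 0 := by rintro rfl; simp [ddir] at hd
  obtain ⟨q, hq, h1, h2⟩ := cone1_prime v Q hd
  obtain ⟨a, Q', h3, e⟩ := WfDvdMonoid.max_power_factor hQ hq.irreducible
  have ha : a ≠ 0 := by
    rintro rfl
    rw [pow_zero, one_mul] at e
    exact h3 (e ▸ h1)
  obtain ⟨s, h4, h5⟩ := cone1_pt hcop himag hv hQ hq h2 h1 h3 h
  rw [map_mul, mul_ne_zero_iff] at h5
  obtain ⟨δ, σ, κ, T, hδ, hσ, hκ, hT, hT0, H⟩ := cone1_ift (u := iR s) (cone1_contDiff v q)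
    (by simpa using h4) h5.1 (cone1_fderiv v _ q) (cone1_contDiff v Q').continuous
    (by simpa using h5.2)
  have H' : ∀ u ∈ ball (iR s) δ, ‖T u‖ ≤ σ / 2 ∧ eval (u + T u • v) Q = 0 ∧
      ∀ τ : ℂ, ‖τ‖ ≤ σ → κ ^ a * κ * ‖τ - T u‖ ^ a ≤ ‖eval (u + τ • v) Q‖ := fun u hu => by
    obtain ⟨e1, e2, e3⟩ := H u hu
    refine ⟨e1, by rw [e, map_mul, map_pow, e2, zero_pow ha, zero_mul], fun τ hτ => ?_⟩
    rw [e, map_mul, map_pow, norm_mul, norm_pow, mul_right_comm, ← mul_pow]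
    exact mul_le_mul (pow_le_pow_left₀ (by positivity) (e3 τ hτ).1 a) (e3 τ hτ).2 hκ.le
      (by positivity)
  refine ⟨s, δ, σ, κ ^ a * κ, a, T, hδ, hσ, by positivity, Nat.one_le_iff_ne_zero.2 ha, hT, hT0,
    fun s' hs' => ?_, H'⟩
  obtain ⟨e1, e2, e3⟩ := H' _ hs'
  have hn : ‖(σ : ℂ)‖ = σ := by simp [abs_of_pos hσ]
  refine h s' _ e2 ⟨σ, norm_pos_iff.1 (lt_of_lt_of_le ?_ (e3 σ hn.le))⟩
  have : 0 < ‖(σ : ℂ) - T (iR s')‖ := norm_sub_pos_iff.2 fun e => by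
    rw [← e, hn] at e1; linarith
  positivity

end Pool.Agent.P.MP_d2ed07_lc
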