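import Pool.Agent.P.MP_d2ed07_lc.Basic

/-!
The tangent direction of a sheet of a cone: either dense or the cone contains a rational
hyperplane.
-/

namespace Pool.Agent.P.MP_d2ed07_lc

open MvPolynomial Metric Filter Topology

variable {n : ℕ}

theorem cone2_smul {Q : MP n} {d : ℕ} (hQ : Q.IsHomogeneous d) (c : ℂ) (u : Cn n) :
    eval (c • u) Q = c ^ d * eval u Q := by
  rw [eval_eq', eval_eq', Finset.mul_sum]
  refine Finset.sum_congr rfl fun α hα => ?_
  have h : ∑ i, α i = d := by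
    have h1 := hQ (mem_support_iff.1 hα)
    rw [← h1, Finsupp.weight_apply, Finsupp.sum_fintype _ _ (by simp)]
    simp
  simp only [Pi.smul_apply, smul_eq_mul, mul_pow, Finset.prod_mul_distrib,
    Finset.prod_pow_eq_pow_sum, h]
  ring

theorem cone2_strict (hcl : T_CL) {T : Cn n → ℂ} {x u : Cn n} {δ : ℝ}
    (hT : DifferentiableOn ℂ T (ball x δ)) (hu : u ∈ ball x δ) {η : ℝ} (hη : 0 < η) :
    ∃ r : ℝ, 0 < r ∧ ball u r ⊆ ball x δ ∧
      (∀ p ∈ ball u r, ‖fderiv ℂ T p - fderiv ℂ T u‖ ≤ η) ∧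
      ∀ p ∈ ball u r, ∀ p' ∈ ball u r, ‖T p - T p' - fderiv ℂ T u (p - p')‖ ≤ η * ‖p - p'‖ := by
  have hd : ∀ p ∈ ball x δ, HasFDerivAt T (fderiv ℂ T p) p := fun p hp =>
    (hT.differentiableAt (isOpen_ball.mem_nhds hp)).hasFDerivAt
  set L := fderiv ℂ T u with hL
  have h1 := (hd u hu).isLittleO.def (show 0 < η / 4 by positivity)
  obtain ⟨ρ, hρ, h2⟩ := Metric.eventually_nhds_iff_ball.1 (h1.and (isOpen_ball.mem_nhds hu))
  have hf : ∀ p ∈ ball u ρ, HasFDerivAt (fun p => T p - T u - L (p - u)) (fderiv ℂ T p - L) p := by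
    intro p hp
    have a1 : HasFDerivAt (fun p => L (p - u)) L p := by
      simp only [map_sub]
      exact L.hasFDerivAt.sub_const _
    exact ((hd p (h2 p hp).2).sub_const _).sub a1
  obtain ⟨h3, h4⟩ := hcl (Cn n) ℂ (fun p => T p - T u - L (p - u)) u ρ (η / 4 * ρ) hρ
    (fun p hp => (hf p hp).differentiableAt.differentiableWithinAt) (fun p hp => by
      refine (h2 p hp).1.trans ?_
      have := mem_ball_iff_norm.1 hp
      gcongr)
  have e : 4 * (η / 4 * ρ) / ρ = η := by field_simp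
  rw [e] at h3 h4
  have hs : ball u (ρ / 2) ⊆ ball u ρ := ball_subset_ball (by linarith)
  refine ⟨ρ / 2, by positivity, fun p hp => (h2 p (hs hp)).2, fun p hp => ?_,
    fun p hp p' hp' => ?_⟩
  · rw [← (hf p (hs hp)).fderiv]; exact h3 p hp
  · have := h4 p hp p' hp'
    have e2 : T p - T p' - L (p - p') = T p - T u - L (p - u) - (T p' - T u - L (p' - u)) := by
      simp only [map_sub]; ring
    rw [e2]; exact this

theorem cone2_inv {Q : MP n} {V : Cn n} {s : Fin n → ℝ} {δ σ κ : ℝ} {K : ℕ} {T : Cn n → ℂ}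
    (h : Cone0 Q V s δ σ κ K T) {u : Cn n} {t : ℂ} (hu : u ∈ ball (iR s) δ)
    (hu' : u + t • V ∈ ball (iR s) δ) (ht : ‖t‖ ≤ σ / 2) : T (u + t • V) = T u - t := by
  obtain ⟨-, -, hκ, hK, -, -, -, h⟩ := h
  have h1 : ‖T u - t‖ ≤ σ := (norm_sub_le _ _).trans (by linarith [(h u hu).1])
  have h2 := (h _ hu').2.2 _ h1
  have h3 : u + t • V + (T u - t) • V = u + T u • V := by rw [sub_smul]; abel
  rw [h3, (h u hu).2.1, norm_zero] at h2
  have h4 : ‖T u - t - T (u + t • V)‖ ^ K = 0 := by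
    refine le_antisymm ?_ (by positivity)
    by_contra h5
    exact absurd h2 (not_le.2 (mul_pos hκ (not_le.1 h5)))
  rw [pow_eq_zero_iff (by omega), norm_eq_zero, sub_eq_zero] at h4
  exact h4.symm

/-- `iR` as a real linear map -/
noncomputable def cone2_iRL (n : ℕ) : (Fin n → ℝ) →L[ℝ] Cn n :=
  ContinuousLinearMap.pi fun i => (ContinuousLinearMap.proj i).smulRight Complex.I

theorem cone2_iRL_apply (s : Fin n → ℝ) : cone2_iRL n s = iR s := by
  funext i; simp [cone2_iRL, iR]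

theorem cone2_mem {s s' : Fin n → ℝ} {δ : ℝ} : iR s' ∈ ball (iR s) δ ↔ s' ∈ ball s δ := by
  rw [mem_ball_iff_norm, mem_ball_iff_norm, ← norm_iR (s' - s), sub_eq_add_neg s', iR_add, iR_neg,
    ← sub_eq_add_neg]

theorem cone2_real {T : Cn n → ℂ} {L : Cn n →L[ℂ] ℂ} {s : Fin n → ℝ}
    (h : HasFDerivAt T L (iR s)) :
    HasFDerivAt (fun s' => T (iR s')) ((L.restrictScalars ℝ).comp (cone2_iRL n)) s := by
  have h1 : HasFDerivAt T (L.restrictScalars ℝ) (cone2_iRL n s) := by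
    rw [cone2_iRL_apply]; exact h.restrictScalars ℝ
  have h2 := h1.comp s (cone2_iRL n).hasFDerivAt
  have e : (fun s' => T (iR s')) = T ∘ cone2_iRL n := by
    funext s'; simp [cone2_iRL_apply]
  rw [e]; exact h2

/-- the real covector attached to a linear form -/
noncomputable def cone2_nu (L : Cn n →L[ℂ] ℂ) : Fin n → ℝ := fun i => -(L (Pi.single i 1)).re

theorem cone2_lin (L : Cn n →L[ℂ] ℂ) (u : Cn n) : L u = ∑ i, u i * L (Pi.single i 1) := by
  conv_lhs => rw [← Finset.univ_sum_single u, map_sum]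
  refine Finset.sum_congr rfl fun i _ => ?_
  rw [← smul_eq_mul, ← map_smul, ← Pi.single_smul, smul_eq_mul, mul_one]

theorem cone2_fd {Q : MP n} {V : Cn n} {s : Fin n → ℝ} {δ σ κ : ℝ} {K : ℕ} {T : Cn n → ℂ}
    (h : Cone0 Q V s δ σ κ K T) {s' : Fin n → ℝ} (hs : s' ∈ ball s δ) :
    (∀ u, fderiv ℂ T (iR s') u = -dr (cone2_nu (fderiv ℂ T (iR s'))) u) ∧
      fderiv ℂ T (iR s') V = -1 := by
  have hs' : iR s' ∈ ball (iR s) δ := cone2_mem.2 hs
  have hd : HasFDerivAt T (fderiv ℂ T (iR s')) (iR s') :=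
    (h.2.2.2.2.1.differentiableAt (isOpen_ball.mem_nhds hs')).hasFDerivAt
  set L := fderiv ℂ T (iR s') with hL
  constructor
  · have h1 := Complex.reCLM.hasFDerivAt.comp s' (cone2_real hd)
    have h2 : HasFDerivAt (Complex.reCLM ∘ fun s' => T (iR s')) (0 : (Fin n → ℝ) →L[ℝ] ℝ) s' := by
      refine (hasFDerivAt_const (0 : ℝ) s').congr_of_eventuallyEq ?_
      filter_upwards [isOpen_ball.mem_nhds hs] with a ha
      exact h.2.2.2.2.2.2.1 a (cone2_mem.2 ha)
    have h3 := h1.unique h2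
    have h4 : ∀ i, (L (Pi.single i 1)).im = 0 := by
      intro i
      have a1 := congrArg (fun f : (Fin n → ℝ) →L[ℝ] ℝ => f (Pi.single i 1)) h3
      have a2 : iR (Pi.single i 1 : Fin n → ℝ) = Complex.I • (Pi.single i 1 : Cn n) := by
        funext j
        by_cases hj : j = i
        · subst hj; simp [iR]
        · simp [iR, hj]
      simpa [cone2_iRL_apply, a2] using a1
    intro u
    rw [cone2_lin, dr, ← Finset.sum_neg_distrib]
    refine Finset.sum_congr rfl fun i _ => ?_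
    have : L (Pi.single i 1) = ((L (Pi.single i 1)).re : ℂ) := by
      apply Complex.ext <;> simp [h4 i]
    rw [cone2_nu]; push_cast; rw [← this]; ring
  · have h1 : HasDerivAt (fun t : ℂ => iR s' + t • V) V 0 := by
      simpa using ((hasDerivAt_id (0 : ℂ)).smul_const V).const_add (iR s')
    have h2 : HasFDerivAt T L ((fun t : ℂ => iR s' + t • V) 0) := by simpa using hd
    have h3 := h2.comp_hasDerivAt (0 : ℂ) h1
    have h4 : HasDerivAt (T ∘ fun t : ℂ => iR s' + t • V) (-1) 0 := by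
      have a1 : HasDerivAt (fun t : ℂ => T (iR s') - t) (-1) 0 := by
        simpa using (hasDerivAt_id (0 : ℂ)).const_sub (T (iR s'))
      refine a1.congr_of_eventuallyEq ?_
      have a2 : ∀ᶠ t : ℂ in 𝓝 0, iR s' + t • V ∈ ball (iR s) δ :=
        h1.continuousAt.eventually (isOpen_ball.mem_nhds (by simpa using hs'))
      have a3 : ∀ᶠ t : ℂ in 𝓝 0, t ∈ ball (0 : ℂ) (σ / 2) :=
        ball_mem_nhds _ (by have := h.2.1; positivity)
      filter_upwards [a2, a3] with t b2 b3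
      exact cone2_inv h hs' b2 (mem_ball_zero_iff.1 b3).le
    exact h3.unique h4

theorem cone2_dq (ν : Fin n → ℝ) (v : Fin n → ℚ) : dr ν (cQ v) = (dq ν v : ℝ) := by
  simp [dr, dq, cQ]

theorem cone2_rat {ν : Fin n → ℝ} {v : Fin n → ℚ} (h1 : dq ν v = 1) (h2 : ¬ DenseZ ν) :
    ∃ (m k : Fin n → ℤ) (a : ℚ), dz m k = 1 ∧ dz m v ≠ 0 ∧ ∀ i, ν i = (a : ℝ) * m i := by
  let f : (Fin n → ℤ) →+ ℝ := AddMonoidHom.mk' (fun k => dz k ν) fun a b => dz_add_left a b ν
  rcases AddSubgroup.dense_or_cyclic f.range with hd | ⟨a, ha⟩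
  · exact absurd hd h2
  have h3 : ∀ i, ∃ z : ℤ, z • a = ν i := by
    intro i
    rw [← AddSubgroup.mem_closure_singleton, ← ha]
    exact ⟨Pi.single i 1, dz_single_left i ν⟩
  choose m hm using h3
  have hm' : ∀ i, ν i = a * m i := fun i => by rw [← hm i, zsmul_eq_mul, mul_comm]
  obtain ⟨k, hk⟩ : a ∈ f.range := by
    rw [ha]; exact AddSubgroup.subset_closure rfl
  have h4 : a * ((dz m v : ℚ) : ℝ) = 1 := by
    rw [← h1]; simp [dq, dz, hm', Finset.mul_sum, mul_assoc]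
  have h5 : a * ((dz m k : ℤ) : ℝ) = a * 1 := by
    have : dz k ν = a := hk
    conv_rhs => rw [mul_one, ← this]
    simp only [dz, hm', Int.cast_sum, Int.cast_mul, Int.cast_id, Finset.mul_sum]
    exact Finset.sum_congr rfl fun i _ => by ring
  have ha0 : a ≠ 0 := left_ne_zero_of_mul_eq_one h4
  have h6 : ((dz m v : ℚ) : ℝ) ≠ 0 := right_ne_zero_of_mul_eq_one h4
  refine ⟨m, k, (dz m v)⁻¹, by exact_mod_cast mul_left_cancel₀ ha0 h5, by exact_mod_cast h6,
    fun i => ?_⟩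
  rw [hm' i, Rat.cast_inv, eq_inv_of_mul_eq_one_left h4]

theorem cone2_A (hcl : T_CL) {Q : MP n} {v : Fin n → ℚ} {s : Fin n → ℝ} {δ σ κ : ℝ} {K : ℕ}
    {T : Cn n → ℂ} (h : Cone0 Q (cQ v) s δ σ κ K T) {s' : Fin n → ℝ} (hs : s' ∈ ball s δ)
    (hs2 : iR s' + T (iR s') • cQ v ∈ ball (iR s) δ) :
    ∃ s'', ConeSh Q (cQ v) s'' (cone2_nu (fderiv ℂ T (iR s'))) := by
  have hs' : iR s' ∈ ball (iR s) δ := cone2_mem.2 hs
  have hfd := (cone2_fd h hs).1
  have hinv := fun u t => cone2_inv h (u := u) (t := t)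
  obtain ⟨hδ, hσ, hκ, hK, hT, h0, hre, hall⟩ := h
  obtain ⟨s'', e⟩ : ∃ s'', iR s'' = iR s' + T (iR s') • cQ v := by
    refine ⟨_, Imag.eq_iR (fun i => ?_) |>.symm⟩
    simp [iR, cQ, hre s' hs']
  have ht := (hall _ hs').1
  obtain ⟨δ', hδ', hsub⟩ := Metric.isOpen_iff.1 isOpen_ball _ hs2
  rw [← e] at hsub
  refine ⟨s'', δ', σ, κ, K, T, ⟨hδ', hσ, hκ, hK, hT.mono hsub, ?_, fun a ha => hre a (hsub ha),
    fun u hu => hall u (hsub hu)⟩, fun η hη => ?_⟩
  · rw [e, hinv _ _ hs' hs2 ht, sub_self]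
  · obtain ⟨r, hr, hr1, -, hr2⟩ := cone2_strict hcl hT hs' hη
    refine ⟨min r δ', lt_min hr hδ', ?_⟩
    have key : ∀ p ∈ ball (iR s'') (min r δ'), p - T (iR s') • cQ v ∈ ball (iR s') r ∧
        T p = T (p - T (iR s') • cQ v) - T (iR s') := by
      intro p hp
      have a1 : p - T (iR s') • cQ v ∈ ball (iR s') r := by
        rw [mem_ball_iff_norm] at hp ⊢
        rw [e] at hp
        rw [sub_sub, add_comm]
        exact hp.trans_le (min_le_left _ _)
      refine ⟨a1, ?_⟩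
      have a2 := hinv _ _ (hr1 a1)
        (by rw [sub_add_cancel]; exact hsub (ball_subset_ball (min_le_right _ _) hp)) ht
      rwa [sub_add_cancel] at a2
    intro p hp p' hp'
    have a3 := hr2 _ (key p hp).1 _ (key p' hp').1
    rw [sub_sub_sub_cancel_right, hfd] at a3
    rw [(key p hp).2, (key p' hp').2]
    convert a3 using 2
    ring

theorem cone2_eval (Q : MP n) (f : Fin n → MP n) (u : Cn n) :
    eval u (aeval f Q) = eval (fun i => eval u (f i)) Q := by
  induction Q using MvPolynomial.induction_on with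
  | C a => simp
  | add p q hp hq => simp only [map_add, hp, hq]
  | mul_X p i hp => simp only [map_mul, hp, aeval_X, eval_X]

theorem cone2_B (himag : T_IMAG) {Q : MP n} {d : ℕ} (hQ : Q.IsHomogeneous d) {V : Cn n}
    {s : Fin n → ℝ} {δ σ κ : ℝ} {K : ℕ} {T : Cn n → ℂ} (h : Cone0 Q V s δ σ κ K T) {r : ℝ}
    (hr : 0 < r) (hrδ : r ≤ δ) {L : Cn n →L[ℂ] ℂ}
    (hL : ∀ s' ∈ ball s r, fderiv ℂ T (iR s') = L) (u : Cn n) (hu : L u = 0) : eval u Q = 0 := by
  obtain ⟨hδ, hσ, hκ, hK, hT, h0, hre, hall⟩ := h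
  have hm : ∀ s' ∈ ball s r, iR s' ∈ ball (iR s) δ := fun s' hs =>
    cone2_mem.2 (ball_subset_ball hrδ hs)
  have h1 : ∀ s' ∈ ball s r,
      HasFDerivAt (fun a => T (iR a) - L (iR a)) (0 : (Fin n → ℝ) →L[ℝ] ℂ) s' := by
    intro s' hs
    have a1 := (hT.differentiableAt (isOpen_ball.mem_nhds (hm s' hs))).hasFDerivAt
    rw [hL s' hs] at a1
    have a2 := (cone2_real a1).sub (cone2_real (L.hasFDerivAt (x := iR s')))
    rw [sub_self] at a2
    exact a2
  have h2 : ∀ s' ∈ ball s r, T (iR s') = L (iR s') - L (iR s) := by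
    intro s' hs
    have := isOpen_ball.is_const_of_fderiv_eq_zero (convex_ball s r).isPreconnected
      (fun a ha => (h1 a ha).differentiableAt.differentiableWithinAt)
      (fun a ha => (h1 a ha).fderiv) hs (mem_ball_self hr)
    simp only [h0] at this
    linear_combination this
  have h3 : ∀ w : Cn n, eval w (aeval (fun i => X i +
      (∑ j, X j * C (L (Pi.single j 1)) - C (L (iR s))) * C (V i) : Fin n → MP n) Q) =
      eval (w + (L w - L (iR s)) • V) Q := by
    intro w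
    rw [cone2_eval, cone2_lin L w]
    congr 2
    funext i
    simp
  have h4 := himag n _ (ball s r) isOpen_ball ⟨s, mem_ball_self hr⟩ fun s' hs => by
    rw [h3, ← h2 s' hs]; exact (hall _ (hm s' hs)).2.1
  have h5 : ∀ c : ℂ, c ≠ 0 → eval (u + c • (-L (iR s)) • V) Q = 0 := by
    intro c hc
    have a1 := h3 (c⁻¹ • u)
    rw [h4, map_zero, map_smul, hu, smul_zero, zero_sub] at a1
    have a2 := cone2_smul hQ c (c⁻¹ • u + (-L (iR s)) • V)
    rw [← a1, mul_zero, smul_add, smul_inv_smul₀ hc] at a2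
    exact a2
  have h6 : Continuous fun c : ℂ => eval (u + c • (-L (iR s)) • V) Q :=
    (continuous_eval' Q).comp (by fun_prop)
  have h7 := congrFun (Continuous.ext_on (dense_compl_singleton (0 : ℂ)) h6 continuous_const
    (fun c hc => h5 c hc)) 0
  simpa using h7

theorem t_cone2 (hcl : T_CL) (himag : T_IMAG) : T_CONE2 := by
  intro n Q d v s δ σ κ K T hQ h
  have hδ := h.1
  have hT := h.2.2.2.2.1
  have hdq : ∀ s' ∈ ball s δ, dq (cone2_nu (fderiv ℂ T (iR s'))) v = 1 := by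
    intro s' hs
    obtain ⟨a1, a2⟩ := cone2_fd h hs
    rw [a1, cone2_dq, neg_inj] at a2
    exact_mod_cast a2
  obtain ⟨r, hr, hrδ, hr2⟩ : ∃ r : ℝ, 0 < r ∧ r ≤ δ ∧
      ∀ s' ∈ ball s r, iR s' + T (iR s') • cQ v ∈ ball (iR s) δ := by
    have a1 : ContinuousAt T (iR s) :=
      (hT.differentiableAt (ball_mem_nhds _ hδ)).continuousAt
    have a2 : ContinuousAt (fun u => u + T u • cQ v) (iR s) := by fun_prop
    have a3 := a2.eventually (isOpen_ball.mem_nhds (show iR s + T (iR s) • cQ v ∈ ball (iR s) δ by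
      rw [h.2.2.2.2.2.1]; simpa using hδ))
    obtain ⟨r, hr, a4⟩ := Metric.eventually_nhds_iff_ball.1 a3
    exact ⟨min r δ, lt_min hr hδ, min_le_right _ _, fun s' hs =>
      a4 _ (cone2_mem.2 (ball_subset_ball (min_le_left _ _) hs))⟩
  have hsub : ball s r ⊆ ball s δ := ball_subset_ball hrδ
  by_cases hA : ∃ s' ∈ ball s r, DenseZ (cone2_nu (fderiv ℂ T (iR s')))
  · obtain ⟨s', hs, hD⟩ := hA
    obtain ⟨s'', h''⟩ := cone2_A hcl h (hsub hs) (hr2 s' hs)
    exact Or.inr ⟨s'', _, hdq s' (hsub hs), hD, h''⟩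
  push Not at hA
  left
  have hc : ContinuousOn (fun s' => fderiv ℂ T (iR s')) (ball s r) := by
    intro s' hs
    refine ContinuousAt.continuousWithinAt (Metric.continuousAt_iff.2 fun ε hε => ?_)
    obtain ⟨ρ, hρ, -, a1, -⟩ := cone2_strict hcl hT (cone2_mem.2 (hsub hs)) (half_pos hε)
    refine ⟨ρ, hρ, fun a ha => ?_⟩
    rw [dist_eq_norm]
    exact (a1 _ (cone2_mem.2 ha)).trans_lt (half_lt_self hε)
  have hconst : ∀ s' ∈ ball s r,
      cone2_nu (fderiv ℂ T (iR s')) = cone2_nu (fderiv ℂ T (iR s)) := by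
    intro s' hs
    funext i
    have a1 : ContinuousOn (fun s' => cone2_nu (fderiv ℂ T (iR s')) i) (ball s r) :=
      (Complex.continuous_re.comp_continuousOn (hc.clm_apply continuousOn_const)).neg
    have a2 := (convex_ball s r).isPreconnected.image _ a1
    refine (Set.countable_range ((↑) : ℚ → ℝ)).isTotallyDisconnected _ ?_ a2
      ⟨s', hs, rfl⟩ ⟨s, mem_ball_self hr, rfl⟩
    rintro _ ⟨a, ha, rfl⟩
    obtain ⟨m, k, q, -, -, b⟩ := cone2_rat (hdq a (hsub ha)) (hA a ha)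
    exact ⟨q * m i, by simp only [b i]; push_cast; rfl⟩
  have hL : ∀ s' ∈ ball s r, fderiv ℂ T (iR s') = fderiv ℂ T (iR s) := by
    intro s' hs
    refine ContinuousLinearMap.ext fun u => ?_
    rw [(cone2_fd h (hsub hs)).1, (cone2_fd h (mem_ball_self hδ)).1, hconst s' hs]
  obtain ⟨m, k, q, b1, b2, b3⟩ := cone2_rat (hdq s (mem_ball_self hδ)) (hA s (mem_ball_self hr))
  refine ⟨m, k, b1, b2, fun u hu => cone2_B himag hQ h hr hrδ hL u ?_⟩
  rw [(cone2_fd h (mem_ball_self hδ)).1, neg_eq_zero]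
  have : dr (cone2_nu (fderiv ℂ T (iR s))) u = (q : ℂ) * dz m u := by
    simp [dr, dz, b3, Finset.mul_sum, mul_assoc]
  rw [this, hu, mul_zero]

end Pool.Agent.P.MP_d2ed07_lc
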