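import Pool.Agent.P.MP_d2ed07_lc.Basic

/-!
Coprimality along a line.
-/

namespace Pool.Agent.P.MP_d2ed07_lc

open MvPolynomial Metric Filter Topology

variable {n : ℕ}

/-- the shear `X ↦ X + τ v` -/
noncomputable def cop_hom (v : Cn n) : P1 n →+* P1 n :=
  Polynomial.eval₂RingHom (aeval fun i => Polynomial.C (X i : MP n) +
    Polynomial.C (C (v i) : MP n) * Polynomial.X : MP n →ₐ[ℂ] P1 n).toRingHom Polynomial.X

theorem cop_C (v : Cn n) (g : MP n) : cop_hom v (Polynomial.C g) = lin v g :=
  Polynomial.eval₂_C _ _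

theorem cop_X (v : Cn n) : cop_hom v Polynomial.X = Polynomial.X := Polynomial.eval₂_X _ _

theorem cop_comp {v w : Cn n} (h : v + w = 0) :
    (cop_hom v).comp (cop_hom w) = RingHom.id _ := by
  have h1 : ∀ (u : Cn n) (a : ℂ), lin u (C a) = Polynomial.C (C a) := fun u a => by simp [lin]
  refine Polynomial.ringHom_ext' (MvPolynomial.ringHom_ext (fun a => ?_) fun i => ?_) ?_
  · simp only [RingHom.comp_apply, cop_C, h1, RingHom.id_apply]
  · have h2 : w i = -v i := eq_neg_of_add_eq_zero_right (congrFun h i)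
    have h3 : ∀ u : Cn n, lin u (X i) = Polynomial.C (X i : MP n) +
        Polynomial.C (C (u i) : MP n) * Polynomial.X := fun u => aeval_X _ _
    simp only [RingHom.comp_apply, cop_C, h3, map_add, map_mul, cop_X, h1, RingHom.id_apply, h2,
      map_neg]
    ring
  · simp only [RingHom.comp_apply, cop_X, RingHom.id_apply]

theorem t_cop : T_COP := by
  intro n P g v hP hd hg
  let Φ : P1 n ≃+* P1 n := RingEquiv.ofRingHom (cop_hom v) (cop_hom (-v))
    (cop_comp (add_neg_cancel v)) (cop_comp (neg_add_cancel v))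
  have hΦ : ∀ g, Φ (Polynomial.C g) = lin v g := cop_C v
  have h1 : Prime (lin v P) := by
    rw [← hΦ]
    exact (MulEquiv.prime_iff Φ).2 (Polynomial.prime_C_iff.2 hP)
  have h2 : ¬ lin v P ∣ lin v g := by
    rw [← hΦ, ← hΦ, map_dvd_iff Φ, Polynomial.C_dvd_iff_dvd_coeff]
    exact fun h => hg (by simpa using h 0)
  have h3 := h1.irreducible.isPrimitive hd.ne'
  let K := FractionRing (MP n)
  have h4 := (h3.irreducible_iff_irreducible_map_fraction_map (K := K)).1 h1.irreducible
  have h5 := Polynomial.resultant_ne_zero _ _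
    (h4.coprime_iff_not_dvd.2 fun h => h2 (h3.dvd_of_fraction_map_dvd_fraction_map h))
  have h6 := IsFractionRing.injective (MP n) K
  rw [Polynomial.natDegree_map_eq_of_injective h6, Polynomial.natDegree_map_eq_of_injective h6,
    Polynomial.resultant_map_map] at h5
  obtain ⟨A, B, -, -, h7⟩ := Polynomial.exists_mul_add_mul_eq_C_resultant (lin v P) (lin v g)
    le_rfl le_rfl (Or.inl hd.ne')
  exact ⟨A, B, _, (map_ne_zero_iff _ h6).1 h5, by rw [← h7]; ring⟩

end Pool.Agent.P.MP_d2ed07_lc
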