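import Pool.Agent.P.MP_d2ed07_lc.Basic

/-! Solutions deep inside a ray; rays annihilate algebraic monomials. -/

namespace Pool.Agent.P.MP_d2ed07_lc

open MvPolynomial Metric Filter Topology

theorem t_deep (hbc : T_BC) (hfix : T_FIX) : T_DEEP := by
  intro n F _ _ D v ⟨S, C, hS, C1, h⟩
  refine ⟨S, 32 * C + 32, hS, by linarith, fun x ρ L τ hx L1 hρ dτ H => ?_⟩
  obtain ⟨w, dw, hw⟩ := h (ball x ρ) (fun p => p + τ p • cQ v) L (convex_ball _ _) isOpen_ball
    (differentiableOn_id.add (dτ.smul_const _)) L1 fun p hp => ⟨(H p hp).1, (H p hp).2.1⟩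
  have CL : 1 ≤ C * L := one_le_mul_of_one_le_of_one_le C1 L1
  have ρ0 : 0 < ρ := by nlinarith
  have hτ : ∀ p ∈ ball x ρ, τ p ∈ half (C * L) := fun p hp =>
    lt_of_le_of_lt (by nlinarith) (H p hp).2.2
  obtain ⟨A, hA⟩ : ∃ A : Cn n → Cn n, A = fun p => w (p, τ p) - τ p • cQ v := ⟨_, rfl⟩
  have dA : DifferentiableOn ℂ A (ball x ρ) :=
    hA ▸ (dw.comp (differentiableOn_id.prodMk dτ) fun p hp => ⟨hp, hτ p hp⟩).sub (dτ.smul_const _)
  have bA : ∀ p ∈ ball x ρ, ∀ i, |(A p i).re| ≤ C * L := fun p hp i => by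
    refine le_of_eq_of_le ?_ ((hw p hp _ (hτ p hp)).2 i)
    simp [hA, cQ, mul_comm]
  have hb : closedBall x (ρ / 4) ⊆ ball x (ρ / 2) := closedBall_subset_ball (by linarith)
  obtain ⟨p, hp, e⟩ := hfix _ (fun p => A p + (2 * Real.pi * Complex.I : ℂ) • cZ fun i =>
    round (((x i).im - (A x i).im) / (2 * Real.pi))) x (ρ / 4) (by positivity)
    (fun p hp p' hp' => by
      rw [add_sub_add_right_eq_sub]
      refine (pi_norm_le_iff_of_nonneg (by positivity)).2 fun i => ?_
      refine ((hbc _ (fun p => A p i) x ρ (C * L + C * L) ρ0 (differentiableOn_pi.1 dA i)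
        fun q hq q' hq' => (abs_sub _ _).trans (add_le_add (bA q hq i) (bA q' hq' i))).2
        p (hb hp) p' (hb hp')).trans (mul_le_mul_of_nonneg_right ?_ (norm_nonneg _))
      rw [div_le_iff₀ ρ0]
      nlinarith)
    (by
      refine (pi_norm_le_iff_of_nonneg (by positivity)).2 fun i => ?_
      have h1 := bA x (mem_ball_self ρ0) i
      have h2 := abs_sub_round (((x i).im - (A x i).im) / (2 * Real.pi))
      generalize hk : round (((x i).im - (A x i).im) / (2 * Real.pi)) = k at h2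
      have π0 := Real.pi_pos
      have h3 : |(A x i).im + 2 * Real.pi * k - (x i).im| ≤ Real.pi := by
        have e : (A x i).im + 2 * Real.pi * k - (x i).im =
            -(2 * Real.pi) * (((x i).im - (A x i).im) / (2 * Real.pi) - k) := by field_simp; ring
        rw [e, abs_mul, abs_neg, abs_of_pos (by positivity)]
        nlinarith
      refine (Complex.norm_le_abs_re_add_abs_im _).trans
        ((add_le_add (h1.trans_eq' ?_) (h3.trans_eq' ?_)).trans ?_)
      · simp [cZ, hx i]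
      · simp [cZ, hk]
      · nlinarith [Real.pi_le_four])
  have hp' : p ∈ ball x ρ := closedBall_subset_ball (by linarith) hp
  refine D.sol_of_shift (hw p hp' _ (hτ p hp')).1
    (fun i => round (((x i).im - (A x i).im) / (2 * Real.pi))) ?_
  rw [← eq_sub_iff_add_eq, add_sub_right_comm]
  refine e.symm.trans ?_
  rw [hA]

theorem t_scale (hloct : T_LOCT) (hdeep : T_DEEP) : T_SCALE := by
  intro n F _ _ D v α hray α0 hev
  obtain ⟨S, C, hS, C1, H⟩ := hdeep n F D v hray
  obtain ⟨N, ε, R₀, N1, ε0, ε1, R3, hl⟩ := hloct n D.P (cQ v) S (α / 2) D.prime hS (half_pos α0)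
  obtain ⟨R, ⟨x, τ₀, σ, hx, h1, h2, h3⟩, hR, h4⟩ := (hev.and ((eventually_ge_atTop R₀).and
    ((isLittleO_log_rpow_atTop (half_pos α0)).bound (c := ε / (C * N)) (by positivity)))).exists
  have R0 : 0 < R := by linarith
  have ρ1 : 1 ≤ R ^ (α / 2) := Real.one_le_rpow (by linarith) (half_pos α0).le
  have e : R ^ (α / 2) * R ^ (α / 2) = R ^ α := by rw [← Real.rpow_add R0, add_halves]
  have l1 : 1 ≤ Real.log R := by
    rw [Real.le_log_iff_exp_le R0]
    linarith [Real.exp_one_lt_d9]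
  rw [Real.norm_of_nonneg (by linarith), Real.norm_of_nonneg (by linarith), div_mul_eq_mul_div,
    le_div_iff₀' (by positivity), mul_assoc] at h4
  obtain ⟨s, τ, -, a1, a2⟩ := hl R hR (R ^ (α / 2)) x (fun _ => τ₀) σ ρ1 continuous_const
    fun p hp => ⟨(h3 p (e ▸ hp)).1, h2, (h3 p (e ▸ hp)).2⟩
  refine H _ _ _ τ (hx.add (imag_iR s)) (one_le_mul_of_one_le_of_one_le N1 l1) h4 a1.1
    fun p hp => ⟨a1.2.1 p hp, (a2 p hp).2, ?_⟩
  have a3 := (abs_le.1 (Complex.abs_re_le_norm (τ p - τ₀))).1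
  rw [Complex.sub_re] at a3
  nlinarith [(a2 p hp).1]

theorem t_r2 (hrel1 : T_REL1) (htrans : T_TRANS) : T_R2 := by
  classical
  intro n F _ _ D v m ⟨S, C, hS, C1, h⟩ halg
  obtain ⟨J, c, c0, -, hc⟩ := hrel1 n F D _ (mon_ne_zero D.hy m) halg
  obtain ⟨x, L, L1, hx, hT⟩ := D.exists_tm (S := S ∪ {c 0})
    (hS.union fun g hg => Finset.mem_singleton.1 hg ▸ c0)
  obtain ⟨w, -, hw⟩ := h Set.univ (fun _ => x) L convex_univ isOpen_univ
    (differentiableOn_const _) L1 fun _ _ => ⟨hx, hT.subset Finset.subset_union_left⟩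
  have q0 : ∑ j ∈ Finset.range (J + 1), Polynomial.monomial j (eval x (c j)) ≠ 0 := fun h0 => by
    have := congrArg (Polynomial.eval 0) h0
    rw [Polynomial.eval_finsetSum, Finset.sum_range_succ'] at this
    exact hT.ne_zero (g := c 0) (by simp) (by simpa using this)
  obtain ⟨K, hK⟩ := ((Polynomial.finite_setOfPred_isRoot q0).image fun Y => |Real.log ‖Y‖|).bddAbove
  have key : ∀ l : ℝ, C * L < l → |((dz m v : ℚ) : ℝ)| * |l| ≤ K + (∑ i, |(m i : ℝ)|) * (C * L) := by
    intro l hl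
    obtain ⟨h1, h2⟩ := hw x trivial l hl
    have h3 := htrans n F D.z D.y ℕ (Finset.range (J + 1)) c (fun j => (j : ℤ) • m) D.hy
      (by simpa only [mon_smul, zpow_natCast] using hc) x _ (ex_ne_zero _) h1
    simp only [mon_smul, zpow_natCast, ← exp_dz] at h3
    have h4 := hK ⟨Complex.exp (dz m (w (x, l))), by
      simpa [Polynomial.eval_finsetSum] using h3, rfl⟩
    simp only [Complex.norm_exp, Real.log_exp, re_dz] at h4
    have e : ((dz m v : ℚ) : ℝ) * l = (dz m fun i => (w (x, l) i).re) -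
        ∑ i, (m i : ℝ) * ((w (x, l) i).re - (v i : ℝ) * (l : ℂ).re) := by
      simp only [dz, ← Finset.sum_sub_distrib, Complex.ofReal_re]
      push_cast
      rw [Finset.sum_mul]
      exact Finset.sum_congr rfl fun i _ => by ring
    rw [← abs_mul, e, Finset.sum_mul]
    refine (abs_sub _ _).trans (add_le_add h4 ((Finset.abs_sum_le_sum_abs _ _).trans
      (Finset.sum_le_sum fun i _ => ?_)))
    rw [abs_mul]
    exact mul_le_mul_of_nonneg_left (h2 i) (abs_nonneg _)
  by_contra h0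
  have h1 : 0 < |((dz m v : ℚ) : ℝ)| := abs_pos.2 (by exact_mod_cast h0)
  obtain ⟨l, l1, l2⟩ := ((eventually_gt_atTop (C * L)).and (eventually_gt_atTop
    ((K + (∑ i, |(m i : ℝ)|) * (C * L)) / |((dz m v : ℚ) : ℝ)|))).exists
  exact (((div_lt_iff₀' h1).1 l2).trans_le
    (mul_le_mul_of_nonneg_left (le_abs_self l) h1.le)).not_ge (key l l1)

end Pool.Agent.P.MP_d2ed07_lc
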