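import Pool.Agent.P.MP_d2ed07_lc.Basic

/-!
Derivations of a function field are determined by, and take arbitrary values on, a
transcendence basis.
-/

namespace Pool.Agent.P.MP_d2ed07_lc

open MvPolynomial Metric Filter Topology

open scoped IntermediateField.algebraAdjoinAdjoin in
theorem der0_basis {K F ι : Type} [Field K] [CharZero K] [Field F] [Algebra K F] {b : ι → F}
    (hb : IsTranscendenceBasis K b) :
    ∃ B : Module.Basis ι F (KaehlerDifferential K F),
      ∀ i, B i = KaehlerDifferential.D K F (b i) := by
  letI : Algebra (MvPolynomial ι K) (Algebra.adjoin K (Set.range b)) :=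
    hb.1.aevalEquiv.toRingEquiv.toRingHom.toAlgebra
  letI : Algebra (MvPolynomial ι K) F := (aeval b : MvPolynomial ι K →ₐ[K] F).toRingHom.toAlgebra
  haveI : IsScalarTower (MvPolynomial ι K) (Algebra.adjoin K (Set.range b)) F :=
    IsScalarTower.of_algebraMap_eq fun p => (hb.1.algebraMap_aevalEquiv p).symm
  haveI : IsScalarTower K (MvPolynomial ι K) F :=
    IsScalarTower.of_algebraMap_eq fun a => ((aeval b : MvPolynomial ι K →ₐ[K] F).commutes a).symm
  haveI : Algebra.FormallyEtale (MvPolynomial ι K) (Algebra.adjoin K (Set.range b)) :=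
    Algebra.FormallyEtale.of_equiv
      (AlgEquiv.ofRingEquiv (f := hb.1.aevalEquiv.toRingEquiv) fun _ => rfl)
  haveI : Algebra.FormallyEtale (Algebra.adjoin K (Set.range b))
      (IntermediateField.adjoin K (Set.range b)) :=
    Algebra.FormallyEtale.of_isLocalization (nonZeroDivisors _)
  haveI := hb.isAlgebraic_field
  haveI : CharZero (IntermediateField.adjoin K (Set.range b)) :=
    charZero_of_injective_algebraMap (algebraMap K _).injective
  haveI : Algebra.FormallyEtale (IntermediateField.adjoin K (Set.range b)) F :=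
    Algebra.FormallyEtale.of_isSeparable _ F
  haveI : Algebra.FormallyEtale (Algebra.adjoin K (Set.range b)) F :=
    Algebra.FormallyEtale.comp _ (IntermediateField.adjoin K (Set.range b)) _
  haveI : Algebra.FormallyEtale (MvPolynomial ι K) F :=
    Algebra.FormallyEtale.comp _ (Algebra.adjoin K (Set.range b)) _
  refine ⟨((KaehlerDifferential.mvPolynomialBasis K ι).baseChange F).map
    (KaehlerDifferential.tensorKaehlerEquivOfFormallyEtale K (MvPolynomial ι K) F), fun i => ?_⟩
  rw [Module.Basis.map_apply, Module.Basis.baseChange_apply,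
    KaehlerDifferential.mvPolynomialBasis_apply, ← LinearEquiv.eq_symm_apply,
    ← KaehlerDifferential.tensorKaehlerEquivOfFormallyEtale_symm_D_algebraMap]
  congr 2
  exact aeval_X b i

theorem t_der0 : T_DER0 := by
  intro K F _ _ _ _ _ ι b hb
  obtain ⟨B, hB⟩ := der0_basis hb
  constructor
  · intro d d' h
    refine (KaehlerDifferential.linearMapEquivDerivation K F).symm.injective (B.ext fun i => ?_)
    rw [hB]
    exact (d.liftKaehlerDifferential_comp_D _).trans
      ((congrFun h i).trans (d'.liftKaehlerDifferential_comp_D _).symm)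
  · intro f
    refine ⟨KaehlerDifferential.linearMapEquivDerivation K F (B.constr F f), funext fun i => ?_⟩
    exact (congrArg (B.constr F f) (hB i).symm).trans (B.constr_basis F f i)

theorem t_der1 (hder0 : T_DER0) : T_DER1 := by
  intro K F _ _ _ _ hfg a ha
  have h1 : AlgebraicIndepOn K id ({a} : Set F) := algebraicIndependent_unique_type_iff.2 ha
  obtain ⟨t, h2, h3⟩ := exists_isTranscendenceBasis_superset h1
  obtain ⟨d, hd⟩ := (hder0 K F hfg t _ h3).2 fun _ => 1
  exact ⟨d, congrFun hd ⟨a, h2 rfl⟩⟩

theorem t_der2 (hder0 : T_DER0) : T_DER2 := by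
  intro K F _ _ _ _ hfg
  obtain ⟨t, ht⟩ := exists_isTranscendenceBasis K F
  haveI : Algebra.EssFiniteType K F := IntermediateField.fg_top_iff.1 hfg
  haveI : Finite t := finite_of_isTranscendenceBasis ht
  haveI := Fintype.ofFinite t
  let φ : Derivation K F F →ₗ[F] (t → F) :=
    { toFun := fun d i => d i.1, map_add' := fun _ _ => rfl, map_smul' := fun _ _ => rfl }
  let e : Derivation K F F ≃ₗ[F] (t → F) := LinearEquiv.ofBijective φ (hder0 K F hfg t _ ht)
  refine ⟨Module.Finite.equiv e.symm, ?_⟩
  rw [e.finrank_eq, Module.finrank_fintype_fun_eq_card, ← ht.cardinalMk_eq_trdeg,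
    Cardinal.mk_fintype]

end Pool.Agent.P.MP_d2ed07_lc
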