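import Pool.Agent.P.MP_d2ed07_lc.Basic

/-! Rank and constants of the derivations compatible with the exponential. -/

namespace Pool.Agent.P.MP_d2ed07_lc

open MvPolynomial Metric Filter Topology

variable {n : ℕ} {F : Type} [Field F] [Algebra ℂ F] {z y : Fin n → F}

theorem g2a_mon (hy : ∀ i, y i ≠ 0) {d : Derivation ℂ F F} (hd : d ∈ expDer z y)
    (m : Fin n → ℤ) : d (mon y m) = mon y m * d (dz m z) := by
  classical
  have hd' : ∀ i, d (y i) = y i * d (z i) := hd
  have : ∀ s : Finset (Fin n), d (∏ i ∈ s, y i ^ m i) =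
      (∏ i ∈ s, y i ^ m i) * d (∑ i ∈ s, (m i : F) * z i) := fun s => by
    induction s using Finset.induction_on with
    | empty => simp
    | insert i s hi ih =>
      rw [Finset.prod_insert hi, Finset.sum_insert hi, d.leibniz, ih, d.leibniz_zpow, hd', map_add,
        d.leibniz, d.map_intCast, zpow_sub_one₀ (hy i)]
      simp only [smul_eq_mul, zsmul_eq_mul]
      field_simp [hy i]
      ring
  exact this Finset.univ

/-- the common constants -/
def g2a_C (z y : Fin n → F) : IntermediateField ℂ F where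
  carrier := {a | ∀ d ∈ expDer z y, d a = 0}
  mul_mem' ha hb d hd := by rw [d.leibniz, ha d hd, hb d hd]; simp
  add_mem' ha hb d hd := by rw [map_add, ha d hd, hb d hd, add_zero]
  algebraMap_mem' c d _ := d.map_algebraMap c
  inv_mem' a ha d hd := by rw [d.leibniz_inv, ha d hd, smul_zero]

theorem g2a_rank [Module.Finite F (Derivation ℂ F F)] (z y : Fin n → F) :
    Module.finrank F (Derivation ℂ F F) ≤ Module.finrank F (expDer z y) + n := by
  let φ : Derivation ℂ F F →ₗ[F] (Fin n → F) :=
    { toFun := fun d i => d (y i) - y i * d (z i)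
      map_add' := fun a b => by
        funext i
        simp only [Derivation.coe_add, Pi.add_apply]; ring
      map_smul' := fun c a => by
        funext i
        simp only [Derivation.coe_smul, Pi.smul_apply, smul_eq_mul, RingHom.id_apply]; ring }
  have hk : LinearMap.ker φ = expDer z y := by
    ext d
    rw [LinearMap.mem_ker, funext_iff]
    exact forall_congr' fun i => sub_eq_zero
  have h1 := φ.finrank_range_add_finrank_ker
  have h2 := (LinearMap.range φ).finrank_le
  rw [Module.finrank_fin_fun] at h2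
  rw [hk] at h1
  omega

theorem g2a_ax (has : T_AS) [Module.Finite F (Derivation ℂ F F)]
    (hfg : (⊤ : IntermediateField ℂ F).FG) (hy : ∀ i, y i ≠ 0) (J : Finset (Fin n))
    (hJ : ∀ m : Fin n → ℤ, (∀ i ∉ J, m i = 0) → dz m z ∈ g2a_C z y → m = 0) :
    ((J.card + Module.finrank F (expDer z y) : ℕ) : Cardinal) ≤ Algebra.trdeg (g2a_C z y) F := by
  classical
  let b := Module.finBasis F (expDer z y)
  have h := has F hfg (Fin (Module.finrank F (expDer z y))) J (fun l => (b l).1) (g2a_C z y)
    (fun i => z i) (fun i => y i)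
    (b.linearIndependent.map' (expDer z y).subtype (expDer z y).ker_subtype)
    (fun a => ⟨fun h l => h _ (b l).2, fun h d hd => ?_⟩) (fun i => hy i) (fun l i => (b l).2 i)
    fun m hm => ?_
  · rwa [Fintype.card_coe, Fintype.card_fin] at h
  · let L : expDer z y →ₗ[F] F :=
      { toFun := fun d => d.1 a, map_add' := fun _ _ => rfl, map_smul' := fun _ _ => rfl }
    have : L = 0 := b.ext h
    exact LinearMap.congr_fun this ⟨d, hd⟩
  · have h0 := hJ (fun i => if h : i ∈ J then m ⟨i, h⟩ else 0) (fun i hi => dif_neg hi) (by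
      convert hm using 1
      rw [dz, ← Finset.sum_subset (Finset.subset_univ J) fun i _ hi => by simp [hi],
        ← Finset.sum_coe_sort]
      exact Finset.sum_congr rfl fun i _ => by simp)
    funext i
    simpa using congrFun h0 i

theorem g2a_rot (hy : ∀ i, y i ≠ 0) (hr : SRot z y) (J : Finset (Fin n)) (hJ : J.card < n)
    (h : ∀ i ∉ J, ∃ m : Fin n → ℤ, (∀ j ∉ J, j ≠ i → m j = 0) ∧ m i ≠ 0 ∧ dz m z ∈ g2a_C z y) :
    ((n - J.card + 1 : ℕ) : Cardinal) ≤ Algebra.trdeg ℂ (g2a_C z y) := by
  classical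
  have hc : Fintype.card {i // i ∉ J} = n - J.card := by simp
  let e : Fin (n - J.card) ≃ {i // i ∉ J} := (Fintype.equivFinOfCardEq hc).symm
  choose M h1 h2 h3 using fun r => h (e r).1 (e r).2
  obtain ⟨s, hs, hi⟩ := hr (n - J.card) M (by omega) (Fintype.linearIndependent_iff.2 fun g hg r => by
    have := congrFun hg (e r).1
    rw [Finset.sum_apply, Finset.sum_eq_single r (fun r' _ hr => by
      rw [Pi.smul_apply, h1 r' _ (e r).2 fun h => hr (e.injective (Subtype.ext h)).symm,
        smul_zero]) (by simp)] at this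
    exact (mul_eq_zero.1 this).resolve_right (h2 r))
  have hm : ∀ j : Fin (n - J.card) ⊕ Fin (n - J.card),
      Sum.elim (fun r => dz (M r) z) (fun r => mon y (M r)) j ∈ g2a_C z y := by
    rintro (r | r)
    · exact h3 r
    · intro d hd
      rw [Sum.elim_inr, g2a_mon hy hd, h3 r d hd, mul_zero]
  have := (AlgebraicIndependent.of_comp (x := fun j : s => (⟨_, hm j⟩ : g2a_C z y))
    (g2a_C z y).val hi).cardinalMk_le_trdeg
  rwa [Cardinal.mk_coe_finset, hs] at this

theorem t_g2a (hder2 : T_DER2) (has : T_AS) : T_G2A := by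
  intro n F _ _ z y hy hg hr
  classical
  have hfg : (⊤ : IntermediateField ℂ F).FG :=
    (show _ = ⊤ from hg) ▸ IntermediateField.fg_adjoin_of_finite (Set.finite_range _)
  obtain ⟨_, ht⟩ := hder2 ℂ F hfg
  obtain ⟨J, hJ, hmax⟩ := Finset.exists_max_image (Finset.univ.filter fun J : Finset (Fin n) =>
    ∀ m : Fin n → ℤ, (∀ i ∉ J, m i = 0) → dz m z ∈ g2a_C z y → m = 0) Finset.card
    ⟨∅, Finset.mem_filter.2 ⟨Finset.mem_univ _, fun m hm _ => funext fun i => hm i (by simp)⟩⟩
  replace hJ := (Finset.mem_filter.1 hJ).2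
  have h1 := g2a_rank z y
  have h2 := g2a_ax has hfg hy J hJ
  have h3 := (trdeg_add_eq ℂ (g2a_C z y) (A := F)).trans ht.symm
  have h4 : J.card < n → _ := fun hlt => g2a_rot hy hr J hlt fun i hi => by
    by_contra hc
    have := hmax (insert i J) (Finset.mem_filter.2 ⟨Finset.mem_univ _, fun m hm hz => by
      have h5 : ∀ j ∉ J, j ≠ i → m j = 0 := fun j hj hji => hm j (by simp [hj, hji])
      have h6 : m i = 0 := by
        by_contra h6
        exact hc ⟨m, h5, h6, hz⟩
      exact hJ m (fun j hj => if h : j = i then h ▸ h6 else h5 j hj h) hz⟩)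
    rw [Finset.card_insert_of_notMem hi] at this
    omega
  have h5 : J.card ≤ n := by simpa using J.card_le_univ
  obtain ⟨a, ha⟩ := Cardinal.lt_aleph0.1 ((le_self_add.trans_eq h3).trans_lt Cardinal.natCast_lt_aleph0)
  obtain ⟨b, hb⟩ := Cardinal.lt_aleph0.1 ((le_add_self.trans_eq h3).trans_lt Cardinal.natCast_lt_aleph0)
  rw [ha] at h3 h4
  rw [hb] at h2 h3
  norm_cast at h2 h3 h4
  have h6 : a = 0 ∧ Module.finrank F (expDer z y) + n = Module.finrank F (Derivation ℂ F F) := by
    by_cases h : J.card < n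
    · have := h4 h; omega
    · omega
  refine ⟨by rw [h6.2, ht], fun c hc => ?_⟩
  have : Algebra.IsAlgebraic ℂ (g2a_C z y) := trdeg_eq_zero_iff.1 (by rw [ha, h6.1]; rfl)
  obtain ⟨w, hw⟩ := (IsAlgClosed.algebraMap_bijective_of_isIntegral (k := ℂ)).2
    (⟨c, hc⟩ : g2a_C z y)
  exact ⟨w, (congrArg Subtype.val hw).symm⟩

end Pool.Agent.P.MP_d2ed07_lc
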