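import Pool.Agent.P.MP_d2ed07_lc.Basic

/-!
Existence of a frame.
-/

namespace Pool.Agent.P.MP_d2ed07_lc

open MvPolynomial Metric Filter Topology

variable {n : ℕ}

/-- coordinates on a subspace -/
theorem g2b_T {F : Type} [Field F] (A : Submodule F (Fin n → F)) :
    ∃ T : Finset (Fin n), T.card = Module.finrank F A ∧
      (∀ u ∈ A, (∀ i ∈ T, u i = 0) → u = 0) ∧ ∀ c : T → F, ∃ u ∈ A, ∀ l : T, u l = c l := by
  classical
  let φ : Fin n → Module.Dual F A := fun i => (LinearMap.proj i).comp A.subtype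
  obtain ⟨b, -, -, h1, h2⟩ := exists_linearIndepOn_extension (linearIndepOn_empty F φ)
    (Set.empty_subset Set.univ)
  have inj : ∀ u ∈ A, (∀ i ∈ b.toFinset, u i = 0) → u = 0 := by
    intro u hu h
    funext j
    have h3 : Submodule.span F (φ '' b) ≤ LinearMap.ker (Module.Dual.eval F A ⟨u, hu⟩) := by
      rw [Submodule.span_le]
      rintro _ ⟨i, hi, rfl⟩
      exact h i (Set.mem_toFinset.2 hi)
    exact h3 (h1 ⟨j, trivial, rfl⟩)
  let π : A →ₗ[F] (b.toFinset → F) := LinearMap.pi fun l => φ l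
  have hπ : Function.Injective π := by
    rw [← LinearMap.ker_eq_bot, LinearMap.ker_eq_bot']
    intro u hu
    exact Subtype.ext (inj u u.2 fun i hi => congrFun hu ⟨i, hi⟩)
  have e : Module.finrank F A = Module.finrank F (b.toFinset → F) := by
    apply le_antisymm (LinearMap.finrank_le_finrank_of_injective hπ)
    have h4 := (LinearIndependent.fintype_card_le_finrank h2)
    rw [Subspace.dual_finrank_eq] at h4
    rwa [Module.finrank_fintype_fun_eq_card, Fintype.card_coe, Set.toFinset_card]
  refine ⟨b.toFinset, ?_, inj, fun c => ?_⟩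
  · rw [e, Module.finrank_fintype_fun_eq_card, Fintype.card_coe]
  · obtain ⟨u, hu⟩ := (LinearMap.injective_iff_surjective_of_finrank_eq_finrank e).1 hπ c
    exact ⟨u, u.2, fun l => congrFun hu l⟩

/-- a nonzero minor -/
theorem g2b_rows {F ι κ : Type} [Field F] [Fintype ι] [DecidableEq ι] (r : κ → ι → F)
    (h : ∀ v : ι → F, (∀ k, ∑ i, v i * r k i = 0) → v = 0) :
    ∃ a : ι → κ, (Matrix.of fun i => r (a i)).det ≠ 0 := by
  have h1 : Submodule.span F (Set.range r) = ⊤ := by
    by_contra h1
    obtain ⟨φ, h2, h3⟩ := Submodule.exists_le_ker_of_lt_top _ (lt_top_iff_ne_top.2 h1)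
    have h4 : ∀ w : ι → F, φ w = ∑ i, φ (Pi.single i 1) * w i := fun w => by
      conv_lhs => rw [pi_eq_sum_univ' w, map_sum]
      exact Finset.sum_congr rfl fun i _ => by rw [map_smul, smul_eq_mul, mul_comm]
    have h5 := h (fun i => φ (Pi.single i 1)) fun k => by
      rw [← h4]; exact h3 (Submodule.subset_span ⟨k, rfl⟩)
    refine h2 (LinearMap.ext fun w => ?_)
    rw [h4]
    exact Finset.sum_eq_zero fun i _ => by rw [show φ (Pi.single i 1) = 0 from congrFun h5 i, zero_mul]
  obtain ⟨f, h2, -, h3⟩ := Submodule.exists_fun_fin_finrank_span_eq F (Set.range r)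
  choose a ha using h2
  have e : ι ≃ Fin (Module.finrank F (Submodule.span F (Set.range r))) :=
    Fintype.equivFinOfCardEq (by rw [h1, finrank_top, Module.finrank_fintype_fun_eq_card])
  refine ⟨fun i => a (e i), ?_⟩
  rw [← isUnit_iff_ne_zero, ← Matrix.isUnit_iff_isUnit_det,
    ← Matrix.linearIndependent_rows_iff_isUnit]
  have h4 : (Matrix.of fun i => r (a (e i))).row = f ∘ e := funext fun i => ha (e i)
  rw [h4]
  exact h3.comp e e.injective

theorem g2b_split {R : Type} [AddCommMonoid R] (T : Finset (Fin n)) (f : Fin n → R) :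
    ∑ i, f i = ∑ i : T, f i + ∑ i : {i // i ∉ T}, f i := by
  refine (Fintype.sum_subtype_add_sum_subtype (· ∈ T) f).symm.trans ?_
  exact congrArg₂ (· + ·)
    (Finset.sum_congr (Finset.ext fun _ => by simp only [Finset.mem_univ]) fun _ _ => rfl)
    (Finset.sum_congr (Finset.ext fun _ => by simp only [Finset.mem_univ]) fun _ _ => rfl)

section
variable {F : Type} [Field F] [Algebra ℂ F]

/-- the annihilator of the Jacobian rows -/
def g2b_A (z y : Fin n → F) : Submodule F (Fin n → F) where
  carrier := {u | ∀ g, ev z y g = 0 → ∑ i, u i * ev z y (del i g) = 0}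
  add_mem' := by
    intro a b ha hb g hg
    simp only [Pi.add_apply, add_mul, Finset.sum_add_distrib, ha g hg, hb g hg, add_zero]
  zero_mem' := by intro g _; simp
  smul_mem' := by
    intro c a ha g hg
    simp only [Pi.smul_apply, smul_eq_mul, mul_assoc, ← Finset.mul_sum, ha g hg, mul_zero]

theorem g2b_mem {z y : Fin n → F} {d : Derivation ℂ F F} (hd : d ∈ expDer z y) :
    (fun i => d (z i)) ∈ g2b_A z y := fun g hg => by
  rw [← expDer_ev hd, hg, map_zero]

theorem g2b_rank (hdu : T_DU) {z y : Fin n → F} (hg : Gen z y) :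
    Module.finrank F (g2b_A z y) = Module.finrank F (expDer z y) := by
  let Φ : expDer z y →ₗ[F] g2b_A z y :=
    { toFun := fun d => ⟨fun i => d.1 (z i), g2b_mem d.2⟩
      map_add' := fun _ _ => rfl
      map_smul' := fun _ _ => rfl }
  refine (LinearEquiv.ofBijective Φ ⟨?_, ?_⟩).finrank_eq.symm
  · rw [← LinearMap.ker_eq_bot, LinearMap.ker_eq_bot']
    intro d hd
    have h1 : ∀ i, d.1 (z i) = 0 := fun i => congrFun (congrArg Subtype.val hd) i
    refine Subtype.ext (Derivation.ext fun x => ?_)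
    have hx : x ∈ IntermediateField.adjoin ℂ (Set.range (Sum.elim z y)) := by
      rw [show IntermediateField.adjoin ℂ (Set.range (Sum.elim z y)) = ⊤ from hg]; trivial
    change d.1 x = 0
    induction hx using IntermediateField.adjoin_induction with
    | mem x hx =>
      obtain ⟨i | i, rfl⟩ := hx
      · exact h1 i
      · exact (d.2 i).trans (by rw [h1, mul_zero])
    | algebraMap c => exact d.1.map_algebraMap c
    | add x y _ _ hx hy => rw [map_add, hx, hy, add_zero]
    | inv x _ hx => rw [Derivation.leibniz_inv, hx, smul_zero]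
    | mul x y _ _ hx hy => rw [Derivation.leibniz, hx, hy, smul_zero, smul_zero, add_zero]
  · rintro ⟨u, hu⟩
    obtain ⟨d, hd⟩ := hdu F _ (Sum.elim z y) (Sum.elim u fun i => y i * u i) hg fun g h => by
      rw [← hu g h, Fintype.sum_sum_type, ← Finset.sum_add_distrib]
      refine Finset.sum_congr rfl fun i _ => ?_
      simp only [Sum.elim_inl, Sum.elim_inr, ev, del, map_add, map_mul, aeval_X]; ring
    have h1 : ∀ i, d (z i) = u i := fun i => hd (Sum.inl i)
    exact ⟨⟨d, fun i => (hd (Sum.inr i)).trans (by rw [h1]; rfl)⟩, Subtype.ext (funext h1)⟩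

theorem g2b_DD (z y : Fin n → F) (u : Fin n → MP2 n) (g : MP2 n) :
    ev z y (DD u g) = ∑ i, ev z y (u i) * ev z y (del i g) := by
  simp only [ev, DD, map_sum, map_mul]

end

/-- the vector fields of the frame -/
theorem g2b_frame0 (T : Finset (Fin n)) (f : {i // i ∉ T} → MP2 n) :
    ∃ U Δ, Frame0 T f U Δ := by
  classical
  let M : Matrix {i // i ∉ T} {i // i ∉ T} (MP2 n) := Matrix.of fun a i => del i.1 (f a)
  let U : T → Fin n → MP2 n := fun l i => if h : i ∈ T then (if l = ⟨i, h⟩ then M.det else 0)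
    else -(M.adjugate.mulVec fun a => del l.1 (f a)) ⟨i, h⟩
  have h1 : ∀ l l' : T, U l l'.1 = if l = l' then M.det else 0 := fun l l' => dif_pos l'.2
  refine ⟨U, M.det, rfl, h1, fun l a => ?_⟩
  have h2 : ∀ i : {i // i ∉ T}, U l i.1 = -(M.adjugate.mulVec fun a => del l.1 (f a)) i :=
    fun i => dif_neg i.2
  have h3 := congrFun (Matrix.mulVec_mulVec (fun a => del l.1 (f a)) M M.adjugate) a
  rw [Matrix.mul_adjugate, Matrix.smul_mulVec, Matrix.one_mulVec] at h3
  rw [DD, g2b_split T]
  simp only [h1, h2, ite_mul, zero_mul, Finset.sum_ite_eq, Finset.mem_univ, if_true, neg_mul,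
    Finset.sum_neg_distrib]
  rw [← sub_eq_add_neg, sub_eq_zero]
  refine h3.symm.trans ?_
  rw [Matrix.mulVec, dotProduct]
  exact Finset.sum_congr rfl fun i _ => mul_comm _ _

theorem t_g2b (hdu : T_DU) : T_G2B := by
  classical
  intro n F _ _ z y hg hr
  obtain ⟨T, hT, inj, surj⟩ := g2b_T (g2b_A z y)
  obtain ⟨a, ha⟩ := g2b_rows (ι := {i // i ∉ T}) (κ := {g // ev z y g = 0})
    (fun g i => ev z y (del i.1 g.1)) fun v hv => by
      let w : Fin n → F := fun i => if h : i ∈ T then 0 else v ⟨i, h⟩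
      have w1 : ∀ i ∈ T, w i = 0 := fun i hi => dif_pos hi
      have w2 : ∀ i : {i // i ∉ T}, w i = v i := fun i => dif_neg i.2
      have h1 := inj w (fun g hg => by
        rw [g2b_split T, Finset.sum_eq_zero fun i _ => by rw [w1 _ i.2, zero_mul], zero_add]
        simp only [w2]
        exact hv ⟨g, hg⟩) w1
      funext i
      exact (w2 i).symm.trans (congrFun h1 i.1)
  obtain ⟨U, Δ, h0⟩ := g2b_frame0 T fun i => (a i).1
  have hΔ : ev z y Δ = (Matrix.of fun i j : {i // i ∉ T} => ev z y (del j.1 (a i).1)).det := by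
    rw [h0.1, ev, AlgHom.map_det]
    rfl
  have hU : ∀ l l' : T, ev z y (U l l'.1) = if l = l' then ev z y Δ else 0 := fun l l' => by
    rw [h0.2.1]
    split_ifs
    · rfl
    · exact map_zero _
  have key : ∀ l, (fun i => ev z y (U l i)) ∈ g2b_A z y := by
    intro l
    obtain ⟨u, hu, hu'⟩ := surj fun l' => ev z y (U l l'.1)
    have h1 : (fun i : {i // i ∉ T} => ev z y (U l i.1) - u i.1) = 0 := by
      refine Matrix.eq_zero_of_mulVec_eq_zero ha (funext fun b => ?_)
      have h2 := g2b_DD z y (U l) (a b).1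
      rw [h0.2.2, show ev z y 0 = 0 from map_zero _] at h2
      have h3 := sub_eq_zero.2 (h2.symm.trans (hu _ (a b).2).symm)
      rw [← Finset.sum_sub_distrib, g2b_split T,
        Finset.sum_eq_zero fun i _ => by rw [hu', sub_self], zero_add] at h3
      refine Eq.trans ?_ h3
      rw [Matrix.mulVec, dotProduct]
      exact Finset.sum_congr rfl fun i _ => by simp only [Matrix.of_apply]; ring
    convert hu using 1
    funext i
    by_cases h : i ∈ T
    · exact (hu' ⟨i, h⟩).symm
    · exact sub_eq_zero.1 (congrFun h1 ⟨i, h⟩)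
  refine ⟨T, _, U, Δ, h0, fun i => (a i).2, hΔ ▸ ha, fun l g hg => ?_, ?_, fun d hd i => ?_⟩
  · rw [g2b_DD]
    exact key l g hg
  · rw [hT, g2b_rank hdu hg]
    exact hr
  · have h1 := inj _ ((g2b_A z y).sub_mem ((g2b_A z y).smul_mem (ev z y Δ) (g2b_mem hd))
      ((g2b_A z y).sum_mem (t := Finset.univ) fun l _ =>
        (g2b_A z y).smul_mem (d (z l.1)) (key l))) fun j hj => by
        simp only [Pi.sub_apply, Pi.smul_apply, Finset.sum_apply, smul_eq_mul, hU _ ⟨j, hj⟩,
          mul_ite, mul_zero, Finset.sum_ite_eq', Finset.mem_univ, if_true]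
        ring
    have h2 := congrFun h1 i
    simpa only [Pi.sub_apply, Pi.smul_apply, Finset.sum_apply, smul_eq_mul, Pi.zero_apply,
      sub_eq_zero] using h2

end Pool.Agent.P.MP_d2ed07_lc
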