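import Pool.Agent.P.MP_d2ed07_lc.Basic

/-!
Tangent vectors give derivations; invariant prime ideals through a good point are generic.
-/

namespace Pool.Agent.P.MP_d2ed07_lc

open MvPolynomial Metric Filter Topology

section tau
variable {F σ : Type} [Field F] [Algebra ℂ F] [Fintype σ]

/-- the tangent functional -/
noncomputable def g2d_tau (a w : σ → F) (g : MvPolynomial σ ℂ) : F :=
  ∑ s, w s * aeval a (pderiv s g)

theorem g2d_tau_add (a w : σ → F) (g h : MvPolynomial σ ℂ) :
    g2d_tau a w (g + h) = g2d_tau a w g + g2d_tau a w h := by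
  simp [g2d_tau, mul_add, Finset.sum_add_distrib]

theorem g2d_tau_mul (a w : σ → F) (g h : MvPolynomial σ ℂ) :
    g2d_tau a w (g * h) = aeval a g * g2d_tau a w h + aeval a h * g2d_tau a w g := by
  simp only [g2d_tau, Derivation.leibniz, smul_eq_mul, map_add, map_mul, Finset.mul_sum,
    ← Finset.sum_add_distrib]
  exact Finset.sum_congr rfl fun s _ => by ring

theorem g2d_tau_C (a w : σ → F) (c : ℂ) : g2d_tau a w (C c) = 0 := by simp [g2d_tau]

theorem g2d_tau_X (a w : σ → F) (i : σ) : g2d_tau a w (X i) = w i := by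
  classical
  simp only [g2d_tau, pderiv_X, Pi.single_apply]
  rw [Finset.sum_eq_single i] <;> simp +contextual [eq_comm]

theorem g2d_tau_rename {ι : Type} (a w : σ → F) (j : ι → σ) (hw : ∀ b, w (j b) = 0)
    (r : MvPolynomial ι ℂ) : g2d_tau a w (rename j r) = 0 := by
  induction r using MvPolynomial.induction_on with
  | C c => rw [rename_C, g2d_tau_C]
  | add p q hp hq => rw [map_add, g2d_tau_add, hp, hq, add_zero]
  | mul_X p i hp => rw [map_mul, rename_X, g2d_tau_mul, hp, g2d_tau_X, hw]; simp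

theorem g2d_aeval_eval₂ {ι : Type} (a : σ → F) (j : ι → σ) (i : σ)
    (p : Polynomial (MvPolynomial ι ℂ)) :
    aeval a (p.eval₂ (rename j : MvPolynomial ι ℂ →ₐ[ℂ] MvPolynomial σ ℂ).toRingHom (X i)) =
      p.eval₂ (aeval (a ∘ j) : MvPolynomial ι ℂ →ₐ[ℂ] F).toRingHom (a i) := by
  induction p using Polynomial.induction_on' with
  | add p q hp hq => simp only [Polynomial.eval₂_add, map_add, hp, hq]
  | monomial k r => simp [Polynomial.eval₂_monomial, aeval_rename]

theorem g2d_tau_eval₂ {ι : Type} (a w : σ → F) (j : ι → σ) (hw : ∀ b, w (j b) = 0) (i : σ)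
    (p : Polynomial (MvPolynomial ι ℂ)) :
    g2d_tau a w (p.eval₂ (rename j : MvPolynomial ι ℂ →ₐ[ℂ] MvPolynomial σ ℂ).toRingHom (X i)) =
      w i * (Polynomial.derivative p).eval₂
        (aeval (a ∘ j) : MvPolynomial ι ℂ →ₐ[ℂ] F).toRingHom (a i) := by
  induction p using Polynomial.induction_on with
  | C r => simp [g2d_tau_rename a w j hw]
  | add p q hp hq => simp only [Polynomial.eval₂_add, g2d_tau_add, hp, hq, map_add, mul_add]
  | monomial k r h =>
    rw [pow_succ, ← mul_assoc]
    generalize Polynomial.C r * Polynomial.X ^ k = q at h ⊢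
    rw [Polynomial.eval₂_mul, Polynomial.eval₂_X, g2d_tau_mul, h,
      g2d_aeval_eval₂, g2d_tau_X, Polynomial.derivative_mul, Polynomial.eval₂_add,
      Polynomial.eval₂_mul, Polynomial.eval₂_mul, Polynomial.eval₂_X, Polynomial.derivative_X,
      Polynomial.eval₂_one, aeval_X]
    ring

theorem g2d_min {R : Type} [CommRing R] [IsDomain R] [CharZero R] (φ : R →+* F)
    (hφ : Function.Injective φ) (x : F) (p₀ : Polynomial R) (h0 : p₀ ≠ 0)
    (hp₀ : p₀.eval₂ φ x = 0) :
    ∃ p : Polynomial R, p.eval₂ φ x = 0 ∧ (Polynomial.derivative p).eval₂ φ x ≠ 0 := by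
  classical
  let P : ℕ → Prop := fun k => ∃ p : Polynomial R, p ≠ 0 ∧ p.eval₂ φ x = 0 ∧ p.natDegree = k
  have hP : ∃ k, P k := ⟨_, p₀, h0, hp₀, rfl⟩
  obtain ⟨p, hp0, hp, hk⟩ := Nat.find_spec hP
  have hdeg : p.natDegree ≠ 0 := by
    intro h
    rw [Polynomial.eq_C_of_natDegree_eq_zero h, Polynomial.eval₂_C] at hp
    apply hp0
    rw [Polynomial.eq_C_of_natDegree_eq_zero h, hφ (hp.trans (map_zero φ).symm), map_zero]
  refine ⟨p, hp, fun h => ?_⟩
  refine Nat.find_min hP (hk ▸ Polynomial.natDegree_derivative_lt hdeg) ⟨_, fun h' => ?_, h, rfl⟩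
  exact hdeg (Polynomial.natDegree_eq_zero_of_derivative_eq_zero h')

theorem g2d_fg (a : σ → F) (ha : IntermediateField.adjoin ℂ (Set.range a) = ⊤) :
    (⊤ : IntermediateField ℂ F).FG := by
  classical
  exact ⟨Finset.univ.image a, by simpa using ha⟩

end tau

theorem t_du (hder0 : T_DER0) : T_DU := by
  intro F _ _ σ _ a u ha hu
  classical
  have halg : Algebra.IsAlgebraic (Algebra.adjoin ℂ (Set.range a)) F := by
    rw [← IntermediateField.isAlgebraic_adjoin_iff_top, ha, Algebra.isAlgebraic_iff_isIntegral]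
    exact Algebra.isIntegral_of_surjective IntermediateField.topEquiv.surjective
  obtain ⟨t, hts, ht⟩ := exists_isTranscendenceBasis_subset (R := ℂ) (Set.range a)
  choose j hj using fun b : t => hts b.2
  have haj : a ∘ j = ((↑) : t → F) := funext hj
  obtain ⟨d, hd⟩ := (hder0 ℂ F (g2d_fg a ha) t _ ht).2 fun b => u (j b)
  refine ⟨d, fun i => ?_⟩
  let w : σ → F := fun s => u s - d (a s)
  have hw : ∀ b, w (j b) = 0 := fun b => by
    have := congrFun hd b
    simp only at this
    simp only [w, hj, this, sub_self]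
  have htau : ∀ g, aeval a g = 0 → g2d_tau a w g = 0 := fun g hg => by
    have h1 := deriv_aeval d a g
    rw [hg, map_zero] at h1
    simp only [g2d_tau, w, sub_mul, Finset.sum_sub_distrib, hu g hg, ← h1, sub_self]
  obtain ⟨p₀, hp0, hp₀⟩ := ht.isAlgebraic.isAlgebraic (a i)
  have hinj : Function.Injective (aeval (a ∘ j) : MvPolynomial t ℂ →ₐ[ℂ] F).toRingHom := by
    rw [haj]; exact ht.1
  obtain ⟨p, hp, hp'⟩ := g2d_min _ hinj (a i) (p₀.map ht.1.aevalEquiv.symm.toRingEquiv.toRingHom)
    ((Polynomial.map_ne_zero_iff ht.1.aevalEquiv.symm.injective).2 hp0) (by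
      rw [Polynomial.eval₂_map, ← hp₀, Polynomial.aeval_def]
      congr 1
      ext b
      obtain ⟨r, rfl⟩ := ht.1.aevalEquiv.surjective b
      rw [haj]
      simp)
  have h1 := g2d_tau_eval₂ a w j hw i p
  rw [htau _ (by rw [g2d_aeval_eval₂, hp])] at h1
  have h2 : w i = 0 := (mul_eq_zero.1 h1.symm).resolve_right hp'
  exact (sub_eq_zero.1 h2).symm

variable {n : ℕ}

theorem g2d_DD_sum (u : Fin n → MP2 n) (c : Fin n → ℂ) (g : Fin n → MP2 n) :
    DD u (∑ i, C (c i) * g i) = ∑ i, C (c i) * DD u (g i) := by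
  simp only [DD, del, map_sum, pderiv_C_mul, Finset.mul_sum, ← Finset.sum_add_distrib]
  rw [Finset.sum_comm]
  exact Finset.sum_congr rfl fun i _ => Finset.sum_congr rfl fun k _ => by ring

theorem g2d_word_sum {T : Finset (Fin n)} (U : T → Fin n → MP2 n) (α : List T) (c : Fin n → ℂ)
    (g : Fin n → MP2 n) : word U α (∑ i, C (c i) * g i) = ∑ i, C (c i) * word U α (g i) := by
  induction α with
  | nil => rfl
  | cons l α ih => simp only [word, ih, g2d_DD_sum]

theorem g2d_DD_eq (u : Fin n → MP2 n) (g : MP2 n) :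
    DD u g = ∑ s, Sum.elim u (fun i => X (Sum.inr i) * u i) s * pderiv s g := by
  rw [DD, Fintype.sum_sum_type, ← Finset.sum_add_distrib]
  refine Finset.sum_congr rfl fun i _ => ?_
  simp only [Sum.elim_inl, Sum.elim_inr, del]; ring

theorem t_g2d (hdu : T_DU) (has : T_AS) (hdrop : T_DROP) : T_G2D := by
  intro n F _ _ z y T f U Δ g₁ hgen hfree hfr hsp J hJ hJ0 hJD x y' hy' hpt hne g hg
  classical
  let E := FractionRing (MP2 n ⧸ J)
  let π : MP2 n →ₐ[ℂ] E := (IsScalarTower.toAlgHom ℂ (MP2 n ⧸ J) E).comp (Ideal.Quotient.mkₐ ℂ J)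
  have hπ0 : ∀ g, π g = 0 ↔ g ∈ J := fun g => by
    change algebraMap (MP2 n ⧸ J) E (Ideal.Quotient.mk J g) = 0 ↔ _
    rw [IsFractionRing.to_map_eq_zero_iff, Ideal.Quotient.eq_zero_iff_mem]
  let a' : Fin n ⊕ Fin n → E := fun s => π (X s)
  have hπ : ∀ g, aeval a' g = π g := fun g => by
    have : (aeval a' : MP2 n →ₐ[ℂ] E) = π := by ext s; simp [a']
    rw [this]
  have hgen' : IntermediateField.adjoin ℂ (Set.range a') = ⊤ := by
    refine eq_top_iff.2 fun e _ => ?_
    rw [IntermediateField.mem_adjoin_range_iff]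
    obtain ⟨r, s, -, rfl⟩ := IsFractionRing.div_surjective (A := MP2 n ⧸ J) e
    obtain ⟨r, rfl⟩ := Ideal.Quotient.mk_surjective r
    obtain ⟨s, rfl⟩ := Ideal.Quotient.mk_surjective s
    exact ⟨r, s, by rw [hπ, hπ]; rfl⟩
  have hsum : ∀ l g, ∑ s, π (Sum.elim (U l) (fun i => X (Sum.inr i) * U l i) s) *
      aeval a' (pderiv s g) = π (DD (U l) g) := fun l g => by
    rw [g2d_DD_eq, map_sum]
    exact Finset.sum_congr rfl fun s _ => by rw [hπ, map_mul]
  have hex : ∀ l : T, ∃ d : Derivation ℂ E E,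
      ∀ s, d (a' s) = π (Sum.elim (U l) (fun i => X (Sum.inr i) * U l i) s) := fun l =>
    hdu E _ a' _ hgen' fun g hg => by
      rw [hsum, hπ0]
      exact hJD l g ((hπ0 g).1 (hπ g ▸ hg))
  choose d hd using hex
  have hdπ : ∀ l g, d l (π g) = π (DD (U l) g) := fun l g => by
    rw [← hπ g, deriv_aeval, ← hsum]
    exact Finset.sum_congr rfl fun s _ => by rw [hd]
  rw [map_mul] at hne
  have hΔ : π Δ ≠ 0 := fun h => left_ne_zero_of_mul hne (hpt _ ((hπ0 _).1 h))
  have hli : LinearIndependent E d := by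
    rw [Fintype.linearIndependent_iff]
    intro c hc l'
    have h1 := congrArg (fun D : Derivation ℂ E E => D (a' (Sum.inl l'.1))) hc
    have h2 : ∀ s : Finset T, (∑ l ∈ s, c l • d l) (a' (Sum.inl l'.1)) =
        ∑ l ∈ s, c l * π (if l = l' then Δ else 0) := fun s => by
      induction s using Finset.induction_on with
      | empty => simp
      | insert l s hl ih =>
        rw [Finset.sum_insert hl, Finset.sum_insert hl, Derivation.add_apply, ih,
          Derivation.smul_apply, hd, Sum.elim_inl, hfr.1.2.1 l l', smul_eq_mul]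
    simp only [h2, Derivation.zero_apply] at h1
    rw [Finset.sum_eq_single l' (fun l _ hl => by simp [hl]) (by simp), if_pos rfl] at h1
    exact (mul_eq_zero.1 h1).resolve_right hΔ
  let C' : IntermediateField ℂ E :=
    { carrier := {a | ∀ l, d l a = 0}
      mul_mem' := fun {a b} ha hb l => by
        rw [Derivation.leibniz, ha l, hb l]; simp
      add_mem' := fun {a b} ha hb l => by rw [map_add, ha l, hb l, add_zero]
      algebraMap_mem' := fun c l => (d l).map_algebraMap c
      inv_mem' := fun a ha l => by rw [Derivation.leibniz_inv, ha l]; simp }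
  have hbound := has E (g2d_fg a' hgen') T (Fin n) d C' (fun i => a' (Sum.inl i))
    (fun i => a' (Sum.inr i)) hli (fun a => Iff.rfl)
    (fun i h => hy' i (by simpa using hpt _ ((hπ0 _).1 h)))
    (fun l i => by rw [hd, hd, Sum.elim_inr, Sum.elim_inl, map_mul])
    (fun m hm => by
      by_contra hm0
      let ψ : MP2 n := ∑ i, C (m i : ℂ) * X (Sum.inl i)
      have hψ : π ψ = ∑ i, (m i : E) * a' (Sum.inl i) := by
        simp only [ψ, map_sum, map_mul, map_intCast, a']
      have hword : ∀ (α : List T) (l : T), word U (l :: α) ψ ∈ J := fun α => by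
        induction α with
        | nil =>
          intro l
          rw [← hπ0]
          change π (DD (U l) ψ) = 0
          rw [← hdπ, hψ]
          exact hm l
        | cons l' α ih => exact fun l => hJD l _ (ih l')
      obtain ⟨c, hc⟩ := hsp x y' (fun g hg => hpt g (hJ0 g hg)) (right_ne_zero_of_mul hne)
        (fun i => (m i : ℂ)) fun l α => by
          have h1 := hpt _ (hword α l)
          rw [g2d_word_sum, map_sum] at h1
          simpa only [map_mul, eval_C] using h1
      refine hfree m hm0 c ?_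
      rw [← hc, dz]
      simp only [map_intCast])
  refine hdrop F E _ (Sum.elim z y) a' hgen hgen'
    (fun g hg => by rw [hπ, hπ0]; exact hJ0 g hg) ?_ g (by rw [hπ, hπ0]; exact hg)
  rw [← hfr.2.2.2.2.1, ← trdeg_add_eq ℂ C' (A := E)]
  refine le_trans (le_of_eq ?_) (hbound.trans le_add_self)
  rw [Fintype.card_fin, Fintype.card_coe, add_comm]

end Pool.Agent.P.MP_d2ed07_lc
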