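import Pool.Agent.P.MP_d2ed07_lc.Basic

/-! Equations of a frame cut out the locus near a generic point. -/

namespace Pool.Agent.P.MP_d2ed07_lc

open MvPolynomial Metric Filter Topology

variable {n : ℕ}

theorem t_drop : T_DROP := by
  intro F F' _ _ _ _ σ _ a a' _ ha' h htr g hg
  by_contra hg0
  have : Algebra.IsAlgebraic (Algebra.adjoin ℂ (Set.range a')) F' := ⟨fun x => by
    obtain ⟨r, hr, s, hs, rfl⟩ := IntermediateField.mem_adjoin_iff_div.1
      (ha' ▸ IntermediateField.mem_top : x ∈ IntermediateField.adjoin ℂ (Set.range a'))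
    rw [div_eq_mul_inv]
    exact (isAlgebraic_algebraMap (⟨r, hr⟩ : Algebra.adjoin ℂ (Set.range a'))).mul
      (isAlgebraic_algebraMap (⟨s, hs⟩ : Algebra.adjoin ℂ (Set.range a'))).inv⟩
  obtain ⟨t, ht, hb⟩ := exists_isTranscendenceBasis_subset (R := ℂ) (Set.range a')
  choose ι hι using fun x : t => ht x.2
  have : Finite t := (Set.finite_range a').subset ht
  have e' : ∀ p : MvPolynomial t ℂ, aeval a' (rename ι p) = aeval ((↑) : t → F') p := fun p => by
    rw [aeval_rename, show a' ∘ ι = ((↑) : t → F') from funext hι]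
  have hb' := algebraicIndependent_iff.1 hb.1
  have hi : AlgebraicIndependent ℂ (a ∘ ι) := algebraicIndependent_iff.2 fun p hp =>
    hb' p (by rw [← e']; exact h _ (by rw [aeval_rename]; exact hp))
  have htr' : Transcendental (Algebra.adjoin ℂ (Set.range (a ∘ ι))) (aeval a g) := by
    intro halg
    obtain ⟨q, hq0, hq⟩ := halg.exists_nonzero_coeff_and_aeval_eq_zero
      (mem_nonZeroDivisors_of_ne_zero hg0)
    let ψ : Algebra.adjoin ℂ (Set.range (a ∘ ι)) →+* MvPolynomial σ ℂ :=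
      (rename ι : MvPolynomial t ℂ →ₐ[ℂ] MvPolynomial σ ℂ).toRingHom.comp
        hi.aevalEquiv.symm.toRingEquiv.toRingHom
    have h1 : (aeval a : MvPolynomial σ ℂ →ₐ[ℂ] F).toRingHom.comp ψ = algebraMap _ F := by
      refine RingHom.ext fun x => ?_
      obtain ⟨p, rfl⟩ := hi.aevalEquiv.surjective x
      rw [hi.algebraMap_aevalEquiv]
      simp [ψ, aeval_rename]
    have h2 : aeval a (q.eval₂ ψ g) = 0 := by
      have := Polynomial.hom_eval₂ q ψ (aeval a : MvPolynomial σ ℂ →ₐ[ℂ] F).toRingHom g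
      rw [h1] at this
      exact this.trans hq
    have h3 := Polynomial.hom_eval₂ q ψ (aeval a' : MvPolynomial σ ℂ →ₐ[ℂ] F').toRingHom g
    have h4 : (aeval a' : MvPolynomial σ ℂ →ₐ[ℂ] F').toRingHom g = 0 := hg
    rw [h4, Polynomial.eval₂_at_zero] at h3
    have h5 : aeval a' (rename ι (hi.aevalEquiv.symm (q.coeff 0))) = 0 := h3.symm.trans (h _ h2)
    rw [e'] at h5
    exact hq0 (by simpa using hb' _ h5)
  have h6 := ((hi.option_iff_transcendental _).2 htr').lift_cardinalMk_le_trdeg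
  simp only [Cardinal.lift_id] at h6
  have h7 := h6.trans htr
  rw [← hb.cardinalMk_eq_trdeg, Cardinal.mk_option] at h7
  have := Fintype.ofFinite t
  rw [Cardinal.mk_fintype] at h7
  norm_cast at h7
  omega

theorem g2e_point (σ : Type) (q : Ideal (MvPolynomial σ ℂ)) [q.IsPrime] :
    ∃ (E : Type) (_ : Field E) (_ : Algebra ℂ E) (a : σ → E),
      IntermediateField.adjoin ℂ (Set.range a) = ⊤ ∧ ∀ g, aeval a g = 0 ↔ g ∈ q := by
  let E := FractionRing (MvPolynomial σ ℂ ⧸ q)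
  let φ : MvPolynomial σ ℂ →ₐ[ℂ] E :=
    (IsScalarTower.toAlgHom ℂ (MvPolynomial σ ℂ ⧸ q) E).comp (Ideal.Quotient.mkₐ ℂ q)
  have h1 : ∀ g, aeval (fun s => φ (X s)) g = φ g := fun g =>
    (DFunLike.congr_fun (aeval_unique φ) g).symm
  have h2 : ∀ g, φ g = algebraMap (MvPolynomial σ ℂ ⧸ q) E (Ideal.Quotient.mk q g) := fun _ => rfl
  refine ⟨E, inferInstance, inferInstance, fun s => φ (X s), eq_top_iff.2 fun x _ => ?_,
    fun g => ?_⟩
  · obtain ⟨r, s, -, rfl⟩ := IsFractionRing.div_surjective (MvPolynomial σ ℂ ⧸ q) x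
    obtain ⟨r, rfl⟩ := Ideal.Quotient.mk_surjective r
    obtain ⟨s, rfl⟩ := Ideal.Quotient.mk_surjective s
    exact (IntermediateField.mem_adjoin_range_iff _ _ _).2 ⟨r, s, by rw [h1, h1, h2, h2]⟩
  · rw [h1, h2, map_eq_zero_iff _ (IsFractionRing.injective _ _), Ideal.Quotient.eq_zero_iff_mem]

theorem g2e_trdeg (hder2 : T_DER2) {E : Type} [Field E] [Algebra ℂ E] {z y : Fin n → E}
    (hG : Gen z y) {T : Finset (Fin n)} {f : {i // i ∉ T} → MP2 n} (hf : ∀ a, ev z y (f a) = 0)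
    (hΔ : ev z y (Matrix.of fun a i : {i // i ∉ T} => del i.1 (f a)).det ≠ 0) :
    Algebra.trdeg ℂ E ≤ ((T.card + n : ℕ) : Cardinal) := by
  classical
  obtain ⟨_, h1⟩ := hder2 ℂ E (by
    rw [← hG]; exact IntermediateField.fg_adjoin_of_finite (Set.finite_range _))
  let L : Derivation ℂ E E →ₗ[E] (T ⊕ Fin n → E) :=
    { toFun := fun d => Sum.elim (fun l => d (z l)) fun i => d (y i) - y i * d (z i)
      map_add' := fun d d' => by
        funext s; rcases s with l | i
        · simp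
        · simp; ring
      map_smul' := fun c d => by
        funext s; rcases s with l | i
        · simp
        · simp; ring }
  have hL : Function.Injective L := by
    refine (injective_iff_map_eq_zero L).2 fun d hd => ?_
    have h2 : ∀ l : T, d (z l) = 0 := fun l => congrFun hd (Sum.inl l)
    have h3 : d ∈ expDer z y := fun i => sub_eq_zero.1 (congrFun hd (Sum.inr i))
    have h4 : (fun i : {i // i ∉ T} => d (z i)) = 0 := by
      refine Matrix.eq_zero_of_mulVec_eq_zero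
        (M := Matrix.of fun a i : {i // i ∉ T} => ev z y (del i.1 (f a))) ?_ (funext fun a => ?_)
      · rw [ev, AlgHom.map_det] at hΔ
        exact hΔ
      · have := expDer_ev h3 (f a)
        rw [hf a, map_zero, ← Fintype.sum_subtype_add_sum_subtype (· ∈ T)] at this
        simp only [h2, zero_mul, Finset.sum_const_zero, zero_add] at this
        simp only [Matrix.mulVec, dotProduct, Matrix.of_apply, Pi.zero_apply]
        rw [this]
        exact Finset.sum_congr rfl fun i _ => mul_comm _ _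
    have h5 : ∀ i, d (z i) = 0 := fun i => by
      by_cases hi : i ∈ T
      · exact h2 ⟨i, hi⟩
      · exact congrFun h4 ⟨i, hi⟩
    have h6 : ∀ g : MP2 n, d (aeval (Sum.elim z y) g) = 0 := fun g => by
      simpa only [h5, zero_mul, Finset.sum_const_zero, ev] using expDer_ev h3 g
    ext x
    obtain ⟨r, s, rfl⟩ := (IntermediateField.mem_adjoin_range_iff _ _ _).1
      (hG.symm ▸ IntermediateField.mem_top :
        x ∈ IntermediateField.adjoin ℂ (Set.range (Sum.elim z y)))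
    rw [Derivation.leibniz_div, h6, h6]
    simp
  have h7 := LinearMap.finrank_le_finrank_of_injective hL
  rw [← h1, Nat.cast_le]
  simpa using h7

theorem g2e_sep {R : Type} [CommRing R] [IsNoetherianRing R] (J P : Ideal R) [hP : P.IsPrime]
    (hmin : ∀ Q : Ideal R, Q.IsPrime → J ≤ Q → Q ≤ P → P ≤ Q) :
    ∃ D, D ∉ P ∧ ∀ p ∈ P, D * p ∈ J.radical := by
  classical
  have hfin := Ideal.finite_minimalPrimes_of_isNoetherianRing R J
  have h1 : ∀ Q : Ideal R, ∃ d, d ∉ P ∧ (Q ∈ J.minimalPrimes → ∀ p ∈ P, d * p ∈ Q) := by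
    intro Q
    by_cases hQ : Q ≤ P
    · refine ⟨1, (Ideal.ne_top_iff_one P).mp hP.ne_top, fun h p hp => ?_⟩
      rw [one_mul]
      exact hmin Q h.1.1 h.1.2 hQ hp
    · obtain ⟨d, hd, hd'⟩ := Set.not_subset.mp hQ
      exact ⟨d, hd', fun _ p _ => Q.mul_mem_right p hd⟩
  choose d hd hd' using h1
  refine ⟨∏ Q ∈ hfin.toFinset, d Q, fun h => ?_, fun p hp => ?_⟩
  · obtain ⟨Q, _, hQ⟩ := Ideal.IsPrime.prod_mem_iff.mp h
    exact hd Q hQ
  · rw [← Ideal.sInf_minimalPrimes, Submodule.mem_sInf]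
    intro Q hQ
    rw [← Finset.mul_prod_erase _ _ (hfin.mem_toFinset.mpr hQ), mul_right_comm]
    exact Ideal.mul_mem_right _ Q (hd' Q hQ p hp)

theorem t_g2e (hder2 : T_DER2) (hdrop : T_DROP) : T_G2E := by
  intro n F _ _ z y T f U Δ hG hF
  obtain ⟨⟨hΔ, -, -⟩, hf, hΔ0, -, htr, -⟩ := hF
  let I : Ideal (MP2 n) := RingHom.ker (aeval (Sum.elim z y) : MP2 n →ₐ[ℂ] F)
  have : I.IsPrime := RingHom.ker_isPrime _
  have hI : ∀ g, g ∈ I ↔ ev z y g = 0 := fun g => RingHom.mem_ker
  obtain ⟨g₀, hg₀, hg⟩ := g2e_sep (Ideal.span (Set.range f)) I fun Q hQ hJ hQI => by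
    obtain ⟨E, _, _, a, ha, hq⟩ := g2e_point _ Q
    have e : Sum.elim (a ∘ Sum.inl) (a ∘ Sum.inr) = a := Sum.elim_comp_inl_inr a
    have h1 := g2e_trdeg hder2 (z := a ∘ Sum.inl) (y := a ∘ Sum.inr) (by rw [Gen, e]; exact ha)
      (f := f) (fun b => by rw [ev, e, hq]; exact hJ (Ideal.subset_span ⟨b, rfl⟩))
      (by rw [← hΔ, ev, e, Ne, hq]; exact fun h => hΔ0 ((hI _).1 (hQI h)))
    intro g hg
    exact (hq g).1 (hdrop E F _ a (Sum.elim z y) ha hG (fun g h => (hI g).1 (hQI ((hq g).1 h)))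
      (h1.trans htr.le) g ((hI g).1 hg))
  refine ⟨g₀, fun h => hg₀ ((hI _).2 h), fun x y' h0 h1 g hg' => ?_⟩
  have h2 : (Ideal.span (Set.range f)).radical ≤ RingHom.ker (eval (Sum.elim x y')) :=
    (RingHom.ker_isPrime _).radical_le_iff.2 (Ideal.span_le.2 (by
      rintro _ ⟨b, rfl⟩; exact h1 b))
  have h3 := h2 (hg g ((hI g).2 hg'))
  rw [RingHom.mem_ker, map_mul] at h3
  exact (mul_eq_zero.1 h3).resolve_left h0

end Pool.Agent.P.MP_d2ed07_lc
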