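import Pool.Agent.P.MP_d2ed07_lc.Basic

/-!
Analytic parametrisation of the exponential points near a nondegenerate one.
-/

namespace Pool.Agent.P.MP_d2ed07_lc

open MvPolynomial Metric Filter Topology

variable {n : ℕ}

/-- exponential polynomials -/
noncomputable def g3_E (g : MP2 n) (x : Cn n) : ℂ := eval (Sum.elim x (ex x)) g

theorem g3_add (p q : MP2 n) : g3_E (p + q) = fun x => g3_E p x + g3_E q x :=
  funext fun _ => map_add _ _ _

theorem g3_mul (p q : MP2 n) : g3_E (p * q) = fun x => g3_E p x * g3_E q x :=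
  funext fun _ => map_mul _ _ _

theorem g3_C (a : ℂ) : g3_E (C a : MP2 n) = fun _ => a := funext fun _ => eval_C _

theorem g3_l (i : Fin n) : g3_E (X (Sum.inl i)) = fun x => x i := funext fun _ => eval_X _

theorem g3_r (i : Fin n) : g3_E (X (Sum.inr i)) = fun x => Complex.exp (x i) :=
  funext fun _ => eval_X _

theorem g3_an (g : MP2 n) (x : Cn n) : AnalyticAt ℂ (g3_E g) x := by
  have h (i : Fin n) : AnalyticAt ℂ (fun x : Cn n => x i) x :=
    (ContinuousLinearMap.proj (R := ℂ) (φ := fun _ : Fin n => ℂ) i).analyticAt x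
  induction g using MvPolynomial.induction_on with
  | C a => rw [g3_C]; exact analyticAt_const
  | add p q hp hq => rw [g3_add]; exact hp.add hq
  | mul_X p s hp =>
    rw [g3_mul]
    refine hp.mul ?_
    rcases s with i | i
    · rw [g3_l]; exact h i
    · rw [g3_r]; exact (h i).cexp

theorem g3_del_mul (i : Fin n) (p q : MP2 n) : del i (p * q) = p * del i q + q * del i p := by
  simp only [del, Derivation.leibniz, smul_eq_mul]; ring

theorem g3_fd (g : MP2 n) (x : Cn n) : ∃ A : Cn n →L[ℂ] ℂ, HasFDerivAt (g3_E g) A x ∧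
    ∀ u, A u = ∑ i, u i * g3_E (del i g) x := by
  classical
  have hX : ∀ s, ∃ A : Cn n →L[ℂ] ℂ, HasFDerivAt (g3_E (X s)) A x ∧
      ∀ u, A u = ∑ i, u i * g3_E (del i (X s)) x := by
    rintro (i | i)
    · refine ⟨_, by rw [g3_l]; exact hasFDerivAt_apply (𝕜 := ℂ) i x, fun u => ?_⟩
      rw [Finset.sum_eq_single i] <;> simp +contextual [g3_E, del, pderiv_X, Pi.single_apply, eq_comm]
    · refine ⟨_, by rw [g3_r]; exact (hasFDerivAt_apply (𝕜 := ℂ) i x).cexp, fun u => ?_⟩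
      rw [Finset.sum_eq_single i] <;>
        simp +contextual [g3_E, del, pderiv_X, Pi.single_apply, eq_comm, ex, mul_comm]
  induction g using MvPolynomial.induction_on with
  | C a => exact ⟨0, by rw [g3_C]; exact hasFDerivAt_const a x, fun u => by simp [g3_E, del]⟩
  | add p q hp hq =>
    obtain ⟨A, hA, hA'⟩ := hp
    obtain ⟨B, hB, hB'⟩ := hq
    refine ⟨A + B, by rw [g3_add]; exact hA.add hB, fun u => ?_⟩
    rw [ContinuousLinearMap.add_apply, hA', hB', ← Finset.sum_add_distrib]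
    exact Finset.sum_congr rfl fun i _ => by simp only [g3_E, del, map_add, map_mul]; ring
  | mul_X p s hp =>
    obtain ⟨A, hA, hA'⟩ := hp
    obtain ⟨B, hB, hB'⟩ := hX s
    refine ⟨_, by rw [g3_mul]; exact hA.mul hB, fun u => ?_⟩
    simp only [ContinuousLinearMap.add_apply, ContinuousLinearMap.smul_apply, hA', hB',
      smul_eq_mul, Finset.mul_sum, ← Finset.sum_add_distrib, g3_del_mul, g3_add, g3_mul]
    exact Finset.sum_congr rfl fun i _ => by ring

theorem g3_split {R : Type} [AddCommMonoid R] (T : Finset (Fin n)) (f : Fin n → R) :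
    ∑ i, f i = ∑ i : T, f i + ∑ i : {i // i ∉ T}, f i := by
  refine (Fintype.sum_subtype_add_sum_subtype (· ∈ T) f).symm.trans ?_
  exact congrArg₂ (· + ·)
    (Finset.sum_congr (Finset.ext fun _ => by simp only [Finset.mem_univ]) fun _ _ => rfl)
    (Finset.sum_congr (Finset.ext fun _ => by simp only [Finset.mem_univ]) fun _ _ => rfl)

theorem g3_DD (u : Fin n → MP2 n) (g : MP2 n) (x : Cn n) :
    g3_E (DD u g) x = ∑ i, g3_E (u i) x * g3_E (del i g) x := by
  simp only [g3_E, DD, map_sum, map_mul]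

section
variable {T : Finset (Fin n)} {f : {i // i ∉ T} → MP2 n} {U : T → Fin n → MP2 n} {Δ : MP2 n}

theorem g3_inj (h0 : Frame0 T f U Δ) {x : Cn n} (hx : g3_E Δ x ≠ 0) {u : Cn n}
    (h1 : ∀ l : T, u l = 0) (h2 : ∀ a, ∑ i, u i * g3_E (del i (f a)) x = 0) : u = 0 := by
  have hΔ : g3_E Δ x = (Matrix.of fun a j : {i // i ∉ T} => g3_E (del j.1 (f a)) x).det := by
    rw [h0.1, g3_E, RingHom.map_det]
    rfl
  have h3 : (fun i : {i // i ∉ T} => u i.1) = 0 := by
    refine Matrix.eq_zero_of_mulVec_eq_zero (hΔ ▸ hx) (funext fun a => ?_)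
    have h4 := h2 a
    rw [g3_split T, Finset.sum_eq_zero fun i _ => by rw [h1, zero_mul], zero_add] at h4
    refine Eq.trans ?_ h4
    rw [Matrix.mulVec, dotProduct]
    exact Finset.sum_congr rfl fun i _ => mul_comm _ _
  funext i
  by_cases h : i ∈ T
  · exact h1 ⟨i, h⟩
  · exact congrFun h3 ⟨i, h⟩

theorem g3_tan (h0 : Frame0 T f U Δ) {x : Cn n} (hx : g3_E Δ x ≠ 0) {u : Cn n} (l : T)
    (h1 : ∀ l' : T, u l' = if l = l' then 1 else 0)
    (h2 : ∀ a, ∑ i, u i * g3_E (del i (f a)) x = 0) (i : Fin n) :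
    g3_E (U l i) x = g3_E Δ x * u i := by
  have h3 := g3_inj h0 hx (u := fun i => g3_E (U l i) x - g3_E Δ x * u i) (fun l' => by
    rw [h0.2.1, h1]
    split_ifs <;> simp [g3_E]) fun a => by
      simp only [sub_mul, mul_assoc, Finset.sum_sub_distrib, ← Finset.mul_sum, h2, ← g3_DD, h0.2.2]
      simp [g3_E]
  exact sub_eq_zero.1 (congrFun h3 i)

end

/-- differentiation along a parametrised family -/
theorem g3_chain {E : Type} [NormedAddCommGroup E] [NormedSpace ℂ E] {γ : E → Cn n} {t : E}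
    (hγ : DifferentiableAt ℂ γ t) {g : MP2 n} (h : ∀ᶠ s in 𝓝 t, g3_E g (γ s) = 0) (v : E) :
    ∑ i, fderiv ℂ γ t v i * g3_E (del i g) (γ t) = 0 := by
  obtain ⟨A, hA, hA'⟩ := g3_fd g (γ t)
  have h1 : HasFDerivAt (g3_E g ∘ γ) (0 : E →L[ℂ] ℂ) t :=
    (hasFDerivAt_const (0 : ℂ) t).congr_of_eventuallyEq h
  have h2 := (hA.comp t hγ.hasFDerivAt).unique h1
  rw [← hA']
  exact congrArg (fun B : E →L[ℂ] ℂ => B v) h2

theorem t_g3 : T_G3 := by
  classical
  intro n T f U Δ g₀ x₀ h0 hf hΔ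
  rw [map_mul] at hΔ
  have hΔ1 : g3_E Δ x₀ ≠ 0 := left_ne_zero_of_mul hΔ
  have hΔ2 : g3_E g₀ x₀ ≠ 0 := right_ne_zero_of_mul hΔ
  let G : Fin n → MP2 n := fun i => if h : i ∈ T then X (Sum.inl i) else f ⟨i, h⟩
  have G1 : ∀ l : T, G l = X (Sum.inl l.1) := fun l => dif_pos l.2
  have G2 : ∀ a : {i // i ∉ T}, G a = f a := fun a => dif_neg a.2
  let Ψ : Cn n → Cn n := fun x i => g3_E (G i) x
  have hΨ : AnalyticAt ℂ Ψ x₀ := analyticAt_pi_iff.2 fun i => g3_an _ _
  have hinj : Function.Injective (fderiv ℂ Ψ x₀) := by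
    refine (injective_iff_map_eq_zero _).2 fun u hu => ?_
    have h1 : ∀ i, ∑ j, u j * g3_E (del j (G i)) x₀ = 0 := fun i => by
      obtain ⟨A, hA, hA'⟩ := g3_fd (G i) x₀
      rw [← hA', hA.unique (hasFDerivAt_pi'.1 hΨ.differentiableAt.hasFDerivAt i)]
      exact congrFun hu i
    refine g3_inj h0 hΔ1 (fun l => ?_) fun a => G2 a ▸ h1 a
    have h2 := h1 l
    rw [G1, Finset.sum_eq_single l.1] at h2
    · simpa [g3_E, del, pderiv_X] using h2
    · simp +contextual [g3_E, del, pderiv_X, Pi.single_apply, eq_comm]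
    · simp
  let e : Cn n ≃L[ℂ] Cn n :=
    (LinearEquiv.ofInjectiveEndo (fderiv ℂ Ψ x₀ : Cn n →ₗ[ℂ] Cn n) hinj).toContinuousLinearEquiv
  have he : fderiv ℂ Ψ x₀ = e := rfl
  have hs : HasStrictFDerivAt Ψ (e : Cn n →L[ℂ] Cn n) x₀ := he ▸ hΨ.hasStrictFDerivAt
  let Φ := hs.localInverse Ψ e x₀
  have hΦ : AnalyticAt ℂ Φ (Ψ x₀) := (hs.toOpenPartialHomeomorph Ψ).analyticAt_symm'
    hs.mem_toOpenPartialHomeomorph_source hΨ he
  let ι : (T → ℂ) →L[ℂ] Cn n := ContinuousLinearMap.pi fun i =>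
    if h : i ∈ T then ContinuousLinearMap.proj (⟨i, h⟩ : T) else 0
  have ι1 : ∀ t (l : T), ι t l = t l := fun t l => by simp [ι]
  have ι2 : ∀ t (a : {i // i ∉ T}), ι t a = 0 := fun t a => by simp [ι, a.2]
  let t₀ : T → ℂ := fun l => x₀ l
  have ht₀ : ι t₀ = Ψ x₀ := by
    funext i
    by_cases h : i ∈ T
    · exact (ι1 t₀ ⟨i, h⟩).trans (by simp only [Ψ, G1 ⟨i, h⟩, g3_l, t₀])
    · exact (ι2 t₀ ⟨i, h⟩).trans (by simp only [Ψ, G2 ⟨i, h⟩]; exact (hf _).symm)
  have hγ0 : (Φ ∘ ι) t₀ = x₀ := by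
    rw [Function.comp_apply, ht₀]; exact hs.localInverse_apply_image
  have hγ : AnalyticAt ℂ (Φ ∘ ι) t₀ := AnalyticAt.comp (ht₀ ▸ hΦ) (ι.analyticAt t₀)
  have hne : ∀ g, g3_E g x₀ ≠ 0 → ∀ᶠ t in 𝓝 t₀, g3_E g ((Φ ∘ ι) t) ≠ 0 := fun g hg =>
    ((g3_an g _).continuousAt.comp hγ.continuousAt).eventually_ne (by
      rw [Function.comp_apply, hγ0]; exact hg)
  have hr : ∀ᶠ t in 𝓝 t₀, Ψ (Φ (ι t)) = ι t :=
    (ht₀ ▸ ι.continuous.tendsto t₀).eventually hs.eventually_right_inverse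
  obtain ⟨r, r0, hB⟩ := Metric.eventually_nhds_iff_ball.1
    (hγ.eventually_analyticAt.and ((hne _ hΔ1).and ((hne _ hΔ2).and hr)))
  have hf' : ∀ t ∈ ball t₀ r, ∀ a, g3_E (f a) ((Φ ∘ ι) t) = 0 := fun t ht a => by
    rw [← G2]
    exact (congrFun (hB t ht).2.2.2 a).trans (ι2 t a)
  refine ⟨ball t₀ r, t₀, Φ ∘ ι, isOpen_ball, (convex_ball _ _).isPreconnected, mem_ball_self r0,
    hγ0, fun t ht => (hB t ht).1, fun t ht => ⟨(hB t ht).2.2.1, hf' t ht⟩, fun g hg l t ht => ?_⟩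
  have hd := (hB t ht).1.differentiableAt
  have hn := isOpen_ball.mem_nhds ht
  have h1 : ∀ l' : T, fderiv ℂ (Φ ∘ ι) t (Pi.single l 1) l' = if l = l' then 1 else 0 := by
    intro l'
    have h2 : HasFDerivAt (fun s => (Φ ∘ ι) s l') (ContinuousLinearMap.proj l') t :=
      (hasFDerivAt_apply (𝕜 := ℂ) l' t).congr_of_eventuallyEq (mem_of_superset hn fun s hs => by
        have h3 := (congrFun (hB s hs).2.2.2 l').trans (ι1 s l')
        simp only [Ψ, G1, g3_l] at h3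
        exact h3)
    have h3 := congrArg (fun B : (T → ℂ) →L[ℂ] ℂ => B (Pi.single l 1))
      ((hasFDerivAt_pi'.1 hd.hasFDerivAt l').unique h2)
    refine h3.trans ?_
    simp [Pi.single_apply, eq_comm]
  have h2 := g3_tan h0 (hB t ht).2.1 l h1 fun a =>
    g3_chain hd (mem_of_superset hn fun s hs => hf' s hs a) _
  change g3_E (DD (U l) g) ((Φ ∘ ι) t) = 0
  simp only [g3_DD, h2, mul_assoc, ← Finset.mul_sum]
  rw [g3_chain hd (mem_of_superset hn hg), mul_zero]

end Pool.Agent.P.MP_d2ed07_lc
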