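import Pool.Agent.P.MP_d2ed07_lc.Basic

/-! Ultrafilter limits of holomorphic maps, imaginary values, and a Baire argument. -/

namespace Pool.Agent.P.MP_d2ed07_lc

open MvPolynomial Metric Filter Topology

theorem t_lim : T_LIM := by
  intro G _ _ _ 𝒰 Ω f K a₀ ho ha df h0 hK
  have := FiniteDimensional.proper ℂ G
  have K0 : 0 ≤ K := (norm_nonneg _).trans (h0 0)
  have ex : ∀ a, ∃ b, a ∈ Ω → Tendsto (fun j => f j a) 𝒰 (𝓝 b) := fun a => by
    by_cases h : a ∈ Ω
    · obtain ⟨b, -, hb⟩ := (isCompact_closedBall (0 : G) (K * ‖a - a₀‖ + K)).ultrafilter_le_nhds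
        (𝒰.map fun j => f j a) (le_principal_iff.2 (mem_map.2 (univ_mem' fun j =>
          mem_closedBall_zero_iff.2 ((norm_le_norm_sub_add _ (f j a₀)).trans
            (add_le_add (hK j a h a₀ ha) (h0 j))))))
      exact ⟨b, fun _ => hb⟩
    · exact ⟨0, fun h' => (h h').elim⟩
  choose g hg using ex
  have lg : ∀ a ∈ Ω, ∀ b ∈ Ω, ‖g a - g b‖ ≤ K * ‖a - b‖ := fun a ha b hb =>
    le_of_tendsto' ((hg a ha).sub (hg b hb)).norm fun j => hK j a ha b hb
  have key : ∀ Z : Set ℂ, Z ⊆ Ω → Bornology.IsBounded Z → TendstoUniformlyOn f g 𝒰 Z := by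
    intro Z hZ bZ
    refine Metric.tendstoUniformlyOn_iff.2 fun ε ε0 => ?_
    obtain ⟨t, t1, t2, t3⟩ := finite_approx_of_totallyBounded
      (bZ.isCompact_closure.totallyBounded.subset subset_closure) (ε / 3 / (K + 1)) (by positivity)
    filter_upwards [(eventually_all_finite t2).2 fun y hy =>
      Metric.tendsto_nhds.1 (hg y (hZ (t1 hy))) (ε / 3) (by positivity)] with j hj x hx
    obtain ⟨y, hy, h⟩ := Set.mem_iUnion₂.1 (t3 hx)
    have a1 := lg x (hZ hx) y (hZ (t1 hy))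
    have a2 := hK j x (hZ hx) y (hZ (t1 hy))
    have a3 := hj y hy
    rw [mem_ball_iff_norm, lt_div_iff₀ (by positivity)] at h
    rw [← dist_eq_norm] at a1 a2
    rw [dist_comm] at a2 a3
    nlinarith [dist_triangle4 (g x) (g y) (f j y) (f j x), norm_nonneg (x - y)]
  exact ⟨g, ((tendstoLocallyUniformlyOn_iff_forall_isCompact ho).2 fun Z hZ cZ =>
    key Z hZ cZ.isBounded).differentiableOn (Eventually.of_forall df) ho, hg, key⟩

theorem t_pick : T_PICK := by
  intro Ω g Λ ho hc h0 dg g0 ⟨a, ha, ga⟩ hΛ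
  have an := dg.analyticOnNhd ho
  have h1 : ∀ᶠ z in 𝓝[≠] (0 : ℂ), deriv g z ≠ 0 :=
    (an.deriv 0 h0).eventually_eq_zero_or_eventually_ne_zero.resolve_left fun h =>
      ga ((ho.is_const_of_deriv_eq_zero hc dg
        (an.deriv.eqOn_zero_of_preconnected_of_eventuallyEq_zero hc h0 h) ha h0).trans g0)
  have h2 := (an 0 h0).eventually_constant_or_nhds_le_map_nhds.resolve_left fun h =>
    ga (an.eqOn_zero_of_preconnected_of_eventuallyEq_zero hc h0
      (h.mono fun z hz => hz.trans g0) ha)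
  rw [g0] at h2
  obtain ⟨r, r0, hr⟩ := Metric.mem_nhds_iff.1
    (h2 (image_mem_map ((eventually_nhdsWithin_iff.1 h1).and (ho.mem_nhds h0))))
  obtain ⟨t, ht, t0, t1⟩ := hΛ.exists_between r0
  obtain ⟨μ, ⟨m1, m2⟩, e⟩ := hr (a := t * Complex.I) (by simpa [abs_of_pos t0] using t1)
  refine ⟨μ, m2, t, ht, e, m1 ?_⟩
  rintro rfl
  simp [g0, t0.ne'] at e

theorem t_g4 : T_G4 := by
  intro E _ _ _ Ω A ho hc hne hA H
  have := ho.baireSpace
  have := hne.to_subtype
  obtain ⟨t, ht⟩ := (dense_biInter_of_isOpen (f := fun g : E → ℂ => {t : Ω | g t ≠ 0})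
    (fun g hg => isOpen_ne_fun
      (continuousOn_iff_continuous_domRestrict.1 (H g hg).1.continuousOn) continuous_const) hA
    fun g hg => dense_iff_inter_open.2 fun U hU ⟨z, hz⟩ => by
      by_contra h
      obtain ⟨a, ha, ga⟩ := (H g hg).2
      refine ga ((H g hg).1.eqOn_zero_of_preconnected_of_eventuallyEq_zero hc z.2 ?_ ha)
      filter_upwards [ho.isOpenMap_subtype_val.image_mem_nhds (hU.mem_nhds hz)]
      rintro _ ⟨u, hu, rfl⟩
      by_contra h'
      exact h ⟨u, hu, h'⟩).nonempty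
  exact ⟨t, t.2, fun g hg => Set.mem_iInter₂.1 ht g hg⟩

end Pool.Agent.P.MP_d2ed07_lc
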