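import Pool.Agent.P.MP_d2ed07_lc.Basic

/-! Holomorphic logarithms; persistence of simple zeros. -/

namespace Pool.Agent.P.MP_d2ed07_lc

open MvPolynomial Metric Filter Topology

theorem t_log : T_LOG := by
  intro E _ _ Ω f hc ho hf h0
  rcases Ω.eq_empty_or_nonempty with rfl | hne
  · exact ⟨0, differentiableOn_empty, fun x hx => hx.elim⟩
  let _ : NormedSpace ℝ E := NormedSpace.complexToReal
  have := hc.contractibleSpace hne
  obtain ⟨g, hg, hg1⟩ := Complex.exists_continuousOn_eqOn_exp_comp (U := Ω)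
    (SimplyConnectedSpace.ofContractible Ω) ho hf.continuousOn
    (by rintro ⟨x, hx, h⟩; exact h0 x hx h)
  refine ⟨g, fun x hx => DifferentiableAt.differentiableWithinAt ?_, fun x hx => hg1 hx⟩
  have hΩ := ho.mem_nhds hx
  have h1 : DifferentiableAt ℂ (fun y => g x + Complex.log (f y * (f x)⁻¹)) x :=
    (((hf.differentiableAt hΩ).mul_const _).clog (by
      rw [mul_inv_cancel₀ (h0 x hx)]; exact Complex.one_mem_slitPlane)).const_add _
  refine h1.congr_of_eventuallyEq ?_
  filter_upwards [hΩ, (hg.continuousAt hΩ).eventually (ball_mem_nhds _ Real.pi_pos)] with y hy h2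
  have h3 := abs_lt.1 ((Complex.abs_im_le_norm (g y - g x)).trans_lt (mem_ball_iff_norm.1 h2))
  have e : f y * (f x)⁻¹ = Complex.exp (g y - g x) := by
    rw [← hg1 hy, ← hg1 hx, Complex.exp_sub, div_eq_mul_inv]; rfl
  rw [e, Complex.log_exp h3.1 h3.2.le]; ring

theorem t_pers (hcl : T_CL) : T_PERS := by
  intro E _ _ _ H x₀ r hr hH h0 hinj
  have : CompleteSpace E := FiniteDimensional.complete ℂ E
  set A := fderiv ℂ H x₀ with hA
  obtain ⟨B, hB⟩ := A.exists_nonlinearRightInverse_of_surjective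
    (LinearMap.range_eq_top.2 (LinearMap.injective_iff_surjective.1 hinj))
  set a : ℝ := (B.nnnorm : ℝ)⁻¹ with ha
  have a0 : 0 < a := inv_pos.2 hB
  have hd : HasFDerivAt H A x₀ := (hH.differentiableAt (ball_mem_nhds _ hr)).hasFDerivAt
  obtain ⟨r₁, hr₁, h1⟩ := Metric.eventually_nhds_iff_ball.1
    (hd.isLittleO.bound (c := a / 32) (by positivity))
  set ρ := min r r₁ with hρ
  have ρ0 : 0 < ρ := lt_min hr hr₁
  have hs : ball x₀ ρ ⊆ ball x₀ r := ball_subset_ball (min_le_left _ _)
  refine ⟨a * ρ / 32, by positivity, fun G hG hGH => ?_⟩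
  have h2 := (hcl E E (fun p => G p - A (p - x₀)) x₀ ρ (a * ρ / 16) ρ0
    ((hG.mono hs).sub (A.differentiable.comp (differentiable_id.sub_const x₀)).differentiableOn)
    fun p hp => by
      have h3 := h1 p (ball_subset_ball (min_le_right _ _) hp)
      rw [h0, sub_zero] at h3
      have h4 := mul_le_mul_of_nonneg_left (mem_ball_iff_norm.1 hp).le
        (show 0 ≤ a / 32 by positivity)
      have h5 := norm_add_le (G p - H p) (H p - A (p - x₀))
      rw [sub_add_sub_cancel] at h5
      linarith [hGH p (hs hp)]).2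
  have h6 : ApproximatesLinearOn G A (ball x₀ (ρ / 2)) ⟨a / 4, by positivity⟩ := by
    intro p hp p' hp'
    have h7 := h2 p hp p' hp'
    have e : G p - A (p - x₀) - (G p' - A (p' - x₀)) = G p - G p' - A (p - p') := by
      simp only [map_sub]; abel
    have e2 : 4 * (a * ρ / 16) / ρ = a / 4 := by field_simp; ring
    rw [e, e2] at h7
    exact h7
  obtain ⟨p, hp, hp0⟩ := h6.surjOn_closedBall_of_nonlinearRightInverse B (ε := ρ / 4) (b := x₀)
    (by positivity) (closedBall_subset_ball (by linarith)) (a := 0) (by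
      have h8 := hGH x₀ (mem_ball_self hr)
      rw [h0, sub_zero] at h8
      rw [mem_closedBall, dist_zero_left]
      change ‖G x₀‖ ≤ (a - a / 4) * (ρ / 4)
      nlinarith [mul_pos a0 ρ0])
  exact ⟨p, hs (closedBall_subset_ball (by linarith) hp), hp0⟩

end Pool.Agent.P.MP_d2ed07_lc
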