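import Pool.Agent.P.MP_d2ed07_lc.Basic

/-! An edge of the Newton polygon. -/

namespace Pool.Agent.P.MP_d2ed07_lc

open MvPolynomial Metric Filter Topology

variable {n : ℕ}

theorem newt_hom (g : MP n) (c : ℂ) (x : Cn n) :
    eval (c • x) (top g) = c ^ g.totalDegree * eval x (top g) := by
  have h := homogeneousComponent_isHomogeneous g.totalDegree g
  rw [eval_eq, eval_eq, Finset.mul_sum]
  refine Finset.sum_congr rfl fun d hd => ?_
  rw [h.degree_eq_sum_deg_support hd]
  simp only [Pi.smul_apply, smul_eq_mul, mul_pow, Finset.prod_mul_distrib,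
    Finset.prod_pow_eq_pow_sum]
  ring

theorem newt_top_ne {g : MP n} (hg : g ≠ 0) : top g ≠ 0 := by
  obtain ⟨d, hd, e⟩ := Finset.exists_mem_eq_sup g.support (support_nonempty.2 hg)
    fun s => s.sum fun _ e => e
  intro h0
  have h1 := coeff_homogeneousComponent g.totalDegree g d
  have h2 : d.degree = g.totalDegree := by
    rw [totalDegree, e]; rfl
  rw [if_pos h2] at h1
  exact (mem_support_iff.1 hd) (by rw [← h1]; exact congrArg (coeff d) h0)

theorem newt_exists {g : MP n} (hg : g ≠ 0) : ∃ u, eval u g ≠ 0 := by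
  by_contra h
  push Not at h
  exact hg (MvPolynomial.funext fun x => by simp [h x])

theorem newt_lim (hhom : T_HOM) (g : MP n) {α : Type} {l : Filter α} {R : α → ℝ} {u : α → Cn n}
    {u₀ : Cn n} (hR : Tendsto R l atTop) (hu : Tendsto u l (𝓝 u₀)) :
    Tendsto (fun a => eval ((R a : ℂ) • u a) g / (R a : ℂ) ^ g.totalDegree) l
      (𝓝 (eval u₀ (top g))) := by
  obtain ⟨C, -, hC⟩ := hhom n g (‖u₀‖ + 1)
  have h1 : Tendsto (fun a => eval (u a) (top g)) l (𝓝 (eval u₀ (top g))) :=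
    ((continuous_eval' (top g)).tendsto u₀).comp hu
  have h2 : Tendsto (fun a => eval ((R a : ℂ) • u a) g / (R a : ℂ) ^ g.totalDegree -
      eval (u a) (top g)) l (𝓝 0) := by
    refine squeeze_zero_norm' ?_ (hR.const_div_atTop C)
    filter_upwards [hR.eventually_ge_atTop 1,
      hu.norm.eventually (ge_mem_nhds (lt_add_one ‖u₀‖))] with a h3 h4 using hC _ _ h3 h4
  simpa using h2.add h1

theorem newt_top_inv (hhom : T_HOM) {m k : Fin n → ℤ} {g : MP n}
    (h : ∀ z, eval (proj m k z) g = eval z g) (z : Cn n) :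
    eval (proj m k z) (top g) = eval z (top g) := by
  have h1 := newt_lim hhom g (R := fun R : ℝ => R) tendsto_id
    (tendsto_const_nhds (x := proj m k z))
  have h2 := newt_lim hhom g (R := fun R : ℝ => R) tendsto_id (tendsto_const_nhds (x := z))
  simp only [← proj_smul, h] at h1
  exact tendsto_nhds_unique h1 h2

theorem newt_expand (P : MP n) {m k : Fin n → ℤ} (hk : dz m k = 1) :
    ∃ (N : ℕ) (p : ℕ → MP n), (∀ j z, eval (proj m k z) (p j) = eval z (p j)) ∧
      ∀ z w, eval (proj m k z + w • cZ k) P =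
        ∑ j ∈ Finset.range (N + 1), eval z (p j) * w ^ j := by
  have key : ∀ (g : MP n) (z : Cn n),
      eval z (aeval (fun i => (X i - C (k i : ℂ) * lform m : MP n)) g) = eval (proj m k z) g := by
    intro g z
    induction g using MvPolynomial.induction_on with
    | C a => simp
    | add p q hp hq => simp only [map_add, hp, hq]
    | mul_X p i hp =>
      simp only [map_mul, hp, aeval_X, map_sub, eval_X, eval_C, eval_lform]
      simp only [proj, cZ, Pi.sub_apply, Pi.smul_apply, smul_eq_mul, mul_comm]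
  refine ⟨(lin (cZ k) P).natDegree, fun j => aeval (fun i => (X i - C (k i : ℂ) * lform m : MP n))
    ((lin (cZ k) P).coeff j), fun j z => ?_, fun z w => ?_⟩
  · rw [key, key, proj_of_dz (dz_proj hk z)]
  · rw [← lin_eval, ev1_eq_sum _ _ _ le_rfl]
    simp only [key]

theorem newt_lform_deg (m : Fin n → ℤ) : (lform m).totalDegree ≤ 1 :=
  (IsHomogeneous.sum _ _ 1 fun i _ => isHomogeneous_C_mul_X _ i).totalDegree_le

theorem newt_edge (hhom : T_HOM) {P : MP n} {m k : Fin n → ℤ} (hk : dz m k = 1) {N : ℕ}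
    {p : ℕ → MP n} (hs : ∀ z w, eval (proj m k z + w • cZ k) P =
      ∑ j ∈ Finset.range (N + 1), eval z (p j) * w ^ j)
    (ht : ∀ u : Cn n, dz m u = 0 → eval u (top P) = 0) (h0 : p 0 ≠ 0) :
    ∃ j ∈ Finset.range (N + 1), p j ≠ 0 ∧ (p 0).totalDegree < (p j).totalDegree + j := by
  by_contra hc
  push Not at hc
  have hP : P = ∑ j ∈ Finset.range (N + 1), p j * lform m ^ j := by
    refine MvPolynomial.funext fun z => ?_
    have := hs z (dz m z)
    rw [proj_add_smul] at this
    simp only [this, map_sum, map_mul, map_pow, eval_lform]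
  have hD : P.totalDegree ≤ (p 0).totalDegree := by
    rw [hP]
    refine totalDegree_finsetSum_le fun j hj => ?_
    by_cases hj0 : p j = 0
    · simp [hj0]
    · refine (totalDegree_mul _ _).trans (le_trans ?_ (hc j hj hj0))
      have := (totalDegree_pow (lform m) j).trans (Nat.mul_le_mul_left j (newt_lform_deg m))
      omega
  obtain ⟨z, hz⟩ := newt_exists (newt_top_ne h0)
  have h1 := newt_lim hhom (p 0) (R := fun R : ℝ => R) tendsto_id (tendsto_const_nhds (x := z))
  have h2 := newt_lim hhom P (R := fun R : ℝ => R) tendsto_id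
    (tendsto_const_nhds (x := proj m k z))
  rw [ht _ (dz_proj hk z)] at h2
  have h3 : ∀ x, eval (proj m k x) P = eval x (p 0) := fun x => by
    simpa [Finset.sum_range_succ'] using hs x 0
  simp only [← proj_smul, h3] at h2
  refine hz (tendsto_nhds_unique h1 (squeeze_zero_norm' ?_ (tendsto_zero_iff_norm_tendsto_zero.1 h2)))
  filter_upwards [eventually_ge_atTop (1 : ℝ)] with R hR
  simp only [norm_div, norm_pow, Complex.norm_real, Real.norm_of_nonneg (zero_le_one.trans hR)]
  exact div_le_div_of_nonneg_left (norm_nonneg _) (by positivity) (pow_le_pow_right₀ hR hD)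

open Classical in
/-- the edge polynomial -/
noncomputable def newtQ (N : ℕ) (p : ℕ → MP n) (θ : ℝ) (s : Fin n → ℝ) : Polynomial ℂ :=
  ∑ j ∈ Finset.range (N + 1), Polynomial.monomial j
    (if ((p j).totalDegree : ℝ) + θ * j = (p 0).totalDegree then eval (iR s) (top (p j)) else 0)

open Classical in
theorem newt_eval (N : ℕ) (p : ℕ → MP n) (θ : ℝ) (s : Fin n → ℝ) (η : ℂ) :
    (newtQ N p θ s).eval η = ∑ j ∈ Finset.range (N + 1),
      (if ((p j).totalDegree : ℝ) + θ * j = (p 0).totalDegree then eval (iR s) (top (p j))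
        else 0) * η ^ j := by
  simp only [newtQ, Polynomial.eval_finsetSum, Polynomial.eval_monomial]

theorem newt_coeff {N : ℕ} (p : ℕ → MP n) {θ : ℝ} (s : Fin n → ℝ) {j : ℕ}
    (hj : j ∈ Finset.range (N + 1)) (h : ((p j).totalDegree : ℝ) + θ * j = (p 0).totalDegree) :
    (newtQ N p θ s).coeff j = eval (iR s) (top (p j)) := by
  simp only [newtQ, Polynomial.finsetSum_coeff, Polynomial.coeff_monomial]
  rw [Finset.sum_ite_eq' , if_pos hj, if_pos h]

theorem newt_conv (hhom : T_HOM) {P : MP n} {m k : Fin n → ℤ} {N : ℕ}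
    {p : ℕ → MP n} (hs : ∀ z w, eval (proj m k z + w • cZ k) P =
      ∑ j ∈ Finset.range (N + 1), eval z (p j) * w ^ j) {θ : ℝ} (h1 : θ < 1)
    (hle : ∀ j ∈ Finset.range (N + 1), p j ≠ 0 →
      ((p j).totalDegree : ℝ) + θ * j ≤ (p 0).totalDegree) (s : Fin n → ℝ) (K κ : ℝ)
    (hκ : 0 < κ) : ∀ᶠ R : ℝ in Filter.atTop,
    ∀ (x : Cn n) (η : ℂ), ‖x - (R : ℂ) • iR s‖ ≤ K * R ^ (max θ (1 / 2)) → ‖η‖ ≤ K →
      ‖eval (proj m k x + (((R ^ θ : ℝ) : ℂ) * η) • cZ k) P / (R : ℂ) ^ (p 0).totalDegree -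
        (newtQ N p θ s).eval η‖ ≤ κ := by
  classical
  let A : Set (ℝ × Cn n × ℂ) :=
    {a | ‖a.2.1 - (a.1 : ℂ) • iR s‖ ≤ K * a.1 ^ (max θ (1 / 2)) ∧ ‖a.2.2‖ ≤ K}
  let l : Filter (ℝ × Cn n × ℂ) := comap Prod.fst atTop ⊓ 𝓟 A
  have hR : Tendsto (fun a : ℝ × Cn n × ℂ => a.1) l atTop := tendsto_comap.mono_left inf_le_left
  have hA : ∀ᶠ a in l, a ∈ A := mem_inf_of_right (mem_principal_self A)
  have hu : Tendsto (fun a : ℝ × Cn n × ℂ => ((a.1 : ℂ)⁻¹) • a.2.1) l (𝓝 (iR s)) := by
    rw [tendsto_iff_norm_sub_tendsto_zero]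
    have h2 : Tendsto (fun a : ℝ × Cn n × ℂ => K * a.1 ^ (-(1 - max θ (1 / 2)))) l (𝓝 0) := by
      simpa using ((tendsto_rpow_neg_atTop (y := 1 - max θ (1 / 2))
        (sub_pos.2 (max_lt h1 (by norm_num)))).comp hR).const_mul K
    refine squeeze_zero' (Eventually.of_forall fun _ => norm_nonneg _) ?_ h2
    filter_upwards [hA, hR.eventually_gt_atTop 0] with a ha h0
    have hc : (a.1 : ℂ) ≠ 0 := by exact_mod_cast h0.ne'
    have e : ((a.1 : ℂ)⁻¹) • a.2.1 - iR s = ((a.1 : ℂ)⁻¹) • (a.2.1 - (a.1 : ℂ) • iR s) := by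
      rw [smul_sub, inv_smul_smul₀ hc]
    rw [e, norm_smul, norm_inv, Complex.norm_real, Real.norm_of_nonneg h0.le, neg_sub,
      Real.rpow_sub_one h0.ne', ← mul_div_assoc, div_eq_inv_mul]
    exact mul_le_mul_of_nonneg_left ha.1 (by positivity)
  have hterm : ∀ j ∈ Finset.range (N + 1), Tendsto (fun a : ℝ × Cn n × ℂ =>
      (eval a.2.1 (p j) * (((a.1 ^ θ : ℝ) : ℂ)) ^ j / (a.1 : ℂ) ^ (p 0).totalDegree -
        (if ((p j).totalDegree : ℝ) + θ * j = (p 0).totalDegree then eval (iR s) (top (p j))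
          else 0)) * a.2.2 ^ j) l (𝓝 0) := by
    intro j hj
    have hb : IsBoundedUnder (· ≤ ·) l fun a : ℝ × Cn n × ℂ => ‖a.2.2 ^ j‖ :=
      ⟨K ^ j, by
        rw [eventually_map]
        filter_upwards [hA] with a ha
        rw [norm_pow]; exact pow_le_pow_left₀ (norm_nonneg _) ha.2 j⟩
    refine Tendsto.zero_mul_isBoundedUnder_le ?_ hb
    rw [← tendsto_sub_nhds_zero_iff.symm]
    by_cases hj0 : p j = 0
    · simpa [hj0, top] using tendsto_const_nhds (x := (0 : ℂ)) (f := l)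
    have h3 := newt_lim hhom (p j) hR hu
    set e : ℝ := ((p j).totalDegree : ℝ) + θ * j - (p 0).totalDegree with he
    have h4 : ∀ᶠ a in l, eval ((a.1 : ℂ) • ((a.1 : ℂ)⁻¹) • a.2.1) (p j) /
        (a.1 : ℂ) ^ (p j).totalDegree * ((a.1 ^ e : ℝ) : ℂ) =
        eval a.2.1 (p j) * (((a.1 ^ θ : ℝ) : ℂ)) ^ j / (a.1 : ℂ) ^ (p 0).totalDegree := by
      filter_upwards [hR.eventually_gt_atTop 0] with a h0
      have hc : (a.1 : ℂ) ≠ 0 := by exact_mod_cast h0.ne'
      rw [smul_inv_smul₀ hc, he, Real.rpow_sub h0, Real.rpow_add h0, Real.rpow_natCast,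
        Real.rpow_natCast, Real.rpow_mul h0.le, Real.rpow_natCast]
      push_cast
      field_simp
    refine Tendsto.congr' h4 ?_
    split_ifs with h5
    · have : e = 0 := by rw [he, h5, sub_self]
      simpa [this] using h3
    · have h6 : 0 < -e := by
        have := lt_of_le_of_ne (hle j hj hj0) h5
        rw [he]; linarith
      have h7 := (Complex.continuous_ofReal.tendsto 0).comp
        ((tendsto_rpow_neg_atTop h6).comp hR)
      rw [neg_neg] at h7
      simpa [Function.comp_def] using h3.mul h7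
  have hsum := tendsto_finsetSum _ hterm
  rw [Finset.sum_const_zero] at hsum
  have h8 := (tendsto_zero_iff_norm_tendsto_zero.1 hsum).eventually (ge_mem_nhds hκ)
  rw [eventually_inf_principal, eventually_comap] at h8
  filter_upwards [h8] with R hR' x η h9 h10
  have h11 := hR' (R, x, η) rfl ⟨h9, h10⟩
  rw [hs, newt_eval, Finset.sum_div, ← Finset.sum_sub_distrib]
  refine le_of_eq_of_le (congrArg _ (Finset.sum_congr rfl fun j _ => ?_)) h11
  ring

theorem newt_neg (N : ℕ) (p : ℕ → MP n) (θ : ℝ) (s : Fin n → ℝ) (η : ℂ) :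
    (newtQ N p θ (-s)).eval η = (-1) ^ (p 0).totalDegree *
      (newtQ N p θ s).eval (Complex.exp (Real.pi * θ * Complex.I) * η) := by
  rw [newt_eval, newt_eval, Finset.mul_sum]
  refine Finset.sum_congr rfl fun j _ => ?_
  split_ifs with h
  · have h1 : (θ : ℂ) * j = (p 0).totalDegree - (p j).totalDegree := by
      have : θ * j = (p 0).totalDegree - (p j).totalDegree := by linarith
      exact_mod_cast this
    have h2 : Complex.exp (Real.pi * θ * Complex.I) ^ j * (-1) ^ (p j).totalDegree =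
        (-1) ^ (p 0).totalDegree := by
      rw [← Complex.exp_pi_mul_I, ← Complex.exp_nat_mul, ← Complex.exp_nat_mul,
        ← Complex.exp_nat_mul, ← Complex.exp_add]
      congr 1
      linear_combination (Real.pi * Complex.I) * h1
    have h3 : ((-1 : ℂ) ^ (p 0).totalDegree) * (-1) ^ (p 0).totalDegree = 1 := by
      rw [← mul_pow]; simp
    have h4 : ((-1 : ℂ) ^ (p j).totalDegree) * (-1) ^ (p j).totalDegree = 1 := by
      rw [← mul_pow]; simp
    have h5 : (-1 : ℂ) ^ (p j).totalDegree =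
        (-1) ^ (p 0).totalDegree * Complex.exp (Real.pi * θ * Complex.I) ^ j := by
      linear_combination (-(-1 : ℂ) ^ (p j).totalDegree) * h3 +
        ((-1) ^ (p 0).totalDegree * Complex.exp (Real.pi * θ * Complex.I) ^ j) * h4 -
        ((-1) ^ (p 0).totalDegree * (-1 : ℂ) ^ (p j).totalDegree * (-1 : ℂ) ^ (p j).totalDegree
          * (-1 : ℂ) ^ (p j).totalDegree) * h2 +
        ((-1) ^ (p 0).totalDegree * Complex.exp (Real.pi * θ * Complex.I) ^ j *
          (-1 : ℂ) ^ (p j).totalDegree * (-1 : ℂ) ^ (p j).totalDegree -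
          (-1 : ℂ) ^ (p 0).totalDegree * (-1) ^ (p 0).totalDegree *
            (-1 : ℂ) ^ (p j).totalDegree) * h4
    rw [iR_neg, ← neg_one_smul ℂ (iR s), newt_hom, h5, mul_pow]
    ring
  · simp

theorem t_newt (hhom : T_HOM) (himag : T_IMAG) : T_NEWT := by
  classical
  intro n P m k hk ht ⟨u, hu, hu0⟩
  obtain ⟨N, p, hinv, hs⟩ := newt_expand P hk
  have h0 : p 0 ≠ 0 := by
    intro h
    have := hs u 0
    simp [Finset.sum_range_succ', h, proj_of_dz hu] at this
    exact hu0 this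
  obtain ⟨j₀, hj₀, hp₀, hd₀⟩ := newt_edge hhom hk hs ht h0
  have hj₀1 : 1 ≤ j₀ := by
    rcases Nat.eq_zero_or_pos j₀ with h | h
    · rw [h] at hd₀; omega
    · exact h
  obtain ⟨j₁, hj₁, hmin⟩ := Finset.exists_min_image
    ((Finset.range (N + 1)).filter fun j => p j ≠ 0 ∧ 1 ≤ j)
    (fun j => (((p 0).totalDegree : ℝ) - (p j).totalDegree) / j)
    ⟨j₀, Finset.mem_filter.2 ⟨hj₀, hp₀, hj₀1⟩⟩
  obtain ⟨hj₁, hp₁, hj₁1⟩ := Finset.mem_filter.1 hj₁
  set θ : ℝ := (((p 0).totalDegree : ℝ) - (p j₁).totalDegree) / j₁ with hθ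
  have hθ1 : θ < 1 := by
    refine (hmin j₀ (Finset.mem_filter.2 ⟨hj₀, hp₀, hj₀1⟩)).trans_lt ?_
    have : ((p 0).totalDegree : ℝ) < (p j₀).totalDegree + j₀ := by exact_mod_cast hd₀
    rw [div_lt_one (by exact_mod_cast hj₀1)]; linarith
  have hle : ∀ j ∈ Finset.range (N + 1), p j ≠ 0 →
      ((p j).totalDegree : ℝ) + θ * j ≤ (p 0).totalDegree := by
    intro j hj hp
    rcases Nat.eq_zero_or_pos j with h | h
    · simp [h]
    · have := hmin j (Finset.mem_filter.2 ⟨hj, hp, h⟩)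
      rw [le_div_iff₀ (by exact_mod_cast h)] at this
      linarith
  have he₁ : ((p j₁).totalDegree : ℝ) + θ * j₁ = (p 0).totalDegree := by
    have : (j₁ : ℝ) ≠ 0 := by exact_mod_cast (by omega : j₁ ≠ 0)
    rw [hθ]; field_simp; ring
  have he₀ : ((p 0).totalDegree : ℝ) + θ * (0 : ℕ) = (p 0).totalDegree := by simp
  obtain ⟨s', hs'⟩ : ∃ s', eval (iR s') (top (p 0) * top (p j₁)) ≠ 0 := by
    by_contra hc
    push Not at hc
    exact mul_ne_zero (newt_top_ne h0) (newt_top_ne hp₁)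
      (himag n _ Set.univ isOpen_univ Set.univ_nonempty fun s _ => hc s)
  set s : Fin n → ℝ := fun i => s' i - dz m s' * k i with hsd
  have hs1 : iR s = proj m k (iR s') := by
    funext i
    simp only [iR, hsd, proj, cZ, Pi.sub_apply, Pi.smul_apply, smul_eq_mul]
    have := dz_iR m s'
    unfold iR at this ⊢
    rw [this]; push_cast; ring
  have hs2 : dz m s = 0 := by
    have := dz_proj hk (iR s')
    rw [← hs1, dz_iR] at this
    simpa using this
  rw [map_mul, ← newt_top_inv hhom (hinv 0), ← newt_top_inv hhom (hinv j₁), ← hs1] at hs'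
  have c0 := newt_coeff p s (Finset.mem_range.2 (Nat.succ_pos N)) he₀
  have c1 := newt_coeff p s hj₁ he₁
  have hc0 : (newtQ N p θ s).coeff 0 ≠ 0 := c0 ▸ left_ne_zero_of_mul hs'
  have hc1 : (newtQ N p θ s).coeff j₁ ≠ 0 := c1 ▸ right_ne_zero_of_mul hs'
  obtain ⟨η, hη⟩ := Complex.exists_root (f := newtQ N p θ s)
    (lt_of_lt_of_le (by exact_mod_cast hj₁1) (Polynomial.le_degree_of_ne_zero hc1))
  have hη0 : η ≠ 0 := by
    rintro rfl
    exact hc0 (by rw [Polynomial.coeff_zero_eq_eval_zero]; exact hη)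
  have hq : newtQ N p θ s ≠ 0 := fun h => hc0 (by rw [h]; simp)
  by_cases hc : 0 < θ → η.re ≠ 0
  · exact ⟨θ, s, _, η, _, hθ1, ⟨hs2, hq, hη, newt_conv hhom hs hθ1 hle s⟩, hc⟩
  · push Not at hc
    have hω := Complex.exp_ne_zero (Real.pi * θ * Complex.I)
    refine ⟨θ, -s, newtQ N p θ (-s), Complex.exp (-(Real.pi * θ * Complex.I)) * η, _, hθ1,
      ⟨?_, fun h => hc0 ?_, ?_, newt_conv hhom hs hθ1 hle (-s)⟩, fun _ => ?_⟩
    · have := dz_smul m (-1 : ℝ) s
      rw [hs2, mul_zero, neg_one_smul] at this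
      exact this
    · have := newt_neg N p θ s 0
      rw [h, mul_zero, Polynomial.eval_zero] at this
      rw [Polynomial.coeff_zero_eq_eval_zero]
      simpa using this.symm
    · rw [newt_neg, ← mul_assoc, ← Complex.exp_add, add_neg_cancel, Complex.exp_zero, one_mul,
        hη.eq_zero, mul_zero]
    · have h1 : η.im ≠ 0 := fun h => hη0 (Complex.ext hc.2 h)
      have h2 : 0 < Real.sin (Real.pi * θ) := Real.sin_pos_of_pos_of_lt_pi
        (mul_pos Real.pi_pos hc.1) (mul_lt_of_lt_one_right Real.pi_pos hθ1)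
      have e : -(Real.pi * θ * Complex.I) = ((-(Real.pi * θ) : ℝ) : ℂ) * Complex.I := by
        push_cast; ring
      rw [e, Complex.mul_re, Complex.exp_ofReal_mul_I_im, hc.2, Real.sin_neg]
      simpa using ⟨h2.ne', h1⟩

end Pool.Agent.P.MP_d2ed07_lc
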