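import Pool.Agent.P.MP_d2ed07_lc.Basic

namespace Pool.Agent.P.MP_d2ed07_lc

open MvPolynomial Metric Filter Topology

variable {n : ℕ}

theorem nld_ddir (m k : Fin n → ℤ) (i : Fin n) (g : MP n) :
    ddir (proj m k (Pi.single i 1)) g = pderiv i g - C (m i : ℂ) * ddir (cZ k) g := by
  classical
  rw [proj, dz_single]
  simp only [ddir, Pi.sub_apply, Pi.smul_apply, smul_eq_mul, map_sub, map_mul, sub_mul,
    Finset.sum_sub_distrib, Finset.mul_sum, mul_assoc]
  congr 1
  rw [Finset.sum_eq_single i] <;> simp +contextual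

theorem nld_Dt (P : MP n) (m k : Fin n → ℤ) (i : Fin n) (g : MP n) :
    Dt P m k i g = ddir (cZ k) P * pderiv i g - pderiv i P * ddir (cZ k) g := by
  rw [Dt, nld_ddir, nld_ddir]; ring

theorem nld_sum {K : Type} [Field K] [Algebra ℂ K] (d : Derivation ℂ K K) (z : Fin n → K)
    {P : MP n} (hP : aeval z P = 0) (m k : Fin n → ℤ) (g : MP n) :
    ∑ i, d (z i) * aeval z (Dt P m k i g) = aeval z (ddir (cZ k) P) * d (aeval z g) := by
  have h0 : ∑ i, d (z i) * aeval z (pderiv i P) = 0 := by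
    rw [← deriv_aeval, hP, map_zero]
  have h1 : ∀ i, d (z i) * aeval z (Dt P m k i g) =
      aeval z (ddir (cZ k) P) * (d (z i) * aeval z (pderiv i g)) -
        d (z i) * aeval z (pderiv i P) * aeval z (ddir (cZ k) g) := fun i => by
    rw [nld_Dt, map_sub, map_mul, map_mul]; ring
  simp only [h1, Finset.sum_sub_distrib]
  rw [← Finset.mul_sum, ← Finset.sum_mul, h0, ← deriv_aeval, zero_mul, sub_zero]

theorem nld_fg {F : Type} [Field F] [Algebra ℂ F] (D : Data n F) :
    (⊤ : IntermediateField ℂ D.k).FG := by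
  refine IntermediateField.fg_def.2 ⟨Set.range fun r : Fin n =>
    (⟨D.z r, IntermediateField.subset_adjoin _ _ ⟨r, rfl⟩⟩ : D.k), Set.finite_range _, ?_⟩
  apply IntermediateField.lift_injective
  rw [IntermediateField.lift_adjoin, IntermediateField.lift_top, ← Set.range_comp]
  rfl

theorem t_nld (hros : T_ROS) (hder1 : T_DER1) : T_NLD := by
  intro n F _ _ D m k g₁ g₂ a hfree hmk hk h1 h2 ha
  by_contra hcon
  push Not at hcon
  let zK : Fin n → D.k := fun r => ⟨D.z r, IntermediateField.subset_adjoin _ _ ⟨r, rfl⟩⟩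
  have hz : ∀ g : MP n, aeval zK g = 0 ↔ D.P ∣ g := fun g => by
    rw [← D.hP, ← map_eq_zero (algebraMap D.k F), ← aeval_algebraMap_apply]
    rfl
  have hfg := nld_fg D
  have n1 : aeval zK g₁ ≠ 0 := fun h => h1 ((hz _).1 h)
  have n2 : aeval zK g₂ ≠ 0 := fun h => h2 ((hz _).1 h)
  have nk : aeval zK (ddir (cZ k) D.P) ≠ 0 := fun h => hk ((hz _).1 h)
  have na : (a : D.k) ≠ 0 := Int.cast_ne_zero.2 ha
  have key : ∀ d : Derivation ℂ D.k D.k, d (aeval zK g₁ / aeval zK g₂) / (aeval zK g₁ / aeval zK g₂)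
      = d (-(a : D.k) * aeval zK (lform m)) := by
    intro d
    have hP := (hz D.P).2 dvd_rfl
    have e : ∑ i, d (zK i) * aeval zK (g₂ * Dt D.P m k i g₁ - g₁ * Dt D.P m k i g₂ +
        C (a : ℂ) * g₁ * g₂ * Dt D.P m k i (lform m)) = 0 :=
      Finset.sum_eq_zero fun i _ => by rw [(hz _).2 (hcon i), mul_zero]
    have e2 : ∀ i, d (zK i) * aeval zK (g₂ * Dt D.P m k i g₁ - g₁ * Dt D.P m k i g₂ +
        C (a : ℂ) * g₁ * g₂ * Dt D.P m k i (lform m)) =
        aeval zK g₂ * (d (zK i) * aeval zK (Dt D.P m k i g₁)) -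
          aeval zK g₁ * (d (zK i) * aeval zK (Dt D.P m k i g₂)) +
          (a : D.k) * aeval zK g₁ * aeval zK g₂ *
            (d (zK i) * aeval zK (Dt D.P m k i (lform m))) := fun i => by
      simp only [map_add, map_sub, map_mul, map_intCast]; ring
    simp only [e2, Finset.sum_add_distrib, Finset.sum_sub_distrib, ← Finset.mul_sum,
      nld_sum d zK hP] at e
    have e3 : aeval zK g₂ * d (aeval zK g₁) - aeval zK g₁ * d (aeval zK g₂) +
        (a : D.k) * aeval zK g₁ * aeval zK g₂ * d (aeval zK (lform m)) = 0 := by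
      apply mul_left_cancel₀ nk
      linear_combination e
    rw [Derivation.leibniz_div, Derivation.leibniz, Derivation.map_neg, Derivation.map_intCast]
    simp only [smul_eq_mul]
    field_simp
    linear_combination e3
  have h3 := hros ℂ D.k hfg Unit (fun _ => 1) (fun _ => aeval zK g₁ / aeval zK g₂)
    (-(a : D.k) * aeval zK (lform m)) (linearIndependent_unique_iff.2 one_ne_zero)
    (fun _ => div_ne_zero n1 n2) (fun d => by simpa using key d) ()
  have h4 : ∀ d : Derivation ℂ D.k D.k, d (aeval zK (lform m)) = 0 := fun d => by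
    have e := key d
    rw [h3 d, zero_div, Derivation.leibniz, Derivation.map_neg, Derivation.map_intCast] at e
    simpa [ha] using e
  have h5 : IsAlgebraic ℂ (aeval zK (lform m)) := by
    by_contra h
    obtain ⟨d, hd⟩ := hder1 ℂ D.k hfg _ h
    rw [h4 d] at hd
    exact zero_ne_one hd
  obtain ⟨c, hc⟩ := h5.isIntegral.mem_range_algebraMap_of_minpoly_splits (K := ℂ)
    (IsAlgClosed.splits _)
  refine hfree m (fun h => by rw [h] at hmk; simp [dz] at hmk) c ?_
  rw [← aeval_lform, ← sub_eq_zero, ← aeval_C D.z c, ← map_sub, D.hP, ← hz, map_sub, aeval_C, hc,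
    sub_self]

end Pool.Agent.P.MP_d2ed07_lc
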