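import Pool.Agent.P.MP_d2ed07_lc.Basic

namespace Pool.Agent.P.MP_d2ed07_lc
open MvPolynomial Metric Filter Topology

theorem t_grow : T_GROW := by
  intro n g
  induction g using MvPolynomial.induction_on with
  | C a =>
    obtain ⟨N, hN⟩ := pow_unbounded_of_one_lt ‖a‖ (one_lt_two (α := ℝ))
    exact ⟨N, fun R x hR _ => by
      rw [eval_C]; exact hN.le.trans (pow_le_pow_left₀ (by norm_num) hR N)⟩
  | add p q hp hq =>
    obtain ⟨N₁, h₁⟩ := hp
    obtain ⟨N₂, h₂⟩ := hq
    refine ⟨max N₁ N₂ + 1, fun R x hR hx => ?_⟩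
    have h1 : R ^ N₁ ≤ R ^ max N₁ N₂ := pow_le_pow_right₀ (by linarith) (le_max_left _ _)
    have h2 : R ^ N₂ ≤ R ^ max N₁ N₂ := pow_le_pow_right₀ (by linarith) (le_max_right _ _)
    have h3 : 0 ≤ R ^ max N₁ N₂ := by positivity
    rw [map_add, pow_succ]
    refine (norm_add_le _ _).trans ?_
    nlinarith [h₁ R x hR hx, h₂ R x hR hx]
  | mul_X p i hp =>
    obtain ⟨N, h⟩ := hp
    refine ⟨N + 1, fun R x hR hx => ?_⟩
    rw [map_mul, eval_X, norm_mul, pow_succ]
    exact mul_le_mul (h R x hR hx) ((norm_le_pi_norm x i).trans hx) (norm_nonneg _)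
      (by positivity)

theorem t_grow1 (hgrow : T_GROW) : T_GROW1 := by
  intro n h
  induction h using Polynomial.induction_on' with
  | add p q hp hq =>
    obtain ⟨N₁, h₁⟩ := hp
    obtain ⟨N₂, h₂⟩ := hq
    refine ⟨max N₁ N₂ + 1, fun R x β hR hx hβ => ?_⟩
    have h1 : R ^ N₁ ≤ R ^ max N₁ N₂ := pow_le_pow_right₀ (by linarith) (le_max_left _ _)
    have h2 : R ^ N₂ ≤ R ^ max N₁ N₂ := pow_le_pow_right₀ (by linarith) (le_max_right _ _)
    have h3 : 0 ≤ R ^ max N₁ N₂ := by positivity
    have h4 : ev1 x β (p + q) = ev1 x β p + ev1 x β q := Polynomial.eval₂_add _ _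
    rw [h4, pow_succ]
    refine (norm_add_le _ _).trans ?_
    nlinarith [h₁ R x β hR hx hβ, h₂ R x β hR hx hβ]
  | monomial k a =>
    obtain ⟨N, h⟩ := hgrow n a
    refine ⟨N + k, fun R x β hR hx hβ => ?_⟩
    rw [ev1, Polynomial.eval₂_monomial, norm_mul, norm_pow, pow_add]
    exact mul_le_mul (h R x hR hx) (pow_le_pow_left₀ (norm_nonneg _) hβ k) (by positivity)
      (by positivity)

theorem poly_hom_eval {n j : ℕ} {Q : MP n} (hQ : Q.IsHomogeneous j) (c : ℂ) (u : Cn n) :
    eval (c • u) Q = c ^ j * eval u Q := by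
  rw [eval_eq', eval_eq', Finset.mul_sum]
  refine Finset.sum_congr rfl fun d hd => ?_
  have h1 : ∑ i, d i = j := by
    have := hQ (mem_support_iff.1 hd)
    rw [← this, Finsupp.weight_apply, Finsupp.sum_fintype _ _ (by simp)]
    simp
  simp only [Pi.smul_apply, smul_eq_mul, mul_pow, Finset.prod_mul_distrib,
    Finset.prod_pow_eq_pow_sum, h1]
  ring

theorem t_hom : T_HOM := by
  intro n P K
  have hb : ∀ Q : MP n, ∃ B : ℝ, 0 ≤ B ∧ ∀ u : Cn n, ‖u‖ ≤ K → ‖eval u Q‖ ≤ B := fun Q => by
    obtain ⟨B, hB⟩ := (isCompact_closedBall (0 : Cn n) K).exists_bound_of_continuousOn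
      (continuous_eval' Q).continuousOn
    exact ⟨max B 0, le_max_right _ _, fun u hu =>
      (hB u (by simpa using hu)).trans (le_max_left _ _)⟩
  choose B hB0 hB using hb
  refine ⟨∑ j ∈ Finset.range P.totalDegree, B (homogeneousComponent j P),
    Finset.sum_nonneg fun j _ => hB0 _, fun R u hR hu => ?_⟩
  have hR0 : (0 : ℝ) < R := by linarith
  have hRc : (R : ℂ) ≠ 0 := by exact_mod_cast hR0.ne'
  have h1 : eval ((R : ℂ) • u) P = ∑ j ∈ Finset.range (P.totalDegree + 1),
      (R : ℂ) ^ j * eval u (homogeneousComponent j P) := by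
    conv_lhs => rw [← sum_homogeneousComponent P]
    rw [map_sum]
    exact Finset.sum_congr rfl fun j _ =>
      poly_hom_eval (homogeneousComponent_isHomogeneous j P) _ _
  rw [h1, Finset.sum_range_succ, add_div, top, mul_div_cancel_left₀ _ (pow_ne_zero _ hRc),
    add_sub_cancel_right, Finset.sum_div, Finset.sum_div]
  refine (norm_sum_le _ _).trans (Finset.sum_le_sum fun j hj => ?_)
  rw [norm_div, norm_mul, norm_pow, norm_pow, Complex.norm_real, Real.norm_of_nonneg hR0.le,
    div_le_div_iff₀ (by positivity) hR0]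
  have h2 : R ^ j * R ≤ R ^ P.totalDegree := by
    rw [← pow_succ]; exact pow_le_pow_right₀ hR (Finset.mem_range.1 hj)
  have h3 := hB (homogeneousComponent j P) u hu
  calc R ^ j * ‖eval u (homogeneousComponent j P)‖ * R
      = ‖eval u (homogeneousComponent j P)‖ * (R ^ j * R) := by ring
    _ ≤ B (homogeneousComponent j P) * R ^ P.totalDegree :=
      mul_le_mul h3 h2 (by positivity) (hB0 _)

theorem poly_b_deg {n : ℕ} (c : MP n) (i : Fin n) (h : pderiv i c ≠ 0) :
    (pderiv i c).totalDegree < c.totalDegree := by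
  classical
  obtain ⟨m, hm, hmeq⟩ := Finset.exists_mem_eq_sup (pderiv i c).support
    (support_nonempty.2 h) (fun s : Fin n →₀ ℕ => s.sum fun _ e => e)
  have h1 : coeff (m + Finsupp.single i 1) c ≠ 0 := by
    intro h0
    have := mem_support_iff.1 hm
    rw [coeff_pderiv, h0, zero_mul] at this
    exact this rfl
  have h2 := le_totalDegree (mem_support_iff.2 h1)
  rw [Finsupp.sum_add_index' (fun _ => rfl) (fun _ _ _ => rfl), Finsupp.sum_single_index rfl] at h2
  have h3 : (pderiv i c).totalDegree = m.sum fun _ e => e := hmeq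
  omega

theorem poly_b_ddir_single {n : ℕ} (c : MP n) (i : Fin n) :
    ddir (Pi.single i 1) c = pderiv i c := by
  classical
  rw [ddir, Finset.sum_eq_single i]
  · simp
  · intro j _ hj; simp [Pi.single_eq_of_ne hj]
  · simp

theorem poly_b_low {n : ℕ} (d : ℕ) : ∀ (c : MP n), c.totalDegree ≤ d → c ≠ 0 → ∀ r : ℝ, 0 < r →
    ∃ κ : ℝ, 0 < κ ∧ ∀ x : Cn n, ∃ p ∈ ball x r, κ ≤ ‖eval p c‖ := by
  induction d using Nat.strong_induction_on with
  | _ d ih =>
  intro c hd hc r hr
  by_cases h : ∀ i, pderiv i c = 0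
  · have h1 : ∀ x y : Cn n, eval x c = eval y c := by
      refine is_const_of_fderiv_eq_zero (𝕜 := ℂ) (differentiable_eval c) fun x => ?_
      refine ContinuousLinearMap.ext fun u => ?_
      rw [fderiv_eval]
      simp [ddir, h]
    have h2 : eval (0 : Cn n) c ≠ 0 := fun h0 =>
      hc (MvPolynomial.funext fun x => by rw [h1 x 0, h0, map_zero])
    exact ⟨‖eval (0 : Cn n) c‖, norm_pos_iff.2 h2, fun x => ⟨x, mem_ball_self hr, by rw [h1 x 0]⟩⟩
  · push Not at h
    obtain ⟨i, hi⟩ := h
    obtain ⟨κ, hκ, H⟩ := ih _ ((poly_b_deg c i hi).trans_le hd) (pderiv i c) le_rfl hi (r / 2)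
      (by positivity)
    refine ⟨κ * (r / 4) / 2, by positivity, fun x => ?_⟩
    obtain ⟨p, hp, hpκ⟩ := H x
    by_contra hcon
    push Not at hcon
    set e : Cn n := Pi.single i 1 with he
    have hne : ‖e‖ = 1 := by rw [he, Pi.norm_single, norm_one]
    have hdiff : Differentiable ℂ fun t : ℂ => eval (p + t • e) c :=
      (differentiable_eval c).comp (by fun_prop)
    have hder : deriv (fun t : ℂ => eval (p + t • e) c) 0 = eval p (pderiv i c) := by
      obtain ⟨A, hA, hA'⟩ := hasFDerivAt_eval c p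
      have h1 : HasDerivAt (fun t : ℂ => p + t • e) e 0 := by
        simpa using ((hasDerivAt_id (0 : ℂ)).smul_const e).const_add p
      have h2 : HasFDerivAt (fun x => eval x c) A (p + (0 : ℂ) • e) := by simpa using hA
      have h3 := h2.comp_hasDerivAt (0 : ℂ) h1
      have h4 : deriv (fun t : ℂ => eval (p + t • e) c) 0 = A e := h3.deriv
      rw [h4, hA', he, poly_b_ddir_single]
    have hb := Complex.norm_deriv_le_of_forall_mem_sphere_norm_le (c := 0) (R := r / 4)
      (C := κ * (r / 4) / 2) (by positivity) hdiff.diffContOnCl (fun z hz => by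
        refine (hcon _ ?_).le
        rw [mem_ball, dist_eq_norm] at hp ⊢
        have hz' : ‖z‖ = r / 4 := by simpa using hz
        calc ‖p + z • e - x‖ = ‖(p - x) + z • e‖ := by congr 1; abel
          _ ≤ ‖p - x‖ + ‖z • e‖ := norm_add_le _ _
          _ < r := by rw [norm_smul, hne, hz']; linarith)
    rw [hder] at hb
    have : κ * (r / 4) / 2 / (r / 4) = κ / 2 := by field_simp
    rw [this] at hb
    linarith

theorem t_plow : T_PLOW := fun _ c hc => poly_b_low _ c le_rfl hc 1 one_pos

theorem t_imag : T_IMAG := by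
  intro n c U hU ⟨s₀, hs₀⟩ h
  obtain ⟨ε, hε, hball⟩ := Metric.isOpen_iff.1 hU s₀ hs₀
  refine MvPolynomial.funext_set
    (fun i => (fun t : ℝ => (t : ℂ) * Complex.I) '' ball (s₀ i) ε) (fun i => ?_) fun x hx => ?_
  · refine Set.Infinite.image (fun a _ b _ hab => ?_) ?_
    · exact_mod_cast mul_right_cancel₀ Complex.I_ne_zero hab
    · rw [Real.ball_eq_Ioo]
      exact Set.Ioo_infinite (by linarith)
  · choose s hs hs' using fun i => hx i (Set.mem_univ i)
    have : x = iR s := funext fun i => (hs' i).symm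
    rw [this, map_zero]
    exact h s (hball ((ball_pi s₀ hε).symm ▸ fun i _ => hs i))

theorem poly_b_dvd {n : ℕ} (L : MP n) (w : Fin n → MP n) (P : MP n) :
    L ∣ P - aeval (fun i => X i - w i * L) P := by
  induction P using MvPolynomial.induction_on with
  | C a => simp
  | add p q hp hq =>
    have := dvd_add hp hq
    rw [map_add]
    convert this using 1
    ring
  | mul_X p i hp =>
    rw [map_mul, aeval_X]
    have : p * X i - aeval (fun i => X i - w i * L) p * (X i - w i * L) =
        (p - aeval (fun i => X i - w i * L) p) * X i +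
          L * (aeval (fun i => X i - w i * L) p * w i) := by ring
    rw [this]
    exact dvd_add (hp.mul_right _) (dvd_mul_right _ _)

theorem t_hyp : T_HYP := by
  intro n P m k hP hmk h
  have h1 := poly_b_dvd (lform m) (fun i => C (k i : ℂ)) P
  have h2 : aeval (fun i => X i - C (k i : ℂ) * lform m) P = (0 : MP n) := by
    refine MvPolynomial.funext fun x => ?_
    have h3 : eval x (aeval (fun i => X i - C (k i : ℂ) * lform m) P) = eval (proj m k x) P := by
      clear hP h h1
      induction P using MvPolynomial.induction_on with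
      | C a => simp
      | add p q hp hq => rw [map_add, map_add, hp, hq, map_add]
      | mul_X p i hp =>
        rw [map_mul, map_mul, hp, map_mul, aeval_X, map_sub, map_mul, eval_lform]
        simp [proj, cZ, mul_comm]
    rw [h3, h _ (dz_proj hmk x), map_zero]
  rw [h2, sub_zero] at h1
  obtain ⟨Q, hQ⟩ := h1
  have h4 : ¬ IsUnit (lform m) := fun hu => by
    have := hu.map (eval (0 : Cn n))
    rw [eval_lform] at this
    simp [dz] at this
  have h5 : IsUnit Q := (hP.irreducible.isUnit_or_isUnit hQ).resolve_left h4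
  obtain ⟨u, rfl⟩ := h5
  exact ⟨(u⁻¹ : (MP n)ˣ), by rw [hQ, mul_assoc, Units.mul_inv, mul_one]⟩

end Pool.Agent.P.MP_d2ed07_lc
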