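import Pool.Agent.P.MP_d2ed07_lc.Basic

/-! The Rabinowitsch trick. -/

namespace Pool.Agent.P.MP_d2ed07_lc

open MvPolynomial Metric Filter Topology

variable {n : ℕ} {F : Type} [Field F] [Algebra ℂ F]

/-- the new additive coordinates -/
noncomputable def rab_z (z : Fin n → F) : Fin (n + 1) → RatFunc F :=
  Fin.cons RatFunc.X fun i => RatFunc.C (z i)

theorem rab_map (c : ℂ) : algebraMap ℂ (RatFunc F) c = RatFunc.C (algebraMap ℂ F c) := by
  rw [IsScalarTower.algebraMap_apply ℂ F (RatFunc F), RatFunc.algebraMap_eq_C]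

theorem rab_fin (g : MP n) : finSuccEquiv ℂ n (rename Fin.succ g) = Polynomial.C g := by
  induction g using MvPolynomial.induction_on with
  | C a => simp [finSuccEquiv_apply]
  | add p q hp hq => simp only [map_add, hp, hq]
  | mul_X p i hp => simp only [map_mul, hp, rename_X, finSuccEquiv_X_succ]

theorem rab_ev (z : Fin n → F) (g : MP (n + 1)) : aeval (rab_z z) g =
    algebraMap (Polynomial F) (RatFunc F)
      ((finSuccEquiv ℂ n g).map (aeval z : MP n →ₐ[ℂ] F).toRingHom) := by
  induction g using MvPolynomial.induction_on with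
  | C a => simp [finSuccEquiv_apply, rab_map]
  | add p q hp hq => simp only [map_add, hp, hq, Polynomial.map_add]
  | mul_X p i hp =>
    simp only [map_mul, hp, Polynomial.map_mul, aeval_X]
    congr 1
    refine Fin.cases ?_ (fun i => ?_) i
    · simp [rab_z, finSuccEquiv_X_zero]
    · simp [rab_z, finSuccEquiv_X_succ]

theorem rab_dvd (P : MP n) (g : MP (n + 1)) :
    rename Fin.succ P ∣ g ↔ ∀ j, P ∣ (finSuccEquiv ℂ n g).coeff j := by
  rw [← Polynomial.C_dvd_iff_dvd_coeff, ← rab_fin, map_dvd_iff]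

/-- the extended generic point -/
noncomputable def rab_D (D : Data n F) (a : F) (ha : a ≠ 0) : Data (n + 1) (RatFunc F) where
  z := rab_z D.z
  y := fun i => RatFunc.C (Fin.cons (α := fun _ => F) a D.y i)
  hy := fun i => by
    rw [map_ne_zero]
    exact Fin.cases ha D.hy i
  P := rename Fin.succ D.P
  hP0 := fun h => D.hP0 (rename_injective _ (Fin.succ_injective n) (h.trans (map_zero _).symm))
  hP := fun g => by
    rw [rab_ev, rab_dvd, map_eq_zero_iff _ (RatFunc.algebraMap_injective F), Polynomial.ext_iff]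
    simp only [Polynomial.coeff_map, Polynomial.coeff_zero, ← D.hP]
    rfl

theorem rab_free {z : Fin n → F} (h : Free z) : Free (rab_z z) := by
  have : CharZero F := charZero_of_injective_algebraMap (algebraMap ℂ F).injective
  intro m hm c hc
  have e : algebraMap (Polynomial F) (RatFunc F)
      (Polynomial.C (m 0 : F) * Polynomial.X + Polynomial.C (dz (Fin.tail m) z)) =
      algebraMap (Polynomial F) (RatFunc F) (Polynomial.C (algebraMap ℂ F c)) := by
    rw [RatFunc.algebraMap_C (algebraMap ℂ F c), ← rab_map, ← hc]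
    simp [dz, Fin.sum_univ_succ, rab_z, Fin.tail]
  replace e := RatFunc.algebraMap_injective F e
  have e0 := congrArg (Polynomial.coeff · 0) e
  have e1 := congrArg (Polynomial.coeff · 1) e
  simp only [Polynomial.coeff_add, Polynomial.coeff_C_mul, Polynomial.coeff_X_zero,
    Polynomial.coeff_X_one, Polynomial.coeff_C_zero, Polynomial.coeff_C_succ, mul_zero, zero_add,
    mul_one, add_zero, Int.cast_eq_zero] at e0 e1
  refine h (Fin.tail m) (fun h0 => hm ?_) c e0
  rw [← Fin.cons_self_tail m, h0, e1]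
  exact funext fun i => Fin.cases rfl (fun _ => rfl) i

theorem rab_mem (D : Data n F) (g : MP n) : aeval D.z g ∈ D.k := by
  induction g using MvPolynomial.induction_on with
  | C a => simp
  | add p q hp hq => rw [map_add]; exact D.k.add_mem hp hq
  | mul_X p i hp =>
    rw [map_mul, aeval_X]
    exact D.k.mul_mem hp (IntermediateField.subset_adjoin _ _ ⟨i, rfl⟩)

theorem rab_alg (hrel1 : T_REL1) (D : Data n F) {a : F} (ha : a ≠ 0) {b : F} (hb : b ≠ 0)
    (h : (rab_D D a ha).Alg (RatFunc.C b)) : D.Alg b := by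
  obtain ⟨J, c, h0, -, hs⟩ := hrel1 _ _ _ _ ((map_ne_zero _).2 hb) h
  obtain ⟨e, he⟩ := not_forall.1 fun h => h0 ((rab_dvd _ _).2 h)
  have h1 : ∑ j ∈ Finset.range (J + 1), (finSuccEquiv ℂ n (c j)).map
      (aeval D.z : MP n →ₐ[ℂ] F).toRingHom * Polynomial.C (b ^ j) = 0 := by
    refine RatFunc.algebraMap_injective F ?_
    rw [map_zero, ← hs, map_sum]
    refine Finset.sum_congr rfl fun j _ => ?_
    rw [map_mul, ← rab_ev, RatFunc.algebraMap_C, map_pow]
    rfl
  have h2 := congrArg (Polynomial.coeff · e) h1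
  simp only [Polynomial.finsetSum_coeff, Polynomial.coeff_mul_C, Polynomial.coeff_map,
    Polynomial.coeff_zero] at h2
  refine ⟨∑ j ∈ Finset.range (J + 1), Polynomial.monomial j
    (⟨_, rab_mem D ((finSuccEquiv ℂ n (c j)).coeff e)⟩ : D.k), fun h3 => he ?_, ?_⟩
  · have h4 := congrArg (Polynomial.coeff · 0) h3
    simp only [Polynomial.finsetSum_coeff, Polynomial.coeff_monomial, Finset.sum_ite_eq',
      Finset.mem_range, Nat.succ_pos, if_true, Polynomial.coeff_zero] at h4
    exact (D.hP _).1 (congrArg Subtype.val h4)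
  · rw [map_sum, ← h2]
    exact Finset.sum_congr rfl fun j _ => Polynomial.aeval_monomial _

theorem rab_mon (D : Data n F) {a : F} (ha : a ≠ 0) (m : Fin (n + 1) → ℤ) (hm : m 0 = 0) :
    mon (rab_D D a ha).y m = RatFunc.C (mon D.y (Fin.tail m)) := by
  simp [mon, rab_D, Fin.prod_univ_succ, hm, Fin.tail]

theorem rab_zpow (D : Data n F) {a : F} (h : D.Alg a) (j : ℤ) : D.Alg (a ^ j) := by
  obtain ⟨i, rfl | rfl⟩ := j.eq_nat_or_neg
  · rw [zpow_natCast]; exact IsAlgebraic.pow h i
  · rw [zpow_neg, zpow_natCast]; exact (IsAlgebraic.pow h i).inv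

theorem rab_top (P : MP n) : top (rename Fin.succ P) = rename Fin.succ (top P) := by
  classical
  have : (rename Fin.succ P).totalDegree = P.totalDegree := by
    simp only [totalDegree, support_rename_of_injective (Fin.succ_injective n), Finset.sup_image]
    exact Finset.sup_congr rfl fun d _ =>
      Finsupp.sum_mapDomain_index_inj (h := fun _ e => e) (Fin.succ_injective n)
  rw [top, top, this, rename_homogeneousComponent]

theorem rab_ddir (c : ℂ) (u : Cn n) (g : MP n) :
    ddir (Fin.cons c u) (rename Fin.succ g) = rename Fin.succ (ddir u g) := by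
  induction g using MvPolynomial.induction_on with
  | C a => simp [ddir_C]
  | add p q hp hq => simp only [map_add, ddir_add, hp, hq]
  | mul_X p i hp => simp [ddir_mul, ddir_X, hp]

theorem rab_star (hrel1 : T_REL1) (D : Data n F) {a : F} (ha : a ≠ 0) (h : D.Star) :
    (rab_D D a ha).Star := by
  obtain ⟨u, h1, h2⟩ := h
  have k0 : ∀ m, (rab_D D a ha).Alg (mon (rab_D D a ha).y m) → m 0 = 0 →
      dz (Fin.tail m) u = 0 := fun m hm h0 =>
    h1 _ (rab_alg hrel1 D ha (mon_ne_zero D.hy _) (rab_mon D ha m h0 ▸ hm))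
  have k1 : ∀ (c : ℂ) (m : Fin (n + 1) → ℤ), dz m (Fin.cons c u : Cn (n + 1)) =
      m 0 * c + dz (Fin.tail m) u := fun c m => by simp [dz, Fin.sum_univ_succ, Fin.tail]
  obtain ⟨c, hc⟩ : ∃ c : ℂ, ∀ m, (rab_D D a ha).Alg (mon (rab_D D a ha).y m) →
      m 0 * c + dz (Fin.tail m) u = 0 := by
    by_cases h : ∀ m, (rab_D D a ha).Alg (mon (rab_D D a ha).y m) → m 0 = 0
    · exact ⟨0, fun m hm => by rw [k0 m hm (h m hm)]; simp⟩
    push Not at h
    obtain ⟨m₀, h3, h4⟩ := h
    have h5 : (m₀ 0 : ℂ) ≠ 0 := Int.cast_ne_zero.2 h4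
    refine ⟨-dz (Fin.tail m₀) u / m₀ 0, fun m hm => ?_⟩
    have h6 := k0 (m₀ 0 • m + (-m 0) • m₀) (by
      rw [mon_add (rab_D D a ha).hy, mon_smul, mon_smul]
      exact IsAlgebraic.mul (rab_zpow _ hm _) (rab_zpow _ h3 _)) (by simp [mul_comm])
    have e : Fin.tail (m₀ 0 • m + (-m 0) • m₀) =
        m₀ 0 • Fin.tail m + (-m 0) • Fin.tail m₀ := rfl
    rw [e, dz_add_left, dz_smul_left, dz_smul_left] at h6
    push_cast at h6
    field_simp
    linear_combination h6
  refine ⟨Fin.cons c u, fun m hm => (k1 c m).trans (hc m hm), fun h => h2 ?_⟩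
  change ddir _ (top (rename Fin.succ D.P)) = 0 at h
  rw [rab_top, rab_ddir] at h
  exact rename_injective _ (Fin.succ_injective n) (h.trans (map_zero _).symm)

theorem rab_ren (D : Data n F) {a : F} (ha : a ≠ 0) (g : MP2 n) :
    ev (rab_D D a ha).z (rab_D D a ha).y (rename (Sum.map Fin.succ Fin.succ) g) =
      RatFunc.C (ev D.z D.y g) := by
  unfold ev
  induction g using MvPolynomial.induction_on with
  | C c => simp [rab_map]
  | add p q hp hq => simp only [map_add, hp, hq]
  | mul_X p i hp =>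
    simp only [map_mul, hp, rename_X, aeval_X]
    rcases i with i | i <;> rfl

theorem t_rab (hrel1 : T_REL1) : T_RAB := by
  intro n F _ _ D f hf hF hS
  refine ⟨rab_D D _ hf, rab_free hF, rab_star hrel1 D hf hS, fun ⟨x, hx⟩ => ?_⟩
  have e : ∀ g : MP2 n, eval (Sum.elim x (ex x)) (rename (Sum.map Fin.succ Fin.succ) g) =
      eval (Sum.elim (Fin.tail x) (ex (Fin.tail x))) g := fun g => by
    rw [eval_rename]
    congr 2
    funext i
    rcases i with i | i <;> rfl
  refine ⟨Fin.tail x, fun g hg => ?_, fun h => ex_ne_zero x 0 ?_⟩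
  · rw [← e]
    exact hx _ (by rw [rab_ren, hg, map_zero])
  · have := hx (X (Sum.inr 0) - rename (Sum.map Fin.succ Fin.succ) f) (by
      rw [ev, map_sub, ← ev, ← ev, rab_ren, ev, aeval_X]
      exact sub_self _)
    rw [map_sub, e, h, eval_X] at this
    simpa using this

end Pool.Agent.P.MP_d2ed07_lc
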