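import Pool.Agent.P.MP_d2ed07_lc.Basic

/-! Polynomial relations with coefficients in the coordinate ring of the hypersurface. -/

namespace Pool.Agent.P.MP_d2ed07_lc

open MvPolynomial Metric Filter Topology

variable {n : ℕ} {F : Type} [Field F] [Algebra ℂ F]

theorem rel_den (D : Data n F) {ι : Type} (s : Finset ι) (a : ι → D.k) :
    ∃ (d : F) (c : ι → MP n), d ≠ 0 ∧ (∀ i, c i = 0 ∨ ¬ D.P ∣ c i) ∧
      ∀ i ∈ s, aeval D.z (c i) = d * a i := by
  classical
  have h : ∀ i, ∃ r t : MP n, aeval D.z t ≠ 0 ∧ aeval D.z r = aeval D.z t * a i := fun i => by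
    obtain ⟨r, t, e⟩ := (IntermediateField.mem_adjoin_range_iff _ _ _).1 (a i).2
    by_cases ht : aeval D.z t = 0
    · exact ⟨0, 1, by simp, by simp [e, ht]⟩
    · exact ⟨r, t, ht, by rw [e, mul_div_cancel₀ _ ht]⟩
  choose r t ht e using h
  refine ⟨∏ j ∈ s, aeval D.z (t j), fun i => if D.P ∣ r i * ∏ j ∈ s.erase i, t j then 0 else
    r i * ∏ j ∈ s.erase i, t j, Finset.prod_ne_zero_iff.2 fun j _ => ht j, fun i => ?_,
    fun i hi => ?_⟩
  · by_cases h : D.P ∣ r i * ∏ j ∈ s.erase i, t j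
    · exact Or.inl (if_pos h)
    · right; beta_reduce; rwa [if_neg h]
  · have : aeval D.z (r i * ∏ j ∈ s.erase i, t j) = (∏ j ∈ s, aeval D.z (t j)) * a i := by
      rw [map_mul, map_prod, e, ← Finset.mul_prod_erase s _ hi]; ring
    rw [← this]
    beta_reduce
    split_ifs with h
    · rw [map_zero, (D.hP _).2 h]
    · rfl

theorem t_rel1 : T_REL1 := by
  intro n F _ _ D a ha h
  have hi : IsIntegral D.k a := IsAlgebraic.isIntegral h
  obtain ⟨d, c, hd, -, e⟩ := rel_den D (Finset.range ((minpoly D.k a).natDegree + 1))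
    (minpoly D.k a).coeff
  refine ⟨(minpoly D.k a).natDegree, c, fun h1 => ?_, fun h1 => ?_, ?_⟩
  · rw [← D.hP, e 0 (by simp)] at h1
    exact mul_ne_zero hd (fun h2 => minpoly.coeff_zero_ne_zero hi ha (Subtype.ext h2)) h1
  · rw [← D.hP, e _ (by simp), (minpoly.monic hi).coeff_natDegree] at h1
    exact hd (by simpa using h1)
  · have := minpoly.aeval D.k a
    rw [Polynomial.aeval_eq_sum_range] at this
    rw [← mul_zero d, ← this, Finset.mul_sum]
    exact Finset.sum_congr rfl fun j hj => by rw [e j hj, mul_assoc]; rfl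

theorem t_rel2 : T_REL2 := by
  classical
  intro n F _ _ D a b h
  rw [algebraicIndependent_iff] at h
  push Not at h
  obtain ⟨p, h0, hp⟩ := h
  let φ : ℕ × ℕ → (Fin 2 →₀ ℕ) := fun ab => Finsupp.equivFunOnFinite.symm ![ab.1, ab.2]
  have hφ : Function.Injective φ := fun u v h =>
    Prod.ext (DFunLike.congr_fun h 0) (DFunLike.congr_fun h 1)
  have hs : ∀ d ∈ p.support, ∃ ab ∈ sq p.totalDegree, φ ab = d := fun d hd => by
    have : ∀ i, d i < p.totalDegree + 1 := fun i =>
      Nat.lt_succ_of_le ((monomial_le_degreeOf i hd).trans (degreeOf_le_totalDegree p i))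
    refine ⟨(d 0, d 1), by simp [sq, this], ?_⟩
    ext i; fin_cases i <;> rfl
  obtain ⟨d, c, hd, h1, e⟩ := rel_den D (sq p.totalDegree) fun ab => p.coeff (φ ab)
  refine ⟨p.totalDegree, c, h1, ?_, ?_⟩
  · obtain ⟨u, hu⟩ := support_nonempty.2 hp
    obtain ⟨ab, h2, rfl⟩ := hs u hu
    refine ⟨ab, h2, fun h3 => ?_⟩
    have := e ab h2
    rw [h3, map_zero] at this
    exact mul_ne_zero hd (fun h4 => mem_support_iff.1 hu (Subtype.ext h4)) this.symm
  · rw [aeval_def, eval₂_eq', Finset.sum_subset (s₂ := (sq p.totalDegree).image φ)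
      (fun u hu => Finset.mem_image.2 (hs u hu))
      (fun u _ hu => by rw [notMem_support_iff.1 hu, map_zero, zero_mul]),
      Finset.sum_image fun _ _ _ _ h => hφ h] at h0
    rw [← mul_zero d, ← h0, Finset.mul_sum]
    exact Finset.sum_congr rfl fun ab hab => by rw [e ab hab, mul_assoc, Fin.prod_univ_two]; rfl

theorem rel_clear {ι : Type} (s : Finset ι) (c : ι → MP n) (m : ι → Fin n → ℤ) (e : ℕ)
    (he : ∀ a ∈ s, ∀ i, 0 ≤ e + m a i) (z y : Fin n → F) (hy : ∀ i, y i ≠ 0) :
    aeval (Sum.elim z y) (∑ a ∈ s, rename Sum.inl (c a) *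
      ∏ i, (X (Sum.inr i) : MP2 n) ^ (e + m a i).toNat) =
      (∏ i, y i ^ e) * ∑ a ∈ s, aeval z (c a) * mon y (m a) := by
  rw [map_sum, Finset.mul_sum]
  refine Finset.sum_congr rfl fun a ha => ?_
  rw [map_mul, aeval_rename, Sum.elim_comp_inl, map_prod, mul_left_comm, mon,
    ← Finset.prod_mul_distrib]
  congr 1
  refine Finset.prod_congr rfl fun i _ => ?_
  rw [map_pow, aeval_X, Sum.elim_inr, ← zpow_natCast, Int.toNat_of_nonneg (he a ha i),
    zpow_add₀ (hy i), zpow_natCast]

theorem t_trans : T_TRANS := by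
  intro n F _ _ z y ι s c m hy h x y' hy' hV
  have he : ∀ a ∈ s, ∀ i,
      0 ≤ ((s.sup fun a => Finset.univ.sup fun i => (m a i).natAbs : ℕ) : ℤ) + m a i := by
    intro a ha i
    have : (m a i).natAbs ≤ s.sup fun a => Finset.univ.sup fun i => (m a i).natAbs :=
      (Finset.le_sup (f := fun i => (m a i).natAbs) (Finset.mem_univ i)).trans
        (Finset.le_sup (f := fun a => Finset.univ.sup fun i => (m a i).natAbs) ha)
    omega
  have h1 := hV _ ((rel_clear s c m _ he z y hy).trans (by rw [h, mul_zero]))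
  have h2 := rel_clear s c m _ he x y' hy'
  simp only [aeval_eq_eval] at h2
  rw [h1] at h2
  exact (mul_eq_zero.1 h2.symm).resolve_left
    (Finset.prod_ne_zero_iff.2 fun i _ => pow_ne_zero _ (hy' i))

theorem t_vrel (hrel2 : T_REL2) : T_VREL := by
  classical
  intro n F _ _ D hC
  choose N c h1 h2 h3 using fun i j => hrel2 n F D (D.y i) (D.y j)
    (by simpa only [mon_single] using hC (Pi.single i 1) (Pi.single j 1))
  have hN : ∀ i j, sq (N i j) ⊆ sq (Finset.univ.sup fun ij : Fin n × Fin n => N ij.1 ij.2) := by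
    intro i j
    have := Finset.range_subset_range.2 (Nat.succ_le_succ
      (Finset.le_sup (f := fun ij : Fin n × Fin n => N ij.1 ij.2) (Finset.mem_univ (i, j))))
    exact Finset.product_subset_product this this
  refine ⟨Finset.univ.sup fun ij : Fin n × Fin n => N ij.1 ij.2,
    fun i j ab => if ab ∈ sq (N i j) then c i j ab else 0, fun i j ab => ?_, fun i j => ?_,
    fun x w hx i j => ?_⟩
  · by_cases h : ab ∈ sq (N i j)
    · simpa only [if_pos h] using h1 i j ab
    · exact Or.inl (if_neg h)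
  · obtain ⟨ab, h4, h5⟩ := h2 i j
    exact ⟨ab, hN i j h4, by simpa only [if_pos h4] using h5⟩
  · have e : ∀ {L : Type} [Field L] (y : Fin n → L), (∀ i, y i ≠ 0) → ∀ ab : ℕ × ℕ,
        mon y ((ab.1 : ℤ) • Pi.single i 1 + (ab.2 : ℤ) • Pi.single j 1) =
          y i ^ ab.1 * y j ^ ab.2 := fun y hy ab => by
      rw [mon_add hy, mon_smul, mon_smul, mon_single, mon_single, zpow_natCast, zpow_natCast]
    have h4 := t_trans n F D.z D.y _ (sq (N i j)) (c i j)
      (fun ab => (ab.1 : ℤ) • Pi.single i 1 + (ab.2 : ℤ) • Pi.single j 1) D.hy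
      (by simpa only [e D.y D.hy] using h3 i j) x (ex w) (ex_ne_zero w) hx
    rw [← h4, ← Finset.sum_subset (hN i j) fun ab _ h => by simp only [if_neg h, map_zero, zero_mul]]
    refine Finset.sum_congr rfl fun ab h => ?_
    simp only [if_pos h, e _ (ex_ne_zero w), ex, Complex.exp_add, Complex.exp_nat_mul]

end Pool.Agent.P.MP_d2ed07_lc
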