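import Pool.Agent.P.MP_d2ed07_lc.Basic

/-!
Size of the largest root, and the norm of a linear form as a resultant.
-/

namespace Pool.Agent.P.MP_d2ed07_lc

open Polynomial

theorem root_coeff {f : ℂ[X]} (hf : f ≠ 0) {r : ℝ} (h : ∀ Y, f.eval Y = 0 → ‖Y‖ ≤ r) (j : ℕ) :
    ‖f.coeff j‖ ≤ r ^ (f.natDegree - j) * f.natDegree.choose j * ‖f.leadingCoeff‖ := by
  have h0 := leadingCoeff_ne_zero.2 hf
  have h1 := coeff_le_of_roots_le (f := RingHom.id ℂ) (B := r) j (monic_mul_leadingCoeff_inv hf)
    (IsAlgClosed.splits _) fun z hz => h z (by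
      rw [Polynomial.map_id, mem_roots', IsRoot.def, eval_mul, eval_C] at hz
      exact (mul_eq_zero.1 hz.2).resolve_right (inv_ne_zero h0))
  rwa [Polynomial.map_id, natDegree_mul_leadingCoeff_inv _ hf, coeff_mul_C, norm_mul, norm_inv,
    ← div_eq_mul_inv, div_le_iff₀ (norm_pos_iff.2 h0)] at h1

theorem t_root : T_ROOT := by
  intro d
  refine ⟨d, Nat.cast_nonneg d, fun f Y hd hY hY0 hf h => ?_⟩
  subst hd
  have h0 := norm_pos_iff.2 (leadingCoeff_ne_zero.2 hf)
  have hr := norm_pos_iff.2 hY0
  have hd : 0 < f.natDegree := natDegree_pos_iff_degree_pos.2 (degree_pos_of_root hf hY)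
  have hd' : (0 : ℝ) < f.natDegree := by exact_mod_cast hd
  have hj : ∀ j < f.natDegree, (f.natDegree : ℝ) ≤ (f.natDegree - j : ℝ) * f.natDegree :=
    fun j hj => le_mul_of_one_le_left hd'.le (by
      have : (j : ℝ) + 1 ≤ f.natDegree := by exact_mod_cast hj
      linarith)
  rw [coeff_natDegree]
  refine ⟨fun j h1 h2 => ?_, ?_⟩
  · have h3 : (0 : ℝ) < f.natDegree.choose j := by exact_mod_cast Nat.choose_pos h1.le
    have h4 := Real.log_le_log (norm_pos_iff.2 h2) (root_coeff hf h j)
    rw [Real.log_mul (by positivity) h0.ne', Real.log_mul (by positivity) h3.ne', Real.log_pow,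
      Nat.cast_sub h1.le] at h4
    have h5 : Real.log (f.natDegree.choose j) ≤ f.natDegree * Real.log 2 := by
      rw [← Real.log_pow]
      exact Real.log_le_log h3 (by exact_mod_cast Nat.choose_le_two_pow _ _)
    have h6 := mul_le_of_le_one_right hd'.le (Real.log_two_lt_d9.le.trans (by norm_num))
    linarith [hj j h1]
  · obtain ⟨j, h1, h2⟩ := (Finset.range f.natDegree).exists_max_image
      (fun j => ‖f.coeff j * Y ^ j‖) ⟨0, Finset.mem_range.2 hd⟩
    rw [eval_eq_sum_range, Finset.sum_range_succ, coeff_natDegree, add_eq_zero_iff_neg_eq] at hY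
    have h3 := (norm_sum_le _ _).trans (Finset.sum_le_card_nsmul _ _ _ h2)
    rw [← norm_neg, hY, Finset.card_range, nsmul_eq_mul, norm_mul, norm_mul, norm_pow,
      norm_pow] at h3
    have h4 : f.coeff j ≠ 0 := fun e => by
      rw [e, norm_zero, zero_mul, mul_zero] at h3
      exact absurd h3 (not_le.2 (by positivity))
    have h5 := Real.log_le_log (by positivity) h3
    rw [Real.log_mul h0.ne' (by positivity), Real.log_mul hd'.ne' (by positivity),
      Real.log_mul (by positivity) (by positivity), Real.log_pow, Real.log_pow] at h5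
    refine ⟨j, Finset.mem_range.1 h1, h4, ?_⟩
    linarith [hj j (Finset.mem_range.1 h1), Real.log_le_sub_one_of_pos hd']

theorem root_res {R K : Type} [CommRing R] [Field K] [IsAlgClosed K] {μ : R[X]} (g : R[X]) (h : R)
    (hμ : μ.Monic) : ∃ Γ : R[X], ∀ φ : R →+* K, Γ.map φ =
      ((μ.map φ).roots.map fun θ => C (φ h) * X - C ((g.map φ).eval θ)).prod := by
  refine ⟨resultant (μ.map C) (C (C h * X) - g.map C) μ.natDegree g.natDegree, fun φ => ?_⟩
  have e : ∀ p : R[X], (p.map C).map (mapRingHom φ) = (p.map φ).map C := fun p => by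
    rw [Polynomial.map_map, Polynomial.map_map]; congr 1; ext <;> simp
  have hs := IsAlgClosed.splits (μ.map φ)
  rw [← coe_mapRingHom, ← resultant_map_map, Polynomial.map_sub, e, e, map_C,
    ← hμ.natDegree_map φ, ← (hμ.map φ).natDegree_map C, resultant_eq_prod_eval _ _ _
      ((natDegree_sub_le _ _).trans (max_le ((natDegree_C _).trans_le (Nat.zero_le _))
        (natDegree_map_le.trans natDegree_map_le))) (hs.map _),
    ((hμ.map φ).map C).leadingCoeff, one_pow, one_mul,
    ← roots_map_of_injective_of_card_eq_natDegree C_injective hs.natDegree_eq_card_roots.symm,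
    Multiset.map_map]
  congr 1
  refine Multiset.map_congr rfl fun θ _ => ?_
  simp only [Function.comp_apply, eval_sub, eval_C, coe_mapRingHom, Polynomial.map_mul, map_C,
    map_X]
  rw [eval_map C, eval₂_hom]

theorem t_res : T_RES := fun _ _ g h hμ =>
  (root_res (K := ℂ) g h hμ).imp fun _ H x β => H (eval₂RingHom (MvPolynomial.eval x) β)

end Pool.Agent.P.MP_d2ed07_lc
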