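import Pool.Agent.P.MP_d2ed07_lc.Basic

/-! The theorem of Rosenlicht on logarithmic differentials. -/

namespace Pool.Agent.P.MP_d2ed07_lc

open MvPolynomial Metric Filter Topology
open scoped IntermediateField

theorem ros_kill {K F : Type} [Field K] [CharZero K] [Field F] [Algebra K F]
    (d : Derivation K F F) {t : F} (ht : IsAlgebraic K t) : d t = 0 := by
  have hs : IsSeparable K t := (minpoly.irreducible ht.isIntegral).separable
  have h := d.map_aeval (minpoly K t) t
  rw [minpoly.aeval, map_zero, smul_eq_mul] at h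
  exact (mul_eq_zero.1 h.symm).resolve_left (hs.aeval_derivative_ne_zero (minpoly.aeval K t))

theorem ros_alg {L E F : Type} [Field L] [Field E] [Field F] [Algebra L F] [Algebra E F]
    (h : ∀ c : L, algebraMap L F c ∈ Set.range (algebraMap E F)) {x : F} (hx : IsAlgebraic L x) :
    IsAlgebraic E x := by
  obtain ⟨p, hp0, hp⟩ := hx
  obtain ⟨q, hq⟩ := (Polynomial.mem_lifts _).1 ((Polynomial.lifts_iff_coeff_lifts
    (f := algebraMap E F) (p.map (algebraMap L F))).2 fun n => by
      rw [Polynomial.coeff_map]; exact h _)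
  refine ⟨q, fun h0 => hp0 ?_, ?_⟩
  · rw [h0, Polynomial.map_zero] at hq
    exact (Polynomial.map_eq_zero _).1 hq.symm
  · rw [← Polynomial.eval_map_algebraMap, hq, Polynomial.eval_map_algebraMap, hp]

theorem ros_comm {K F : Type} [Field K] [Field F] [Algebra K F] [Algebra (RatFunc K) F]
    [IsScalarTower K (RatFunc K) F] (d₀ : Derivation K (RatFunc K) (RatFunc K))
    (d : Derivation K F F) (h₀ : d₀ RatFunc.X = 1) (h : d (algebraMap (RatFunc K) F RatFunc.X) = 1)
    (a : RatFunc K) : d (algebraMap (RatFunc K) F a) = algebraMap (RatFunc K) F (d₀ a) := by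
  have hp : ∀ p : Polynomial K, d (algebraMap (RatFunc K) F (algebraMap _ (RatFunc K) p)) =
      algebraMap (RatFunc K) F (d₀ (algebraMap _ (RatFunc K) p)) := fun p => by
    rw [← RatFunc.aeval_X_left_eq_algebraMap, d₀.map_aeval, h₀, ← Polynomial.aeval_algebraMap_apply,
      d.map_aeval, h, smul_eq_mul, smul_eq_mul, mul_one, mul_one,
      Polynomial.aeval_algebraMap_apply]
  rw [← a.num_div_denom, map_div₀, d.leibniz_div, d₀.leibniz_div, hp, hp]
  simp only [smul_eq_mul, map_mul, map_sub, map_pow, map_inv₀]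

theorem ros_tr (hros1 : T_ROS1) {K E L : Type} [Field K] [Field E] [Field L] [Algebra K E]
    [Algebra K L] [Algebra E L] [FiniteDimensional E L] (d₀ : Derivation K E E)
    (d : Derivation K L L) (h : ∀ a : E, d (algebraMap E L a) = algebraMap E L (d₀ a)) :
    (∀ ξ : L, Algebra.trace E L (d ξ) = d₀ (Algebra.trace E L ξ)) ∧
      ∀ v : L, v ≠ 0 → Algebra.trace E L (d v / v) = d₀ (Algebra.norm E v) / Algebra.norm E v :=
  hros1 E L (d₀.restrictScalars ℤ) (d.restrictScalars ℤ) h

theorem ros_core (hder1 : T_DER1) (hros1 : T_ROS1) (hros2 : T_ROS2) {K F : Type} [Field K]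
    [CharZero K] [Field F] [Algebra K F] [Algebra (RatFunc K) F] [IsScalarTower K (RatFunc K) F]
    [FiniteDimensional (RatFunc K) F] {ι : Type} [Fintype ι] {e : ι → K} {v : ι → F} {ξ : F}
    (he : LinearIndependent ℚ e) (hv : ∀ a, v a ≠ 0) (d : Derivation K F F)
    (h : ∑ a, algebraMap K F (e a) * (d (v a) / v a) = d ξ) {a : ι}
    (ha : algebraMap (RatFunc K) F RatFunc.X = v a) (hd : d (v a) = 1) : False := by
  obtain ⟨d₀, h₀⟩ := hder1 K (RatFunc K)
    (RatFunc.adjoin_X (K := K) ▸ IntermediateField.fg_adjoin_of_finite (Set.finite_singleton _))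
    RatFunc.X RatFunc.transcendental_X
  obtain ⟨h1, h2⟩ := ros_tr hros1 d₀ d (ros_comm d₀ d h₀ (ha ▸ hd))
  refine Module.finrank_pos.ne' (hros2 K d₀ ι e (fun a => Algebra.norm (RatFunc K) (v a))
    (Algebra.trace (RatFunc K) F ξ) h₀ he (fun a => Algebra.norm_ne_zero_iff.2 (hv a)) ?_ a
    (Module.finrank (RatFunc K) F) (by rw [← ha, Algebra.norm_algebraMap]))
  refine Eq.trans ?_ ((congrArg (Algebra.trace (RatFunc K) F) h).trans (h1 ξ))
  rw [map_sum]
  refine Finset.sum_congr rfl fun a _ => ?_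
  rw [IsScalarTower.algebraMap_apply K (RatFunc K) F,
    ← Algebra.smul_def (algebraMap K (RatFunc K) (e a)) (d (v a) / v a), map_smul, smul_eq_mul,
    h2 (v a) (hv a)]

theorem t_ros (hder0 : T_DER0) (hder1 : T_DER1) (hros1 : T_ROS1) (hros2 : T_ROS2) : T_ROS := by
  intro K F _ _ _ _ hfg ι _ e v ξ he hv h a d
  by_contra hd
  have ht : Transcendental K (v a) := fun h => hd (ros_kill d h)
  obtain ⟨s, hs, hb⟩ := exists_isTranscendenceBasis_superset (R := K) (s := {v a})
    ((algebraicIndependent_singleton_iff (⟨v a, rfl⟩ : ({v a} : Set F))).2 ht)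
  let i : s := ⟨v a, hs rfl⟩
  let K₁ := IntermediateField.adjoin K (((↑) : s → F) '' {i}ᶜ)
  have ht₁ : Transcendental K₁ (v a) := IntermediateField.transcendental_adjoin_iff.2
    (hb.1.transcendental_adjoin (s := {i}ᶜ) (i := i) (by simp))
  have hfg₁ : (⊤ : IntermediateField K₁ F).FG := IntermediateField.FG.of_restrictScalars hfg
  let ψ : RatFunc K₁ →ₐ[K₁] F :=
    (K₁⟮v a⟯.val).comp (RatFunc.algEquivOfTranscendental (v a) ht₁).toAlgHom
  let _ : Algebra (RatFunc K₁) F := ψ.toRingHom.toAlgebra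
  have _ : IsScalarTower K₁ (RatFunc K₁) F :=
    IsScalarTower.of_algebraMap_eq fun c => (ψ.commutes c).symm
  have hle : IntermediateField.adjoin K (Set.range ((↑) : s → F)) ≤ K₁⟮v a⟯.restrictScalars K := by
    rw [IntermediateField.adjoin_le_iff]
    rintro _ ⟨j, rfl⟩
    by_cases hj : j = i
    · rw [hj]; exact IntermediateField.mem_adjoin_simple_self K₁ (v a)
    · exact K₁⟮v a⟯.algebraMap_mem ⟨j, IntermediateField.subset_adjoin K _ ⟨j, hj, rfl⟩⟩
  have _ : Algebra.IsAlgebraic (RatFunc K₁) F := by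
    refine ⟨fun x => ros_alg (fun c => ?_) (hb.isAlgebraic_field.isAlgebraic x)⟩
    obtain ⟨r, hr⟩ := (RatFunc.algEquivOfTranscendental (v a) ht₁).surjective ⟨c, hle c.2⟩
    exact ⟨r, congrArg Subtype.val hr⟩
  have _ : Algebra.EssFiniteType (RatFunc K₁) F := IntermediateField.fg_top_iff.1
    (IntermediateField.FG.of_restrictScalars (K := K₁) hfg₁)
  have _ : FiniteDimensional (RatFunc K₁) F := Algebra.finite_of_essFiniteType_of_isAlgebraic
  obtain ⟨D, hD⟩ := hder1 K₁ F hfg₁ (v a) ht₁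
  exact ros_core hder1 hros1 hros2 (e := fun a => algebraMap K K₁ (e a))
    (he.map' ((algebraMap K K₁).toRatAlgHom.toLinearMap)
      (LinearMap.ker_eq_bot.2 (algebraMap K K₁).injective)) hv D (h (D.restrictScalars K))
    (RatFunc.algEquivOfTranscendental_X (v a) ht₁) hD

end Pool.Agent.P.MP_d2ed07_lc
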