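import Pool.Agent.P.MP_d2ed07_lc.Basic

/-!
Derivations commute with trace, and logarithmic derivatives with the norm.
-/

namespace Pool.Agent.P.MP_d2ed07_lc

open MvPolynomial Metric Filter Topology

section
variable {E : Type} [Field E] (d₀ : Derivation ℤ E E)

/-- first order Taylor expansion along a derivation -/
def ros1_phi : E →+* DualNumber E where
  toFun a := TrivSqZeroExt.inl a + TrivSqZeroExt.inr (d₀ a)
  map_one' := by ext <;> simp
  map_mul' a b := by ext <;> simp [mul_comm]
  map_zero' := by ext <;> simp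
  map_add' a b := by ext <;> simp

/-- the formula of Jacobi -/
theorem ros1_jac {ι : Type} [Fintype ι] [DecidableEq ι] (M N : Matrix ι ι E)
    (h : M.map d₀ = M * N) : d₀ M.det = M.det * N.trace := by
  let j : E →+* DualNumber E := algebraMap E (DualNumber E)
  have h1 : (ros1_phi d₀).mapMatrix M =
      j.mapMatrix M * (1 + (DualNumber.eps : DualNumber E) • j.mapMatrix N) := by
    rw [mul_add, mul_one, Matrix.mul_smul, ← map_mul, ← h]
    ext a b <;> simp [ros1_phi, j, TrivSqZeroExt.algebraMap_eq_inl]
  have h2 := congrArg Matrix.det h1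
  have h3 : (j.mapMatrix N).trace = j N.trace := by simp [Matrix.trace]
  rw [Matrix.det_mul, ← RingHom.map_det, ← RingHom.map_det, Matrix.det_one_add_smul, pow_two,
    DualNumber.eps_mul_eps, mul_zero, add_zero, h3] at h2
  simpa [ros1_phi, j, TrivSqZeroExt.algebraMap_eq_inl] using congrArg TrivSqZeroExt.snd h2

end

section
variable {E L ι : Type} [Field E] [Field L] [Algebra E L] [Fintype ι] [DecidableEq ι]
  {d₀ : Derivation ℤ E E} {d : Derivation ℤ L L}

theorem ros1_repr (h : ∀ a : E, d (algebraMap E L a) = algebraMap E L (d₀ a))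
    (b : Module.Basis ι E L) (x : L) (k : ι) :
    b.repr (d x) k = d₀ (b.repr x k) + ∑ i, b.repr (d (b i)) k * b.repr x i := by
  have h1 : ∀ (c : E) (y : L), d (c • y) = d₀ c • y + c • d y := fun c y => by
    simp only [Algebra.smul_def, Derivation.leibniz, h, Algebra.algebraMap_self, RingHom.id_apply]
    ring
  conv_lhs => rw [← b.sum_repr x, map_sum]
  simp only [h1, Finset.sum_add_distrib, map_add, Finsupp.add_apply, map_sum,
    map_smul, Finsupp.finsetSum_apply, Finsupp.smul_apply, smul_eq_mul, b.repr_self,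
    Finsupp.single_apply, mul_ite, mul_one, mul_zero, Finset.sum_ite_eq', Finset.mem_univ, if_true]
  simp only [mul_comm]

theorem ros1_mat (h : ∀ a : E, d (algebraMap E L a) = algebraMap E L (d₀ a))
    (b : Module.Basis ι E L) : ∃ A : Matrix ι ι E, ∀ v : L, (Algebra.leftMulMatrix b v).map d₀ =
      Algebra.leftMulMatrix b (d v) + (Algebra.leftMulMatrix b v * A -
        A * Algebra.leftMulMatrix b v) := by
  refine ⟨Matrix.of fun k i => b.repr (d (b i)) k, fun v => ?_⟩
  ext k j
  have h1 := ros1_repr h b (v * b j) k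
  have h2 := congrFun (Algebra.leftMulMatrix_mulVec_repr b v (d (b j))) k
  rw [Derivation.leibniz, map_add, smul_eq_mul, smul_eq_mul, Finsupp.add_apply, ← h2,
    mul_comm (b j)] at h1
  simp only [Matrix.map_apply, Matrix.add_apply, Matrix.sub_apply, Matrix.mul_apply,
    Matrix.of_apply, Algebra.leftMulMatrix_eq_repr_mul, Matrix.mulVec, dotProduct] at h1 ⊢
  linear_combination -h1

end

theorem t_ros1 : T_ROS1 := by
  classical
  intro E L _ _ _ _ d₀ d h
  let b := Module.finBasis E L
  obtain ⟨A, hA⟩ := ros1_mat h b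
  refine ⟨fun ξ => ?_, fun v hv => ?_⟩
  · have h1 := congrArg Matrix.trace (hA ξ)
    rw [Matrix.trace_add, Matrix.trace_sub, Matrix.trace_mul_comm A, sub_self, add_zero] at h1
    rw [Algebra.trace_eq_matrix_trace b, Algebra.trace_eq_matrix_trace b, ← h1]
    simp [Matrix.trace]
  · have e1 : Algebra.leftMulMatrix b v * Algebra.leftMulMatrix b v⁻¹ = 1 := by
      rw [← map_mul, mul_inv_cancel₀ hv, map_one]
    have h1 := ros1_jac d₀ (Algebra.leftMulMatrix b v)
      (Algebra.leftMulMatrix b v⁻¹ * (Algebra.leftMulMatrix b v).map d₀)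
      (by rw [← mul_assoc, e1, one_mul])
    rw [hA, mul_add, mul_sub, Matrix.trace_add, Matrix.trace_sub, ← mul_assoc,
      mul_eq_one_comm.1 e1, one_mul, Matrix.trace_mul_comm _ (A * _), mul_assoc, e1, mul_one,
      sub_self, add_zero, ← map_mul, ← Algebra.norm_eq_matrix_det,
      ← Algebra.trace_eq_matrix_trace] at h1
    rw [h1, mul_div_cancel_left₀ _ (Algebra.norm_ne_zero_iff.2 hv), div_eq_inv_mul]

end Pool.Agent.P.MP_d2ed07_lc
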