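import Pool.Agent.P.MP_d2ed07_lc.Basic

/-! Residues at zero of logarithmic derivatives of rational functions. -/

namespace Pool.Agent.P.MP_d2ed07_lc

open MvPolynomial Metric Filter Topology

variable {K : Type} [Field K] {f g : RatFunc K} {c c' : K}

/-- `f` is regular at zero with value `c` -/
def ros2_R (f : RatFunc K) (c : K) : Prop :=
  ∃ a b : Polynomial K, b.eval 0 ≠ 0 ∧ f * algebraMap _ (RatFunc K) b = algebraMap _ (RatFunc K) a ∧
    c * b.eval 0 = a.eval 0

theorem ros2_uniq (h : ros2_R f c) (h' : ros2_R f c') : c = c' := by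
  obtain ⟨a, b, h1, h2, h3⟩ := h
  obtain ⟨a', b', h1', h2', h3'⟩ := h'
  have h4 : a * b' = a' * b := RatFunc.algebraMap_injective K (by
    rw [map_mul, map_mul, ← h2, ← h2']; ring)
  have h5 := congrArg (Polynomial.eval 0) h4
  rw [Polynomial.eval_mul, Polynomial.eval_mul, ← h3, ← h3'] at h5
  exact mul_right_cancel₀ (mul_ne_zero h1 h1') (by linear_combination h5)

theorem ros2_add (h : ros2_R f c) (h' : ros2_R g c') : ros2_R (f + g) (c + c') := by
  obtain ⟨a, b, h1, h2, h3⟩ := h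
  obtain ⟨a', b', h1', h2', h3'⟩ := h'
  refine ⟨a * b' + a' * b, b * b', by simp [h1, h1'], ?_, ?_⟩
  · rw [map_add, map_mul, map_mul, map_mul, ← h2, ← h2']; ring
  · simp only [Polynomial.eval_add, Polynomial.eval_mul, ← h3, ← h3']; ring

theorem ros2_mul (h : ros2_R f c) (h' : ros2_R g c') : ros2_R (f * g) (c * c') := by
  obtain ⟨a, b, h1, h2, h3⟩ := h
  obtain ⟨a', b', h1', h2', h3'⟩ := h'
  refine ⟨a * a', b * b', by simp [h1, h1'], ?_, ?_⟩
  · rw [map_mul, map_mul, ← h2, ← h2']; ring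
  · simp only [Polynomial.eval_mul, ← h3, ← h3']; ring

theorem ros2_poly (a : Polynomial K) : ros2_R (algebraMap _ (RatFunc K) a) (a.eval 0) :=
  ⟨a, 1, by simp, by simp, by simp⟩

theorem ros2_C (c : K) : ros2_R (algebraMap K (RatFunc K) c) c := by
  simpa using ros2_poly (Polynomial.C c)

theorem ros2_pow (m : ℕ) : ros2_R (RatFunc.X ^ m : RatFunc K) (0 ^ m) := by
  simpa using ros2_poly (Polynomial.X ^ m : Polynomial K)

theorem ros2_sum {ι : Type} (s : Finset ι) {f : ι → RatFunc K} {c : ι → K}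
    (h : ∀ i, ros2_R (f i) (c i)) : ros2_R (∑ i ∈ s, f i) (∑ i ∈ s, c i) := by
  classical
  induction s using Finset.induction_on with
  | empty => simpa using ros2_C (0 : K)
  | insert i s hi ih => rw [Finset.sum_insert hi, Finset.sum_insert hi]; exact ros2_add (h i) ih

variable {d : Derivation K (RatFunc K) (RatFunc K)}

theorem ros2_lpow (hd : d RatFunc.X = 1) (m : ℕ) :
    RatFunc.X * (d (RatFunc.X ^ m) / RatFunc.X ^ m) = algebraMap K (RatFunc K) m := by
  have := RatFunc.X_ne_zero (K := K)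
  cases m with
  | zero => simp
  | succ m =>
    rw [d.leibniz_pow, hd, map_natCast]
    simp only [smul_eq_mul, nsmul_eq_mul, Nat.add_sub_cancel]
    field_simp
    ring

theorem ros2_lpoly (hd : d RatFunc.X = 1) {a : Polynomial K} (ha : a.eval 0 ≠ 0) :
    ros2_R (RatFunc.X * (d (algebraMap _ (RatFunc K) a) / algebraMap _ (RatFunc K) a)) 0 := by
  have h0 : algebraMap _ (RatFunc K) a ≠ 0 := RatFunc.algebraMap_ne_zero fun h => ha (by simp [h])
  refine ⟨Polynomial.X * Polynomial.derivative a, a, ha, ?_, by simp⟩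
  rw [mul_assoc, div_mul_cancel₀ _ h0, ← RatFunc.aeval_X_left_eq_algebraMap, d.map_aeval, hd,
    RatFunc.aeval_X_left_eq_algebraMap, smul_eq_mul, mul_one, map_mul, RatFunc.algebraMap_X]

theorem ros2_fac {p : Polynomial K} (hp : p ≠ 0) :
    ∃ (i : ℕ) (a : Polynomial K), a.eval 0 ≠ 0 ∧ p = Polynomial.X ^ i * a := by
  obtain ⟨a, h1, h2⟩ := Polynomial.exists_eq_pow_rootMultiplicity_mul_and_not_dvd p hp 0
  rw [Polynomial.dvd_iff_isRoot] at h2
  exact ⟨_, a, h2, by simpa using h1⟩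

theorem ros2_key (hd : d RatFunc.X = 1) (hf : f ≠ 0) : ∃ (i j : ℕ) (g : RatFunc K) (c : K),
    c ≠ 0 ∧ ros2_R g c ∧ RatFunc.X ^ j * f = RatFunc.X ^ i * g ∧
      ros2_R (RatFunc.X * (d f / f)) ((i : K) - j) := by
  obtain ⟨i, a, ha, h1⟩ := ros2_fac (RatFunc.num_ne_zero hf)
  obtain ⟨j, b, hb, h2⟩ := ros2_fac f.denom_ne_zero
  have h0 := RatFunc.X_ne_zero (K := K)
  have a0 : algebraMap _ (RatFunc K) a ≠ 0 := RatFunc.algebraMap_ne_zero fun h => ha (by simp [h])
  have b0 : algebraMap _ (RatFunc K) b ≠ 0 := RatFunc.algebraMap_ne_zero fun h => hb (by simp [h])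
  have e := f.num_div_denom
  rw [h1, h2, map_mul, map_mul, map_pow, map_pow, RatFunc.algebraMap_X] at e
  refine ⟨i, j, algebraMap _ (RatFunc K) a / algebraMap _ (RatFunc K) b, a.eval 0 / b.eval 0,
    div_ne_zero ha hb, ⟨a, b, hb, div_mul_cancel₀ _ b0, div_mul_cancel₀ _ hb⟩, ?_, ?_⟩
  · rw [← e]; field_simp
  · have := ros2_add (ros2_add (ros2_C (i : K)) (ros2_lpoly hd ha)) (ros2_mul (ros2_C (-1))
      (ros2_add (ros2_C (j : K)) (ros2_lpoly hd hb)))
    rw [← ros2_lpow hd, ← ros2_lpow hd, map_neg, map_one] at this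
    convert this using 1
    · rw [← e, d.leibniz_div, d.leibniz, d.leibniz]
      simp only [smul_eq_mul]
      field_simp
      ring
    · ring

theorem ros2_res [CharZero K] (hd : d RatFunc.X = 1) (h : ros2_R (RatFunc.X * d f) c) : c = 0 := by
  by_cases hf : f = 0
  · refine ros2_uniq h ?_
    simpa [hf] using ros2_C (0 : K)
  obtain ⟨i, j, g, c₀, h0, hg, e, hl⟩ := ros2_key hd hf
  have hX := RatFunc.X_ne_zero (K := K)
  rcases le_or_gt j i with hij | hij
  · obtain ⟨m, rfl⟩ := Nat.exists_eq_add_of_le hij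
    rw [pow_add, mul_assoc, mul_right_inj' (pow_ne_zero j hX)] at e
    have := ros2_mul (ros2_mul (ros2_pow m) hg) hl
    rw [← e, show f * (RatFunc.X * (d f / f)) = RatFunc.X * d f by field_simp] at this
    rw [ros2_uniq h this]
    cases m <;> simp
  · obtain ⟨m, rfl⟩ := Nat.exists_eq_add_of_lt hij
    rw [add_assoc, pow_add, mul_assoc, mul_right_inj' (pow_ne_zero i hX)] at e
    have h1 := ros2_mul hg hl
    rw [← e, show RatFunc.X ^ (m + 1) * f * (RatFunc.X * (d f / f)) =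
      RatFunc.X ^ (m + 1) * (RatFunc.X * d f) by field_simp] at h1
    have h2 := ros2_uniq h1 (ros2_mul (ros2_pow (m + 1)) h)
    rw [zero_pow m.succ_ne_zero, zero_mul, mul_eq_zero, sub_eq_zero, Nat.cast_inj] at h2
    rcases h2 with h2 | h2
    · exact (h0 h2).elim
    · omega

theorem t_ros2 : T_ROS2 := by
  intro K _ _ d ι _ e u ξ hd he hu h a j hj
  choose i₁ i₂ g c _ _ _ hl using fun a => ros2_key hd (hu a)
  have h1 := ros2_sum Finset.univ fun a => ros2_mul (ros2_C (e a)) (hl a)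
  have h2 : ∑ a, algebraMap K (RatFunc K) (e a) * (RatFunc.X * (d (u a) / u a)) =
      RatFunc.X * d ξ := by
    rw [← h, Finset.mul_sum]
    exact Finset.sum_congr rfl fun a _ => by ring
  rw [h2] at h1
  have h3 := Fintype.linearIndependent_iff.1 he (fun a => (i₁ a : ℚ) - i₂ a) (by
    rw [← ros2_res hd h1]
    exact Finset.sum_congr rfl fun a _ => by rw [Rat.smul_def]; push_cast; ring) a
  have h4 := hl a
  rw [hj, ros2_lpow hd] at h4
  have h5 := ros2_uniq (ros2_C (j : K)) h4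
  rw [sub_eq_zero, Nat.cast_inj] at h3
  rwa [h3, sub_self, Nat.cast_eq_zero] at h5

end Pool.Agent.P.MP_d2ed07_lc
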