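import Pool.Agent.P.MP_d2ed07_lc.Basic

/-!
From density to generic points for strongly rotund varieties.
-/

namespace Pool.Agent.P.MP_d2ed07_lc

open MvPolynomial Metric Filter Topology

theorem SRot.free {n : ℕ} {F : Type} [Field F] [Algebra ℂ F] {z y : Fin n → F} (h : SRot z y) :
    Free z := by
  intro m hm c hc
  obtain ⟨s, hs, hi⟩ := h 1 (fun _ => m) one_pos (linearIndependent_unique_iff.2 hm)
  have hu : s = Finset.univ := (Finset.card_eq_iff_eq_univ s).1 (by simpa using hs)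
  have := hi.transcendental ⟨Sum.inl 0, hu ▸ Finset.mem_univ _⟩
  simp only [Sum.elim_inl, hc] at this
  exact this (isAlgebraic_algebraMap c)

theorem sec_analytic {n : ℕ} {E : Type} [NormedAddCommGroup E] [NormedSpace ℂ E] {γ : E → Cn n}
    {t : E} (h : AnalyticAt ℂ γ t) (g : MP2 n) :
    AnalyticAt ℂ (fun t => eval (Sum.elim (γ t) (ex (γ t))) g) t := by
  induction g using MvPolynomial.induction_on with
  | C a => simpa using analyticAt_const
  | add p q hp hq => simp only [map_add]; exact hp.add hq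
  | mul_X p i hp =>
    simp only [map_mul, eval_X]
    refine hp.mul ?_
    rcases i with i | i
    · exact analyticAt_pi_iff.1 h i
    · exact (analyticAt_pi_iff.1 h i).cexp'

theorem t_sec (hg2a : T_G2A) (hg2b : T_G2B) (hg2e : T_G2E) (hg2c : T_G2C) (hg2d : T_G2D)
    (hg3 : T_G3) (hg4 : T_G4) : T_SEC := by
  intro n F _ _ z y hy hgen hrot hdens A hA hA0
  obtain ⟨hr, hconst⟩ := hg2a n F z y hy hgen hrot
  obtain ⟨T, f, U, Δ, hF⟩ := hg2b n F z y hgen hr
  obtain ⟨g₀, hg₀, hV⟩ := hg2e n F z y T f U Δ hgen hF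
  obtain ⟨g₁, hg₁, hS⟩ := hg2c n F z y T f U Δ hgen hF hconst
  obtain ⟨x₀, hx₀, h0⟩ := hdens (Δ * g₀ * g₁) (by
    simp only [ev, map_mul]; exact mul_ne_zero (mul_ne_zero hF.2.2.1 hg₀) hg₁)
  simp only [map_mul, mul_ne_zero_iff] at h0
  obtain ⟨Ω, t₀, γ, hΩ, hc, ht₀, hγ₀, han, hγ, hst⟩ := hg3 n T f U Δ g₀ x₀ hF.1
    (fun a => hx₀ _ (hF.2.1 a)) (by rw [map_mul]; exact mul_ne_zero h0.1.1 h0.1.2)
  have hon : ∀ t ∈ Ω, OnV z y (γ t) (ex (γ t)) := fun t ht => hV _ _ (hγ t ht).1 (hγ t ht).2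
  have han' : ∀ g : MP2 n, AnalyticOnNhd ℂ (fun t => eval (Sum.elim (γ t) (ex (γ t))) g) Ω :=
    fun g t ht => sec_analytic (han t ht) g
  let J : Ideal (MP2 n) :=
    { carrier := {g | ∀ t ∈ Ω, eval (Sum.elim (γ t) (ex (γ t))) g = 0}
      add_mem' := fun ha hb t ht => by rw [map_add, ha t ht, hb t ht, add_zero]
      zero_mem' := fun t _ => map_zero _
      smul_mem' := fun c a ha t ht => by rw [smul_eq_mul, map_mul, ha t ht, mul_zero] }
  have hJ : ∀ g, g ∈ J ↔ ∀ t ∈ Ω, eval (Sum.elim (γ t) (ex (γ t))) g = 0 := fun _ => Iff.rfl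
  have hp : J.IsPrime := by
    refine ⟨(Ideal.ne_top_iff_one J).2 fun h => by simpa using (hJ 1).1 h t₀ ht₀, ?_⟩
    intro a b hab
    by_cases ha : a ∈ J
    · exact Or.inl ha
    right
    rw [hJ] at ha
    push Not at ha
    obtain ⟨t₁, ht₁, h1⟩ := ha
    refine (han' b).eqOn_zero_of_preconnected_of_eventuallyEq_zero hc ht₁ ?_
    filter_upwards [(han' a t₁ ht₁).continuousAt.eventually_ne h1, hΩ.mem_nhds ht₁] with t h2 h3
    have := (hJ _).1 hab t h3
    rw [map_mul] at this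
    exact (mul_eq_zero.1 this).resolve_left h2
  have key := hg2d n F z y T f U Δ g₁ hgen hrot.free hF hS J hp
    (fun g hg t ht => hon t ht g hg) (fun l g hg t ht => hst g hg l t ht) x₀ (ex x₀)
    (ex_ne_zero x₀) (fun g hg => hγ₀ ▸ (hJ g).1 hg t₀ ht₀)
    (by rw [map_mul]; exact mul_ne_zero h0.1.1 h0.2)
  obtain ⟨t, ht, h⟩ := hg4 _ Ω
    ((fun (g : MP2 n) t => eval (Sum.elim (γ t) (ex (γ t))) g) '' A) hΩ hc ⟨t₀, ht₀⟩ (hA.image _)
    (by
      rintro _ ⟨g, hg, rfl⟩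
      refine ⟨han' g, ?_⟩
      by_contra h1
      push Not at h1
      exact hA0 g hg (key g h1))
  exact ⟨γ t, hon t ht, fun g hg => h _ ⟨g, hg, rfl⟩⟩

end Pool.Agent.P.MP_d2ed07_lc
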