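import Pool.Agent.P.MP_d2ed07_lc.Basic

/-! Holomorphic continuation of a simple root over a convex domain. -/

namespace Pool.Agent.P.MP_d2ed07_lc

open MvPolynomial Metric Filter Topology

section
variable {K : Type} [NormedAddCommGroup K] [NormedSpace ℂ K] [FiniteDimensional ℂ K]
  {g : K × ℂ → ℂ}

theorem sheet_inv (hg : ContDiff ℂ 1 g) {a : K × ℂ} (h : deriv (fun t => g (a.1, t)) a.2 ≠ 0) :
    ∃ A : (K × ℂ) ≃L[ℂ] (K × ℂ),
      HasStrictFDerivAt (fun z => (z.1, g z)) (A : (K × ℂ) →L[ℂ] (K × ℂ)) a := by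
  have h1 := hg.contDiffAt.hasStrictFDerivAt (x := a) one_ne_zero
  have h2 := hasStrictFDerivAt_fst.prodMk h1
  have h3 : deriv (fun t => g (a.1, t)) a.2 = fderiv ℂ g a (0, 1) :=
    (h1.hasFDerivAt.comp_hasDerivAt_of_eq a.2
      ((hasDerivAt_const a.2 a.1).prodMk (hasDerivAt_id a.2)) rfl).deriv
  refine ⟨(LinearEquiv.ofInjectiveEndo (((ContinuousLinearMap.fst ℂ K ℂ).prod
    (fderiv ℂ g a) : (K × ℂ) →L[ℂ] (K × ℂ)) : (K × ℂ) →ₗ[ℂ] (K × ℂ)) ?_).toContinuousLinearEquiv,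
    h2⟩
  refine (injective_iff_map_eq_zero _).2 fun z hz => ?_
  obtain ⟨v, s⟩ := z
  have a1 : v = 0 := congrArg Prod.fst hz
  have a2 : fderiv ℂ g a (v, s) = 0 := congrArg Prod.snd hz
  rw [a1, show ((0 : K), s) = s • ((0 : K), (1 : ℂ)) by simp, map_smul, ← h3, smul_eq_mul] at a2
  rw [a1, (mul_eq_zero.1 a2).resolve_right h]
  rfl

theorem sheet_lift {E : Type} [NormedAddCommGroup E] [NormedSpace ℂ E] (hg : ContDiff ℂ 1 g)
    (hp : IsProperMap fun z : K × ℂ => (z.1, g z)) {Ω : Set E} (hc : Convex ℝ Ω) (ho : IsOpen Ω)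
    {c : E → K} (dc : DifferentiableOn ℂ c Ω)
    (h : ∀ x ∈ Ω, ∀ t, g (c x, t) = 0 → deriv (fun t => g (c x, t)) t ≠ 0) {x₀ : E} (hx : x₀ ∈ Ω)
    {t₀ : ℂ} (ht : g (c x₀, t₀) = 0) :
    ∃ θ : E → ℂ, DifferentiableOn ℂ θ Ω ∧ θ x₀ = t₀ ∧ ∀ x ∈ Ω, g (c x, θ x) = 0 := by
  classical
  have := FiniteDimensional.complete ℂ K
  have key : ∀ x ∈ Ω, ∀ a : K × ℂ, (a.1, g a) = (c x, 0) → ∃ A : (K × ℂ) ≃L[ℂ] (K × ℂ),
      HasStrictFDerivAt (fun z => (z.1, g z)) (A : (K × ℂ) →L[ℂ] (K × ℂ)) a := fun x hx a ha => by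
    obtain ⟨k, t⟩ := a
    obtain ⟨rfl, h2⟩ := Prod.mk.inj ha
    exact sheet_inv hg (h x hx t h2)
  have cov : IsCoveringMapOn (fun z : K × ℂ => (z.1, g z)) ((fun x => (c x, 0)) '' Ω) := by
    rintro _ ⟨x, hx, rfl⟩
    have h1 : ∀ a ∈ (fun z : K × ℂ => (z.1, g z)) ⁻¹' {(c x, 0)},
        ∃ φ : OpenPartialHomeomorph (K × ℂ) (K × ℂ), a ∈ φ.source ∧
          φ = fun z : K × ℂ => (z.1, g z) := fun a ha =>
      let ⟨_, hA⟩ := key x hx a ha
      ⟨_, hA.mem_toOpenPartialHomeomorph_source, rfl⟩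
    exact hp.isClosedMap.isEvenlyCovered_of_openPartialHomeomorph
      ((hp.isCompact_preimage isCompact_singleton).finite
        (.of_openPartialHomeomorph _ subset_rfl h1)) h1
  have := hc.contractibleSpace ⟨x₀, hx⟩
  have := ho.locallyPathConnectedSpace
  obtain ⟨F, ⟨F0, hF⟩, -⟩ := cov.existsUnique_continuousMap_lifts (A := Ω)
    ⟨fun x => (c x, 0), (continuousOn_iff_continuous_domRestrict.1 dc.continuousOn).prodMk
      continuous_const⟩ (a₀ := ⟨x₀, hx⟩) (e₀ := (c x₀, t₀)) (Prod.ext rfl ht)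
    fun x => ⟨x, x.2, rfl⟩
  obtain ⟨G, hG⟩ : ∃ G : E → K × ℂ, ∀ x : Ω, G x = F x :=
    ⟨fun x => if hx : x ∈ Ω then F ⟨x, hx⟩ else 0, fun x => dif_pos x.2⟩
  have G1 : ∀ x ∈ Ω, ((G x).1, g (G x)) = (c x, 0) := fun x hx => by
    rw [hG ⟨x, hx⟩]; exact congrFun hF ⟨x, hx⟩
  have G2 : ContinuousOn G Ω :=
    continuousOn_iff_continuous_domRestrict.2 (F.continuous.congr fun x => (hG x).symm)
  refine ⟨fun x => (G x).2, fun x hx => ?_, congrArg Prod.snd ((hG ⟨x₀, hx⟩).trans F0), fun x hx => ?_⟩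
  · obtain ⟨A, hA⟩ := key x hx _ (G1 x hx)
    have h1 := hA.to_localInverse.hasFDerivAt.differentiableAt
    rw [G1 x hx] at h1
    have h2 := h1.comp x (f := fun x => (c x, (0 : ℂ)))
      ((dc.differentiableAt (ho.mem_nhds hx)).prodMk (differentiableAt_const _))
    refine (h2.congr_of_eventuallyEq ?_).snd.differentiableWithinAt
    filter_upwards [(G2.continuousAt (ho.mem_nhds hx)).eventually hA.eventually_left_inverse,
      ho.mem_nhds hx] with y h3 hy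
    rw [G1 y hy] at h3
    exact h3.symm
  · obtain ⟨h1, h2⟩ := Prod.ext_iff.1 (G1 x hx)
    rw [← show (G x).1 = c x from h1]
    exact h2
end

theorem sheet_proper (d : ℕ) : IsProperMap fun z : (Fin (d + 1) → ℂ) × ℂ =>
    (z.1, z.2 ^ (d + 1) + ∑ j, z.1 j * z.2 ^ (j : ℕ)) := by
  have hc : Continuous fun z : (Fin (d + 1) → ℂ) × ℂ =>
    (z.1, z.2 ^ (d + 1) + ∑ j, z.1 j * z.2 ^ (j : ℕ)) := by fun_prop
  refine isProperMap_iff_isCompact_preimage.2 ⟨hc, fun C hC => isCompact_of_isClosed_isBounded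
    (hC.isClosed.preimage hc) ?_⟩
  obtain ⟨M, M0, hM⟩ := hC.isBounded.exists_pos_norm_le
  refine isBounded_iff_forall_norm_le.2 ⟨max M (max 1 ((d + 2) * M)), fun z hz => ?_⟩
  obtain ⟨h1, h2⟩ := norm_prod_le_iff.1 (hM _ hz)
  refine max_le_max h1 (le_max_iff.2 ((le_total _ _).imp_right fun h => ?_))
  have h3 : ‖∑ j, z.1 j * z.2 ^ (j : ℕ)‖ ≤ (d + 1) * (M * ‖z.2‖ ^ d) := by
    refine (norm_sum_le _ _).trans ((Finset.sum_le_card_nsmul _ _ (M * ‖z.2‖ ^ d)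
      fun j _ => ?_).trans_eq (by simp))
    rw [norm_mul, norm_pow]
    exact mul_le_mul ((norm_le_pi_norm _ j).trans h1) (pow_le_pow_right₀ h (Nat.lt_succ_iff.1 j.2))
      (by positivity) M0.le
  have h4 := norm_sub_le (z.2 ^ (d + 1) + ∑ j, z.1 j * z.2 ^ (j : ℕ)) (∑ j, z.1 j * z.2 ^ (j : ℕ))
  rw [add_sub_cancel_right, norm_pow, pow_succ] at h4
  have h5 : 1 ≤ ‖z.2‖ ^ d := one_le_pow₀ h
  refine le_of_mul_le_mul_left (a := ‖z.2‖ ^ d) ?_ (by positivity)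
  nlinarith

theorem t_sheet : T_SHEET := by
  intro E _ _ _ Ω p d hc ho dp hd hs x₀ hx t₀ ht
  have e : ∀ x ∈ Ω, ∀ t, t ^ d + ∑ j : Fin d, (p x).coeff j / (p x).coeff d * t ^ (j : ℕ) =
      (p x).eval t / (p x).coeff d := fun x hx t => by
    have := (hd x hx).2
    rw [Polynomial.eval_eq_sum_range' (Nat.lt_succ_of_le (hd x hx).1), Finset.sum_range_succ,
      Finset.sum_range, add_div, Finset.sum_div, add_comm, mul_div_cancel_left₀ _ this]
    simp only [div_mul_eq_mul_div]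
  cases d with
  | zero =>
    have := e x₀ hx t₀
    simp [ht] at this
  | succ d =>
    obtain ⟨θ, h1, h2, h3⟩ := sheet_lift (K := Fin (d + 1) → ℂ)
      (g := fun z => z.2 ^ (d + 1) + ∑ j, z.1 j * z.2 ^ (j : ℕ)) (by fun_prop) (sheet_proper d)
      hc ho (c := fun x j => (p x).coeff j / (p x).coeff (d + 1))
      (differentiableOn_pi.2 fun j => (dp j).mul ((dp _).inv fun x hx => (hd x hx).2))
      (fun x hx t h => by
        simp only [e x hx] at h ⊢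
        rw [deriv_div_const, Polynomial.deriv]
        exact div_ne_zero (hs x hx t ((div_eq_zero_iff.1 h).resolve_right (hd x hx).2))
          (hd x hx).2) hx (t₀ := t₀) (by simp only [e x₀ hx, ht, zero_div])
    refine ⟨θ, h1, h2, fun x hx => ?_⟩
    have := h3 x hx
    simp only [e x hx] at this
    exact (div_eq_zero_iff.1 this).resolve_right (hd x hx).2

end Pool.Agent.P.MP_d2ed07_lc
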