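import Pool.Agent.P.MP_d2ed07_lc.Basic

namespace Pool.Agent.P.MP_d2ed07_lc

open MvPolynomial Metric Filter Topology

theorem sl1_cover {n : ℕ} {ι : Type} [Countable ι] (W : ι → Submodule ℂ (Cn n))
    (hW : ∀ m, W m ≠ ⊤) : ∃ a, ∀ m, a ∉ W m := by
  by_contra h
  push Not at h
  have h1 : MeasureTheory.volume (⋃ m, (W m : Set (Cn n))) = 0 :=
    MeasureTheory.measure_iUnion_null fun m =>
      MeasureTheory.Measure.addHaar_submodule MeasureTheory.volume ((W m).restrictScalars ℝ)
        fun e => hW m ((Submodule.restrictScalars_eq_top_iff ℝ ℂ (Cn n)).1 e)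
  rw [Set.eq_univ_of_forall fun a => Set.mem_iUnion.2 (h a)] at h1
  exact isOpen_univ.measure_ne_zero _ Set.univ_nonempty h1

theorem sl1_two {K F : Type} [Field K] [Field F] [Algebra K F] {a b g : F}
    (hI : AlgebraicIndependent K ![a, b]) (ha : IsAlgebraic (Algebra.adjoin K {g}) a)
    (hb : IsAlgebraic (Algebra.adjoin K {g}) b) : False := by
  have hind : (AlgebraicIndependent.matroid K F).Indep (Set.range ![a, b]) :=
    AlgebraicIndependent.matroid_indep_iff.2 hI.to_subtype_range
  have hsub : Set.range ![a, b] ⊆ (AlgebraicIndependent.matroid K F).closure {g} := by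
    rw [AlgebraicIndependent.matroid_closure_eq]
    rintro _ ⟨j, rfl⟩
    rw [SetLike.mem_coe, Subalgebra.mem_algebraicClosure]
    fin_cases j
    · exact ha
    · exact hb
  have h1 := hind.encard_le_eRk_of_subset hsub
  rw [Matroid.eRk_closure_eq] at h1
  have h2 := h1.trans (Matroid.eRk_le_encard _ _)
  rw [Set.encard_singleton, ← Set.image_univ, hI.injective.encard_image,
    Set.encard_univ, ENat.card_eq_coe_fintype_card, Fintype.card_fin] at h2
  have h3 : 2 ≤ 1 := by exact_mod_cast h2
  omega

theorem sl1_pair {K F : Type} [Field K] [Field F] [Algebra K F] {g t : F}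
    (hg : Transcendental K g) (ht : Transcendental (Algebra.adjoin K {g}) t) :
    AlgebraicIndependent K ![g, t] := by
  have h1 : AlgebraicIndependent K (fun o : Option Unit => o.elim t fun _ => g) :=
    AlgebraicIndependent.option_iff.2 ⟨algebraicIndependent_unique_type_iff.2 hg, by
      rwa [Set.range_const]⟩
  have h2 := h1.comp (![some (), none] : Fin 2 → Option Unit) (by decide)
  convert h2 using 1
  ext a
  fin_cases a <;> rfl

theorem t_sl1 : T_SL1 := by
  intro n K F _ _ _ _ _ _ y i j hI
  have hc : ∀ (g : F) (c : ℂ), IsAlgebraic (Algebra.adjoin K {g}) (algebraMap ℂ F c) :=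
    fun g c => by
      rw [IsScalarTower.algebraMap_apply ℂ K F,
        IsScalarTower.algebraMap_apply K (Algebra.adjoin K {g}) F]
      exact isAlgebraic_algebraMap _
  let W : F → Submodule ℂ (Cn n) := fun g =>
    { carrier := {a | IsAlgebraic (Algebra.adjoin K {g}) (∑ r, algebraMap ℂ F (a r) * y r)}
      add_mem' := fun {a b} ha hb => by
        simp only [Set.mem_ofPred_eq, Pi.add_apply, map_add, add_mul, Finset.sum_add_distrib]
        exact IsAlgebraic.add ha hb
      zero_mem' := by simpa using isAlgebraic_zero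
      smul_mem' := fun c a ha => by
        simp only [Set.mem_ofPred_eq, Pi.smul_apply, smul_eq_mul, map_mul, mul_assoc,
          ← Finset.mul_sum]
        exact (hc g c).mul ha }
  have hW : ∀ g, W g ≠ ⊤ := fun g e => by
    have h1 : ∀ r, IsAlgebraic (Algebra.adjoin K {g}) (y r) := fun r => by
      have h2 : (Pi.single r 1 : Cn n) ∈ W g := e ▸ Submodule.mem_top
      have h3 : ∑ r', algebraMap ℂ F ((Pi.single r 1 : Cn n) r') * y r' = y r := by
        rw [Finset.sum_eq_single r] <;> simp +contextual
      exact h3 ▸ h2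
    exact sl1_two hI (h1 i) (h1 j)
  obtain ⟨a, ha⟩ := sl1_cover (fun m : Fin n → ℤ => W (mon y m)) fun m => hW _
  exact ⟨a, Transcendental.restrictScalars (algebraMap K _).injective (ha 0),
    fun m hm => sl1_pair hm (ha m)⟩

end Pool.Agent.P.MP_d2ed07_lc
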