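import Pool.Agent.P.MP_d2ed07_lc.Basic

/-!
Specialising a transcendental element to a constant: descend to a countable subfield `k` of `K`
over which everything is defined, and send `t` to an element of `K` transcendental over `k`.
-/

namespace Pool.Agent.P.MP_d2ed07_lc

open MvPolynomial Metric Filter Topology

/-- an embedding of `L` into an algebraically closed field with prescribed values on a
transcendence basis -/
theorem sl2_lift {k L Ω ι : Type} [Field k] [Field L] [Field Ω] [IsAlgClosed Ω] [Algebra k L]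
    [Algebra k Ω] (β : ι → L) (hβ : IsTranscendenceBasis k β) (γ : ι → Ω)
    (hγ : AlgebraicIndependent k γ) : ∃ φ : L →ₐ[k] Ω, ∀ i, φ (β i) = γ i := by
  let R := Algebra.adjoin k (Set.range β)
  let ψ : R →ₐ[k] Ω := (aeval γ).comp hβ.1.aevalEquiv.symm.toAlgHom
  have hψ : Function.Injective ψ := 
    Function.Injective.comp (g := aeval γ) hγ hβ.1.aevalEquiv.symm.injective
  let : Algebra R Ω := ψ.toAlgebra
  have : IsScalarTower k R Ω := IsScalarTower.of_algebraMap_eq fun a => (ψ.commutes a).symm
  have : FaithfulSMul R Ω := (faithfulSMul_iff_algebraMap_injective R Ω).mpr hψ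
  have : Algebra.IsAlgebraic R L := hβ.isAlgebraic
  let φ : L →ₐ[R] Ω := IsAlgClosed.lift
  refine ⟨φ.restrictScalars k, fun i => ?_⟩
  have h1 : β i = algebraMap R L (hβ.1.aevalEquiv (X i)) := by
    rw [hβ.1.algebraMap_aevalEquiv]; simp
  rw [AlgHom.restrictScalars_apply, h1, φ.commutes]
  change ψ _ = _
  simp [ψ]

theorem sl2_core (k L K : Type) [Field k] [Field L] [Field K] [Algebra k L] [Algebra k K] (e : ℕ)
    (he : Algebra.trdeg k L ≤ (e + 1 : ℕ)) (t : L) (ht : Transcendental k t) (b : K)
    (hb : Transcendental k b) :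
    ∃ (Ω : Type) (_ : Field Ω) (_ : Algebra K Ω) (_ : Algebra k Ω) (_ : IsScalarTower k K Ω)
      (φ : L →ₐ[k] Ω), Algebra.trdeg K Ω ≤ e ∧
      ∀ g : L, AlgebraicIndependent k ![g, t] → Transcendental K (φ g) := by
  classical
  have h1 : AlgebraicIndepOn k id ({t} : Set L) := by
    rw [AlgebraicIndepOn, algebraicIndependent_unique_type_iff]
    exact ht
  obtain ⟨u, htu, hu⟩ := exists_isTranscendenceBasis_superset h1
  let t0 : u := ⟨t, htu rfl⟩
  let s' : Type := {x : u // x ≠ t0}
  let eq : s' ⊕ Unit ≃ u := (Equiv.optionEquivSumPUnit _).symm.trans (Equiv.optionSubtypeNe t0)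
  let β : s' ⊕ Unit → L := ((↑) : u → L) ∘ eq
  have hβ : IsTranscendenceBasis k β := hu.comp_equiv eq
  have hβt : β (Sum.inr ()) = t := rfl
  let Ω : Type := AlgebraicClosure (FractionRing (MvPolynomial s' K))
  let x : s' → Ω := algebraMap (FractionRing (MvPolynomial s' K)) Ω ∘
    (algebraMap (MvPolynomial s' K) (FractionRing (MvPolynomial s' K)) ∘ X)
  have : Algebra.IsAlgebraic (MvPolynomial s' K) (FractionRing (MvPolynomial s' K)) :=
    IsLocalization.isAlgebraic _ (nonZeroDivisors _)
  have hx : IsTranscendenceBasis K x :=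
    ((IsTranscendenceBasis.mvPolynomial s' K).algebraMap_comp).algebraMap_comp
  have hb' : AlgebraicIndependent k (fun _ : Unit => b) := by
    rw [algebraicIndependent_unique_type_iff]
    exact hb
  let γ : s' ⊕ Unit → Ω := Sum.elim x (algebraMap K Ω ∘ fun _ : Unit => b)
  have hγ : AlgebraicIndependent k γ := hb'.sumElim_comp hx.1
  obtain ⟨φ, hφ⟩ := sl2_lift β hβ γ hγ
  have hcard : Cardinal.mk s' + 1 ≤ (e + 1 : ℕ) := by
    have := hβ.cardinalMk_eq_trdeg
    rw [← this] at he
    simpa using he
  have hfin : Cardinal.mk s' < Cardinal.aleph0 :=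
    lt_of_le_of_lt (le_trans (self_le_add_right _ _) hcard) (Cardinal.natCast_lt_aleph0)
  obtain ⟨r, hr⟩ := Cardinal.lt_aleph0.mp hfin
  have hre : r ≤ e := by
    rw [hr] at hcard
    have : r + 1 ≤ e + 1 := by exact_mod_cast hcard
    omega
  refine ⟨Ω, inferInstance, inferInstance, inferInstance, inferInstance, φ, ?_, ?_⟩
  · rw [← hx.cardinalMk_eq_trdeg, hr]
    exact_mod_cast hre
  · intro g hg halg
    let K' := IntermediateField.adjoin K ({φ g} : Set Ω)
    have : Algebra.IsAlgebraic K K' := IntermediateField.isAlgebraic_adjoin_simple halg.isIntegral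
    have : IsScalarTower k K' Ω := IsScalarTower.of_algebraMap_eq fun a => rfl
    have hx' : AlgebraicIndependent K' x := hx.1.extendScalars K'
    have h2 : AlgebraicIndependent k (φ ∘ ![g, t]) := hg.map' φ.injective
    have h3 : Set.range (φ ∘ ![g, t]) ⊆ Set.range (algebraMap K' Ω) := by
      rintro _ ⟨i, rfl⟩
      fin_cases i
      · exact ⟨⟨φ g, IntermediateField.mem_adjoin_simple_self K _⟩, rfl⟩
      · refine ⟨algebraMap K K' b, ?_⟩
        have := hφ (Sum.inr ())
        rw [hβt] at this
        simp only [Fin.mk_one, Fin.isValue, Function.comp_apply, Matrix.cons_val_one,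
          Matrix.cons_val_fin_one, this]
        rfl
    have h4 : AlgebraicIndependent k (Sum.elim x (φ ∘ ![g, t])) := h2.sumElim_of_tower h3 hx'
    have h5 : Sum.elim x (φ ∘ ![g, t]) = φ ∘ Sum.elim (β ∘ Sum.inl) ![g, t] := by
      funext i
      rcases i with i | i
      · exact (hφ (Sum.inl i)).symm
      · rfl
    rw [h5] at h4
    have h6 := (AlgebraicIndependent.of_comp φ h4).cardinalMk_le_trdeg
    rw [← hβ.cardinalMk_eq_trdeg] at h6
    simp only [Cardinal.mk_sum, Cardinal.lift_id, hr, Cardinal.mk_fintype, Fintype.card_fin,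
      Fintype.card_unique] at h6
    have : r + 2 ≤ r + 1 := by exact_mod_cast h6
    omega

theorem sl2_trdeg {k F : Type} [Field k] [Field F] [Algebra k F] {n : ℕ} (y : Fin n → F) (c : ℕ)
    (h : ∀ s : Finset (Fin n), AlgebraicIndependent k (fun i : s => y i) → s.card ≤ c) :
    Algebra.trdeg k (IntermediateField.adjoin k (Set.range y)) ≤ c := by
  classical
  let L := IntermediateField.adjoin k (Set.range y)
  let yL : Fin n → L := fun i => ⟨y i, IntermediateField.subset_adjoin k _ ⟨i, rfl⟩⟩
  have htop : IntermediateField.adjoin k (Set.range yL) = ⊤ := by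
    apply IntermediateField.lift_injective L
    rw [IntermediateField.lift_adjoin, IntermediateField.lift_top, ← Set.range_comp]
    rfl
  have : Algebra.IsAlgebraic (Algebra.adjoin k (Set.range yL)) L := by
    rw [← IntermediateField.isAlgebraic_adjoin_iff_top]
    refine ⟨fun a => ?_⟩
    exact isAlgebraic_algebraMap
      (⟨a, by rw [htop]; trivial⟩ : IntermediateField.adjoin k (Set.range yL))
  obtain ⟨w, hwS, hw⟩ := exists_isTranscendenceBasis_subset (R := k) (Set.range yL)
  rw [← hw.cardinalMk_eq_trdeg]
  choose f hf using fun a : w => hwS a.2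
  have hfi : Function.Injective f := fun a a' haa => Subtype.ext (by rw [← hf a, ← hf a', haa])
  let s : Finset (Fin n) := (Set.range f).toFinset
  have hs : ∀ i : s, ∃ a, f a = i := fun i => (Set.mem_toFinset (s := Set.range f)).mp i.2
  choose g hg using hs
  have hgi : Function.Injective g := fun i j hij => Subtype.ext (by rw [← hg i, ← hg j, hij])
  have h1 : AlgebraicIndependent k (fun i : s => y i) := by
    have h2 := (hw.1.map' (f := L.val) L.val.injective).comp g hgi
    convert h2 using 1
    funext i
    simp only [Function.comp_apply, ← hf (g i), hg i]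
    rfl
  have h3 := h s h1
  have h4 : Cardinal.mk w = s.card := by
    rw [← Cardinal.mk_range_eq f hfi]
    simp [s]
  rw [h4]
  exact_mod_cast h3

theorem sl2_desc {K σ : Type} [Field K] (k : Subfield K) (p : MvPolynomial σ K)
    (h : ∀ a ∈ p.coeffs, a ∈ k) : ∃ q : MvPolynomial σ k, map (algebraMap k K) q = p := by
  have : p ∈ Set.range (MvPolynomial.map (algebraMap k K)) := by
    rw [mem_range_map_iff_coeffs_subset]
    intro a ha
    exact ⟨⟨a, h a ha⟩, rfl⟩
  exact this

theorem sl2_exists_transc (K : Type) [Field K] [Algebra ℂ K] (C : Set K) (hC : C.Finite) :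
    ∃ b : K, Transcendental (Subfield.closure C) b := by
  by_contra hcon
  push Not at hcon
  have : Algebra.IsAlgebraic (Subfield.closure C) K := ⟨fun b => not_not.mp (hcon b)⟩
  have h1 := Algebra.IsAlgebraic.cardinalMk_le_max (Subfield.closure C) K
  have h2 := Subfield.cardinalMk_closure_le_max C
  have h3 : Cardinal.mk C ≤ Cardinal.aleph0 := hC.lt_aleph0.le
  have h4 : Cardinal.mk K ≤ Cardinal.aleph0 :=
    h1.trans (max_le (h2.trans (max_le h3 le_rfl)) le_rfl)
  have h5 : Cardinal.mk ℂ ≤ Cardinal.mk K :=
    Cardinal.mk_le_of_injective (algebraMap ℂ K).injective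
  rw [Cardinal.mk_complex] at h5
  exact absurd (h5.trans h4) (not_le.mpr Cardinal.aleph0_lt_continuum)

theorem t_sl2 : T_SL2 := by
  classical
  intro n e K F _ _ _ _ y t hy ht htr hrk
  obtain ⟨S, hS⟩ : (RingHom.ker (aeval y : MvPolynomial (Fin n) K →ₐ[K] F)).FG :=
    IsNoetherian.noetherian _
  rw [Algebra.adjoin_range_eq_range_aeval] at ht
  obtain ⟨T, hT⟩ := ht
  have hp : ∀ s : Finset (Fin n), ∃ p : MvPolynomial s K,
      ¬ AlgebraicIndependent K (fun i : s => y i) → p ≠ 0 ∧ aeval (fun i : s => y i) p = 0 := by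
    intro s
    by_cases hs : AlgebraicIndependent K (fun i : s => y i)
    · exact ⟨0, fun h => absurd hs h⟩
    · rw [algebraicIndependent_iff] at hs
      push Not at hs
      obtain ⟨p, hp1, hp2⟩ := hs
      exact ⟨p, fun _ => ⟨hp2, hp1⟩⟩
  choose p hp using hp
  let C : Finset K := S.biUnion coeffs ∪ T.coeffs ∪ Finset.univ.biUnion fun s => (p s).coeffs
  let k : Subfield K := Subfield.closure (C : Set K)
  have hk : ∀ a ∈ C, a ∈ k := fun a ha => Subfield.subset_closure ha
  obtain ⟨b, hb⟩ := sl2_exists_transc K (C : Set K) C.finite_toSet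
  let L := IntermediateField.adjoin k (Set.range y)
  let yL : Fin n → L := fun i => ⟨y i, IntermediateField.subset_adjoin k _ ⟨i, rfl⟩⟩
  have hval : ∀ q : MvPolynomial (Fin n) k,
      ((aeval yL q : L) : F) = aeval y (map (algebraMap k K) q) := by
    intro q
    rw [aeval_map_algebraMap]
    have := comp_aeval_apply yL L.val q
    exact this
  obtain ⟨T0, hT0⟩ := sl2_desc k T fun a ha => hk a (by simp [C, ha])
  have htL : ((aeval yL T0 : L) : F) = t := by rw [hval, hT0]; exact hT
  have he : Algebra.trdeg k L ≤ (e + 1 : ℕ) := by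
    refine sl2_trdeg y (e + 1) fun s hs => hrk s ?_
    by_contra hcon
    obtain ⟨hp1, hp2⟩ := hp s hcon
    obtain ⟨q, hq⟩ := sl2_desc k (p s) fun a ha => hk a (by
      simp only [C, Finset.mem_union, Finset.mem_biUnion]
      exact Or.inr ⟨s, Finset.mem_univ _, ha⟩)
    rw [← hq, aeval_map_algebraMap] at hp2
    rw [algebraicIndependent_iff] at hs
    rw [hs q hp2] at hq
    exact hp1 (by rw [← hq, map_zero])
  have htr' : Transcendental k (aeval yL T0) := by
    have h1 : Transcendental k t := htr.restrictScalars (algebraMap k K).injective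
    rw [← htL] at h1
    exact fun h => h1 (h.algHom L.val)
  obtain ⟨Ω, _, _, _, _, φ, h1, h2⟩ := sl2_core k L K e he _ htr' b hb
  refine ⟨Ω, inferInstance, inferInstance, fun i => φ (yL i), fun i => ?_, fun g hg => ?_,
    fun s hs => ?_, fun m hm => ?_⟩
  · rw [map_ne_zero]
    exact fun h => hy i (congrArg Subtype.val h)
  · have hg' : g ∈ Ideal.span (S : Set (MvPolynomial (Fin n) K)) := by rw [hS]; exact hg
    have hle : Ideal.span (S : Set (MvPolynomial (Fin n) K)) ≤
        RingHom.ker (aeval (fun i => φ (yL i)) : MvPolynomial (Fin n) K →ₐ[K] Ω) := by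
      rw [Ideal.span_le]
      intro q hq
      have hq0 : aeval y q = 0 := by
        have : q ∈ Ideal.span (S : Set (MvPolynomial (Fin n) K)) := Ideal.subset_span hq
        rw [hS] at this
        exact this
      obtain ⟨q0, hq1⟩ := sl2_desc k q fun a ha => hk a (by
        simp only [C, Finset.mem_union, Finset.mem_biUnion]
        exact Or.inl (Or.inl ⟨q, hq, ha⟩))
      have h3 : aeval yL q0 = 0 := Subtype.ext (by rw [hval, hq1]; exact hq0)
      change aeval _ q = 0
      rw [← hq1, aeval_map_algebraMap, ← comp_aeval_apply, h3, map_zero]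
    exact hle hg'
  · have := hs.cardinalMk_le_trdeg.trans h1
    simp only [Cardinal.mk_fintype, Fintype.card_coe] at this
    exact_mod_cast this
  · have h3 : mon (fun i => φ (yL i)) m = φ (mon yL m) := by simp [mon]
    rw [h3]
    apply h2
    have h4 : AlgebraicIndependent k ![mon y m, t] :=
      hm.restrictScalars (algebraMap k K).injective
    refine AlgebraicIndependent.of_comp L.val ?_
    convert h4 using 1
    funext i
    fin_cases i
    · change L.val (mon yL m) = mon y m
      simp only [mon, map_prod, map_zpow₀]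
      rfl
    · simpa using htL

end Pool.Agent.P.MP_d2ed07_lc
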