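import Pool.Agent.P.MP_d2ed07_lc.Basic

namespace Pool.Agent.P.MP_d2ed07_lc

open MvPolynomial Metric Filter Topology

theorem slice_mon {n : ℕ} {A F : Type} [CommRing A] [IsDomain A] [Field F] [Algebra A F]
    {y : Fin n → F} (h : ∀ i, IsAlgebraic A (y i)) (m : Fin n → ℤ) : IsAlgebraic A (mon y m) := by
  rw [← Subalgebra.mem_algebraicClosure]
  refine prod_mem fun i _ => ?_
  have h1 : ∀ k : ℕ, y i ^ k ∈ Subalgebra.algebraicClosure A F := fun k =>
    pow_mem ((Subalgebra.mem_algebraicClosure A F).2 (h i)) k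
  rcases Int.eq_nat_or_neg (m i) with ⟨k, e | e⟩
  · rw [e, zpow_natCast]; exact h1 k
  · rw [e, zpow_neg, zpow_natCast, Subalgebra.mem_algebraicClosure]
    exact ((Subalgebra.mem_algebraicClosure A F).1 (h1 k)).inv

theorem t_curv : T_CURV := by
  classical
  intro n F _ _ D hR m m' hI
  obtain ⟨s, hs, hmax⟩ := Finset.exists_max_image
    ((Finset.univ : Finset (Finset (Fin n))).filter fun s : Finset (Fin n) =>
      AlgebraicIndepOn D.k D.y (s : Set (Fin n)))
    Finset.card ⟨∅, by
      rw [Finset.mem_filter]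
      refine ⟨Finset.mem_univ _, ?_⟩
      rw [Finset.coe_empty]
      exact algebraicIndependent_empty_type_iff.2 (algebraMap D.k F).injective⟩
  rw [Finset.mem_filter] at hs
  have hc : s.card ≤ 1 := hR s hs.2
  have halg : ∀ i, IsAlgebraic (Algebra.adjoin D.k (D.y '' (s : Set (Fin n)))) (D.y i) := by
    intro i
    by_contra hi
    have his : i ∉ s := fun h => hi (isAlgebraic_algebraMap
      (⟨D.y i, Algebra.subset_adjoin ⟨i, h, rfl⟩⟩ : Algebra.adjoin D.k (D.y '' (s : Set (Fin n)))))
    have h2 := hmax (insert i s) (by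
      rw [Finset.mem_filter, Finset.coe_insert]
      exact ⟨Finset.mem_univ _, hs.2.insert hi⟩)
    rw [Finset.card_insert_of_notMem his] at h2
    omega
  have hind : (AlgebraicIndependent.matroid D.k F).Indep (Set.range ![mon D.y m, mon D.y m']) :=
    AlgebraicIndependent.matroid_indep_iff.2 hI.to_subtype_range
  have hsub : Set.range ![mon D.y m, mon D.y m'] ⊆
      (AlgebraicIndependent.matroid D.k F).closure (D.y '' (s : Set (Fin n))) := by
    rw [AlgebraicIndependent.matroid_closure_eq]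
    rintro _ ⟨j, rfl⟩
    rw [SetLike.mem_coe, Subalgebra.mem_algebraicClosure]
    fin_cases j
    · exact slice_mon halg m
    · exact slice_mon halg m'
  have h1 := hind.encard_le_eRk_of_subset hsub
  rw [Matroid.eRk_closure_eq] at h1
  have h2 := h1.trans ((Matroid.eRk_le_encard _ _).trans (Set.encard_image_le _ _))
  rw [Set.encard_coe_eq_coe_finsetCard, ← Set.image_univ, hI.injective.encard_image,
    Set.encard_univ, ENat.card_eq_coe_fintype_card, Fintype.card_fin] at h2
  have h3 : 2 ≤ s.card := by exact_mod_cast h2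
  omega

theorem slice_ev {n : ℕ} {K F : Type} [Field K] [Field F] [Algebra ℂ K] [Algebra K F]
    [Algebra ℂ F] [IsScalarTower ℂ K F] (z : Fin n → K) (y : Fin n → F) (g : MP2 n) :
    ev (fun i => algebraMap K F (z i)) y g =
      aeval y (aeval (Sum.elim (fun i => C (z i)) X : Fin n ⊕ Fin n → MvPolynomial (Fin n) K) g) := by
  have : (aeval (Sum.elim (fun i => algebraMap K F (z i)) y) : MP2 n →ₐ[ℂ] F) =
      ((aeval y : MvPolynomial (Fin n) K →ₐ[K] F).restrictScalars ℂ).comp
        (aeval (Sum.elim (fun i => C (z i)) X : Fin n ⊕ Fin n → MvPolynomial (Fin n) K)) := by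
    ext (i | i) <;> simp
  rw [ev, this]
  rfl

theorem slice_aeval {n : ℕ} {K F : Type} [Field K] [Field F] [Algebra ℂ K] [Algebra K F]
    [Algebra ℂ F] [IsScalarTower ℂ K F] (z : Fin n → K) (g : MP n) :
    aeval (fun i => algebraMap K F (z i)) g = 0 ↔ aeval z g = 0 := by
  rw [← map_eq_zero (algebraMap K F), ← aeval_algebraMap_apply]
  rfl

theorem t_slice (hsl1 : T_SL1) (hsl2 : T_SL2) : T_SLICE := by
  classical
  intro n e F _ _ D he hR
  by_cases h0 : D.Rk e
  · exact ⟨F, inferInstance, inferInstance, D, rfl, h0, fun _ h => h, fun _ h => h⟩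
  simp only [Data.Rk, not_forall, not_le] at h0
  obtain ⟨s, hs, hc⟩ := h0
  obtain ⟨i, hi, j, hj, hij⟩ := Finset.one_lt_card.1 (show 1 < s.card by omega)
  have hI : AlgebraicIndependent D.k ![D.y i, D.y j] := by
    have := hs.comp (![⟨i, hi⟩, ⟨j, hj⟩] : Fin 2 → s) (by
      intro a b hab
      fin_cases a <;> fin_cases b
      · rfl
      · exact absurd (congrArg Subtype.val hab) hij
      · exact absurd (congrArg Subtype.val hab) hij.symm
      · rfl)
    convert this using 1
    ext a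
    fin_cases a <;> rfl
  obtain ⟨a, ha, ha'⟩ := hsl1 n D.k F D.y i j hI
  have hmem : ∑ r, algebraMap ℂ F (a r) * D.y r ∈ Algebra.adjoin D.k (Set.range D.y) := by
    refine sum_mem fun r _ => mul_mem ?_ (Algebra.subset_adjoin ⟨r, rfl⟩)
    rw [IsScalarTower.algebraMap_apply ℂ D.k F]
    exact Subalgebra.algebraMap_mem _ _
  obtain ⟨F', _, _, y', hy', hrel, hrk, htr⟩ := hsl2 n e D.k F D.y _ D.hy hmem ha hR
  let _ : Algebra ℂ F' := ((algebraMap D.k F').comp (algebraMap ℂ D.k)).toAlgebra
  have _ : IsScalarTower ℂ D.k F' := IsScalarTower.of_algebraMap_eq fun _ => rfl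
  let zK : Fin n → D.k := fun r => ⟨D.z r, IntermediateField.subset_adjoin _ _ ⟨r, rfl⟩⟩
  have hz : D.z = fun r => algebraMap D.k F (zK r) := rfl
  let D' : Data n F' :=
    { z := fun r => algebraMap D.k F' (zK r), y := y', hy := hy', P := D.P, hP0 := D.hP0
      hP := fun g => by rw [slice_aeval, ← D.hP, hz, slice_aeval] }
  have hin : ∀ b : D.k, algebraMap D.k F' b ∈ D'.k := by
    rintro ⟨b, hb⟩
    induction hb using IntermediateField.adjoin_induction with
    | mem x hx =>
      obtain ⟨r, rfl⟩ := hx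
      exact IntermediateField.subset_adjoin _ _ ⟨r, rfl⟩
    | algebraMap x => exact D'.k.algebraMap_mem x
    | add x x' hx hx' h1 h2 =>
      have : (⟨x + x', add_mem hx hx'⟩ : D.k) = ⟨x, hx⟩ + ⟨x', hx'⟩ := rfl
      rw [this, map_add]; exact add_mem h1 h2
    | inv x hx h1 =>
      have : (⟨x⁻¹, inv_mem hx⟩ : D.k) = (⟨x, hx⟩ : D.k)⁻¹ := rfl
      rw [this, map_inv₀]; exact inv_mem h1
    | mul x x' hx hx' h1 h2 =>
      have : (⟨x * x', mul_mem hx hx'⟩ : D.k) = ⟨x, hx⟩ * ⟨x', hx'⟩ := rfl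
      rw [this, map_mul]; exact mul_mem h1 h2
  let ψ : D.k →+* D'.k := (algebraMap D.k F').codRestrict D'.k hin
  have hψ : (algebraMap D'.k F').comp ψ = (RingHom.id F').comp (algebraMap D.k F') := rfl
  have hsurj : Function.Surjective ψ := by
    rintro ⟨b, hb⟩
    have h1 : D'.k ≤ (IsScalarTower.toAlgHom ℂ D.k F').fieldRange := by
      rw [IntermediateField.adjoin_le_iff]
      rintro _ ⟨r, rfl⟩
      exact ⟨zK r, rfl⟩
    obtain ⟨c, hc⟩ := h1 hb
    exact ⟨c, Subtype.ext hc⟩
  refine ⟨F', inferInstance, inferInstance, D', rfl, fun t ht => hrk t ?_, fun g hg => ?_,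
    fun m hm => ?_⟩
  · exact AlgebraicIndependent.of_ringHom_of_comp_eq ψ (RingHom.id F') ht ψ.injective hψ
  · rw [hz, slice_ev] at hg
    exact (slice_ev zK y' g).trans (hrel _ hg)
  · by_contra hc
    exact htr m (ha' m hc) (IsAlgebraic.of_ringHom_of_comp_eq ψ (RingHom.id F') hm hsurj
      Function.injective_id hψ)

end Pool.Agent.P.MP_d2ed07_lc
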