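import Pool.Agent.P.MP_d2ed07_lc.Basic

/-!
The case of curve fibres, and density.
-/

namespace Pool.Agent.P.MP_d2ed07_lc

open MvPolynomial Metric Filter Topology

theorem t1_eval_neg {n : ℕ} (P : MP n) (u : Cn n) :
    eval (-u) (top P) = (-1) ^ P.totalDegree * eval u (top P) := by
  have h : (top P).IsHomogeneous P.totalDegree := homogeneousComponent_isHomogeneous _ _
  generalize top P = Q at h
  rw [eval_eq', eval_eq', Finset.mul_sum]
  refine Finset.sum_congr rfl fun d hd => ?_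
  have hd' := h (mem_support_iff.1 hd)
  have e : ∏ i, (-u) i ^ d i = (∏ i, (-1 : ℂ) ^ d i) * ∏ i, u i ^ d i := by
    rw [← Finset.prod_mul_distrib]
    exact Finset.prod_congr rfl fun i _ => by rw [Pi.neg_apply, neg_pow]
  rw [e, Finset.prod_pow_eq_pow_sum, ← hd', Finsupp.weight_apply, Finsupp.sum_fintype _ _ (by simp)]
  simp only [Pi.one_apply, smul_eq_mul, mul_one]
  ring

theorem t1_ray (hray : T_RAY) (hspan : T_SPAN) {n : ℕ} {F : Type} [Field F] [Algebra ℂ F]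
    (D : Data n F) (hc : D.Curve) (hs : D.Star) :
    ∃ v, D.IsRay v ∧ ddir (cQ v) (top D.P) ≠ 0 := by
  obtain ⟨u, hu, hQ⟩ := hs
  by_contra hcon
  push Not at hcon
  apply hQ
  ext mo
  have := hspan n {v | D.IsRay v} u (fun i => coeff mo (pderiv i (top D.P))) (fun l hl => by
    by_contra h0
    obtain ⟨v, hv, h1⟩ := hray n F D hc l fun h => h0 (hu l h)
    rw [hl v hv] at h1; exact zero_ne_one h1) (fun v hv => by
    have := congrArg (coeff mo) (hcon v hv)
    simp only [ddir, coeff_sum, coeff_C_mul, coeff_zero, cQ] at this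
    rw [← this]; exact Finset.sum_congr rfl fun i _ => mul_comm _ _)
  simp only [ddir, coeff_sum, coeff_C_mul, coeff_zero]
  rw [← this]; exact Finset.sum_congr rfl fun i _ => mul_comm _ _

theorem t_t1 (hray : T_RAY) (hspan : T_SPAN) (hcase1 : T_CASE1) (hcone1 : T_CONE1)
    (hcone2 : T_CONE2) (hcase2 : T_CASE2) (hr2 : T_R2) (hhyp : T_HYP) (hnewt : T_NEWT)
    (h3a : T_3A) (h3b : T_3B) : T_T1 := by
  intro n F _ _ D hc hf hs
  obtain ⟨v, hv, hQ⟩ := t1_ray hray hspan D hc hs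
  by_cases h1 : ∃ (s : Fin n → ℝ) (τ : ℂ), eval (iR s + τ • cQ v) (top D.P) = 0 ∧
      (∃ τ' : ℂ, eval (iR s + τ' • cQ v) (top D.P) ≠ 0) ∧ τ.re ≠ 0
  · obtain ⟨s, τ, h0, ⟨τ', h2⟩, h3⟩ := h1
    rcases lt_or_gt_of_ne h3 with h3 | h3
    · have e : ∀ t : ℂ, iR (-s) + (-t) • cQ v = -(iR s + t • cQ v) := fun t => by
        rw [iR_neg, neg_smul, neg_add]
      refine hcase1 n F D v (-s) (-τ) hv (by rw [e, t1_eval_neg, h0, mul_zero]) ⟨-τ', ?_⟩
        (by simpa using h3)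
      rw [e, t1_eval_neg]
      exact mul_ne_zero (pow_ne_zero _ (by norm_num)) h2
    · exact hcase1 n F D v s τ hv h0 ⟨τ', h2⟩ h3
  push Not at h1
  obtain ⟨s, δ, σ, κ, K, T, hT⟩ := hcone1 n (top D.P) (cQ v) (fun i => by simp [cQ]) hQ h1
  rcases hcone2 n _ _ v s δ σ κ K T (homogeneousComponent_isHomogeneous _ _) hT with
    ⟨m, k, hmk, hmv, h0⟩ | ⟨s', ν, h2, h3, h4⟩
  · have hm : ¬ D.Alg (mon D.y m) := fun h => hmv (hr2 n F D v m hv h)
    by_cases h5 : ∃ u : Cn n, dz m u = 0 ∧ eval u D.P ≠ 0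
    · obtain ⟨θ, s', q, η₀, d₀, hθ, hN, hη⟩ := hnewt n D.P m k hmk h0 h5
      rcases lt_or_ge 0 θ with h6 | h6
      · exact h3a n F D m k θ s' q η₀ d₀ hc hmk hm hN h6 hθ (hη h6)
      · exact h3b n F D m k θ s' q η₀ d₀ hc hf hmk hm hN h6
    · push Not at h5
      have hm0 : m ≠ 0 := by rintro rfl; simp [dz] at hmk
      exact absurd (by simpa using hhyp n D.P m k D.prime hmk h5) (D.free_iff.1 hf m hm0 0)
  · exact hcase2 n F D v s' ν hc hv h2 h3 h4

theorem dens_aux (hslice : T_SLICE) (hcurv : T_CURV) (ht1 : T_T1) {n : ℕ} (e : ℕ) :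
    ∀ (F : Type) [Field F] [Algebra ℂ F] (D : Data n F), D.Rk (e + 1) → Free D.z → D.Star →
      D.Sol := by
  induction e with
  | zero => exact fun F _ _ D hr hf hs => ht1 n F D (hcurv n F D hr) hf hs
  | succ e ih =>
    intro F _ _ D hr hf hs
    obtain ⟨F', _, _, D', hP, hr', hev, halg⟩ := hslice n (e + 1) F D (by omega) hr
    obtain ⟨u, hu, hQ⟩ := hs
    obtain ⟨x, hx⟩ := ih F' D' hr' (by rw [Data.free_iff, hP, ← Data.free_iff]; exact hf)
      ⟨u, fun m hm => hu m (halg m hm), by rw [hP]; exact hQ⟩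
    exact ⟨x, fun g hg => hx g (hev g hg)⟩

theorem t_dens (hrab : T_RAB) (hslice : T_SLICE) (hcurv : T_CURV) (ht1 : T_T1) : T_DENS := by
  intro n F _ _ D hf hs f h0
  obtain ⟨D', hf', hs', h⟩ := hrab n F D f h0 hf hs
  refine h (dens_aux hslice hcurv ht1 n _ D' (fun s _ => ?_) hf' hs')
  simpa using s.card_le_univ

end Pool.Agent.P.MP_d2ed07_lc
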