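import Pool.Agent.P.MP_d2ed07_lc.Basic

/-!
Roots with positive real part along a ray give exponential points.
-/

namespace Pool.Agent.P.MP_d2ed07_lc

open MvPolynomial Metric Filter Topology

variable {n : ℕ}

theorem t3a_core (hscale : T_SCALE) (hhur : T_HUR) {F : Type} [Field F] [Algebra ℂ F]
    (D : Data n F) {v : Fin n → ℚ} (hv : D.IsRay v) {q : Polynomial ℂ} {τ₀ : ℂ} {θ : ℝ}
    (s : Fin n → ℝ) (d : ℕ) (hq : q ≠ 0) (hq0 : q.eval τ₀ = 0) (hτ : 0 < τ₀.re) (hθ : 0 < θ)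
    (hθ1 : θ ≤ 1)
    (happ : ∀ σ κ : ℝ, 0 < σ → 0 < κ → ∀ᶠ R : ℝ in atTop,
      ∀ p ∈ ball ((R : ℂ) • iR s) (R ^ (θ / 2)), ∀ t : ℂ, ‖t - τ₀‖ ≤ σ →
        ‖eval (p + (((R ^ θ : ℝ) : ℂ) * t) • cQ v) D.P / (R : ℂ) ^ d - q.eval t‖ ≤ κ) :
    D.Sol := by
  obtain ⟨σ, κ, hσ, hσ', hκ, H⟩ := hhur q τ₀ (τ₀.re / 2) hq hq0 (by positivity)
  have hθ2 : 0 < θ / 2 := by positivity
  refine hscale n F D v (θ / 2) hv hθ2 ?_
  filter_upwards [happ σ κ hσ hκ, eventually_ge_atTop 1, eventually_ge_atTop (‖τ₀‖ + σ),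
    eventually_ge_atTop (‖s‖ + 1), (tendsto_rpow_atTop hθ2).eventually_ge_atTop (2 / τ₀.re)]
    with R h hR1 hR2 hR3 hR4
  have hR0 : 0 < R := by linarith
  have hw : 0 < R ^ θ := Real.rpow_pos_of_pos hR0 _
  have hw' : ((R ^ θ : ℝ) : ℂ) ≠ 0 := by exact_mod_cast hw.ne'
  have hw1 : R ^ θ ≤ R := by simpa using Real.rpow_le_rpow_of_exponent_le hR1 hθ1
  have hw2 : R ^ (θ / 2) ≤ R := by
    simpa using Real.rpow_le_rpow_of_exponent_le hR1 (show θ / 2 ≤ 1 by linarith)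
  have hw3 : R ^ θ = R ^ (θ / 2) * R ^ (θ / 2) := by rw [← Real.rpow_add hR0]; congr 1; ring
  have hn : ∀ t : ℂ, ‖((R ^ θ : ℝ) : ℂ) * t‖ = R ^ θ * ‖t‖ := fun t => by
    rw [norm_mul, Complex.norm_real, Real.norm_of_nonneg hw.le]
  refine ⟨(R : ℂ) • iR s, ((R ^ θ : ℝ) : ℂ) * τ₀, R ^ θ * σ, (imag_iR s).smul R, ?_, ?_,
    fun p hp => ⟨?_, ?_⟩⟩
  · rw [Complex.re_ofReal_mul, ← mul_sub, hw3, mul_assoc]
    refine le_mul_of_one_le_right (Real.rpow_nonneg hR0.le _) ?_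
    rw [div_le_iff₀ hτ] at hR4
    have : 0 ≤ R ^ (θ / 2) := Real.rpow_nonneg hR0.le _
    nlinarith
  · rw [hn, ← mul_add, pow_two]
    exact mul_le_mul hw1 hR2 (by positivity) hR0.le
  · rw [mem_ball, dist_eq_norm] at hp
    have h1 : ‖(R : ℂ) • iR s‖ = R * ‖s‖ := by
      rw [norm_smul, norm_iR, Complex.norm_real, Real.norm_of_nonneg hR0.le]
    have h2 := norm_sub_norm_le p ((R : ℂ) • iR s)
    have h3 : R * (‖s‖ + 1) ≤ R * R := by gcongr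
    nlinarith
  · have hRd : (R : ℂ) ^ d ≠ 0 := pow_ne_zero _ (by exact_mod_cast hR0.ne')
    obtain ⟨⟨t, ht, ht'⟩, H2⟩ := H
      (fun t => eval (p + (((R ^ θ : ℝ) : ℂ) * t) • cQ v) D.P / (R : ℂ) ^ d)
      (((differentiable_eval D.P).comp
        (f := fun t : ℂ => p + (((R ^ θ : ℝ) : ℂ) * t) • cQ v) (by fun_prop)).div_const _)
      (h p hp)
    refine ⟨⟨((R ^ θ : ℝ) : ℂ) * t, ?_, (div_eq_zero_iff.1 ht').resolve_right hRd⟩,
      fun τ hτ' h0 => H2 (τ / ((R ^ θ : ℝ) : ℂ)) ?_ ?_⟩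
    · rw [← mul_sub, hn]; exact mul_lt_mul_of_pos_left ht hw
    · apply mul_left_cancel₀ hw.ne'
      rw [← hn, mul_sub, mul_div_cancel₀ _ hw', hτ']
    · simp only [mul_div_cancel₀ _ hw', h0, zero_div]

theorem t3a_small {θ δ : ℝ} (M : ℝ) (hθ : 0 < θ) (hδ : 0 < δ) :
    ∀ᶠ R : ℝ in atTop, M * R ^ (θ / 2) < δ * R ^ θ := by
  have hθ2 : 0 < θ / 2 := by positivity
  filter_upwards [eventually_gt_atTop 0, (tendsto_rpow_atTop hθ2).eventually_gt_atTop (M / δ)]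
    with R hR0 h
  have hw3 : R ^ θ = R ^ (θ / 2) * R ^ (θ / 2) := by rw [← Real.rpow_add hR0]; congr 1; ring
  rw [div_lt_iff₀' hδ] at h
  rw [hw3, ← mul_assoc]
  exact mul_lt_mul_of_pos_right h (Real.rpow_pos_of_pos hR0 _)

theorem t_case1 (hscale : T_SCALE) (hhur : T_HUR) (hhom : T_HOM) : T_CASE1 := by
  intro n F _ _ D v s τ₀ hv h0 ⟨τ₁, h1⟩ hτ
  have hq : ∀ t, ((lin (cQ v) (top D.P)).map (eval (iR s))).eval t =
      eval (iR s + t • cQ v) (top D.P) := fun t => by rw [← ev1_eq, lin_eval]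
  refine t3a_core hscale hhur D hv (q := (lin (cQ v) (top D.P)).map (eval (iR s))) (θ := 1) s
    D.P.totalDegree (fun h => h1 (by rw [← hq, h, Polynomial.eval_zero])) (by rw [hq, h0]) hτ
    one_pos le_rfl fun σ κ hσ hκ => ?_
  obtain ⟨K, hK⟩ : ∃ K, K = ‖s‖ + 1 + (‖τ₀‖ + σ) * ‖cQ v‖ := ⟨_, rfl⟩
  obtain ⟨C, hC, hh⟩ := hhom n D.P K
  obtain ⟨δ, hδ, hu⟩ := Metric.uniformContinuousOn_iff.1
    ((isCompact_closedBall (0 : Cn n) K).uniformContinuousOn_of_continuous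
      (continuous_eval' (top D.P)).continuousOn) (κ / 2) (by positivity)
  filter_upwards [eventually_ge_atTop 1, eventually_ge_atTop (2 * C / κ),
    t3a_small 1 one_pos (lt_min hδ one_pos)] with R hR1 hR2 hR3 p hp t ht
  have hR0 : 0 < R := by linarith
  have hR' : (R : ℂ) ≠ 0 := by exact_mod_cast hR0.ne'
  rw [Real.rpow_one] at hR3 ⊢
  rw [mem_ball, dist_eq_norm] at hp
  have e1 : p + ((R : ℂ) * t) • cQ v = (R : ℂ) • ((R : ℂ)⁻¹ • p + t • cQ v) := by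
    rw [smul_add, smul_inv_smul₀ hR', mul_smul]
  have e2 : ‖(R : ℂ)⁻¹ • p - iR s‖ < min δ 1 := by
    have : (R : ℂ)⁻¹ • p - iR s = (R : ℂ)⁻¹ • (p - (R : ℂ) • iR s) := by
      rw [smul_sub, inv_smul_smul₀ hR']
    rw [this, norm_smul, norm_inv, Complex.norm_real, Real.norm_of_nonneg hR0.le,
      inv_mul_lt_iff₀ hR0]
    linarith
  have e3 : ‖t • cQ v‖ ≤ (‖τ₀‖ + σ) * ‖cQ v‖ := by
    rw [norm_smul]
    exact mul_le_mul_of_nonneg_right (by linarith [norm_sub_norm_le t τ₀]) (norm_nonneg _)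
  have e4 : ‖(R : ℂ)⁻¹ • p + t • cQ v‖ ≤ K := by
    have h1 := norm_add_le ((R : ℂ)⁻¹ • p) (t • cQ v)
    have h2 := norm_sub_norm_le ((R : ℂ)⁻¹ • p) (iR s)
    rw [norm_iR] at h2
    linarith [min_le_right δ 1]
  have e5 : ‖iR s + t • cQ v‖ ≤ K := by
    have h1 := norm_add_le (iR s) (t • cQ v)
    rw [norm_iR] at h1
    linarith
  have f1 := hh R _ hR1 e4
  have f2 := hu _ (mem_closedBall_zero_iff.2 e4) _ (mem_closedBall_zero_iff.2 e5) (by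
    rw [dist_eq_norm, add_sub_add_right_eq_sub]; exact e2.trans_le (min_le_left _ _))
  rw [dist_eq_norm] at f2
  have f3 : C / R ≤ κ / 2 := by
    rw [div_le_iff₀ hκ] at hR2
    rw [div_le_div_iff₀ hR0 two_pos]; linarith
  rw [hq, e1]
  have := norm_sub_le_norm_sub_add_norm_sub
    (eval ((R : ℂ) • ((R : ℂ)⁻¹ • p + t • cQ v)) D.P / (R : ℂ) ^ D.P.totalDegree)
    (eval ((R : ℂ)⁻¹ • p + t • cQ v) (top D.P)) (eval (iR s + t • cQ v) (top D.P))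
  linarith

theorem t_3a (hray : T_RAY) (hscale : T_SCALE) (hhur : T_HUR) : T_3A := by
  intro n F _ _ D m k θ s q η₀ d₀ hcur hmk hm ⟨hs, hq, hq0, hN⟩ hθ hθ1 hη
  obtain ⟨e, v, he, he1, hτ, hv, hmv⟩ : ∃ (e : ℂ) (v : Fin n → ℚ), e * e = 1 ∧ ‖e‖ = 1 ∧
      0 < (e * η₀).re ∧ D.IsRay v ∧ dz m (cQ v) = e := by
    rcases hη.lt_or_gt with h | h
    · obtain ⟨v, hv, hv'⟩ := hray n F D hcur _ (D.not_alg_neg hm)
      rw [dz_neg_left, neg_eq_iff_eq_neg] at hv'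
      exact ⟨-1, v, by simp, by simp, by simpa using h, hv, by rw [dz_cQ, hv']; simp⟩
    · obtain ⟨v, hv, hv'⟩ := hray n F D hcur _ hm
      exact ⟨1, v, by simp, by simp, by simpa using h, hv, by rw [dz_cQ, hv']; simp⟩
  have hq' : ∀ t, (q.comp (Polynomial.C e * Polynomial.X)).eval t = q.eval (e * t) :=
    fun t => by simp [Polynomial.eval_comp]
  refine t3a_core hscale hhur D hv (q := q.comp (Polynomial.C e * Polynomial.X)) (θ := θ) s d₀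
    (fun h => hq (Polynomial.funext fun z => ?_)) (by rw [hq', ← mul_assoc, he, one_mul, hq0])
    hτ hθ hθ1.le fun σ κ hσ hκ => ?_
  · have := hq' (e * z)
    rw [h, ← mul_assoc, he, one_mul] at this
    rw [← this, Polynomial.eval_zero, Polynomial.eval_zero]
  obtain ⟨M, hM⟩ : ∃ M, M = ∑ i, |(m i : ℝ)| := ⟨_, rfl⟩
  obtain ⟨A, hA⟩ : ∃ A, A = ‖e * η₀‖ + σ := ⟨_, rfl⟩
  have hA0 : 0 ≤ A := by rw [hA]; positivity
  have hAv : 0 ≤ A * ‖cQ v‖ := by positivity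
  obtain ⟨δ, hδ, hu⟩ := Metric.uniformContinuousOn_iff.1
    ((isCompact_closedBall (0 : ℂ) (1 + A * ‖cQ v‖ + A)).uniformContinuousOn_of_continuous
      q.continuous.continuousOn) (κ / 2) (by positivity)
  filter_upwards [eventually_ge_atTop 1, hN (1 + A * ‖cQ v‖ + A) (κ / 2) (by positivity),
    t3a_small M hθ (lt_min hδ one_pos)] with R hR1 hR2 hR3 p hp t ht
  have hR0 : 0 < R := by linarith
  have hw : 0 < R ^ θ := Real.rpow_pos_of_pos hR0 _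
  have hw' : ((R ^ θ : ℝ) : ℂ) ≠ 0 := by exact_mod_cast hw.ne'
  rw [mem_ball, dist_eq_norm] at hp
  have ht' : ‖t‖ ≤ A := by linarith [norm_sub_norm_le t (e * η₀)]
  obtain ⟨z, hz⟩ : ∃ z, z = p + (((R ^ θ : ℝ) : ℂ) * t) • cQ v := ⟨_, rfl⟩
  have e1 : dz m z / ((R ^ θ : ℝ) : ℂ) - e * t =
      dz m (p - (R : ℂ) • iR s) / ((R ^ θ : ℝ) : ℂ) := by
    rw [hz, dz_add, dz_sub, dz_smul, dz_smul, dz_iR, hs, hmv]
    field_simp
    simp
  have e2 : ‖dz m z / ((R ^ θ : ℝ) : ℂ) - e * t‖ < min δ 1 := by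
    rw [e1, norm_div, Complex.norm_real, Real.norm_of_nonneg hw.le, div_lt_iff₀ hw]
    refine lt_of_le_of_lt ((norm_dz_le _ _).trans ?_) hR3
    rw [← hM]
    exact mul_le_mul_of_nonneg_left hp.le (by rw [hM]; positivity)
  have e3 : ‖e * t‖ ≤ A := by rwa [norm_mul, he1, one_mul]
  have e4 : ‖dz m z / ((R ^ θ : ℝ) : ℂ)‖ ≤ 1 + A * ‖cQ v‖ + A := by
    linarith [norm_sub_norm_le (dz m z / ((R ^ θ : ℝ) : ℂ)) (e * t), min_le_right δ 1]
  have e5 : ‖z - (R : ℂ) • iR s‖ ≤ (1 + A * ‖cQ v‖ + A) * R ^ max θ (1 / 2) := by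
    have h1 : R ^ θ ≤ R ^ max θ (1 / 2) := Real.rpow_le_rpow_of_exponent_le hR1 (le_max_left _ _)
    have h2 : R ^ (θ / 2) ≤ R ^ θ := Real.rpow_le_rpow_of_exponent_le hR1 (by linarith)
    have h3 : ‖(((R ^ θ : ℝ) : ℂ) * t) • cQ v‖ ≤ A * ‖cQ v‖ * R ^ θ := by
      rw [norm_smul, norm_mul, Complex.norm_real, Real.norm_of_nonneg hw.le]
      calc R ^ θ * ‖t‖ * ‖cQ v‖ ≤ R ^ θ * A * ‖cQ v‖ := by gcongr
        _ = _ := by ring
    have h4 := norm_add_le (p - (R : ℂ) • iR s) ((((R ^ θ : ℝ) : ℂ) * t) • cQ v)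
    rw [sub_add_eq_add_sub, ← hz] at h4
    calc _ ≤ (1 + A * ‖cQ v‖ + A) * R ^ θ := by nlinarith [mul_nonneg hA0 hw.le]
      _ ≤ _ := by gcongr
  have f1 := hR2 z _ e5 e4
  rw [mul_div_cancel₀ _ hw', proj_add_smul] at f1
  have f2 := hu _ (mem_closedBall_zero_iff.2 e4) (e * t)
    (mem_closedBall_zero_iff.2 (by linarith)) (by
      rw [dist_eq_norm]; exact e2.trans_le (min_le_left _ _))
  rw [dist_eq_norm] at f2
  rw [hq', ← hz]
  have := norm_sub_le_norm_sub_add_norm_sub (eval z D.P / (R : ℂ) ^ d₀)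
    (q.eval (dz m z / ((R ^ θ : ℝ) : ℂ))) (q.eval (e * t))
  linarith

end Pool.Agent.P.MP_d2ed07_lc
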