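import Pool.Agent.P.MP_d2ed07_lc.Basic

/-!
The case of a non-positive slope of the Newton polygon.
-/

namespace Pool.Agent.P.MP_d2ed07_lc

open MvPolynomial Metric Filter Topology

variable {n : ℕ}

theorem t3b_log (a b : ℝ) {ε : ℝ} (h : 0 < ε) : ∀ᶠ r : ℝ in atTop, a * Real.log r + b ≤ ε * r := by
  have := ((Real.isLittleO_log_id_atTop.const_mul_left a).add
    (Asymptotics.isLittleO_const_id_atTop b)).bound h
  filter_upwards [this, eventually_ge_atTop 0] with r h1 h2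
  rw [id, Real.norm_of_nonneg h2] at h1
  exact (le_abs_self _).trans h1

theorem t3b_pow {r : ℝ} (h : 0 < r) (j : ℕ) {a : ℝ} (ha : 16 * a = j) : (r ^ 16) ^ a = r ^ j := by
  rw [← Real.rpow_natCast r 16, ← Real.rpow_mul h.le, ← Real.rpow_natCast]
  congr 1

theorem t3b_dz {m k : Fin n → ℤ} (hk : dz m k = 1) (p : Cn n) (t : ℂ) :
    dz m (p + t • cZ k) = dz m p + t := by
  rw [dz_add, dz_smul, dz_cZ, hk]; simp

theorem t3b_shift (m k : Fin n → ℤ) (p : Cn n) (t : ℂ) :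
    p + t • cZ k = proj m k p + (dz m p + t) • cZ k := by
  rw [add_smul, ← add_assoc, proj_add_smul]

theorem t3b_rou (hhur : T_HUR) {P : MP n} {m k : Fin n → ℤ} {θ : ℝ} {s : Fin n → ℝ}
    {q : Polynomial ℂ} {η₀ : ℂ} {d₀ : ℕ} (hN : Newt P m k θ s q η₀ d₀) (hθ : θ ≤ 0) :
    ∃ σ : ℝ, 0 < σ ∧ σ ≤ 1 ∧ ∀ᶠ R : ℝ in atTop, ∀ p : Cn n,
      ‖p - (R : ℂ) • iR s‖ ≤ R ^ (1 / 2 : ℝ) →
        Rou P (cZ k) p (((R ^ θ : ℝ) : ℂ) * η₀ - dz m p) (R ^ θ * σ) := by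
  obtain ⟨-, q0, qη, hE⟩ := hN
  obtain ⟨σ, κ, σ0, σ1, κ0, h⟩ := hhur q η₀ 1 q0 qη one_pos
  refine ⟨σ, σ0, σ1, ?_⟩
  filter_upwards [hE (‖η₀‖ + 1) κ κ0, eventually_gt_atTop 0] with R hR R0 p hp
  rw [max_eq_right (by linarith : θ ≤ 1 / 2)] at hR
  have t0 : 0 < R ^ θ := Real.rpow_pos_of_pos R0 θ
  have t1 : ((R ^ θ : ℝ) : ℂ) ≠ 0 := by exact_mod_cast t0.ne'
  have t2 : (R : ℂ) ^ d₀ ≠ 0 := pow_ne_zero _ (by exact_mod_cast R0.ne')
  obtain ⟨⟨t, h1, h2⟩, h3⟩ := h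
    (fun η => eval (proj m k p + (((R ^ θ : ℝ) : ℂ) * η) • cZ k) P / (R : ℂ) ^ d₀)
    (((differentiable_eval P).comp (by fun_prop)).div_const _) fun η hη => hR p η
      (hp.trans (le_mul_of_one_le_left (Real.rpow_nonneg R0.le _)
        (by linarith [norm_nonneg η₀])))
      (by linarith [norm_sub_norm_le η η₀])
  have nn : ∀ t : ℂ, ‖((R ^ θ : ℝ) : ℂ) * t - dz m p - (((R ^ θ : ℝ) : ℂ) * η₀ - dz m p)‖ =
      R ^ θ * ‖t - η₀‖ := fun t => by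
    rw [sub_sub_sub_cancel_right, ← mul_sub, norm_mul, Complex.norm_real, Real.norm_of_nonneg t0.le]
  refine ⟨⟨((R ^ θ : ℝ) : ℂ) * t - dz m p, ?_, ?_⟩, fun τ hτ h4 => ?_⟩
  · rw [nn]; exact mul_lt_mul_of_pos_left h1 t0
  · rw [t3b_shift m k, add_sub_cancel]
    exact (div_eq_zero_iff.1 h2).resolve_right t2
  · have e : τ = ((R ^ θ : ℝ) : ℂ) * ((τ + dz m p) / ((R ^ θ : ℝ) : ℂ)) - dz m p := by
      field_simp; ring
    rw [e] at hτ h4
    rw [nn] at hτ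
    rw [t3b_shift m k, add_sub_cancel] at h4
    exact h3 _ (mul_left_cancel₀ t0.ne' hτ) (by rw [h4, zero_div])

theorem t3b_sheet (hloct : T_LOCT) {P : MP n} (hP : Prime P) {m k : Fin n → ℤ} (hk : dz m k = 1)
    {θ σ : ℝ} {s : Fin n → ℝ} {η₀ : ℂ} (hθ : θ ≤ 0) (σ0 : 0 < σ) (σ1 : σ ≤ 1)
    (hR : ∀ᶠ R : ℝ in atTop, ∀ p : Cn n, ‖p - (R : ℂ) • iR s‖ ≤ R ^ (1 / 2 : ℝ) →
        Rou P (cZ k) p (((R ^ θ : ℝ) : ℂ) * η₀ - dz m p) (R ^ θ * σ))
    {S : Finset (MP n)} (hS : Good P S) : ∃ N : ℝ, 1 ≤ N ∧ ∀ᶠ r : ℝ in atTop,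
      ∃ (x : Cn n) (τ : Cn n → ℂ), Imag x ∧ DifferentiableOn ℂ τ (ball x (r ^ 2)) ∧
        ∀ p ∈ ball x (r ^ 2), eval (p + τ p • cZ k) P = 0 ∧ ‖p + τ p • cZ k‖ ≤ (r ^ 16) ^ 3 ∧
          ‖dz m (p + τ p • cZ k)‖ ≤ ‖η₀‖ + 1 ∧
          Tm S (N * Real.log (r ^ 16)) (p + τ p • cZ k) := by
  obtain ⟨N, ε, R₀, N1, ε0, -, -, h⟩ := hloct n P (cZ k) S (1 / 4) hP hS (by norm_num)
  refine ⟨N, N1, ?_⟩
  have T := tendsto_pow_atTop (α := ℝ) (by norm_num : 16 ≠ 0)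
  set M := ∑ i, |(m i : ℝ)| with hM
  have M0 : 0 ≤ M := Finset.sum_nonneg fun _ _ => abs_nonneg _
  filter_upwards [T.eventually hR, T.eventually_ge_atTop R₀, eventually_ge_atTop 1,
    eventually_ge_atTop (1 / ε),
    T.eventually_ge_atTop (‖η₀‖ + 1 + (M + 1) * (‖s‖ + 1) + ‖cZ k‖)] with r h1 h2 r1 h3 h4
  have r0 : 0 < r := lt_of_lt_of_le one_pos r1
  have R1 : 1 ≤ r ^ 16 := one_le_pow₀ r1
  have e4 := t3b_pow r0 4 (a := 1 / 4) (by norm_num)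
  have e8 := t3b_pow r0 8 (a := 1 / 2) (by norm_num)
  have i8 : r ^ 8 ≤ r ^ 16 := pow_le_pow_right₀ r1 (by norm_num)
  rw [e8] at h1
  have t0 : 0 < (r ^ 16) ^ θ := Real.rpow_pos_of_pos (by positivity) θ
  have t1 : (r ^ 16) ^ θ ≤ 1 := Real.rpow_le_one_of_one_le_of_nonpos R1 hθ
  generalize r ^ 16 = R at *
  have n1 := norm_nonneg η₀
  have n2 := norm_nonneg s
  have n3 := norm_nonneg (cZ k)
  have n4 : 0 ≤ M * (‖s‖ + 1) := by positivity
  have a0 : ‖((R ^ θ : ℝ) : ℂ) * η₀‖ + R ^ θ * σ ≤ ‖η₀‖ + 1 := by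
    rw [norm_mul, Complex.norm_real, Real.norm_of_nonneg t0.le]
    nlinarith
  have key : ∀ p ∈ ball ((R : ℂ) • iR s) (r ^ 4 * R ^ (1 / 4 : ℝ)), ‖p‖ ≤ R ^ 2 ∧
      ‖((R ^ θ : ℝ) : ℂ) * η₀ - dz m p‖ + R ^ θ * σ ≤ R ^ 2 ∧
      Rou P (cZ k) p (((R ^ θ : ℝ) : ℂ) * η₀ - dz m p) (R ^ θ * σ) := by
    intro p hp
    rw [e4, mem_ball, dist_eq_norm, ← pow_add] at hp
    replace hp : ‖p - (R : ℂ) • iR s‖ < r ^ 8 := hp
    have a1 : ‖p‖ ≤ (‖s‖ + 1) * R := by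
      have := norm_sub_norm_le p ((R : ℂ) • iR s)
      rw [norm_smul, norm_iR, Complex.norm_real, Real.norm_of_nonneg (by linarith)] at this
      linarith
    have a2 := (norm_dz_le m p).trans (mul_le_mul_of_nonneg_left a1 M0)
    have a3 := norm_sub_le (((R ^ θ : ℝ) : ℂ) * η₀) (dz m p)
    exact ⟨by nlinarith, by nlinarith, h1 p hp.le⟩
  obtain ⟨s₁, τ, b1, b2, b3⟩ := h R h2 (r ^ 4) ((R : ℂ) • iR s)
    (fun p => ((R ^ θ : ℝ) : ℂ) * η₀ - dz m p) (R ^ θ * σ) (one_le_pow₀ r1)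
    (continuous_const.sub (differentiable_dz m).continuous) key
  have sub : ball ((R : ℂ) • iR s + iR s₁) (r ^ 2) ⊆ ball ((R : ℂ) • iR s + iR s₁) (ε * r ^ 4) := by
    refine ball_subset_ball ?_
    rw [div_le_iff₀ ε0] at h3
    calc r ^ 2 = 1 * 1 * r ^ 2 := by ring
      _ ≤ (r * ε) * r * r ^ 2 := by gcongr
      _ = _ := by ring
  refine ⟨_, τ, ((imag_iR s).smul R).add (imag_iR s₁), b2.1.mono sub, fun p hp => ?_⟩
  obtain ⟨c1, c2⟩ := b3 p (sub hp)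
  obtain ⟨c3, c4, -⟩ := key p (b1 (sub hp))
  refine ⟨b2.2.1 p (sub hp), ?_, ?_, c2⟩
  · have d1 : ‖τ p‖ ≤ R ^ 2 := by linarith [norm_sub_norm_le (τ p) (((R ^ θ : ℝ) : ℂ) * η₀ - dz m p)]
    refine (norm_add_le _ _).trans ?_
    rw [norm_smul]
    have d2 : 1 + ‖cZ k‖ ≤ R := by nlinarith
    calc ‖p‖ + ‖τ p‖ * ‖cZ k‖ ≤ R ^ 2 + R ^ 2 * ‖cZ k‖ := by gcongr
      _ = R ^ 2 * (1 + ‖cZ k‖) := by ring
      _ ≤ R ^ 2 * R := by gcongr
      _ = _ := by ring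
  · have : dz m (p + τ p • cZ k) =
        ((R ^ θ : ℝ) : ℂ) * η₀ + (τ p - (((R ^ θ : ℝ) : ℂ) * η₀ - dz m p)) := by
      rw [t3b_dz hk]; ring
    rw [this]
    linarith [norm_add_le (((R ^ θ : ℝ) : ℂ) * η₀) (τ p - (((R ^ θ : ℝ) : ℂ) * η₀ - dz m p))]

theorem t3b_proj (m k : Fin n → ℤ) (u : Cn n) :
    ‖proj m k u‖ ≤ (1 + (∑ i, |(m i : ℝ)|) * ‖cZ k‖) * ‖u‖ := by
  refine (norm_sub_le _ _).trans ?_
  rw [norm_smul]
  nlinarith [mul_le_mul_of_nonneg_right (norm_dz_le m u) (norm_nonneg (cZ k))]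

theorem t3b_fix (hbc : T_BC) (hfix : T_FIX) {F : Type} [Field F] [Algebra ℂ F] (D : Data n F)
    {m k : Fin n → ℤ} (hk : dz m k = 1) {x : Cn n} (hx : Imag x) {ρ A : ℝ} (A0 : 0 ≤ A)
    (hρ : 32 * (1 + (∑ i, |(m i : ℝ)|) * ‖cZ k‖) * (A + Real.pi) ≤ ρ) {τ : Cn n → ℂ}
    {w : Cn n → Cn n} {j : ℤ} (hw : DifferentiableOn ℂ w (ball x ρ))
    (h : ∀ p ∈ ball x ρ, D.OnE (p + τ p • cZ k) (w p) ∧
      dz m (w p) = dz m (p + τ p • cZ k) + 2 * Real.pi * Complex.I * j ∧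
      ∀ i, |(w p i).re| ≤ A) : D.Sol := by
  have hK := t3b_proj m k
  have K1 : 1 ≤ 1 + (∑ i, |(m i : ℝ)|) * ‖cZ k‖ := le_add_of_nonneg_right
    (mul_nonneg (Finset.sum_nonneg fun _ _ => abs_nonneg _) (norm_nonneg _))
  generalize 1 + (∑ i, |(m i : ℝ)|) * ‖cZ k‖ = K at hρ hK K1
  have π0 := Real.pi_pos
  have ρ0 : 0 < ρ := lt_of_lt_of_le (by positivity) hρ
  set r : Fin n → ℤ := fun i => round (((x i).im - (w x i).im) / (2 * Real.pi)) with hr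
  set k' : Fin n → ℤ := r - (dz m r + j) • k with hk'
  have e0 : cZ k' = cZ r - ((dz m r + j : ℤ) : ℂ) • cZ k := by
    funext i; simp [hk', cZ]
  have e1 : dz m (cZ k') = -j := by
    rw [e0, dz_sub, dz_smul, dz_cZ, dz_cZ, hk]; push_cast; ring
  have e2 : proj m k (cZ k') = proj m k (cZ r) := by
    rw [e0, proj_sub, proj_smul, proj_cZ hk, smul_zero, sub_zero]
  have sub : closedBall x (ρ / 4) ⊆ ball x (ρ / 2) := closedBall_subset_ball (by linarith)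
  obtain ⟨p, hp, e⟩ := hfix (Cn n)
    (fun p => proj m k (w p + (2 * Real.pi * Complex.I : ℂ) • cZ k') + dz m x • cZ k) x (ρ / 4)
    (by linarith) (fun p hp p' hp' => by
      rw [add_sub_add_right_eq_sub, ← proj_sub, add_sub_add_right_eq_sub]
      refine (hK _).trans ?_
      have a1 : ‖w p - w p'‖ ≤ 8 * (2 * A) / ρ * ‖p - p'‖ :=
        (pi_norm_le_iff_of_nonneg (by positivity)).2 fun i =>
          (hbc (Cn n) (fun p => w p i) x ρ (2 * A) ρ0 (differentiableOn_pi.1 hw i)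
            fun p hp p' hp' => by
              linarith [abs_sub (w p i).re (w p' i).re, (h p hp).2.2 i, (h p' hp').2.2 i]).2
            p (sub hp) p' (sub hp')
      refine (mul_le_mul_of_nonneg_left a1 (by linarith)).trans ?_
      rw [← mul_assoc]
      refine mul_le_mul_of_nonneg_right ?_ (norm_nonneg _)
      rw [← mul_div_assoc, div_le_iff₀ ρ0]
      nlinarith) (by
      have a1 : proj m k (w x + (2 * Real.pi * Complex.I : ℂ) • cZ k') + dz m x • cZ k - x =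
          proj m k (w x + (2 * Real.pi * Complex.I : ℂ) • cZ r - x) := by
        rw [proj_sub, proj_add, proj_add, proj_smul, proj_smul, e2]
        simp only [proj]; abel
      rw [a1]
      refine (hK _).trans ?_
      have a2 : ‖w x + (2 * Real.pi * Complex.I : ℂ) • cZ r - x‖ ≤ A + Real.pi := by
        refine (pi_norm_le_iff_of_nonneg (by positivity)).2 fun i => ?_
        refine (Complex.norm_le_abs_re_add_abs_im _).trans (add_le_add ?_ ?_)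
        · simpa [cZ, hx i] using (h x (mem_ball_self ρ0)).2.2 i
        · have b1 := abs_sub_round (((x i).im - (w x i).im) / (2 * Real.pi))
          have b2 : ((w x + (2 * Real.pi * Complex.I : ℂ) • cZ r - x) i).im = -(2 * Real.pi) *
              (((x i).im - (w x i).im) / (2 * Real.pi) - (r i : ℝ)) := by
            simp [cZ]; field_simp; ring
          rw [b2, abs_mul, abs_neg, abs_of_pos (by positivity)]
          nlinarith
      nlinarith)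
  obtain ⟨c1, c2, -⟩ := h p (ball_subset_ball (by linarith) (sub hp))
  refine D.sol_of_shift c1 k' ?_
  have d1 : proj m k p = proj m k (w p + (2 * Real.pi * Complex.I : ℂ) • cZ k') := by
    conv_lhs => rw [← e]
    rw [proj_add, proj_smul, proj_cZ hk, smul_zero, add_zero, proj_of_dz (dz_proj hk _)]
  have d2 : dz m (w p + (2 * Real.pi * Complex.I : ℂ) • cZ k') = dz m p + τ p := by
    rw [dz_add, dz_smul, c2, e1, t3b_dz hk]; ring
  rw [t3b_shift m k, d1, ← d2, proj_add_smul]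

theorem t_3b (hhur : T_HUR) (hloct : T_LOCT) (hwron : T_WRON) (htame : T_TAME) (hfib : T_FIB)
    (hgrow1 : T_GROW1) (hbc : T_BC) (hfix : T_FIX) : T_3B := by
  intro n F _ _ D m k θ s q η₀ d₀ hc hf hk hm hN hθ
  obtain ⟨σ, σ0, σ1, hR⟩ := t3b_rou hhur hN hθ
  have nd : ¬ D.P ∣ ddir (cZ k) D.P := by
    obtain ⟨R, h1, h2⟩ := (hR.and (eventually_ge_atTop 0)).exists
    exact not_dvd_ddir (h1 ((R : ℂ) • iR s) (by simpa using Real.rpow_nonneg h2 _)).ddir_ne_zero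
  obtain ⟨h, Nf, Nf1, ha, hF⟩ := hfib n F D hc m hm
  obtain ⟨S, Nw, hS, Nw1, hW⟩ := hwron n F D m k h 1 hf hk nd ha one_pos
  obtain ⟨N, N1, hsh⟩ := t3b_sheet hloct D.prime hk hθ σ0 σ1 hR hS
  obtain ⟨N₁, hG⟩ := hgrow1 n h
  have N₁0 : (0 : ℝ) ≤ N₁ := Nat.cast_nonneg _
  have Nw0 : 0 ≤ Nw * (N + 3) := by positivity
  obtain ⟨ε, R₀, ε0, ε1, hT⟩ := htame n (3 * N₁ + Nw * (N + 3)) (1 / 16) (by positivity)
    (by norm_num)
  set N' := 3 * N₁ + Nw * (N + 3) with hN'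
  set K := 1 + (∑ i, |(m i : ℝ)|) * ‖cZ k‖ with hK
  have T := tendsto_pow_atTop (α := ℝ) (by norm_num : 16 ≠ 0)
  obtain ⟨r, ⟨x, τ, hx, hτ, hp⟩, h1, r2, h2, h3, h4⟩ := (hsh.and ((T.eventually_ge_atTop R₀).and
    ((eventually_ge_atTop 2).and ((eventually_ge_atTop (1 / ε)).and
      (((Real.tendsto_log_atTop.comp T).eventually_ge_atTop (‖η₀‖ + 1)).and
        (t3b_log (32 * K * (Nf * (N' + 3) * 16)) (32 * K * Real.pi) ε0)))))).exists
  have r0 : 0 < r := by linarith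
  have e1 := t3b_pow r0 1 (a := 1 / 16) (by norm_num)
  have i1 : r ≤ r ^ 16 := le_self_pow₀ (by linarith) (by norm_num)
  have el : Real.log (r ^ 16) = 16 * Real.log r := by rw [Real.log_pow]; norm_num
  change ‖η₀‖ + 1 ≤ Real.log (r ^ 16) at h3
  generalize r ^ 16 = R at *
  have R0 : 0 < R := by linarith
  have eR : ∀ y : ℝ, R ^ y = Real.exp (Real.log R * y) := Real.rpow_def_of_pos R0
  have e3 : R ^ 3 = Real.exp (Real.log R * 3) := by rw [← eR]; norm_cast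
  have l1 : 1 ≤ Real.log R := by linarith [norm_nonneg η₀]
  have dζ : DifferentiableOn ℂ (fun p => p + τ p • cZ k) (ball x (r ^ 2)) :=
    differentiableOn_id.add (hτ.smul_const _)
  have dφ : DifferentiableOn ℂ (fun p => dz m (p + τ p • cZ k)) (ball x (r ^ 2)) :=
    (differentiable_dz m).comp_differentiableOn dζ
  have s1 : ball x 1 ⊆ ball x (r ^ 2) := ball_subset_ball (by nlinarith)
  obtain ⟨p₀, hp₀, lo⟩ := hW x τ ((N + 3) * Real.log R) (by nlinarith) (hτ.mono s1) fun p h5 => by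
    obtain ⟨a1, a2, a3, a4⟩ := hp p (s1 h5)
    exact ⟨a1, a2.trans (e3 ▸ Real.exp_le_exp.2 (by nlinarith)), by nlinarith,
      a4.mono (by nlinarith)⟩
  have er : r * R ^ (1 / 16 : ℝ) = r ^ 2 := by rw [e1]; ring
  have R3 : R ≤ R ^ 3 := le_self_pow₀ (by linarith) (by norm_num)
  obtain ⟨s₂, b1, b2⟩ := hT R h1 r x
    (fun p => ev1 (p + τ p • cZ k) (Complex.exp (dz m (p + τ p • cZ k))) h) r0
    (er ▸ differentiableOn_ev1 dζ dφ.cexp h) (fun p h5 => by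
      obtain ⟨-, a2, a3, -⟩ := hp p (er ▸ h5)
      refine (hG (R ^ 3) _ _ (by linarith) a2 ?_).trans ?_
      · refine (Complex.norm_exp_le_exp_norm _).trans (e3 ▸ Real.exp_le_exp.2 (by linarith))
      · rw [e3, ← Real.exp_nat_mul, eR]
        exact Real.exp_le_exp.2 (by rw [hN']; nlinarith))
    ⟨p₀, ball_subset_ball (by linarith) hp₀, le_trans (by
      rw [eR]; exact Real.exp_le_exp.2 (by rw [hN']; nlinarith)) lo⟩
  rw [er] at b1
  have s2 : ball (x + iR s₂) (ε * r) ⊆ ball x (r ^ 2) := by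
    refine ball_subset_ball' ?_
    rw [dist_eq_norm, add_sub_cancel_left, norm_iR]
    nlinarith
  have N'0 : 0 ≤ N' := by positivity
  obtain ⟨w, j, c1, c2⟩ := hF (ball (x + iR s₂) (ε * r)) _ _ ((N' + 3) * Real.log R)
    (convex_ball _ _) isOpen_ball (dζ.mono s2) (dφ.mono s2) (by nlinarith) fun p h5 => by
      obtain ⟨a1, a2, a3, -⟩ := hp p (s2 h5)
      refine ⟨a1, a2.trans (e3 ▸ Real.exp_le_exp.2 (by nlinarith)), by nlinarith,
        le_trans ?_ (b2 p h5)⟩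
      have a4 : Real.exp (-Real.log R) ≤ ε := by
        rw [Real.exp_neg, Real.exp_log R0, inv_le_comm₀ R0 ε0, ← one_div]
        linarith
      rw [eR]
      refine le_trans ?_ (mul_le_mul_of_nonneg_right a4 (Real.exp_pos _).le)
      rw [← Real.exp_add]
      exact Real.exp_le_exp.2 (by nlinarith)
  refine t3b_fix hbc hfix D hk (hx.add (imag_iR s₂)) (A := Nf * ((N' + 3) * Real.log R))
    (by positivity) ?_ c1 c2
  rw [← hK, el]
  linarith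

end Pool.Agent.P.MP_d2ed07_lc
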