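import Pool.Agent.P.MP_d2ed07_lc.Basic

/-!
Lower bounds for holomorphic functions near imaginary translates.
-/

namespace Pool.Agent.P.MP_d2ed07_lc

open MvPolynomial Metric Filter Topology

theorem t_realpt (hcl : T_CL) (hlim : T_LIM) : T_REALPT := by
  intro A
  by_contra hcon
  push Not at hcon
  choose φ h1 h2 h3 h4 using fun j : ℕ => hcon (1 / ((j : ℝ) + 1)) Nat.one_div_pos_of_nat
  have z0 : (0 : ℂ) ∈ ball (0 : ℂ) 15 := mem_ball_self (by norm_num)
  have A0 : 0 ≤ A := (norm_nonneg _).trans (h2 0 0 z0)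
  obtain ⟨g, g1, g2, -⟩ := hlim ℂ (hyperfilter ℕ) (ball 0 (15 / 2)) φ A 0 isOpen_ball
    (mem_ball_self (by norm_num))
    (fun j => (h1 j).mono (ball_subset_ball (by norm_num))) (fun j => h2 j 0 z0)
    fun j a ha b hb => ((hcl ℂ ℂ (φ j) 0 15 A (by norm_num) (h1 j) (h2 j)).2 a ha b hb).trans
      (mul_le_mul_of_nonneg_right (by linarith) (norm_nonneg _))
  have g3 : ∀ t : ℝ, |t| ≤ 3 → g t = 0 := fun t ht => by
    have a1 := g2 t (by rw [mem_ball_zero_iff, Complex.norm_real, Real.norm_eq_abs]; linarith)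
    have a2 : Tendsto (fun j => φ j t) atTop (𝓝 0) :=
      squeeze_zero_norm (fun j => (h4 j t ht).le) tendsto_one_div_add_atTop_nhds_zero_nat
    exact tendsto_nhds_unique a1 (a2.mono_left Nat.hyperfilter_le_atTop)
  have g4 : ∃ᶠ z in 𝓝[≠] (0 : ℂ), g z = 0 := by
    have a1 : Tendsto (fun j : ℕ => ((1 / ((j : ℝ) + 1) : ℝ) : ℂ)) atTop (𝓝[≠] 0) := by
      refine tendsto_nhdsWithin_iff.2 ⟨?_, Eventually.of_forall fun j => ?_⟩
      · exact (Complex.continuous_ofReal.tendsto' 0 0 rfl).comp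
          (tendsto_one_div_add_atTop_nhds_zero_nat (𝕜 := ℝ))
      · exact Complex.ofReal_ne_zero.2 Nat.one_div_pos_of_nat.ne'
    refine a1.frequently (Frequently.of_forall fun j => g3 _ ?_)
    rw [abs_of_pos Nat.one_div_pos_of_nat]
    exact Nat.one_div_le_one_div (Nat.zero_le j) |>.trans (by norm_num)
  have mI : -Complex.I ∈ ball (0 : ℂ) (15 / 2) := by
    rw [mem_ball_zero_iff, norm_neg, Complex.norm_I]; norm_num
  have g5 := (g1.analyticOnNhd isOpen_ball).eqOn_zero_of_preconnected_of_frequently_eq_zero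
    (convex_ball _ _).isPreconnected (mem_ball_self (by norm_num)) g4 mI
  have g6 : 1 / 2 ≤ ‖g (-Complex.I)‖ := ge_of_tendsto' (g2 _ mI).norm h3
  rw [g5] at g6
  norm_num at g6

theorem tame_step (hcl : T_CL) {n : ℕ} {A c : ℝ} (A0 : 0 < A) (hc : ∀ φ : ℂ → ℂ,
    DifferentiableOn ℂ φ (ball 0 15) → (∀ t ∈ ball (0 : ℂ) 15, ‖φ t‖ ≤ A) →
      1 / 2 ≤ ‖φ (-Complex.I)‖ → ∃ t : ℝ, |t| ≤ 3 ∧ c ≤ ‖φ t‖)
    {f : Cn n → ℂ} {x p : Cn n} {r m : ℝ} (m0 : 0 < m)
    (hf : DifferentiableOn ℂ f (ball x (16 * r))) (hb : ∀ q ∈ ball x (16 * r), ‖f q‖ ≤ A * m)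
    (hp : p ∈ ball x r) (hp' : m / 2 ≤ ‖f p‖) : ∃ s : Fin n → ℝ, ‖s‖ ≤ 4 * r ∧
      ∀ q, ‖q - (x + iR s)‖ ≤ min 1 (c / A) * r → c / 2 * m ≤ ‖f q‖ := by
  have r0 : 0 < r := pos_of_mem_ball hp
  rw [mem_ball_iff_norm] at hp
  set a : Fin n → ℝ := fun i => ((p - x) i).re with ha
  set b : Fin n → ℝ := fun i => ((p - x) i).im with hb'
  have a1 : ‖a‖ ≤ ‖p - x‖ := (pi_norm_le_iff_of_nonneg (norm_nonneg _)).2 fun i =>
    (Complex.abs_re_le_norm _).trans (norm_le_pi_norm (p - x) i)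
  have b1 : ‖b‖ ≤ ‖p - x‖ := (pi_norm_le_iff_of_nonneg (norm_nonneg _)).2 fun i =>
    (Complex.abs_im_le_norm _).trans (norm_le_pi_norm (p - x) i)
  have maps : ∀ t ∈ ball (0 : ℂ) 15, x + (iR b + t • iR a) ∈ ball x (16 * r) := fun t ht => by
    rw [mem_ball_zero_iff] at ht
    rw [mem_ball_iff_norm, add_sub_cancel_left]
    refine (norm_add_le _ _).trans_lt ?_
    rw [norm_smul, norm_iR, norm_iR]
    nlinarith [norm_nonneg a, norm_nonneg t]
  have e1 : x + (iR b + (-Complex.I) • iR a) = p := by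
    funext i
    apply Complex.ext <;> simp [iR, ha, hb']
  obtain ⟨t, t1, t2⟩ := hc (fun t => f (x + (iR b + t • iR a)) / m)
    ((hf.comp (by fun_prop) maps).div_const _)
    (fun t ht => by
      rw [norm_div, Complex.norm_real, Real.norm_eq_abs, abs_of_pos m0, div_le_iff₀ m0]
      exact hb _ (maps t ht))
    (by
      rw [e1, norm_div, Complex.norm_real, Real.norm_eq_abs, abs_of_pos m0, le_div_iff₀ m0]
      linarith)
  rw [norm_div, Complex.norm_real, Real.norm_eq_abs, abs_of_pos m0, le_div_iff₀ m0,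
    ← iR_smul, ← iR_add] at t2
  have s1 : ‖b + t • a‖ ≤ 4 * r := by
    refine (norm_add_le _ _).trans ?_
    rw [norm_smul, Real.norm_eq_abs]
    nlinarith [norm_nonneg a, abs_nonneg t]
  refine ⟨b + t • a, s1, fun q hq => ?_⟩
  have sub : ball (x + iR (b + t • a)) (8 * r) ⊆ ball x (16 * r) :=
    ball_subset_ball' (by rw [dist_eq_norm, add_sub_cancel_left, norm_iR]; linarith)
  have q1 : min 1 (c / A) * r ≤ 1 * r := mul_le_mul_of_nonneg_right (min_le_left _ _) r0.le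
  have q2 : min 1 (c / A) * r ≤ c / A * r := mul_le_mul_of_nonneg_right (min_le_right _ _) r0.le
  have l1 := (hcl _ _ f _ (8 * r) (A * m) (by positivity) (hf.mono sub)
    fun q hq => hb q (sub hq)).2 q (by rw [mem_ball_iff_norm]; linarith) _
    (mem_ball_self (by positivity))
  have l2 : 4 * (A * m) / (8 * r) * ‖q - (x + iR (b + t • a))‖ ≤
      4 * (A * m) / (8 * r) * (c / A * r) :=
    mul_le_mul_of_nonneg_left (hq.trans q2) (by positivity)
  have l3 : 4 * (A * m) / (8 * r) * (c / A * r) = c / 2 * m := by field_simp; ring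
  have l4 := abs_le.1 (abs_norm_sub_norm_le (f q) (f (x + iR (b + t • a))))
  linarith [l4.1]

theorem t_tame (hcl : T_CL) (hrealpt : T_REALPT) : T_TAME := by
  intro n N α N0 α0
  have B0 : 0 < (16 : ℝ) ^ (4 * N / α) := by positivity
  obtain ⟨c, c0, hc⟩ := hrealpt (2 * (16 : ℝ) ^ (4 * N / α))
  set A := 2 * (16 : ℝ) ^ (4 * N / α) with hA
  have A0 : 0 < A := by positivity
  have e0 : 0 < min 1 (c / A) := lt_min one_pos (by positivity)
  refine ⟨min (min 1 (c / A)) (c / 2), (16 : ℝ) ^ α⁻¹, lt_min e0 (by positivity),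
    (min_le_left _ _).trans (min_le_left _ _), fun R hR ρ x f ρ0 hf hb ⟨p₀, hp₀, hp₀'⟩ => ?_⟩
  have R0 : 0 < R := lt_of_lt_of_le (by positivity) hR
  have L1 : 16 ≤ R ^ α := by
    have := Real.rpow_le_rpow (by positivity) hR α0.le
    rwa [Real.rpow_inv_rpow (by norm_num) α0.ne'] at this
  obtain ⟨K, K1, K2⟩ := exists_nat_pow_near (show 1 ≤ R ^ α by linarith)
    (show (1 : ℝ) < 16 by norm_num)
  have K0 : 1 ≤ K := by
    by_contra h0
    have : K = 0 := by omega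
    rw [this] at K2
    norm_num at K2
    linarith
  set M : ℕ → ℝ := fun k => sSup ((fun q => ‖f q‖) '' ball x (16 ^ k * ρ)) with hM
  have sub : ∀ k ≤ K, ball x (16 ^ k * ρ) ⊆ ball x (ρ * R ^ α) := fun k hk =>
    ball_subset_ball (by
      rw [mul_comm]
      exact mul_le_mul_of_nonneg_left ((pow_le_pow_right₀ (by norm_num) hk).trans K1) ρ0.le)
  have ne : ∀ k : ℕ, ((fun q => ‖f q‖) '' ball x (16 ^ k * ρ)).Nonempty :=
    fun k => ⟨_, x, mem_ball_self (by positivity), rfl⟩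
  have ub : ∀ k ≤ K, ∀ y ∈ (fun q => ‖f q‖) '' ball x (16 ^ k * ρ), y ≤ R ^ N := by
    rintro k hk _ ⟨q, hq, rfl⟩
    exact hb q (sub k hk hq)
  have M1 : ∀ k ≤ K, ∀ q ∈ ball x (16 ^ k * ρ), ‖f q‖ ≤ M k := fun k hk q hq =>
    le_csSup ⟨_, ub k hk⟩ ⟨q, hq, rfl⟩
  have M2 : M K ≤ R ^ N := csSup_le (ne K) (ub K le_rfl)
  have M3 : ∀ k ≤ K, R ^ (-N) ≤ M k := fun k hk => hp₀'.trans (M1 k hk p₀
    (ball_subset_ball (le_mul_of_one_le_left ρ0.le (one_le_pow₀ (by norm_num))) hp₀))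
  have RN : 0 < R ^ (-N) := Real.rpow_pos_of_pos R0 _
  have ex : ∃ k < K, M (k + 1) ≤ A * M k := by
    by_contra h0
    push Not at h0
    have a1 : ∀ k ≤ K, A ^ k * R ^ (-N) ≤ M k := by
      intro k
      induction k with
      | zero => intro hk; simpa using M3 0 hk
      | succ k ih =>
        intro hk
        refine le_trans ?_ (h0 k hk).le
        rw [pow_succ', mul_assoc]
        exact mul_le_mul_of_nonneg_left (ih (Nat.le_of_succ_le hk)) A0.le
    have a2 : R ^ α ≤ (16 : ℝ) ^ (2 * K) :=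
      K2.le.trans (pow_le_pow_right₀ (by norm_num) (by omega))
    have a3 := Real.rpow_le_rpow (by positivity) a2 (show 0 ≤ 2 * N / α by positivity)
    rw [← Real.rpow_mul R0.le, ← Real.rpow_natCast_mul (by norm_num)] at a3
    have a4 : ((16 : ℝ) ^ (4 * N / α)) ^ K = (16 : ℝ) ^ (((2 * K : ℕ) : ℝ) * (2 * N / α)) := by
      rw [← Real.rpow_mul_natCast (by norm_num)]
      congr 1; push_cast; ring
    have a5 : R ^ (α * (2 * N / α)) * R ^ (-N) = R ^ N := by
      rw [← Real.rpow_add R0]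
      congr 1; field_simp; ring
    have a6 := (a1 K le_rfl).trans M2
    rw [hA, mul_pow, a4] at a6
    have a7 : (2 : ℝ) ≤ 2 ^ K := le_self_pow₀ (by norm_num) (by omega)
    have a8 := mul_le_mul_of_nonneg_right a3 RN.le
    have a9 : 0 < R ^ N := Real.rpow_pos_of_pos R0 _
    rw [a5] at a8
    rw [mul_assoc] at a6
    nlinarith
  obtain ⟨k, hk, hk'⟩ := ex
  have m0 : 0 < M k := RN.trans_le (M3 k hk.le)
  obtain ⟨_, ⟨p, hp, rfl⟩, hp'⟩ := exists_lt_of_lt_csSup (ne k) (show M k / 2 < M k by linarith)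
  have e1 : 16 * (16 ^ k * ρ) = 16 ^ (k + 1) * ρ := by ring
  obtain ⟨s, s1, s2⟩ := tame_step hcl A0 hc m0 (x := x) (r := 16 ^ k * ρ)
    (by rw [e1]; exact hf.mono (sub _ hk))
    (by rw [e1]; exact fun q hq => (M1 _ hk q hq).trans hk') hp hp'.le
  have e2 : 16 ^ (k + 1) * ρ ≤ R ^ α * ρ := mul_le_mul_of_nonneg_right
    ((pow_le_pow_right₀ (by norm_num) hk).trans K1) ρ0.le
  refine ⟨s, by linarith, fun q hq => le_trans ?_ (s2 q ?_)⟩
  · exact mul_le_mul (min_le_right _ _) (M3 k hk.le) RN.le (by positivity)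
  · refine (mem_ball_iff_norm.1 hq).le.trans (mul_le_mul (min_le_left _ _) ?_ ρ0.le e0.le)
    exact le_mul_of_one_le_left ρ0.le (one_le_pow₀ (by norm_num))

end Pool.Agent.P.MP_d2ed07_lc
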