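import Pool.Agent.P.MP_d2ed07_lc.Basic

/-!
Transcendence degree of a generic point over a field of definition.
-/

namespace Pool.Agent.P.MP_d2ed07_lc

open MvPolynomial Metric Filter Topology

theorem td_basis {K E : Type} [Field K] [Field E] [Algebra K E] {σ : Type} (a : σ → E)
    (h : IntermediateField.adjoin K (Set.range a) = ⊤) :
    ∃ (ι : Type) (f : ι → σ), Function.Injective f ∧ AlgebraicIndependent K (a ∘ f) ∧
      Cardinal.mk ι = Algebra.trdeg K E := by
  have h1 : Algebra.IsAlgebraic (IntermediateField.adjoin K (Set.range a)) E :=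
    ⟨fun x => isAlgebraic_algebraMap (R := IntermediateField.adjoin K (Set.range a)) (A := E)
      ⟨x, by rw [h]; trivial⟩⟩
  have h2 : Algebra.IsAlgebraic (Algebra.adjoin K (Set.range a)) E :=
    IntermediateField.isAlgebraic_adjoin_iff_top.1 h1
  obtain ⟨t, ht, hb⟩ := exists_isTranscendenceBasis_subset (R := K) (Set.range a)
  choose f hf using fun x : t => ht x.2
  refine ⟨t, f, fun x y e => Subtype.ext (by rw [← hf x, ← hf y, e]), ?_, hb.cardinalMk_eq_trdeg⟩
  convert hb.1 using 1
  exact funext hf

/-- a `K`-linear functional acting on coefficients -/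
noncomputable def td_act {K : Subfield ℂ} (la : ℂ →ₗ[K] K) {σ : Type} (g : MvPolynomial σ ℂ) :
    MvPolynomial σ K :=
  ∑ mo ∈ g.support, monomial mo (la (g.coeff mo))

theorem td_coeff {K : Subfield ℂ} (la : ℂ →ₗ[K] K) {σ : Type} (g : MvPolynomial σ ℂ)
    (mo : σ →₀ ℕ) : (td_act la g).coeff mo = la (g.coeff mo) := by
  classical
  simp only [td_act, coeff_sum, coeff_monomial, Finset.sum_ite_eq', mem_support_iff]
  split_ifs with h
  · rfl
  · rw [not_not.1 h, map_zero]

theorem td_add {K : Subfield ℂ} (la : ℂ →ₗ[K] K) {σ : Type} (g g' : MvPolynomial σ ℂ) :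
    td_act la (g + g') = td_act la g + td_act la g' := by
  ext mo; simp only [td_coeff, coeff_add, map_add]

theorem td_mul {K : Subfield ℂ} (la : ℂ →ₗ[K] K) {σ : Type} (c : MvPolynomial σ ℂ)
    (f : MvPolynomial σ K) :
    td_act la (c * map (algebraMap K ℂ) f) = td_act la c * f := by
  classical
  refine MvPolynomial.ext _ _ fun mo => ?_
  simp only [td_coeff, coeff_mul, map_sum, coeff_map]
  refine Finset.sum_congr rfl fun x _ => ?_
  rw [mul_comm, ← Algebra.smul_def, map_smul, smul_eq_mul, mul_comm]

theorem td_rename {K : Subfield ℂ} (la : ℂ →ₗ[K] K) {σ ι : Type} {f : ι → σ}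
    (hf : Function.Injective f) (h : MvPolynomial ι ℂ) :
    td_act la (rename f h) = rename f (td_act la h) := by
  classical
  refine MvPolynomial.ext _ _ fun mo => ?_
  rw [td_coeff]
  by_cases hm : ∃ d, Finsupp.mapDomain f d = mo
  · obtain ⟨d, rfl⟩ := hm
    rw [coeff_rename_mapDomain f hf, coeff_rename_mapDomain f hf, td_coeff]
  · rw [coeff_rename_eq_zero f _ _ (fun u hu => absurd ⟨u, hu⟩ hm),
      coeff_rename_eq_zero f _ _ (fun u hu => absurd ⟨u, hu⟩ hm), map_zero]

theorem td_lift {K : Subfield ℂ} {σ : Type} {g : MvPolynomial σ ℂ} (hg : ∀ mo, g.coeff mo ∈ K) :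
    ∃ f : MvPolynomial σ K, map (algebraMap K ℂ) f = g := by
  classical
  refine ⟨∑ mo ∈ g.support, monomial mo ⟨g.coeff mo, hg mo⟩, ?_⟩
  simp only [map_sum, map_monomial]
  exact (g.as_sum).symm

theorem td_eval {K : Subfield ℂ} {σ : Type} (p : σ → ℂ) (g : MvPolynomial σ K) :
    eval p (map (algebraMap K ℂ) g) = aeval p g := by
  rw [eval_map, aeval_def]

theorem td_iff {F : Type} [Field F] [Algebra ℂ F] {σ : Type} {a : σ → F} {K : Subfield ℂ}
    {p : σ → ℂ}
    (h1 : ∀ g : MvPolynomial σ ℂ, aeval a g = 0 →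
      g ∈ Ideal.span {f : MvPolynomial σ ℂ | aeval a f = 0 ∧ ∀ mo, f.coeff mo ∈ K})
    (h2 : ∀ g : MvPolynomial σ ℂ, (∀ mo, g.coeff mo ∈ K) → (eval p g = 0 ↔ aeval a g = 0))
    {ι : Type} {f : ι → σ} (hf : Function.Injective f) :
    AlgebraicIndependent ℂ (a ∘ f) ↔ AlgebraicIndependent K (p ∘ f) := by
  have h3 : ∀ g : MvPolynomial σ K, aeval p g = 0 ↔ aeval a (map (algebraMap K ℂ) g) = 0 :=
    fun g => by
      rw [← h2 _ (fun mo => by rw [coeff_map]; exact (g.coeff mo).2), td_eval]
  simp only [algebraicIndependent_iff]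
  constructor
  · intro H g hg
    refine map_injective (algebraMap K ℂ) (algebraMap K ℂ).injective ?_
    rw [map_zero]
    refine H _ ?_
    rw [← aeval_rename, ← map_rename, ← h3, aeval_rename, hg]
  · intro H g hg
    have key : ∀ la : ℂ →ₗ[K] K, td_act la g = 0 := by
      intro la
      refine H _ ?_
      rw [← aeval_rename, ← td_rename la hf]
      have h4 := h1 (rename f g) (by rw [aeval_rename, hg])
      have h5 : ∀ c, aeval p (td_act la (c * rename f g)) = 0 := by
        generalize rename f g = u at h4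
        induction h4 using Submodule.span_induction with
        | mem x hx =>
          intro c
          obtain ⟨y, rfl⟩ := td_lift hx.2
          rw [td_mul, map_mul, (h3 y).2 hx.1, mul_zero]
        | zero => intro c; simp [td_act]
        | add x y _ _ hx hy => intro c; rw [mul_add, td_add, map_add, hx, hy, add_zero]
        | smul r x _ hx => intro c; rw [smul_eq_mul, ← mul_assoc, hx]
      simpa using h5 1
    refine MvPolynomial.ext _ _ fun mo => ?_
    rw [coeff_zero, ← Module.forall_dual_apply_eq_zero_iff K]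
    intro la
    rw [← td_coeff, key, coeff_zero]

theorem t_td : T_TD := by
  intro F _ _ σ _ a K p hgen h1 h2
  let p' : σ → IntermediateField.adjoin K (Set.range p) := fun i =>
    ⟨p i, IntermediateField.subset_adjoin _ _ ⟨i, rfl⟩⟩
  have hp : IntermediateField.adjoin K (Set.range p') = ⊤ := by
    apply IntermediateField.lift_injective
    rw [IntermediateField.lift_adjoin, IntermediateField.lift_top, ← Set.range_comp]
    rfl
  apply le_antisymm
  · obtain ⟨ι, f, hf, hi, e⟩ := td_basis p' hp
    rw [← e]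
    exact ((td_iff h1 h2 hf).2
      (hi.map' (f := (IntermediateField.adjoin K (Set.range p)).val) Subtype.val_injective
        )).cardinalMk_le_trdeg
  · obtain ⟨ι, f, hf, hi, e⟩ := td_basis a hgen
    rw [← e]
    exact (AlgebraicIndependent.of_comp (x := p' ∘ f)
      (IntermediateField.adjoin K (Set.range p)).val
      ((td_iff h1 h2 hf).1 hi)).cardinalMk_le_trdeg

end Pool.Agent.P.MP_d2ed07_lc
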