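import Pool.Agent.P.MP_d2ed07_lc.Basic

/-!
Elementary tropical estimates.
-/

namespace Pool.Agent.P.MP_d2ed07_lc

open MvPolynomial Metric Filter Topology

theorem t_two : T_TWO := by
  classical
  rintro ι s a h0 ⟨k, hk, hk'⟩
  obtain ⟨i, hi, h1⟩ := s.exists_max_image (fun i => ‖a i‖) ⟨k, hk⟩
  have hi0 : 0 < ‖a i‖ := (norm_pos_iff.2 hk').trans_le (h1 k hk)
  have h2 : a i = -∑ j ∈ s.erase i, a j := by
    rw [eq_neg_iff_add_eq_zero, Finset.add_sum_erase s a hi, h0]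
  have h3 : (s.erase i).Nonempty := by
    rw [Finset.nonempty_iff_ne_empty]
    intro h
    rw [h2, h] at hi0
    simp at hi0
  obtain ⟨j, hj, h4⟩ := (s.erase i).exists_max_image (fun i => ‖a i‖) h3
  have h5 : ‖a i‖ ≤ s.card * ‖a j‖ := by
    rw [h2, norm_neg]
    refine (norm_sum_le _ _).trans ((Finset.sum_le_card_nsmul _ _ _ h4).trans ?_)
    rw [nsmul_eq_mul]
    exact mul_le_mul_of_nonneg_right (by exact_mod_cast Finset.card_erase_le) (norm_nonneg _)
  have hj0 : 0 < ‖a j‖ := pos_of_mul_pos_left' (hi0.trans_le h5)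
  have hc : (0 : ℝ) < s.card := by exact_mod_cast Finset.card_pos.2 ⟨i, hi⟩
  have hjs := Finset.mem_of_mem_erase hj
  refine ⟨i, hi, j, hjs, (Finset.ne_of_mem_erase hj).symm, norm_pos_iff.1 hi0,
    norm_pos_iff.1 hj0, ?_⟩
  have h6 := Real.log_le_log hj0 (h1 j hjs)
  have h7 := Real.log_le_log hi0 h5
  rw [Real.log_mul hc.ne' hj0.ne'] at h7
  rw [abs_of_nonneg (by linarith)]
  linarith
where
  pos_of_mul_pos_left' {c : ℕ} {x : ℂ} (h : 0 < (c : ℝ) * ‖x‖) : 0 < ‖x‖ :=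
    (norm_nonneg x).lt_of_ne fun h' => by rw [← h', mul_zero] at h; exact lt_irrefl _ h

theorem trop_mem {n N : ℕ} {d : Fin n → ℚ}
    (h : ∀ i, ∃ a b : ℤ, |a| ≤ N + 1 ∧ 1 ≤ b ∧ b ≤ N + 1 ∧ (a : ℚ) / b = d i) : d ∈ dirs n N := by
  refine Fintype.mem_piFinset.2 fun i => ?_
  obtain ⟨a, b, h1, h2, h3, h4⟩ := h i
  exact Finset.mem_image.2 ⟨(a, b), Finset.mem_product.2
    ⟨Finset.mem_Icc.2 (abs_le.1 h1), Finset.mem_Icc.2 ⟨h2, h3⟩⟩, h4⟩

theorem t_trop : T_TROP := by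
  intro n N x L hL h
  by_cases h0 : ∀ i, |x i| ≤ L
  · exact ⟨0, trop_mem fun i => ⟨0, 1, by positivity, le_rfl, by omega, by simp⟩, 0, le_rfl,
      fun i => by simpa using h0 i⟩
  push Not at h0
  obtain ⟨i, hi⟩ := h0
  obtain ⟨σ, hσ, hx⟩ : ∃ σ : ℤ, |σ| = 1 ∧ x i = |x i| * σ := by
    rcases abs_choice (x i) with h1 | h1
    · exact ⟨1, rfl, by rw [h1]; simp⟩
    · exact ⟨-1, rfl, by rw [h1]; simp⟩
  have key : ∀ j, ∃ q : ℚ, (∃ a b : ℤ, |a| ≤ N + 1 ∧ 1 ≤ b ∧ b ≤ N + 1 ∧ (a : ℚ) / b = q) ∧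
      |x j - |x i| * (q : ℝ)| ≤ L := by
    intro j
    by_cases hj : i = j
    · subst hj
      refine ⟨_, ⟨σ, 1, by omega, le_rfl, by omega, rfl⟩, ?_⟩
      push_cast
      rw [div_one, ← hx, sub_self, abs_zero]
      exact hL
    obtain ⟨a, b, h1, h2, h3, h4⟩ := h i j hj
    have hb : b ≠ 0 := by
      rintro rfl
      have h5 : (1 : ℝ) ≤ |(a : ℝ)| := by exact_mod_cast Int.one_le_abs (h1.resolve_right (· rfl))
      rw [Int.cast_zero, zero_mul, add_zero, abs_mul] at h4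
      nlinarith
    have hb1 := Int.one_le_abs hb
    refine ⟨_, ⟨-(a * σ * b.sign), |b|, ?_, hb1, by omega, rfl⟩, ?_⟩
    · rw [abs_neg, abs_mul, abs_mul, hσ, Int.abs_sign_of_ne_zero hb]; omega
    · have h5 : (1 : ℝ) ≤ |(b : ℝ)| := by exact_mod_cast hb1
      have h6 : ((b.sign : ℤ) : ℝ) * b = |(b : ℝ)| := by exact_mod_cast Int.sign_mul_self_eq_abs b
      have h7 : |((b.sign : ℤ) : ℝ)| = 1 := by exact_mod_cast Int.abs_sign_of_ne_zero hb
      have h8 : x j - |x i| * (((-(a * σ * b.sign) : ℤ) / (|b| : ℤ) : ℚ) : ℝ) =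
          (b.sign : ℤ) * (a * x i + b * x j) / |(b : ℝ)| := by
        push_cast
        field_simp
        rw [← h6]
        linear_combination (-(a : ℝ) * (b.sign : ℤ)) * hx
      rw [h8, abs_div, abs_mul, h7, one_mul, abs_abs]
      exact (div_le_self (abs_nonneg _) h5).trans h4
  choose d h1 h2 using key
  exact ⟨d, trop_mem h1, |x i|, abs_nonneg _, h2⟩

theorem t_vtrop (htwo : T_TWO) (htrop : T_TROP) : T_VTROP := by
  classical
  rintro n F _ _ D N c ⟨h1, h2, h3⟩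
  let S : Finset (MP n) := ((Finset.univ ×ˢ Finset.univ ×ˢ sq N).image
    fun p : Fin n × Fin n × ℕ × ℕ => c p.1 p.2.1 p.2.2).filter (· ≠ 0)
  have hS : ∀ i j, ∀ ab ∈ sq N, c i j ab ≠ 0 → c i j ab ∈ S := fun i j ab hab h =>
    Finset.mem_filter.2 ⟨Finset.mem_image.2 ⟨(i, j, ab), by simpa using hab, rfl⟩, h⟩
  have hl : 0 ≤ Real.log (sq N).card := Real.log_natCast_nonneg _
  refine ⟨S, 2 + Real.log (sq N).card, fun g hg => ?_, by linarith, fun i j => ?_,
    fun x w L hL hE hT => htrop n N _ _ (by positivity) fun i j _ => ?_⟩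
  · obtain ⟨h4, h5⟩ := Finset.mem_filter.1 hg
    obtain ⟨p, -, rfl⟩ := Finset.mem_image.1 h4
    exact (h1 _ _ _).resolve_left h5
  · obtain ⟨ab, h4, h5⟩ := h2 i j
    exact ⟨ab, h4, hS i j ab h4 h5⟩
  · obtain ⟨ab, h4, h5⟩ := h2 i j
    obtain ⟨p, hp, q, hq, hpq, p0, q0, h6⟩ := htwo _ _ _ (h3 x w hE i j)
      ⟨ab, h4, mul_ne_zero (hT.ne_zero (hS i j ab h4 h5)) (Complex.exp_ne_zero _)⟩
    have key : ∀ p ∈ sq N,
        eval x (c i j p) * Complex.exp (p.1 * w i + p.2 * w j) ≠ 0 →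
        |Real.log ‖eval x (c i j p) * Complex.exp (p.1 * w i + p.2 * w j)‖ -
          (p.1 * (w i).re + p.2 * (w j).re)| ≤ L := by
      intro p hp p0
      have h7 := left_ne_zero_of_mul p0
      rw [norm_mul, Complex.norm_exp, Real.log_mul (norm_ne_zero_iff.2 h7) (Real.exp_ne_zero _),
        Real.log_exp]
      convert hT.abs_log (hS i j p hp fun h => h7 (by rw [h, map_zero])) using 2
      simp
    have h7 := abs_le.1 (key p hp p0)
    have h8 := abs_le.1 (key q hq q0)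
    have h9 := abs_le.1 h6
    simp only [sq, Finset.mem_product, Finset.mem_range] at hp hq
    refine ⟨p.1 - q.1, p.2 - q.2, ?_, by rw [abs_le]; omega, by rw [abs_le]; omega, ?_⟩
    · by_contra h
      exact hpq (Prod.ext (by omega) (by omega))
    · have h10 := mul_le_mul_of_nonneg_left hL hl
      push_cast
      rw [abs_le]
      constructor <;> nlinarith [h7.1, h7.2, h8.1, h8.2, h9.1, h9.2]

theorem t_cover : T_COVER := by
  intro A Z r hr hA h
  have key : ∀ a ∈ A, ∀ b ∈ A, b - a ≤ 2 * r * Z.card := by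
    intro a ha b hb
    have h1 : Set.Icc a b ⊆ ⋃ c ∈ Z, Set.Icc (c - r) (c + r) := fun t ht => by
      obtain ⟨c, hc, h2⟩ := h t (hA.Icc_subset ha hb ht)
      rw [abs_le] at h2
      exact Set.mem_biUnion hc ⟨by linarith, by linarith⟩
    have h2 := (MeasureTheory.measure_mono (μ := MeasureTheory.volume) h1).trans
      (MeasureTheory.measure_biUnion_finset_le _ _)
    simp only [Real.volume_Icc, show ∀ c : ℝ, c + r - (c - r) = 2 * r from fun c => by ring,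
      Finset.sum_const, nsmul_eq_mul] at h2
    rwa [← ENNReal.ofReal_natCast, ← ENNReal.ofReal_mul (Nat.cast_nonneg _),
      ENNReal.ofReal_le_ofReal_iff (by positivity), mul_comm] at h2
  intro a ha b hb
  exact abs_sub_le_iff.2 ⟨key b hb a ha, key a ha b hb⟩

end Pool.Agent.P.MP_d2ed07_lc
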