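import Pool.Agent.P.MP_d2ed07_lc.Basic

/-! Lower bounds for exponential polynomials on a sheet of the hypersurface. -/

namespace Pool.Agent.P.MP_d2ed07_lc

open MvPolynomial Metric Filter Topology

variable {n : ℕ}

theorem wron_der {P : MP n} {m k : Fin n → ℤ} {x p : Cn n} {ρ : ℝ} {τ : Cn n → ℂ}
    (hτ : DifferentiableOn ℂ τ (ball x ρ)) (h0 : ∀ p ∈ ball x ρ, eval (p + τ p • cZ k) P = 0)
    (hp : p ∈ ball x ρ) (i : Fin n) (g : MP n) : ∃ A : Cn n →L[ℂ] ℂ,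
      HasFDerivAt (fun p => eval (p + τ p • cZ k) g) A p ∧
      eval (p + τ p • cZ k) (ddir (cZ k) P) * A (proj m k (Pi.single i 1)) =
        eval (p + τ p • cZ k) (Dt P m k i g) := by
  have hn := isOpen_ball.mem_nhds hp
  have hz : HasFDerivAt (fun p => p + τ p • cZ k)
      (ContinuousLinearMap.id ℂ _ + (fderiv ℂ τ p).smulRight (cZ k)) p :=
    (hasFDerivAt_id p).add ((hτ.differentiableAt hn).hasFDerivAt.smul_const _)
  obtain ⟨A, hA, eA⟩ := hasFDerivAt_eval g (p + τ p • cZ k)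
  obtain ⟨B, hB, eB⟩ := hasFDerivAt_eval P (p + τ p • cZ k)
  have h1 : HasFDerivAt (fun p => eval (p + τ p • cZ k) P) (0 : Cn n →L[ℂ] ℂ) p :=
    (hasFDerivAt_const (0 : ℂ) p).congr_of_eventuallyEq (eventually_of_mem hn h0)
  have hA' := HasFDerivAt.comp (f := fun p => p + τ p • cZ k) p hA hz
  have hB' := HasFDerivAt.comp (f := fun p => p + τ p • cZ k) p hB hz
  have h2 := congrArg (fun T : Cn n →L[ℂ] ℂ => T (proj m k (Pi.single i 1))) (hB'.unique h1)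
  refine ⟨_, hA', ?_⟩
  simp only [ContinuousLinearMap.comp_apply, add_apply,
    ContinuousLinearMap.id_apply, ContinuousLinearMap.smulRight_apply, map_add, map_smul,
    smul_eq_mul, zero_apply, Dt, map_sub, map_mul] at h2 ⊢
  simp only [eA, eB] at h2 ⊢
  linear_combination eval (p + τ p • cZ k) (ddir (cZ k) g) * h2

theorem wron_id {P : MP n} {m k : Fin n → ℤ} {x p : Cn n} {ρ : ℝ} {τ : Cn n → ℂ}
    (hτ : DifferentiableOn ℂ τ (ball x ρ)) (h0 : ∀ p ∈ ball x ρ, eval (p + τ p • cZ k) P = 0)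
    (hp : p ∈ ball x ρ) (i : Fin n) (A : Finset ℕ) (c : ℕ → MP n) (a₀ : ℕ) (E : Cn n → ℂ)
    (hE : E = fun p => ∑ a ∈ A, eval (p + τ p • cZ k) (c a) *
      Complex.exp (dz m (p + τ p • cZ k)) ^ a) : DifferentiableAt ℂ E p ∧
    ∑ a ∈ A.erase a₀, eval (p + τ p • cZ k) (c a₀ * Dt P m k i (c a) - c a * Dt P m k i (c a₀) +
      C (((a : ℤ) - a₀ : ℤ) : ℂ) * c a * c a₀ * Dt P m k i (lform m)) *
        Complex.exp (dz m (p + τ p • cZ k)) ^ a =
      eval (p + τ p • cZ k) (ddir (cZ k) P * c a₀) * fderiv ℂ E p (proj m k (Pi.single i 1)) -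
        eval (p + τ p • cZ k) (Dt P m k i (c a₀) + C (a₀ : ℂ) * c a₀ * Dt P m k i (lform m)) *
          E p := by
  choose T hT eT using wron_der (m := m) hτ h0 hp i
  have h1 := HasFDerivAt.fun_sum (u := A) fun a _ =>
    (hT (c a)).mul ((hT (lform m)).const_mul (a : ℂ)).cexp
  have h2 : E = fun p => ∑ a ∈ A, ((fun p => eval (p + τ p • cZ k) (c a)) * fun p =>
      Complex.exp (a * eval (p + τ p • cZ k) (lform m))) p := by
    rw [hE]; funext q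
    simp only [Pi.mul_apply, eval_lform, Complex.exp_nat_mul]
  rw [← h2] at h1
  refine ⟨h1.differentiableAt, ?_⟩
  rw [h1.fderiv, Finset.sum_erase _ (by simp [mul_comm]), hE, sum_apply,
    Finset.mul_sum, Finset.mul_sum, ← Finset.sum_sub_distrib]
  refine Finset.sum_congr rfl fun a _ => ?_
  simp only [add_apply, smul_apply, smul_eq_mul,
    eval_lform, Complex.exp_nat_mul, map_add, map_sub, map_mul, eval_C, ← eT]
  push_cast
  ring

theorem wron_aux (hnld : T_NLD) (hcl : T_CL) (hgrow : T_GROW) {F : Type} [Field F] [Algebra ℂ F]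
    (D : Data n F) (m k : Fin n → ℤ) (hf : Free D.z) (hmk : dz m k = 1)
    (hk : ¬ D.P ∣ ddir (cZ k) D.P) (A : Finset ℕ) : ∀ (c : ℕ → MP n) (ρ : ℝ),
    (∃ a ∈ A, ¬ D.P ∣ c a) → 0 < ρ → ∃ (S : Finset (MP n)) (N : ℝ), Good D.P S ∧ 1 ≤ N ∧
    ∀ (x : Cn n) (τ : Cn n → ℂ) (L : ℝ), 1 ≤ L → DifferentiableOn ℂ τ (ball x ρ) →
    (∀ p ∈ ball x ρ, eval (p + τ p • cZ k) D.P = 0 ∧ ‖p + τ p • cZ k‖ ≤ Real.exp L ∧
      ‖dz m (p + τ p • cZ k)‖ ≤ L ∧ Tm S L (p + τ p • cZ k)) →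
    ∃ p ∈ ball x ρ, Real.exp (-(N * L)) ≤ ‖∑ a ∈ A, eval (p + τ p • cZ k) (c a) *
      Complex.exp (dz m (p + τ p • cZ k)) ^ a‖ := by
  induction A using Finset.strongInduction with
  | H A ih =>
  rintro c ρ ⟨a₁, ha₁, hc₁⟩ hρ
  by_cases hA : ∀ a ∈ A, a = a₁
  · obtain rfl : A = {a₁} := Finset.eq_singleton_iff_unique_mem.2 ⟨ha₁, hA⟩
    refine ⟨{c a₁}, 1 + a₁, by simpa [Good] using hc₁, by simp, fun x τ L hL hτ h => ?_⟩
    obtain ⟨-, -, h1, h2⟩ := h x (mem_ball_self hρ)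
    refine ⟨x, mem_ball_self hρ, ?_⟩
    rw [Finset.sum_singleton, norm_mul, norm_pow, Complex.norm_exp,
      show -((1 + a₁ : ℝ) * L) = -L + a₁ * -L by ring, Real.exp_add, Real.exp_nat_mul]
    refine mul_le_mul (h2 _ (by simp)).1 (pow_le_pow_left₀ (Real.exp_pos _).le
      (Real.exp_le_exp.2 ?_) _) (by positivity) (norm_nonneg _)
    linarith [(abs_le.1 (Complex.abs_re_le_norm (dz m (x + τ x • cZ k)))).1]
  push Not at hA
  obtain ⟨a₀, ha₀, hne⟩ := hA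
  have hsub := Finset.erase_ssubset ha₀
  have hmem : a₁ ∈ A.erase a₀ := Finset.mem_erase.2 ⟨hne.symm, ha₁⟩
  by_cases hc₀ : D.P ∣ c a₀
  · obtain ⟨S, N, h1, h2, h3⟩ := ih _ hsub c ρ ⟨a₁, hmem, hc₁⟩ hρ
    refine ⟨S, N, h1, h2, fun x τ L hL hτ h => ?_⟩
    obtain ⟨p, hp, h4⟩ := h3 x τ L hL hτ h
    refine ⟨p, hp, ?_⟩
    rwa [Finset.sum_erase _ (by rw [D.eval_of_dvd (h p hp).1 hc₀, zero_mul])] at h4
  obtain ⟨i, hi⟩ := hnld n F D m k (c a₁) (c a₀) ((a₁ : ℤ) - a₀) hf hmk hk hc₁ hc₀ (by omega)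
  obtain ⟨S, N, h1, h2, h3⟩ := ih _ hsub (fun a => c a₀ * Dt D.P m k i (c a) -
    c a * Dt D.P m k i (c a₀) + C (((a : ℤ) - a₀ : ℤ) : ℂ) * c a * c a₀ * Dt D.P m k i (lform m))
    (ρ / 2) ⟨a₁, hmem, hi⟩ (half_pos hρ)
  obtain ⟨N₁, g1⟩ := hgrow n (ddir (cZ k) D.P * c a₀)
  obtain ⟨N₂, g2⟩ := hgrow n (Dt D.P m k i (c a₀) + C (a₀ : ℂ) * c a₀ * Dt D.P m k i (lform m))
  set u := proj m k (Pi.single i 1) with hu
  set κ := 4 / ρ * ‖u‖ + 1 with hκ
  have κ0 : 0 < κ := by positivity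
  refine ⟨S, N + N₁ + N₂ + κ, h1, by
    linarith [(Nat.cast_nonneg N₁ : (0 : ℝ) ≤ _), (Nat.cast_nonneg N₂ : (0 : ℝ) ≤ _)],
    fun x τ L hL hτ h => ?_⟩
  have hb : ball x (ρ / 2) ⊆ ball x ρ := ball_subset_ball (half_le_self hρ.le)
  obtain ⟨p, hp, h4⟩ := h3 x τ L hL (hτ.mono hb) fun p hp => h p (hb hp)
  by_contra hcon
  push Not at hcon
  have hid := fun q hq => wron_id (m := m) (p := q) hτ (fun p hp => (h p hp).1) hq i A c a₀ _ rfl
  set M := Real.exp (-((N + N₁ + N₂ + κ) * L)) with hM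
  have M0 : 0 < M := Real.exp_pos _
  have d1 := (hcl _ _ _ x ρ M hρ (fun q hq => (hid q hq).1.differentiableWithinAt)
    fun q hq => (hcon q hq).le).1 p hp
  have R2 : 2 ≤ Real.exp L := by linarith [Real.add_one_le_exp L]
  have R1 : 1 ≤ Real.exp L := by linarith
  have b1 := (g1 _ _ R2 (h p (hb hp)).2.1).trans (pow_le_pow_right₀ R1 (Nat.le_add_right N₁ N₂))
  have b2 := (g2 _ _ R2 (h p (hb hp)).2.1).trans (pow_le_pow_right₀ R1 (Nat.le_add_left N₂ N₁))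
  rw [(hid p (hb hp)).2] at h4
  have h5 := h4.trans (norm_sub_le _ _)
  rw [norm_mul, norm_mul] at h5
  have h6 := h5.trans (add_le_add
    (mul_le_mul b1 ((ContinuousLinearMap.le_opNorm _ _).trans
      (mul_le_mul_of_nonneg_right d1 (norm_nonneg _))) (norm_nonneg _) (by positivity))
    (mul_le_mul b2 (hcon p (hb hp)).le (norm_nonneg _) (by positivity)))
  have h7 : κ < Real.exp (κ * L) :=
    lt_of_lt_of_le (by nlinarith) (Real.add_one_le_exp (κ * L))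
  have h8 : Real.exp (-(N * L)) = Real.exp L ^ (N₁ + N₂) * M * Real.exp (κ * L) := by
    rw [hM, ← Real.exp_nat_mul, ← Real.exp_add, ← Real.exp_add]; congr 1; push_cast; ring
  have h9 := mul_lt_mul_of_pos_left h7 (show 0 < Real.exp L ^ (N₁ + N₂) * M by positivity)
  rw [← h8, hκ] at h9
  refine absurd (h6.trans_lt (lt_of_eq_of_lt ?_ h9)) (lt_irrefl _)
  ring

theorem t_wron (hnld : T_NLD) (hcl : T_CL) (hgrow : T_GROW) : T_WRON := by
  rintro n F _ _ D m k h ρ hf hmk hk ⟨a, ha⟩ hρ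
  simp only [ev1_eq_sum _ _ h le_rfl]
  exact wron_aux hnld hcl hgrow D m k hf hmk hk _ h.coeff ρ ⟨a, Finset.mem_range_succ_iff.2
    (Polynomial.le_natDegree_of_ne_zero fun e => ha (e ▸ dvd_zero _)), ha⟩ hρ

end Pool.Agent.P.MP_d2ed07_lc
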