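import Pool.Agent.P.MP_d2ed07_lc.ADAPT
import Pool.Agent.P.MP_d2ed07_lc.ANG
import Pool.Agent.P.MP_d2ed07_lc.AS
import Pool.Agent.P.MP_d2ed07_lc.CASE2
import Pool.Agent.P.MP_d2ed07_lc.CL
import Pool.Agent.P.MP_d2ed07_lc.CONE1
import Pool.Agent.P.MP_d2ed07_lc.CONE2
import Pool.Agent.P.MP_d2ed07_lc.COP
import Pool.Agent.P.MP_d2ed07_lc.DEEP
import Pool.Agent.P.MP_d2ed07_lc.DER0
import Pool.Agent.P.MP_d2ed07_lc.G2A
import Pool.Agent.P.MP_d2ed07_lc.G2B
import Pool.Agent.P.MP_d2ed07_lc.G2C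
import Pool.Agent.P.MP_d2ed07_lc.G2D
import Pool.Agent.P.MP_d2ed07_lc.G2E
import Pool.Agent.P.MP_d2ed07_lc.G3
import Pool.Agent.P.MP_d2ed07_lc.LIFT
import Pool.Agent.P.MP_d2ed07_lc.LIM
import Pool.Agent.P.MP_d2ed07_lc.LOCT
import Pool.Agent.P.MP_d2ed07_lc.LOG
import Pool.Agent.P.MP_d2ed07_lc.NEWT
import Pool.Agent.P.MP_d2ed07_lc.NLD
import Pool.Agent.P.MP_d2ed07_lc.PARAM
import Pool.Agent.P.MP_d2ed07_lc.POLY
import Pool.Agent.P.MP_d2ed07_lc.RAB
import Pool.Agent.P.MP_d2ed07_lc.RAY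
import Pool.Agent.P.MP_d2ed07_lc.REL
import Pool.Agent.P.MP_d2ed07_lc.ROOT
import Pool.Agent.P.MP_d2ed07_lc.ROS
import Pool.Agent.P.MP_d2ed07_lc.ROS1
import Pool.Agent.P.MP_d2ed07_lc.ROS2
import Pool.Agent.P.MP_d2ed07_lc.SC1
import Pool.Agent.P.MP_d2ed07_lc.SC2
import Pool.Agent.P.MP_d2ed07_lc.SEC
import Pool.Agent.P.MP_d2ed07_lc.SHEET
import Pool.Agent.P.MP_d2ed07_lc.SL1
import Pool.Agent.P.MP_d2ed07_lc.SL2
import Pool.Agent.P.MP_d2ed07_lc.SLICE
import Pool.Agent.P.MP_d2ed07_lc.STRIP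
import Pool.Agent.P.MP_d2ed07_lc.T1
import Pool.Agent.P.MP_d2ed07_lc.T3A
import Pool.Agent.P.MP_d2ed07_lc.T3B
import Pool.Agent.P.MP_d2ed07_lc.TAME
import Pool.Agent.P.MP_d2ed07_lc.TD
import Pool.Agent.P.MP_d2ed07_lc.TROP
import Pool.Agent.P.MP_d2ed07_lc.WRON

/-! All steps, without hypotheses. -/

namespace Pool.Agent.P.MP_d2ed07_lc

theorem a_param : T_PARAM := t_param
theorem a_sl2 : T_SL2 := t_sl2
theorem a_bc : T_BC := t_bc
theorem a_log : T_LOG := t_log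
theorem a_relv : T_RELV := t_relv a_bc a_log
theorem a_rel2 : T_REL2 := t_rel2
theorem a_vrel : T_VREL := t_vrel a_rel2
theorem a_two : T_TWO := t_two
theorem a_trop : T_TROP := t_trop
theorem a_vtrop : T_VTROP := t_vtrop a_two a_trop
theorem a_adapt : T_ADAPT := t_adapt
theorem a_rel1 : T_REL1 := t_rel1
theorem a_trans : T_TRANS := t_trans
theorem a_r2 : T_R2 := t_r2 a_rel1 a_trans
theorem a_sheet : T_SHEET := t_sheet
theorem a_lift : T_LIFT := t_lift a_sheet a_log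
theorem a_ang : T_ANG := t_ang
theorem a_cover : T_COVER := t_cover
theorem a_strip : T_STRIP := t_strip a_rel2 a_trans a_param a_lift a_ang a_two a_cover
theorem a_lim : T_LIM := t_lim
theorem a_pick : T_PICK := t_pick
theorem a_cl : T_CL := t_cl
theorem a_pers : T_PERS := t_pers a_cl
theorem a_sc2 : T_SC2 := t_sc2 a_bc a_lim a_two a_trop a_pick a_pers
theorem a_sc1 : T_SC1 := t_sc1 a_bc a_relv a_vrel a_vtrop a_adapt a_r2 a_strip a_sc2
theorem a_res : T_RES := t_res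
theorem a_half : T_HALF := t_half
theorem a_root : T_ROOT := t_root
theorem a_sep : T_SEP := t_sep
theorem a_ray : T_RAY := t_ray a_vrel a_vtrop a_param a_lift a_res a_half a_root a_sep
theorem a_hom : T_HOM := t_hom
theorem a_imag : T_IMAG := t_imag
theorem a_newt : T_NEWT := t_newt a_hom a_imag
theorem a_der0 : T_DER0 := t_der0
theorem a_der2 : T_DER2 := t_der2 a_der0
theorem a_der1 : T_DER1 := t_der1 a_der0
theorem a_ros1 : T_ROS1 := t_ros1
theorem a_ros2 : T_ROS2 := t_ros2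
theorem a_ros : T_ROS := t_ros a_der0 a_der1 a_ros1 a_ros2
theorem a_as : T_AS := t_as a_der2 a_ros
theorem a_du : T_DU := t_du a_der0
theorem a_g2b : T_G2B := t_g2b a_du
theorem a_realpt : T_REALPT := t_realpt a_cl a_lim
theorem a_tame : T_TAME := t_tame a_cl a_realpt
theorem a_cop : T_COP := t_cop
theorem a_plow : T_PLOW := t_plow
theorem a_grow : T_GROW := t_grow
theorem a_grow1 : T_GROW1 := t_grow1 a_grow
theorem a_loct : T_LOCT := t_loct a_tame a_sheet a_cop a_plow a_grow a_grow1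
theorem a_minmod : T_MINMOD := t_minmod
theorem a_case2 : T_CASE2 := t_case2 a_sc1 a_loct a_hom a_cl a_minmod
theorem a_hur : T_HUR := t_hur a_minmod
theorem a_nld : T_NLD := t_nld a_ros a_der1
theorem a_wron : T_WRON := t_wron a_nld a_cl a_grow
theorem a_fib : T_FIB := t_fib a_param a_lift a_grow1
theorem a_fix : T_FIX := t_fix
theorem a_3b : T_3B := t_3b a_hur a_loct a_wron a_tame a_fib a_grow1 a_bc a_fix
theorem a_cone1 : T_CONE1 := t_cone1 a_cop a_imag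
theorem a_cone2 : T_CONE2 := t_cone2 a_cl a_imag
theorem a_g2c : T_G2C := t_g2c a_du
theorem a_g3 : T_G3 := t_g3
theorem a_g2a : T_G2A := t_g2a a_der2 a_as
theorem a_sl1 : T_SL1 := t_sl1
theorem a_slice : T_SLICE := t_slice a_sl1 a_sl2
theorem a_curv : T_CURV := t_curv
theorem a_rab : T_RAB := t_rab a_rel1
theorem a_drop : T_DROP := t_drop
theorem a_g2e : T_G2E := t_g2e a_der2 a_drop
theorem a_g2d : T_G2D := t_g2d a_du a_as a_drop
theorem a_deep : T_DEEP := t_deep a_bc a_fix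
theorem a_scale : T_SCALE := t_scale a_loct a_deep
theorem a_3a : T_3A := t_3a a_ray a_scale a_hur
theorem a_case1 : T_CASE1 := t_case1 a_scale a_hur a_hom
theorem a_span : T_SPAN := t_span
theorem a_hyp : T_HYP := t_hyp
theorem a_g4 : T_G4 := t_g4
theorem a_td : T_TD := t_td
theorem a_t1 : T_T1 := t_t1 a_ray a_span a_case1 a_cone1 a_cone2 a_case2 a_r2 a_hyp a_newt a_3a a_3b
theorem a_dens : T_DENS := t_dens a_rab a_slice a_curv a_t1
theorem a_sec : T_SEC := t_sec a_g2a a_g2b a_g2e a_g2c a_g2d a_g3 a_g4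

end Pool.Agent.P.MP_d2ed07_lc
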