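import Pool.Agent.P.MP_d2ed07_lc.Basic2

/-!
Three variables, the case where the hypersurface is a cylinder.
-/

namespace Pool.Agent.P.MP_d2ed07_lc

open MvPolynomial Metric Filter Topology

section
variable {F : Type} [Field F] [Algebra ℂ F] {n : ℕ}

theorem b3_rot {k : ℕ} {z y : Fin n → F} (hr : Rot z y) (e : Fin k → Fin n)
    (he : Function.Injective e) : ∃ s : Finset (Fin k ⊕ Fin k), s.card = k ∧
      AlgebraicIndependent ℂ (fun j : s =>
        Sum.elim (fun r => z (e r)) (fun r => y (e r)) (j : Fin k ⊕ Fin k)) := by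
  have h := hr k (fun r => Pi.single (e r) 1) ((Pi.linearIndependent_single_one _ _).comp e he)
  simpa only [dz_single_left, mon_single] using h

theorem b3_algz (D : Data n F) (i : Fin n) : D.Alg (D.z i) :=
  isAlgebraic_algebraMap (⟨D.z i, IntermediateField.subset_adjoin _ _ ⟨i, rfl⟩⟩ : D.k)

theorem b3_alg (D : Data n F) {σ : Type} {a : σ → F} (ha : ∀ s, D.Alg (a s)) {b : F}
    (hb : IsAlgebraic (IntermediateField.adjoin ℂ (Set.range a)) b) : D.Alg b := by
  have h1 : IntermediateField.adjoin ℂ (Set.range a) ≤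
      (algebraicClosure D.k F).restrictScalars ℂ := by
    rw [IntermediateField.adjoin_le_iff]
    rintro _ ⟨s, rfl⟩
    exact mem_algebraicClosure_iff.2 (ha s)
  have h2 : IsAlgebraic (algebraicClosure D.k F) b :=
    IsAlgebraic.tower_top_of_subalgebra_le
      (A := (IntermediateField.adjoin ℂ (Set.range a)).toSubalgebra)
      (B := ((algebraicClosure D.k F).restrictScalars ℂ).toSubalgebra) h1 hb
  exact h2.restrictScalars D.k

theorem b3_ins {j : Fin (n + 1)} {m : Fin n → ℤ} (h : m ≠ 0) :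
    (j.insertNth 0 m : Fin (n + 1) → ℤ) ≠ 0 := fun e => h (funext fun r => by
  simpa using congrFun e (j.succAbove r))

theorem b3_free {z : Fin (n + 1) → F} (h : Free z) (j : Fin (n + 1)) :
    Free fun r => z (j.succAbove r) := fun m hm c e => h _ (b3_ins (j := j) hm) c (by
  rw [← e, dz, Fin.sum_univ_succAbove _ j]
  simp [dz])

theorem b3_mfree {y : Fin (n + 1) → F} (h : MFree y) (j : Fin (n + 1)) :
    MFree fun r => y (j.succAbove r) := fun m hm c e => h _ (b3_ins (j := j) hm) c (by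
  rw [← e, mon, Fin.prod_univ_succAbove _ j]
  simp [mon])

theorem b3_data (D : Data (n + 1) F) (j : Fin (n + 1)) (h : ddir (uv j) D.P = 0) :
    ∃ D1 : Data n F, (D1.z = fun r => D.z (j.succAbove r)) ∧
      D1.y = fun r => D.y (j.succAbove r) := by
  let φ : Fin (n + 1) → MP n := j.insertNth 0 X
  have h1 : ∀ g : MP n, aeval φ (rename j.succAbove g) = g := fun g => by
    rw [aeval_rename, show φ ∘ j.succAbove = X from funext fun r => by simp [φ], aeval_X_left]
    rfl
  have h2 : rename j.succAbove (aeval φ D.P) = D.P := MvPolynomial.funext fun x => by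
    rw [eval_rename, ← coe_aeval_eq_eval, ← ddir_eq_zero_iff.1 h x (-x j), ← coe_aeval_eq_eval]
    change aeval _ (aeval φ D.P) = aeval _ D.P
    rw [← AlgHom.comp_apply, comp_aeval]
    congr 2
    funext i
    refine j.succAboveCases ?_ (fun r => ?_) i <;> simp [φ, uv]
  refine ⟨⟨_, _, fun r => D.hy _, aeval φ D.P, fun e => D.hP0 ?_, fun g => ?_⟩, rfl, rfl⟩
  · rw [← h2, e, map_zero]
  · have h3 := D.hP (rename j.succAbove g)
    rw [aeval_rename] at h3
    refine h3.trans ⟨fun k => ?_, fun k => ?_⟩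
    · have := map_dvd (aeval φ) k
      rwa [h1] at this
    · have := map_dvd (rename j.succAbove) k
      rwa [h2] at this
end

theorem b3_two (hdens2 : T_DENS2) (hs2 : T_S2) (htdk : T_TDK) (hliftp : T_LIFTP) (htrc : T_TRC)
    {F : Type} [Field F] [Algebra ℂ F] (D : Data 3 F) (hf : Free D.z) (hm : MFree D.y)
    (hr : Rot D.z D.y) (j : Fin 3) (h : ddir (uv j) D.P = 0)
    (hA : ∀ r, D.Alg (D.y (j.succAbove r))) (hj : ¬ D.Alg (D.y j)) : D.Sol := by
  obtain ⟨D1, ez, ey⟩ := b3_data D j h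
  have hf1 : Free D1.z := ez ▸ b3_free hf j
  have hm1 : MFree D1.y := ey ▸ b3_mfree hm j
  obtain ⟨s, hs, hi⟩ := b3_rot hr j.succAbove Fin.succAbove_right_injective
  rw [← ez, ← ey] at hi
  have ha : ∀ o, D.Alg (ext1 (D.z j) (Sum.elim D1.z D1.y) o) := by
    rw [ez, ey]
    rintro (_ | r | r)
    · exact b3_algz D j
    · exact b3_algz D _
    · exact hA r
  have hst : D1.Star2 := hs2 F D1 hf1 (by
    by_contra hn
    push Not at hn
    have := htdk 2 F D1 s _ (by
      rintro ⟨r | r, _⟩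
      · exact b3_algz D1 r
      · exact hn r) hi
    simp [hs] at this)
  have hz : IsAlgebraic (IntermediateField.adjoin ℂ (Set.range (Sum.elim D1.z D1.y))) (D.z j) := by
    by_contra hn
    have h1 := AlgebraicIndependent.option_iff.2 ⟨hi, fun k : IsAlgebraic _ (D.z j) => hn
      (IsAlgebraic.tower_top_of_subalgebra_le
        (B := (IntermediateField.adjoin ℂ (Set.range (Sum.elim D1.z D1.y))).toSubalgebra)
        (Algebra.adjoin_le (by
          rintro _ ⟨r, rfl⟩
          exact IntermediateField.subset_adjoin _ _ ⟨r.1, rfl⟩)) k)⟩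
    have := htdk 3 F D _ _ (by
      rintro (_ | r)
      · exact ha none
      · exact ha (some r.1)) h1
    simp [hs] at this
  obtain ⟨f, hf0, hl⟩ := hliftp F _ _ _ hz
  obtain ⟨x, hx, hx0⟩ := hdens2 2 F D1 hf1 hm1 hst f hf0
  obtain ⟨t, ht⟩ := hl _ hx hx0
  have h1 := (htrc F _ _ _ (D.y j) (Complex.exp t) (fun k => hj (b3_alg D ha k)) ht).comp
    (Sum.elim (j.insertNth (some none) fun r => some (some (Sum.inl r)))
      (j.insertNth none fun r => some (some (Sum.inr r))) : Fin 3 ⊕ Fin 3 → _)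
  refine ⟨j.insertNth t x, onV_iff_loc.2 ?_⟩
  refine (congrArg₂ Loc (funext ?_) (funext ?_)).mp h1
  · rintro (i | i) <;> refine j.succAboveCases ?_ (fun r => ?_) i <;> simp [ext1, ez, ey]
  · rintro (i | i) <;> refine j.succAboveCases ?_ (fun r => ?_) i <;> simp [ext1, ex]

theorem t_b3 (hcoord : T_COORD) (hdens2 : T_DENS2) (hs2 : T_S2) (htdk : T_TDK) (hhyp2 : T_HYP2)
    (hliftp : T_LIFTP) (htrc : T_TRC) : T_B3 := by
  intro F _ _ D₀ hf hm hr hs
  obtain ⟨D, A, hN, -, h1, h2, h3, h4, h5⟩ := hcoord 3 F D₀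
  refine h5 ?_
  have hd : ∀ u : Cn 3, Off A u → ddir u D.P = 0 := fun u hu => by
    by_contra hn
    refine hs (h4.2 ⟨u, fun m k => Finset.sum_eq_zero fun i _ => ?_, hn⟩)
    by_cases hi : i ∈ A
    · rw [hu i hi, mul_zero]
    · rw [hN.2 m k i hi, Int.cast_zero, zero_mul]
  have key : ∀ A : Finset (Fin 3), (∀ i, i ∈ A) ∨ (∃ i, ∀ i' ∈ A, i' = i) ∨
      ∃ j, j ∉ A ∧ ∀ r : Fin 2, j.succAbove r ∈ A := by decide
  rcases key A with hA | ⟨i, hA⟩ | ⟨j, hj, hA⟩
  · obtain ⟨s, hc, hi⟩ := b3_rot (h3 hr) id Function.injective_id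
    have := htdk 3 F D s _ (by
      rintro ⟨r | r, _⟩
      · exact b3_algz D r
      · exact hN.1 r (hA r)) hi
    simp [hc] at this
  · obtain ⟨x, hx, -⟩ := D.exists_pt (S := ∅) (by simp [Good])
    have hne : (Pi.single i 1 : Fin 3 → ℤ) ≠ 0 := fun e => by simpa using congrFun e i
    refine (D.free_iff.1 (h1 hf) _ hne (x i) (hhyp2 3 D.P _ _ D.prime hne fun u hu => ?_)).elim
    rw [dz_single_left] at hu
    have := ddir_eq_zero_iff.1 (hd (u - x) fun i' hi' => by
      rw [hA i' hi', Pi.sub_apply, hu, sub_self]) x 1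
    rwa [one_smul, add_sub_cancel, hx] at this
  · refine b3_two hdens2 hs2 htdk hliftp htrc D (h1 hf) (h2 hm) (h3 hr) j
      (hd _ fun i hi => Pi.single_eq_of_ne (fun e : i = j => hj (e ▸ hi)) _) (fun r => hN.1 _ (hA r))
      fun k => ?_
    simpa using hN.2 (Pi.single j 1) (by rwa [mon_single]) j hj

end Pool.Agent.P.MP_d2ed07_lc
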