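import Pool.Agent.P.MP_d2ed07_lc.Basic2

/-!
A ball on which the denominator is tame.
-/

namespace Pool.Agent.P.MP_d2ed07_lc

open MvPolynomial Metric Filter Topology

theorem t_half2 (hhalf : T_HALF) : T_HALF2 := by
  intro d
  obtain ⟨C, hC, H⟩ := hhalf d
  have key : ∀ (f : Polynomial ℂ) (L : ℝ) (l : ℂ), 1 ≤ L → f ≠ 0 → f.natDegree ≤ d →
      (∀ a, f.coeff a = 0 ∨ (Real.exp (-L) ≤ ‖f.coeff a‖ ∧ ‖f.coeff a‖ ≤ Real.exp L)) →
      C * L < l.re → Real.exp (-(C * L)) ≤ ‖f.eval (Complex.exp l)‖ := by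
    intro f L l hL hf hd hc hl
    obtain ⟨h1, h2⟩ := H f L l hL hf hd hc hl
    rw [← Real.le_log_iff_exp_le (norm_pos_iff.2 h1)]
    have h3 : 0 ≤ (f.natDegree : ℝ) * l.re := mul_nonneg (Nat.cast_nonneg _) (by nlinarith)
    linarith [(abs_le.1 h2).1]
  have hd0 : (0 : ℝ) ≤ d := Nat.cast_nonneg _
  refine ⟨C + d, by linarith, fun f L l hL hf hd hc hl => ?_⟩
  have hCL : 0 < C * L := by positivity
  have hdL : 0 ≤ d * L := by positivity
  rcases le_total 0 l.re with h0 | h0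
  · rw [abs_of_nonneg h0] at hl ⊢
    refine le_trans (Real.exp_le_exp.2 ?_) (key f L l hL hf hd hc (by linarith))
    nlinarith
  · rw [abs_of_nonpos h0] at hl ⊢
    have h1 := key (f.reflect d) L (-l) hL (by simpa using hf)
      (Polynomial.natDegree_reflect_le.trans (max_le le_rfl hd))
      (fun a => by rw [Polynomial.coeff_reflect]; exact hc _) (by rw [Complex.neg_re]; linarith)
    let : Invertible (Complex.exp l) := invertibleOfNonzero (Complex.exp_ne_zero l)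
    have h2 := Polynomial.eval₂_reflect_mul_pow (RingHom.id ℂ) (Complex.exp l) d f hd
    rw [invOf_eq_inv, ← Complex.exp_neg, Polynomial.eval₂_id, Polynomial.eval₂_id] at h2
    rw [← h2, norm_mul, norm_pow, Complex.norm_exp, ← Real.exp_nat_mul]
    refine le_trans ?_ (mul_le_mul_of_nonneg_right h1 (Real.exp_pos _).le)
    rw [← Real.exp_add, Real.exp_le_exp]
    nlinarith

theorem ball_round (z : ℂ) : ∃ j : ℤ, ‖z - 2 * Real.pi * Complex.I * j‖ ≤ |z.re| + 4 := by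
  refine ⟨round (z.im / (2 * Real.pi)), (Complex.norm_le_abs_re_add_abs_im _).trans ?_⟩
  have h1 := abs_sub_round (z.im / (2 * Real.pi))
  have h2 := Real.pi_pos
  have h3 := Real.pi_le_four
  generalize round (z.im / (2 * Real.pi)) = j at h1
  have h4 : z.im - 2 * Real.pi * j = 2 * Real.pi * (z.im / (2 * Real.pi) - j) := by field_simp
  have h5 : |z.im - 2 * Real.pi * j| ≤ 4 := by
    rw [h4, abs_mul, abs_of_pos (by positivity : 0 < 2 * Real.pi)]
    nlinarith
  simpa using h5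

theorem ball_w {w ε : ℝ} (hw : 8 ≤ w) (hε : ε ≤ 1) :
    64 ≤ w * w ∧ 64 * (w * w) ≤ w ^ 4 ∧ ε * w ≤ w * w / 8 := by
  have h : 64 ≤ w * w := by nlinarith
  exact ⟨h, by nlinarith, by nlinarith⟩

theorem t_ball (hcl : T_CL) (hhalf2 : T_HALF2) (hgrow1 : T_GROW1) (htame : T_TAME) : T_BALL := by
  intro n P h h₁ q c a e m N₁ γ K N₀ N' S hγ hK hN₀ hN' hj hS hc hid
  obtain ⟨Ch, hCh, HH⟩ := hhalf2 h.natDegree
  obtain ⟨Nh, Hh⟩ := hgrow1 n h
  obtain ⟨Nq, Hq⟩ := hgrow1 n q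
  obtain ⟨g, hg0, hg1, hgγ⟩ : ∃ g : ℝ, 0 < g ∧ g ≤ 1 ∧ g ≤ γ :=
    ⟨min γ 1, lt_min hγ one_pos, min_le_right _ _, min_le_left _ _⟩
  obtain ⟨B, hB⟩ : ∃ B : ℝ, B = 2 * Ch * N₀ + 1 := ⟨_, rfl⟩
  have hB1 : 1 ≤ B := by rw [hB]; nlinarith
  have hN₁ : (0 : ℝ) ≤ N₁ := Nat.cast_nonneg _
  obtain ⟨N, hN⟩ : ∃ N : ℝ, N = N₀ + a * B + e * (N' * N₀) + Nq * (N₁ + B) + Nh * (N₁ + B) :=
    ⟨_, rfl⟩
  have hN0 : 0 ≤ N := by rw [hN]; positivity
  obtain ⟨ε, R₀, hε, hε1, HT⟩ := htame n N (g / 4) hN0 (by positivity)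
  obtain ⟨A, hA⟩ : ∃ A : ℝ, A = 3 * Ch + N₁ + 6 := ⟨_, rfl⟩
  obtain ⟨A', hA'⟩ : ∃ A' : ℝ, A' = N + 1 + N₁ + B + 5 := ⟨_, rfl⟩
  have hA1 : 1 ≤ A := by rw [hA]; linarith
  have hA1' : 1 ≤ A' := by rw [hA']; linarith
  have tw := tendsto_rpow_atTop (show 0 < g / 4 by positivity)
  obtain ⟨r₀, hr₀⟩ := eventually_atTop.1 ((Real.tendsto_log_atTop.eventually_ge_atTop 1).and
    ((eventually_ge_atTop R₀).and ((eventually_ge_atTop ε⁻¹).and ((tw.eventually_ge_atTop 8).and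
    ((tw.eventually_ge_atTop (128 * K * A)).and ((eventually_ge_atTop 1).and
    ((isLittleO_log_rpow_atTop (show 0 < g / 4 by positivity)).bound
      (show 0 < ε / (K * A') by positivity))))))))
  refine ⟨r₀, fun r hr M X ζ hM hζ hp hX => ?_⟩
  obtain ⟨ht, hR, hεr, hw, hKA, hr1, hlog⟩ := hr₀ r hr
  have hr0 : 0 < r := by linarith
  have hw4 : r ^ (1 - γ) * (r ^ (g / 4)) ^ 4 ≤ r := by
    rw [← Real.rpow_natCast, ← Real.rpow_mul hr0.le, ← Real.rpow_add hr0]
    refine (Real.rpow_le_rpow_of_exponent_le hr1 ?_).trans (Real.rpow_one r).le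
    push_cast; linarith
  have hw4' : (r ^ (g / 4)) ^ 4 ≤ r := by
    rw [← Real.rpow_natCast, ← Real.rpow_mul hr0.le]
    refine (Real.rpow_le_rpow_of_exponent_le hr1 ?_).trans (Real.rpow_one r).le
    push_cast; linarith
  have HT' := HT r hR (r ^ (g / 4))
  have e1 : r ^ N = Real.exp (N * Real.log r) := by rw [Real.rpow_def_of_pos hr0, mul_comm]
  have e2 : r ^ (-N) = Real.exp (-(N * Real.log r)) := by
    rw [Real.rpow_def_of_pos hr0]; ring_nf
  have e3 : r ^ N₁ = Real.exp (N₁ * Real.log r) := by rw [Real.exp_nat_mul, Real.exp_log hr0]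
  have e4 : Real.exp (-Real.log r) ≤ ε := by
    rw [Real.exp_neg, Real.exp_log hr0]; exact inv_le_of_inv_le₀ hε hεr
  rw [Real.norm_of_nonneg (by linarith), Real.norm_of_nonneg (by linarith), div_mul_eq_mul_div,
    le_div_iff₀ (by positivity)] at hlog
  rw [e1, e2] at HT'
  rw [e3] at hp ⊢
  generalize r ^ (g / 4) = w at *
  generalize Real.log r = t at *
  have hw0 : 0 < w := by linarith
  have hW : r ≤ M * r := le_mul_of_one_le_left hr0.le hM
  have hW0 : 0 < M * r := by positivity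
  have hU : ∀ p ∈ ball X (M * r / 16), ‖dz m (ζ p)‖ ≤ M * r / w ^ 4 := fun p hp' =>
    (hp p hp').2.2.2.trans (by
      rw [le_div_iff₀ (by positivity), mul_assoc]
      exact mul_le_mul_of_nonneg_left hw4 (by linarith))
  generalize M * r = W at *
  have hph : DifferentiableOn ℂ (fun p => dz m (ζ p)) (ball X (W / 16)) :=
    (differentiable_dz m).comp_differentiableOn hζ
  have lip : ∀ ρ : ℝ, ρ ≤ W / 32 → ∀ p ∈ ball X ρ, ‖dz m (ζ p) - dz m (ζ X)‖ ≤ 64 * ρ / w ^ 4 := by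
    intro ρ hρ p hp'
    have := (hcl _ _ _ X _ _ (by positivity) hph hU).2 p (ball_subset_ball (by linarith) hp') X
      (mem_ball_self (by positivity))
    refine this.trans ?_
    rw [show 4 * (W / w ^ 4) / (W / 16) = 64 / w ^ 4 by field_simp; norm_num, div_mul_eq_mul_div]
    have h2 : ‖p - X‖ < ρ := mem_ball_iff_norm.1 hp'
    gcongr
  have hX0 : X ∈ ball X (W / 16) := mem_ball_self (by positivity)
  have hL0 : 1 ≤ N₀ * t := one_le_mul_of_one_le_of_one_le hN₀ ht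
  obtain ⟨j₀, hj₀⟩ := ball_round (dz m (ζ X))
  have tri : ∀ p, ‖dz m (ζ p) - 2 * Real.pi * Complex.I * j₀‖ ≤
      ‖dz m (ζ p) - dz m (ζ X)‖ + (|(dz m (ζ X)).re| + 4) := fun p =>
    (norm_sub_le_norm_sub_add_norm_sub _ (dz m (ζ X)) _).trans (by linarith)
  have re : ∀ p, |(dz m (ζ p)).re - (dz m (ζ X)).re| ≤ ‖dz m (ζ p) - dz m (ζ X)‖ := fun p => by
    rw [← Complex.sub_re]; exact Complex.abs_re_le_norm _
  have hbU : |(dz m (ζ X)).re| ≤ W / w ^ 4 := (Complex.abs_re_le_norm _).trans (hU X hX0)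
  have hw3 : w ≤ w ^ 4 := le_self_pow₀ (by linarith) (by norm_num)
  by_cases hb : 2 * Ch * (N₀ * t) < |(dz m (ζ X)).re|
  · generalize hβ : |(dz m (ζ X)).re| = b at hb tri hbU
    have b1 : N₀ * t ≤ Ch * (N₀ * t) := le_mul_of_one_le_left (by linarith) hCh
    have b2 : t ≤ N₀ * t := le_mul_of_one_le_left (by linarith) hN₀
    have b3 : 1 ≤ b := by linarith
    have b4 : K * (A * b) ≤ W / 32 := by
      rw [le_div_iff₀ (by positivity)] at hbU
      have : b * (128 * K * A) ≤ b * w ^ 4 := mul_le_mul_of_nonneg_left (by linarith) (by linarith)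
      have : 0 ≤ K * (A * b) := by positivity
      linarith
    have b5 : 64 * (K * (A * b)) / w ^ 4 ≤ b / 2 := by
      rw [div_le_iff₀ (by positivity)]
      have : b * (128 * K * A) ≤ b * w ^ 4 := mul_le_mul_of_nonneg_left (by linarith) (by linarith)
      linarith
    have z : X + iR 0 = X := by funext i; simp [iR]
    have b6 : N₁ * t ≤ N₁ * b := mul_le_mul_of_nonneg_left (by linarith) hN₁
    have b7 : A * b = 3 * (Ch * b) + N₁ * b + 6 * b := by rw [hA]; ring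
    have b8 : b ≤ Ch * b := le_mul_of_one_le_left (by linarith) hCh
    have b9 : 0 ≤ N₁ * b := by positivity
    refine ⟨0, K * (A * b), A * b, j₀, ?_, by linarith, le_rfl,
      Real.exp_le_exp.2 (by linarith), fun p hp' => ?_⟩
    · rw [z]; exact ball_subset_ball (by linarith)
    rw [z] at hp'
    have l1 := (lip _ b4 p hp').trans b5
    have hp2 := hp p (ball_subset_ball (by linarith) hp')
    refine ⟨by linarith [tri p], ?_⟩
    have l2 := (abs_abs_sub_abs_le _ _).trans ((re p).trans l1)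
    rw [hβ, abs_le] at l2
    have cf : ∀ j, P ∣ h.coeff j → eval (ζ p) (h.coeff j) = 0 := by
      rintro j ⟨c', hc'⟩
      rw [hc', map_mul, hp2.1, zero_mul]
    rw [ev1_eq]
    refine le_trans (Real.exp_le_exp.2 ?_) (HH (h.map (eval (ζ p))) (N₀ * t) _ hL0 (fun h0 => ?_)
      Polynomial.natDegree_map_le (fun j => ?_) (by linarith [l2.1]))
    · have : Ch * (|(dz m (ζ p)).re| + N₀ * t) ≤ Ch * (2 * b) :=
        mul_le_mul_of_nonneg_left (by linarith [l2.2]) (by linarith)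
      linarith
    · obtain ⟨j, hj⟩ := hj
      refine hp2.2.1.ne_zero (hS j hj) ?_
      rw [← Polynomial.coeff_map, h0, Polynomial.coeff_zero]
    · rw [Polynomial.coeff_map]
      by_cases hj : P ∣ h.coeff j
      · exact Or.inl (cf j hj)
      · exact Or.inr (hp2.2.1 _ (hS j hj))
  rw [not_lt] at hb
  obtain ⟨hww, hw5, hw6⟩ := ball_w hw hε1
  have m1 : w * w ≤ W / 32 := by linarith
  have m2 : 64 * (w * w) / w ^ 4 ≤ 1 := (div_le_one (by positivity)).2 hw5
  have m3 : ball X (w * w) ⊆ ball X (W / 16) := ball_subset_ball (by linarith)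
  have m4 : B * t = 2 * Ch * (N₀ * t) + t := by rw [hB]; ring
  have m5 : ∀ p ∈ ball X (w * w), |(dz m (ζ p)).re| ≤ B * t := fun p hp' => by
    have := (abs_abs_sub_abs_le _ _).trans ((re p).trans ((lip _ m1 p hp').trans m2))
    linarith [(abs_le.1 this).2]
  have hBt : t ≤ B * t := le_mul_of_one_le_left (by linarith) hB1
  have hNt : 0 ≤ N₁ * t := by positivity
  have gr : ∀ {f : P1 n} {k : ℕ}, (∀ (R : ℝ) (x : Cn n) (β : ℂ), 2 ≤ R → ‖x‖ ≤ R → ‖β‖ ≤ R →
      ‖ev1 x β f‖ ≤ R ^ k) → ∀ p ∈ ball X (w * w),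
      ‖ev1 (ζ p) (Complex.exp (dz m (ζ p))) f‖ ≤ Real.exp (k * ((N₁ + B) * t)) := by
    intro f k H p hp'
    rw [Real.exp_nat_mul]
    refine H _ _ _ ?_ ((hp p (m3 hp')).2.2.1.trans (Real.exp_le_exp.2 (by linarith))) ?_
    · linarith [Real.add_one_le_exp ((N₁ + B) * t)]
    · rw [Complex.norm_exp, Real.exp_le_exp]
      linarith [(abs_le.1 (m5 p hp')).2]
  have hXw : X ∈ ball X (w * w) := mem_ball_self (by positivity)
  have s1 : 0 ≤ N₀ * t := by positivity
  have s2 : 0 ≤ a * (B * t) := by positivity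
  have s3 : 0 ≤ e * (N' * (N₀ * t)) := by positivity
  have s4 : 0 ≤ Nq * ((N₁ + B) * t) := by positivity
  have s5 : 0 ≤ Nh * ((N₁ + B) * t) := by positivity
  have s6 : N * t = N₀ * t + a * (B * t) + e * (N' * (N₀ * t)) + Nq * ((N₁ + B) * t) +
      Nh * ((N₁ + B) * t) := by rw [hN]; ring
  obtain ⟨s, hs, H⟩ := HT' X (fun p => ev1 (ζ p) (Complex.exp (dz m (ζ p))) h) hw0
    (differentiableOn_ev1 (hζ.mono m3) (hph.mono m3).cexp h)
    (fun p hp' => (gr Hh p hp').trans (Real.exp_le_exp.2 (by linarith)))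
    ⟨X, mem_ball_self hw0, by
      have i1 := congrArg norm (hid (ζ X) (Complex.exp (dz m (ζ X))) (hp X hX0).1)
      rw [norm_mul, norm_mul, norm_mul, norm_pow, norm_pow] at i1
      have i2 : Real.exp (-(B * t)) ≤ ‖Complex.exp (dz m (ζ X))‖ := by
        rw [Complex.norm_exp, Real.exp_le_exp]
        exact (abs_le.1 (m5 X hXw)).1
      have i3 : Real.exp (-(N₀ * t)) * Real.exp (-(B * t)) ^ a * Real.exp (-(N' * (N₀ * t))) ^ e ≤
          ‖ev1 (ζ X) (Complex.exp (dz m (ζ X))) h‖ * Real.exp (Nq * ((N₁ + B) * t)) := by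
        refine le_trans ?_ (i1.le.trans (mul_le_mul_of_nonneg_left (gr Hq X hXw) (norm_nonneg _)))
        have := ((hp X hX0).2.1 c hc).1
        gcongr
      rw [← div_le_iff₀ (Real.exp_pos _), ← Real.exp_nat_mul, ← Real.exp_nat_mul, ← Real.exp_add,
        ← Real.exp_add, ← Real.exp_sub] at i3
      exact le_trans (Real.exp_le_exp.2 (by linarith)) i3⟩
  have m6 : ball (X + iR s) (ε * w) ⊆ ball X (w * w) := by
    refine ball_subset_ball' ?_
    rw [dist_eq_norm, add_sub_cancel_left, norm_iR]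
    linarith
  have m7 : A' * t = N * t + t + N₁ * t + B * t + 5 * t := by rw [hA']; ring
  refine ⟨s, ε * w, A' * t, j₀, m6.trans m3, by linarith, by linarith,
    Real.exp_le_exp.2 (by linarith), fun p hp' => ⟨?_, le_trans ?_ (H p hp')⟩⟩
  · linarith [tri p, (lip _ m1 p (m6 hp')).trans m2]
  · refine le_trans ?_ (mul_le_mul_of_nonneg_right e4 (Real.exp_pos _).le)
    rw [← Real.exp_add, Real.exp_le_exp]
    linarith

end Pool.Agent.P.MP_d2ed07_lc
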