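import Pool.Agent.P.MP_d2ed07_lc.Basic2

/-!
The first case: a root of the weighted initial form with positive real part.
-/

namespace Pool.Agent.P.MP_d2ed07_lc

open MvPolynomial Metric Filter Topology

theorem case1a_rou {n : ℕ} {P : MP n} {v p : Cn n} {τ₀ w : ℂ} {R σ : ℝ} (hR : 0 < R) (hw : w ≠ 0)
    (h : (∃ t, ‖t - τ₀‖ < σ ∧ eval (p + ((R : ℂ) * t) • v) P / w = 0) ∧
      ∀ t, ‖t - τ₀‖ = σ → eval (p + ((R : ℂ) * t) • v) P / w ≠ 0) :
    Rou P v p (R * τ₀) (R * σ) := by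
  have hR' : (R : ℂ) ≠ 0 := by exact_mod_cast hR.ne'
  have hn : ∀ t : ℂ, ‖(R : ℂ) * t‖ = R * ‖t‖ := fun t => by
    rw [norm_mul, Complex.norm_real, Real.norm_of_nonneg hR.le]
  obtain ⟨⟨t, ht, ht'⟩, H2⟩ := h
  refine ⟨⟨R * t, ?_, (div_eq_zero_iff.1 ht').resolve_right hw⟩,
    fun τ hτ' h0 => H2 (τ / R) ?_ ?_⟩
  · rw [← mul_sub, hn]; exact mul_lt_mul_of_pos_left ht hR
  · apply mul_left_cancel₀ hR.ne'
    rw [← hn, mul_sub, mul_div_cancel₀ _ hR', hτ']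
  · simp only [mul_div_cancel₀ _ hR', h0, zero_div]

theorem t_case1a (hscale : T_SCALE) (hhur : T_HUR) : T_CASE1A := by
  intro n F _ _ D A Q E g v s τ₀ hv hA has h0 ⟨τ₁, h1⟩ hτ
  have hq : ∀ t, ((lin (cQ v) Q).map (eval (iR s))).eval t = eval (iR s + t • cQ v) Q :=
    fun t => by rw [← ev1_eq, lin_eval]
  obtain ⟨σ, κ, hσ, hσ', hκ, H⟩ := hhur ((lin (cQ v) Q).map (eval (iR s))) τ₀ (τ₀.re / 2)
    (fun h => h1 (by rw [← hq, h, Polynomial.eval_zero])) (by rw [hq, h0]) (by positivity)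
  obtain ⟨K, hK⟩ : ∃ K, K = ‖s‖ + 1 + (‖τ₀‖ + σ) * ‖cQ v‖ := ⟨_, rfl⟩
  obtain ⟨C, hC, hh⟩ := has K
  obtain ⟨δ, hδ, hu⟩ := Metric.uniformContinuousOn_iff.1
    ((isCompact_closedBall (0 : Cn n) K).uniformContinuousOn_of_continuous
      (continuous_eval' Q).continuousOn) (κ / 2) (by positivity)
  have hα : (0 : ℝ) < ((2 * (E + 1) : ℕ) : ℝ)⁻¹ := by positivity
  have hδ' := lt_min hδ one_pos
  refine hscale n F D v _ hv hα ?_
  filter_upwards [eventually_ge_atTop 1, eventually_ge_atTop (‖τ₀‖ + σ),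
    eventually_ge_atTop (‖s‖ + 1), (tendsto_rpow_atTop hα).eventually_ge_atTop 1,
    (tendsto_rpow_atTop hα).eventually_ge_atTop (2 / τ₀.re),
    (tendsto_rpow_atTop hα).eventually_ge_atTop (2 * C / κ),
    (tendsto_rpow_atTop hα).eventually_ge_atTop (1 / min δ 1)] with R hR1 hR2 hR3 r1 r2 r3 r4
  have hR0 : 0 < R := by linarith
  have r5 := Real.rpow_inv_natCast_pow hR0.le (n := 2 * (E + 1)) (by omega)
  generalize R ^ ((2 * (E + 1) : ℕ) : ℝ)⁻¹ = ρ at *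
  obtain ⟨T, hT⟩ : ∃ T, T = ρ ^ 2 := ⟨_, rfl⟩
  rw [pow_mul, ← hT] at r5
  have t0 : ρ ≤ T := by nlinarith
  have t1 : 1 ≤ T := by linarith
  have t2 : T ≤ R := r5 ▸ le_self_pow₀ t1 (by omega)
  have t3 : (T : ℂ) ≠ 0 := by exact_mod_cast (by linarith : T ≠ 0)
  have t4 : (T : ℂ) ^ E ≠ 0 := pow_ne_zero _ t3
  have t5 : ‖(T : ℂ)‖ = T := by rw [Complex.norm_real, Real.norm_of_nonneg (by linarith)]
  have t6 : 1 ≤ ‖(T : ℂ) ^ E‖ := by rw [norm_pow, t5]; exact one_le_pow₀ t1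
  have t7 : (T : ℂ) ^ E * T = R := by rw [← pow_succ, ← r5]; simp
  refine ⟨dil A ((T : ℂ) ^ E) ((T : ℂ) • iR s), R * τ₀, R * σ, ?_, ?_, ?_, fun p hp => ⟨?_, ?_⟩⟩
  · simpa using ((imag_iR s).smul T).dil (A := A) (T ^ E)
  · rw [Complex.re_ofReal_mul]
    rw [div_le_iff₀ hτ] at r2
    nlinarith [mul_le_mul_of_nonneg_left hσ' hR0.le, mul_le_mul_of_nonneg_right t2 hτ.le]
  · rw [norm_mul, Complex.norm_real, Real.norm_of_nonneg hR0.le, ← mul_add, pow_two]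
    gcongr
  · rw [mem_ball, dist_eq_norm] at hp
    have h2 := norm_sub_norm_le p (dil A ((T : ℂ) ^ E) ((T : ℂ) • iR s))
    have h3 := norm_dil_le (A := A) t6 ((T : ℂ) • iR s)
    rw [norm_smul, ← mul_assoc, ← norm_mul, t7, norm_iR, Complex.norm_real,
      Real.norm_of_nonneg hR0.le] at h3
    have h4 : R * (‖s‖ + 1) ≤ R * R := by gcongr
    nlinarith
  refine case1a_rou hR0 (pow_ne_zero g t3) (H _ (((differentiable_eval D.P).comp
    (f := fun t : ℂ => p + ((R : ℂ) * t) • cQ v) (by fun_prop)).div_const _) fun t ht => ?_)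
  rw [mem_ball, dist_eq_norm] at hp
  obtain ⟨u, hu'⟩ : ∃ u, u = (T : ℂ)⁻¹ • dil A ((T : ℂ) ^ E)⁻¹ p := ⟨_, rfl⟩
  have e1 : p + ((R : ℂ) * t) • cQ v = dil A ((T : ℂ) ^ E) ((T : ℂ) • (u + t • cQ v)) := by
    rw [smul_add, hu', smul_inv_smul₀ t3, smul_smul, dil_add_smul hA.cQ, dil_dil,
      mul_inv_cancel₀ t4, dil_one, ← mul_assoc, t7]
  have e2 : ‖u - iR s‖ < min δ 1 := by
    have : u - iR s =
        (T : ℂ)⁻¹ • dil A ((T : ℂ) ^ E)⁻¹ (p - dil A ((T : ℂ) ^ E) ((T : ℂ) • iR s)) := by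
      rw [dil_sub, dil_dil, inv_mul_cancel₀ t4, dil_one, smul_sub, inv_smul_smul₀ t3, hu']
    rw [this, norm_smul, norm_inv, t5, inv_mul_lt_iff₀ (by linarith)]
    refine ((norm_dil_le' (by rw [norm_inv]; exact inv_le_one_of_one_le₀ t6) _).trans_lt
      hp).trans_le ?_
    rw [div_le_iff₀ hδ'] at r4
    nlinarith
  have e3 : ‖t • cQ v‖ ≤ (‖τ₀‖ + σ) * ‖cQ v‖ := by
    rw [norm_smul]
    exact mul_le_mul_of_nonneg_right (by linarith [norm_sub_norm_le t τ₀]) (norm_nonneg _)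
  have e4 : ‖u + t • cQ v‖ ≤ K := by
    have h1 := norm_add_le u (t • cQ v)
    have h2 := norm_sub_norm_le u (iR s)
    rw [norm_iR] at h2
    linarith [min_le_right δ 1]
  have e5 : ‖iR s + t • cQ v‖ ≤ K := by
    have h1 := norm_add_le (iR s) (t • cQ v)
    rw [norm_iR] at h1
    linarith
  have f1 := hh T _ t1 e4
  have f2 := hu _ (mem_closedBall_zero_iff.2 e4) _ (mem_closedBall_zero_iff.2 e5) (by
    rw [dist_eq_norm, add_sub_add_right_eq_sub]; exact e2.trans_le (min_le_left _ _))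
  rw [dist_eq_norm] at f2
  have f3 : C / T ≤ κ / 2 := by
    rw [div_le_iff₀ hκ] at r3
    rw [div_le_div_iff₀ (by linarith) two_pos]; nlinarith
  rw [hq]
  simp only [e1]
  have := norm_sub_le_norm_sub_add_norm_sub
    (eval (dil A ((T : ℂ) ^ E) ((T : ℂ) • (u + t • cQ v))) D.P / (T : ℂ) ^ g)
    (eval (u + t • cQ v) Q) (eval (iR s + t • cQ v) Q)
  linarith

end Pool.Agent.P.MP_d2ed07_lc
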