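import Pool.Agent.P.MP_d2ed07_lc.Basic2
import Pool.Agent.P.MP_d2ed07_lc.SC1

/-!
Nearly linear sheets give a solution.
-/

namespace Pool.Agent.P.MP_d2ed07_lc

open MvPolynomial Metric Filter Topology

variable {n : ℕ} {A : Finset (Fin n)}

theorem case2a_big {γ e : ℝ} (hγ : 0 < γ) (he : 0 < e) :
    ∀ᶠ r : ℝ in atTop, 1 ≤ Real.log r ∧ (r ^ (1 - γ) + Real.log r) * Real.log r ≤ e * r := by
  have h1 := (isLittleO_log_rpow_atTop hγ).bound (half_pos he)
  have h2 := (Real.isLittleO_pow_log_id_atTop (n := 2)).bound (half_pos he)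
  filter_upwards [h1, h2, Real.tendsto_log_atTop.eventually_ge_atTop 1, eventually_gt_atTop 0]
    with r h1 h2 h3 h4
  have h5 : r ^ (1 - γ) * r ^ γ = r := by rw [← Real.rpow_add h4]; simp
  have h6 := Real.rpow_pos_of_pos h4 (1 - γ)
  rw [Real.norm_of_nonneg (by linarith), Real.norm_of_nonneg (Real.rpow_pos_of_pos h4 γ).le] at h1
  rw [Real.norm_of_nonneg (by positivity), id, Real.norm_of_nonneg h4.le] at h2
  exact ⟨h3, by nlinarith [mul_le_mul_of_nonneg_left h1 h6.le]⟩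

theorem case2a_dr_sub (ν : Fin n → ℝ) (u u' : Cn n) : dr ν (u - u') = dr ν u - dr ν u' := by
  simp [dr, mul_sub, Finset.sum_sub_distrib]

/-- the contraction of the coordinates outside `A` -/
noncomputable def case2a_e (A : Finset (Fin n)) (M : ℝ) (x p : Cn n) : Cn n :=
  fun i => if i ∈ A then x i else p i / M

theorem case2a_norm {M : ℝ} (hM : 0 < M) (x p p' : Cn n) :
    M * ‖case2a_e A M x p - case2a_e A M x p'‖ ≤ ‖p - p'‖ := by
  rw [← le_div_iff₀' hM]
  refine (pi_norm_le_iff_of_nonneg (by positivity)).2 fun i => ?_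
  by_cases h : i ∈ A
  · simp only [case2a_e, Pi.sub_apply, if_pos h, sub_self, norm_zero]
    positivity
  · simp only [case2a_e, Pi.sub_apply, if_neg h, ← sub_div, norm_div, Complex.norm_real,
      Real.norm_of_nonneg hM.le]
    exact div_le_div_of_nonneg_right (norm_le_pi_norm (p - p') i) hM.le

theorem case2a_dil {M : ℝ} (hM : 0 < M) (x : Cn n) : case2a_e A M x (dil A M x) = x := by
  have : (M : ℂ) ≠ 0 := by exact_mod_cast hM.ne'
  funext i
  by_cases h : i ∈ A <;> simp [case2a_e, dil, h, this]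

theorem case2a_add {V : Cn n} (hV : Off A V) (M : ℝ) (x p : Cn n) (t : ℂ) :
    case2a_e A M x (p + t • V) = case2a_e A M x p + (t / M) • V := by
  funext i
  by_cases h : i ∈ A
  · simp [case2a_e, h, hV i h]
  · simp only [case2a_e, if_neg h, Pi.add_apply, Pi.smul_apply, smul_eq_mul]
    ring

theorem case2a_dr {M : ℝ} (hM : 0 < M) (ν : Fin n → ℝ) (x p p' : Cn n) :
    dr (cut A ν) (p - p') = M * dr ν (case2a_e A M x p - case2a_e A M x p') := by
  have : (M : ℂ) ≠ 0 := by exact_mod_cast hM.ne'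
  rw [dr, dr, Finset.mul_sum]
  refine Finset.sum_congr rfl fun i _ => ?_
  by_cases h : i ∈ A
  · simp [case2a_e, cut, h]
  · simp only [case2a_e, cut, if_neg h, Pi.sub_apply]
    field_simp

theorem case2a_diff (M : ℝ) (x : Cn n) : Differentiable ℂ (case2a_e A M x) := by
  refine differentiable_pi.2 fun i => ?_
  by_cases h : i ∈ A
  · simp only [case2a_e, if_pos h]; fun_prop
  · simp only [case2a_e, if_neg h]; fun_prop

theorem case2a_two (N : ℕ) {u : ℕ × ℕ} (hu : u ∈ sq (N + 1)) (h0 : u ≠ 0) (c : ℂ) :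
    ∃ a : ℕ × ℕ → ℂ, (∃ ab ∈ sq (N + 1), a ab ≠ 0) ∧
      ∀ f : ℕ × ℕ → ℂ, ∑ ab ∈ sq (N + 1), a ab * f ab = f u - c * f 0 := by
  refine ⟨Pi.single u 1 - Pi.single 0 c, ⟨u, hu, by simp [h0]⟩, fun f => ?_⟩
  have : (0 : ℕ × ℕ) ∈ sq (N + 1) := by simp [sq]
  simp [sub_mul, Pi.single_apply, hu, this]

theorem t_case2a (hvrel : T_VREL) (hvtrop : T_VTROP) (hadapt : T_ADAPT) (hr2 : T_R2)
    (hstrip : T_STRIP) (hrelv : T_RELV) (halgb : T_ALGB) (helim : T_ELIM) (haeng : T_AENG) :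
    T_CASE2A := by
  classical
  intro n F _ _ D A v ν hcur halg hray hoff hv hden ⟨γ, γ0, hsh⟩
  have hV := hoff.cQ
  obtain ⟨N, c, hrel⟩ := hvrel n F D hcur
  obtain ⟨S₀, C₀, g₀, hC₀, hc₀, htrop⟩ := hvtrop n F D N c hrel
  obtain ⟨l, hl⟩ := hadapt n (cut A ν) (insert v (dirs n (N + 1)))
  have had : Adapt (N + 1) (cut A ν) l := fun d hd =>
    ⟨(hl d (Finset.mem_insert_of_mem hd)).1.2, (hl d (Finset.mem_insert_of_mem hd)).2.2⟩
  have hlA : Off A l := fun i hi => by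
    have h1 := had _ (single_mem_dirs _ i)
    have h2 : dq (cut A ν) (Pi.single i 1) = 0 := by simp [dq, Pi.single_apply, apply_ite, cut, hi]
    rw [dz_single, h2] at h1
    exact_mod_cast le_antisymm (not_lt.1 fun h => lt_irrefl _ (h1.1 h))
      (not_lt.1 fun h => lt_irrefl _ (h1.2 h))
  have hna : ¬ D.Alg (mon D.y l) := fun h =>
    ((hl v (Finset.mem_insert_self _ _)).1.1 (by rw [hoff.dq_cut, hv]; exact one_pos)).ne'
      (hr2 n F D v l hray h)
  obtain ⟨S₁, C, ε, η, g₁, C0, ε0, η0, hst⟩ := hstrip n F D hcur l hna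
  obtain ⟨cr, cr0, cr1, hcr⟩ := hrelv η η0
  obtain ⟨S₂, C₂, g₂, hC₂, a1, -, a3⟩ := halgb n F D A halg
  obtain ⟨δ, δ0, heng⟩ := haeng n v (cut A ν) l (N + 1) C ε (C₀ + C₂) C0 ε0 (by linarith) had hden
  obtain ⟨N₁, hN₁, hsh⟩ := hsh (S₀ ∪ S₁ ∪ S₂) ((g₀.union g₁).union g₂)
  obtain ⟨b, hb⟩ : ∃ b, b = ∑ i, |ν i| := ⟨_, rfl⟩
  have b0 : 0 ≤ b := hb ▸ Finset.sum_nonneg fun i _ => abs_nonneg _
  obtain ⟨d, ⟨d1, d2, d3⟩, d0⟩ := (((sc1_small (200 * C₂ * N₁) one_pos).and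
    ((sc1_small (64 * b * C₂ * N₁) δ0).and (sc1_small (8 * (1 + 13 * C₂ * N₁ * (b + δ) + N₁))
      δ0))).and self_mem_nhdsWithin).exists
  have d0 : 0 < d := d0
  obtain ⟨r₀, hr₀⟩ := eventually_atTop.1 ((case2a_big γ0 (e := d * cr / N₁) (by positivity)).and
    (eventually_gt_atTop 0))
  obtain ⟨r, M, x, τ, hr, hM, hx, hS, hnl, hτx⟩ := hsh (δ / 4) r₀ (by positivity)
  obtain ⟨⟨l1, hbig⟩, r0⟩ := hr₀ r hr
  have u0 := (Real.rpow_pos_of_pos r0 (1 - γ)).le
  generalize r ^ (1 - γ) = u at hbig hτx u0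
  generalize Real.log r = lg at l1 hbig hS
  obtain ⟨L, eL⟩ : ∃ L, L = N₁ * lg := ⟨_, rfl⟩
  obtain ⟨r', er⟩ : ∃ r', r' = cr * r / L := ⟨_, rfl⟩
  obtain ⟨K, eK⟩ : ∃ K, K = C₂ * L := ⟨_, rfl⟩
  rw [← eL] at hS
  have L1 : 1 ≤ L := eL ▸ one_le_mul_of_one_le_of_one_le hN₁ l1
  have K1 : 1 ≤ K := eK ▸ one_le_mul_of_one_le_of_one_le hC₂ L1
  have M0 : 0 < M := one_pos.trans_le hM
  have M0' : (M : ℂ) ≠ 0 := by exact_mod_cast M0.ne'
  have r'0 : 0 < r' := er ▸ by positivity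
  have r'r : r' ≤ r := by
    rw [er, div_le_iff₀ (by linarith)]
    nlinarith
  have q0 : u + lg ≤ d * r' := by
    refine le_of_mul_le_mul_right (hbig.trans_eq ?_) (by linarith : 0 < lg)
    rw [er, eL]
    field_simp
  have q1 : 200 * K ≤ r' := by
    have := mul_le_mul_of_nonneg_left (show lg ≤ d * r' by linarith)
      (show 0 ≤ 200 * C₂ * N₁ by positivity)
    rw [eK, eL]
    nlinarith [mul_le_mul_of_nonneg_right d1 r'0.le]
  have q2 : b * (32 * K / r') ≤ δ / 2 := by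
    have := mul_le_mul_of_nonneg_left (show lg ≤ d * r' by linarith)
      (show 0 ≤ 64 * b * C₂ * N₁ by positivity)
    rw [← mul_div_assoc, div_le_iff₀ r'0, eK, eL]
    nlinarith [mul_le_mul_of_nonneg_right d2 r'0.le]
  have q3 : u + 13 * K * (b + δ) + L ≤ δ * (r' / 8) := by
    have h1 : 0 ≤ 13 * C₂ * N₁ * (b + δ) + N₁ := by positivity
    have := mul_le_mul_of_nonneg_left q0 (show 0 ≤ 1 + 13 * C₂ * N₁ * (b + δ) + N₁ by positivity)
    rw [eK, eL]
    nlinarith [mul_le_mul_of_nonneg_right d3 r'0.le, mul_nonneg h1 u0]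
  clear d1 d2 d3 q0 hbig hr₀ hsh
  have hB : ball x r' ⊆ ball x r := ball_subset_ball r'r
  have hB2 : ball x (r' / 2) ⊆ ball x r' := ball_subset_ball (by linarith)
  have hζ := hS.differentiableOn_zt
  have x0 : x ∈ ball x r' := mem_ball_self r'0
  have T0 := fun q hq => ((hS.2.1 q (hB hq)).2.subset Finset.subset_union_left).subset
    Finset.subset_union_left
  have T1 := fun q hq => ((hS.2.1 q hq).2.subset Finset.subset_union_left).subset
    Finset.subset_union_right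
  have T2 := fun q hq => (hS.2.1 q (hB hq)).2.subset Finset.subset_union_right
  obtain ⟨θ, j, w, hw, hE, hosc⟩ := hst (ball x r') x (zt A M (cQ v) τ) (convex_ball _ _)
    isOpen_ball x0 (hζ.mono hB) (fun p hp => (hS.2.1 p (hB hp)).1) fun g hg =>
      ⟨(T1 x (hB x0)).ne_zero hg, fun p hp => hcr n (fun p => eval (zt A M (cQ v) τ p) g) x r L r0 L1
        ((differentiable_eval g).comp_differentiableOn hζ) (fun p hp => T1 p hp g hg) p (er ▸ hp)⟩
  have θ0 : θ * Complex.I ∈ strip θ ε := by simpa using sc1_mem0 (θ := θ) ε0 0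
  have hom : DifferentiableOn ℂ (fun q => w (q, θ * Complex.I)) (ball x r') :=
    hw.comp (by fun_prop) fun q hq => ⟨hq, θ0⟩
  have hre : ∀ q ∈ ball x r', ∀ t ∈ strip θ ε, ∀ i ∈ A, |(w (q, t) i).re| ≤ K := fun q hq t ht =>
    eK ▸ a1 _ _ L L1 (hE q hq t ht).1 (T2 q hq)
  obtain ⟨k, ψ, hψ, hk⟩ := helim n A _ x r' K K1 q1 hx hom fun q hq => hre q hq _ θ0
  have inv : ∀ e ∈ ball x (r' / 8), ∀ s : ℂ, e + s • cQ v ∈ ball x (r' / 8) →
      ψ e + s • cQ v ∈ ball x (r' / 2) ∧ ψ (e + s • cQ v) = ψ e + s • cQ v := fun e he s hs => by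
    obtain ⟨k1, k2, k3, k4, -⟩ := hk e he
    have h1 : ψ e + s • cQ v ∈ ball x (r' / 2) := by
      have := norm_add_le (ψ e - e) (e + s • cQ v - x)
      rw [mem_ball_iff_norm] at hs ⊢
      rw [show ψ e - e + (e + s • cQ v - x) = ψ e + s • cQ v - x by abel] at this
      linarith
    have h2 : ∀ a ∈ Set.Icc (0 : ℝ) 1, ψ e + ((a : ℂ) * s) • cQ v ∈ ball x r' := fun a ha => by
      rw [mul_smul, Complex.coe_smul]
      exact (convex_ball x r').add_smul_mem (hB2 k1) (hB2 h1) ha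
    refine ⟨h1, ((hk _ hs).2.2.2.2.2 _ h1 (fun j hj => by simp [k2 j hj]) fun i hi => ?_).symm⟩
    have := a3 ℝ (Set.Icc 0 1) _ (fun a => w (ψ e + ((a : ℂ) * s) • cQ v, θ * Complex.I))
      isPreconnected_Icc (hom.continuousOn.comp (by fun_prop) h2)
      (fun g hg => (T2 _ (hB2 k1)).ne_zero hg)
      (fun a ha => hS.zt_inv hV (hB (hB2 k1)) (hB (h2 a ha)) ▸ (hE _ (h2 a ha) _ θ0).1)
      i hi 1 (by simp) 0 (by simp)
    simp only [Complex.ofReal_one, one_mul, Complex.ofReal_zero, zero_mul, zero_smul,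
      add_zero] at this
    simp only [this, Pi.add_apply, Pi.smul_apply, hV i hi, smul_zero, add_zero]
    exact k3 i hi
  obtain ⟨e, he⟩ : ∃ e, e = case2a_e A M x := ⟨_, rfl⟩
  have e0 : e (dil A M x) = x := he ▸ case2a_dil M0 x
  have e1 : ∀ p p', M * ‖e p - e p'‖ ≤ ‖p - p'‖ := he ▸ case2a_norm M0 x
  have e2 : ∀ p ∈ ball (dil A M x) (M * (r' / 8)), e p ∈ ball x (r' / 8) := fun p hp => by
    have := e1 p (dil A M x)
    rw [e0] at this
    rw [mem_ball_iff_norm] at hp ⊢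
    exact lt_of_mul_lt_mul_left (this.trans_lt hp) M0.le
  have e3 : ∀ p ∈ ball (dil A M x) (M * (r' / 8)), ψ (e p) ∈ ball x r' := fun p hp =>
    hB2 (hk _ (e2 p hp)).1
  have e4 : DifferentiableOn ℂ (fun p => ψ (e p)) (ball (dil A M x) (M * (r' / 8))) :=
    hψ.comp (he ▸ (case2a_diff M x).differentiableOn) e2
  have X0 : dil A M x ∈ ball (dil A M x) (M * (r' / 8)) := mem_ball_self (by positivity)
  have nM : ∀ a a' : Cn n, ∀ z : ℂ, ‖τ a - τ a' + M * z‖ = M * ‖τ a / M - τ a' / M + z‖ :=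
    fun a a' z => by
      rw [show τ a - τ a' + M * z = M * (τ a / M - τ a' / M + z) by field_simp, norm_mul,
        Complex.norm_real, Real.norm_of_nonneg M0.le]
  have H := heng (dil A M x) (M * (r' / 8)) L θ j (fun p => τ (ψ (e p)))
    (fun z i => if i ∈ A then dil A M x i else w (ψ (e z.1), z.2) i) (hx.dil M) L1
    (hS.1.comp e4 fun p hp => hB (e3 p hp)) (fun p hp t ht => ?_) (fun p hp p' hp' => ?_) ?_
    (differentiableOn_pi.2 fun i => ?_) (fun p hp t ht => ?_)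
    (fun p hp p' hp' t ht t' ht' h i => ?_) (fun t ht => ?_) fun p hp i i' => ?_
  · obtain ⟨p, hp, t, ht, k', hk'⟩ := H
    refine D.sol_of_shift (hE _ (e3 p hp) t ht).1 (fun i => if i ∈ A then k i else k' i)
      (funext fun i => ?_)
    obtain ⟨-, k2, k3, -⟩ := hk _ (e2 p hp)
    by_cases hi : i ∈ A
    · have h1 := a3 ℂ (strip θ ε) _ (fun t => w (ψ (e p), t)) (convex_strip θ ε).isPreconnected
        (hw.continuousOn.comp (by fun_prop) fun t ht => ⟨e3 p hp, ht⟩)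
        (fun g hg => (T2 _ (e3 p hp)).ne_zero hg) (fun t ht => (hE _ (e3 p hp) t ht).1)
        i hi _ θ0 t ht
      have h2 : e p i = x i := by rw [he, case2a_e, if_pos hi]
      simp only [zt, cZ, Pi.add_apply, Pi.smul_apply, dil_mem hi, hV i hi, smul_eq_mul, if_pos hi]
      rw [← h1, mul_zero, add_zero, k3 i hi, h2, sub_self, add_zero]
    · have h1 := congrFun hk' i
      have h2 : M * e p i = p i := by rw [he, case2a_e, if_neg hi]; field_simp
      simp only [zt, cZ, Pi.add_apply, Pi.smul_apply, dil_not_mem hi, if_neg hi, k2 i hi, h2] at h1 ⊢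
      exact h1
  · have h1 : e (p + t • cQ v) = e p + (t / M) • cQ v := he ▸ case2a_add hV M x p t
    obtain ⟨h2, h3⟩ := inv _ (e2 p hp) _ (h1 ▸ e2 _ ht)
    simp only [h1, h3]
    rw [hS.2.2 _ (hB (e3 p hp)) _ (hB (hB2 h2)), mul_div_cancel₀ _ M0']
  · obtain ⟨h1, h2⟩ := (hk _ (e2 p hp)).2.2.2.2.1 _ (e2 p' hp')
    have h3 := hnl _ (hB (e3 p hp)) _ (hB (e3 p' hp'))
    have h4 := norm_dr_le ν (ψ (e p) - e p - (ψ (e p') - e p'))
    have h5 := norm_sub_le (τ (ψ (e p)) / M - τ (ψ (e p')) / M + dr ν (ψ (e p) - ψ (e p')))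
      (dr ν (ψ (e p) - e p - (ψ (e p') - e p')))
    rw [sub_sub_sub_comm, case2a_dr_sub ν _ (e p - e p'), add_sub_assoc, sub_sub_cancel,
      ← case2a_dr_sub, ← sub_sub_sub_comm] at h5
    rw [case2a_dr M0 ν x, ← he, nM]
    refine le_trans ?_ (mul_le_mul_of_nonneg_left (e1 p p') δ0.le)
    rw [mul_left_comm]
    refine mul_le_mul_of_nonneg_left ?_ M0.le
    rw [← hb] at h4
    have h6 := mul_le_mul_of_nonneg_left h2 b0
    have h7 := mul_le_mul_of_nonneg_right q2 (norm_nonneg (e p - e p'))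
    have h8 := mul_le_mul_of_nonneg_left h1 δ0.le
    linarith
  · obtain ⟨k1, -, -, k4, -⟩ := hk x (mem_ball_self (by positivity))
    have h3 := hnl _ (hB (hB2 k1)) _ (hB x0)
    have h4 := norm_dr_le ν (ψ x - x)
    have h5 := norm_sub_le (τ (ψ x) / M - τ x / M + dr ν (ψ x - x)) (dr ν (ψ x - x))
    have h6 := nM (ψ x) x 0
    have h7 := norm_le_norm_add_norm_sub' (τ (ψ x)) (τ x)
    rw [← hb] at h4
    rw [add_sub_cancel_right] at h5
    rw [mul_zero, add_zero, add_zero] at h6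
    have h8 : ‖τ (ψ x) / M - τ x / M‖ ≤ 13 * K * (b + δ) := by
      have h9 := mul_le_mul_of_nonneg_left k4 b0
      have h10 := mul_le_mul_of_nonneg_left k4 δ0.le
      have h11 := mul_nonneg δ0.le (norm_nonneg (ψ x - x))
      linarith
    have h9 := mul_le_mul_of_nonneg_left h8 M0.le
    have h10 := mul_le_mul_of_nonneg_left q3 M0.le
    have h11 := mul_le_mul_of_nonneg_right hM (zero_le_one.trans L1)
    simp only [e0]
    linarith
  · by_cases hi : i ∈ A
    · simp only [if_pos hi]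
      exact differentiableOn_const _
    · simp only [if_neg hi]
      exact differentiableOn_pi.1 (hw.comp (((e4.comp differentiableOn_fst fun z hz => hz.1)).prodMk
        differentiableOn_snd) fun z hz => ⟨e3 _ hz.1, hz.2⟩) i
  · exact (hlA.dz_congr fun i hi => if_neg hi).trans (hE _ (e3 p hp) t ht).2
  · by_cases hi : i ∈ A
    · simpa [hi] using C0
    · simp only [if_neg hi]
      exact hosc _ (e3 p hp) _ (e3 p' hp') t ht t' ht' h i
  · obtain ⟨dd, h1, s, h2, h3⟩ := htrop _ _ L L1 (hE _ (e3 _ X0) t ht).1 (T0 _ (e3 _ X0))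
    refine ⟨dd, dirs_mono N h1, s, h2, fun i => ?_⟩
    have h4 := abs_le.1 (h3 i)
    by_cases hi : i ∈ A
    · have h5 := abs_le.1 (hre _ (e3 _ X0) t ht i hi)
      simp only [if_pos hi, hx.dil M i]
      rw [abs_le]
      constructor <;> linarith
    · simp only [if_neg hi]
      rw [abs_le]
      constructor <;> linarith
  · by_cases hi : i ∈ A
    · obtain ⟨a, h1, h2⟩ := case2a_two N (u := (1, 0)) (by simp [sq]) (by simp)
        (Complex.exp (dil A M x i))
      exact ⟨a, h1, fun t _ => by rw [h2]; simp [hi]⟩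
    by_cases hi' : i' ∈ A
    · obtain ⟨a, h1, h2⟩ := case2a_two N (u := (0, 1)) (by simp [sq]) (by simp)
        (Complex.exp (dil A M x i'))
      exact ⟨a, h1, fun t _ => by rw [h2]; simp [hi']⟩
    obtain ⟨ab, h1, h2⟩ := hc₀ i i'
    refine ⟨fun ab => if ab ∈ sq N then eval (zt A M (cQ v) τ (ψ (e p))) (c i i' ab) else 0,
      ⟨ab, sq_mono N h1, by simpa only [if_pos h1] using (T0 _ (e3 p hp)).ne_zero h2⟩,
      fun t ht => ?_⟩
    rw [← Finset.sum_subset (sq_mono N) fun ab _ h => by simp only [if_neg h, zero_mul],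
      ← hrel.2.2 _ _ (hE _ (e3 p hp) t ht).1 i i']
    exact Finset.sum_congr rfl fun ab h => by simp only [if_pos h, if_neg hi, if_neg hi']

end Pool.Agent.P.MP_d2ed07_lc
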