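import Pool.Agent.P.MP_d2ed07_lc.Basic2

/-!
The case of a sheet close to a rational hyperplane.
-/

namespace Pool.Agent.P.MP_d2ed07_lc

open MvPolynomial Metric Filter Topology

theorem case3a_ev (r₀ r₁ C G γ δ : ℝ) (hC : 0 < C) (hγ : 0 < γ) (hδ : 0 < δ) :
    ∃ R : ℝ, ∀ r, R ≤ r → r₀ ≤ r ∧ r₁ ≤ r / 16 ∧ 256 ≤ r ∧ C * Real.log r ≤ r ∧ G < r / 16 ∧
      32 * r ^ (-γ) ≤ δ := by
  refine eventually_atTop.1 ?_
  filter_upwards [eventually_ge_atTop r₀, eventually_ge_atTop (16 * r₁), eventually_ge_atTop 256,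
    Real.isLittleO_log_id_atTop.bound (inv_pos.2 hC), eventually_gt_atTop (16 * G),
    (tendsto_rpow_neg_atTop hγ).eventually (ge_mem_nhds (show (0 : ℝ) < δ / 32 by positivity))]
    with r h1 h2 h3 h4 h5 h6
  refine ⟨h1, by linarith, h3, ?_, by linarith, by linarith⟩
  rw [id, Real.norm_of_nonneg (by linarith : 0 ≤ r), ← le_div_iff₀' hC, div_eq_inv_mul] at *
  exact (Real.le_norm_self _).trans h4

theorem case3a_der (hcl : T_CL) {n : ℕ} (A : Finset (Fin n)) (f : Cn n → ℂ) (x p : Cn n)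
    {r M B : ℝ} (hr : 0 < r) (hM : 1 ≤ M) (hf : DifferentiableOn ℂ f (ball x (r / 8)))
    (hb : ∀ e ∈ ball x (r / 8), ‖f e‖ ≤ M * B) (hp : x + dil A (M : ℂ)⁻¹ p ∈ ball x (r / 16))
    {j : Fin n} (hj : j ∉ A) :
    ‖fderiv ℂ (fun q => f (x + dil A (M : ℂ)⁻¹ q)) p (uv j)‖ ≤ 32 * (B / r) := by
  let dl : Cn n →L[ℂ] Cn n := LinearMap.toContinuousLinearMap
    { toFun := dil A (M : ℂ)⁻¹, map_add' := dil_add _, map_smul' := fun t q => dil_smul _ t q }
  have h1 : HasFDerivAt (fun q => x + dil A (M : ℂ)⁻¹ q) dl p := dl.hasFDerivAt.const_add x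
  have h2 := (hf.differentiableAt (isOpen_ball.mem_nhds
    (ball_subset_ball (by linarith) hp))).hasFDerivAt.comp p h1
  have h3 := (hcl _ _ f x (r / 8) (M * B) (by positivity) hf hb).1 _
    (by rwa [show r / 8 / 2 = r / 16 by ring])
  have h4 : Off A (uv j) := fun i hi => Pi.single_eq_of_ne (fun e : i = j => hj (e ▸ hi)) _
  have h5 : dl (uv j) = (M : ℂ)⁻¹ • uv j := h4.dil _
  have h0 : 0 < M := by linarith
  rw [show (fun q => f (x + dil A (M : ℂ)⁻¹ q)) = f ∘ fun q => x + dil A (M : ℂ)⁻¹ q from rfl,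
    h2.fderiv, ContinuousLinearMap.comp_apply, h5, map_smul, norm_smul, norm_inv,
    Complex.norm_real, Real.norm_of_nonneg h0.le, inv_mul_le_iff₀ h0]
  refine ((ContinuousLinearMap.le_opNorm _ _).trans_eq (by rw [norm_uv, mul_one])).trans
    (h3.trans_eq ?_)
  field_simp
  ring

theorem t_case3a (hr2 : T_R2) (hfin3 : T_FIN3) (hsqf : T_SQF) (hdisc : T_DISC) (hball : T_BALL)
    (halgb : T_ALGB) (helim : T_ELIM) (hcl : T_CL) : T_CASE3A := by
  classical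
  intro n F _ _ D A v m k hc hfr hmf hA hray hv hm hk hmv ⟨hV, γ, N₁, hγ, hSh⟩
  have m0 : m ≠ 0 := fun e => by simp [e, dz] at hk
  obtain ⟨h, S₃, K, hh, g₃, hK, H₃⟩ := hfin3 n F D A v m k hc hA
    (fun ha => hmv (hr2 n F D v m hray ha)) hm hv hk hmv
  obtain ⟨h₁, q, d₁, c, a, e, hs, hcP, hq⟩ := hsqf n D.P h D.prime hh
  obtain ⟨Sd, G, N', δ, gd, hN', hδ, Hd⟩ := hdisc n F D A (cQ v) m h₁ d₁ (2 * N₁) hA hfr hmf m0 hm
    hv.cQ hV hs
  obtain ⟨Sr, Cr, gr, hCr, Hr⟩ := hray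
  obtain ⟨S₂, C₂, g₂, hC₂, H₂, -⟩ := halgb n F D A hA
  obtain ⟨S, gS, s₃, sd, sr, s₂, sc, sh⟩ : ∃ S, Good D.P S ∧ S₃ ⊆ S ∧ Sd ⊆ S ∧ Sr ⊆ S ∧ S₂ ⊆ S ∧
      c ∈ S ∧ ∀ j, ¬ D.P ∣ h.coeff j → h.coeff j ∈ S := by
    refine ⟨S₃ ∪ (Sd ∪ (Sr ∪ (S₂ ∪ ({c} ∪ (h.support.image h.coeff).filter (¬ D.P ∣ ·))))),
      g₃.union (gd.union (gr.union (g₂.union (Good.union (fun g hg => ?_)
        fun g hg => (Finset.mem_filter.1 hg).2)))), fun g hg => by simp [hg],
      fun g hg => by simp [hg], fun g hg => by simp [hg], fun g hg => by simp [hg], by simp,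
      fun j hj => ?_⟩
    · rwa [Finset.mem_singleton.1 hg]
    · simp only [Finset.mem_union, Finset.mem_filter, Finset.mem_image]
      exact .inr (.inr (.inr (.inr (.inr ⟨⟨j, Polynomial.mem_support_iff.2
        fun e => hj (e ▸ dvd_zero _), rfl⟩, hj⟩))))
  obtain ⟨N, hN, HS⟩ := hSh S gS
  obtain ⟨r₀, Hb⟩ := hball n D.P h h₁ q c a e m N₁ γ K N (2 * N') S hγ hK hN (by linarith) hh sh
    sc hq
  obtain ⟨r₁, Hd⟩ := Hd (2 * N) (by linarith)
  obtain ⟨R, hR⟩ := case3a_ev r₀ r₁ (200 * C₂ * N) (2 * Real.pi * G) γ δ (by positivity) hγ hδ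
  obtain ⟨r, M, x, τ, hr, hM, hx, hsh, hz⟩ := HS R
  obtain ⟨e₀, e₁, e₂, e₃, e₄, e₅⟩ := hR r hr
  have r0 : 0 < r := by linarith
  have M0 : 0 < M := by linarith
  have M1 : (M : ℂ) ≠ 0 := Complex.ofReal_ne_zero.2 M0.ne'
  have l1 : 1 ≤ Real.log r := (Real.le_log_iff_exp_le r0).2
    (Real.exp_one_lt_three.le.trans (by linarith))
  have hL : 1 ≤ N * Real.log r := one_le_mul_of_one_le_of_one_le hN l1
  have q1 : r ≤ (r / 16) ^ 2 := by nlinarith
  have l2 : Real.log r ≤ 2 * Real.log (r / 16) := by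
    have := Real.log_le_log r0 q1
    rwa [Real.log_pow, Nat.cast_ofNat] at this
  have l3 : Real.log (r / 16) ≤ Real.log r := Real.log_le_log (by positivity) (by linarith)
  obtain ⟨w₀, dw, hw⟩ := Hr (ball x r) _ _ (convex_ball x r) isOpen_ball hsh.differentiableOn_zt hL
    fun p hp => ⟨(hsh.2.1 p hp).1, (hsh.2.1 p hp).2.subset sr⟩
  have hl : ((Cr * (N * Real.log r) + 1 : ℝ) : ℂ) ∈ half (Cr * (N * Real.log r)) := by
    simp [half]
  generalize ((Cr * (N * Real.log r) + 1 : ℝ) : ℂ) = l at hl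
  have dω : DifferentiableOn ℂ (fun p => w₀ (p, l)) (ball x r) :=
    dw.comp (by fun_prop) fun p hp => ⟨hp, hl⟩
  obtain ⟨k₀, ψ, dψ, hψ⟩ := helim n A (fun p => w₀ (p, l)) x r (C₂ * (N * Real.log r))
    (one_le_mul_of_one_le_of_one_le hC₂ hL) (by linarith) hx dω
    fun p hp => H₂ _ _ _ hL (hw p hp l hl).1 ((hsh.2.1 p hp).2.subset s₂)
  have mψ : ∀ p ∈ ball x (r / 8), ψ p ∈ ball x r := fun p hp =>
    ball_subset_ball (by linarith) (hψ p hp).1
  obtain ⟨Z, W, T, dZ, dW, HZ⟩ : ∃ (Z W : Cn n → Cn n) (T : Cn n → ℂ),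
      DifferentiableOn ℂ Z (ball x (r / 8)) ∧ DifferentiableOn ℂ W (ball x (r / 8)) ∧
      ∀ p ∈ ball x (r / 8), D.OnE (Z p) (W p) ∧ Tm S (N * Real.log r) (Z p) ∧ ‖Z p‖ ≤ r ^ N₁ ∧
        ‖dz m (Z p)‖ ≤ M * r ^ (1 - γ) ∧
        (∀ i ∈ A, Z p i = W p i + 2 * Real.pi * Complex.I * k₀ i + (p i - x i)) ∧
        ∀ j, j ∉ A → Z p j = M * p j + T p * cQ v j := by
    refine ⟨fun p => zt A M (cQ v) τ (ψ p), fun p => w₀ (ψ p, l), fun p => τ (ψ p),
      hsh.differentiableOn_zt.comp dψ mψ, dω.comp dψ mψ, fun p hp => ⟨(hw _ (mψ p hp) l hl).1,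
      (hsh.2.1 _ (mψ p hp)).2, (hz _ (mψ p hp)).2, (hz _ (mψ p hp)).1, fun i hi => ?_,
      fun j hj => ?_⟩⟩
    · rw [← (hψ p hp).2.2.1 i hi]
      simp [zt, dil_mem hi, hv.cQ i hi]
    · simp [zt, dil_not_mem hj, (hψ p hp).2.1 j hj]
  have me : ∀ s ∈ ball (0 : Cn n) (r / 16), x + dil A (M : ℂ)⁻¹ s ∈ ball x (r / 16) := fun s hs => by
    rw [mem_ball_iff_norm, add_sub_cancel_left]
    refine (norm_dil_le' ?_ s).trans_lt (mem_ball_zero_iff.1 hs)
    rw [norm_inv, Complex.norm_real, Real.norm_of_nonneg M0.le]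
    exact inv_le_one_of_one_le₀ hM
  have me' : ∀ s ∈ ball (0 : Cn n) (r / 16), x + dil A (M : ℂ)⁻¹ s ∈ ball x (r / 8) := fun s hs =>
    ball_subset_ball (by linarith) (me s hs)
  have de : DifferentiableOn ℂ (fun s => x + dil A (M : ℂ)⁻¹ s) (ball (0 : Cn n) (r / 16)) :=
    ((differentiable_dil _).const_add x).differentiableOn
  obtain ⟨t, ht, Ht⟩ := Hd (r / 16) e₁ (fun s => Z (x + dil A (M : ℂ)⁻¹ s))
    (fun s => W (x + dil A (M : ℂ)⁻¹ s)) (fun s => T (x + dil A (M : ℂ)⁻¹ s))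
    (fun i => if i ∈ A then 2 * Real.pi * Complex.I * k₀ i else M * x i) (dZ.comp de me')
    (dW.comp de me') fun s hs => by
      obtain ⟨a1, a2, a3, -, a5, a6⟩ := HZ _ (me' s hs)
      refine ⟨a1, (a2.subset sd).mono (by nlinarith), a3.trans ?_, ⟨fun i hi => ?_, fun j hj => ?_⟩,
        fun j hj => ?_⟩
      · rw [pow_mul]; gcongr
      · simp only [a5 i hi, if_pos hi, Pi.add_apply, dil_mem hi, add_sub_cancel_left]
      · simp only [a6 j hj, if_neg hj, Pi.add_apply, dil_not_mem hj, mul_add,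
          mul_inv_cancel_left₀ M1]
      · refine (case3a_der hcl A (fun p => dz m (Z p)) x s r0 hM
          ((differentiable_dz m).comp_differentiableOn dZ) (fun p hp => (HZ p hp).2.2.2.1)
          (me s hs) hj).trans (le_trans (le_of_eq ?_) e₅)
        rw [sub_eq_neg_add, Real.rpow_add_one r0.ne', mul_div_cancel_right₀ _ r0.ne']
  have mt := me _ (mem_ball_zero_iff.2 ((norm_gp_le ht).trans_lt e₄))
  obtain ⟨y, hy⟩ : ∃ y, y = x + dil A (M : ℂ)⁻¹ (gp t) := ⟨_, rfl⟩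
  rw [← hy] at mt Ht
  have iX : Imag (dil A M y) := by
    rw [hy, dil_add, dil_dil, mul_inv_cancel₀ M1, dil_one]
    exact (hx.dil M).add (imag_gp t)
  let ε : Cn n → Cn n := fun p i => if i ∈ A then y i else p i / M
  have dε : Differentiable ℂ ε := differentiable_pi.2 fun i => by
    by_cases hi : i ∈ A
    · simp only [ε, if_pos hi]; fun_prop
    · simp only [ε, if_neg hi]; fun_prop
  have εX : ε (dil A M y) = y := funext fun i => by
    by_cases hi : i ∈ A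
    · exact if_pos hi
    · simp only [ε, if_neg hi, dil_not_mem hi, mul_div_cancel_left₀ _ M1]
  have mε : ∀ p ∈ ball (dil A M y) (M * r / 16), ε p ∈ ball x (r / 8) := fun p hp => by
    have : ε p ∈ ball y (r / 16) := by
      rw [mem_ball_iff_norm, pi_norm_lt_iff (by positivity)] at hp ⊢
      intro i
      by_cases hi : i ∈ A
      · simp only [ε, Pi.sub_apply, if_pos hi, sub_self, norm_zero]; positivity
      · have := hp i
        rw [Pi.sub_apply, dil_not_mem hi] at this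
        rw [show (ε p - y) i = (p i - M * y i) / M by
          simp only [ε, Pi.sub_apply, if_neg hi]; field_simp, norm_div, Complex.norm_real,
          Real.norm_of_nonneg M0.le, div_lt_iff₀ M0]
        linarith
    rw [mem_ball] at this mt ⊢
    linarith [dist_triangle (ε p) y x]
  obtain ⟨s, ρ, L, j₀, b1, b2, b3, b4, b5⟩ := Hb r e₀ M (dil A M y) (fun p => Z (ε p)) hM
    (dZ.comp dε.differentiableOn mε)
    (fun p hp => let ⟨a1, a2, a3, a4, _⟩ := HZ _ (mε p hp); ⟨a1.eval_P, a2, a3, a4⟩) (by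
      rw [εX]
      refine le_trans (Real.exp_le_exp.2 ?_) Ht
      have : N' * N * Real.log (r / 16) ≤ N' * N * Real.log r := by gcongr
      linarith)
  refine H₃ _ ρ L (fun p => Z (ε p)) (fun p => W (ε p)) (fun p => T (ε p)) j₀
    (iX.add (imag_iR s)) b2 b3 ((dZ.comp dε.differentiableOn mε).mono b1)
    ((dW.comp dε.differentiableOn mε).mono b1) fun p hp => ?_
  obtain ⟨a1, a2, a3, -, a5, a6⟩ := HZ _ (mε p (b1 hp))
  refine ⟨⟨a1, fun i hi => ?_, fun j hj => ?_⟩, fun g hg => a2.ne_zero (s₃ hg), a3.trans b4,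
    b5 p hp⟩
  · have : ε p i - x i = gp t i := by
      simp only [ε, if_pos hi, hy, Pi.add_apply, dil_mem hi, add_sub_cancel_left]
    rw [a5 i hi, this, gp, Complex.exp_add, Complex.exp_add, mul_comm _ (k₀ i : ℂ),
      mul_comm _ (t i : ℂ), Complex.exp_int_mul_two_pi_mul_I, Complex.exp_nat_mul_two_pi_mul_I,
      mul_one, mul_one]
  · rw [a6 j hj]
    simp only [ε, if_neg hj, mul_div_cancel₀ _ M1]

end Pool.Agent.P.MP_d2ed07_lc
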