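import Pool.Agent.P.MP_d2ed07_lc.Basic2
import Pool.Agent.P.MP_d2ed07_lc.CONE2

/-!
The tangent direction of a sheet of a cone that is homogeneous in some of the variables.
-/

namespace Pool.Agent.P.MP_d2ed07_lc

open MvPolynomial Metric Filter Topology

variable {n : ℕ} {A : Finset (Fin n)}

theorem cone2a_root {Q : MP n} {V : Cn n} {s : Fin n → ℝ} {δ σ κ : ℝ} {K : ℕ} {T : Cn n → ℂ}
    (h : Cone0 Q V s δ σ κ K T) {u : Cn n} {τ : ℂ} (hu : u ∈ ball (iR s) δ) (hτ : ‖τ‖ ≤ σ)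
    (h0 : eval (u + τ • V) Q = 0) : T u = τ := by
  obtain ⟨-, -, hκ, hK, -, -, -, h⟩ := h
  have h2 := (h _ hu).2.2 _ hτ
  rw [h0, norm_zero] at h2
  have h4 : ‖τ - T u‖ ^ K = 0 := by
    refine le_antisymm ?_ (by positivity)
    by_contra h5
    exact absurd h2 (not_le.2 (mul_pos hκ (not_le.1 h5)))
  rw [pow_eq_zero_iff (by omega), norm_eq_zero, sub_eq_zero] at h4
  exact h4.symm

theorem cone2a_dil (t : ℂ) (u : Cn n) : u + t • cut A u = dil A (1 + t) u := by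
  funext i
  by_cases h : i ∈ A <;> simp [cut, dil, h, add_mul]

/-- the Euler identity for the sheet -/
theorem cone2a_euler {Q : MP n} {B : ℕ} (hQ : HomOff A Q B) {V : Cn n} (hV : Off A V)
    {s : Fin n → ℝ} {δ σ κ : ℝ} {K : ℕ} {T : Cn n → ℂ} (h : Cone0 Q V s δ σ κ K T) {u : Cn n}
    (hu : u ∈ ball (iR s) δ) : fderiv ℂ T u (cut A u) = T u := by
  have hd : HasFDerivAt T (fderiv ℂ T u) u :=
    (h.2.2.2.2.1.differentiableAt (isOpen_ball.mem_nhds hu)).hasFDerivAt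
  have h1 : HasDerivAt (fun t : ℂ => u + t • cut A u) (cut A u) 0 := by
    simpa using ((hasDerivAt_id (0 : ℂ)).smul_const (cut A u)).const_add u
  have h2 : HasFDerivAt T (fderiv ℂ T u) ((fun t : ℂ => u + t • cut A u) 0) := by simpa using hd
  have h3 := h2.comp_hasDerivAt (0 : ℂ) h1
  have h4 : HasDerivAt (T ∘ fun t : ℂ => u + t • cut A u) (T u) 0 := by
    have a1 : HasDerivAt (fun t : ℂ => (1 + t) * T u) (T u) 0 := by
      simpa using ((hasDerivAt_id (0 : ℂ)).const_add 1).mul_const (T u)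
    refine a1.congr_of_eventuallyEq ?_
    have a2 : ∀ᶠ t : ℂ in 𝓝 0, u + t • cut A u ∈ ball (iR s) δ :=
      h1.continuousAt.eventually (isOpen_ball.mem_nhds (by simpa using hu))
    have a3 : ∀ᶠ t : ℂ in 𝓝 0, t ∈ ball (0 : ℂ) 1 := ball_mem_nhds _ one_pos
    filter_upwards [a2, a3] with t b2 b3
    have b4 := h.2.2.2.2.2.2.2 u hu
    refine cone2a_root h b2 ?_ ?_
    · have b5 : ‖1 + t‖ ≤ 2 := (norm_add_le _ _).trans (by
        rw [norm_one]; linarith [mem_ball_zero_iff.1 b3])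
      rw [norm_mul]
      nlinarith [b4.1, norm_nonneg (T u), norm_nonneg (1 + t)]
    · beta_reduce
      rw [cone2a_dil, ← dil_add_smul hV, hQ, b4.2.1, mul_zero]
  exact h3.unique h4

theorem cone2a_cut (ν : Fin n → ℝ) (u : Cn n) : dr ν (cut A u) = dr (cut A ν) u :=
  Finset.sum_congr rfl fun i _ => by by_cases h : i ∈ A <;> simp [cut, h]

theorem cone2a_B (himag : T_IMAG) {Q : MP n} {V : Cn n} {s : Fin n → ℝ} {δ σ κ : ℝ} {K : ℕ}
    {T : Cn n → ℂ} (h : Cone0 Q V s δ σ κ K T) {r : ℝ} (hr : 0 < r) (hrδ : r ≤ δ) {ν : Fin n → ℝ}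
    (hν : ∀ s' ∈ ball s r, T (iR s') = -dr ν (iR s')) :
    ∃ δ', Cone0 Q V s δ' σ κ K T ∧ ∀ u ∈ ball (iR s) δ', T u = -dr ν u := by
  have h3 : ∀ w : Cn n, eval w (aeval (fun i => X i +
      -(∑ j, C (ν j : ℂ) * X j) * C (V i) : Fin n → MP n) Q) = eval (w + (-dr ν w) • V) Q := by
    intro w
    rw [cone2_eval]
    refine congrArg (fun p => eval p Q) (funext fun i => ?_)
    simp [dr]
  have h4 := himag n _ (ball s r) isOpen_ball ⟨s, mem_ball_self hr⟩ fun s' hs => by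
    rw [h3, ← hν s' hs]
    exact (h.2.2.2.2.2.2.2 _ (cone2_mem.2 (ball_subset_ball hrδ hs))).2.1
  have h5 : ContinuousAt (fun u => -dr ν u) (iR s) :=
    (differentiable_dr ν).continuous.neg.continuousAt
  have h6 := h5.eventually (isOpen_ball.mem_nhds (show -dr ν (iR s) ∈ ball 0 σ by
    rw [← hν s (mem_ball_self hr), h.2.2.2.2.2.1]; exact mem_ball_self h.2.1))
  obtain ⟨ρ, hρ, h7⟩ := Metric.eventually_nhds_iff_ball.1 h6
  have hsub : ball (iR s) (min ρ δ) ⊆ ball (iR s) δ := ball_subset_ball (min_le_right _ _)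
  refine ⟨min ρ δ, ?_, fun u hu => cone2a_root h (hsub hu) (mem_ball_zero_iff.1
    (h7 u (ball_subset_ball (min_le_left _ _) hu))).le (by rw [← h3, h4, map_zero])⟩
  obtain ⟨hδ, hσ, hκ, hK, hT, h0, hre, hall⟩ := h
  exact ⟨lt_min hρ hδ, hσ, hκ, hK, hT.mono hsub, h0, fun a ha => hre a (hsub ha),
    fun u hu => hall u (hsub hu)⟩

theorem t_cone2a (hcl : T_CL) (himag : T_IMAG) : T_CONE2A := by
  intro n A Q B v s δ σ κ K T hQ hv h
  have hδ := h.1
  have hT := h.2.2.2.2.1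
  have hdq : ∀ s' ∈ ball s δ, dq (cone2_nu (fderiv ℂ T (iR s'))) v = 1 := by
    intro s' hs
    obtain ⟨a1, a2⟩ := cone2_fd h hs
    rw [a1, cone2_dq, neg_inj] at a2
    exact_mod_cast a2
  have hdq' : ∀ s' ∈ ball s δ, dq (cut A (cone2_nu (fderiv ℂ T (iR s')))) v = 1 := fun s' hs =>
    (hv.dq_cut _).trans (hdq s' hs)
  obtain ⟨r, hr, hrδ, hr2⟩ : ∃ r : ℝ, 0 < r ∧ r ≤ δ ∧
      ∀ s' ∈ ball s r, iR s' + T (iR s') • cQ v ∈ ball (iR s) δ := by
    have a1 : ContinuousAt T (iR s) :=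
      (hT.differentiableAt (ball_mem_nhds _ hδ)).continuousAt
    have a2 : ContinuousAt (fun u => u + T u • cQ v) (iR s) := by fun_prop
    have a3 := a2.eventually (isOpen_ball.mem_nhds (show iR s + T (iR s) • cQ v ∈ ball (iR s) δ by
      rw [h.2.2.2.2.2.1]; simpa using hδ))
    obtain ⟨r, hr, a4⟩ := Metric.eventually_nhds_iff_ball.1 a3
    exact ⟨min r δ, lt_min hr hδ, min_le_right _ _, fun s' hs =>
      a4 _ (cone2_mem.2 (ball_subset_ball (min_le_left _ _) hs))⟩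
  have hsub : ball s r ⊆ ball s δ := ball_subset_ball hrδ
  by_cases hA : ∃ s' ∈ ball s r, DenseZ (cut A (cone2_nu (fderiv ℂ T (iR s'))))
  · obtain ⟨s', hs, hD⟩ := hA
    obtain ⟨s'', h''⟩ := cone2_A hcl h (hsub hs) (hr2 s' hs)
    exact Or.inr ⟨s'', _, hdq s' (hsub hs), hD, h''⟩
  push Not at hA
  left
  have hc : ContinuousOn (fun s' => fderiv ℂ T (iR s')) (ball s r) := by
    intro s' hs
    refine ContinuousAt.continuousWithinAt (Metric.continuousAt_iff.2 fun ε hε => ?_)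
    obtain ⟨ρ, hρ, -, a1, -⟩ := cone2_strict hcl hT (cone2_mem.2 (hsub hs)) (half_pos hε)
    refine ⟨ρ, hρ, fun a ha => ?_⟩
    rw [dist_eq_norm]
    exact (a1 _ (cone2_mem.2 ha)).trans_lt (half_lt_self hε)
  have hconst : ∀ s' ∈ ball s r,
      cut A (cone2_nu (fderiv ℂ T (iR s'))) = cut A (cone2_nu (fderiv ℂ T (iR s))) := by
    intro s' hs
    funext i
    by_cases hi : i ∈ A
    · rw [off_cut _ i hi, off_cut _ i hi]
    have a1 : ContinuousOn (fun s' => cone2_nu (fderiv ℂ T (iR s')) i) (ball s r) :=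
      (Complex.continuous_re.comp_continuousOn (hc.clm_apply continuousOn_const)).neg
    have a2 := (convex_ball s r).isPreconnected.image _ a1
    simp only [cut, if_neg hi]
    refine (Set.countable_range ((↑) : ℚ → ℝ)).isTotallyDisconnected _ ?_ a2
      ⟨s', hs, rfl⟩ ⟨s, mem_ball_self hr, rfl⟩
    rintro _ ⟨a, ha, rfl⟩
    obtain ⟨m, k, q, -, -, b⟩ := cone2_rat (hdq' a (hsub ha)) (hA a ha)
    have b' := b i
    simp only [cut, if_neg hi] at b'
    exact ⟨q * m i, by simp only [b']; push_cast; rfl⟩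
  have h1 := hdq' s (mem_ball_self hδ)
  obtain ⟨m, k, q, b1, b2, b3⟩ := cone2_rat h1 (hA s (mem_ball_self hr))
  obtain ⟨δ', c1, c2⟩ := cone2a_B himag h hr hrδ (ν := cut A (cone2_nu (fderiv ℂ T (iR s))))
    fun s' hs => by
      rw [← cone2a_euler hQ hv.cQ h (cone2_mem.2 (hsub hs)), (cone2_fd h (hsub hs)).1, cone2a_cut,
        hconst s' hs]
  have hoff := off_cut (A := A) (cone2_nu (fderiv ℂ T (iR s)))
  generalize cut A (cone2_nu (fderiv ℂ T (iR s))) = ν at h1 b3 c2 hoff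
  have e : ∀ u, dr ν u = (q : ℂ) * dz m u := fun u => by
    simp [dr, dz, b3, Finset.mul_sum, mul_assoc]
  have e1 : (q : ℂ) * dz m (cQ v) = 1 := by rw [← e, cone2_dq, h1, Complex.ofReal_one]
  refine ⟨m, k, δ', b1, b2, fun i hi => ?_, c1, fun u hu => ?_⟩
  · have q0 : (q : ℝ) ≠ 0 := by exact_mod_cast left_ne_zero_of_mul_eq_one e1
    exact_mod_cast (mul_eq_zero.1 ((b3 i).symm.trans (hoff i hi))).resolve_left q0
  · rw [dz_add, dz_smul, c2 u hu, e]
    linear_combination (-dz m u) * e1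

end Pool.Agent.P.MP_d2ed07_lc
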