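import Pool.Agent.P.MP_d2ed07_lc.Basic2

/-! Unimodular changes of coordinates. -/

namespace Pool.Agent.P.MP_d2ed07_lc

open MvPolynomial Metric Filter Topology

variable {n : ℕ}

abbrev coord_E (n : ℕ) := (Fin n → ℤ) ≃ₗ[ℤ] (Fin n → ℤ)

def coord_z {R : Type} [Ring R] (φ : coord_E n) (z : Fin n → R) : Fin n → R :=
  fun i => dz (φ (Pi.single i 1)) z
def coord_y {R : Type} [Field R] (φ : coord_E n) (y : Fin n → R) : Fin n → R :=
  fun i => mon y (φ (Pi.single i 1))
noncomputable def coord_s (φ : coord_E n) : MP n →ₐ[ℂ] MP n :=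
  aeval fun i => lform (φ (Pi.single i 1))

theorem coord_sum (φ : coord_E n) (m : Fin n → ℤ) :
    φ m = ∑ i, m i • φ (Pi.single i 1) := by
  conv_lhs => rw [pi_eq_sum_univ' m]
  simp only [map_sum, map_smul]

theorem coord_dz {R : Type} [CommRing R] (φ : coord_E n) (m : Fin n → ℤ) (z : Fin n → R) :
    dz m (coord_z φ z) = dz (φ m) z := by
  rw [coord_sum φ m]
  have : ∀ s : Finset (Fin n), ∑ i ∈ s, (m i : R) * coord_z φ z i =
      dz (∑ i ∈ s, m i • φ (Pi.single i 1)) z := fun s => by
    induction s using Finset.induction_on with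
    | empty => simp [dz]
    | insert i s hi ih =>
      rw [Finset.sum_insert hi, Finset.sum_insert hi, dz_add_left, dz_smul_left, ih]; rfl
  exact this Finset.univ

theorem coord_mon {R : Type} [Field R] (φ : coord_E n) (m : Fin n → ℤ) {y : Fin n → R}
    (hy : ∀ i, y i ≠ 0) : mon (coord_y φ y) m = mon y (φ m) := by
  rw [coord_sum φ m]
  have : ∀ s : Finset (Fin n), ∏ i ∈ s, coord_y φ y i ^ m i =
      mon y (∑ i ∈ s, m i • φ (Pi.single i 1)) := fun s => by
    induction s using Finset.induction_on with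
    | empty => simp [mon]
    | insert i s hi ih =>
      rw [Finset.sum_insert hi, Finset.prod_insert hi, mon_add hy, mon_smul, ih]; rfl
  exact this Finset.univ

theorem coord_zz {R : Type} [CommRing R] (φ : coord_E n) (z : Fin n → R) :
    coord_z φ.symm (coord_z φ z) = z := by
  funext i
  rw [coord_z, coord_dz, LinearEquiv.apply_symm_apply, dz_single_left]

theorem coord_yy {R : Type} [Field R] (φ : coord_E n) {y : Fin n → R} (hy : ∀ i, y i ≠ 0) :
    coord_y φ.symm (coord_y φ y) = y := by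
  funext i
  rw [coord_y, coord_mon _ _ hy, LinearEquiv.apply_symm_apply, mon_single]

theorem coord_aeval {F : Type} [Field F] [Algebra ℂ F] (φ : coord_E n) (z : Fin n → F)
    (g : MP n) : aeval z (coord_s φ g) = aeval (coord_z φ z) g := by
  rw [coord_s, ← AlgHom.comp_apply, comp_aeval]
  simp only [aeval_lform]
  rfl

theorem coord_eval (φ : coord_E n) (x : Cn n) (g : MP n) :
    eval x (coord_s φ g) = eval (coord_z φ x) g := coord_aeval φ x g

theorem coord_ss (φ : coord_E n) (g : MP n) : coord_s φ (coord_s φ.symm g) = g :=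
  MvPolynomial.funext fun x => by rw [coord_eval, coord_eval, coord_zz]

theorem coord_lin (φ : coord_E n) (p u : Cn n) (t : ℂ) :
    coord_z φ (p + t • u) = coord_z φ p + t • coord_z φ u := by
  funext i
  simp only [coord_z, dz_add, dz_smul, Pi.add_apply, Pi.smul_apply, smul_eq_mul]

theorem coord_expand {F : Type} [Field F] [Algebra ℂ F] (φ : coord_E n) (a : Fin n → F)
    {b : Fin n → F} (hb : ∀ i, b i ≠ 0) (g : MP2 n) :
    aeval (Sum.elim (coord_z φ a) (coord_y φ b)) g = ∑ mo ∈ g.support,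
      aeval a (coord_s φ (C (coeff mo g) * ∏ i, X i ^ mo (Sum.inl i))) *
        mon b (φ fun i => mo (Sum.inr i)) := by
  rw [aeval_def, eval₂_eq']
  refine Finset.sum_congr rfl fun mo _ => ?_
  rw [coord_aeval, ← coord_mon φ _ hb, Fintype.prod_sum_type]
  simp [mon, mul_assoc]

theorem coord_onV (htrans : T_TRANS) {F : Type} [Field F] [Algebra ℂ F] (φ : coord_E n)
    {z y : Fin n → F} (hy : ∀ i, y i ≠ 0) {x y' : Cn n} (hy' : ∀ i, y' i ≠ 0)
    (h : OnV z y x y') : OnV (coord_z φ z) (coord_y φ y) (coord_z φ x) (coord_y φ y') := by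
  intro g hg
  rw [ev, coord_expand φ z hy] at hg
  have := htrans n F z y _ _ _ _ hy hg x y' hy' h
  rw [← this]
  exact coord_expand φ x hy' g

theorem coord_ex (φ : coord_E n) (x : Cn n) : ex (coord_z φ x) = coord_y φ (ex x) :=
  funext fun _ => exp_dz _ _

variable {F : Type} [Field F] [Algebra ℂ F]

noncomputable def coord_D (φ : coord_E n) (D : Data n F) : Data n F where
  z := coord_z φ D.z
  y := coord_y φ D.y
  hy := fun _ => mon_ne_zero D.hy _
  P := coord_s φ.symm D.P
  hP0 := fun h => D.hP0 (by rw [← coord_ss φ D.P, h, map_zero])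
  hP := fun g => by
    rw [← coord_aeval, D.hP]
    refine ⟨fun h => ?_, fun h => ?_⟩
    · have := map_dvd (coord_s φ.symm) h
      rwa [show coord_s φ.symm (coord_s φ g) = g from coord_ss φ.symm g] at this
    · have := map_dvd (coord_s φ) h
      rwa [coord_ss] at this

theorem coord_le (φ : coord_E n) (z : Fin n → F) :
    IntermediateField.adjoin ℂ (Set.range (coord_z φ z)) ≤
      IntermediateField.adjoin ℂ (Set.range z) := by
  rw [IntermediateField.adjoin_le_iff]
  rintro _ ⟨i, rfl⟩
  change dz _ z ∈ IntermediateField.adjoin ℂ (Set.range z)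
  exact sum_mem fun j _ => mul_mem (intCast_mem _ _)
    (IntermediateField.subset_adjoin ℂ _ (Set.mem_range_self j))

theorem coord_k (φ : coord_E n) (D : Data n F) : (coord_D φ D).k = D.k :=
  le_antisymm (coord_le φ D.z) (by
    have := coord_le φ.symm (coord_z φ D.z)
    rwa [coord_zz] at this)

theorem coord_alg (φ : coord_E n) (D : Data n F) (m : Fin n → ℤ) :
    (coord_D φ D).Alg (mon (coord_D φ D).y m) ↔ D.Alg (mon D.y (φ m)) := by
  have h : ∀ (K K' : IntermediateField ℂ F) (a : F), K = K' →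
      (IsAlgebraic K a ↔ IsAlgebraic K' a) := by rintro K _ a rfl; rfl
  rw [← coord_mon φ m D.hy]
  exact h _ _ _ (coord_k φ D)

theorem coord_curve (φ : coord_E n) (D : Data n F) (hc : D.Curve) : (coord_D φ D).Curve := by
  have h : ∀ (K K' : IntermediateField ℂ F) (a : Fin 2 → F), K = K' →
      AlgebraicIndependent K a → AlgebraicIndependent K' a := by rintro K _ a rfl h; exact h
  intro m m' hi
  refine hc (φ m) (φ m') ?_
  rw [← coord_mon φ m D.hy, ← coord_mon φ m' D.hy]
  exact h _ _ _ (coord_k φ D) hi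

theorem coord_star (φ : coord_E n) (D : Data n F) : D.Star2 ↔ (coord_D φ D).Star2 := by
  have e : ∀ u, ddir (coord_z φ u) (coord_s φ.symm D.P) = 0 ↔ ddir u D.P = 0 := fun u => by
    simp only [ddir_eq_zero_iff, coord_eval, coord_lin, coord_zz]
    refine ⟨fun h p t => ?_, fun h p t => h _ t⟩
    simpa only [coord_zz] using h (coord_z φ p) t
  constructor
  · rintro ⟨u, hu, h⟩
    exact ⟨coord_z φ u, fun m hm => by
      rw [coord_dz]; exact hu _ ((coord_alg φ D m).1 hm), fun h0 => h ((e u).1 h0)⟩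
  · rintro ⟨u, hu, h⟩
    refine ⟨coord_z φ.symm u, fun m hm => ?_, fun h0 => h ?_⟩
    · rw [coord_dz]
      exact hu _ ((coord_alg φ D _).2 (by rwa [LinearEquiv.apply_symm_apply]))
    · have := (e _).2 h0
      rwa [show coord_z φ (coord_z φ.symm u) = u from coord_zz φ.symm u] at this

/-- the lattice of algebraic monomials -/
def coord_L (D : Data n F) : Submodule ℤ (Fin n → ℤ) where
  carrier := {m | D.Alg (mon D.y m)}
  add_mem' := fun ha hb => by
    rw [Set.mem_ofPred_eq, mon_add D.hy]; exact IsAlgebraic.mul ha hb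
  zero_mem' := by rw [Set.mem_ofPred_eq, mon_zero]; exact isAlgebraic_one
  smul_mem' := fun c m hm => by
    rw [Set.mem_ofPred_eq, mon_smul]
    obtain ⟨j, rfl | rfl⟩ := c.eq_nat_or_neg
    · rw [zpow_natCast]; exact IsAlgebraic.pow hm j
    · rw [zpow_neg, zpow_natCast]; exact (IsAlgebraic.pow hm j).inv

theorem coord_sat (D : Data n F) {c : ℤ} (hc : c ≠ 0) {m : Fin n → ℤ} (h : c • m ∈ coord_L D) :
    m ∈ coord_L D := by
  have h' : IsAlgebraic D.k (mon D.y m ^ c) := by rw [← mon_smul]; exact h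
  obtain ⟨j, rfl | rfl⟩ := c.eq_nat_or_neg
  · rw [zpow_natCast] at h'
    exact IsAlgebraic.of_pow (by omega) h'
  · rw [zpow_neg, zpow_natCast, IsAlgebraic.inv_iff] at h'
    exact IsAlgebraic.of_pow (by omega) h'

theorem t_coord (htrans : T_TRANS) : T_COORD := by
  intro n F _ _ D
  classical
  obtain ⟨r, N⟩ := (coord_L D).smithNormalForm (Pi.basisFun ℤ (Fin n))
  let φ : coord_E n := N.bM.equivFun.symm
  have hφ : ∀ i, φ (Pi.single i 1) = N.bM i := fun i => by
    simp [φ, Pi.single_apply]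
  refine ⟨coord_D φ D, Finset.univ.map N.f, ⟨fun i hi => ?_, fun m hm j hj => ?_⟩,
    coord_curve φ D, fun h m hm c => ?_, fun h m hm c => ?_, fun h k M hM => ?_,
    coord_star φ D, ?_⟩
  · obtain ⟨a, -, rfl⟩ := Finset.mem_map.1 hi
    rw [← mon_single (coord_D φ D).y, coord_alg, hφ]
    have h1 := (N.bN a).2
    have h2 : N.a a ≠ 0 := fun h0 => N.bN.ne_zero a (Subtype.ext (by rw [N.snf, h0]; simp))
    rw [N.snf] at h1
    exact coord_sat D h2 h1
  · have := N.repr_eq_zero_of_notMem_range ⟨φ m, (coord_alg φ D m).1 hm⟩ (i := j)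
      (by simpa using hj)
    rw [← this]
    exact (congrFun (N.bM.equivFun.apply_symm_apply m) j).symm
  · exact coord_dz φ m D.z ▸ h (φ m) (by simpa using hm) c
  · exact coord_mon φ m D.hy ▸ h (φ m) (by simpa using hm) c
  · obtain ⟨s, hs, hi⟩ := h k (fun r => φ (M r)) (hM.map' φ.toLinearMap φ.ker)
    refine ⟨s, hs, ?_⟩
    simp only [← coord_dz, ← coord_mon φ _ D.hy] at hi
    exact hi
  · rintro ⟨x, hx⟩
    have := coord_onV htrans φ.symm (coord_D φ D).hy (ex_ne_zero x) hx
    rw [← coord_ex] at this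
    refine ⟨coord_z φ.symm x, ?_⟩
    simp only [coord_D, coord_zz, coord_yy φ D.hy] at this
    exact this

end Pool.Agent.P.MP_d2ed07_lc
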