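import Pool.Agent.P.MP_d2ed07_lc.Basic2

/-!
Homothetic grids, iterated differences, Cauchy estimates and the identity theorem.
-/

namespace Pool.Agent.P.MP_d2ed07_lc

open MvPolynomial Metric Filter Topology

theorem t_hj : T_HJ := by
  intro n d I
  obtain ⟨ι, _, hι⟩ :=
    Combinatorics.Line.exists_mono_in_high_dimension (Fin n → Fin (d + 1)) (Fin (I + 1))
  refine ⟨Fintype.card ι * (d + 1), fun col => ?_⟩
  obtain ⟨l, c, hl⟩ := hι fun v => col fun i => ∑ t, (v t i : ℕ)
  have key : ∀ (x : Fin n → Fin (d + 1)) i, ∑ t, (l x t i : ℕ) = ∑ t, (l 0 t i : ℕ) +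
      (Finset.univ.filter fun t => (l.idxFun t).isNone).card * x i := fun x i => by
    rw [Finset.card_filter, Finset.sum_mul, ← Finset.sum_add_distrib]
    refine Finset.sum_congr rfl fun t _ => ?_
    simp only [Combinatorics.Line.coe_apply]
    cases l.idxFun t <;> simp
  have le := Finset.card_le_univ (Finset.univ.filter fun t => (l.idxFun t).isNone)
  refine ⟨_, fun i => ∑ t, (l 0 t i : ℕ), Finset.card_pos.2 ⟨l.proper.choose, Finset.mem_filter.2
    ⟨Finset.mem_univ _, Option.isNone_iff_eq_none.2 l.proper.choose_spec⟩⟩,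
    le.trans (Nat.le_mul_of_pos_right _ d.succ_pos), fun i => ?_, fun s hs => ?_⟩
  · have := key (fun _ => Fin.last d) i
    rw [Fin.val_last] at this
    rw [← this]
    exact (Finset.sum_le_card_nsmul _ _ _ fun t _ => (Fin.is_lt _).le).trans (by simp)
  · refine Eq.trans (congrArg col (funext fun i => ?_))
      ((hl fun i => ⟨s i, Nat.lt_succ_of_le (hs i)⟩).trans (hl 0).symm)
    rw [key]
    rfl

variable {n : ℕ}

/-- iterated differences -/
noncomputable def diff_D (a : ℂ) (f : Cn n → ℂ) : List (Cn n) → Cn n → ℂ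
  | [], s => f s
  | u :: l, s => diff_D a f l (s + a • u) - diff_D a f l s

theorem diff_int {a : ℂ} {f : Cn n → ℂ} {η : ℝ} (l : List (Cn n)) : ∀ s : Cn n,
    (∀ l' : List (Cn n), l'.Sublist l →
      ∃ z : ℤ, ‖f (s + a • l'.sum) - 2 * Real.pi * Complex.I * z‖ ≤ η) →
    ∃ z : ℤ, ‖diff_D a f l s - 2 * Real.pi * Complex.I * z‖ ≤ 2 ^ l.length * η := by
  induction l with
  | nil => exact fun s h => by simpa [diff_D] using h [] (List.Sublist.refl _)
  | cons u l ih =>
    intro s h
    obtain ⟨z1, h1⟩ := ih (s + a • u) fun l' hl => by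
      simpa [add_assoc] using h (u :: l') (hl.cons_cons u)
    obtain ⟨z2, h2⟩ := ih s fun l' hl => h l' (hl.cons u)
    refine ⟨z1 - z2, ?_⟩
    have := norm_sub_le_of_le h1 h2
    rw [List.length_cons, pow_succ, diff_D]
    push_cast
    refine le_trans (le_of_eq (congrArg _ (by ring))) (this.trans_eq (by ring))

theorem diff_nn (a : ℂ) (l : List (Cn n)) : 0 ≤ ‖a‖ * (l.map fun u => ‖u‖).sum :=
  mul_nonneg (norm_nonneg _) (List.sum_nonneg (by simp))

theorem diff_step {a w : ℂ} {r : ℝ} {s u : Cn n} {l : List (Cn n)} (hw : ‖w‖ ≤ 1)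
    (h : ‖s‖ + ‖a‖ * ((u :: l).map fun u => ‖u‖).sum < r) :
    ‖s + (w * a) • u‖ + ‖a‖ * (l.map fun u => ‖u‖).sum < r := by
  have a1 := norm_add_le s ((w * a) • u)
  have a2 := mul_le_of_le_one_left (mul_nonneg (norm_nonneg a) (norm_nonneg u)) hw
  rw [norm_smul, norm_mul, mul_assoc] at a1
  rw [List.map_cons, List.sum_cons, mul_add] at h
  linarith

theorem diff_der {a : ℂ} {r : ℝ} {f f' : Cn n → ℂ} {u : Cn n}
    (hf : DifferentiableOn ℂ f (ball 0 r)) (h' : ∀ p ∈ ball (0 : Cn n) r, fderiv ℂ f p u = f' p)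
    (l : List (Cn n)) : ∀ p : Cn n, ‖p‖ + ‖a‖ * (l.map fun u => ‖u‖).sum < r →
      ∃ L : Cn n →L[ℂ] ℂ, HasFDerivAt (diff_D a f l) L p ∧ L u = diff_D a f' l p := by
  induction l with
  | nil =>
    intro p hp
    have : p ∈ ball (0 : Cn n) r := by simpa using hp
    exact ⟨_, (hf.differentiableAt (isOpen_ball.mem_nhds this)).hasFDerivAt, h' p this⟩
  | cons v l ih =>
    intro p hp
    obtain ⟨L1, h1, e1⟩ := ih (p + a • v) (by simpa using diff_step (w := 1) (by simp) hp)
    obtain ⟨L2, h2, e2⟩ := ih p (by simpa using diff_step (w := 0) (by simp) hp)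
    exact ⟨L1 - L2, ((hasFDerivAt_comp_add_right _).2 h1).sub h2, by simp [diff_D, e1, e2]⟩

theorem diff_mv {a c : ℂ} {r κ : ℝ} {g : Cn n → ℂ} (hg : ∀ p ∈ ball (0 : Cn n) r, ‖g p - c‖ ≤ κ)
    (l : List (Cn n)) : ∀ (f : Cn n → ℂ) (s : Cn n), Chn (ball 0 r) l f g →
      ‖s‖ + ‖a‖ * (l.map fun u => ‖u‖).sum < r →
        ‖diff_D a f l s - a ^ l.length * c‖ ≤ ‖a‖ ^ l.length * κ := by
  induction l with
  | nil =>
    intro f s h hs
    have : s ∈ ball (0 : Cn n) r := by simpa using hs
    simpa [diff_D, h.2 s this] using hg s this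
  | cons u l ih =>
    rintro f s ⟨hf, f', h', hc⟩ hs
    have := (convex_closedBall (0 : ℂ) 1).norm_image_sub_le_of_norm_hasDerivWithin_le
      (f := fun w => diff_D a f l (s + (w * a) • u) - w * (a * (a ^ l.length * c)))
      (f' := fun w => a * (diff_D a f' l (s + (w * a) • u) - a ^ l.length * c))
      (C := ‖a‖ * (‖a‖ ^ l.length * κ)) (x := 0) (y := 1) (fun w hw => by
        obtain ⟨L, h1, e1⟩ := diff_der hf h' l _ (diff_step (by simpa using hw) hs)
        have h2 : HasDerivAt (fun w : ℂ => s + (w * a) • u) (a • u) w := by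
          simpa using (((hasDerivAt_id w).mul_const a).smul_const u).const_add s
        have h3 := (h1.comp_hasDerivAt w h2).sub
          ((hasDerivAt_id w).mul_const (a * (a ^ l.length * c)))
        rw [map_smul, e1, smul_eq_mul, one_mul, ← mul_sub] at h3
        exact h3.hasDerivWithinAt) (fun w hw => by
        rw [norm_mul]
        exact mul_le_mul_of_nonneg_left (ih f' _ hc (diff_step (by simpa using hw) hs))
          (norm_nonneg _)) (by simp) (by simp)
    simp only [one_mul, zero_mul, zero_smul, add_zero, sub_zero, norm_one, mul_one] at this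
    rw [List.length_cons, pow_succ', pow_succ', diff_D, mul_assoc, mul_assoc, sub_right_comm]
    exact this

theorem t_diff : T_DIFF := by
  intro n l r κ η a c f g s hc hs hg hz
  obtain ⟨z, h1⟩ := diff_int l s hz
  have h2 := diff_mv hg l f s hc hs
  exact ⟨z, le_trans (le_of_eq (congrArg _ (by ring))) ((norm_sub_le_of_le h1 h2).trans_eq
    (add_comm _ _))⟩

theorem diff_cau (hcl : T_CL) {g : Cn n → ℂ} (l : List (Cn n)) : ∀ (r B : ℝ) (c : ℂ)
    (f : Cn n → ℂ), (l = [] → c = 0) → 0 < r → Chn (ball 0 r) l f g → (∀ u ∈ l, ‖u‖ ≤ 1) →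
    (∀ p ∈ ball (0 : Cn n) r, ‖f p - c‖ ≤ B) →
      ‖g 0‖ ≤ B * (2 ^ (l.length + 2) / r) ^ l.length := by
  induction l with
  | nil =>
    intro r B c f h0 hr h _ hB
    simpa [h0 rfl, h.2 0 (mem_ball_self hr)] using hB 0 (mem_ball_self hr)
  | cons u l ih =>
    rintro r B c f - hr ⟨hf, f', h', hc⟩ hu hB
    have B0 : 0 ≤ B := (norm_nonneg _).trans (hB 0 (mem_ball_self hr))
    have sub : ball (0 : Cn n) (r / 2) ⊆ ball 0 r := ball_subset_ball (by linarith)
    have h1 := (hcl _ _ (fun p => f p - c) 0 r B hr (hf.sub_const c) hB).1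
    refine (ih (r / 2) (4 * B / r) 0 f' (fun _ => rfl) (by linarith) (hc.mono sub)
      (fun v hv => hu v (List.mem_cons_of_mem _ hv)) fun p hp => ?_).trans ?_
    · rw [sub_zero, ← h' p (sub hp), ← fderiv_sub_const c]
      exact ((ContinuousLinearMap.le_opNorm _ _).trans (mul_le_of_le_one_right (norm_nonneg _)
        (hu u List.mem_cons_self))).trans (h1 p hp)
    · rw [List.length_cons, pow_succ' _ l.length, ← mul_assoc,
        show (2 : ℝ) ^ (l.length + 2) / (r / 2) = 2 ^ (l.length + 1 + 2) / r by field_simp; ring,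
        mul_comm 4, mul_div_assoc]
      gcongr
      have : (1 : ℝ) ≤ 2 ^ (l.length + 1) := one_le_pow₀ one_le_two
      rw [pow_add]
      linarith

theorem t_cau (hcl : T_CL) : T_CAU := fun _ l r B c f _ hl =>
  diff_cau hcl l r B c f fun h => absurd h hl

theorem t_ident : T_IDENT := by
  intro n Ω f g hc ho hf hg h
  refine or_iff_not_imp_left.2 fun h0 q hq => ?_
  push Not at h0
  obtain ⟨p, hp, h0⟩ := h0
  have hl : Differentiable ℂ fun t : ℂ => p + t • (q - p) := by fun_prop
  have hU : IsOpen {t : ℂ | p + t • (q - p) ∈ Ω} := ho.preimage hl.continuous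
  have m0 : (0 : ℂ) ∈ {t : ℂ | p + t • (q - p) ∈ Ω} := by simpa using hp
  have cv : Convex ℝ {t : ℂ | p + t • (q - p) ∈ Ω} := fun x hx y hy a b ha hb hab => by
    have := hc hx hy ha hb hab
    rwa [smul_add, smul_add, add_add_add_comm, ← add_smul, hab, one_smul, ← smul_assoc,
      ← smul_assoc, ← add_smul] at this
  have a1 := ((hg.comp hl.differentiableOn fun t ht => ht).analyticOnNhd hU)
  have a2 := ((hf.comp hl.differentiableOn fun t ht => ht).continuousOn.continuousAt
    (hU.mem_nhds m0)).eventually_ne (y := 0) (by simpa using h0)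
  have := a1.eqOn_zero_of_preconnected_of_eventuallyEq_zero cv.isPreconnected m0
    ((a2.and (hU.mem_nhds m0)).mono fun t ht => (mul_eq_zero.1 (h _ ht.2)).resolve_left ht.1)
    (show p + (1 : ℂ) • (q - p) ∈ Ω by simpa using hq)
  simpa using this

end Pool.Agent.P.MP_d2ed07_lc
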