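import Pool.Agent.P.MP_d2ed07_lc.Basic2

/-!
A grid point where the exponential polynomial is not small.
-/

namespace Pool.Agent.P.MP_d2ed07_lc

open MvPolynomial Metric Filter Topology

theorem disc_prod (β : ℂ) {e : ℝ} (he : 0 ≤ e) (s : Multiset ℂ) (h : ∀ b ∈ s, e ≤ ‖β - b‖) :
    e ^ s.card ≤ ‖(s.map fun b => β - b).prod‖ := by
  induction s using Multiset.induction_on with
  | empty => simp
  | cons a s ih =>
    rw [Multiset.card_cons, Multiset.map_cons, Multiset.prod_cons, norm_mul, pow_succ']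
    exact mul_le_mul (h a (Multiset.mem_cons_self _ _))
      (ih fun b hb => h b (Multiset.mem_cons_of_mem hb)) (pow_nonneg he _) (norm_nonneg _)

theorem disc_root (q : Polynomial ℂ) {d : ℕ} {K L : ℝ} (β : ℂ) (hd : q.natDegree ≤ d)
    (lc : Real.exp (-L) ≤ ‖q.coeff d‖) (hK : 0 ≤ K) (hL : 0 ≤ L)
    (h : ‖q.eval β‖ < Real.exp (-((1 + (d + 1) * K) * L))) :
    ∃ b, q.eval b = 0 ∧ ‖β - b‖ ≤ Real.exp (-(K * L)) := by
  have h0 : q.coeff d ≠ 0 := norm_pos_iff.1 ((Real.exp_pos _).trans_le lc)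
  have hn : q.natDegree = d := Polynomial.natDegree_eq_of_le_of_coeff_ne_zero hd h0
  have hq : q ≠ 0 := by
    rintro rfl
    exact h0 (by simp)
  by_contra hc
  push Not at hc
  have h1 := disc_prod β (Real.exp_pos (-(K * L))).le q.roots fun b hb =>
    (hc b ((Polynomial.mem_roots hq).1 hb)).le
  rw [IsAlgClosed.card_roots_eq_natDegree, hn] at h1
  rw [(IsAlgClosed.splits q).eval_eq_prod_roots, norm_mul, Polynomial.leadingCoeff, hn] at h
  have h2 := mul_le_mul lc h1 (by positivity) (norm_nonneg _)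
  rw [← Real.exp_nat_mul, ← Real.exp_add] at h2
  have h3 := Real.exp_lt_exp.1 (h2.trans_lt h)
  nlinarith [mul_nonneg hK hL]

theorem disc_log {x y : ℂ} {η : ℝ} (hη : η ≤ 1 / 2)
    (h : ‖Complex.exp x - Complex.exp y‖ ≤ η * ‖Complex.exp y‖) :
    ∃ z : ℤ, ‖x - y - 2 * Real.pi * Complex.I * z‖ ≤ 2 * η := by
  have hy := Complex.exp_ne_zero y
  have h0 : 0 < ‖Complex.exp y‖ := norm_pos_iff.2 hy
  obtain ⟨u, hu⟩ : ∃ u, u = Complex.exp (x - y) - 1 := ⟨_, rfl⟩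
  have h1 : ‖u‖ ≤ η := by
    rw [hu, Complex.exp_sub, div_sub_one hy, norm_div, div_le_iff₀ h0]
    exact h
  have h2 : 1 + u = Complex.exp (x - y) := by rw [hu]; ring
  have h3 := Complex.norm_log_one_add_half_le_self (h1.trans hη)
  have h4 : Complex.exp (x - y) = Complex.exp (Complex.log (1 + u)) := by
    rw [Complex.exp_log (h2 ▸ Complex.exp_ne_zero _), h2]
  obtain ⟨z, hz⟩ := Complex.exp_eq_exp_iff_exists_int.1 h4
  refine ⟨z, ?_⟩
  rw [show x - y - 2 * Real.pi * Complex.I * z = Complex.log (1 + u) by rw [hz]; ring]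
  linarith [norm_nonneg u]

theorem disc_branch (hsheet : T_SHEET) (huniq : T_UNIQ) {n d : ℕ} {Ω : Set (Cn n)}
    (p : Cn n → Polynomial ℂ) (hc : Convex ℝ Ω) (ho : IsOpen Ω) (h0 : (0 : Cn n) ∈ Ω)
    (h1 : ∀ j, DifferentiableOn ℂ (fun x => (p x).coeff j) Ω)
    (h2 : ∀ x ∈ Ω, (p x).natDegree ≤ d ∧ (p x).coeff d ≠ 0)
    (h3 : ∀ x ∈ Ω, ∀ t, (p x).eval t = 0 → (Polynomial.derivative (p x)).eval t ≠ 0) :
    ∃ th : ℂ → Cn n → ℂ, (∀ t, (p 0).eval t = 0 →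
      DifferentiableOn ℂ (th t) Ω ∧ ∀ x ∈ Ω, (p x).eval (th t x) = 0) ∧
      ∀ x ∈ Ω, ∀ b, (p x).eval b = 0 → ∃ t, (p 0).eval t = 0 ∧ th t x = b := by
  have H := fun t (ht : (p 0).eval t = 0) => hsheet (Cn n) Ω p d hc ho h1 h2 h3 0 h0 t ht
  choose! th d1 d2 d3 using H
  refine ⟨th, fun t ht => ⟨d1 t ht, d3 t ht⟩, fun x hx b hb => ?_⟩
  obtain ⟨θ, e1, e2, e3⟩ := hsheet (Cn n) Ω p d hc ho h1 h2 h3 x hx b hb
  have ht := e3 0 h0
  refine ⟨θ 0, ht, ?_⟩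
  rw [← e2]
  exact huniq (Cn n) Ω p d _ θ hc.isPreconnected (fun j => (h1 j).continuousOn)
    (fun x hx => (h2 x hx).1) (d1 _ ht).continuousOn e1.continuousOn
    (fun y hy => ⟨d3 _ ht y hy, e3 y hy, h3 y hy _ (d3 _ ht y hy)⟩) 0 h0 (d2 _ ht) x hx

theorem disc_col (hhj : T_HJ) (n d I : ℕ) : ∃ G : ℕ, ∀ (R : Finset ℂ) (φ : (Fin n → ℕ) → ℂ),
    R.card ≤ I → (∀ t, (∀ i, t i ≤ G) → φ t ∈ R) → ∃ (a : ℕ) (b : Fin n → ℕ), 0 < a ∧ a ≤ G ∧
      (∀ i, b i + a * d ≤ G) ∧ ∀ s : Fin n → ℕ, (∀ i, s i ≤ d) → φ (b + a • s) = φ b := by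
  classical
  obtain ⟨G, hG⟩ := hhj n d I
  refine ⟨G, fun R φ hR hφ => ?_⟩
  obtain ⟨e⟩ : Nonempty (R ↪ Fin (I + 1)) :=
    Function.Embedding.nonempty_of_card_le (by simpa using hR.trans I.le_succ)
  obtain ⟨a, b, a0, aG, hb, hs⟩ := hG fun t => if h : φ t ∈ R then e ⟨φ t, h⟩ else 0
  refine ⟨a, b, a0, aG, hb, fun s h => ?_⟩
  have m1 : φ (b + a • s) ∈ R := hφ _ fun i =>
    le_trans (by simpa using Nat.mul_le_mul_left a (h i)) (hb i)
  have m2 : φ b ∈ R := hφ _ fun i => le_trans (Nat.le_add_right _ _) (hb i)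
  have := hs s h
  simp only [dif_pos m1, dif_pos m2] at this
  exact congrArg Subtype.val (e.injective this)

theorem disc_gp {n : ℕ} (a : ℕ) (b : Fin n → ℕ) (l : List (Fin n)) :
    gp b + (2 * Real.pi * Complex.I * a : ℂ) • (l.map uv).sum =
      gp (b + a • fun i => l.count i) := by
  have : ∀ i, (l.map uv).sum i = l.count i := by
    intro i
    induction l with
    | nil => simp
    | cons j l ih =>
      rw [List.map_cons, List.sum_cons, Pi.add_apply, ih, List.count_cons]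
      by_cases h : j = i
      · simp [h, uv, add_comm]
      · simp [h, uv, Ne.symm h]
  funext i
  simp only [gp, Pi.add_apply, Pi.smul_apply, smul_eq_mul, this]
  push_cast
  ring

theorem disc_norm (a : ℕ) : ‖(2 * Real.pi * Complex.I * a : ℂ)‖ = 2 * Real.pi * a := by
  simp [abs_of_pos Real.pi_pos]

theorem disc_fin (hdiff : T_DIFF) {n D G a : ℕ} {b : Fin n → ℕ} {l : List (Fin n)} {ρ η : ℝ}
    {f g : Cn n → ℂ} (hc : Chn (ball 0 ρ) (l.map uv) f g) (hl : l.length ≤ D) (a0 : 0 < a)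
    (aG : a ≤ G) (hb : ∀ i, b i ≤ G) (hρ : 2 * Real.pi * G * (D + 1) < ρ)
    (hg : ∀ p ∈ ball (0 : Cn n) ρ, ‖g p - g 0‖ ≤ 1 / 2 * ‖g 0‖)
    (hf : ∀ s : Fin n → ℕ, (∀ i, s i ≤ D) →
      ∃ z : ℤ, ‖f (gp (b + a • s)) - 2 * Real.pi * Complex.I * z‖ ≤ η)
    (hX : (2 * Real.pi * a) ^ l.length * ‖g 0‖ ≤ 1) (hη : 2 ^ D * η ≤ 1) :
    ‖g 0‖ ≤ 2 ^ (D + 1) * η := by
  have η0 : 0 ≤ η := by
    obtain ⟨z, hz⟩ := hf 0 fun _ => Nat.zero_le _
    exact (norm_nonneg _).trans hz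
  have hπ := Real.pi_gt_three
  have aG' : (a : ℝ) ≤ G := by exact_mod_cast aG
  have a1 : (1 : ℝ) ≤ a := by exact_mod_cast a0
  have hl' : (l.length : ℝ) ≤ D := by exact_mod_cast hl
  obtain ⟨z, hz⟩ := hdiff n (l.map uv) ρ (1 / 2 * ‖g 0‖) η (2 * Real.pi * Complex.I * a) (g 0) f g
    (gp b) hc (by
      have e : ((l.map uv).map fun u => ‖u‖).sum = l.length := by
        simp [List.map_map, Function.comp_def, norm_uv]
      rw [e, disc_norm]
      have h1 := norm_gp_le hb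
      have h2 : 2 * Real.pi * a * l.length ≤ 2 * Real.pi * G * D := by gcongr
      linarith) hg (by
      intro l' hl'
      obtain ⟨l'', h1, rfl⟩ := List.sublist_map_iff.1 hl'
      rw [disc_gp]
      exact hf _ fun i => List.count_le_length.trans (h1.length_le.trans hl))
  rw [List.length_map, disc_norm] at hz
  have e1 : ‖(2 * Real.pi * Complex.I * a : ℂ) ^ l.length * g 0‖ =
      (2 * Real.pi * a) ^ l.length * ‖g 0‖ := by rw [norm_mul, norm_pow, disc_norm]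
  have e2 : (2 : ℝ) ^ l.length * η ≤ 2 ^ D * η :=
    mul_le_mul_of_nonneg_right (pow_le_pow_right₀ one_le_two hl) η0
  have z0 : z = 0 := by
    by_contra z0
    have h1 : (1 : ℝ) ≤ |(z : ℝ)| := by exact_mod_cast Int.one_le_abs z0
    have h2 : ‖(2 * Real.pi * Complex.I * z : ℂ)‖ = 2 * Real.pi * |(z : ℝ)| := by
      simp [abs_of_pos Real.pi_pos]
    have h3 := norm_sub_norm_le (2 * Real.pi * Complex.I * z : ℂ)
      ((2 * Real.pi * Complex.I * a : ℂ) ^ l.length * g 0)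
    rw [norm_sub_rev, h2, e1] at h3
    nlinarith
  rw [z0, Int.cast_zero, mul_zero, sub_zero, e1] at hz
  have e3 : 1 ≤ (2 * Real.pi * a) ^ l.length := one_le_pow₀ (by nlinarith)
  rw [pow_succ]
  nlinarith [norm_nonneg (g 0)]

theorem disc_small (hcau : T_CAU) (hbc : T_BC) {n N₁ G a : ℕ} {A : Finset (Fin n)}
    {l : List (Fin n)} {r B M : ℝ} {φ lb g : Cn n → ℂ} (hs : Shape A (N₁ + 1) l) (r1 : 1 ≤ r)
    (aG : a ≤ G) (hφ : DifferentiableOn ℂ φ (ball 0 r)) (hlb : DifferentiableOn ℂ lb (ball 0 r))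
    (hc : Chn (ball 0 r) (l.map uv) (fun p => φ p - lb p) g)
    (hre : ∀ p ∈ ball (0 : Cn n) r, |(lb p).re| ≤ B) (M0 : 0 ≤ M)
    (hM : ∀ p ∈ ball (0 : Cn n) r, ‖φ p‖ ≤ M * r ^ N₁)
    (hδ : ∀ j, j ∉ A → ‖fderiv ℂ φ 0 (uv j)‖ ≤ 1 / (4 * Real.pi * (G + 1)))
    (hB : 64 * Real.pi * (G + 1) * B ≤ r)
    (hr : (2 * Real.pi * G * 2 ^ (N₁ + 5)) ^ (N₁ + 2) * (M + 1) ≤ r) :
    (2 * Real.pi * a) ^ l.length * ‖g 0‖ ≤ 1 := by
  have r0 : 0 < r := by linarith
  have hπ := Real.pi_gt_three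
  have aG' : (a : ℝ) ≤ G := by exact_mod_cast aG
  have G0 : (0 : ℝ) ≤ G := Nat.cast_nonneg _
  have m0 : (0 : Cn n) ∈ ball (0 : Cn n) r := mem_ball_self r0
  have B0 : 0 ≤ B := (abs_nonneg _).trans (hre 0 m0)
  obtain ⟨b1, b2⟩ := hbc (Cn n) lb 0 r (2 * B) r0 hlb fun p hp p' hp' => by
    have := abs_sub (lb p).re (lb p').re
    linarith [hre p hp, hre p' hp']
  rcases hs with ⟨j, hj, rfl⟩ | ⟨hl, -⟩
  · obtain ⟨-, f', h1, -, h2⟩ := hc
    have n0 := isOpen_ball.mem_nhds m0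
    have e : g 0 = fderiv ℂ φ 0 (uv j) - fderiv ℂ lb 0 (uv j) := by
      rw [← h2 0 m0, ← h1 0 m0, fderiv_fun_sub (hφ.differentiableAt n0) (hlb.differentiableAt n0)]
      rfl
    have h3 : ‖fderiv ℂ lb 0 (uv j)‖ ≤ 8 * (2 * B) / r := by
      have := (fderiv ℂ lb 0).le_opNorm (uv j)
      rw [norm_uv, mul_one] at this
      exact this.trans (b1 0 (mem_ball_self (by linarith)))
    have h4 : 8 * (2 * B) / r ≤ 1 / (4 * Real.pi * (G + 1)) := by
      rw [div_le_div_iff₀ r0 (by positivity)]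
      linarith
    have h5 : ‖g 0‖ ≤ 2 * (1 / (4 * Real.pi * (G + 1))) := by
      rw [e]
      linarith [norm_sub_le (fderiv ℂ φ 0 (uv j)) (fderiv ℂ lb 0 (uv j)), hδ j hj]
    rw [List.length_singleton, pow_one]
    calc 2 * Real.pi * a * ‖g 0‖ ≤ 2 * Real.pi * (G + 1) * (2 * (1 / (4 * Real.pi * (G + 1)))) := by
          gcongr
          linarith
      _ = 1 := by field_simp; norm_num
  · have sub : ball (0 : Cn n) (r / 2) ⊆ ball 0 r := ball_subset_ball (by linarith)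
    have h1 := hcau n (l.map uv) (r / 2) ((M + 1) * r ^ (N₁ + 1)) (-lb 0) _ g
      (by intro h; rw [List.map_eq_nil_iff] at h; rw [h] at hl; simp at hl) (by linarith)
      (hc.mono sub) (by
        intro u hu
        obtain ⟨i, -, rfl⟩ := List.mem_map.1 hu
        exact (norm_uv i).le) (by
        intro p hp
        have h1 := b2 p hp 0 (mem_ball_self (by linarith))
        have h2 : ‖p - 0‖ ≤ r / 2 := by
          rw [sub_zero]
          exact (mem_ball_zero_iff.1 hp).le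
        have h3 : 8 * (2 * B) / r * ‖p - 0‖ ≤ 8 * (2 * B) / r * (r / 2) := by gcongr
        have h4 : 8 * (2 * B) / r * (r / 2) = 8 * B := by field_simp
        have h5 : 8 * B ≤ r := by nlinarith [mul_nonneg G0 B0]
        have h6 : r ≤ r ^ (N₁ + 1) := le_self_pow₀ r1 (by omega)
        have h7 : M * r ^ N₁ ≤ M * r ^ (N₁ + 1) := by gcongr; omega
        have h8 := norm_sub_le (φ p) (lb p - lb 0)
        rw [show φ p - lb p - -lb 0 = φ p - (lb p - lb 0) by ring]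
        linarith [hM p (sub hp)])
    rw [List.length_map] at h1
    rw [hl] at h1 ⊢
    calc (2 * Real.pi * a) ^ (N₁ + 1 + 1) * ‖g 0‖
        ≤ (2 * Real.pi * G) ^ (N₁ + 1 + 1) *
          ((M + 1) * r ^ (N₁ + 1) * (2 ^ (N₁ + 1 + 1 + 2) / (r / 2)) ^ (N₁ + 1 + 1)) := by gcongr
      _ = (2 * Real.pi * G * 2 ^ (N₁ + 5)) ^ (N₁ + 2) * (M + 1) / r := by
          rw [show (2 : ℝ) ^ (N₁ + 1 + 1 + 2) / (r / 2) = 2 ^ (N₁ + 5) / r by field_simp; ring,
            div_pow, mul_pow (2 * Real.pi * G)]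
          field_simp
          ring
      _ ≤ 1 := (div_le_one r0).2 hr

theorem disc_ev (K : ℝ) : ∀ᶠ r : ℝ in atTop, K * Real.log r ≤ r := by
  have h := Real.isLittleO_log_id_atTop.const_mul_left K
  filter_upwards [h.bound one_pos, eventually_ge_atTop 0] with r hr r0
  rw [one_mul, id, Real.norm_eq_abs, Real.norm_eq_abs, abs_of_nonneg r0] at hr
  exact (le_abs_self _).trans hr

theorem disc_simple {n : ℕ} {F : Type} [Field F] [Algebra ℂ F] (D : Data n F) {h : P1 n}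
    {d₁ : MP n} (hs : Simple D.P h d₁) {x : Cn n} (hx : eval x D.P = 0) (hd : eval x d₁ ≠ 0)
    (t : ℂ) (ht : (h.map (eval x)).eval t = 0) :
    (Polynomial.derivative (h.map (eval x))).eval t ≠ 0 := by
  obtain ⟨-, -, -, a, b, hab⟩ := hs
  intro h0
  have h1 : (a * h + b * Polynomial.derivative h - Polynomial.C d₁).map (eval x) = 0 := by
    ext j
    rw [Polynomial.coeff_map, D.eval_of_dvd hx (hab j), Polynomial.coeff_zero]
  have h2 := congrArg (Polynomial.eval t) h1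
  rw [Polynomial.derivative_map] at h0
  simp only [Polynomial.map_sub, Polynomial.map_add, Polynomial.map_mul, Polynomial.map_C,
    Polynomial.eval_sub, Polynomial.eval_add, Polynomial.eval_mul, Polynomial.eval_C, ht, h0,
    Polynomial.eval_zero] at h2
  exact hd (by simpa using h2)

theorem t_disc (hrootw : T_ROOTW) (hsheet : T_SHEET) (hlog : T_LOG) (huniq : T_UNIQ) (hhj : T_HJ)
    (hdiff : T_DIFF) (hcau : T_CAU) (hrelv : T_RELV) (hbc : T_BC) (hrb : T_RB) : T_DISC := by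
  classical
  intro n F _ _ D A v m h d₁ N₁ hA hF hM hm hAm hAv hv hs
  obtain ⟨S₁, C, gS, C1, hW⟩ := hrootw n F D A v m h d₁ (N₁ + 1) hA hF hM hm hAm hAv hv hs
  obtain ⟨Cb, Cb1, hB⟩ := hrb h.natDegree
  obtain ⟨G, hG⟩ := disc_col hhj n (N₁ + 2) h.natDegree
  obtain ⟨cr, cr0, cr1, hR⟩ := hrelv (1 / 2) (by norm_num)
  have hπ := Real.pi_gt_three
  have G0 : (0 : ℝ) ≤ G := Nat.cast_nonneg _
  have N0 : (0 : ℝ) ≤ N₁ := Nat.cast_nonneg _
  obtain ⟨S, hS⟩ : ∃ S : Finset (MP n), S = S₁ ∪ insert d₁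
    (((Finset.range (h.natDegree + 1)).image h.coeff).filter fun g => ¬ D.P ∣ g) := ⟨_, rfl⟩
  have s1 : S₁ ⊆ S := hS ▸ Finset.subset_union_left
  have s2 : d₁ ∈ S := hS ▸ Finset.mem_union_right _ (Finset.mem_insert_self _ _)
  have s3 : ∀ j ≤ h.natDegree, ¬ D.P ∣ h.coeff j → h.coeff j ∈ S := fun j hj hd =>
    hS ▸ Finset.mem_union_right _ (Finset.mem_insert_of_mem (Finset.mem_filter.2
      ⟨Finset.mem_image_of_mem _ (Finset.mem_range.2 (Nat.lt_succ_of_le hj)), hd⟩))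
  refine ⟨S, G, 1 + (h.natDegree + 1) * (Cb + (C + N₁ + 6)), 1 / (4 * Real.pi * (G + 1)), ?_,
    le_add_of_nonneg_right (by positivity), by positivity, fun N₀ N1 => ?_⟩
  · intro g hg
    rw [hS] at hg
    rcases Finset.mem_union.1 hg with hg | hg
    · exact gS g hg
    · rcases Finset.mem_insert.1 hg with rfl | hg
      · exact hs.2.2.1
      · exact (Finset.mem_filter.1 hg).2
  obtain ⟨r₀, hr₀⟩ := eventually_atTop.1 ((eventually_ge_atTop (3 : ℝ)).and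
    ((disc_ev (64 * Real.pi * (G + 1) * Cb * N₀)).and
    ((disc_ev ((2 * Real.pi * G * (N₁ + 3) + 1) * C * N₀ / cr)).and
    (eventually_ge_atTop ((2 * Real.pi * G * 2 ^ (N₁ + 5)) ^ (N₁ + 2) *
      (∑ i, |(m i : ℝ)| + 1))))))
  refine ⟨r₀, fun r hr ζ ω τ c₀ hζ hω H => ?_⟩
  obtain ⟨r3, q1, q2, q3⟩ := hr₀ r hr
  have r0 : 0 < r := by linarith
  have lg : 1 ≤ Real.log r := by
    rw [Real.le_log_iff_exp_le r0]
    linarith [Real.exp_one_lt_three]
  obtain ⟨L, hL⟩ : ∃ L, L = N₀ * Real.log r := ⟨_, rfl⟩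
  rw [← hL] at H ⊢
  have L1 : 1 ≤ L := by rw [hL]; nlinarith
  have CL : 1 ≤ C * L := by nlinarith
  have q1' : 64 * Real.pi * (G + 1) * (Cb * L) ≤ r := by rw [hL]; linarith
  have ρ1 : 2 * Real.pi * G * (((N₁ + 2 : ℕ) : ℝ) + 1) < cr * r / (C * L) := by
    rw [lt_div_iff₀ (by linarith)]
    rw [div_mul_eq_mul_div, div_le_iff₀ cr0, mul_assoc _ N₀, ← hL] at q2
    push_cast
    nlinarith
  have ρ2 : cr * r / (C * L) ≤ r := by
    rw [div_le_iff₀ (by linarith)]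
    nlinarith
  have gpm : ∀ t : Fin n → ℕ, (∀ i, t i ≤ G) → gp t ∈ ball (0 : Cn n) r := fun t ht => by
    rw [mem_ball_zero_iff]
    have h1 := norm_gp_le ht
    have h2 : (0 : ℝ) ≤ ((N₁ + 2 : ℕ) : ℝ) := Nat.cast_nonneg _
    nlinarith [mul_nonneg (mul_nonneg Real.pi_pos.le G0) h2]
  have m0 : (0 : Cn n) ∈ ball (0 : Cn n) r := mem_ball_self r0
  have lc : ∀ x ∈ ball (0 : Cn n) r,
      Real.exp (-L) ≤ ‖(h.map (eval (ζ x))).coeff h.natDegree‖ := fun x hx => by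
    rw [Polynomial.coeff_map]
    exact ((H x hx).2.1 _ (s3 _ le_rfl hs.2.1)).1
  have lc0 : ∀ x ∈ ball (0 : Cn n) r, (h.map (eval (ζ x))).coeff h.natDegree ≠ 0 := fun x hx =>
    norm_pos_iff.1 ((Real.exp_pos _).trans_le (lc x hx))
  obtain ⟨th, t1, t2⟩ := disc_branch hsheet huniq (d := h.natDegree) (Ω := ball 0 r)
    (fun x => h.map (eval (ζ x))) (convex_ball _ _) isOpen_ball m0
    (fun j => by
      simp only [Polynomial.coeff_map]
      exact (differentiable_eval (h.coeff j)).comp_differentiableOn hζ)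
    (fun x hx => ⟨Polynomial.natDegree_map_le, lc0 x hx⟩)
    (fun x hx => disc_simple D hs (H x hx).1.eval_P ((H x hx).2.1.ne_zero s2))
  have rb : ∀ x ∈ ball (0 : Cn n) r, ∀ Y, (h.map (eval (ζ x))).eval Y = 0 →
      Real.exp (-(Cb * L)) ≤ ‖Y‖ ∧ ‖Y‖ ≤ Real.exp (Cb * L) := fun x hx Y hY => by
    refine hB (fun j => eval (ζ x) (h.coeff j)) L Y L1 (fun j hj => ?_)
      ((H x hx).2.1 _ (s3 _ (Nat.zero_le _) hs.1)).1 ((H x hx).2.1 _ (s3 _ le_rfl hs.2.1)).1 ?_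
    · by_cases hd : D.P ∣ h.coeff j
      · simp only [D.eval_of_dvd (H x hx).1.eval_P hd, norm_zero]
        positivity
      · exact ((H x hx).2.1 _ (s3 j hj hd)).2
    · rw [← ev1_eq_sum _ _ _ le_rfl, ev1_eq, hY]
  by_contra hcon
  push Not at hcon
  have ex : ∀ t : Fin n → ℕ, (∀ i, t i ≤ G) → ∃ t₀, (h.map (eval (ζ 0))).eval t₀ = 0 ∧
      ‖Complex.exp (dz m (ζ (gp t))) - th t₀ (gp t)‖ ≤
        Real.exp (-((Cb + (C + N₁ + 6)) * L)) := fun t ht => by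
    have h1 := hcon t ht
    rw [ev1_eq] at h1
    obtain ⟨b, hb, h2⟩ := disc_root _ _ Polynomial.natDegree_map_le (lc _ (gpm t ht))
      (by positivity) (by linarith) h1
    obtain ⟨t₀, h3, h4⟩ := t2 _ (gpm t ht) b hb
    exact ⟨t₀, h3, h4 ▸ h2⟩
  choose! φ φ1 φ2 using ex
  have p0 : h.map (eval (ζ 0)) ≠ 0 := fun e => lc0 0 m0 (by rw [e, Polynomial.coeff_zero])
  obtain ⟨a, b, a0, aG, hb, hcol⟩ := hG (h.map (eval (ζ 0))).roots.toFinset φ
    ((Multiset.toFinset_card_le _).trans ((Polynomial.card_roots' _).trans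
      Polynomial.natDegree_map_le))
    (fun t ht => Multiset.mem_toFinset.2 ((Polynomial.mem_roots p0).2 (φ1 t ht)))
  have bG : ∀ i, b i ≤ G := fun i => le_trans (Nat.le_add_right _ _) (hb i)
  obtain ⟨θ1, θ2⟩ := t1 _ (φ1 b bG)
  obtain ⟨lb, l1, l2⟩ := hlog (Cn n) (ball 0 r) (th (φ b)) (convex_ball _ _) isOpen_ball θ1
    fun x hx => norm_pos_iff.1 ((Real.exp_pos _).trans_le (rb x hx _ (θ2 x hx)).1)
  obtain ⟨l, g, sh, ch, tg⟩ := hW (ball 0 r) ζ ω τ lb c₀ L (convex_ball _ _) isOpen_ball ⟨0, m0⟩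
    hζ hω l1 L1 fun x hx => ⟨(H x hx).1, (H x hx).2.1.subset s1, by
      rw [ev1_eq, l2 x hx]; exact θ2 x hx, (H x hx).2.2.2.1⟩
  have len : l.length ≤ N₁ + 2 := by
    rcases sh with ⟨j, -, rfl⟩ | ⟨e, -⟩
    · simp
    · exact e.le
  have small := disc_small hcau hbc (B := Cb * L) (M := ∑ i, |(m i : ℝ)|) (a := a) sh
    (by linarith) aG ((differentiable_dz m).comp_differentiableOn hζ) l1 ch
    (fun x hx => by
      have h1 := rb x hx _ (θ2 x hx)
      rw [← l2 x hx, Complex.norm_exp, Real.exp_le_exp, Real.exp_le_exp] at h1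
      exact abs_le.2 h1)
    (by positivity)
    (fun x hx => (norm_dz_le m _).trans (mul_le_mul_of_nonneg_left (H x hx).2.2.1 (by positivity)))
    (H 0 m0).2.2.2.2 q1' q3
  have e1 : ∀ k : ℕ, (2 : ℝ) ^ k ≤ Real.exp (k * L) := fun k => by
    rw [Real.exp_nat_mul]
    exact pow_le_pow_left₀ (by norm_num) (by linarith [Real.add_one_le_exp L]) k
  have e2 : ∀ k : ℕ, (2 : ℝ) ^ k * Real.exp (-((C + N₁ + 6) * L)) ≤
      Real.exp (k * L - (C + N₁ + 6) * L) := fun k => by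
    rw [sub_eq_add_neg, Real.exp_add]
    exact mul_le_mul_of_nonneg_right (e1 k) (Real.exp_pos _).le
  have e3 : ∀ k : ℕ, k ≤ N₁ + 6 → (2 : ℝ) ^ k * Real.exp (-((C + N₁ + 6) * L)) ≤ 1 := fun k hk => by
    have : (k : ℝ) ≤ N₁ + 6 := by exact_mod_cast hk
    exact (e2 k).trans (Real.exp_le_one_iff.2 (by nlinarith))
  have fin := disc_fin hdiff (D := N₁ + 2) (η := 2 * Real.exp (-((C + N₁ + 6) * L)))
    (ch.mono (ball_subset_ball ρ2)) len a0 aG bG ρ1
    (hR n g 0 r (C * L) r0 CL ch.right tg)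
    (fun s hs => by
      have tG : ∀ i, (b + a • s) i ≤ G := fun i =>
        le_trans (by simpa using Nat.mul_le_mul_left a (hs i)) (hb i)
      have h1 := φ2 _ tG
      have h2 := (rb _ (gpm _ tG) _ (θ2 _ (gpm _ tG))).1
      rw [hcol s hs] at h1
      rw [← l2 _ (gpm _ tG)] at h1 h2
      refine disc_log (by have := e3 1 (by omega); linarith) (h1.trans ?_)
      rw [show -((Cb + (C + N₁ + 6)) * L) = -((C + N₁ + 6) * L) + -(Cb * L) by ring, Real.exp_add]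
      gcongr)
    small (by have := e3 (N₁ + 2 + 1) (by omega); rw [pow_succ] at this; linarith)
  have e4 := e2 (N₁ + 2 + 1 + 1)
  rw [pow_succ] at e4
  have e5 := Real.exp_le_exp.1 ((tg 0 m0).1.trans (fin.trans (by linarith :
    _ ≤ Real.exp (((N₁ + 2 + 1 + 1 : ℕ) : ℝ) * L - (C + N₁ + 6) * L))))
  push_cast at e5
  nlinarith

end Pool.Agent.P.MP_d2ed07_lc
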