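import Pool.Agent.P.MP_d2ed07_lc.Basic2
import Pool.Agent.P.MP_d2ed07_lc.RAB
import Pool.Agent.P.MP_d2ed07_lc.ROS

/-! The dominant case, two variables, and ideals of height one. -/

namespace Pool.Agent.P.MP_d2ed07_lc

open MvPolynomial Metric Filter Topology

variable {n : ℕ} {F : Type} [Field F] [Algebra ℂ F]

theorem dom_zpow {K L : Type} [Field K] [Field L] [Algebra K L] {a : L} {j : ℤ} (hj : j ≠ 0)
    (h : IsAlgebraic K (a ^ j)) : IsAlgebraic K a := by
  obtain ⟨i, rfl | rfl⟩ := j.eq_nat_or_neg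
  · rw [zpow_natCast] at h
    exact h.of_pow (by omega)
  · rw [zpow_neg, zpow_natCast, IsAlgebraic.inv_iff] at h
    exact h.of_pow (by omega)

/-- the substitution `X 0 = √2 X 1` -/
noncomputable def dom_ps (n : ℕ) : MP (n + 2) →ₐ[ℂ] MP (n + 1) :=
  aeval (Fin.cons (C ((√2 : ℝ) : ℂ) * X 0) X : Fin (n + 2) → MP (n + 1))

/-- the equation of the hyperplane -/
noncomputable def dom_P (n : ℕ) : MP (n + 2) := X 0 - C ((√2 : ℝ) : ℂ) * X 1

/-- the new additive coordinates -/
noncomputable def dom_z (z : Fin (n + 1) → F) : Fin (n + 2) → RatFunc F := fun i =>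
  RatFunc.C (Fin.cons (α := fun _ => F) (algebraMap ℂ F (√2 : ℝ) * z 0) z i)

theorem dom_ev (z : Fin (n + 1) → F) (g : MP (n + 2)) :
    aeval (dom_z z) g = RatFunc.C (aeval z (dom_ps n g)) := by
  induction g using MvPolynomial.induction_on with
  | C a => simp [rab_map, dom_ps]
  | add p q hp hq => simp only [map_add, hp, hq]
  | mul_X p i hp =>
    simp only [map_mul, hp, aeval_X]
    congr 1
    refine Fin.cases ?_ (fun i => ?_) i <;> simp [dom_z, dom_ps]

theorem dom_dvd (g : MP (n + 2)) : dom_P n ∣ g - rename Fin.succ (dom_ps n g) := by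
  induction g using MvPolynomial.induction_on with
  | C a => simp [dom_ps]
  | add p q hp hq =>
    rw [map_add, map_add, add_sub_add_comm]
    exact hp.add hq
  | mul_X p i hp =>
    have h : dom_P n ∣ X i - rename Fin.succ (dom_ps n (X i)) := by
      refine Fin.cases ?_ (fun i => ?_) i <;> simp [dom_ps, dom_P]
    have e : p * X i - rename Fin.succ (dom_ps n (p * X i)) =
        (p - rename Fin.succ (dom_ps n p)) * X i +
          rename Fin.succ (dom_ps n p) * (X i - rename Fin.succ (dom_ps n (X i))) := by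
      rw [map_mul, map_mul]
      ring
    rw [e]
    exact (hp.mul_right _).add (h.mul_left _)

theorem dom_ddir : ddir (Pi.single 0 1) (dom_P n) = 1 := by
  simp [ddir_single, dom_P]

theorem dom_ne : dom_P n ≠ 0 := fun h => by
  have := dom_ddir (n := n)
  rw [h, ← C_0, ddir_C] at this
  exact zero_ne_one this

theorem dom_top : top (dom_P n) = dom_P n := by
  have h : (dom_P n).IsHomogeneous 1 :=
    (isHomogeneous_X ℂ 0).sub ((isHomogeneous_X ℂ 1).C_mul _)
  rw [top, h.totalDegree dom_ne, homogeneousComponent_of_mem h, if_pos rfl]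

/-- the extended generic point -/
noncomputable def dom_D (z y : Fin (n + 1) → F) (hy : ∀ i, y i ≠ 0)
    (hz : AlgebraicIndependent ℂ z) : Data (n + 2) (RatFunc F) where
  z := dom_z z
  y := Fin.cons RatFunc.X fun i => RatFunc.C (y i)
  hy := fun i => Fin.cases RatFunc.X_ne_zero (fun i => (map_ne_zero _).2 (hy i)) i
  P := dom_P n
  hP0 := dom_ne
  hP := fun g => by
    rw [dom_ev, map_eq_zero]
    constructor
    · intro h
      have := dom_dvd g
      rwa [algebraicIndependent_iff.1 hz _ h, map_zero, sub_zero] at this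
    · rintro ⟨q, rfl⟩
      simp [dom_ps, dom_P]

theorem dom_free (z y : Fin (n + 1) → F) (hy : ∀ i, y i ≠ 0) (hz : AlgebraicIndependent ℂ z) :
    Free (dom_D z y hy hz).z := by
  refine (Data.free_iff _).2 fun m hm c hc => hm ?_
  have key : ∀ x : Cn (n + 1), m 0 * ((√2 : ℝ) * x 0) + dz (Fin.tail m) x = c := fun x => by
    have := (dom_D z y hy hz).eval_of_dvd (x := Fin.cons ((√2 : ℝ) * x 0) x)
      (by simp [dom_D, dom_P]) hc
    rw [map_sub, eval_lform, eval_C, sub_eq_zero] at this
    rw [← this]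
    simp [dz, Fin.sum_univ_succ, Fin.tail]
  have h0 := key 0
  have h1 := fun i => key (Pi.single i 1)
  simp only [dz_single] at h1
  simp only [dz, Pi.zero_apply, mul_zero, Finset.sum_const_zero, add_zero] at h0
  have h2 : m 0 = 0 := by
    by_contra h
    have h3 := h1 0
    rw [← h0, Pi.single_eq_same, mul_one] at h3
    refine (irrational_sqrt_two.intCast_mul h).ne_int (-Fin.tail m 0) ?_
    have h4 : (m 0 : ℝ) * √2 + Fin.tail m 0 = 0 := by exact_mod_cast h3
    push_cast
    linarith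
  funext i
  refine Fin.cases h2 (fun i => ?_) i
  have h3 := h1 i
  rw [← h0, h2, Int.cast_zero, zero_mul, zero_add, Int.cast_eq_zero] at h3
  exact h3

theorem dom_star (z y : Fin (n + 1) → F) (hy : ∀ i, y i ≠ 0) (hz : AlgebraicIndependent ℂ z) :
    (dom_D z y hy hz).Star := by
  refine ⟨Pi.single 0 1, fun m hm => ?_, ?_⟩
  · rw [dz_single, Int.cast_eq_zero]
    by_contra h
    have h1 : (dom_D z y hy hz).k ≤ (IsScalarTower.toAlgHom ℂ F (RatFunc F)).fieldRange :=
      IntermediateField.adjoin_le_iff.2 (by rintro _ ⟨i, rfl⟩; exact ⟨_, rfl⟩)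
    have h2 : IsAlgebraic F (mon (dom_D z y hy hz).y m) := ros_alg (fun c => h1 c.2) hm
    have h3 : (mon (dom_D z y hy hz).y m) * algebraMap F (RatFunc F) (mon y (Fin.tail m))⁻¹ =
        RatFunc.X ^ m 0 := by
      rw [map_inv₀, mul_inv_eq_iff_eq_mul₀ ((map_ne_zero _).2 (mon_ne_zero hy _))]
      simp [mon, dom_D, Fin.prod_univ_succ, Fin.tail]
    exact RatFunc.transcendental_X (dom_zpow h (h3 ▸ h2.mul (isAlgebraic_algebraMap _)))
  · change ddir _ (top (dom_P n)) ≠ 0
    rw [dom_top, dom_ddir]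
    exact one_ne_zero

theorem t_dom (hdens : T_DENS) : T_DOM := by
  intro n F _ _ z y hy hz f hf
  have e0 : ∀ g : MP2 (n + 1), ev (dom_D z y hy hz).z (dom_D z y hy hz).y
      (rename (Sum.map Fin.succ Fin.succ) g) = RatFunc.C (ev z y g) := fun g => by
    unfold ev
    induction g using MvPolynomial.induction_on with
    | C c => simp [rab_map]
    | add p q hp hq => simp only [map_add, hp, hq]
    | mul_X p i hp =>
      simp only [map_mul, hp, rename_X, aeval_X]
      rcases i with i | i <;> rfl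
  obtain ⟨x, hx, h⟩ := hdens _ _ _ (dom_free z y hy hz) (dom_star z y hy hz)
    (rename (Sum.map Fin.succ Fin.succ) f) (by rw [e0]; exact (map_ne_zero _).2 hf)
  have e : ∀ g : MP2 (n + 1), eval (Sum.elim x (ex x)) (rename (Sum.map Fin.succ Fin.succ) g) =
      eval (Sum.elim (Fin.tail x) (ex (Fin.tail x))) g := fun g => by
    rw [eval_rename]
    congr 2
    funext i
    rcases i with i | i <;> rfl
  refine ⟨Fin.tail x, fun g hg => ?_, e f ▸ h⟩
  rw [← e]
  exact hx _ (by rw [e0, hg, map_zero])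

theorem t_s2 (hhyp2 : T_HYP2) : T_S2 := by
  intro F _ _ D hf ⟨i, hi⟩
  obtain ⟨m₀, h0, h1⟩ : ∃ m₀ : Fin 2 → ℤ, m₀ ≠ 0 ∧
      ∀ m, D.Alg (mon D.y m) → m₀ 0 * m 1 - m₀ 1 * m 0 = 0 := by
    by_cases h : ∀ m, D.Alg (mon D.y m) → m = 0
    · exact ⟨1, one_ne_zero, fun m hm => by simp [h m hm]⟩
    push Not at h
    obtain ⟨m₀, h1, h2⟩ := h
    refine ⟨m₀, h2, fun m hm => ?_⟩
    by_contra h
    have key : ∀ a b : ℤ, a • m + b • m₀ = (m₀ 0 * m 1 - m₀ 1 * m 0) • Pi.single i 1 → False := by
      intro a b e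
      have h3 : D.Alg (mon D.y (a • m + b • m₀)) := by
        rw [mon_add D.hy, mon_smul, mon_smul]
        exact IsAlgebraic.mul (rab_zpow _ hm _) (rab_zpow _ h1 _)
      rw [e, mon_smul, mon_single] at h3
      exact hi (dom_zpow h h3)
    fin_cases i
    · refine key (-m₀ 1) (m 1) (funext fun j => ?_)
      fin_cases j <;> simp <;> ring
    · refine key (m₀ 0) (-m 0) (funext fun j => ?_)
      fin_cases j <;> simp <;> ring
  refine ⟨![-m₀ 1, m₀ 0], fun m hm => ?_, fun h => ?_⟩
  · have h2 : ((m₀ 0 * m 1 - m₀ 1 * m 0 : ℤ) : ℂ) = 0 := by rw [h1 m hm, Int.cast_zero]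
    push_cast at h2
    simp only [dz, Fin.sum_univ_two, Matrix.cons_val_zero, Matrix.cons_val_one]
    linear_combination h2
  · obtain ⟨x, hx, -⟩ := D.exists_pt (S := ∅) fun g hg => absurd hg (Finset.notMem_empty g)
    refine D.free_iff.1 hf m₀ h0 (dz m₀ x) (hhyp2 2 D.P m₀ _ D.prime h0 fun w hw => ?_)
    obtain ⟨t, rfl⟩ : ∃ t : ℂ, w = x + t • ![-(m₀ 1 : ℂ), m₀ 0] := by
      simp only [dz, Fin.sum_univ_two] at hw
      by_cases h2 : m₀ 0 = 0
      · have h3 : (m₀ 1 : ℂ) ≠ 0 := Int.cast_ne_zero.2 fun h3 => h0 (funext fun j => by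
          fin_cases j
          exacts [h2, h3])
        rw [h2, Int.cast_zero, zero_mul, zero_mul, zero_add, zero_add] at hw
        refine ⟨(x 0 - w 0) / m₀ 1, funext fun j => ?_⟩
        fin_cases j
        · simp [h3]
        · simpa [h2] using mul_left_cancel₀ h3 hw
      · have h3 : (m₀ 0 : ℂ) ≠ 0 := Int.cast_ne_zero.2 h2
        refine ⟨(w 1 - x 1) / m₀ 0, funext fun j => ?_⟩
        fin_cases j
        · simp only [Fin.zero_eta, Pi.add_apply, Pi.smul_apply, Matrix.cons_val_zero, smul_eq_mul]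
          field_simp
          linear_combination hw
        · simp [h3]
    rw [ddir_eq_zero_iff.1 h, hx]

theorem dom_prin {R L : Type} [CommRing R] [IsDomain R] [UniqueFactorizationMonoid R] [Field L]
    [Algebra R L] [FaithfulSMul R L] {θ : L} (h : IsAlgebraic R θ) :
    ∃ P : Polynomial R, P ≠ 0 ∧ ∀ G : Polynomial R, Polynomial.aeval θ G = 0 ↔ P ∣ G := by
  let := FractionRing.liftAlgebra R L
  let : NormalizedGCDMonoid R := Nonempty.some inferInstance
  have h1 : IsIntegral (FractionRing R) θ :=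
    ((IsFractionRing.isAlgebraic_iff R (FractionRing R) L).1 h).isIntegral
  obtain ⟨b, hb, e⟩ :=
    IsLocalization.integerNormalization_spec (nonZeroDivisors R) (minpoly (FractionRing R) θ)
  have h2 := IsLocalization.integerNormalization_aeval_eq_zero (nonZeroDivisors R) _
    (minpoly.aeval (FractionRing R) θ)
  have h3 := (IsFractionRing.integerNormalization_eq_zero_iff (A := R)).not.2 (minpoly.ne_zero h1)
  generalize IsLocalization.integerNormalization (nonZeroDivisors R)
    (minpoly (FractionRing R) θ) = Q at e h2 h3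
  refine ⟨Q.primPart, Q.primPart_ne_zero, fun G => ⟨fun hG => ?_, ?_⟩⟩
  · refine Q.isPrimitive_primPart.dvd_of_fraction_map_dvd_fraction_map (K := FractionRing R)
      (dvd_trans ?_ (minpoly.dvd _ θ (by rwa [Polynomial.aeval_map_algebraMap])))
    have h4 := Polynomial.map_dvd (algebraMap R (FractionRing R)) Q.primPart_dvd
    rw [e, ← algebraMap_smul (FractionRing R), ← Polynomial.C_mul'] at h4
    exact (IsUnit.dvd_mul_left (Polynomial.isUnit_C.2 (IsUnit.mk0 _
      (IsFractionRing.to_map_ne_zero_of_mem_nonZeroDivisors hb)))).1 h4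
  · rintro ⟨q, rfl⟩
    rw [map_mul, Polynomial.aeval_primPart_eq_zero h3 h2, zero_mul]

theorem t_ht1 : T_HT1 := by
  intro K F _ _ _ n a i₀ h1 h2
  let R := MvPolynomial {s // s ≠ i₀} K
  let φ : R →ₐ[K] F := aeval fun s => a s
  let := φ.toRingHom.toAlgebra
  have : FaithfulSMul R F := (faithfulSMul_iff_algebraMap_injective R F).2 h1
  let e : MvPolynomial (Fin n) K ≃ₐ[K] Polynomial R :=
    (renameEquiv K (Equiv.optionSubtypeNe i₀).symm).trans (optionEquivLeft K _)
  have he : ∀ g, aeval a g = Polynomial.aeval (a i₀) (e g) := fun g => by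
    induction g using MvPolynomial.induction_on with
    | C c =>
      simp only [e, AlgEquiv.trans_apply, renameEquiv_apply, rename_C]
      rw [optionEquivLeft_C, Polynomial.aeval_C]
      exact (aeval_C _ _).trans (aeval_C (fun s : {s // s ≠ i₀} => a s) _).symm
    | add p q hp hq => simp only [map_add, hp, hq]
    | mul_X p i hp =>
      simp only [map_mul, hp]
      congr 1
      simp only [e, AlgEquiv.trans_apply, renameEquiv_apply, rename_X, aeval_X]
      by_cases hi : i = i₀
      · rw [hi, Equiv.optionSubtypeNe_symm_self, optionEquivLeft_X_none, Polynomial.aeval_X]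
      · rw [Equiv.optionSubtypeNe_symm_of_ne hi, optionEquivLeft_X_some, Polynomial.aeval_C]
        exact (aeval_X (fun s : {s // s ≠ i₀} => a s) ⟨i, hi⟩).symm
  rw [algebraicIndependent_iff] at h2
  push Not at h2
  obtain ⟨g, hg, hg0⟩ := h2
  obtain ⟨P, hP, h⟩ := dom_prin (R := R) (θ := a i₀)
    ⟨e g, (map_ne_zero_iff _ e.injective).2 hg0, (he g).symm.trans hg⟩
  refine ⟨e.symm P, (map_ne_zero_iff _ e.symm.injective).2 hP, fun g => ?_⟩
  rw [he, h, ← map_dvd_iff e, AlgEquiv.apply_symm_apply]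

end Pool.Agent.P.MP_d2ed07_lc
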