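import Pool.Agent.P.MP_d2ed07_lc.Basic2
import Pool.Agent.P.MP_d2ed07_lc.SL2

/-!
Three variables.
-/

namespace Pool.Agent.P.MP_d2ed07_lc

open MvPolynomial Metric Filter Topology

theorem ec3_trdeg {k F : Type} [Field k] [Field F] [Algebra k F] (y : Fin 3 → F)
    (h : ∀ i₀ : Fin 3, ¬ AlgebraicIndependent k (fun s : {s // s ≠ i₀} => y s)) :
    Algebra.trdeg k (IntermediateField.adjoin k (Set.range y)) ≤ 1 := by
  have := sl2_trdeg y 1 fun s hs => by
    by_contra h2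
    have key : ∀ s : Finset (Fin 3), ¬ s.card ≤ 1 → ∃ i₀, ∀ i, i ≠ i₀ → i ∈ s := by decide
    obtain ⟨i₀, hi⟩ := key s h2
    exact h i₀ (hs.comp (fun a : {s // s ≠ i₀} => (⟨a.1, hi a.1 a.2⟩ : s)) fun a b e =>
      Subtype.ext (congrArg (fun c : s => c.1) e))
  simpa using this

theorem ec3_rot {F : Type} [Field F] [Algebra ℂ F] {n : ℕ} {z y : Fin n → F} (hr : Rot z y) :
    (n : Cardinal) ≤ Algebra.trdeg ℂ (IntermediateField.adjoin ℂ (Set.range z)) +
      Algebra.trdeg (IntermediateField.adjoin ℂ (Set.range z)) (IntermediateField.adjoin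
        (IntermediateField.adjoin ℂ (Set.range z)) (Set.range y)) := by
  set k := IntermediateField.adjoin ℂ (Set.range z)
  set L := IntermediateField.adjoin k (Set.range y)
  obtain ⟨s, hs, hi⟩ := hr n (fun r => Pi.single r 1) (Pi.linearIndependent_single_one _ _)
  simp only [dz_single_left, mon_single] at hi
  have hm : ∀ j : Fin n ⊕ Fin n, Sum.elim z y j ∈ L := by
    rintro (j | j)
    · exact L.algebraMap_mem ⟨z j, IntermediateField.subset_adjoin _ _ ⟨j, rfl⟩⟩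
    · exact IntermediateField.subset_adjoin _ _ ⟨j, rfl⟩
  have h1 : AlgebraicIndependent ℂ (fun j : s => (⟨_, hm j⟩ : L)) :=
    AlgebraicIndependent.of_comp (L.val.restrictScalars ℂ) hi
  have h2 := h1.cardinalMk_le_trdeg
  have h3 := trdeg_add_eq ℂ k (A := L)
  rw [h3]
  simpa [hs] using h2

theorem t_ec3 (hdom : T_DOM) (hht1 : T_HT1) (hdens2 : T_DENS2) (hb3 : T_B3) (hmm : T_MM) :
    T_EC3 := by
  intro F _ _ z y hy hf hm hr
  by_cases h1 : AlgebraicIndependent ℂ z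
  · obtain ⟨x, hx, -⟩ := hdom 2 F z y hy h1 1 (by simp [ev])
    exact ⟨x, hx⟩
  by_cases h2 : ∃ i₀ : Fin 3, AlgebraicIndependent ℂ (fun s : {s // s ≠ i₀} => z s)
  · obtain ⟨i₀, h2⟩ := h2
    obtain ⟨P, hP0, hP⟩ := hht1 ℂ F 3 z i₀ h2 h1
    let D : Data 3 F := ⟨z, y, hy, P, hP0, hP⟩
    by_cases hs : D.Star2
    · obtain ⟨x, hx, -⟩ := hdens2 3 F D hf hm hs 1 (by simp [ev])
      exact ⟨x, hx⟩
    · exact hb3 F D hf hm hr hs
  push Not at h2
  have h3 := ec3_trdeg z h2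
  by_cases h4 : ∃ i₀ : Fin 3, AlgebraicIndependent (IntermediateField.adjoin ℂ (Set.range z))
      (fun s : {s // s ≠ i₀} => y s)
  · obtain ⟨i₀, h4⟩ := h4
    exact hmm 3 F z y i₀ hy hf h3 h4
  push Not at h4
  have h5 := (ec3_rot hr).trans (add_le_add h3 (ec3_trdeg y h4))
  norm_cast at h5

end Pool.Agent.P.MP_d2ed07_lc
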