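import Pool.Agent.P.MP_d2ed07_lc.Basic2
import Pool.Agent.P.MP_d2ed07_lc.PARAM
import Pool.Agent.P.MP_d2ed07_lc.SL2

/-! Extension of points of a locus to one more coordinate. -/

namespace Pool.Agent.P.MP_d2ed07_lc

open MvPolynomial Metric Filter Topology

theorem extz_ev {σ B : Type} [CommRing B] (φ : MvPolynomial σ ℂ →+* B) (b : B)
    (ψ : MvPolynomial (Option σ) ℂ →+* B) (h0 : ∀ c, ψ (C c) = φ (C c)) (h1 : ψ (X none) = b)
    (h2 : ∀ s, ψ (X (some s)) = φ (X s)) (g : MvPolynomial (Option σ) ℂ) :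
    ψ g = (optionEquivLeft ℂ σ g).eval₂ φ b := by
  induction g using MvPolynomial.induction_on with
  | C c => rw [optionEquivLeft_C, Polynomial.eval₂_C, h0]
  | add p q hp hq => rw [map_add, map_add, Polynomial.eval₂_add, hp, hq]
  | mul_X p i hp =>
    rw [map_mul, map_mul, Polynomial.eval₂_mul, hp]
    cases i with
    | none => rw [optionEquivLeft_X_none, Polynomial.eval₂_X, h1]
    | some s => rw [optionEquivLeft_X_some, Polynomial.eval₂_C, h2]

theorem extz_loc {F σ : Type} [Field F] [Algebra ℂ F] {a : σ → F} {ξ : σ → ℂ} {b : F} {t : ℂ} :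
    Loc (ext1 b a) (ext1 t ξ) ↔ ∀ G : Polynomial (MvPolynomial σ ℂ),
      G.eval₂ (aeval a : MvPolynomial σ ℂ →ₐ[ℂ] F).toRingHom b = 0 → G.eval₂ (eval ξ) t = 0 := by
  have e1 := extz_ev (aeval a : MvPolynomial σ ℂ →ₐ[ℂ] F).toRingHom b
    (aeval (ext1 b a) : MvPolynomial (Option σ) ℂ →ₐ[ℂ] F).toRingHom (by simp) (by simp [ext1])
    (by simp [ext1])
  have e2 := extz_ev (eval ξ) t (eval (ext1 t ξ)) (by simp) (by simp [ext1]) (by simp [ext1])
  constructor
  · intro h G hG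
    obtain ⟨g, rfl⟩ := (optionEquivLeft ℂ σ).surjective G
    rw [← e2]
    exact h g ((e1 g).trans hG)
  · intro h g hg
    rw [e2]
    exact h _ ((e1 g).symm.trans hg)

theorem extz_core {R F : Type} [CommRing R] [CommRing F] (φ : R →+* F) (ε : R →+* ℂ)
    (ι : ℂ →+* R) (hε : ∀ c, ε (ι c) = c) (hk : ∀ r, φ r = 0 → ε r = 0) (μ : Polynomial R)
    (hμ : μ.Monic) (θ : F) (hθ : μ.eval₂ φ θ = 0) :
    ∃ t : ℂ, ∀ G : Polynomial R, G.eval₂ φ θ = 0 → G.eval₂ ε t = 0 := by
  have := hμ.finite_adjoinRoot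
  have := RingHom.ker_isPrime ε
  obtain ⟨Q, hQ, hp, hc⟩ := Ideal.exists_ideal_over_prime_of_isIntegral (S := AdjoinRoot μ)
    (RingHom.ker ε) (RingHom.ker (AdjoinRoot.lift φ θ hθ)) fun r hr => hk r (by
      rwa [Ideal.mem_comap, RingHom.mem_ker, AdjoinRoot.algebraMap_eq, AdjoinRoot.lift_of] at hr)
  let π := Ideal.Quotient.mk Q
  let ψ : ℂ →+* AdjoinRoot μ ⧸ Q := (π.comp (AdjoinRoot.of μ)).comp ι
  have e : π.comp (AdjoinRoot.of μ) = ψ.comp ε := RingHom.ext fun r => by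
    have h1 : r - ι (ε r) ∈ Q.comap (algebraMap R (AdjoinRoot μ)) := by
      rw [hc, RingHom.mem_ker, map_sub, hε, sub_self]
    rw [Ideal.mem_comap, map_sub] at h1
    exact Ideal.Quotient.eq.2 h1
  have key : ∀ G : Polynomial R, π (AdjoinRoot.mk μ G) =
      ((G.map ε).map ψ).eval (π (AdjoinRoot.root μ)) := fun G => by
    rw [Polynomial.map_map, ← e, Polynomial.eval_map, ← Polynomial.hom_eval₂, ← AdjoinRoot.aeval_eq,
      Polynomial.aeval_def, AdjoinRoot.algebraMap_eq]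
  have h0 : (μ.map ε).map ψ ≠ 0 := ((hμ.map ε).map ψ).ne_zero
  have h1 : π (AdjoinRoot.root μ) ∈ ((μ.map ε).map ψ).roots := by
    rw [Polynomial.mem_roots h0, Polynomial.IsRoot, ← key, AdjoinRoot.mk_self, map_zero]
  rw [(IsAlgClosed.splits _).roots_map_of_ne_zero h0, Multiset.mem_map] at h1
  obtain ⟨t, -, ht⟩ := h1
  refine ⟨t, fun G hG => ψ.injective ?_⟩
  rw [map_zero, ← Polynomial.eval_map, ← Polynomial.eval₂_at_apply, ← Polynomial.eval_map, ht,
    ← key]
  exact Ideal.Quotient.eq_zero_iff_mem.2 (hQ (by rwa [RingHom.mem_ker, AdjoinRoot.lift_mk]))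

theorem t_extz : T_EXTZ := by
  intro F _ _ σ a ξ θ μ hμ hθ h
  obtain ⟨t, ht⟩ := extz_core _ (eval ξ) C (by simp) h μ hμ θ hθ
  exact ⟨t, extz_loc.2 ht⟩

theorem extz_mem {F σ : Type} [Field F] [Algebra ℂ F] (a : σ → F) (g : MvPolynomial σ ℂ) :
    aeval a g ∈ IntermediateField.adjoin ℂ (Set.range a) :=
  (IntermediateField.mem_adjoin_range_iff ℂ a _).2 ⟨g, 1, by simp⟩

/-- evaluation with values in the generated field -/
noncomputable def extz_phi {F σ : Type} [Field F] [Algebra ℂ F] (a : σ → F) :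
    MvPolynomial σ ℂ →+* IntermediateField.adjoin ℂ (Set.range a) :=
  (aeval a : MvPolynomial σ ℂ →ₐ[ℂ] F).toRingHom.codRestrict _ (extz_mem a)

theorem extz_aeval {F σ : Type} [Field F] [Algebra ℂ F] (a : σ → F) (b : F)
    (G : Polynomial (MvPolynomial σ ℂ)) : Polynomial.aeval b (G.map (extz_phi a)) =
      G.eval₂ (aeval a : MvPolynomial σ ℂ →ₐ[ℂ] F).toRingHom b := by
  rw [Polynomial.aeval_def, Polynomial.eval₂_map]
  rfl

theorem t_trc : T_TRC := by
  intro F _ _ σ a ξ β β' hβ h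
  refine extz_loc.2 fun G hG => ?_
  have h2 : G.map (extz_phi a) = 0 := by
    by_contra h3
    exact hβ ⟨_, h3, (extz_aeval a β G).trans hG⟩
  rw [Polynomial.eval₂_eq_sum, Polynomial.sum]
  refine Finset.sum_eq_zero fun j _ => ?_
  have h3 : extz_phi a (G.coeff j) = 0 := by rw [← Polynomial.coeff_map, h2, Polynomial.coeff_zero]
  rw [h _ (congrArg Subtype.val h3), zero_mul]

theorem t_liftp (hextz : T_EXTZ) : T_LIFTP := by
  intro F _ _ σ a c ⟨q, hq0, hq⟩
  obtain ⟨s, Q₀, hs, e⟩ := param_den (extz_phi a) (fun x => by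
    obtain ⟨r, s, h⟩ := (IntermediateField.mem_adjoin_range_iff ℂ a _).1 x.2
    by_cases h0 : aeval a s = 0
    · refine ⟨0, 1, by simp, Subtype.ext ?_⟩
      simp [h, h0]
    · refine ⟨r, s, fun h1 => h0 (congrArg Subtype.val h1), Subtype.ext ?_⟩
      change aeval a s * x = aeval a r
      rw [h, mul_div_cancel₀ _ h0]) q
  obtain ⟨Q, e1, e2⟩ := Polynomial.exists_degree_eq_of_mem_lifts
    ((Polynomial.mem_lifts (f := extz_phi a) _).2 ⟨Q₀, e⟩)
  have hp0 : Polynomial.C (extz_phi a s) * q ≠ 0 := mul_ne_zero (Polynomial.C_ne_zero.2 hs) hq0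
  have hp : Polynomial.aeval c (Polynomial.C (extz_phi a s) * q) = 0 := by
    rw [map_mul, hq, mul_zero]
  have e3 := Polynomial.natDegree_eq_of_degree_eq e2
  have h1 : 1 ≤ Q.natDegree := by
    rw [e3]
    exact Polynomial.natDegree_pos_of_aeval_root hp0 hp fun x hx => (map_eq_zero _).1 hx
  have h2 : aeval a Q.leadingCoeff ≠ 0 := fun h => by
    have h3 : extz_phi a Q.leadingCoeff = 0 := Subtype.ext h
    rw [Polynomial.leadingCoeff, ← Polynomial.coeff_map, e1, e3] at h3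
    exact hp0 (Polynomial.leadingCoeff_eq_zero.1 h3)
  rw [← e1, extz_aeval] at hp
  refine ⟨Q.leadingCoeff, h2, fun ξ hξ h3 => ?_⟩
  obtain ⟨t, ht⟩ := hextz F σ a ξ (aeval a Q.leadingCoeff * c) Q.integralNormalization
    (Polynomial.monic_integralNormalization (by rintro rfl; simp at h1))
    ((Polynomial.integralNormalization_eval₂_leadingCoeff_mul h1 _ c).trans
      (by rw [hp, mul_zero])) hξ
  refine ⟨t / eval ξ Q.leadingCoeff, extz_loc.2 fun G hG => ?_⟩
  have h4 := extz_loc.1 ht (G.scaleRoots Q.leadingCoeff) (Polynomial.scaleRoots_eval₂_eq_zero _ hG)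
  rw [← mul_div_cancel₀ t h3, Polynomial.scaleRoots_eval₂_mul] at h4
  exact (mul_eq_zero.1 h4).resolve_left (pow_ne_zero _ h3)

theorem extz_td {k F ι : Type} (K : Type) [Field k] [Field K] [Field F] [Algebra k K] [Algebra K F]
    [Algebra k F] [IsScalarTower k K F] (a : ι → F) (ha : ∀ s, IsAlgebraic K (a s))
    (hi : AlgebraicIndependent k a) : Cardinal.mk ι ≤ Algebra.trdeg k K := by
  let L := algebraicClosure K F
  have h3 : AlgebraicIndependent k (fun s => (⟨a s, mem_algebraicClosure_iff.2 (ha s)⟩ : L)) :=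
    AlgebraicIndependent.of_comp (L.val.restrictScalars k) hi
  have h4 := h3.cardinalMk_le_trdeg
  rwa [← trdeg_add_eq k K (A := L), trdeg_eq_zero (R := K), add_zero] at h4

theorem t_tdk : T_TDK := by
  intro n F _ _ D ι _ a ha hi
  have h0 : ¬ AlgebraicIndependent ℂ D.z := fun h =>
    D.hP0 (algebraicIndependent_iff.1 h _ ((D.hP _).2 dvd_rfl))
  have h1 : ∀ s : Finset (Fin n), AlgebraicIndependent ℂ (fun i : s => D.z i) → s.card < n := by
    intro s hs
    by_contra h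
    obtain rfl : s = Finset.univ :=
      Finset.eq_univ_of_card s (le_antisymm s.card_le_univ (by simpa using h))
    exact h0 (hs.comp (fun i => ⟨i, Finset.mem_univ i⟩) fun i j hij => congrArg Subtype.val hij)
  have hn : 0 < n := h1 ∅ ((algebraicIndependent_empty_type_iff).2 (algebraMap ℂ F).injective)
  have h2 := sl2_trdeg D.z (n - 1) fun s hs => Nat.le_sub_one_of_lt (h1 s hs)
  have h4 := extz_td D.k a ha hi
  rw [Cardinal.mk_fintype] at h4
  have h5 : Fintype.card ι ≤ n - 1 := by exact_mod_cast h4.trans h2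
  omega

end Pool.Agent.P.MP_d2ed07_lc
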