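import Pool.Agent.P.MP_d2ed07_lc.Basic2
import Pool.Agent.P.MP_d2ed07_lc.PARAM
import Pool.Agent.P.MP_d2ed07_lc.LIFT
import Pool.Agent.P.MP_d2ed07_lc.ROS

/-! Lifting to the fibres with prescribed algebraic coordinates. -/

namespace Pool.Agent.P.MP_d2ed07_lc

open MvPolynomial Metric Filter Topology

theorem fiba_abs {R K F : Type} [CommRing R] [Field K] [Field F] [Algebra K F] [CharZero K]
    (φ : R →+* K) (hfr : ∀ a : K, ∃ r s, φ s ≠ 0 ∧ φ s * a = φ r)
    (T : Finset F) (hT : ∀ a ∈ T, IsAlgebraic K a) :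
    ∃ (θ : F) (μ : Polynomial R) (h : R), μ.Monic ∧ 0 < μ.natDegree ∧ φ h ≠ 0 ∧
      Polynomial.aeval θ (μ.map φ) = 0 ∧
      (∀ G : Polynomial R, Polynomial.aeval θ (G.map φ) = 0 → (G %ₘ μ).map φ = 0) ∧
      (∀ a ∈ T, ∃ G : Polynomial R, a * algebraMap K F (φ h) = Polynomial.aeval θ (G.map φ)) ∧
      ∃ A B : Polynomial R, (A * μ + B * Polynomial.derivative μ - Polynomial.C h).map φ = 0 := by
  classical
  obtain ⟨θ, μ, hθ, h1, h2, h3, h4⟩ := param_monic φ hfr T hT
  have h5 : ∀ T' : Finset F, (∀ a ∈ T', ∃ q : Polynomial K, a = Polynomial.aeval θ q) →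
      ∃ h : R, φ h ≠ 0 ∧ ∀ a ∈ T', ∃ G : Polynomial R,
        a * algebraMap K F (φ h) = Polynomial.aeval θ (G.map φ) := by
    intro T'
    induction T' using Finset.induction_on with
    | empty => exact fun _ => ⟨1, by simp, by simp⟩
    | insert a T' _ ih =>
      intro h
      obtain ⟨s, hs, e⟩ := ih fun b hb => h b (Finset.mem_insert_of_mem hb)
      obtain ⟨q, rfl⟩ := h a (Finset.mem_insert_self _ _)
      obtain ⟨s', Q, hs', e'⟩ := param_den φ hfr q
      refine ⟨s * s', by simp [hs, hs'], fun b hb => ?_⟩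
      rcases Finset.mem_insert.1 hb with rfl | hb
      · refine ⟨Polynomial.C s * Q, ?_⟩
        simp only [Polynomial.map_mul, Polynomial.map_C, e', map_mul, Polynomial.aeval_C]
        ring
      · obtain ⟨G, hG⟩ := e b hb
        refine ⟨Polynomial.C s' * G, ?_⟩
        simp only [Polynomial.map_mul, Polynomial.map_C, ← hG, map_mul, Polynomial.aeval_C]
        ring
  obtain ⟨s, hs, e⟩ := h5 T h4
  obtain ⟨a, b, hab⟩ := (minpoly.irreducible hθ).separable
  obtain ⟨sa, A, ha, ea⟩ := param_den φ hfr a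
  obtain ⟨sb, B, hb, eb⟩ := param_den φ hfr b
  refine ⟨θ, μ, s * (sa * sb), h1, h2, by simp [hs, ha, hb], h3 ▸ minpoly.aeval K θ,
    fun G hG => ?_, fun c hc => ?_,
    Polynomial.C (s * sb) * A, Polynomial.C (s * sa) * B, ?_⟩
  · rw [Polynomial.map_modByMonic _ h1, h3]
    exact (Polynomial.modByMonic_eq_zero_iff_dvd (minpoly.monic hθ)).2 (minpoly.dvd K θ hG)
  · obtain ⟨G, hG⟩ := e c hc
    refine ⟨Polynomial.C (sa * sb) * G, ?_⟩
    simp only [Polynomial.map_mul, Polynomial.map_C, ← hG, map_mul, Polynomial.aeval_C]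
    ring
  · simp only [Polynomial.map_sub, Polynomial.map_add, Polynomial.map_mul, Polynomial.map_C,
      ← Polynomial.derivative_map, h3, ea, eb, map_mul]
    linear_combination (Polynomial.C (φ s) * Polynomial.C (φ sa) * Polynomial.C (φ sb)) * hab

variable {n : ℕ} {F : Type} [Field F] [Algebra ℂ F]

theorem t_parf : T_PARF := by
  classical
  intro n F _ _ D hC l hl M
  have : CharZero F := charZero_of_injective_algebraMap (algebraMap ℂ F).injective
  set φF : P1 n →+* F :=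
    Polynomial.eval₂RingHom (aeval D.z : MP n →ₐ[ℂ] F).toRingHom (mon D.y l) with hφF
  let K : Subfield F := Subfield.closure φF.range
  let φ : P1 n →+* K := φF.codRestrict K fun r => Subfield.subset_closure ⟨r, rfl⟩
  have hφ : ∀ r, algebraMap K F (φ r) = φF r := fun _ => rfl
  have hfr : ∀ a : K, ∃ r s, φ s ≠ 0 ∧ φ s * a = φ r := by
    rintro ⟨a, ha⟩
    obtain ⟨u, hu, v, hv, rfl⟩ := Subfield.mem_closure_iff.1 ha
    rw [Subring.closure_eq] at hu hv
    obtain ⟨r, rfl⟩ := hu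
    obtain ⟨s, rfl⟩ := hv
    by_cases h : φF s = 0
    · exact ⟨0, 1, by simp, Subtype.ext (by simp [h])⟩
    · exact ⟨r, s, fun h' => h (congrArg Subtype.val h'),
        Subtype.ext (mul_div_cancel₀ _ h)⟩
  have hk : ∀ c : D.k, algebraMap D.k F c ∈ K := by
    rintro ⟨c, hc⟩
    change c ∈ K
    induction hc using IntermediateField.adjoin_induction with
    | mem x hx =>
      obtain ⟨i, rfl⟩ := hx
      exact Subfield.subset_closure ⟨Polynomial.C (X i), by simp [hφF]⟩
    | algebraMap c => exact Subfield.subset_closure ⟨Polynomial.C (C c), by simp [hφF]⟩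
    | add x y _ _ hx hy => exact K.add_mem hx hy
    | inv x _ hx => exact K.inv_mem hx
    | mul x y _ _ hx hy => exact K.mul_mem hx hy
  have hb : mon D.y l ∈ K := Subfield.subset_closure ⟨Polynomial.X, by simp [hφF]⟩
  obtain ⟨θ, μ, h, h1, h2, h3, h0, h4, h5, A, B, h6⟩ := fiba_abs φ hfr
    ((M ∪ Finset.univ.image (fun i => Pi.single i 1) ∪
      Finset.univ.image (fun i => -Pi.single i 1)).image (mon D.y)) fun a ha => by
      obtain ⟨m, -, rfl⟩ := Finset.mem_image.1 ha
      exact param_alg hl (hC m l) K hk hb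
  choose! G hG using h5
  have hE₀ : ∀ G : P2 n, Polynomial.aeval θ (G.map φ) = G.eval₂ (D.evF l) θ := fun G => by
    rw [Polynomial.aeval_def, Polynomial.eval₂_map]; rfl
  refine ⟨μ, h, fun m => G (mon D.y m), θ, ⟨h1, h2, ?_, fun x β t hx hh ht => ?_⟩,
    (hE₀ μ).symm.trans h0, fun m hm =>
      (hG _ (Finset.mem_image_of_mem _ (by simp [hm]))).trans (hE₀ _)⟩
  · by_contra! h7
    refine h3 (Subtype.ext ?_)
    change h.eval₂ _ _ = 0
    rw [Polynomial.eval₂_eq_sum]
    exact Finset.sum_eq_zero fun a _ => mul_eq_zero_of_left ((D.hP _).2 (h7 a)) _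
  set χ : P1 n →+* ℂ := Polynomial.eval₂RingHom (eval x) β with hχ
  let E : P2 n →+* F := Polynomial.eval₂RingHom φF θ
  let E' : P2 n →+* ℂ := Polynomial.eval₂RingHom χ t
  have hE : ∀ G : P2 n, Polynomial.aeval θ (G.map φ) = E G := fun G => by
    rw [Polynomial.aeval_def, Polynomial.eval₂_map]; rfl
  have hE' : ∀ G : P2 n, (sp2 x β G).eval t = E' G := fun G => Polynomial.eval_map _ _
  have k1 : ∀ G : P2 n, G.map φ = 0 → E' G = 0 := fun G hG => by
    rw [← hE', sp2, ← hχ]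
    have : G.map χ = 0 := by
      ext j
      have e : φ (G.coeff j) = 0 := by rw [← Polynomial.coeff_map, hG, Polynomial.coeff_zero]
      have e' := param_ker D hl (G.coeff j) (congrArg Subtype.val e)
      rw [Polynomial.coeff_map, Polynomial.coeff_zero]
      change Polynomial.eval₂ _ _ _ = 0
      rw [Polynomial.eval₂_eq_sum]
      refine Finset.sum_eq_zero fun a _ => mul_eq_zero_of_left ?_ _
      obtain ⟨c, hc⟩ := e' a
      rw [hc, map_mul, hx, zero_mul]
    rw [this, Polynomial.eval_zero]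
  rw [hE'] at ht
  have k2 : ∀ G, E G = 0 → E' G = 0 := fun G hG => by
    rw [← Polynomial.modByMonic_add_div G μ, map_add, map_mul, ht, zero_mul, add_zero]
    exact k1 _ (h4 G ((hE G).trans hG))
  have eh : E' (Polynomial.C h) = ev1 x β h := Polynomial.eval₂_C _ _
  have eh' : E (Polynomial.C h) = φF h := Polynomial.eval₂_C _ _
  refine ⟨fun h7 => hh ?_, ?_⟩
  · rw [sp2, Polynomial.derivative_map, ← sp2, hE'] at h7
    have := congrArg E' (sub_add_cancel (A * μ + B * Polynomial.derivative μ) (Polynomial.C h))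
    rw [map_add, k1 _ h6, map_add, map_mul, map_mul, ht, h7, eh] at this
    simpa using this
  obtain ⟨Γ, g1, g2, g3⟩ := param_graph E E' k2 (Polynomial.C h) (eh ▸ hh)
  have g4 : ∀ m ∈ M ∪ Finset.univ.image (fun i => Pi.single i 1) ∪
      Finset.univ.image (fun i => -Pi.single i 1),
      (mon D.y m, E' (G (mon D.y m)) / E' (Polynomial.C h)) ∈ Γ := fun m hm =>
    g2 _ _ (by rw [eh', ← hE, ← hG _ (Finset.mem_image_of_mem _ hm), hφ])
  have a1 : ∀ i, (D.y i, E' (G (D.y i)) / E' (Polynomial.C h)) ∈ Γ := fun i => by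
    simpa only [mon_single] using g4 (Pi.single i 1) (by simp)
  have a2 : ∀ i, ((D.y i)⁻¹, E' (G (D.y i)⁻¹) / E' (Polynomial.C h)) ∈ Γ := fun i => by
    simpa only [mon_neg, mon_single] using g4 (-Pi.single i 1) (by simp)
  choose y' a1 using fun i => (⟨_, a1 i⟩ : ∃ c, (D.y i, c) ∈ Γ)
  choose y'' a2 using fun i => (⟨_, a2 i⟩ : ∃ c, ((D.y i)⁻¹, c) ∈ Γ)
  have a3 : ∀ i, y' i * y'' i = 1 := fun i =>
    g3 1 _ _ (by simpa [D.hy i] using Γ.mul_mem (a1 i) (a2 i)) Γ.one_mem
  have a4 := param_mon Γ a1 fun i => by rw [← eq_inv_of_mul_eq_one_right (a3 i)]; exact a2 i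
  refine ⟨y', fun i => left_ne_zero_of_mul_eq_one (a3 i), fun g hg => ?_, g3 _ _ _ (a4 l) ?_,
    fun m hm => ?_⟩
  · have : (ev D.z D.y g, eval (Sum.elim x y') g) ∈ Γ := by
      clear hg
      induction g using MvPolynomial.induction_on with
      | C a => simpa [ev, E, E', hφF, hχ] using g1 (Polynomial.C (Polynomial.C (C a)))
      | add p q hp hq => simpa [ev] using Γ.add_mem hp hq
      | mul_X p i hp =>
        have : (Sum.elim D.z D.y i, Sum.elim x y' i) ∈ Γ := by
          rcases i with i | i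
          · simpa [E, E', hφF, hχ] using g1 (Polynomial.C (Polynomial.C (X i)))
          · exact a1 i
        simpa [ev] using Γ.mul_mem hp this
    rw [hg] at this
    exact g3 _ _ _ this Γ.zero_mem
  · simpa [E, E', hφF, hχ] using g1 (Polynomial.C Polynomial.X)
  · rw [g3 _ _ _ (a4 m) (g4 m (by simp [hm])), eh, hE', div_mul_cancel₀ _ hh]

theorem fiba_trans (D : Data n F) {σ : Type} {a : σ → F} (ha : ∀ s, D.Alg (a s)) {b : F}
    (hb : ¬ D.Alg b) : Transcendental (IntermediateField.adjoin ℂ (Set.range a)) b := by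
  intro h
  have h1 : Algebra.IsAlgebraic D.k (IntermediateField.adjoin D.k (Set.range a)) :=
    IntermediateField.isAlgebraic_adjoin (by rintro _ ⟨s, rfl⟩; exact (ha s).isIntegral)
  have h2 : IntermediateField.adjoin ℂ (Set.range a) ≤
      (IntermediateField.adjoin D.k (Set.range a)).restrictScalars ℂ :=
    IntermediateField.adjoin_le_iff.2 (IntermediateField.subset_adjoin D.k _)
  have h3 : IsAlgebraic (IntermediateField.adjoin D.k (Set.range a)) b :=
    ros_alg (fun c => ⟨⟨c.1, h2 c.2⟩, rfl⟩) h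
  exact hb (h3.restrictScalars D.k)

/-- polynomials in `x` and `β` inside a larger polynomial ring -/
noncomputable def fiba_io (n : ℕ) : P1 n →+* MvPolynomial (Option (Fin n ⊕ Fin n)) ℂ :=
  Polynomial.eval₂RingHom (rename (fun i => some (Sum.inl i)) :
    MP n →ₐ[ℂ] MvPolynomial (Option (Fin n ⊕ Fin n)) ℂ).toRingHom (X none)

theorem fiba_io_aeval {K : Type} [CommRing K] [Algebra ℂ K] (z y : Fin n → K) (b : K) :
    (aeval (ext1 b (Sum.elim z y)) : MvPolynomial _ ℂ →ₐ[ℂ] K).toRingHom.comp (fiba_io n) =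
      Polynomial.eval₂RingHom (aeval z : MP n →ₐ[ℂ] K).toRingHom b := by
  refine Polynomial.ringHom_ext' (MvPolynomial.ringHom_ext (fun c => ?_) fun i => ?_) ?_ <;>
    simp [fiba_io, ext1]

theorem fiba_rename {K σ : Type} [CommRing K] [Algebra ℂ K] (a : σ → K) (t : K)
    (g : MvPolynomial σ ℂ) : aeval (ext1 t a) (rename some g) = aeval a g := by
  rw [aeval_rename]
  rfl

theorem fiba_ev {K : Type} [CommRing K] [Algebra ℂ K] (z y : Fin n → K) (b t : K) (G : P2 n) :
    aeval (ext1 t (ext1 b (Sum.elim z y))) ((G.map (fiba_io n)).eval₂ (rename some :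
      MvPolynomial _ ℂ →ₐ[ℂ] MvPolynomial (Option (Option (Fin n ⊕ Fin n))) ℂ).toRingHom
        (X none)) =
      G.eval₂ (Polynomial.eval₂RingHom (aeval z : MP n →ₐ[ℂ] K).toRingHom b) t := by
  rw [← fiba_io_aeval z y b, ← Polynomial.eval₂_map]
  refine (Polynomial.hom_eval₂ _ _ (aeval (ext1 t (ext1 b (Sum.elim z y))) :
    MvPolynomial _ ℂ →ₐ[ℂ] K).toRingHom _).trans ?_
  congr 1
  · exact RingHom.ext fun g => fiba_rename _ t g
  · exact aeval_X _ _

theorem t_surj (hextz : T_EXTZ) (htrc : T_TRC) : T_SURJ := by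
  classical
  intro n F _ _ D A l M μ h G θ hA hl hμ hF hM x y₀ β hx
  let yt : Fin n → F := fun i => if i ∈ A then D.y i else 0
  let yt₀ : Cn n := fun i => if i ∈ A then y₀ i else 0
  have h0 : Loc (Sum.elim D.z yt) (Sum.elim x yt₀) := by
    let p : Fin n ⊕ Fin n → MP2 n :=
      Sum.elim (fun i => X (Sum.inl i)) fun i => if i ∈ A then X (Sum.inr i) else 0
    have e : ∀ {K : Type} [CommRing K] [Algebra ℂ K] (z y : Fin n → K) (g : MP2 n),
        aeval (Sum.elim z y) (aeval p g) =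
          aeval (Sum.elim z fun i => if i ∈ A then y i else 0) g := fun z y g => by
      rw [← AlgHom.comp_apply, comp_aeval]
      congr 2
      funext s
      rcases s with i | i
      · simp [p]
      · by_cases hi : i ∈ A <;> simp [p, hi]
    intro g hg
    have := hx (aeval p g) ((e _ _ g).trans hg)
    rwa [← coe_aeval_eq_eval, RingHom.coe_coe, e] at this
  have h1 := htrc F _ _ _ (mon D.y l) β (fiba_trans D (fun s => by
    rcases s with i | i
    · exact isAlgebraic_algebraMap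
        (⟨D.z i, IntermediateField.subset_adjoin ℂ _ ⟨i, rfl⟩⟩ : D.k)
    · by_cases hi : i ∈ A
      · simpa only [yt, Sum.elim_inr, if_pos hi] using hA i hi
      · simpa only [yt, Sum.elim_inr, if_neg hi, Data.Alg] using isAlgebraic_zero) hl) h0
  obtain ⟨t, ht⟩ := hextz F _ _ _ θ (μ.map (fiba_io n)) (hμ.map _)
    (by rw [Polynomial.eval₂_map, fiba_io_aeval]; exact hF.1) h1
  have e : ∀ G : P2 n, (sp2 x β G).eval t =
      G.eval₂ (Polynomial.eval₂RingHom (aeval x : MP n →ₐ[ℂ] ℂ).toRingHom β) t :=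
    fun G => Polynomial.eval_map _ _
  refine ⟨t, ?_, fun i hi => ?_⟩
  · rw [e, ← fiba_ev x yt₀]
    exact ht _ ((fiba_ev _ _ _ _ μ).trans hF.1)
  · have := ht (X (some (some (Sum.inr i))) * rename some (fiba_io n h) -
      ((G (Pi.single i 1)).map (fiba_io n)).eval₂ (rename some : MvPolynomial _ ℂ →ₐ[ℂ]
        MvPolynomial (Option (Option (Fin n ⊕ Fin n))) ℂ).toRingHom (X none)) (by
      rw [map_sub, map_mul, fiba_ev, fiba_rename, aeval_X, sub_eq_zero]
      refine Eq.trans ?_ (hF.2 _ (hM i))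
      rw [mon_single]
      congr 1
      · exact if_pos hi
      · exact RingHom.congr_fun (fiba_io_aeval D.z yt (mon D.y l)) h)
    rw [← coe_aeval_eq_eval, RingHom.coe_coe, map_sub, map_mul, fiba_ev, fiba_rename, aeval_X,
      sub_eq_zero, ← e] at this
    refine Eq.trans ?_ this
    congr 1
    · exact (if_pos hi).symm
    · exact (RingHom.congr_fun (fiba_io_aeval x yt₀ β) h).symm

theorem t_fiba (hparf : T_PARF) (hsurj : T_SURJ) (hlift : T_LIFT) (hgrow1 : T_GROW1) :
    T_FIBA := by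
  classical
  intro n F _ _ D A hD hA m hm
  set M : Finset (Fin n → ℤ) := Finset.univ.image (fun i => Pi.single i 1) ∪
    Finset.univ.image (fun i => -Pi.single i 1) with hM
  have hM1 : ∀ i, Pi.single i 1 ∈ M := fun i =>
    Finset.mem_union_left _ (Finset.mem_image_of_mem _ (Finset.mem_univ i))
  have hM2 : ∀ i, -Pi.single i 1 ∈ M := fun i =>
    Finset.mem_union_right _ (Finset.mem_image_of_mem _ (Finset.mem_univ i))
  obtain ⟨μ, h, G, θ₀, hP, hF⟩ := hparf n F D hD m hm M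
  choose f hf using fun m' => lift_val hgrow1 hP.1 (G m')
  refine ⟨h, (M.sup f : ℕ) + 1, by linarith [Nat.cast_nonneg (α := ℝ) (M.sup f)], hP.2.2.1, ?_⟩
  intro B ζ φ L hc ho hζ hφ hL hx x₀ hx₀ w₀ hw₀
  have hne : ∀ x ∈ B, ev1 (ζ x) (Complex.exp (φ x)) h ≠ 0 := fun x hx' =>
    norm_pos_iff.1 ((Real.exp_pos _).trans_le (hx x hx').2.2.2)
  obtain ⟨t₀, ht₀, ht₁⟩ := hsurj n F D A m M μ h G θ₀ hA hm hP.1 hF hM1 (ζ x₀) (ex w₀)
    (Complex.exp (φ x₀)) hw₀
  obtain ⟨θ, w, j, e₀, hw, hθ⟩ := hlift n F D m M μ h G hP hM1 (Cn n) B ζ φ hc ho hζ hφ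
    (fun x hx' => ⟨(hx x hx').1, hne x hx'⟩) x₀ hx₀ t₀ ht₀
  refine ⟨w, j, hw, fun i hi => ?_, fun x hx' => ⟨(hθ x hx').2.1, (hθ x hx').2.2.1, ?_⟩⟩
  · have h1 := (hθ x₀ hx₀).2.2.2 _ (hM1 i)
    rw [dz_single_left, e₀, ← ht₁ i hi] at h1
    exact mul_right_cancel₀ (hne x₀ hx₀) h1
  have hR : 2 ≤ Real.exp L := by linarith [Real.add_one_le_exp L]
  have hβ : ‖Complex.exp (φ x)‖ ≤ Real.exp L := by
    rw [Complex.norm_exp]
    exact Real.exp_le_exp.2 ((Complex.re_le_norm _).trans (hx x hx').2.2.1)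
  have key : ∀ m' ∈ M, (dz m' (w x)).re ≤ ((M.sup f : ℕ) + 1) * L := by
    intro m' hm'
    have h1 := hf m' _ _ _ _ hR (hx x hx').2.1 hβ (hθ x hx').1
    rw [← (hθ x hx').2.2.2 m' hm', norm_mul, Complex.norm_exp] at h1
    have h2 := (mul_le_mul_of_nonneg_left (hx x hx').2.2.2 (Real.exp_pos _).le).trans
      (h1.trans (pow_le_pow_right₀ (by linarith) (Finset.le_sup (f := f) hm')))
    rw [← Real.exp_add, ← Real.exp_nat_mul, Real.exp_le_exp] at h2
    linarith
  intro i
  have h1 := key _ (hM1 i)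
  have h2 := key _ (hM2 i)
  rw [dz_neg_left, dz_single_left, Complex.neg_re] at h2
  rw [dz_single_left] at h1
  exact abs_le.2 ⟨by linarith, h1⟩

end Pool.Agent.P.MP_d2ed07_lc
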