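import Pool.Agent.P.MP_d2ed07_lc.Basic2

/-!
The final fixed point argument.
-/

namespace Pool.Agent.P.MP_d2ed07_lc

open MvPolynomial Metric Filter Topology

variable {n : ℕ}

/-- projection along `V` onto `m · u = 0` -/
noncomputable def finf_pj (m : Fin n → ℤ) (V u : Cn n) : Cn n := u - (dz m u / dz m V) • V

theorem finf_sub (m : Fin n → ℤ) (V u u' : Cn n) :
    finf_pj m V (u - u') = finf_pj m V u - finf_pj m V u' := by
  simp only [finf_pj, dz_sub, sub_div, sub_smul]; abel

theorem finf_shift {m : Fin n → ℤ} {V : Cn n} (h : dz m V ≠ 0) (u : Cn n) (t : ℂ) :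
    finf_pj m V (u + t • V) = finf_pj m V u := by
  rw [finf_pj, finf_pj, dz_add, dz_smul, add_div, mul_div_cancel_right₀ _ h, add_smul]; abel

theorem finf_norm (m : Fin n → ℤ) (V u : Cn n) :
    ‖finf_pj m V u‖ ≤ (1 + (∑ i, |(m i : ℝ)|) / ‖dz m V‖ * ‖V‖) * ‖u‖ := by
  refine (norm_sub_le _ _).trans ?_
  rw [norm_smul, norm_div, add_mul, one_mul, mul_right_comm, div_mul_eq_mul_div _ _ ‖u‖]
  gcongr
  exact norm_dz_le m u

theorem t_finf (hbc : T_BC) (hfix : T_FIX) : T_FINF := by
  intro n v m k hk hv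
  have hV : dz m (cQ v) ≠ 0 := by rw [dz_cQ]; exact_mod_cast hv
  have hK := finf_norm m (cQ v)
  have hS := norm_dz_le m
  have S0 : 0 ≤ ∑ i, |(m i : ℝ)| := Finset.sum_nonneg fun _ _ => abs_nonneg _
  generalize ∑ i, |(m i : ℝ)| = S at hK hS S0
  have K1 : 1 ≤ 1 + S / ‖dz m (cQ v)‖ * ‖cQ v‖ := le_add_of_nonneg_right (by positivity)
  generalize 1 + S / ‖dz m (cQ v)‖ * ‖cQ v‖ = K at hK K1
  have Q1 : 1 ≤ 1 + S * ‖cZ k‖ := le_add_of_nonneg_right (by positivity)
  refine ⟨40 * (K * (1 + S * ‖cZ k‖)), by nlinarith, fun x ρ L τ w j hx L1 hρ hw h => ?_⟩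
  have π0 := Real.pi_pos
  have ρ0 : 0 < ρ := lt_of_lt_of_le (by positivity) hρ
  set z : Cn n := x + (((τ x).im : ℂ) * Complex.I) • cQ v with hz
  set r : Fin n → ℤ := fun i => round (((z i).im - (w x i).im) / (2 * Real.pi)) with hr
  set k' : Fin n → ℤ := r - (dz m r + j) • k with hk'
  have e0 : cZ k' = cZ r - ((dz m r + j : ℤ) : ℂ) • cZ k := by
    funext i; simp [hk', cZ]
  have e1 : dz m (cZ k') = -j := by
    rw [e0, dz_sub, dz_smul, dz_cZ, dz_cZ, hk]; push_cast; ring
  have sub : closedBall x (ρ / 4) ⊆ ball x (ρ / 2) := closedBall_subset_ball (by linarith)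
  obtain ⟨p, hp, e⟩ := hfix (Cn n)
    (fun p => finf_pj m (cQ v) (w p + (2 * Real.pi * Complex.I : ℂ) • cZ k') +
      (dz m x / dz m (cQ v)) • cQ v) x (ρ / 4)
    (by linarith) (fun p hp p' hp' => by
      rw [add_sub_add_right_eq_sub, ← finf_sub, add_sub_add_right_eq_sub]
      refine (hK _).trans ?_
      have a1 : ‖w p - w p'‖ ≤ 8 * (2 * L) / ρ * ‖p - p'‖ :=
        (pi_norm_le_iff_of_nonneg (by positivity)).2 fun i =>
          (hbc (Cn n) (fun p => w p i) x ρ (2 * L) ρ0 (differentiableOn_pi.1 hw i)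
            fun p hp p' hp' => by
              linarith [abs_sub (w p i).re (w p' i).re, (h p hp).1 i, (h p' hp').1 i]).2
            p (sub hp) p' (sub hp')
      refine (mul_le_mul_of_nonneg_left a1 (by linarith)).trans ?_
      rw [← mul_assoc]
      refine mul_le_mul_of_nonneg_right ?_ (norm_nonneg _)
      rw [← mul_div_assoc, div_le_iff₀ ρ0]
      have : 0 ≤ K * L := by positivity
      nlinarith) (by
      obtain ⟨c1, c2⟩ := h x (mem_ball_self ρ0)
      set u : Cn n := w x + (2 * Real.pi * Complex.I : ℂ) • cZ r - z with hu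
      set c : ℂ := 2 * Real.pi * Complex.I * ((dz m r + j : ℤ) : ℂ) with hc
      have a1 : finf_pj m (cQ v) (w x + (2 * Real.pi * Complex.I : ℂ) • cZ k') +
          (dz m x / dz m (cQ v)) • cQ v - x = finf_pj m (cQ v) (u - c • cZ k) := by
        have : u - c • cZ k = w x + (2 * Real.pi * Complex.I : ℂ) • cZ k' - z := by
          rw [e0, smul_sub, smul_smul, hu]; abel
        rw [this, finf_sub, hz, finf_shift hV, finf_pj, finf_pj]; abel
      have a2 : ‖u‖ ≤ L + Real.pi := by
        refine (pi_norm_le_iff_of_nonneg (by positivity)).2 fun i => ?_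
        refine (Complex.norm_le_abs_re_add_abs_im _).trans (add_le_add ?_ ?_)
        · simpa [hu, hz, cZ, cQ, hx i] using c1 i
        · have b1 := abs_sub_round (((z i).im - (w x i).im) / (2 * Real.pi))
          have b2 : (u i).im = -(2 * Real.pi) *
              (((z i).im - (w x i).im) / (2 * Real.pi) - (r i : ℝ)) := by
            simp [hu, cZ]; field_simp; ring
          rw [b2, abs_mul, abs_neg, abs_of_pos (by positivity)]
          nlinarith
      have a3 : dz m u = (((τ x).re * (dz m v : ℚ) : ℝ) : ℂ) + c := by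
        rw [hu, dz_sub, dz_add, c2, hz, dz_add, dz_add, dz_smul, dz_smul, dz_smul, dz_cZ, dz_cQ, hc]
        conv_lhs => rw [← Complex.re_add_im (τ x)]
        simp only [Complex.add_im, Complex.ofReal_im, Complex.mul_im, Complex.ofReal_re,
          Complex.I_im, Complex.I_re, mul_zero, mul_one, zero_add, add_zero]
        push_cast; ring
      have a4 : ‖c‖ ≤ S * ‖u‖ := by
        refine le_trans ?_ ((Complex.abs_im_le_norm _).trans (hS u))
        rw [a3, Complex.add_im, Complex.ofReal_im, zero_add]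
        refine (Complex.norm_le_abs_re_add_abs_im _).trans ?_
        rw [show c.re = 0 by simp [hc], abs_zero, zero_add]
      have a5 : ‖u - c • cZ k‖ ≤ (1 + S * ‖cZ k‖) * (5 * L) := by
        refine (norm_sub_le _ _).trans ?_
        have : ‖u‖ ≤ 5 * L := by linarith [Real.pi_le_four]
        rw [norm_smul]
        nlinarith [mul_le_mul_of_nonneg_right a4 (norm_nonneg (cZ k))]
      rw [a1]
      refine (hK _).trans ((mul_le_mul_of_nonneg_left a5 (by linarith)).trans ?_)
      nlinarith)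
  have hp' := ball_subset_ball (by linarith : ρ / 2 ≤ ρ) (sub hp)
  refine ⟨p, hp', k', ?_⟩
  have d1 : finf_pj m (cQ v) (p + τ p • cQ v) =
      finf_pj m (cQ v) (w p + (2 * Real.pi * Complex.I : ℂ) • cZ k') := by
    rw [finf_shift hV]
    conv_lhs => rw [← e]
    rw [finf_shift hV]
    conv_lhs => rw [finf_pj.eq_1 m (cQ v) (w p + _), sub_eq_add_neg, ← neg_smul, finf_shift hV]
  have d2 : dz m (w p + (2 * Real.pi * Complex.I : ℂ) • cZ k') = dz m (p + τ p • cQ v) := by
    rw [dz_add, dz_smul, (h p hp').2, e1]; ring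
  rwa [finf_pj, finf_pj, d2, sub_left_inj] at d1

theorem t_fin3 (hfiba : T_FIBA) (halgb : T_ALGB) (hfinf : T_FINF) : T_FIN3 := by
  intro n F _ _ D A v m k hc hA hm Om Ov hk hv
  obtain ⟨h, N, N1, ha, hF⟩ := hfiba n F D A hc hA m hm
  obtain ⟨S, C, hS, -, -, hB, -⟩ := halgb n F D A hA
  obtain ⟨K, K1, hK⟩ := hfinf n v m k hk hv
  refine ⟨h, S, K * N, ha, hS, by nlinarith, fun X ρ L ζ ω τ j₀ hX L1 hρ hζ hω H => ?_⟩
  have ρ0 : 0 < ρ := lt_of_lt_of_le (by positivity) hρ
  have X0 := mem_ball_self (x := X) ρ0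
  obtain ⟨w, j, hw, h1, h2⟩ := hF (ball X ρ) ζ
    (fun p => dz m (ζ p) - 2 * Real.pi * Complex.I * j₀) L (convex_ball _ _) isOpen_ball hζ
    (((differentiable_dz m).comp_differentiableOn hζ).sub_const _) L1 (fun p hp => by
      obtain ⟨a1, -, a2, a3, a4⟩ := H p hp
      refine ⟨a1.1.eval_P, a2, a3, ?_⟩
      rwa [Complex.exp_sub, mul_comm _ (j₀ : ℂ), Complex.exp_int_mul_two_pi_mul_I, div_one])
    X X0 (ω X) (H X X0).1.1
  have h3 := fun i hi => hB (Cn n) (ball X ρ) ζ w ω (convex_ball X ρ).isPreconnected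
    hζ.continuousOn hw.continuousOn hω.continuousOn
    (fun p hp => ⟨(H p hp).2.1, (h2 p hp).1, (H p hp).1.1⟩) i hi X X0 (h1 i hi)
  obtain ⟨p, hp, k', e⟩ := hK X ρ (N * L) τ (fun p i => if i ∈ A then X i else w p i) (j - j₀) hX
    (by nlinarith) (by rwa [← mul_assoc]) (differentiableOn_pi.2 fun i => by
      by_cases hi : i ∈ A
      · simp only [if_pos hi]; exact differentiableOn_const _
      · simp only [if_neg hi]; exact differentiableOn_pi.1 hw i) fun p hp => by
      refine ⟨fun i => ?_, ?_⟩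
      · by_cases hi : i ∈ A
        · simp only [if_pos hi, hX i, abs_zero]; positivity
        · simp only [if_neg hi]; exact (h2 p hp).2.2 i
      · rw [Om.dz_congr (q := w p) fun i hi => if_neg hi, (h2 p hp).2.1,
          Om.dz_congr (q := p + τ p • cQ v) (H p hp).1.2.2]
        push_cast; ring
  have e' : ex (ζ p) = ex (w p) := by
    rw [← ex_add_int (w p) k']
    funext i
    by_cases hi : i ∈ A
    · rw [ex_add_int]
      exact ((H p hp).1.2.1 i hi).trans (h3 i hi p hp).symm
    · have := congrFun e i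
      simp only [Pi.add_apply, if_neg hi] at this
      exact congrArg Complex.exp (((H p hp).1.2.2 i hi).trans this)
  exact ⟨ζ p, by rw [Data.OnE, e']; exact (h2 p hp).1⟩

end Pool.Agent.P.MP_d2ed07_lc
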