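import Pool.Agent.P.MP_d2ed07_lc.Basic2
import Pool.Agent.P.MP_d2ed07_lc.POLY

namespace Pool.Agent.P.MP_d2ed07_lc
open MvPolynomial Metric Filter Topology

/-- the degree in the variables outside `A` -/
def hom2_bt {n : ℕ} (A : Finset (Fin n)) (d : Fin n →₀ ℕ) : ℕ := ∑ i, if i ∈ A then 0 else d i

theorem hom2_dil {n : ℕ} (A : Finset (Fin n)) (c a : ℂ) (u : Cn n) (d : Fin n →₀ ℕ) :
    eval (dil A c u) (monomial d a) = c ^ hom2_bt A d * eval u (monomial d a) := by
  rw [eval_monomial, eval_monomial, Finsupp.prod_fintype _ _ (by simp),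
    Finsupp.prod_fintype _ _ (by simp), mul_left_comm, hom2_bt, ← Finset.prod_pow_eq_pow_sum,
    ← Finset.prod_mul_distrib]
  refine congrArg _ (Finset.prod_congr rfl fun i _ => ?_)
  by_cases h : i ∈ A <;> simp [dil, h, mul_pow]

theorem t_hom2 : T_HOM2 := by
  rintro n P A ⟨u, hu, h0⟩
  let E := P.totalDegree
  let wt : (Fin n →₀ ℕ) → ℕ := fun d => E * hom2_bt A d + hom2_bt ∅ d
  have hw : ∀ d ∈ P.support, wt d / (E + 1) = hom2_bt A d := fun d hd => by
    have h1 : hom2_bt ∅ d ≤ E := by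
      have := le_totalDegree hd
      rw [Finsupp.sum_fintype _ _ (by simp)] at this
      simpa [hom2_bt] using this
    obtain ⟨a, h2⟩ := Nat.exists_eq_add_of_le (show hom2_bt A d ≤ hom2_bt ∅ d from
      Finset.sum_le_sum fun i _ => by by_cases h : i ∈ A <;> simp [h])
    rw [show wt d = a + (E + 1) * hom2_bt A d by simp only [wt, h2]; ring,
      Nat.add_mul_div_left _ _ E.succ_pos, Nat.div_eq_of_lt (by omega), zero_add]
  obtain ⟨d₁, m₁, h₁⟩ : ∃ d ∈ P.support, hom2_bt A d ≠ 0 := by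
    by_contra! h
    have e : ∀ p, eval (dil A 0 p) P = eval p P := fun p => by
      rw [P.as_sum, map_sum, map_sum]
      exact Finset.sum_congr rfl fun d hd => by rw [hom2_dil, h d hd, pow_zero, one_mul]
    exact h0 (ddir_eq_zero_iff.2 fun p t => by
      rw [← e, dil_add_smul hu, zero_mul, zero_smul, add_zero, e])
  obtain ⟨d₀, m₀, h₀⟩ := P.support.exists_max_image wt ⟨d₁, m₁⟩
  have hB : hom2_bt A d₀ ≠ 0 := fun e => h₁ (Nat.eq_zero_of_le_zero
    (e ▸ hw d₀ m₀ ▸ hw d₁ m₁ ▸ Nat.div_le_div_right (h₀ d₁ m₁)))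
  have hQ : HomOff A (∑ d ∈ P.support with wt d = wt d₀, monomial d (coeff d P))
      (hom2_bt A d₀) := fun c u => by
    rw [map_sum, map_sum, Finset.mul_sum]
    refine Finset.sum_congr rfl fun d hd => ?_
    rw [Finset.mem_filter] at hd
    rw [hom2_dil, ← hw d hd.1, hd.2, hw d₀ m₀]
  refine ⟨_, E, wt d₀, _, hQ, ?_, fun K => ?_⟩
  · by_contra! h
    have e : ∑ d ∈ P.support with wt d = wt d₀, monomial d (coeff d P) = 0 :=
      MvPolynomial.funext fun u => by
        have := ddir_eq_zero_iff.1 (h _ (off_cut u)) (dil A 0 u) 1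
        rwa [hQ, zero_pow hB, zero_mul, show dil A 0 u + (1 : ℂ) • cut A u = u from
          funext fun i => by by_cases h : i ∈ A <;> simp [dil, cut, h]] at this
    have := congrArg (coeff d₀) e
    simp [coeff_sum, coeff_monomial, mem_support_iff.1 m₀] at this
  have hb : ∀ Q : MP n, ∃ B : ℝ, 0 ≤ B ∧ ∀ u : Cn n, ‖u‖ ≤ K → ‖eval u Q‖ ≤ B := fun Q => by
    obtain ⟨B, hB⟩ := (isCompact_closedBall (0 : Cn n) K).exists_bound_of_continuousOn
      (continuous_eval' Q).continuousOn
    exact ⟨max B 0, le_max_right _ _, fun u hu =>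
      (hB u (by simpa using hu)).trans (le_max_left _ _)⟩
  choose B hB0 hB using hb
  refine ⟨∑ d ∈ P.support, B (monomial d (coeff d P)), Finset.sum_nonneg fun j _ => hB0 _,
    fun T u hT hu => ?_⟩
  have T0 : (0 : ℝ) < T := by linarith
  have Tc : (T : ℂ) ≠ 0 := by exact_mod_cast T0.ne'
  have e : eval (dil A ((T : ℂ) ^ E) ((T : ℂ) • u)) P =
      ∑ d ∈ P.support, (T : ℂ) ^ wt d * eval u (monomial d (coeff d P)) := by
    conv_lhs => rw [P.as_sum, map_sum]
    refine Finset.sum_congr rfl fun d _ => ?_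
    rw [hom2_dil, show (T : ℂ) • u = dil ∅ T u from funext fun i => by simp [dil], hom2_dil,
      ← mul_assoc, ← pow_mul, ← pow_add]
  rw [e, Finset.sum_filter, map_sum, Finset.sum_div, Finset.sum_div, ← Finset.sum_sub_distrib]
  refine (norm_sum_le _ _).trans (Finset.sum_le_sum fun d hd => ?_)
  split_ifs with h
  · rw [h, mul_div_cancel_left₀ _ (pow_ne_zero _ Tc), sub_self, norm_zero]
    exact div_nonneg (hB0 _) T0.le
  rw [map_zero, sub_zero, norm_div, norm_mul, norm_pow, norm_pow, Complex.norm_real,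
    Real.norm_of_nonneg T0.le, div_le_div_iff₀ (by positivity) T0, mul_right_comm, ← pow_succ,
    mul_comm]
  exact mul_le_mul (hB _ u hu) (pow_le_pow_right₀ hT ((h₀ d hd).lt_of_ne h)) (by positivity) (hB0 _)

theorem t_hyp2 : T_HYP2 := by
  intro n P m c hP hm h
  obtain ⟨j, hj⟩ := Function.ne_iff.1 hm
  have j0 : (m j : ℂ) ≠ 0 := Int.cast_ne_zero.2 hj
  let k : Cn n := Pi.single j (m j : ℂ)⁻¹
  have hk : dz m k = 1 := by simp [dz, k, Pi.single_apply, j0]
  have h1 := poly_b_dvd (lform m - C c) (fun i => C (k i)) P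
  have h2 : aeval (fun i => X i - C (k i) * (lform m - C c)) P = (0 : MP n) := by
    refine MvPolynomial.funext fun x => ?_
    have h3 : eval x (aeval (fun i => X i - C (k i) * (lform m - C c)) P) =
        eval (x - (dz m x - c) • k) P := by
      clear hP h h1
      induction P using MvPolynomial.induction_on with
      | C a => simp
      | add p q hp hq => rw [map_add, map_add, hp, hq, map_add]
      | mul_X p i hp =>
        rw [map_mul, map_mul, hp, map_mul, aeval_X, map_sub, map_mul, map_sub, eval_lform]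
        simp [mul_comm]
    rw [h3, h _ (by rw [dz_sub, dz_smul, hk]; ring), map_zero]
  rw [h2, sub_zero] at h1
  obtain ⟨Q, hQ⟩ := h1
  have h4 : ¬ IsUnit (lform m - C c) := fun hu => by
    have := hu.map (eval (c • k))
    rw [map_sub, eval_lform, dz_smul, hk] at this
    simp at this
  obtain ⟨u, rfl⟩ := (hP.irreducible.isUnit_or_isUnit hQ).resolve_left h4
  exact ⟨(u⁻¹ : (MP n)ˣ), by rw [hQ, mul_assoc, Units.mul_inv, mul_one]⟩

end Pool.Agent.P.MP_d2ed07_lc
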