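import Pool.Agent.P.MP_d2ed07_lc.Basic2

/-! The dual derivations exist and are unique. -/

namespace Pool.Agent.P.MP_d2ed07_lc

open MvPolynomial Metric Filter Topology

variable {n : ℕ} {F : Type} [Field F] [Algebra ℂ F]

theorem jac_ind (D : Data n F) {v : Cn n} (hv : ddir v D.P ≠ 0) {ι : Type} (L : ι → Cn n)
    (h0 : ∀ i, ∑ j, L i j * v j = 0) (hs : ∀ w : ι → ℂ, ∃ x : Cn n, ∀ i, ∑ j, L i j * x j = w i) :
    AlgebraicIndependent ℂ fun i => ∑ j, algebraMap ℂ F (L i j) * D.z j := by
  rw [algebraicIndependent_iff]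
  intro g hg
  let s : MvPolynomial ι ℂ →ₐ[ℂ] MP n := aeval fun i => ∑ j, C (L i j) * X j
  have e : ∀ x : Cn n, eval x (s g) = eval (fun i => ∑ j, L i j * x j) g := fun x => by
    rw [← coe_aeval_eq_eval, ← coe_aeval_eq_eval]
    refine (DFunLike.congr_fun (comp_aeval _ (MvPolynomial.aeval x)) g).trans ?_
    simp
  obtain ⟨q, hq⟩ := (D.hP (s g)).1 (by
    rw [← hg, ← AlgHom.comp_apply, comp_aeval]
    simp)
  have h1 : ddir v (s g) = 0 := ddir_eq_zero_iff.2 fun p t => by
    rw [e, e]
    congr 2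
    funext i
    simp only [Pi.add_apply, Pi.smul_apply, smul_eq_mul, mul_add, Finset.sum_add_distrib]
    simp only [mul_left_comm _ t, ← Finset.mul_sum, h0, mul_zero, add_zero]
  have h2 : s g = 0 := by
    by_contra h2
    have hq0 : q ≠ 0 := by rintro rfl; exact h2 (by rw [hq, mul_zero])
    have h3 := natDegree_lin_pos.2 hv
    refine natDegree_lin_pos.1 ?_ h1
    rw [hq, lin_mul, Polynomial.natDegree_mul (lin_ne_zero v D.hP0) (lin_ne_zero v hq0)]
    omega
  refine MvPolynomial.funext fun w => ?_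
  obtain ⟨x, hx⟩ := hs w
  rw [← funext hx, ← e, h2, map_zero, map_zero]

/-- the linear forms -/
def jac_L (A J : Finset (Fin n)) (v : Cn n) (j₀ : Fin n) (M : Fin n → Fin n → ℤ) (i : Fin n) :
    Cn n :=
  if i ∈ J then Pi.single i 1 else if i ∈ A then cZ (M i)
    else v j₀ • Pi.single i 1 - v i • Pi.single j₀ 1

theorem jac_val {R : Type} [CommRing R] [Algebra ℂ R] (A J : Finset (Fin n)) (v : Cn n)
    (j₀ : Fin n) (M : Fin n → Fin n → ℤ) (i : Fin n) (x : Fin n → R) :
    ∑ j, algebraMap ℂ R (jac_L A J v j₀ M i j) * x j = if i ∈ J then x i else if i ∈ A then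
      dz (M i) x else algebraMap ℂ R (v j₀) * x i - algebraMap ℂ R (v i) * x j₀ := by
  unfold jac_L
  split_ifs
  · simp [Pi.single_apply, apply_ite]
  · simp [dz, cZ]
  · simp [Pi.single_apply, apply_ite (algebraMap ℂ R), sub_mul, Finset.sum_sub_distrib]

theorem jac_fam (D : Data n F) {A J : Finset (Fin n)} (hJ : J ⊆ A) {v : Cn n} (hA : Off A v)
    (hv : ddir v D.P ≠ 0) {j₀ : Fin n} (hj : v j₀ ≠ 0) (M : Fin n → Fin n → ℤ)
    (hM : ∀ i ∈ A, i ∉ J → (∀ j ∉ J, j ≠ i → M i j = 0) ∧ M i i ≠ 0) :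
    AlgebraicIndependent ℂ fun i : {i // i ≠ j₀} =>
      ∑ j, algebraMap ℂ F (jac_L A J v j₀ M i j) * D.z j := by
  have hj' : j₀ ∉ A := fun h => hj (hA _ h)
  have key : ∀ i ∈ A, i ∉ J → ∀ x : Cn n,
      dz (M i) x = M i i * x i + ∑ j ∈ J, M i j * x j := fun i hi hi' x => by
    rw [dz, ← Finset.sum_subset (Finset.subset_univ (insert i J)), Finset.sum_insert hi']
    intro j _ hj
    rw [Finset.mem_insert, not_or] at hj
    simp [(hM i hi hi').1 j hj.2 hj.1]
  refine jac_ind D hv _ (fun i => ?_) fun w => ?_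
  · refine (jac_val A J v j₀ M i v).trans ?_
    split_ifs with h1 h2
    · exact hA _ (hJ h1)
    · rw [key _ h2 h1, hA _ h2, Finset.sum_eq_zero fun j hj => by rw [hA _ (hJ hj), mul_zero]]
      simp
    · simp [mul_comm]
  · let w' : Cn n := fun i => if h : i = j₀ then 0 else w ⟨i, h⟩
    refine ⟨fun i => if i ∈ J then w' i else if i ∈ A then
      (w' i - ∑ j ∈ J, M i j * w' j) / M i i else w' i / v j₀, fun i => ?_⟩
    refine (jac_val A J v j₀ M i _).trans ?_
    have e : w' i = w i := dif_neg i.2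
    split_ifs with h1 h2
    · exact e
    · rw [key _ h2 h1, if_neg h1, if_pos h2, e]
      simp +contextual only [if_true]
      have : (M i i : ℂ) ≠ 0 := Int.cast_ne_zero.2 (hM _ h2 h1).2
      field_simp
      ring
    all_goals first
      | exact absurd (hJ ‹_›) hj'
      | exact absurd ‹_› hj'
      | (simp only [Algebra.algebraMap_self, RingHom.id_apply, e, w', dif_pos, zero_div]
         field_simp
         ring)

/-- the constants of one derivation -/
def jac_C (d : Derivation ℂ F F) : IntermediateField ℂ F where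
  carrier := {a | d a = 0}
  mul_mem' {a b} (ha : d a = 0) (hb : d b = 0) := by
    rw [Set.mem_ofPred_eq, d.leibniz, ha, hb]; simp
  add_mem' {a b} (ha : d a = 0) (hb : d b = 0) := by
    rw [Set.mem_ofPred_eq, map_add, ha, hb, add_zero]
  algebraMap_mem' c := d.map_algebraMap c
  inv_mem' a (ha : d a = 0) := by rw [Set.mem_ofPred_eq, d.leibniz_inv, ha, smul_zero]

theorem jac_inj (has : T_AS) (D : Data n F) (hfg : (⊤ : IntermediateField ℂ F).FG)
    (ht : Algebra.trdeg ℂ F < n) {A : Finset (Fin n)} {v : Cn n} (hA : Off A v)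
    (hv : ddir v D.P ≠ 0) {j₀ : Fin n} (hj : v j₀ ≠ 0) (d : Derivation ℂ F F)
    (hd : Dual A v D.z D.y 0 d) : d = 0 := by
  classical
  by_contra hd0
  obtain ⟨h1, t, h2⟩ := hd
  have hj' : j₀ ∉ A := fun h => hj (hA _ h)
  obtain ⟨J, hJ, hmax⟩ := Finset.exists_max_image (A.powerset.filter fun J : Finset (Fin n) =>
    ∀ m : Fin n → ℤ, (∀ i ∉ J, m i = 0) → dz m D.z ∈ jac_C d → m = 0) Finset.card
    ⟨∅, Finset.mem_filter.2 ⟨by simp, fun m hm _ => funext fun i => hm i (by simp)⟩⟩
  obtain ⟨hJA, hJ⟩ := Finset.mem_filter.1 hJ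
  rw [Finset.mem_powerset] at hJA
  have h3 := has F hfg Unit J (fun _ => d) (jac_C d) (fun i => D.z i) (fun i => D.y i)
    (linearIndependent_unique_iff.2 hd0) (fun a => ⟨fun h _ => h, fun h => h ()⟩)
    (fun i => D.hy i) (fun _ i => by
      have := h1 i (hJA i.2)
      have h0 := D.hy i
      simp only [Pi.zero_apply, map_zero, sub_eq_zero] at this
      rw [this]; field_simp) fun m hm => by
      have h0 := hJ (fun i => if h : i ∈ J then m ⟨i, h⟩ else 0) (fun i hi => dif_neg hi) (by
        have e : dz (fun i => if h : i ∈ J then m ⟨i, h⟩ else 0) D.z =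
            ∑ i : J, (m i : F) * D.z i := by
          rw [dz, ← Finset.sum_subset (Finset.subset_univ J) fun i _ hi => by simp [hi],
            ← Finset.sum_coe_sort]
          exact Finset.sum_congr rfl fun i _ => by simp
        rw [e]; exact hm)
      funext i
      simpa using congrFun h0 i
  have h4 : ∀ i, ∃ m : Fin n → ℤ, i ∈ A → i ∉ J →
      ((∀ j ∉ J, j ≠ i → m j = 0) ∧ m i ≠ 0) ∧ dz m D.z ∈ jac_C d := fun i => by
    by_contra hc
    push Not at hc
    obtain ⟨hi, hi', -⟩ := hc 0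
    have := hmax (insert i J) (Finset.mem_filter.2 ⟨Finset.mem_powerset.2
      (Finset.insert_subset hi hJA), fun m hm hz => by
        have h5 : ∀ j ∉ J, j ≠ i → m j = 0 := fun j hj hji => hm j (by simp [hj, hji])
        have h6 : m i = 0 := by
          by_contra h6
          exact (hc m).2.2 ⟨h5, h6⟩ hz
        exact hJ m (fun j hj => if h : j = i then h ▸ h6 else h5 j hj h) hz⟩)
    rw [Finset.card_insert_of_notMem hi'] at this
    omega
  choose M hM using h4
  have h5 := (jac_fam D hJA hA hv hj M fun i hi hi' => (hM i hi hi').1).comp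
    (fun i : ((insert j₀ J)ᶜ : Finset (Fin n)) => (⟨i.1, fun h => by
      have := i.2; simp [h] at this⟩ : {i // i ≠ j₀}))
    fun a b e => Subtype.ext (congrArg (fun c : {i // i ≠ j₀} => c.1) e)
  have hm : ∀ i : ((insert j₀ J)ᶜ : Finset (Fin n)),
      ∑ j, algebraMap ℂ F (jac_L A J v j₀ M i j) * D.z j ∈ jac_C d := fun i => by
    have hi : i.1 ∉ J := fun h => by have := i.2; simp [h] at this
    rw [jac_val, if_neg hi]
    split_ifs with h
    · exact (hM i h hi).2
    · change d _ = 0
      simp only [map_sub, d.leibniz, d.map_algebraMap, h2 _ h, h2 _ hj', Pi.zero_apply, map_zero,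
        smul_eq_mul]
      ring
  have h6 := (AlgebraicIndependent.of_comp (x := fun i => (⟨_, hm i⟩ : jac_C d))
    (jac_C d).val h5).cardinalMk_le_trdeg
  rw [Cardinal.mk_coe_finset, Finset.card_compl,
    Finset.card_insert_of_notMem fun h => hj' (hJA h)] at h6
  have h7 := ((add_le_add h6 h3).trans_eq (trdeg_add_eq ℂ (jac_C d) (A := F))).trans_lt ht
  have h8 := (insert j₀ J).card_le_univ
  rw [Finset.card_insert_of_notMem fun h => hj' (hJA h)] at h8
  norm_cast at h7
  simp only [Fintype.card_fin, Fintype.card_coe, Fintype.card_unit] at h7 h8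
  omega

theorem t_jac (has : T_AS) (hder2 : T_DER2) (htdk : T_TDK) : T_JAC := by
  intro n F _ _ D A v hfg halg hA hv
  classical
  obtain ⟨j₀, hj⟩ : ∃ j, v j ≠ 0 := by
    by_contra h
    push Not at h
    exact hv (by simp [ddir, h])
  have hj' : j₀ ∉ A := fun h => hj (hA _ h)
  obtain ⟨_, ht⟩ := hder2 ℂ F hfg
  have h1 : Algebra.trdeg ℂ F < n := by
    obtain ⟨w, hw⟩ := exists_isTranscendenceBasis ℂ F
    have e := hw.cardinalMk_eq_trdeg
    have : Finite w := Cardinal.mk_lt_aleph0_iff.1 (by rw [e, ← ht]; exact Cardinal.natCast_lt_aleph0)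
    have := Fintype.ofFinite w
    rw [← e, Cardinal.mk_fintype]
    exact_mod_cast htdk n F D w _ (fun s => halg _) hw.1
  have h2 := jac_inj has D hfg h1 hA hv hj
  refine ⟨h2, fun e => ?_⟩
  let φ : (Derivation ℂ F F × F) →ₗ[F] (Fin n → F) :=
    { toFun := fun d i => if i ∈ A then d.1 (D.z i) - d.1 (D.y i) / D.y i
        else d.1 (D.z i) - d.2 * algebraMap ℂ F (v i)
      map_add' := fun a b => by
        funext i
        simp only [Prod.fst_add, Prod.snd_add, Derivation.coe_add, Pi.add_apply]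
        split_ifs <;> ring
      map_smul' := fun c a => by
        funext i
        simp only [Prod.smul_fst, Prod.smul_snd, Derivation.coe_smul, Pi.smul_apply, smul_eq_mul,
          RingHom.id_apply]
        split_ifs <;> ring }
  have key : ∀ (e : Cn n) (d : Derivation ℂ F F × F), φ d = (fun i => algebraMap ℂ F (e i)) →
      Dual A v D.z D.y e d.1 ∧
        ∀ j, j ∉ A → d.1 (D.z j) = algebraMap ℂ F (e j) + d.2 * algebraMap ℂ F (v j) :=
    fun e d h => by
      have h3 : ∀ j, j ∉ A → d.1 (D.z j) = algebraMap ℂ F (e j) + d.2 * algebraMap ℂ F (v j) :=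
        fun j hj => sub_eq_iff_eq_add.1 ((if_neg hj).symm.trans (congrFun h j))
      exact ⟨⟨fun i hi => (if_pos hi).symm.trans (congrFun h i), d.2, h3⟩, h3⟩
  have hinj : Function.Injective φ := (injective_iff_map_eq_zero φ).2 fun d hd => by
    obtain ⟨h3, h4⟩ := key 0 d (hd.trans (by funext i; simp))
    have h5 := h2 _ h3
    have h6 := h4 j₀ hj'
    simp only [h5, Derivation.zero_apply, Pi.zero_apply, map_zero, zero_add, zero_eq_mul,
      map_eq_zero, hj, or_false] at h6
    exact Prod.ext h5 h6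
  have h3 := (jac_fam D (Finset.Subset.refl A) hA hv hj 0 fun i hi hi' =>
    absurd hi hi').cardinalMk_le_trdeg
  rw [← ht, Cardinal.mk_fintype] at h3
  rw [← ht] at h1
  norm_cast at h1 h3
  have h4 : Fintype.card {i // i ≠ j₀} = n - 1 := by simp
  obtain ⟨d, hd⟩ := (LinearMap.injective_iff_surjective_of_finrank_eq_finrank (by
    rw [Module.finrank_prod, Module.finrank_self, Module.finrank_fin_fun]; omega)).1 hinj
    fun i => algebraMap ℂ F (e i)
  exact ⟨d.1, (key e d hd).1⟩

end Pool.Agent.P.MP_d2ed07_lc
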