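import Pool.Agent.P.MP_d2ed07_lc.Basic2
import Pool.Agent.P.MP_d2ed07_lc.LOCT

/-!
A tame local sheet of the hypersurface, in dilated coordinates.
-/

namespace Pool.Agent.P.MP_d2ed07_lc

open MvPolynomial Metric Filter Topology

variable {n : ℕ}

theorem locta_inv {P : MP n} {A : Finset (Fin n)} {v x : Cn n} (hv : Off A v) {M : ℂ} {r : ℝ}
    {τ : Cn n → ℂ} (hτ : DifferentiableOn ℂ τ (ball x r))
    (h0 : ∀ p ∈ ball x r, eval (dil A M p + τ p • v) P = 0)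
    (hne : ∀ p ∈ ball x r, (lin v P).map (eval (dil A M p)) ≠ 0) :
    ∀ q ∈ ball x r, ∀ t : ℂ, q + t • v ∈ ball x r → τ (q + t • v) = τ q - M * t := by
  intro p hp t ht
  have hmem : ∀ u ∈ Set.Icc (0 : ℝ) 1, p + ((u : ℂ) * t) • v ∈ ball x r := by
    intro u hu
    have := (convex_ball x r).add_smul_sub_mem hp ht hu
    rw [add_sub_cancel_left] at this
    rw [mul_smul]
    exact this
  have hc : ContinuousOn (fun u : ℝ => τ (p + ((u : ℂ) * t) • v) + M * ((u : ℂ) * t))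
      (Set.Icc (0 : ℝ) 1) :=
    (hτ.continuousOn.comp (f := fun u : ℝ => p + ((u : ℂ) * t) • v) (by fun_prop) hmem).add
      (by fun_prop)
  have hfin : Set.Finite {z : ℂ | ((lin v P).map (eval (dil A M p))).IsRoot z} :=
    Polynomial.finite_setOfPred_isRoot (hne p hp)
  have := isPreconnected_Icc.constant_of_mapsTo hfin.isDiscrete hc (fun u hu => by
    have h1 := h0 _ (hmem u hu)
    change ((lin v P).map (eval (dil A M p))).eval _ = 0
    rw [dil_add_smul hv, add_assoc, ← add_smul, add_comm (M * _)] at h1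
    rw [← ev1_eq, lin_eval, h1]) (x := 1) (y := 0) (by simp) (by simp)
  simp only [Complex.ofReal_one, one_mul, Complex.ofReal_zero, zero_mul, zero_smul, add_zero,
    mul_zero] at this
  rw [← this]; ring

theorem locta_sheet (hsheet : T_SHEET) {P c₁ : MP n} {v : Cn n} {A B : P1 n}
    (h : A * lin v P + B * lin v (ddir v P) = Polynomial.C c₁) {φ : Cn n → Cn n}
    (hφ : Differentiable ℂ φ) {x : Cn n} {r σ : ℝ}
    {c : Cn n → ℂ} (hr : 0 < r) (hc : Continuous c)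
    (hne : ∀ p ∈ ball x r, eval (φ p) ((lin v P).leadingCoeff * c₁) ≠ 0)
    (hR : ∀ p ∈ ball x r, Rou P v (φ p) (c p) σ) :
    ∃ τ : Cn n → ℂ, DifferentiableOn ℂ τ (ball x r) ∧
      ∀ p ∈ ball x r, eval (φ p + τ p • v) P = 0 ∧ ‖τ p - c p‖ < σ := by
  obtain ⟨t₀, ht₀, ht₀'⟩ := (hR x (mem_ball_self hr)).1
  obtain ⟨τ, hτ, hτ0, hτ1⟩ := hsheet (Cn n) (ball x r) (fun p => (lin v P).map (eval (φ p)))
    (lin v P).natDegree (convex_ball x r) isOpen_ball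
    (fun j => by
      simp only [Polynomial.coeff_map]
      exact ((differentiable_eval _).comp hφ).differentiableOn)
    (fun p hp => ⟨Polynomial.natDegree_map_le, by
      rw [Polynomial.coeff_map]
      exact left_ne_zero_of_mul (by simpa only [map_mul, Polynomial.leadingCoeff] using hne p hp)⟩)
    (fun p hp t ht h1 => by
      rw [← ev1_eq, lin_eval] at ht
      rw [Polynomial.derivative_map, ← ev1_eq, derivative_lin, lin_eval] at h1
      have h2 := loct_bez h ht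
      rw [h1, mul_zero] at h2
      exact hne p hp (by rw [map_mul, h2, mul_zero]))
    x (mem_ball_self hr) t₀ (by rw [← ev1_eq, lin_eval]; exact ht₀')
  have hz : ∀ p ∈ ball x r, eval (φ p + τ p • v) P = 0 := fun p hp => by
    rw [← lin_eval, ev1_eq]; exact hτ1 p hp
  refine ⟨τ, hτ, fun p hp => ⟨hz p hp, ?_⟩⟩
  by_contra hcon
  have hg : ContinuousOn (fun p => ‖τ p - c p‖) (ball x r) :=
    (hτ.continuousOn.sub hc.continuousOn).norm
  obtain ⟨q, hq, hq'⟩ := (convex_ball x r).isPreconnected.intermediate_value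
    (mem_ball_self hr) hp hg (show σ ∈ Set.Icc _ _ from
      ⟨by simp only [hτ0]; exact ht₀.le, not_lt.1 hcon⟩)
  exact (hR q hq).2 _ hq' (hz q hq)

theorem locta_low {A : Finset (Fin n)} {c : MP n} {κ M : ℝ} (hM : 1 ≤ M)
    (h : ∀ x : Cn n, ∃ p ∈ ball x 1, κ ≤ ‖eval p c‖) (x : Cn n) :
    ∃ p ∈ ball x 1, κ ≤ ‖eval (dil A M p) c‖ := by
  obtain ⟨p, hp, hp'⟩ := h (dil A M x)
  have hM0 : (M : ℂ) ≠ 0 := Complex.ofReal_ne_zero.2 (by linarith)
  refine ⟨dil A (M : ℂ)⁻¹ p, ?_, by rwa [dil_dil, mul_inv_cancel₀ hM0, dil_one]⟩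
  rw [mem_ball, dist_eq_norm] at hp ⊢
  have e : dil A (M : ℂ)⁻¹ p - x = dil A (M : ℂ)⁻¹ (p - dil A M x) := by
    rw [dil_sub, dil_dil, inv_mul_cancel₀ hM0, dil_one]
  rw [e]
  refine (norm_dil_le' ?_ _).trans_lt hp
  rw [norm_inv, Complex.norm_real, Real.norm_of_nonneg (by linarith)]
  exact inv_le_one_of_one_le₀ hM

theorem t_locta (htame : T_TAME) (hsheet : T_SHEET) (hcop : T_COP) (hplow : T_PLOW)
    (hgrow : T_GROW) (hgrow1 : T_GROW1) : T_LOCTA := by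
  classical
  intro n P A v S α hP hS hv hα
  by_cases hd : ddir v P = 0
  · refine ⟨1, 1, 3, le_rfl, one_pos, le_rfl, le_rfl, fun R hR M ρ x c σ _ hρ _ h => ?_⟩
    have : 0 < ρ * R ^ α := mul_pos (by linarith) (Real.rpow_pos_of_pos (by linarith) _)
    exact absurd hd (h x (mem_ball_self this)).2.2.ddir_ne_zero
  have hdeg := natDegree_lin_pos.2 hd
  obtain ⟨A₁, B₁, c₁, hc₁, e₁⟩ := hcop n P (ddir v P) v hP hdeg (not_dvd_ddir hd)
  obtain ⟨A₂, B₂, c₂, hc₂, e₂⟩ := hcop n P (∏ g ∈ S, g) v hP hdeg (fun h => by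
    obtain ⟨g, hg, h⟩ := (hP.dvd_finsetProd_iff _).1 h
    exact hS g hg h)
  have hld : (lin v P).leadingCoeff ≠ 0 :=
    Polynomial.leadingCoeff_ne_zero.2 (lin_ne_zero v hP.ne_zero)
  obtain ⟨κ₁, hκ₁, hl₁⟩ := hplow n _ (mul_ne_zero hld hc₁)
  obtain ⟨κ₂, hκ₂, hl₂⟩ := hplow n _ hc₂
  obtain ⟨N₁, hN₁⟩ := hgrow n ((lin v P).leadingCoeff * c₁)
  obtain ⟨N₃, hN₃⟩ := hgrow n (∏ g ∈ S, g)
  obtain ⟨N₄, hN₄⟩ := hgrow1 n B₂
  choose Ng hNg using hgrow n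
  have hβ : 0 < α / 3 := by positivity
  obtain ⟨ε₁, R₁, hε₁, -, ht₁⟩ := htame n (2 * N₁ + 1) (α / 3) (by positivity) hβ
  obtain ⟨ε₂, R₂, hε₂, hε₂', ht₂⟩ := htame n (3 * N₃ + 2 * N₄ + 1) (α / 3) (by positivity) hβ
  have hev : ∀ᶠ R : ℝ in atTop, R₁ ≤ R ∧ R₂ ≤ R ∧ κ₁⁻¹ ≤ R ∧ κ₂⁻¹ ≤ R ∧ ε₂⁻¹ ≤ R ∧
      1 + ‖v‖ ≤ R ∧ 4 ≤ R ^ (α / 3) ∧ ε₁⁻¹ ≤ R ^ (α / 3) := by
    filter_upwards [eventually_ge_atTop R₁, eventually_ge_atTop R₂, eventually_ge_atTop κ₁⁻¹,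
      eventually_ge_atTop κ₂⁻¹, eventually_ge_atTop ε₂⁻¹, eventually_ge_atTop (1 + ‖v‖),
      (tendsto_rpow_atTop hβ).eventually_ge_atTop 4,
      (tendsto_rpow_atTop hβ).eventually_ge_atTop ε₁⁻¹] with R a b c d e f g h
    exact ⟨a, b, c, d, e, f, g, h⟩
  obtain ⟨R₀, hR₀⟩ := eventually_atTop.1 hev
  set a : ℝ := 3 * (∑ g ∈ S, Ng g : ℕ) with ha
  have ha0 : 0 ≤ a := by positivity
  set b : ℝ := 3 * N₃ + 2 * N₄ + 1 + 1 with hb
  have hb0 : 1 ≤ b := by rw [hb]; linarith [show (0 : ℝ) ≤ 3 * N₃ + 2 * N₄ + 1 by positivity]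
  refine ⟨b + a * S.card + a, ε₂, max R₀ 3, by
    linarith [show (0 : ℝ) ≤ a * S.card by positivity], hε₂, hε₂', le_max_right _ _,
    fun R hR M ρ x c σ hM hρ hc h => ?_⟩
  obtain ⟨r₁, r₂, r₃, r₄, r₅, r₆, r₇, r₈⟩ := hR₀ R ((le_max_left _ _).trans hR)
  have hR3 : 3 ≤ R := (le_max_right _ _).trans hR
  have hR1 : 1 ≤ R := by linarith
  have hR0 : 0 < R := by linarith
  have hρ0 : 0 < ρ := by linarith
  have hR2 : 2 ≤ R ^ 2 := by nlinarith
  have hR3' : 2 ≤ R ^ 3 := by nlinarith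
  obtain ⟨w, hw⟩ : ∃ w, w = R ^ (α / 3) := ⟨_, rfl⟩
  have hw3 : R ^ α = w ^ 3 := by
    rw [hw, ← Real.rpow_natCast, ← Real.rpow_mul hR0.le]; congr 1; push_cast; ring
  rw [hw3] at h ⊢
  have e3 : ρ * w ^ 2 * R ^ (α / 3) = ρ * w ^ 3 := by rw [← hw]; ring
  rw [← hw] at r₇ r₈
  have hw0 : 0 < w := by linarith
  have hw2 : 16 ≤ w ^ 2 := by nlinarith
  obtain ⟨s₁, hs₁, hf₁⟩ := ht₁ R r₁ (ρ * w ^ 2) x
    (fun p => eval (dil A M p) ((lin v P).leadingCoeff * c₁)) (by positivity)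
    ((differentiable_eval _).comp (differentiable_dil _)).differentiableOn
    (fun p hp => by
      rw [e3] at hp
      exact (hN₁ _ _ hR2 (h p hp).1).trans (loct_pow hR1 2 N₁ (by push_cast; linarith)))
    (by
      obtain ⟨p, hp, hp'⟩ := locta_low (A := A) hM hl₁ x
      refine ⟨p, ball_subset_ball (by nlinarith) hp, le_trans ?_ hp'⟩
      refine (loct_inv_le hR1 hκ₁ r₃).trans (mul_le_of_le_one_right hκ₁.le ?_)
      exact Real.rpow_le_one_of_one_le_of_nonpos hR1 (by simp only [Left.neg_nonpos_iff]; positivity))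
  rw [e3] at hs₁
  have hΩ₁ : ball (x + iR s₁) (ρ * w) ⊆ ball (x + iR s₁) (ε₁ * (ρ * w ^ 2)) := by
    refine ball_subset_ball ?_
    have : 1 ≤ ε₁ * w := by rwa [inv_le_iff_one_le_mul₀' hε₁] at r₈
    calc ρ * w = ρ * w * 1 := (mul_one _).symm
      _ ≤ ρ * w * (ε₁ * w) := by gcongr
      _ = _ := by ring
  have hΩ₂ : ball (x + iR s₁) (ρ * w) ⊆ ball x (ρ * w ^ 3) := by
    refine ball_subset_ball' ?_
    rw [dist_eq_norm, add_sub_cancel_left, norm_iR]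
    have : ρ * w * 16 ≤ ρ * w * w ^ 2 := by gcongr
    have h0 : 0 < ρ * w := by positivity
    nlinarith
  have hne : ∀ p ∈ ball (x + iR s₁) (ρ * w),
      eval (dil A M p) ((lin v P).leadingCoeff * c₁) ≠ 0 :=
    fun p hp => norm_pos_iff.1 (lt_of_lt_of_le (by positivity) (hf₁ p (hΩ₁ hp)))
  obtain ⟨τ, hτ, hτ'⟩ := locta_sheet hsheet e₁ (differentiable_dil (A := A) M)
    (show 0 < ρ * w by positivity) hc hne
    (fun p hp => (h p (hΩ₂ hp)).2.2)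
  have hτ2 : ∀ p ∈ ball (x + iR s₁) (ρ * w), ‖τ p‖ ≤ R ^ 2 := fun p hp => by
    have h1 := (hτ' p hp).2
    have h2 := (h p (hΩ₂ hp)).2.1
    have h3 := norm_sub_norm_le (τ p) (c p)
    linarith
  have hq : ∀ p ∈ ball (x + iR s₁) (ρ * w), ‖dil A M p + τ p • v‖ ≤ R ^ 3 := fun p hp => by
    have h1 := (h p (hΩ₂ hp)).1
    have h2 : ‖τ p • v‖ ≤ R ^ 2 * ‖v‖ := by
      rw [norm_smul]; exact mul_le_mul_of_nonneg_right (hτ2 p hp) (norm_nonneg _)
    have h3 := norm_add_le (dil A M p) (τ p • v)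
    have h4 : R ^ 2 * (1 + ‖v‖) ≤ R ^ 2 * R := by gcongr
    nlinarith
  obtain ⟨s₂, hs₂, hf₂⟩ := ht₂ R r₂ ρ (x + iR s₁)
    (fun p => eval (dil A M p + τ p • v) (∏ g ∈ S, g)) hρ0
    (by
      rw [← hw]
      exact (differentiable_eval (∏ g ∈ S, g)).comp_differentiableOn
        (f := fun p => dil A M p + τ p • v)
        ((differentiable_dil _).differentiableOn.add (hτ.smul_const v)))
    (fun p hp => by
      rw [← hw] at hp
      exact (hN₃ _ _ hR3' (hq p hp)).trans (loct_pow hR1 3 N₃ (by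
        push_cast; linarith [show (0 : ℝ) ≤ 2 * N₄ by positivity])))
    (by
      obtain ⟨p, hp, hp'⟩ := locta_low (A := A) hM hl₂ (x + iR s₁)
      have hp1 : p ∈ ball (x + iR s₁) (ρ * w) := ball_subset_ball (by nlinarith) hp
      refine ⟨p, ball_subset_ball hρ hp, ?_⟩
      rw [loct_bez e₂ (hτ' p hp1).1, norm_mul] at hp'
      have h1 : ‖ev1 (dil A M p) (τ p) B₂‖ ≤ R ^ (3 * N₃ + 2 * N₄ : ℝ) :=
        (hN₄ _ _ _ hR2 (h p (hΩ₂ hp1)).1 (hτ2 p hp1)).trans (loct_pow hR1 2 N₄ (by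
          push_cast; linarith [show (0 : ℝ) ≤ 3 * N₃ by positivity]))
      refine (loct_inv_le hR1 hκ₂ r₄).trans ?_
      rw [Real.rpow_neg hR0.le, ← div_eq_mul_inv, div_le_iff₀' (Real.rpow_pos_of_pos hR0 _)]
      exact hp'.trans (mul_le_mul_of_nonneg_right h1 (norm_nonneg _)))
  rw [← hw] at hs₂
  have hB : ball (x + iR s₁ + iR s₂) (ε₂ * ρ) ⊆ ball (x + iR s₁) (ρ * w) := by
    refine ball_subset_ball' ?_
    rw [dist_eq_norm, add_sub_cancel_left, norm_iR]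
    have : ε₂ * ρ ≤ ρ := mul_le_of_le_one_left hρ0.le hε₂'
    nlinarith
  refine ⟨s₁ + s₂, τ, ?_⟩
  rw [iR_add, ← add_assoc]
  refine ⟨hB.trans hΩ₂, ⟨hτ.mono hB, fun p hp => ⟨(hτ' p (hB hp)).1,
    loct_tm hR1 ha0 (by linarith) (fun g hg => ?_) ?_⟩,
    locta_inv hv (hτ.mono hB) (fun p hp => (hτ' p (hB hp)).1) (fun p hp h0 => ?_)⟩,
    fun p hp => (hτ' p (hB hp)).2⟩
  · refine (hNg g _ _ hR3' (hq p (hB hp))).trans (loct_pow hR1 3 _ ?_)
    rw [ha]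
    have : Ng g ≤ ∑ g ∈ S, Ng g := Finset.single_le_sum (fun _ _ => Nat.zero_le _) hg
    push_cast [Nat.cast_ofNat]
    exact mul_le_mul_of_nonneg_left (by exact_mod_cast this) (by norm_num)
  · exact (loct_inv_le hR1 hε₂ r₅).trans (hf₂ p hp)
  · refine hne p (hB hp) ?_
    have := congrArg (fun q => Polynomial.coeff q (lin v P).natDegree) h0
    simp only [Polynomial.coeff_map, Polynomial.coeff_zero] at this
    rw [map_mul, Polynomial.leadingCoeff, this, zero_mul]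

end Pool.Agent.P.MP_d2ed07_lc
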