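import Pool.Agent.P.MP_d2ed07_lc.Basic2

/-!
Varieties whose fibres over the additive projection have codimension at most one.
-/

namespace Pool.Agent.P.MP_d2ed07_lc

open MvPolynomial Metric Filter Topology

variable {n : ℕ} {F : Type} [Field F] [Algebra ℂ F]

/-- the coordinates as elements of the field that they generate -/
def mma_zk (z : Fin n → F) (i : Fin n) : IntermediateField.adjoin ℂ (Set.range z) :=
  ⟨z i, IntermediateField.subset_adjoin _ _ ⟨i, rfl⟩⟩

theorem mma_coe (z : Fin n → F) (g : MP n) : (aeval (mma_zk z) g : F) = aeval z g :=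
  (aeval_algebraMap_apply F (mma_zk z) g).symm

theorem mma_zero (z : Fin n → F) (g : MP n) : aeval (mma_zk z) g = 0 ↔ aeval z g = 0 := by
  rw [← mma_coe z g, ZeroMemClass.coe_eq_zero]

theorem mma_frac (z : Fin n → F) (a : IntermediateField.adjoin ℂ (Set.range z)) :
    ∃ r s : MP n, aeval (mma_zk z) s ≠ 0 ∧ aeval (mma_zk z) s * a = aeval (mma_zk z) r := by
  obtain ⟨r, s, e⟩ := (IntermediateField.mem_adjoin_range_iff _ _ _).1 a.2
  by_cases hs : aeval z s = 0
  · exact ⟨0, 1, by simp, Subtype.ext (by simp [e, hs])⟩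
  · exact ⟨r, s, mt (mma_zero z s).1 hs, Subtype.ext (by
      rw [MulMemClass.coe_mul, mma_coe, mma_coe, e, mul_div_cancel₀ _ hs])⟩

theorem mma_den {R K : Type} [CommRing R] [Field K] (φ : R →+* K)
    (hfr : ∀ a : K, ∃ r s, φ s ≠ 0 ∧ φ s * a = φ r) (q : MvPolynomial (Fin n) K) :
    ∃ (s : R) (Q : MvPolynomial (Fin n) R), φ s ≠ 0 ∧ map φ Q = C (φ s) * q := by
  induction q using MvPolynomial.induction_on' with
  | add p q hp hq =>
    obtain ⟨s, Q, hs, e⟩ := hp
    obtain ⟨s', Q', hs', e'⟩ := hq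
    refine ⟨s * s', C s' * Q + C s * Q', by simp [hs, hs'], ?_⟩
    simp only [map_add, map_mul, map_C, e, e']
    ring
  | monomial j a =>
    obtain ⟨r, s, hs, e⟩ := hfr a
    exact ⟨s, monomial j r, hs, by simp [C_mul_monomial, e]⟩

/-- a polynomial in two sets of variables as a polynomial in the second set -/
noncomputable def mma_spl : MP2 n →ₐ[ℂ] MvPolynomial (Fin n) (MP n) :=
  aeval (Sum.elim (fun i => C (X i)) X)

theorem mma_eval (x y' : Cn n) (g : MP2 n) :
    eval (Sum.elim x y') g = eval y' (map (eval x) (mma_spl g)) := by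
  induction g using MvPolynomial.induction_on with
  | C a => simp [mma_spl]
  | add p q hp hq => simp only [map_add, hp, hq]
  | mul_X p i hp => rcases i with i | i <;> simp only [map_mul, hp] <;> simp [mma_spl]

theorem mma_ev (z y : Fin n → F) (g : MP2 n) :
    ev z y g = aeval y (map (aeval (mma_zk z) : MP n →ₐ[ℂ] _).toRingHom (mma_spl g)) := by
  rw [ev]
  induction g using MvPolynomial.induction_on with
  | C a => simp [mma_spl]
  | add p q hp hq => simp only [map_add, hp, hq]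
  | mul_X p i hp => rcases i with i | i <;> simp only [map_mul, hp] <;> simp [mma_spl, mma_zk]

theorem mma_map {z : Fin n → F} {x : Cn n} (hx : Loc z x) {G : MvPolynomial (Fin n) (MP n)}
    (h : map (aeval (mma_zk z) : MP n →ₐ[ℂ] _).toRingHom G = 0) : map (eval x) G = 0 := by
  ext a
  have := congrArg (coeff a) h
  rw [coeff_map] at this ⊢
  exact hx _ ((mma_zero z _).1 this)

theorem t_mma (hht1 : T_HT1) : T_MMA := by
  classical
  intro n F _ _ z y i₀ hy hind
  by_cases hi : AlgebraicIndependent (IntermediateField.adjoin ℂ (Set.range z)) y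
  · refine .inl fun x y' hx g hg => ?_
    rw [mma_ev] at hg
    rw [mma_eval, mma_map hx (algebraicIndependent_iff.1 hi _ hg), map_zero]
  obtain ⟨f, f0, hf⟩ := hht1 _ F n y i₀ hind hi
  obtain ⟨φ, hφ⟩ : ∃ φ, φ = (aeval (mma_zk z) : MP n →ₐ[ℂ] _).toRingHom := ⟨_, rfl⟩
  have hfr : ∀ a, ∃ r s, φ s ≠ 0 ∧ φ s * a = φ r := hφ ▸ mma_frac z
  have hz : ∀ g, φ g = 0 ↔ aeval z g = 0 := hφ ▸ mma_zero z
  obtain ⟨s, Q, hs, hQ⟩ := mma_den φ hfr f
  obtain ⟨T, hT⟩ := (IsNoetherian.noetherian (RingHom.ker (aeval (Sum.elim z y) : MP2 n →ₐ[ℂ] F)))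
  have h1 : ∀ g : MP2 n, ∃ t G, φ t ≠ 0 ∧
      (g ∈ T → MvPolynomial.map φ (C t * mma_spl g - Q * G) = 0) := fun g => by
    by_cases hg : g ∈ T
    · have h2 : ev z y g = 0 := RingHom.mem_ker.1 (hT ▸ Submodule.subset_span hg)
      rw [mma_ev, ← hφ, hf] at h2
      obtain ⟨q, hq⟩ := h2
      obtain ⟨t, G, ht, hG⟩ := mma_den φ hfr q
      refine ⟨s * t, G, by simp [hs, ht], fun _ => ?_⟩
      simp only [map_sub, map_mul, map_C, hq, hQ, hG]
      ring
    · exact ⟨1, 0, by simp, fun h => absurd h hg⟩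
  choose t G ht hG using h1
  let ι : (Fin n →₀ ℕ) → Fin n → ℤ := fun a i => a i
  let κ : (Fin n → ℤ) → Fin n →₀ ℕ := fun a => Finsupp.equivFunOnFinite.symm fun i => (a i).toNat
  have hκ : ∀ a, κ (ι a) = a := fun a => by ext i; simp [ι, κ]
  have hι := Function.LeftInverse.injective hκ
  refine .inr ⟨(map φ Q).support.image ι, fun a => coeff (κ a) Q, ∏ g ∈ T, t g, ?_, ?_, ?_,
    fun x y' hx h0 hsum g hg => ?_⟩
  · rw [Finset.card_image_of_injective _ hι]
    have h2 : map φ Q ≠ 0 := by simp [hQ, hs, f0]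
    by_contra h3
    obtain ⟨a, ha⟩ := Finset.card_eq_one.1 (show (map φ Q).support.card = 1 by
      have := Finset.card_pos.2 (support_nonempty.2 h2)
      omega)
    have h4 : aeval y (map φ Q) = 0 := (hf _).2 ⟨C (φ s), by rw [hQ, mul_comm]⟩
    have h5 : coeff a (map φ Q) ≠ 0 := mem_support_iff.1 (ha ▸ Finset.mem_singleton_self a)
    rw [aeval_def, eval₂_eq', ha, Finset.sum_singleton] at h4
    exact mul_ne_zero ((map_ne_zero _).2 h5)
      (Finset.prod_ne_zero_iff.2 fun i _ => pow_ne_zero _ (hy i)) h4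
  · simp only [Finset.mem_image, mem_support_iff, coeff_map]
    rintro _ ⟨a, ha, rfl⟩
    rw [hκ]
    exact mt (hz _).2 ha
  · rw [map_prod]
    exact Finset.prod_ne_zero_iff.2 fun g _ => mt (hz _).2 (ht g)
  · have h2 : eval y' (map (eval x) Q) = 0 := by
      rw [eval_map, eval₂_eq', ← hsum, Finset.sum_image hι.injOn,
        ← Finset.sum_subset (support_map_subset φ Q) fun a _ ha => ?_]
      · exact Finset.sum_congr rfl fun a _ => by simp [hκ, mon, ι]
      · rw [notMem_support_iff, coeff_map] at ha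
        rw [hx _ ((hz _).1 ha), zero_mul]
    have h3 : Submodule.span (MP2 n) (T : Set (MP2 n)) ≤ RingHom.ker (eval (Sum.elim x y')) :=
      Submodule.span_le.2 fun g hg => by
        have h4 := congrArg (eval y') (mma_map hx (hφ ▸ hG g hg))
        rw [map_prod] at h0
        simp only [map_sub, map_mul, map_C, eval_C, h2, zero_mul, sub_zero, map_zero,
          ← mma_eval] at h4
        exact (mul_eq_zero.1 h4).resolve_left (Finset.prod_ne_zero_iff.1 h0 g hg)
    exact h3 (hT ▸ hg)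

theorem mma_pt (z : Fin n → F) : ∃ x, Loc z x := by
  have := RingHom.ker_isPrime (aeval z : MP n →ₐ[ℂ] F)
  by_contra h
  push Not at h
  refine this.ne_top ?_
  rw [← IsPrime.vanishingIdeal_zeroLocus (K := ℂ) (RingHom.ker (aeval z : MP n →ₐ[ℂ] F)), eq_top_iff]
  exact fun g _ => mem_vanishingIdeal_iff.2 fun x hx => absurd (fun g hg => hx g hg) (h x)

theorem t_mm (hmma : T_MMA) (hmmb : T_MMB) : T_MM := by
  intro n F _ _ z y i₀ hy hfree htr hind
  obtain h | ⟨Su, c, g₀, h1, h2, h3, h4⟩ := hmma n F z y i₀ hy hind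
  · obtain ⟨x, hx⟩ := mma_pt z
    exact ⟨x, h x _ hx⟩
  have H := hmmb n _ (mma_zk z) Su c g₀ (eq_top_iff.2 fun a _ => ?_) htr
    (fun m hm a ha => hfree m hm a ?_) h1 (fun a ha => mt (mma_zero z _).1 (h2 a ha))
    (mt (mma_zero z _).1 h3)
  · obtain ⟨x, k1, k2, k3⟩ := H
    exact ⟨x, h4 x _ (fun g hg => k1 g ((mma_zero z g).2 hg)) k2 (by simpa only [exp_dz] using k3)⟩
  · obtain ⟨r, s, hs, e⟩ := mma_frac z a
    exact (IntermediateField.mem_adjoin_range_iff _ _ _).2 ⟨r, s, by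
      rw [← e, mul_div_cancel_left₀ _ hs]⟩
  · simpa [dz, mma_zk] using congrArg Subtype.val ha

end Pool.Agent.P.MP_d2ed07_lc
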