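import Pool.Agent.P.MP_d2ed07_lc.Basic2

/-!
Zeros of exponential sums on an algebraic curve.
-/

namespace Pool.Agent.P.MP_d2ed07_lc

open MvPolynomial Metric Filter Topology

theorem mmb_bc {g : ℂ → ℂ} {a b : ℂ} {r M : ℝ} (hg : DifferentiableOn ℂ g (ball a r))
    (hM : ∀ s ∈ ball a r, (g s).re - (g a).re ≤ M) (hb : ‖b - a‖ < r) :
    ‖g b - g a‖ * (r - ‖b - a‖) ≤ 2 * M * ‖b - a‖ := by
  have hr : 0 < r := (norm_nonneg _).trans_lt hb
  have hM0 : 0 ≤ M := by simpa using hM a (mem_ball_self hr)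
  have hmem : ∀ t ∈ ball (0 : ℂ) r, a + t ∈ ball a r := fun t ht => by
    simpa [mem_ball, dist_eq_norm] using ht
  refine le_of_forall_pos_le_add fun e he => ?_
  have h1 : DifferentiableOn ℂ (fun t => g (a + t) - g a) (ball 0 r) :=
    (hg.comp (differentiableOn_id.const_add a) hmem).sub_const _
  have he' : 0 < e / (2 * r) := by positivity
  have h2 := Complex.borelCaratheodory_zero (M := M + e / (2 * r)) (z := b - a) (by linarith) h1
    (fun t ht => by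
      have := hM _ (hmem t ht)
      simp only [Set.mem_ofPred_eq, Complex.sub_re]
      linarith) hr (mem_ball_zero_iff.2 hb) (by simp)
  rw [le_div_iff₀ (by linarith), add_sub_cancel] at h2
  have h3 : e / (2 * r) * (2 * r) = e := div_mul_cancel₀ _ (by positivity)
  nlinarith

theorem t_cara : T_CARA := by
  intro g a b ρ M hρ hg hM hb
  have hM0 : 0 ≤ M := by simpa using hM a (mem_ball_self (by linarith))
  have h := mmb_bc (b := b) hg hM (by linarith)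
  by_contra hc
  have hc := not_le.1 hc
  nlinarith [norm_nonneg (b - a)]

theorem t_harn : T_HARN := by
  intro R g hg h0 j
  induction j with
  | zero => simp
  | succ j ih =>
    have hx : (0 : ℝ) < (3 / 2) ^ j := by positivity
    set x : ℝ := (3 / 2) ^ j with hxd
    have hsub : ball ((R + x : ℝ) : ℂ) x ⊆ half R := fun s hs => by
      have h1 := Complex.abs_re_le_norm (s - ((R + x : ℝ) : ℂ))
      rw [mem_ball, dist_eq_norm] at hs
      have h2 := (abs_lt.1 (h1.trans_lt hs)).1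
      simp only [Complex.sub_re, Complex.ofReal_re] at h2
      change R < s.re
      linarith
    have hn : ‖((R + (3 / 2) ^ (j + 1) : ℝ) : ℂ) - ((R + x : ℝ) : ℂ)‖ = x / 2 := by
      rw [← Complex.ofReal_sub, Complex.norm_real, Real.norm_eq_abs, pow_succ, ← hxd,
        abs_of_pos (by linarith)]
      ring
    have h := mmb_bc (g := fun s => -g s) (b := ((R + (3 / 2) ^ (j + 1) : ℝ) : ℂ))
      (M := ‖g ((R + x : ℝ) : ℂ)‖) (hg.mono hsub).neg (fun s hs => by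
        have h1 := h0 s (hsub hs)
        have h2 := Complex.re_le_norm (g ((R + x : ℝ) : ℂ))
        simp only [Complex.neg_re]
        linarith) (by rw [hn]; linarith)
    rw [hn, neg_sub_neg, norm_sub_rev] at h
    have h1 := norm_sub_norm_le (g ((R + (3 / 2) ^ (j + 1) : ℝ) : ℂ)) (g ((R + x : ℝ) : ℂ))
    have h2 : ‖g ((R + (3 / 2) ^ (j + 1) : ℝ) : ℂ) - g ((R + x : ℝ) : ℂ)‖ ≤
        2 * ‖g ((R + x : ℝ) : ℂ)‖ := le_of_mul_le_mul_right (by linarith) (half_pos hx)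
    rw [pow_succ (3 : ℝ)]
    linarith

/-- lower bound for the logarithm of an exponential sum without zeros -/
theorem mmb_low (hcara : T_CARA) (hcl : T_CL) {ι : Type} {Su : Finset ι} {u c : ι → ℂ → ℂ}
    {G : ℂ → ℂ} {s₀ : ℂ} {C : ℕ} (ht : 4 ≤ ‖s₀‖)
    (hu : ∀ a ∈ Su, DifferentiableOn ℂ (u a) (ball s₀ 1)) (hG : DifferentiableOn ℂ G (ball s₀ 1))
    (he : ∀ s ∈ ball s₀ 1, Complex.exp (G s) = ∑ a ∈ Su, c a s * Complex.exp (u a s))
    (hb : ∀ a ∈ Su, ∀ s ∈ ball s₀ 1, ‖u a s‖ ≤ ‖s‖ ^ C ∧ ‖c a s‖ ≤ ‖s‖ ^ C)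
    (hw : ∀ a ∈ Su, ∀ ρ B : ℝ, 0 < ρ → ρ ≤ 1 →
      (∀ s ∈ ball s₀ ρ, ‖∑ a ∈ Su, c a s * Complex.exp (u a s)‖ ≤ B) →
      Real.exp (u a s₀).re ≤ (‖s₀‖ / ρ) ^ C * B) {a : ι} (ha : a ∈ Su) :
    (u a s₀).re - ((Su.card + 2 * C + 1 + 2 * ((2 * C + 3) * C + 1) : ℕ) : ℝ) * Real.log ‖s₀‖ ≤
      (G s₀).re := by
  obtain ⟨b, hb', hmax⟩ := Su.exists_max_image (fun a => (u a s₀).re) ⟨a, ha⟩
  set t := ‖s₀‖ with htd
  have ht0 : 0 < t := by linarith
  have ht1 : 1 ≤ t := by linarith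
  have hpow : ∀ m : ℕ, t ^ m = Real.exp (m * Real.log t) := fun m => by
    rw [Real.exp_nat_mul, Real.exp_log ht0]
  have hN : ∀ s ∈ ball s₀ 1, ‖s‖ ^ C ≤ t ^ (2 * C) := fun s hs => by
    rw [pow_mul]
    refine pow_le_pow_left₀ (norm_nonneg _) ?_ _
    have h1 := norm_sub_norm_le s s₀
    rw [mem_ball, dist_eq_norm] at hs
    nlinarith
  have hN1 : 1 ≤ t ^ (2 * C) := one_le_pow₀ ht1
  set N := t ^ (2 * C) with hNd
  set ρ := (N * t ^ 2)⁻¹ with hρd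
  have h16 : 16 ≤ t ^ 2 := by nlinarith
  have hρ : 0 < ρ := by positivity
  have hρ1 : ρ * (N * t ^ 2) = 1 := inv_mul_cancel₀ (by positivity)
  have hρ2 : 16 * N * ρ ≤ 1 := by nlinarith [mul_pos hρ (zero_lt_one.trans_le hN1)]
  have hρ3 : 16 * ρ ≤ 1 := by nlinarith
  have hq : t / ρ = t ^ (2 * C + 3) := by rw [hρd, div_inv_eq_mul, hNd]; ring
  have hup : ∀ s ∈ ball s₀ (4 * ρ), (G s).re ≤
      (u b s₀).re + ((Su.card + 2 * C + 1 : ℕ) : ℝ) * Real.log t := fun s hs => by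
    have hs1 : s ∈ ball s₀ 1 := ball_subset_ball (by linarith) hs
    rw [← Real.exp_le_exp, ← Complex.norm_exp, he s hs1, Real.exp_add, ← hpow]
    have h1 : ∀ a ∈ Su, ‖c a s * Complex.exp (u a s)‖ ≤ N * (Real.exp (u b s₀).re * t) := by
      intro a ha
      have h2 := (hcl ℂ ℂ (u a) s₀ 1 N one_pos (hu a ha)
        fun p hp => (hb a ha p hp).1.trans (hN p hp)).2 s (ball_subset_ball (by linarith) hs) s₀
        (mem_ball_self (by norm_num))
      rw [mem_ball, dist_eq_norm] at hs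
      have h3 := Complex.re_le_norm (u a s - u a s₀)
      have h4 := hmax a ha
      have h5 : (u a s).re ≤ (u b s₀).re + 1 := by
        simp only [Complex.sub_re, div_one] at h2 h3 h4
        nlinarith
      have h6 : Real.exp 1 ≤ t := by linarith [Real.exp_one_lt_three]
      rw [norm_mul, Complex.norm_exp]
      refine mul_le_mul ((hb a ha s hs1).2.trans (hN s hs1)) ?_ (by positivity) (by positivity)
      refine (Real.exp_le_exp.2 h5).trans ?_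
      rw [Real.exp_add]
      gcongr
    refine (norm_sum_le _ _).trans ((Finset.sum_le_card_nsmul _ _ _ h1).trans ?_)
    have h7 : (Su.card : ℝ) ≤ t ^ Su.card := by
      have h8 : (Su.card : ℝ) ≤ 2 ^ Su.card := by exact_mod_cast Nat.lt_two_pow_self.le
      exact h8.trans (pow_le_pow_left₀ (by norm_num) (by linarith) _)
    rw [nsmul_eq_mul, pow_succ, pow_add, ← hNd]
    calc _ ≤ t ^ Su.card * (N * (Real.exp (u b s₀).re * t)) := by gcongr
      _ = _ := by ring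
  obtain ⟨s₁, hs₁, hlow⟩ : ∃ s ∈ ball s₀ ρ,
      (u b s₀).re ≤ (((2 * C + 3) * C + 1 : ℕ) : ℝ) * Real.log t + (G s).re := by
    by_contra hc
    push Not at hc
    have h1 := hw b hb' ρ
      (Real.exp ((u b s₀).re - (((2 * C + 3) * C + 1 : ℕ) : ℝ) * Real.log t)) hρ (by linarith)
      fun s hs => by
        rw [← he s (ball_subset_ball (by linarith) hs), Complex.norm_exp, Real.exp_le_exp]
        linarith [hc s hs]
    rw [hq, ← pow_mul, hpow, ← Real.exp_add, Real.exp_le_exp] at h1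
    have h2 := Real.log_pos (x := t) (by linarith)
    rw [Nat.cast_succ] at h1
    linarith
  have hsub : ball s₁ (3 * ρ) ⊆ ball s₀ (4 * ρ) :=
    ball_subset_ball' (by linarith [mem_ball.1 hs₁])
  have h1 := hcara G s₁ s₀ ρ (((Su.card + 2 * C + 1 : ℕ) : ℝ) * Real.log t +
      (((2 * C + 3) * C + 1 : ℕ) : ℝ) * Real.log t) hρ
    (hG.mono (hsub.trans (ball_subset_ball (by linarith))))
    (fun s hs => by linarith [hup s (hsub hs)])
    (by rw [← dist_eq_norm, dist_comm]; exact hs₁)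
  have h2 := Complex.re_le_norm (G s₁ - G s₀)
  have h3 := hmax a ha
  rw [norm_sub_rev, Complex.sub_re] at h2
  rw [Nat.cast_add _ (2 * _), Nat.cast_mul 2, Nat.cast_ofNat]
  linarith

theorem mmb_ball {R : ℝ} {s₀ : ℂ} (h : s₀ ∈ half (R + 1)) : ball s₀ 1 ⊆ half R := fun s hs => by
  have h1 := Complex.abs_re_le_norm (s - s₀)
  rw [mem_ball, dist_eq_norm] at hs
  have h2 := (abs_lt.1 (h1.trans_lt hs)).1
  have h3 : R + 1 < s₀.re := h
  rw [Complex.sub_re] at h2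
  change R < s.re
  linarith

theorem mmb_core (hharn : T_HARN) (hcara : T_CARA) (hlog : T_LOG) (hcl : T_CL) {ι : Type}
    {Su : Finset ι} {u c : ι → ℂ → ℂ} {R : ℝ} {C : ℕ} (hR : 3 ≤ R)
    (hu : ∀ a ∈ Su, DifferentiableOn ℂ (u a) (half R))
    (hc : ∀ a ∈ Su, DifferentiableOn ℂ (c a) (half R))
    (hb : ∀ a ∈ Su, ∀ s ∈ half R, ‖u a s‖ ≤ ‖s‖ ^ C ∧ ‖c a s‖ ≤ ‖s‖ ^ C)
    (hw : ∀ a ∈ Su, ∀ s₀ ∈ half (R + 1), ∀ ρ B : ℝ, 0 < ρ → ρ ≤ 1 →
      (∀ s ∈ ball s₀ ρ, ‖∑ a ∈ Su, c a s * Complex.exp (u a s)‖ ≤ B) →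
      Real.exp (u a s₀).re ≤ (‖s₀‖ / ρ) ^ C * B) {a₀ a₁ : ι} (h₀ : a₀ ∈ Su) (h₁ : a₁ ∈ Su)
    (h3 : ∀ s ∈ half R, u a₁ s - u a₀ s = s ^ 3) :
    ∃ s ∈ half R, ∑ a ∈ Su, c a s * Complex.exp (u a s) = 0 := by
  by_contra hz
  push Not at hz
  obtain ⟨G, hG, he⟩ := hlog ℂ (half R) _ (convex_half R) (isOpen_half R)
    (DifferentiableOn.fun_sum fun a ha => (hc a ha).mul (hu a ha).cexp) hz
  set K : ℝ := ((Su.card + 2 * C + 1 + 2 * ((2 * C + 3) * C + 1) : ℕ) : ℝ)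
  have hsub : half (R + 1) ⊆ half R := fun s hs => mmb_ball hs (mem_ball_self one_pos)
  have key : ∀ a ∈ Su, ∃ B : ℝ, ∀ j : ℕ, ∀ s : ℂ, s = ((R + 1 + (3 / 2) ^ j : ℝ) : ℂ) →
      ‖G s - u a s + K * Complex.log s‖ ≤ 3 ^ j * B := fun a ha => by
    refine ⟨_, fun j s hs => hs ▸ hharn (R + 1) (fun s => G s - u a s + K * Complex.log s)
      (((hG.sub (hu a ha)).mono hsub).add (DifferentiableOn.const_mul ?_ _)) ?_ j⟩
    · refine differentiableOn_id.clog fun s hs => Or.inl ?_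
      have h4 : R + 1 < s.re := hs
      change 0 < s.re
      linarith
    · intro s hs
      have h4 : R + 1 < s.re := hs
      have h5 := mmb_low hcara hcl (by linarith [Complex.re_le_norm s])
        (fun a ha => (hu a ha).mono (mmb_ball hs)) (hG.mono (mmb_ball hs))
        (fun p hp => he p (mmb_ball hs hp)) (fun a ha p hp => hb a ha p (mmb_ball hs hp))
        (fun a ha => hw a ha s hs) ha
      simp only [Complex.add_re, Complex.sub_re, Complex.re_ofReal_mul, Complex.log_re]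
      linarith
  obtain ⟨B₀, hB₀⟩ := key a₀ h₀
  obtain ⟨B₁, hB₁⟩ := key a₁ h₁
  obtain ⟨j, hj⟩ := pow_unbounded_of_one_lt (B₀ + B₁) (show (1 : ℝ) < 9 / 8 by norm_num)
  have hx : (0 : ℝ) < (3 / 2) ^ j := by positivity
  have h4 := (norm_sub_le _ _).trans (add_le_add (hB₀ j _ rfl) (hB₁ j _ rfl))
  have h5 := h3 ((R + 1 + (3 / 2) ^ j : ℝ) : ℂ) (by
    change R < _
    rw [Complex.ofReal_re]; linarith)
  rw [add_sub_add_right_eq_sub, sub_sub_sub_cancel_left, h5, norm_pow, Complex.norm_real,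
    Real.norm_eq_abs, abs_of_pos (by linarith)] at h4
  have h6 : ((3 / 2 : ℝ) ^ j) ^ 3 ≤ (R + 1 + (3 / 2) ^ j) ^ 3 :=
    pow_le_pow_left₀ hx.le (by linarith) _
  have h7 : ((3 / 2 : ℝ) ^ j) ^ 3 = 3 ^ j * (9 / 8) ^ j := by
    rw [← pow_mul, mul_comm j, pow_mul, ← mul_pow]; norm_num
  have h8 : (0 : ℝ) < 3 ^ j := by positivity
  nlinarith

theorem mmb_trans {F : Type} [Field F] [Algebra ℂ F] {x : F}
    (h : ∀ c : ℂ, x ≠ algebraMap ℂ F c) : Transcendental ℂ x := fun ha => by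
  obtain ⟨c, hc⟩ := minpoly.mem_range_of_degree_eq_one ℂ x
    (IsAlgClosed.degree_eq_one_of_irreducible ℂ (minpoly.irreducible ha.isIntegral))
  exact h c hc.symm

theorem t_mmb (hpar1 : T_PAR1) (htal1 : T_TAL1) (hwrm : T_WRM) (hharn : T_HARN) (hcara : T_CARA)
    (hlog : T_LOG) (hcl : T_CL) : T_MMB := by
  intro n F _ _ z Su c g₀ hgen htd hfree hcard hc hg₀
  obtain ⟨a₀, h₀, a₁, h₁, hne⟩ := Finset.one_lt_card.1 hcard
  have hl : a₁ - a₀ ≠ 0 := sub_ne_zero.2 hne.symm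
  have htr := mmb_trans (hfree _ hl)
  obtain ⟨R₀, ζ, hζ, hloc⟩ := hpar1 n F z _ htd htr
  have hhalf : ∀ {R R' : ℝ}, R ≤ R' → half R' ⊆ half R := fun h s hs => h.trans_lt hs
  have hge : ∀ {R : ℝ} {s : ℂ}, s ∈ half R → R ≤ ‖s‖ := fun hs =>
    (le_of_lt hs).trans (Complex.re_le_norm _)
  have tal : ∀ g : MP n, aeval z g ≠ 0 → ∀ᶠ p : ℕ × ℝ in atTop, ∀ s ∈ half p.2,
      eval (ζ s) g ≠ 0 ∧ ‖eval (ζ s) g‖ ≤ ‖s‖ ^ p.1 := fun g hg => by
    obtain ⟨C, R₁, h⟩ := htal1 n F z _ g htd htr hg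
    filter_upwards [eventually_ge_atTop (3 * C, max R₀ (max R₁ 1))] with p hp s hs
    have hp2 : max R₀ (max R₁ 1) ≤ p.2 := hp.2
    simp only [max_le_iff] at hp2
    have h1 : 1 ≤ ‖s‖ := hp2.2.2.trans (hge hs)
    obtain ⟨h2, h3⟩ := hloc s (hhalf hp2.1 hs)
    have h4 := h _ h2 (by
      rw [h3, norm_pow]
      exact (hp2.2.1.trans (hge hs)).trans (le_self_pow₀ h1 (by norm_num)))
    rw [h3, norm_pow, ← pow_mul] at h4
    refine ⟨fun h5 => ?_, h4.2.trans (pow_le_pow_right₀ h1 hp.1)⟩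
    rw [h5, norm_zero, mul_zero] at h4
    linarith [h4.1]
  have all : ∀ a ∈ Su, ∀ᶠ p : ℕ × ℝ in atTop,
      (∀ s ∈ half p.2, ‖dz a (ζ s)‖ ≤ ‖s‖ ^ p.1 ∧ ‖eval (ζ s) (c a)‖ ≤ ‖s‖ ^ p.1) ∧
      ∀ s₀ ∈ half (p.2 + 1), ∀ ρ B : ℝ, 0 < ρ → ρ ≤ 1 →
        (∀ s ∈ ball s₀ ρ, ‖∑ a ∈ Su, eval (ζ s) (c a) * Complex.exp (dz a (ζ s))‖ ≤ B) →
        Real.exp (dz a (ζ s₀)).re ≤ (‖s₀‖ / ρ) ^ p.1 * B := fun a ha => by
    have e1 : ∀ᶠ p : ℕ × ℝ in atTop, ∀ s ∈ half p.2, ‖dz a (ζ s)‖ ≤ ‖s‖ ^ p.1 := by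
      by_cases h : a = 0
      · exact Eventually.of_forall fun p s _ => by simp [h, dz]
      · filter_upwards [tal (lform a) (by rw [aeval_lform]; simpa using hfree a h 0)] with p hp s hs
        rw [← eval_lform]
        exact (hp s hs).2
    obtain ⟨C, R₁, h⟩ := hwrm n F z _ Su c a hgen htd hfree hl ha hc
    filter_upwards [e1, tal _ (hc a ha), eventually_ge_atTop (C, max R₀ (max R₁ 1))]
      with p p1 p2 hp
    have hp2 : max R₀ (max R₁ 1) ≤ p.2 := hp.2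
    simp only [max_le_iff] at hp2
    refine ⟨fun s hs => ⟨p1 s hs, (p2 s hs).2⟩, fun s₀ hs ρ B hρ hρ1 hB => ?_⟩
    have hsub : ball s₀ ρ ⊆ half R₀ :=
      ((ball_subset_ball hρ1).trans (mmb_ball hs)).trans (hhalf hp2.1)
    have h1 := hge hs
    refine (h ζ s₀ ρ B (by linarith) hρ hρ1 (hζ.mono hsub) fun s hs' =>
      ⟨(hloc s (hsub hs')).1, (hloc s (hsub hs')).2, hB s hs'⟩).trans ?_
    refine mul_le_mul_of_nonneg_right (pow_le_pow_right₀ ?_ hp.1)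
      ((norm_nonneg _).trans (hB s₀ (mem_ball_self hρ)))
    rw [le_div_iff₀ hρ]
    linarith
  obtain ⟨p, p1, p2, hp⟩ := (((eventually_all_finset Su).2 all).and
    ((tal g₀ hg₀).and (eventually_ge_atTop (0, max R₀ 3)))).exists
  have hp2 : max R₀ 3 ≤ p.2 := hp.2
  simp only [max_le_iff] at hp2
  have hζ' := hζ.mono (hhalf hp2.1)
  obtain ⟨s, hs, h⟩ := mmb_core hharn hcara hlog hcl (u := fun a s => dz a (ζ s))
    (c := fun a s => eval (ζ s) (c a)) hp2.2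
    (fun a _ => (differentiable_dz a).comp_differentiableOn hζ')
    (fun a _ => (differentiable_eval (c a)).comp_differentiableOn hζ')
    (fun a ha => (p1 a ha).1) (fun a ha => (p1 a ha).2) h₀ h₁ fun s hs => by
      rw [← (hloc s (hhalf hp2.1 hs)).2, sub_eq_add_neg a₁, dz_add_left, dz_neg_left,
        sub_eq_add_neg]
  exact ⟨ζ s, (hloc s (hhalf hp2.1 hs)).1, (p2 s hs).1, h⟩

end Pool.Agent.P.MP_d2ed07_lc
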