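import Pool.Agent.P.MP_d2ed07_lc.Basic2
import Pool.Agent.P.MP_d2ed07_lc.AS

/-!
Algebraic differential equations and iterated derivatives of rational functions.
-/

namespace Pool.Agent.P.MP_d2ed07_lc

open MvPolynomial Metric Filter Topology

section
variable {F σ ι : Type} [Field F] [Algebra ℂ F] [Fintype σ] [Fintype ι]

omit [Fintype σ] in
theorem ode_frac {a : σ → F} (ha : IntermediateField.adjoin ℂ (Set.range a) = ⊤) (r : F) :
    ∃ p q : MvPolynomial σ ℂ, aeval a q ≠ 0 ∧ aeval a q * r = aeval a p := by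
  obtain ⟨p, q, h⟩ := (IntermediateField.mem_adjoin_range_iff ℂ a r).1
    (ha ▸ IntermediateField.mem_top)
  by_cases hq : aeval a q = 0
  · exact ⟨0, 1, by simp, by simp [h, hq]⟩
  · exact ⟨p, q, hq, by rw [h, mul_div_cancel₀ _ hq]⟩

/-- vectors that are combinations of the gradients of relations and the given forms -/
def OdeG (a : σ → F) (lam : ι → σ → MvPolynomial σ ℂ) (x : σ → F) : Prop :=
  ∃ (c : MvPolynomial σ ℂ) (Y : σ → MvPolynomial σ ℂ) (ν : ι → MvPolynomial σ ℂ),
    aeval a c ≠ 0 ∧ (∀ s, aeval a c * x s = aeval a (Y s)) ∧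
    ∀ (G : Type) [CommRing G] (φ : MvPolynomial σ ℂ →+* G) (η : σ → G),
      (∀ g : MvPolynomial σ ℂ, aeval a g = 0 → ∑ s, η s * φ (pderiv s g) = 0) →
      ∑ s, φ (Y s) * η s = ∑ i, φ (ν i) * ∑ s, φ (lam i s) * η s

theorem ode_span {a : σ → F} (lam : ι → σ → MvPolynomial σ ℂ)
    (ha : IntermediateField.adjoin ℂ (Set.range a) = ⊤) {x : σ → F}
    (hx : x ∈ Submodule.span F ({x | ∃ g : MvPolynomial σ ℂ, aeval a g = 0 ∧
      x = fun s => aeval a (pderiv s g)} ∪ Set.range fun i s => aeval a (lam i s))) :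
    OdeG a lam x := by
  classical
  induction hx using Submodule.span_induction with
  | mem x hx =>
    rcases hx with ⟨g, hg, rfl⟩ | ⟨i, rfl⟩
    · refine ⟨1, fun s => pderiv s g, 0, by simp, by simp, fun G _ φ η h => ?_⟩
      simp only [Pi.zero_apply, map_zero, zero_mul, Finset.sum_const_zero, mul_comm (φ _)]
      exact h g hg
    · refine ⟨1, lam i, Pi.single i 1, by simp, by simp, fun G _ φ η _ => ?_⟩
      rw [Finset.sum_eq_single i (fun j _ hj => by simp [hj]) (by simp)]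
      simp
  | zero => exact ⟨1, 0, 0, by simp, by simp, fun G _ φ η _ => by simp⟩
  | add x y _ _ hx hy =>
    obtain ⟨c, Y, ν, h1, h2, h3⟩ := hx
    obtain ⟨c', Y', ν', h1', h2', h3'⟩ := hy
    refine ⟨c * c', fun s => c' * Y s + c * Y' s, fun i => c' * ν i + c * ν' i,
      by rw [map_mul]; exact mul_ne_zero h1 h1', fun s => ?_, fun G _ φ η h => ?_⟩
    · simp only [map_add, map_mul, ← h2, ← h2', Pi.add_apply]
      ring
    · simp only [map_add, map_mul, add_mul, mul_assoc, Finset.sum_add_distrib, ← Finset.mul_sum,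
        h3 G φ η h, h3' G φ η h]
  | smul r x _ hx =>
    obtain ⟨c, Y, ν, h1, h2, h3⟩ := hx
    obtain ⟨p, q, hq, hr⟩ := ode_frac ha r
    refine ⟨q * c, fun s => p * Y s, fun i => p * ν i,
      by rw [map_mul]; exact mul_ne_zero hq h1, fun s => ?_, fun G _ φ η h => ?_⟩
    · simp only [map_mul, ← h2, ← hr, Pi.smul_apply, smul_eq_mul]
      ring
    · simp only [map_mul, mul_assoc, ← Finset.mul_sum, h3 G φ η h]

theorem ode_der (a : σ → F) (d : Derivation ℂ F F) (g : MvPolynomial σ ℂ) (hg : aeval a g = 0) :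
    ∑ s, d (a s) * aeval a (pderiv s g) = 0 := by
  rw [← deriv_aeval, hg, map_zero]

theorem ode_main (hdu : T_DU) {a : σ → F} (lam : ι → σ → MvPolynomial σ ℂ)
    (ha : IntermediateField.adjoin ℂ (Set.range a) = ⊤)
    (hd : ∀ d : Derivation ℂ F F, (∀ i, ∑ s, aeval a (lam i s) * d (a s) = 0) → d = 0) :
    ∃ (c : MvPolynomial σ ℂ) (ν : σ → ι → MvPolynomial σ ℂ), aeval a c ≠ 0 ∧
      ∀ (G : Type) [CommRing G] (φ : MvPolynomial σ ℂ →+* G) (η : σ → G),
        (∀ g : MvPolynomial σ ℂ, aeval a g = 0 → φ g = 0) →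
        (∀ g : MvPolynomial σ ℂ, aeval a g = 0 → ∑ s, η s * φ (pderiv s g) = 0) →
        ∀ s, φ c * η s = ∑ i, φ (ν s i) * ∑ s, φ (lam i s) * η s := by
  classical
  have htop : Submodule.span F ({x | ∃ g : MvPolynomial σ ℂ, aeval a g = 0 ∧
      x = fun s => aeval a (pderiv s g)} ∪ Set.range fun i s => aeval a (lam i s)) = ⊤ := by
    by_contra h
    obtain ⟨u, hu, hu'⟩ := as_exists _ h
    obtain ⟨d, hd'⟩ := hdu F σ a u ha fun g hg =>
      hu' _ (Submodule.subset_span (Or.inl ⟨g, hg, rfl⟩))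
    have h0 := hd d fun i => by
      simp only [hd', mul_comm _ (u _)]
      exact hu' _ (Submodule.subset_span (Or.inr ⟨i, rfl⟩))
    exact hu (funext fun s => by rw [← hd', h0]; rfl)
  choose c Y ν h1 h2 h3 using fun s : σ =>
    ode_span lam ha (x := Pi.single s 1) (htop ▸ Submodule.mem_top)
  refine ⟨∏ s, c s, fun s i => (∏ s' ∈ Finset.univ.erase s, c s') * ν s i, ?_,
    fun G _ φ η hφ hη s => ?_⟩
  · rw [map_prod]
    exact Finset.prod_ne_zero_iff.2 fun s _ => h1 s
  · have e1 : ∑ s', φ (Y s s') * η s' = φ (c s) * η s := by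
      rw [Finset.sum_eq_single s (fun s' _ hs => ?_) (by simp)]
      · have := hφ (Y s s - c s) (by rw [map_sub, ← h2]; simp)
        rw [map_sub, sub_eq_zero] at this
        rw [this]
      · rw [hφ _ (by rw [← h2]; simp [hs]), zero_mul]
    simp only [map_mul, mul_assoc, ← Finset.mul_sum]
    rw [← h3 s G φ η hη, e1, ← Finset.prod_erase_mul _ _ (Finset.mem_univ s), map_mul, mul_assoc]
end

theorem t_ode (hdu : T_DU) : T_ODE := by
  intro F _ _ σ ι _ _ a lam ha hd
  obtain ⟨c, ν, h1, h2⟩ := ode_main hdu lam ha hd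
  exact ⟨c, ν, h1, fun d => h2 F (aeval a : MvPolynomial σ ℂ →ₐ[ℂ] F).toRingHom (fun s => d (a s))
    (fun _ h => h) (ode_der a d), fun ξ η h h' => h2 ℂ (eval ξ) η h h'⟩

theorem ode_div {E : Type} [NormedAddCommGroup E] [NormedSpace ℂ E] {A B : E → ℂ} {p : E}
    (hA : DifferentiableAt ℂ A p) (hB : DifferentiableAt ℂ B p) (h0 : B p ≠ 0) (u : E) :
    fderiv ℂ (fun q => A q / B q) p u =
      (B p * fderiv ℂ A p u - A p * fderiv ℂ B p u) / B p ^ 2 := by
  have h1 := hA.hasFDerivAt.mul ((hasDerivAt_inv h0).comp_hasFDerivAt p hB.hasFDerivAt)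
  have h2 : (fun q => A q / B q) = A * ((fun y => y⁻¹) ∘ B) := by
    funext q
    simp [div_eq_mul_inv]
  rw [h2, h1.fderiv]
  simp only [add_apply, smul_apply, smul_eq_mul, Function.comp_apply]
  field_simp
  ring

theorem t_chain : T_CHAIN := by
  intro n F _ _ σ ι _ a δ c U hc hU w
  have hdf : ∀ (Ω : Set (Cn n)) (α : Cn n → σ → ℂ) (f₁ f₂ : MvPolynomial σ ℂ),
      DifferentiableOn ℂ α Ω → (∀ p ∈ Ω, eval (α p) (c * f₂) ≠ 0) →
      DifferentiableOn ℂ (fun p => eval (α p) f₁ / eval (α p) f₂) Ω := fun Ω α f₁ f₂ hα h => by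
    simp only [div_eq_mul_inv]
    exact ((differentiable_eval f₁).comp_differentiableOn hα).mul
      (((differentiable_eval f₂).comp_differentiableOn hα).inv fun p hp =>
        right_ne_zero_of_mul (map_mul (eval (α p)) c f₂ ▸ h p hp))
  induction w with
  | nil =>
    intro f f₁ f₂ _ hf
    refine ⟨c * f₁, 1, ?_, fun Ω α u _ hα h => ⟨hdf Ω α _ _ hα fun p hp => (h p hp).1,
      fun p hp => ?_⟩⟩
    · rw [List.foldl_nil, pow_one, map_mul, map_mul, ← hf]
      ring
    · have h1 := (h p hp).1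
      rw [map_mul] at h1
      simp only [pow_one, map_mul]
      rw [mul_div_mul_left _ _ (left_ne_zero_of_mul h1)]
  | cons i w ih =>
    intro f f₁ f₂ h2 hf
    have hD : ∀ g : MvPolynomial σ ℂ,
        aeval a (∑ s, U i s * pderiv s g) = aeval a c * δ i (aeval a g) := fun g => by
      simp only [deriv_aeval, map_sum, map_mul, ← hU, Finset.mul_sum, mul_assoc]
    obtain ⟨g, e, h3, h4⟩ := ih (δ i f)
      (f₂ * ∑ s, U i s * pderiv s f₁ - f₁ * ∑ s, U i s * pderiv s f₂) (c * f₂ ^ 2)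
      (by rw [map_mul, map_pow]; exact mul_ne_zero hc (pow_ne_zero _ h2)) (by
        rw [map_sub, map_mul, map_mul, map_mul, map_pow, hD, hD, ← hf, Derivation.leibniz,
          smul_eq_mul, smul_eq_mul]
        ring)
    have he : (c * (c * f₂ ^ 2)) ^ e = (c * f₂) ^ (2 * e) := by
      rw [pow_mul]
      congr 1
      ring
    rw [he] at h3 h4
    refine ⟨g, 2 * e, h3, fun Ω α u hΩ hα h => ⟨hdf Ω α _ _ hα fun p hp => (h p hp).1, _,
      fun p hp => ?_, h4 Ω α u hΩ hα fun p hp => ⟨?_, (h p hp).2⟩⟩⟩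
    · have h1 := (h p hp).1
      rw [map_mul] at h1
      have h5 := left_ne_zero_of_mul h1
      have h6 := right_ne_zero_of_mul h1
      have hp' : DifferentiableAt ℂ α p := hα.differentiableAt (hΩ.mem_nhds hp)
      have hE : ∀ g : MvPolynomial σ ℂ, eval (α p) (∑ s, U i s * pderiv s g) =
          eval (α p) c * fderiv ℂ (fun q => eval (α q) g) p (u i) := fun g => by
        simp only [fderiv_eval_comp hp', map_sum, map_mul, ← (h p hp).2, Finset.mul_sum, mul_assoc]
      rw [ode_div (A := fun q => eval (α q) f₁) (B := fun q => eval (α q) f₂)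
        ((differentiable_eval f₁ _).comp p hp') ((differentiable_eval f₂ _).comp p hp') h6,
        map_sub, map_mul, map_mul, map_mul, map_pow, hE, hE]
      field_simp
    · rw [show c * (c * f₂ ^ 2) = (c * f₂) ^ 2 by ring, map_pow]
      exact pow_ne_zero _ (h p hp).1

end Pool.Agent.P.MP_d2ed07_lc
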