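import Pool.Agent.P.MP_d2ed07_lc.Basic2
import Pool.Agent.P.MP_d2ed07_lc.PARAM

/-! Curves: polynomial bounds and a parametrisation near infinity. -/

namespace Pool.Agent.P.MP_d2ed07_lc

open MvPolynomial Metric Filter Topology

theorem par1_setup {F : Type} [Field F] [Algebra ℂ F] {t : F} (hd : Algebra.trdeg ℂ F ≤ 1)
    (ht : Transcendental ℂ t) : ∃ (K : Subfield F) (φ : Polynomial ℂ →+* K),
      (∀ r, algebraMap K F (φ r) = Polynomial.aeval t r) ∧
      (∀ a : K, ∃ r s, φ s ≠ 0 ∧ φ s * a = φ r) ∧ (∀ r, φ r = 0 → r = 0) ∧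
      ∀ a : F, IsAlgebraic K a := by
  set φF : Polynomial ℂ →+* F := (Polynomial.aeval t : Polynomial ℂ →ₐ[ℂ] F).toRingHom with hφF
  let K : Subfield F := Subfield.closure φF.range
  let φ : Polynomial ℂ →+* K := φF.codRestrict K fun r => Subfield.subset_closure ⟨r, rfl⟩
  refine ⟨K, φ, fun _ => rfl, ?_, fun r hr => ?_, fun a => param_alg ht (fun h => ?_) K
    (fun c => Subfield.subset_closure ⟨Polynomial.C c, by simp [hφF]⟩)
    (Subfield.subset_closure ⟨Polynomial.X, by simp [hφF]⟩)⟩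
  · rintro ⟨a, ha⟩
    obtain ⟨u, hu, v, hv, rfl⟩ := Subfield.mem_closure_iff.1 ha
    rw [Subring.closure_eq] at hu hv
    obtain ⟨r, rfl⟩ := hu
    obtain ⟨s, rfl⟩ := hv
    by_cases h : φF s = 0
    · exact ⟨0, 1, by simp, Subtype.ext (by simp [h])⟩
    · exact ⟨r, s, fun h' => h (congrArg Subtype.val h'), Subtype.ext (mul_div_cancel₀ _ h)⟩
  · by_contra h
    exact ht ⟨r, h, congrArg Subtype.val hr⟩
  · have h1 := h.cardinalMk_le_trdeg.trans hd
    rw [Cardinal.mk_fin] at h1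
    norm_num at h1

theorem par1_up (c : Polynomial ℂ) :
    ∃ N : ℕ, ∀ τ : ℂ, 2 ≤ ‖τ‖ → ‖c.eval τ‖ ≤ ‖τ‖ ^ N := by
  induction c using Polynomial.induction_on' with
  | add p q hp hq =>
    obtain ⟨N, hN⟩ := hp
    obtain ⟨M, hM⟩ := hq
    refine ⟨max N M + 1, fun τ hτ => ?_⟩
    have h1 : ‖τ‖ ^ N ≤ ‖τ‖ ^ max N M := pow_le_pow_right₀ (by linarith) (le_max_left _ _)
    have h2 : ‖τ‖ ^ M ≤ ‖τ‖ ^ max N M := pow_le_pow_right₀ (by linarith) (le_max_right _ _)
    have h3 : 0 ≤ ‖τ‖ ^ max N M := by positivity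
    rw [Polynomial.eval_add, pow_succ]
    refine (norm_add_le _ _).trans ?_
    nlinarith [hN τ hτ, hM τ hτ]
  | monomial j a =>
    obtain ⟨k, hk⟩ := pow_unbounded_of_one_lt ‖a‖ (by norm_num : (1 : ℝ) < 2)
    refine ⟨k + j, fun τ hτ => ?_⟩
    rw [Polynomial.eval_monomial, norm_mul, norm_pow, pow_add]
    exact mul_le_mul_of_nonneg_right (hk.le.trans (pow_le_pow_left₀ (by norm_num) hτ k))
      (by positivity)

theorem par1_low {c : Polynomial ℂ} (hc : c ≠ 0) :
    ∃ R : ℝ, ∀ τ : ℂ, R ≤ ‖τ‖ → 1 ≤ ‖τ‖ * ‖c.eval τ‖ := by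
  have h1 : 0 < (Polynomial.X * c).degree := by
    rw [← Polynomial.natDegree_pos_iff_degree_pos, Polynomial.natDegree_X_mul hc]
    omega
  have h2 := ((Polynomial.X * c).tendsto_norm_atTop h1
    (tendsto_comap (f := fun τ : ℂ => ‖τ‖) (x := atTop))).eventually_ge_atTop 1
  rw [eventually_comap, eventually_atTop] at h2
  obtain ⟨R, hR⟩ := h2
  refine ⟨R, fun τ hτ => ?_⟩
  simpa using hR _ hτ τ rfl

theorem t_tal1 (hrb : T_RB) : T_TAL1 := by
  intro n F _ _ z l g hd ht hg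
  obtain ⟨K, φ, hφ, hfr, -, halg⟩ := par1_setup hd ht
  obtain ⟨s, Q, hs, hQ⟩ := param_den φ hfr (minpoly K (aeval z g))
  have h0 : Q.coeff 0 ≠ 0 := fun h => by
    have h1 := congrArg (Polynomial.coeff · 0) hQ
    simp only [Polynomial.coeff_map, h, map_zero, Polynomial.coeff_C_mul] at h1
    exact mul_ne_zero hs (minpoly.coeff_zero_ne_zero (halg _).isIntegral hg) h1.symm
  have hJ : Q.coeff Q.natDegree ≠ 0 :=
    Polynomial.leadingCoeff_ne_zero.2 fun h => h0 (by rw [h, Polynomial.coeff_zero])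
  have hrel : ∀ ξ, Loc z ξ → ∑ j ∈ Finset.range (Q.natDegree + 1),
      (Q.coeff j).eval (dz l ξ) * eval ξ g ^ j = 0 := fun ξ hξ => by
    have h1 := hξ (∑ j ∈ Finset.range (Q.natDegree + 1),
      Polynomial.aeval (lform l) (Q.coeff j) * g ^ j) (by
        have h2 : Polynomial.aeval (aeval z g) (Q.map φ) = 0 := by
          rw [hQ, map_mul, minpoly.aeval, mul_zero]
        rw [Polynomial.aeval_def, Polynomial.eval₂_map, Polynomial.eval₂_eq_sum_range] at h2
        simp only [map_sum, map_mul, map_pow, ← Polynomial.aeval_algHom_apply, aeval_lform]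
        simpa only [RingHom.comp_apply, hφ] using h2)
    simp only [← coe_aeval_eq_eval, map_sum, map_mul, map_pow, RingHom.coe_coe,
      ← Polynomial.aeval_algHom_apply, aeval_lform, Polynomial.coe_aeval_eq_eval] at h1 ⊢
    exact h1
  obtain ⟨C, hC, hb⟩ := hrb Q.natDegree
  choose N hN using fun j => par1_up (Q.coeff j)
  obtain ⟨R₀, hR₀⟩ := par1_low h0
  obtain ⟨R₁, hR₁⟩ := par1_low hJ
  obtain ⟨M, hM⟩ : ∃ M, M = ∑ j ∈ Finset.range (Q.natDegree + 1), N j + 1 := ⟨_, rfl⟩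
  refine ⟨⌈C⌉₊ * M, max 3 (max R₀ R₁), fun ξ hξ hτ => ?_⟩
  have hrel' := hrel ξ hξ
  generalize dz l ξ = τ at hτ hrel'
  rw [max_le_iff, max_le_iff] at hτ
  obtain ⟨h3, h4, h5⟩ := hτ
  have hp : 0 < ‖τ‖ := by linarith
  have hl : 1 ≤ Real.log ‖τ‖ := by
    rw [Real.le_log_iff_exp_le hp]
    exact (Real.exp_one_lt_d9.le.trans (by norm_num)).trans h3
  have hM1 : (1 : ℝ) ≤ M := by exact_mod_cast (by omega : 1 ≤ M)
  have he : ∀ k : ℕ, Real.exp (k * Real.log ‖τ‖) = ‖τ‖ ^ k := fun k => by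
    rw [Real.exp_nat_mul, Real.exp_log hp]
  have hlow : ∀ a : ℝ, 1 ≤ ‖τ‖ * a → Real.exp (-(M * Real.log ‖τ‖)) ≤ a := fun a ha => by
    have h6 : Real.exp (-(M * Real.log ‖τ‖)) ≤ Real.exp (-Real.log ‖τ‖) :=
      Real.exp_le_exp.2 (by nlinarith)
    rw [Real.exp_neg (Real.log _), Real.exp_log hp] at h6
    exact h6.trans ((inv_le_iff_one_le_mul₀' hp).2 ha)
  obtain ⟨h6, h7⟩ := hb (fun j => (Q.coeff j).eval τ) (M * Real.log ‖τ‖) (eval ξ g)
    (by nlinarith) (fun j hj => by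
      rw [he]
      refine (hN j τ (by linarith)).trans (pow_le_pow_right₀ (by linarith) ?_)
      have := Finset.single_le_sum (f := N) (fun _ _ => Nat.zero_le _)
        (Finset.mem_range.2 (Nat.lt_add_one_of_le hj))
      omega) (hlow _ (hR₀ τ h4)) (hlow _ (hR₁ τ h5)) hrel'
  have h8 : Real.exp (C * (M * Real.log ‖τ‖)) ≤ ‖τ‖ ^ (⌈C⌉₊ * M) := by
    rw [← he]
    refine Real.exp_le_exp.2 ?_
    push_cast
    rw [mul_assoc]
    exact mul_le_mul_of_nonneg_right (Nat.le_ceil C) (by positivity)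
  refine ⟨?_, h7.trans h8⟩
  have h9 := mul_le_mul h8 h6 (Real.exp_pos _).le (by positivity)
  rwa [← Real.exp_add, add_neg_cancel, Real.exp_zero] at h9

theorem par1_diff {Ω : Set ℂ} {θ : ℂ → ℂ} (hθ : DifferentiableOn ℂ θ Ω)
    (G : Polynomial (Polynomial ℂ)) :
    DifferentiableOn ℂ (fun s => G.eval₂ (Polynomial.evalRingHom (s ^ 3)) (θ s)) Ω := by
  simp only [Polynomial.eval₂_eq_sum_range, Polynomial.coe_evalRingHom]
  refine DifferentiableOn.fun_sum fun j _ => DifferentiableOn.mul ?_ (hθ.pow j)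
  exact ((G.coeff j).differentiable.comp (differentiable_pow 3)).differentiableOn

theorem t_par1 (hsheet : T_SHEET) : T_PAR1 := by
  classical
  intro n F _ _ z l hd ht
  have : CharZero F := charZero_of_injective_algebraMap (algebraMap ℂ F).injective
  obtain ⟨K, φ, hφ, hfr, hinj, halg⟩ := par1_setup hd ht
  obtain ⟨θ, μ, h, h1, h2, h3, h4, h5, A, B, h6⟩ := param_abs φ hfr (Finset.univ.image z)
    fun a _ => halg a
  choose! G hG using h5
  have k1 : ∀ G : Polynomial (Polynomial ℂ), G.map φ = 0 → G = 0 := fun G hG => by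
    ext1 j
    exact hinj _ (by rw [← Polynomial.coeff_map, hG, Polynomial.coeff_zero])
  obtain ⟨R₀, hR₀⟩ := par1_low (c := h) fun h0 => h3 (by rw [h0, map_zero])
  have hh : ∀ s ∈ half (max R₀ 1), h.eval (s ^ 3) ≠ 0 := fun s hs h0 => by
    have h7 : max R₀ 1 ≤ ‖s‖ := (le_of_lt hs).trans (Complex.re_le_norm s)
    rw [max_le_iff] at h7
    have h8 := hR₀ (s ^ 3) (by
      rw [norm_pow]
      exact h7.1.trans (le_self_pow₀ h7.2 (by norm_num)))
    rw [h0, norm_zero, mul_zero] at h8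
    linarith
  have hm : ∀ s : ℂ, (μ.map (Polynomial.evalRingHom (s ^ 3))).Monic := fun s => h1.map _
  have hn : ∀ s : ℂ, (μ.map (Polynomial.evalRingHom (s ^ 3))).natDegree = μ.natDegree :=
    fun s => h1.natDegree_map _
  obtain ⟨t₀, ht₀⟩ := Complex.exists_root (f := μ.map (Polynomial.evalRingHom
    (((max R₀ 1 + 1 : ℝ) : ℂ) ^ 3))) (by
      rw [← Polynomial.natDegree_pos_iff_degree_pos, hn]
      exact h2)
  obtain ⟨th, hth, -, hroot⟩ := hsheet ℂ (half (max R₀ 1))
    (fun s => μ.map (Polynomial.evalRingHom (s ^ 3))) μ.natDegree (convex_half _) (isOpen_half _)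
    (fun j => by
      simp only [Polynomial.coeff_map, Polynomial.coe_evalRingHom]
      exact ((μ.coeff j).differentiable.comp (differentiable_pow 3)).differentiableOn)
    (fun s _ => ⟨(hn s).le, by rw [← hn s, (hm s).coeff_natDegree]; exact one_ne_zero⟩)
    (fun s hs τ h7 h8 => hh s hs (by
      have h9 := congrArg (fun G : Polynomial (Polynomial ℂ) =>
        (G.map (Polynomial.evalRingHom (s ^ 3))).eval τ) (sub_eq_zero.1 (k1 _ h6))
      simp only [Polynomial.map_add, Polynomial.map_mul, ← Polynomial.derivative_map,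
        Polynomial.eval_add, Polynomial.eval_mul, h7, h8, Polynomial.map_C, Polynomial.eval_C,
        mul_zero, add_zero] at h9
      exact h9.symm))
    ((max R₀ 1 + 1 : ℝ) : ℂ) (lt_add_one (max R₀ 1)) t₀ ht₀
  refine ⟨max R₀ 1, fun s i => (G (z i)).eval₂ (Polynomial.evalRingHom (s ^ 3)) (th s) /
    h.eval (s ^ 3), differentiableOn_pi.2 fun i => (par1_diff hth _).div
      (h.differentiable.comp (differentiable_pow 3)).differentiableOn hh, fun s hs => ?_⟩
  let E : Polynomial (Polynomial ℂ) →+* F :=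
    Polynomial.eval₂RingHom ((algebraMap K F).comp φ) θ
  let E' : Polynomial (Polynomial ℂ) →+* ℂ :=
    Polynomial.eval₂RingHom (Polynomial.evalRingHom (s ^ 3)) (th s)
  have hE : ∀ G, Polynomial.aeval θ (Polynomial.map φ G) = E G := fun G => by
    rw [Polynomial.aeval_def, Polynomial.eval₂_map]; rfl
  have hr : E' μ = 0 := (Polynomial.eval_map _ _).symm.trans (hroot s hs)
  have k2 : ∀ G, E G = 0 → E' G = 0 := fun G hG => by
    rw [← Polynomial.modByMonic_add_div G μ, map_add, map_mul, hr, zero_mul, add_zero,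
      k1 _ (h4 G ((hE G).trans hG)), map_zero]
  have eh : ∀ r, E' (Polynomial.C r) = r.eval (s ^ 3) := fun r => Polynomial.eval₂_C _ _
  have eh' : ∀ r, E (Polynomial.C r) = algebraMap K F (φ r) := fun r => Polynomial.eval₂_C _ _
  obtain ⟨Γ, g1, g2, g3⟩ := param_graph E E' k2 (Polynomial.C h) (by rw [eh]; exact hh s hs)
  have a1 : ∀ i, (z i, E' (G (z i)) / h.eval (s ^ 3)) ∈ Γ := fun i => by
    rw [← eh]
    exact g2 _ _ (by rw [eh', ← hE, ← hG _ (Finset.mem_image_of_mem _ (Finset.mem_univ i))])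
  have a2 : ∀ g : MP n, (aeval z g, eval (fun i => E' (G (z i)) / h.eval (s ^ 3)) g) ∈ Γ := by
    intro g
    induction g using MvPolynomial.induction_on with
    | C a =>
      have := g1 (Polynomial.C (Polynomial.C a))
      rw [eh, eh', hφ] at this
      simpa using this
    | add p q hp hq => simpa using Γ.add_mem hp hq
    | mul_X p i hp => simpa using Γ.mul_mem hp (a1 i)
  refine ⟨fun g hg => ?_, ?_⟩
  · have := a2 g
    rw [hg] at this
    exact g3 _ _ _ this Γ.zero_mem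
  · have h7 := a2 (lform l)
    have h8 := g1 (Polynomial.C Polynomial.X)
    rw [eh, eh', hφ, Polynomial.aeval_X, Polynomial.eval_X] at h8
    rw [aeval_lform, eval_lform] at h7
    exact g3 _ _ _ h7 h8

end Pool.Agent.P.MP_d2ed07_lc
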