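import Pool.Agent.P.MP_d2ed07_lc.Basic2

/-!
Holomorphic fixed points with parameters, elimination of coordinates.
-/

namespace Pool.Agent.P.MP_d2ed07_lc

open MvPolynomial Metric Filter Topology

theorem pfix_diff {E : Type} [NormedAddCommGroup E] [NormedSpace ℂ E] [CompleteSpace E]
    {Ψ : E × E → E} {ψ : E → E} {e : E} {c : ℝ} (hΨ : DifferentiableAt ℂ Ψ (e, ψ e))
    (h1 : ∀ᶠ g in 𝓝 (ψ e), ‖Ψ (e, g) - Ψ (e, ψ e)‖ ≤ 1 / 2 * ‖g - ψ e‖)
    (h2 : ∀ᶠ e' in 𝓝 e, ‖ψ e' - ψ e‖ ≤ c * ‖e' - e‖) (h3 : ∀ᶠ e' in 𝓝 e, Ψ (e', ψ e') = ψ e') :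
    DifferentiableAt ℂ ψ e := by
  obtain ⟨L, hL⟩ := hΨ
  have hB : ‖L.comp (ContinuousLinearMap.inr ℂ E E)‖ < 1 :=
    ((hL.comp (ψ e) (hasFDerivAt_prodMk_right e (ψ e))).le_of_lip' (by norm_num) h1).trans_lt
      (by norm_num)
  let U := Units.oneSub _ hB
  have hU : ∀ w, (↑U⁻¹ : E →L[ℂ] E) (w - L (0, w)) = w := fun w =>
    DFunLike.congr_fun U.inv_mul w
  have hO : (fun e' => ψ e' - ψ e) =O[𝓝 e] fun e' => e' - e := Asymptotics.IsBigO.of_bound c h2
  have hc : Tendsto (fun e' => (e', ψ e')) (𝓝 e) (𝓝 (e, ψ e)) :=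
    tendsto_id.prodMk_nhds (tendsto_sub_nhds_zero_iff.1
      (hO.trans_tendsto (tendsto_sub_nhds_zero_iff.2 tendsto_id)))
  have h4 := ((hasFDerivAt_iff_isLittleO.1 hL).comp_tendsto hc).trans_isBigO
    (((Asymptotics.isBigO_refl _ _).prod_left hO : (fun e' => (e' - e, ψ e' - ψ e)) =O[𝓝 e] _))
  refine ⟨(↑U⁻¹ : E →L[ℂ] E).comp (L.comp (ContinuousLinearMap.inl ℂ E E)),
    hasFDerivAt_iff_isLittleO.2 ((((↑U⁻¹ : E →L[ℂ] E).isBigO_comp _ _).trans_isLittleO h4).congr'
      ?_ EventuallyEq.rfl)⟩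
  filter_upwards [h3] with e' he'
  have e1 : L ((e', ψ e') - (e, ψ e)) = L (0, ψ e' - ψ e) + L (e' - e, 0) := by
    rw [← map_add]
    simp
  simp only [Function.comp_apply]
  rw [he', h3.self_of_nhds, e1, ← sub_sub, map_sub, hU]
  rfl

theorem t_pfix (hfix : T_FIX) : T_PFIX := by
  intro n Ψ e₀ g₀ ρ ρ' κ h0 hκ hd hl hs
  have hsub : closedBall g₀ (2 * ρ' / 3) ⊆ ball g₀ ρ' := closedBall_subset_ball (by linarith)
  have hex : ∀ e, ∃ g, e ∈ ball e₀ ρ → g ∈ ball g₀ ρ' ∧ Ψ (e, g) = g := fun e => by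
    by_cases he : e ∈ ball e₀ ρ
    · obtain ⟨g, h1, h2⟩ := hfix (Cn n) (fun g => Ψ (e, g)) g₀ (2 * ρ' / 3) (by linarith)
        (fun p hp p' hp' => by simpa using hl e he e he p (hsub hp) p' (hsub hp'))
        ((hs e he).trans (by linarith))
      exact ⟨g, fun _ => ⟨hsub h1, h2⟩⟩
    · exact ⟨0, fun h => (he h).elim⟩
  choose ψ hψ using hex
  have key : ∀ e ∈ ball e₀ ρ, ∀ e' ∈ ball e₀ ρ, ∀ g ∈ ball g₀ ρ', Ψ (e, g) = g →
      ‖g - ψ e'‖ ≤ 2 * κ * ‖e - e'‖ := fun e he e' he' g hg h => by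
    have := hl e he e' he' g hg _ (hψ e' he').1
    rw [h, (hψ e' he').2] at this
    linarith
  refine ⟨ψ, fun e he => (pfix_diff (Ψ := Ψ) (c := 2 * κ) ?_ ?_ ?_ ?_).differentiableWithinAt,
    fun e he => ⟨(hψ e he).1, (hψ e he).2, fun g hg h => ?_,
      fun e' he' => key e he e' he' _ (hψ e he).1 (hψ e he).2⟩⟩
  · exact hd.differentiableAt ((isOpen_ball.prod isOpen_ball).mem_nhds ⟨he, (hψ e he).1⟩)
  · filter_upwards [isOpen_ball.mem_nhds (hψ e he).1] with g hg
    simpa using hl e he e he g hg _ (hψ e he).1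
  · filter_upwards [isOpen_ball.mem_nhds he] with e' he'
    exact key e' he' e he _ (hψ e' he').1 (hψ e' he').2
  · filter_upwards [isOpen_ball.mem_nhds he] with e' he'
    exact (hψ e' he').2
  · simpa [sub_eq_zero] using key e he e he g hg h

theorem pfix_round (a : ℂ) : ∃ k : ℤ, ‖a + 2 * Real.pi * Complex.I * k‖ ≤ |a.re| + 4 := by
  have h1 := abs_sub_round (-a.im / (2 * Real.pi))
  refine ⟨round (-a.im / (2 * Real.pi)), (Complex.norm_le_abs_re_add_abs_im _).trans ?_⟩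
  set r := round (-a.im / (2 * Real.pi))
  have hp := Real.pi_pos
  have h2 : (a + 2 * Real.pi * Complex.I * r).im =
      -(2 * Real.pi) * (-a.im / (2 * Real.pi) - r) := by
    simp
    field_simp
    ring
  have h3 : (a + 2 * Real.pi * Complex.I * r).re = a.re := by simp
  rw [h2, h3, abs_mul, abs_neg, abs_of_pos (by positivity : 0 < 2 * Real.pi)]
  nlinarith [Real.pi_le_four]

theorem t_elim (hpfix : T_PFIX) (hbc : T_BC) : T_ELIM := by
  intro n A ω x ρ K hK hρ hx hd hb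
  have h0 : 0 < ρ := by linarith
  have hc : 16 * K / ρ ≤ 1 / 2 := by
    rw [div_le_iff₀ h0]
    linarith
  have hc0 : 0 ≤ 16 * K / ρ := by positivity
  have hL : ∀ i ∈ A, ∀ p ∈ ball x (ρ / 2), ∀ p' ∈ ball x (ρ / 2),
      ‖ω p i - ω p' i‖ ≤ 16 * K / ρ * ‖p - p'‖ := fun i hi p hp p' hp' => by
    have := (hbc (Cn n) (fun q => ω q i) x ρ (2 * K) h0 (differentiableOn_pi.1 hd i)
      fun q hq q' hq' => (abs_sub _ _).trans (by linarith [hb q hq i hi, hb q' hq' i hi])).2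
      p hp p' hp'
    rwa [show 8 * (2 * K) = 16 * K by ring] at this
  choose k hk using fun i => pfix_round (ω x i - x i)
  have hk' : ∀ i ∈ A, ‖ω x i - x i + 2 * Real.pi * Complex.I * k i‖ ≤ 5 * K := fun i hi => by
    have h1 := hk i
    rw [Complex.sub_re, hx i, sub_zero] at h1
    linarith [hb x (mem_ball_self h0) i hi]
  let Ψ : Cn n × Cn n → Cn n := fun p i =>
    if i ∈ A then ω p.2 i + 2 * Real.pi * Complex.I * k i + (p.1 i - x i) else p.1 i
  have e1 : ∀ p, ∀ i ∈ A, Ψ p i = ω p.2 i + 2 * Real.pi * Complex.I * k i + (p.1 i - x i) :=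
    fun p i hi => if_pos hi
  have e2 : ∀ p i, i ∉ A → Ψ p i = p.1 i := fun p i hi => if_neg hi
  obtain ⟨ψ, hψ, h⟩ := hpfix n Ψ x x (ρ / 8) (ρ / 2) 1 (by linarith) zero_le_one
    (differentiableOn_pi.2 fun i => by
      by_cases hi : i ∈ A
      · simp only [e1 _ i hi]
        refine (((differentiableOn_pi.1 hd i).comp differentiableOn_snd fun p hp =>
          ball_subset_ball (by linarith) hp.2).add_const _).add ?_
        fun_prop
      · simp only [e2 _ i hi]
        fun_prop)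
    (fun e he e' he' g hg g' hg' => (pi_norm_le_iff_of_nonneg (by positivity)).2 fun i => by
      have h1 := norm_le_pi_norm (e - e') i
      have h2 := norm_nonneg (g - g')
      rw [Pi.sub_apply] at h1 ⊢
      by_cases hi : i ∈ A
      · rw [e1 _ i hi, e1 _ i hi, show ∀ a b c d f s : ℂ, a + c + (d - s) - (b + c + (f - s)) =
          a - b + (d - f) from fun _ _ _ _ _ _ => by ring]
        refine (norm_add_le _ _).trans ?_
        nlinarith [hL i hi g hg g' hg']
      · rw [e2 _ i hi, e2 _ i hi]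
        linarith)
    (fun e he => (pi_norm_le_iff_of_nonneg (by positivity)).2 fun i => by
      have h1 := (norm_le_pi_norm (e - x) i).trans (mem_ball_iff_norm.1 he).le
      rw [Pi.sub_apply] at h1 ⊢
      by_cases hi : i ∈ A
      · rw [e1 _ i hi, show ∀ a c d s : ℂ, a + c + (d - s) - s = a - s + c + (d - s) from
          fun _ _ _ _ => by ring]
        refine (norm_add_le _ _).trans ?_
        linarith [hk' i hi]
      · rw [e2 _ i hi]
        linarith)
  have f1 : ∀ e ∈ ball x (ρ / 8), ∀ i ∈ A,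
      ψ e i = ω (ψ e) i + 2 * Real.pi * Complex.I * k i + (e i - x i) := fun e he i hi => by
    rw [← congrFun (h e he).2.1 i, e1 _ i hi]
  have f2 : ∀ e ∈ ball x (ρ / 8), ∀ i, i ∉ A → ψ e i = e i := fun e he i hi => by
    rw [← congrFun (h e he).2.1 i, e2 _ i hi]
  refine ⟨k, ψ, hψ, fun e he => ⟨(h e he).1, f2 e he, f1 e he, ?_, fun e' he' => ?_,
    fun q hq h1 h2 => (h e he).2.2.1 q hq (funext fun i => ?_)⟩⟩
  · refine (pi_norm_le_iff_of_nonneg (by positivity)).2 fun i => ?_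
    rw [Pi.sub_apply]
    by_cases hi : i ∈ A
    · rw [f1 e he i hi, show ∀ a c d s : ℂ, a + c + (d - s) - d = a - ω x i + (ω x i - s + c) from
        fun _ _ _ _ => by ring]
      refine (norm_add_le _ _).trans ?_
      have h1 := (hL i hi _ (h e he).1 x (mem_ball_self (by linarith))).trans
        (mul_le_mul_of_nonneg_left (mem_ball_iff_norm.1 (h e he).1).le hc0)
      rw [show 16 * K / ρ * (ρ / 2) = 8 * K by field_simp; ring] at h1
      linarith [hk' i hi]
    · rw [f2 e he i hi, sub_self, norm_zero]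
      positivity
  · have h1 := (h e he).2.2.2 e' he'
    rw [mul_one] at h1
    refine ⟨h1, (pi_norm_le_iff_of_nonneg (by positivity)).2 fun i => ?_⟩
    simp only [Pi.sub_apply]
    by_cases hi : i ∈ A
    · rw [f1 e he i hi, f1 e' he' i hi, show ∀ a b c d f s : ℂ,
        a + c + (d - s) - d - (b + c + (f - s) - f) = a - b from fun _ _ _ _ _ _ => by ring]
      refine ((hL i hi _ (h e he).1 _ (h e' he').1).trans
        (mul_le_mul_of_nonneg_left h1 hc0)).trans_eq (by ring)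
    · rw [f2 e he i hi, f2 e' he' i hi, sub_self, sub_self, sub_self, norm_zero]
      positivity
  · by_cases hi : i ∈ A
    · rw [e1 _ i hi, h2 i hi]
    · rw [e2 _ i hi, h1 i hi]

end Pool.Agent.P.MP_d2ed07_lc
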