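import Pool.Agent.P.MP_d2ed07_lc.Basic2
import Pool.Agent.P.MP_d2ed07_lc.RAB
import Pool.Agent.P.MP_d2ed07_lc.REL

/-! The Rabinowitsch trick with multiplicative freeness. -/

namespace Pool.Agent.P.MP_d2ed07_lc

open MvPolynomial Metric Filter Topology

variable {n : ℕ} {F : Type} [Field F] [Algebra ℂ F]

/-- the extended generic point -/
noncomputable def rab2_D (D : Data n F) (a : F) (ha : a ≠ 0) : Data (n + 1) (RatFunc F) :=
  { rab_D D a ha with
    y := Fin.cons (RatFunc.X * RatFunc.C a) fun i => RatFunc.C (D.y i)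
    hy := fun i => Fin.cases (mul_ne_zero RatFunc.X_ne_zero ((map_ne_zero _).2 ha))
      (fun i => (map_ne_zero RatFunc.C).2 (D.hy i)) i }

theorem rab2_mon (D : Data n F) {a : F} (ha : a ≠ 0) (m : Fin (n + 1) → ℤ) :
    mon (rab2_D D a ha).y m =
      RatFunc.X ^ m 0 * RatFunc.C (a ^ m 0 * mon D.y (Fin.tail m)) := by
  simp [mon, rab2_D, Fin.prod_univ_succ, Fin.tail, mul_zpow, mul_assoc]

theorem rab2_mon0 (D : Data n F) {a : F} (ha : a ≠ 0) (m : Fin (n + 1) → ℤ) (hm : m 0 = 0) :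
    mon (rab2_D D a ha).y m = RatFunc.C (mon D.y (Fin.tail m)) := by
  rw [rab2_mon, hm, zpow_zero, zpow_zero, one_mul, one_mul]

omit [Algebra ℂ F] in
theorem rab2_pow {k : ℤ} {e : F} (h : (RatFunc.X : RatFunc F) ^ k = RatFunc.C e) : k = 0 := by
  have key : ∀ (k : ℕ) (e : F), (RatFunc.X : RatFunc F) ^ k = RatFunc.C e → k = 0 := fun k e h => by
    have h1 : (Polynomial.X : Polynomial F) ^ k = Polynomial.C e :=
      RatFunc.algebraMap_injective F (by simpa using h)
    simpa using congrArg Polynomial.natDegree h1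
  obtain ⟨i, rfl | rfl⟩ := k.eq_nat_or_neg
  · rw [key i e (by simpa using h), Nat.cast_zero]
  · rw [key i e⁻¹ (by rw [map_inv₀, ← h, zpow_neg, inv_inv, zpow_natCast]), Nat.cast_zero, neg_zero]

theorem rab2_mfree (D : Data n F) {a : F} (ha : a ≠ 0) (h : MFree D.y) :
    MFree (rab2_D D a ha).y := by
  intro m hm c hc
  have h0 : m 0 = 0 := by
    rw [rab2_mon, rab_map, ← eq_div_iff ((map_ne_zero _).2
      (mul_ne_zero (zpow_ne_zero _ ha) (mon_ne_zero D.hy _))), ← map_div₀] at hc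
    exact rab2_pow hc
  rw [rab2_mon0 D ha m h0, rab_map] at hc
  refine h (Fin.tail m) (fun h1 => hm ?_) c (RatFunc.C.injective hc)
  rw [← Fin.cons_self_tail m, h0, h1]
  exact funext fun i => Fin.cases rfl (fun _ => rfl) i

theorem rab2_star (hrel1 : T_REL1) (D : Data n F) {a : F} (ha : a ≠ 0) (h : D.Star2) :
    (rab2_D D a ha).Star2 := by
  obtain ⟨u, h1, h2⟩ := h
  have k0 : ∀ m, (rab2_D D a ha).Alg (mon (rab2_D D a ha).y m) → m 0 = 0 →
      dz (Fin.tail m) u = 0 := fun m hm h0 =>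
    h1 _ (rab_alg hrel1 D ha (mon_ne_zero D.hy _) (rab2_mon0 D ha m h0 ▸ hm :))
  have k1 : ∀ (c : ℂ) (m : Fin (n + 1) → ℤ), dz m (Fin.cons c u : Cn (n + 1)) =
      m 0 * c + dz (Fin.tail m) u := fun c m => by simp [dz, Fin.sum_univ_succ, Fin.tail]
  obtain ⟨c, hc⟩ : ∃ c : ℂ, ∀ m, (rab2_D D a ha).Alg (mon (rab2_D D a ha).y m) →
      m 0 * c + dz (Fin.tail m) u = 0 := by
    by_cases h : ∀ m, (rab2_D D a ha).Alg (mon (rab2_D D a ha).y m) → m 0 = 0
    · exact ⟨0, fun m hm => by rw [k0 m hm (h m hm)]; simp⟩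
    push Not at h
    obtain ⟨m₀, h3, h4⟩ := h
    have h5 : (m₀ 0 : ℂ) ≠ 0 := Int.cast_ne_zero.2 h4
    refine ⟨-dz (Fin.tail m₀) u / m₀ 0, fun m hm => ?_⟩
    have h6 := k0 (m₀ 0 • m + (-m 0) • m₀) (by
      rw [mon_add (rab2_D D a ha).hy, mon_smul, mon_smul]
      exact IsAlgebraic.mul (rab_zpow _ hm _) (rab_zpow _ h3 _)) (by simp [mul_comm])
    have e : Fin.tail (m₀ 0 • m + (-m 0) • m₀) =
        m₀ 0 • Fin.tail m + (-m 0) • Fin.tail m₀ := rfl
    rw [e, dz_add_left, dz_smul_left, dz_smul_left] at h6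
    push_cast at h6
    field_simp
    linear_combination h6
  refine ⟨Fin.cons c u, fun m hm => (k1 c m).trans (hc m hm), fun h => h2 ?_⟩
  change ddir _ (rename Fin.succ D.P) = 0 at h
  rw [rab_ddir] at h
  exact rename_injective _ (Fin.succ_injective n) (h.trans (map_zero _).symm)

theorem rab2_ren (D : Data n F) {a : F} (ha : a ≠ 0) (g : MP2 n) :
    ev (rab2_D D a ha).z (rab2_D D a ha).y (rename (Sum.map Fin.succ Fin.succ) g) =
      RatFunc.C (ev D.z D.y g) := by
  unfold ev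
  induction g using MvPolynomial.induction_on with
  | C c => simp [rab_map]
  | add p q hp hq => simp only [map_add, hp, hq]
  | mul_X p i hp =>
    simp only [map_mul, hp, rename_X, aeval_X]
    rcases i with i | i <;> rfl

theorem t_rab2 (hrel1 : T_REL1) : T_RAB2 := by
  intro n F _ _ D f hf hF hM hS
  refine ⟨rab2_D D _ hf, rab_free hF, rab2_mfree D hf hM, rab2_star hrel1 D hf hS,
    fun ⟨x, hx⟩ => ?_⟩
  have e : ∀ g : MP2 n, eval (Sum.elim x (ex x)) (rename (Sum.map Fin.succ Fin.succ) g) =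
      eval (Sum.elim (Fin.tail x) (ex (Fin.tail x))) g := fun g => by
    rw [eval_rename]
    congr 2
    funext i
    rcases i with i | i <;> rfl
  refine ⟨Fin.tail x, fun g hg => ?_, fun h => ex_ne_zero x 0 ?_⟩
  · rw [← e]
    exact hx _ (by rw [rab2_ren, hg, map_zero])
  · have := hx (X (Sum.inr 0) - X (Sum.inl 0) * rename (Sum.map Fin.succ Fin.succ) f) (by
      rw [ev, map_sub, map_mul, aeval_X, aeval_X, ← ev, rab2_ren]
      exact sub_self _)
    rw [map_sub, map_mul, e, h, eval_X] at this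
    simpa using this

theorem rab2_trans {F' : Type} [Field F'] [Algebra ℂ F'] {z y : Fin n → F} {z' y' : Fin n → F'}
    (hy : ∀ i, y i ≠ 0) (hy' : ∀ i, y' i ≠ 0) (hV : ∀ g, ev z y g = 0 → ev z' y' g = 0) {ι : Type}
    (s : Finset ι) (c : ι → MP n) (m : ι → Fin n → ℤ)
    (h : ∑ a ∈ s, aeval z (c a) * mon y (m a) = 0) :
    ∑ a ∈ s, aeval z' (c a) * mon y' (m a) = 0 := by
  have he : ∀ a ∈ s, ∀ i,
      0 ≤ ((s.sup fun a => Finset.univ.sup fun i => (m a i).natAbs : ℕ) : ℤ) + m a i := by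
    intro a ha i
    have : (m a i).natAbs ≤ s.sup fun a => Finset.univ.sup fun i => (m a i).natAbs :=
      (Finset.le_sup (f := fun i => (m a i).natAbs) (Finset.mem_univ i)).trans
        (Finset.le_sup (f := fun a => Finset.univ.sup fun i => (m a i).natAbs) ha)
    omega
  have h1 := hV _ ((rel_clear s c m _ he z y hy).trans (by rw [h, mul_zero]))
  exact (mul_eq_zero.1 ((rel_clear s c m _ he z' y' hy').symm.trans h1)).resolve_left
    (Finset.prod_ne_zero_iff.2 fun i _ => pow_ne_zero _ (hy' i))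

theorem t_mfs (htrans : T_TRANS) : T_MFS := by
  intro n F F' _ _ _ _ D D' hP hV hA hM m hm c hc
  have hi : IsIntegral D.k (mon D.y m) := (hA m (by
    rw [hc, IsScalarTower.algebraMap_apply ℂ D'.k F']
    exact isAlgebraic_algebraMap _)).isIntegral
  obtain ⟨d, q, hd, -, e⟩ := rel_den D (Finset.range ((minpoly D.k (mon D.y m)).natDegree + 1))
    (minpoly D.k (mon D.y m)).coeff
  have key : ∀ a : F, ∑ j ∈ Finset.range ((minpoly D.k (mon D.y m)).natDegree + 1),
      aeval D.z (q j) * a ^ j = d * Polynomial.aeval a (minpoly D.k (mon D.y m)) := fun a => by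
    rw [Polynomial.aeval_eq_sum_range, Finset.mul_sum]
    exact Finset.sum_congr rfl fun j hj => by rw [e j hj, mul_assoc]; rfl
  have h1 := rab2_trans D.hy D'.hy hV (Finset.range ((minpoly D.k (mon D.y m)).natDegree + 1)) q
    (fun j => (j : ℤ) • m) (by
      simp only [mon_smul, zpow_natCast]
      rw [key, minpoly.aeval, mul_zero])
  have h2 : aeval D.z (∑ j ∈ Finset.range ((minpoly D.k (mon D.y m)).natDegree + 1),
      q j * C c ^ j) = 0 := by
    rw [D.hP, ← hP, ← D'.hP]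
    simpa only [mon_smul, zpow_natCast, hc, map_sum, map_mul, map_pow, aeval_C] using h1
  simp only [map_sum, map_mul, map_pow, aeval_C] at h2
  rw [key, IsScalarTower.algebraMap_apply ℂ D.k F, Polynomial.aeval_algebraMap_apply,
    mul_eq_zero, or_iff_right hd, map_eq_zero, Polynomial.coe_aeval_eq_eval] at h2
  exact hM m hm c ((minpoly.root hi h2).symm.trans (IsScalarTower.algebraMap_apply ℂ D.k F c).symm)

end Pool.Agent.P.MP_d2ed07_lc
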