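import Pool.Agent.P.MP_d2ed07_lc.Basic2
import Pool.Agent.P.MP_d2ed07_lc.REL

/-! The lower bound for a derivative along an arbitrary root. -/

namespace Pool.Agent.P.MP_d2ed07_lc

open MvPolynomial Metric Filter Topology

variable {n : ℕ} {F : Type} [Field F] [Algebra ℂ F]

theorem rootw_alg (D : Data n F) (a : F) :
    D.Alg a ↔ ∃ q : P1 n, (∃ j, ¬ D.P ∣ q.coeff j) ∧ q.eval₂ (aeval D.z : MP n →ₐ[ℂ] F) a = 0 := by
  constructor
  · rintro ⟨p, h0, hp⟩
    obtain ⟨d, c, hd, -, e⟩ := rel_den D (Finset.range (p.natDegree + 1)) p.coeff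
    refine ⟨∑ j ∈ Finset.range (p.natDegree + 1), Polynomial.monomial j (c j),
      ⟨p.natDegree, fun h => ?_⟩, ?_⟩
    · rw [Polynomial.finsetSum_coeff, Finset.sum_eq_single p.natDegree
        (fun j _ hj => by rw [Polynomial.coeff_monomial, if_neg hj]) (by simp),
        Polynomial.coeff_monomial, if_pos rfl, ← D.hP, e _ (by simp)] at h
      exact mul_ne_zero hd (fun h2 => Polynomial.leadingCoeff_ne_zero.2 h0 (Subtype.ext h2)) h
    · rw [Polynomial.aeval_eq_sum_range] at hp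
      rw [Polynomial.eval₂_finsetSum, ← mul_zero d, ← hp, Finset.mul_sum]
      exact Finset.sum_congr rfl fun j hj => by
        rw [Polynomial.eval₂_monomial, RingHom.coe_coe, e j hj, mul_assoc]; rfl
  · rintro ⟨q, ⟨j, hj⟩, h⟩
    let zK : Fin n → D.k := fun r => ⟨D.z r, IntermediateField.subset_adjoin _ _ ⟨r, rfl⟩⟩
    have hz : ∀ g : MP n, algebraMap D.k F (aeval zK g) = aeval D.z g := fun g =>
      (aeval_algebraMap_apply F zK g).symm
    refine ⟨q.map (aeval zK : MP n →ₐ[ℂ] D.k), fun e => hj ?_, ?_⟩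
    · rw [← D.hP, ← hz]
      have := congrArg (Polynomial.coeff · j) e
      simp only [Polynomial.coeff_map, RingHom.coe_coe, Polynomial.coeff_zero] at this
      rw [this, map_zero]
    · rw [Polynomial.aeval_def, Polynomial.eval₂_map, ← h]
      exact congrArg (fun f => Polynomial.eval₂ f a q) (RingHom.ext hz)

theorem rootw_map {F' : Type} [Field F'] [Algebra ℂ F'] (φ : F →ₐ[ℂ] F') (D : Data n F)
    (D' : Data n F') (hP : D'.P = D.P) (hz : ∀ i, D'.z i = φ (D.z i)) (a : F) :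
    D'.Alg (φ a) ↔ D.Alg a := by
  rw [rootw_alg, rootw_alg, hP]
  refine exists_congr fun q => and_congr_right fun _ => ?_
  have : ((aeval D'.z : MP n →ₐ[ℂ] F') : MP n →+* F') =
      (φ : F →+* F').comp (aeval D.z : MP n →ₐ[ℂ] F) := by
    rw [funext hz, ← comp_aeval]; rfl
  rw [this, ← map_eq_zero φ]
  exact Eq.congr_left (Polynomial.hom_eval₂ q _ (φ : F →+* F') a).symm

theorem rootw_dz {F' : Type} [Field F'] [Algebra ℂ F'] (φ : F →ₐ[ℂ] F') (m : Fin n → ℤ)
    (z : Fin n → F) : dz m (fun i => φ (z i)) = φ (dz m z) := by simp [dz]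

theorem rootw_mon {F' : Type} [Field F'] [Algebra ℂ F'] (φ : F →ₐ[ℂ] F') (m : Fin n → ℤ)
    (z : Fin n → F) : mon (fun i => φ (z i)) m = φ (mon z m) := by simp [mon]

/-- the statement on words in an arbitrary ambient field -/
theorem rootw_sub (hword : T_WORD) (D : Data n F) (A : Finset (Fin n)) (v : Cn n) (m : Fin n → ℤ)
    (b : F) (d : ℕ) (hy : ∀ i, D.Alg (D.y i)) (hb : D.Alg b) (h1 : Free D.z) (h2 : MFreeOn A D.y)
    (h3 : m ≠ 0) (h4 : Off A m) (h5 : Off A v) (h6 : ddir v D.P ≠ 0) (h7 : b ≠ 0) :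
    ∃ (l : List (Fin n)) (S : Finset (MP n)) (C : ℝ), Shape A d l ∧ Good D.P S ∧ 1 ≤ C ∧
    ∀ (Ω : Set (Cn n)) (ζ ω y' : Cn n → Cn n) (τ lb : Cn n → ℂ) (c₀ : Cn n) (L : ℝ), IsOpen Ω →
    DifferentiableOn ℂ ζ Ω → DifferentiableOn ℂ ω Ω → DifferentiableOn ℂ y' Ω →
    DifferentiableOn ℂ lb Ω → 1 ≤ L →
    (∀ p ∈ Ω, Loc (ext1 b (Sum.elim D.z D.y)) (ext1 (Complex.exp (lb p)) (Sum.elim (ζ p) (y' p))) ∧
      Tm S L (ζ p) ∧ (∀ i ∈ A, y' p i = Complex.exp (ω p i)) ∧ Eqs A v c₀ (ζ p) (ω p) (τ p) p) →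
    ∃ g : Cn n → ℂ, Chn Ω (l.map uv) (fun p => dz m (ζ p) - lb p) g ∧
      ∀ p ∈ Ω, Real.exp (-(C * L)) ≤ ‖g p‖ ∧ ‖g p‖ ≤ Real.exp (C * L) := by
  let E := IntermediateField.adjoin ℂ (Set.range (ext1 b (Sum.elim D.z D.y)))
  have mem : ∀ o, ext1 b (Sum.elim D.z D.y) o ∈ E := fun o =>
    IntermediateField.subset_adjoin _ _ ⟨o, rfl⟩
  let D' : Data n E :=
    { z := fun i => ⟨_, mem (some (.inl i))⟩
      y := fun i => ⟨_, mem (some (.inr i))⟩
      hy := fun i h => D.hy i (congrArg Subtype.val h)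
      P := D.P
      hP0 := D.hP0
      hP := fun g => by
        rw [← D.hP, ← map_eq_zero (algebraMap E F), ← aeval_algebraMap_apply]
        rfl }
  have e : (fun o => E.val (ext1 ⟨b, mem none⟩ (Sum.elim D'.z D'.y) o)) =
      ext1 b (Sum.elim D.z D.y) := by
    funext o
    rcases o with _ | i | i <;> rfl
  have hE : E ≤ (algebraicClosure D.k F).restrictScalars ℂ := by
    rw [IntermediateField.adjoin_le_iff]
    rintro _ ⟨_ | i | i, rfl⟩
    · exact mem_algebraicClosure_iff.2 hb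
    · exact mem_algebraicClosure_iff.2 (isAlgebraic_algebraMap
        (⟨D.z i, IntermediateField.subset_adjoin _ _ ⟨i, rfl⟩⟩ : D.k))
    · exact mem_algebraicClosure_iff.2 (hy i)
  obtain ⟨l, S, C, a1, a2, a3, a4⟩ := hword n E D' A v m ⟨b, mem none⟩ d (by
      apply IntermediateField.lift_injective
      rw [IntermediateField.lift_adjoin, IntermediateField.lift_top, ← Set.range_comp]
      exact congrArg (fun f => IntermediateField.adjoin ℂ (Set.range f)) e)
    (fun a => (rootw_map E.val D' D rfl (fun _ => rfl) a).1 (mem_algebraicClosure_iff.1 (hE a.2)))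
    (fun k hk c h => h1 k hk c ((rootw_dz E.val k D'.z).trans (congrArg E.val h)))
    (fun k hk hA c h => h2 k hk hA c ((rootw_mon E.val k D'.y).trans (congrArg E.val h)))
    h3 h4 h5 h6 fun h => h7 (congrArg Subtype.val h)
  refine ⟨l, S, C, a1, a2, a3, fun Ω ζ ω y' τ lb c₀ L b1 b2 b3 b4 b5 b6 b7 =>
    a4 Ω ζ ω y' τ lb c₀ L b1 b2 b3 b4 b5 b6 fun p hp => ⟨?_, (b7 p hp).2⟩⟩
  rw [← loc_map E.val, e]
  exact (b7 p hp).1

/-- a polynomial that vanishes at all generic roots vanishes at every special root -/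
theorem rootw_key {R K L : Type} [CommRing R] [Field K] [Field L] (φ : R →+* K) (ψ : R →+* L)
    (hk : ∀ r, φ r = 0 → ψ r = 0) (H : Polynomial R) (T : Finset K)
    (hT : ∀ b ∈ T, H.eval₂ φ b = 0) (hc : H.natDegree ≤ T.card) (β : L) (hβ : H.eval₂ ψ β = 0)
    (hl : ψ H.leadingCoeff ≠ 0) (g : Polynomial R) (hg : ∀ b ∈ T, g.eval₂ φ b = 0) :
    g.eval₂ ψ β = 0 := by
  have h0 : H.natDegree ≠ 0 := fun h => hl (by
    rw [Polynomial.eq_C_of_natDegree_eq_zero h, Polynomial.eval₂_C] at hβ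
    rwa [Polynomial.leadingCoeff, h])
  induction hN : g.natDegree using Nat.strong_induction_on generalizing g with
  | _ N ih =>
  rcases lt_or_ge N H.natDegree with h | h
  · have := Polynomial.eq_zero_of_natDegree_lt_card_of_eval_eq_zero' (g.map φ) T
      (fun b hb => by rw [Polynomial.eval_map, hg b hb])
      (Polynomial.natDegree_map_le.trans_lt (by omega))
    rw [Polynomial.eval₂_eq_sum_range]
    refine Finset.sum_eq_zero fun j _ => ?_
    rw [hk _ (by rw [← Polynomial.coeff_map, this, Polynomial.coeff_zero]), zero_mul]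
  · obtain ⟨k, rfl⟩ := Nat.exists_eq_add_of_le h
    have := ih _ (lt_of_le_of_lt ?_ (by omega : H.natDegree + k - 1 < _)) (Polynomial.C
      H.leadingCoeff * g - Polynomial.C g.leadingCoeff * (H * Polynomial.X ^ k)) (fun b hb => by
      simp [Polynomial.eval₂_sub, Polynomial.eval₂_mul, hg b hb, hT b hb]) rfl
    · simpa [Polynomial.eval₂_sub, Polynomial.eval₂_mul, hβ, hl] using this
    refine Polynomial.natDegree_le_iff_coeff_eq_zero.2 fun j hj => ?_
    obtain ⟨j, rfl⟩ := Nat.exists_eq_add_of_le' (by omega : k ≤ j)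
    rw [Polynomial.coeff_sub, Polynomial.coeff_C_mul, Polynomial.coeff_C_mul,
      Polynomial.coeff_mul_X_pow]
    rcases (by omega : j = H.natDegree ∨ H.natDegree < j) with rfl | h
    · rw [← hN, Polynomial.coeff_natDegree, Polynomial.coeff_natDegree, mul_comm, sub_self]
    · rw [Polynomial.coeff_eq_zero_of_natDegree_lt h,
        Polynomial.coeff_eq_zero_of_natDegree_lt (by omega), mul_zero, mul_zero, sub_self]

theorem rootw_opt {σ : Type} (g : MvPolynomial (Option σ) ℂ) :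
    ∃ G : Polynomial (MvPolynomial σ ℂ), ∀ (K : Type) [Field K] [Algebra ℂ K] (a : σ → K) (b : K),
      G.eval₂ (aeval a : MvPolynomial σ ℂ →ₐ[ℂ] K) b = aeval (ext1 b a) g := by
  induction g using MvPolynomial.induction_on with
  | C c => exact ⟨Polynomial.C (C c), fun K _ _ a b => by simp⟩
  | add p q hp hq =>
    obtain ⟨G, h⟩ := hp
    obtain ⟨G', h'⟩ := hq
    exact ⟨G + G', fun K _ _ a b => by rw [Polynomial.eval₂_add, h, h', map_add]⟩
  | mul_X p i hp =>
    obtain ⟨G, h⟩ := hp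
    refine ⟨G * ext1 Polynomial.X (fun s => Polynomial.C (X s)) i, fun K _ _ a b => ?_⟩
    rw [Polynomial.eval₂_mul, h, map_mul]
    cases i <;> simp [ext1]

theorem t_rootw (hword : T_WORD) (hident : T_IDENT) : T_ROOTW := by
  classical
  intro n F _ _ D A v m h d₁ d hA h1 h2 h3 h4 h5 h6 ⟨s1, s2, s3, a, b, s4⟩
  let K := AlgebraicClosure F
  let φ : F →ₐ[ℂ] K := IsScalarTower.toAlgHom ℂ F K
  let D' : Data n K :=
    { z := fun i => φ (D.z i)
      y := fun i => if i ∈ A then φ (D.y i) else 1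
      hy := fun i => by
        split_ifs
        exacts [(map_ne_zero φ).2 (D.hy i), one_ne_zero]
      P := D.P
      hP0 := D.hP0
      hP := fun g => by rw [← D.hP, ← comp_aeval, AlgHom.comp_apply, map_eq_zero] }
  let ph : MP n →+* K := (aeval D'.z : MP n →ₐ[ℂ] K)
  have hph : ∀ g, ph g = 0 ↔ D.P ∣ g := D'.hP
  have hdeg : (h.map ph).natDegree = h.natDegree :=
    Polynomial.natDegree_map_of_leadingCoeff_ne_zero _ fun e => s2 ((hph _).1 e)
  have hsep : (h.map ph).Separable := by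
    have e : (a * h + b * Polynomial.derivative h - Polynomial.C d₁).map ph = 0 :=
      Polynomial.ext fun j => by rw [Polynomial.coeff_map, (hph _).2 (s4 j), Polynomial.coeff_zero]
    have n1 : ph d₁ ≠ 0 := fun e => s3 ((hph _).1 e)
    simp only [Polynomial.map_sub, Polynomial.map_add, Polynomial.map_mul, Polynomial.map_C,
      ← Polynomial.derivative_map, sub_eq_zero] at e
    refine ⟨Polynomial.C (ph d₁)⁻¹ * a.map ph, Polynomial.C (ph d₁)⁻¹ * b.map ph, ?_⟩
    rw [mul_assoc, mul_assoc, ← mul_add, e, ← Polynomial.C_mul, inv_mul_cancel₀ n1, Polynomial.C_1]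
  set T := (h.map ph).roots.toFinset
  have hT : ∀ β ∈ T, h.eval₂ ph β = 0 := fun β hβ => by
    rw [← Polynomial.eval_map]
    exact (Polynomial.mem_roots'.1 (Multiset.mem_toFinset.1 hβ)).2
  have hc : h.natDegree ≤ T.card := by
    rw [Multiset.toFinset_card_of_nodup (Polynomial.nodup_roots hsep), ← hdeg,
      IsAlgClosed.card_roots_eq_natDegree]
  have key := fun β : T => rootw_sub hword D' A v m β d (fun i => by
      by_cases hi : i ∈ A
      · rw [show D'.y i = _ from if_pos hi]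
        exact (rootw_map φ D D' rfl (fun _ => rfl) _).2 (hA i hi)
      · rw [show D'.y i = _ from if_neg hi]
        exact isAlgebraic_one)
    ((rootw_alg D' _).2 ⟨h, ⟨0, s1⟩, hT _ β.2⟩)
    (fun k hk c e => h1 k hk c (φ.injective (by
      rw [AlgHom.toRingHom_eq_coe, RingHom.coe_coe, ← rootw_dz, φ.commutes]; exact e)))
    (fun k hk hk' c e => h2 k hk c (φ.injective (by
      rw [AlgHom.toRingHom_eq_coe, RingHom.coe_coe, ← rootw_mon, φ.commutes, ← e]
      refine Finset.prod_congr rfl fun i _ => ?_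
      by_cases hi : i ∈ A
      · rw [show D'.y i = _ from if_pos hi]
      · rw [hk' i hi, zpow_zero, zpow_zero]))) h3 h4 h5 h6 fun e => s1 ((hph _).1 (by
      have := hT _ β.2
      rwa [e, Polynomial.eval₂_at_zero] at this))
  choose l S C k1 k2 k3 k4 using key
  have hC : 0 ≤ ∑ β, C β := Finset.sum_nonneg fun β _ => zero_le_one.trans (k3 β)
  refine ⟨insert h.leadingCoeff (Finset.univ.biUnion S), 1 + ∑ β, C β, fun g hg => ?_, by linarith,
    fun Ω ζ ω τ lb c₀ L b0 b1 ⟨p₀, hp₀⟩ b2 b3 b5 b6 b7 => ?_⟩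
  · rcases Finset.mem_insert.1 hg with rfl | hg
    · exact s2
    · obtain ⟨β, -, hβ⟩ := Finset.mem_biUnion.1 hg
      exact k2 β g hβ
  let y' : Cn n → Cn n := fun p i => if i ∈ A then Complex.exp (ω p i) else 1
  have b4 : DifferentiableOn ℂ y' Ω := differentiableOn_pi.2 fun i => by
    by_cases hi : i ∈ A <;> simp only [y', hi, if_true, if_false]
    exacts [(differentiableOn_pi.1 b3 i).cexp, differentiableOn_const _]
  let al : Cn n → Option (Fin n ⊕ Fin n) → ℂ := fun p =>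
    ext1 (Complex.exp (lb p)) (Sum.elim (ζ p) (y' p))
  have hal : DifferentiableOn ℂ al Ω := differentiableOn_pi.2 fun o => by
    rcases o with _ | i | i
    exacts [b5.cexp, differentiableOn_pi.1 b2 i, differentiableOn_pi.1 b4 i]
  have loc : ∀ p ∈ Ω, Loc (Sum.elim D'.z D'.y) (Sum.elim (ζ p) (y' p)) := fun p hp => by
    have := (loc_map φ _ _).2 (Loc.aeval (a := Sum.elim D.z D.y) (b7 p hp).1
      (Sum.elim (fun i => X (.inl i)) fun i => if i ∈ A then X (.inr i) else 1))
    refine (congrArg₂ Loc (funext ?_) (funext ?_)).mp this <;> rintro (i | i)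
    · simp [D']
    · by_cases hi : i ∈ A <;> simp [D', hi]
    · simp
    · by_cases hi : i ∈ A <;> simp [y', hi, ex]
  let J : Ideal (MvPolynomial (Option (Fin n ⊕ Fin n)) ℂ) :=
    { carrier := {g | ∀ p ∈ Ω, eval (al p) g = 0}
      add_mem' := fun ha hb t ht => by rw [map_add, ha t ht, hb t ht, add_zero]
      zero_mem' := fun t _ => map_zero _
      smul_mem' := fun c a ha t ht => by rw [smul_eq_mul, map_mul, ha t ht, mul_zero] }
  have hJ : J.IsPrime := ⟨(Ideal.ne_top_iff_one J).2 fun e => by simpa using e p₀ hp₀,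
    fun {f g} e => hident n Ω _ _ b0 b1 ((differentiable_eval f).comp_differentiableOn hal)
      ((differentiable_eval g).comp_differentiableOn hal) fun p hp => (map_mul _ _ _).symm.trans (e p hp)⟩
  obtain ⟨β, -, hβ⟩ := (hJ.inf_le' (s := Finset.univ) (f := fun β : T =>
      RingHom.ker (aeval (ext1 (β : K) (Sum.elim D'.z D'.y)) : _ →ₐ[ℂ] K))).1 fun g hg p hp => by
    obtain ⟨G, hG⟩ := rootw_opt g
    have inj : Function.Injective ((rename Sum.inl : MP n →ₐ[ℂ] MP2 n) : MP n →+* MP2 n) :=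
      rename_injective _ Sum.inl_injective
    have c1 : ∀ (K : Type) [Field K] [Algebra ℂ K] (z y : Fin n → K),
        ((aeval (Sum.elim z y) : MP2 n →ₐ[ℂ] K) : MP2 n →+* K).comp
          ((rename Sum.inl : MP n →ₐ[ℂ] MP2 n) : MP n →+* MP2 n) =
          ((aeval z : MP n →ₐ[ℂ] K) : MP n →+* K) := by
      intro K _ _ z y
      exact RingHom.ext fun g => aeval_rename Sum.inl (Sum.elim z y) g
    rw [← coe_aeval_eq_eval, RingHom.coe_coe, ← hG]
    refine rootw_key ((aeval (Sum.elim D'.z D'.y) : MP2 n →ₐ[ℂ] K) : MP2 n →+* K)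
      ((aeval (Sum.elim (ζ p) (y' p)) : MP2 n →ₐ[ℂ] ℂ) : MP2 n →+* ℂ)
      (fun r hr => loc p hp r hr)
      (h.map ((rename Sum.inl : MP n →ₐ[ℂ] MP2 n) : MP n →+* MP2 n)) T (fun β hβ => ?_)
      (Polynomial.natDegree_map_le.trans hc) _ ?_ ?_ G fun β hβ => ?_
    · rw [Polynomial.eval₂_map, c1]
      exact hT β hβ
    · rw [Polynomial.eval₂_map, c1]
      exact (b7 p hp).2.2.1
    · rw [Polynomial.leadingCoeff_map_of_injective inj, ← RingHom.comp_apply, c1]
      exact (b7 p hp).2.1.ne_zero (Finset.mem_insert_self _ _)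
    · rw [hG]
      exact Submodule.mem_finsetInf.1 hg ⟨β, hβ⟩ (Finset.mem_univ _)
  obtain ⟨g, g1, g2⟩ := k4 β Ω ζ ω y' τ lb c₀ L b1 b2 b3 b4 b5 b6 fun p hp =>
    ⟨fun g hg => hβ hg p hp, (b7 p hp).2.1.subset ((Finset.subset_biUnion_of_mem S
      (Finset.mem_univ β)).trans (Finset.subset_insert _ _)), fun i hi => if_pos hi,
      (b7 p hp).2.2.2⟩
  have : C β * L ≤ (1 + ∑ β, C β) * L := mul_le_mul_of_nonneg_right ((Finset.single_le_sum
    (fun β _ => zero_le_one.trans (k3 β)) (Finset.mem_univ β)).trans (by linarith)) (by linarith)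
  exact ⟨l β, g, k1 β, g1, fun p hp => ⟨(Real.exp_le_exp.2 (by linarith)).trans (g2 p hp).1,
    (g2 p hp).2.trans (Real.exp_le_exp.2 this)⟩⟩

end Pool.Agent.P.MP_d2ed07_lc
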