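import Pool.Agent.P.MP_d2ed07_lc.Basic2
import Pool.Agent.P.MP_d2ed07_lc.CASE2

/-! Sheets of the hypersurface close to a sheet of a weighted initial form. -/

namespace Pool.Agent.P.MP_d2ed07_lc

open MvPolynomial Metric Filter Topology

variable {n : ℕ}

theorem sh2_poly (A : Finset (Fin n)) (M : ℂ) (P : MP n) :
    ∃ P' : MP n, ∀ z, eval z P' = eval (dil A M z) P := by
  induction P using MvPolynomial.induction_on with
  | C a => exact ⟨C a, fun z => by simp⟩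
  | add p q hp hq =>
    obtain ⟨p', hp⟩ := hp
    obtain ⟨q', hq⟩ := hq
    exact ⟨p' + q', fun z => by simp [hp, hq]⟩
  | mul_X p i hp =>
    obtain ⟨p', hp⟩ := hp
    exact ⟨p' * if i ∈ A then X i else C M * X i, fun z => by
      by_cases h : i ∈ A <;> simp [hp, dil, h]⟩

theorem sh2_rou {A : Finset (Fin n)} {M σ : ℝ} {P P' : MP n} {v p : Cn n} (hv : Off A v)
    (M0 : 0 < M) (e : ∀ z, eval z P' = eval (dil A M z) P) (h : Rou P' v p 0 σ) :
    Rou P v (dil A M p) 0 (σ * M) := by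
  have hM : (M : ℂ) ≠ 0 := by exact_mod_cast M0.ne'
  obtain ⟨⟨t, h1, h2⟩, h3⟩ := h
  refine ⟨⟨M * t, ?_, by rwa [e, dil_add_smul hv] at h2⟩, fun τ hτ h4 => h3 (τ / M) ?_ ?_⟩
  · rw [sub_zero] at h1 ⊢
    rw [norm_mul, Complex.norm_of_nonneg M0.le, mul_comm]
    exact mul_lt_mul_of_pos_right h1 M0
  · rw [sub_zero] at hτ ⊢
    rw [norm_div, Complex.norm_of_nonneg M0.le, hτ, mul_div_cancel_right₀ _ M0.ne']
  · rwa [e, dil_add_smul hv, mul_div_cancel₀ _ hM]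

theorem t_sh2 (hlocta : T_LOCTA) (hminmod : T_MINMOD) : T_SH2 := by
  intro n P A v Q E g s de sg ka K T₀ hP hv has hc
  obtain ⟨C, C0, hC⟩ := has (‖s‖ + de + sg * ‖v‖)
  have hc' := hc
  obtain ⟨de0, sg0, ka0, K1, -⟩ := hc'
  have rou : ∀ T : ℝ, 1 ≤ T → 2 * C / (ka * (sg / 2) ^ K) < T → ∀ p : Cn n,
      (T : ℂ)⁻¹ • p ∈ ball (iR s) de → Rou P v (dil A (T ^ E : ℝ) p) 0 (sg * T * T ^ E) := by
    intro T T1 hT p hp
    obtain ⟨P', e⟩ := sh2_poly A (T ^ E : ℝ) P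
    refine sh2_rou hv (by positivity) e (case2_rou hminmod (Dg := g) (κ := C / T) hc (by linarith)
      (fun u hu => ?_) ?_ hp)
    · rw [e, Complex.ofReal_pow]
      exact hC T u T1 hu
    · rw [← mul_div_assoc, div_lt_iff₀ (by linarith)]
      rwa [div_lt_iff₀' (by positivity)] at hT
  constructor
  · obtain ⟨T, T1, hT⟩ := ((eventually_ge_atTop (1 : ℝ)).and
      (eventually_gt_atTop (2 * C / (ka * (sg / 2) ^ K)))).exists
    have h : (T : ℂ) ≠ 0 := by exact_mod_cast (by linarith : T ≠ 0)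
    exact (rou T T1 hT ((T : ℂ) • iR s) (by
      rw [inv_smul_smul₀ h]; exact mem_ball_self de0)).ddir_ne_zero
  have K4 : (1 : ℝ) ≤ (4 * K : ℕ) := by exact_mod_cast (by omega : 1 ≤ 4 * K)
  have K5 : (1 : ℝ) ≤ (4 * K * (E + 1) : ℕ) := by exact_mod_cast (by nlinarith : 1 ≤ 4 * K * (E + 1))
  refine ⟨((4 * K : ℕ) : ℝ)⁻¹, 4 * K * (E + 1) * 3, by positivity, inv_le_one_of_one_le₀ K4,
    fun S hS => ?_⟩
  obtain ⟨N, ε, R₀, N1, ε0, ε1, R3, hl⟩ := hlocta n P A v S ((4 * K * (E + 1) : ℕ) : ℝ)⁻¹ hP hS hv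
    (by positivity)
  refine ⟨N * (4 * K * (E + 1) : ℕ), one_le_mul_of_one_le_of_one_le N1 K5, fun d1 r₀ d10 => ?_⟩
  obtain ⟨b, b1, hb⟩ : ∃ b : ℝ, 1 ≤ b ∧ C ≤ ka * b :=
    ⟨max 1 (C / ka), le_max_left _ _, (div_le_iff₀' ka0).1 (le_max_right _ _)⟩
  obtain ⟨W, w1, w2, w3, w4, w5, w6, w7, w8⟩ : ∃ W : ℝ, R₀ ≤ W ∧ ‖s‖ + 1 ≤ W ∧ sg ≤ W ∧
      2 * C / (ka * (sg / 2) ^ K) < W ∧ (min de d1)⁻¹ ≤ W ∧ r₀ ≤ W ∧ b / ε ≤ W ∧
      sg * ‖v‖ ≤ W :=
    ((eventually_ge_atTop _).and <| (eventually_ge_atTop _).and <| (eventually_ge_atTop _).and <|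
      (eventually_gt_atTop _).and <| (eventually_ge_atTop _).and <| (eventually_ge_atTop _).and <|
      (eventually_ge_atTop _).and (eventually_ge_atTop _)).exists
  have W1 : 1 ≤ W := by linarith
  have W0 : 0 < W := by linarith
  rw [div_le_iff₀' ε0] at w7
  obtain ⟨T, hT⟩ : ∃ T : ℝ, T = W ^ (4 * K) := ⟨_, rfl⟩
  have T4 : W ^ 4 ≤ T := hT ▸ pow_le_pow_right₀ W1 (by omega)
  have TW : W ≤ T := (le_self_pow₀ W1 (by norm_num)).trans T4
  have T1 : 1 ≤ T := W1.trans TW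
  have T0 : 0 < T := by linarith
  have M1 : 1 ≤ T ^ E := one_le_pow₀ T1
  obtain ⟨R, hR⟩ : ∃ R : ℝ, R = T * T ^ E := ⟨_, rfl⟩
  have hR' : R = W ^ (4 * K * (E + 1)) := by rw [hR, pow_mul, ← hT, pow_succ']
  have RT : T ≤ R := hR ▸ le_mul_of_one_le_right T0.le M1
  have eα : T / W ^ 2 * R ^ ((4 * K * (E + 1) : ℕ) : ℝ)⁻¹ = W⁻¹ * T := by
    rw [hR', Real.pow_rpow_inv_natCast W0.le (by positivity)]
    field_simp
  have hball : ∀ p ∈ ball ((T : ℂ) • iR s) (W⁻¹ * T), (T : ℂ)⁻¹ • p ∈ ball (iR s) (min de d1) :=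
    fun p hp => ball_subset_ball (inv_le_of_inv_le₀ (lt_min de0 d10) w5) (case2_ball T0 hp)
  have hball' : ∀ p ∈ ball ((T : ℂ) • iR s) (W⁻¹ * T), (T : ℂ)⁻¹ • p ∈ ball (iR s) de :=
    fun p hp => ball_subset_ball (min_le_left _ _) (hball p hp)
  have ρ2 : W ^ 2 ≤ T / W ^ 2 := by
    rw [le_div_iff₀ (by positivity), ← pow_add]
    exact T4
  have hnorm : ∀ p ∈ ball ((T : ℂ) • iR s) (W⁻¹ * T), ‖dil A (T ^ E : ℝ) p‖ ≤ R ^ 2 := by
    intro p hp
    have a1 := (norm_lt_of_mem_ball hp).le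
    rw [norm_smul, Complex.norm_of_nonneg T0.le, norm_iR] at a1
    have a2 := norm_dil_le (A := A) (c := (T ^ E : ℝ))
      (by rwa [Complex.norm_of_nonneg (by positivity)]) p
    rw [Complex.norm_of_nonneg (by positivity)] at a2
    have a3 : W⁻¹ ≤ 1 := inv_le_one_of_one_le₀ W1
    have a4 : ‖p‖ ≤ T * W := by nlinarith
    calc _ ≤ T ^ E * (T * W) := a2.trans (by gcongr)
      _ = R * W := by rw [hR]; ring
      _ ≤ R ^ 2 := by rw [pow_two]; gcongr; linarith; linarith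
  obtain ⟨s1, τ, hsub, hsh, hτ⟩ := hl R (by linarith) (T ^ E) (T / W ^ 2) ((T : ℂ) • iR s)
    (fun _ => 0) (sg * R) M1 ((one_le_pow₀ W1).trans ρ2) continuous_const (fun p hp => by
      rw [eα] at hp
      refine ⟨hnorm p hp, ?_, ?_⟩
      · rw [norm_zero]
        nlinarith
      · rw [hR, ← mul_assoc]
        exact rou T T1 (w4.trans_le TW) p (hball' p hp))
  rw [eα] at hsub
  have hx : Imag ((T : ℂ) • iR s + iR s1) := ((imag_iR s).smul T).add (imag_iR s1)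
  generalize (T : ℂ) • iR s + iR s1 = x at hsub hsh hτ hx
  obtain ⟨r, hr⟩ : ∃ r, r = ε * (T / W ^ 2) := ⟨_, rfl⟩
  rw [← hr] at hsub hsh hτ
  have rW : W ≤ r := by
    have : ε * W ^ 2 ≤ r := hr ▸ mul_le_mul_of_nonneg_left ρ2 ε0.le
    nlinarith
  have r0 : 0 < r := by linarith
  have rT : r ≤ T := by
    rw [hr]
    exact (mul_le_of_le_one_left (by positivity) ε1).trans (div_le_self T0.le (one_le_pow₀ W1))
  have lg : N * Real.log R ≤ N * (4 * K * (E + 1) : ℕ) * Real.log r := by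
    rw [hR', Real.log_pow, mul_assoc N]
    gcongr
  refine ⟨r, T, x, τ, by linarith, T1, hx, ⟨hsh.1, fun q hq => ⟨(hsh.2.1 q hq).1,
    (hsh.2.1 q hq).2.mono lg⟩, hsh.2.2⟩, fun q hq => ⟨hball q (hsub hq), ?_, ?_⟩⟩
  · obtain ⟨P', e⟩ := sh2_poly A (T ^ E : ℝ) P
    have hM : ((T ^ E : ℝ) : ℂ) ≠ 0 := by exact_mod_cast (by positivity : T ^ E ≠ 0)
    have a1 := case2_err (P := P') (Dg := g) (κ := C / T) (b := b / W ^ 4) hc T0
      (fun u hu => by rw [e, Complex.ofReal_pow]; exact hC T u T1 hu) (by positivity)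
      (by
        rw [div_pow, ← pow_mul, ← hT, ← mul_div_assoc]
        gcongr
        exact hb.trans (mul_le_mul_of_nonneg_left (le_self_pow₀ b1 (by omega)) ka0.le))
      (hball' q (hsub hq)) (τ := τ q / (T ^ E : ℝ))
      (by
        rw [norm_div, Complex.norm_of_nonneg (by positivity), div_lt_iff₀ (by positivity),
          mul_assoc, ← hR]
        simpa using hτ q hq)
      (by
        rw [e, dil_add_smul hv, mul_div_cancel₀ _ hM]
        exact (hsh.2.1 q hq).1)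
    have a2 : τ q - (T : ℂ) ^ E * T * T₀ ((T : ℂ)⁻¹ • q) =
        (T ^ E : ℝ) * (τ q / (T ^ E : ℝ) - T * T₀ ((T : ℂ)⁻¹ • q)) := by
      rw [mul_sub, mul_div_cancel₀ _ hM, Complex.ofReal_pow, mul_assoc]
    rw [a2, norm_mul, Complex.norm_of_nonneg (by positivity)]
    refine mul_le_mul_of_nonneg_left (a1.trans ?_) (by positivity)
    have a3 : r ^ ((4 * K : ℕ) : ℝ)⁻¹ ≤ W := by
      refine (Real.rpow_le_rpow r0.le rT (by positivity)).trans_eq ?_
      rw [hT, Real.pow_rpow_inv_natCast W0.le (by omega)]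
    rw [Real.rpow_sub r0, Real.rpow_one]
    calc b / W ^ 4 * T ≤ ε * W / W ^ 4 * T := by gcongr
      _ = r / W := by rw [hr]; field_simp
      _ ≤ _ := by gcongr
  · have a1 := hτ q hq
    rw [sub_zero] at a1
    have a2 : ‖τ q • v‖ ≤ R * W := by
      rw [norm_smul]
      calc _ ≤ sg * R * ‖v‖ := by gcongr
        _ = R * (sg * ‖v‖) := by ring
        _ ≤ _ := by gcongr; linarith
    have a3 : 3 ≤ R := by linarith
    calc _ ≤ R ^ 2 + R * W := (norm_add_le _ _).trans (add_le_add (hnorm q (hsub hq)) a2)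
      _ ≤ R ^ 3 := by nlinarith [mul_le_mul_of_nonneg_left (TW.trans RT) (by linarith : 0 ≤ R)]
      _ = W ^ (4 * K * (E + 1) * 3) := by rw [hR', ← pow_mul]
      _ ≤ _ := by gcongr

end Pool.Agent.P.MP_d2ed07_lc
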