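import Pool.Agent.P.MP_d2ed07_lc.Basic2

/-!
Nearly linear sheets and sheets close to a hyperplane.
-/

namespace Pool.Agent.P.MP_d2ed07_lc

open MvPolynomial Metric Filter Topology

theorem sh2a_big {γ : ℝ} (h : 0 < γ) (C : ℝ) : ∃ r₁ : ℝ, ∀ r, r₁ ≤ r → C ≤ r ^ γ :=
  eventually_atTop.1 ((tendsto_rpow_atTop h).eventually_ge_atTop C)

theorem t_sh2b (hsh2 : T_SH2) : T_SH2B := by
  intro n P A v Q E g s δ σ κ K T₀ m hP hv hm hA hC hz
  obtain ⟨hd, γ, N₁, hγ, -, h⟩ := hsh2 n P A v Q E g s δ σ κ K T₀ hP hv hA hC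
  refine ⟨hd, γ / 2, N₁, half_pos hγ, fun S hS => ?_⟩
  obtain ⟨N, hN, h⟩ := h S hS
  refine ⟨N, hN, fun r₀ => ?_⟩
  obtain ⟨r₁, h1⟩ := sh2a_big (half_pos hγ) ‖dz m v‖
  obtain ⟨r, T, x, τ, a1, a2, a3, a4, a5⟩ := h 1 (max r₀ (max r₁ 1)) one_pos
  simp only [max_le_iff] at a1
  refine ⟨r, T ^ E, x, τ, a1.1, one_le_pow₀ a2, a3, a4, fun q hq => ⟨?_, (a5 q hq).2.2⟩⟩
  obtain ⟨b1, b2, -⟩ := a5 q hq
  have hT : (T : ℂ) ≠ 0 := Complex.ofReal_ne_zero.2 (by linarith)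
  have b3 := hz _ (ball_subset_ball (min_le_left _ _) b1)
  rw [dz_add, dz_smul, dz_smul] at b3
  have b4 : dz m (zt A (T ^ E) v τ q) =
      (τ q - (T : ℂ) ^ E * T * T₀ ((T : ℂ)⁻¹ • q)) * dz m v := by
    rw [zt, dz_add, hm.dz_dil, dz_smul, Complex.ofReal_pow]
    have : dz m q = T * ((T : ℂ)⁻¹ * dz m q) := (mul_inv_cancel_left₀ hT _).symm
    rw [this, eq_neg_of_add_eq_zero_left b3]
    ring
  rw [b4, norm_mul, show 1 - γ / 2 = 1 - γ + γ / 2 by ring, Real.rpow_add (by linarith [a1.2.2]),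
    ← mul_assoc]
  exact mul_le_mul b2 (h1 r a1.2.1) (norm_nonneg _) ((norm_nonneg _).trans b2)

theorem t_sh2a (hsh2 : T_SH2) (hcl : T_CL) : T_SH2A := by
  intro n P A v Q E g s ν hP hv hA ⟨δ₀, σ, κ, K, T₀, hC, hL⟩
  obtain ⟨-, γ, N₁, hγ, -, h⟩ := hsh2 n P A (cQ v) Q E g s δ₀ σ κ K T₀ hP hv.cQ hA hC
  refine ⟨γ / 2, half_pos hγ, fun S hS => ?_⟩
  obtain ⟨N, hN, h⟩ := h S hS
  refine ⟨2 * N, by linarith, fun δ r₀ hδ => ?_⟩
  obtain ⟨δ₁, hδ₁, hL⟩ := hL (δ / 2) (half_pos hδ)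
  obtain ⟨r₁, h1⟩ := sh2a_big (half_pos hγ) 2
  obtain ⟨r₂, h2⟩ := sh2a_big hγ (8 / δ)
  obtain ⟨r, T, x, τ, a1, a2, a3, a4, a5⟩ :=
    h δ₁ (max (max (2 * r₀) (2 * r₁)) (max r₂ 4)) hδ₁
  simp only [max_le_iff] at a1
  obtain ⟨⟨c1, c2⟩, c3, c4⟩ := a1
  have hr : 0 < r := by linarith
  have hT0 : 0 < T := by linarith
  have hT : (T : ℂ) ≠ 0 := Complex.ofReal_ne_zero.2 hT0.ne'
  have hM1 : 1 ≤ T ^ E := one_le_pow₀ a2
  rw [← Complex.ofReal_pow] at a5
  generalize T ^ E = M at *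
  have hM0 : 0 < M := by linarith
  have hM : (M : ℂ) ≠ 0 := Complex.ofReal_ne_zero.2 hM0.ne'
  obtain ⟨-, -, -, -, d1, -, d2, -⟩ := hC
  have e1 := (hcl _ _ (fun q => τ q / M - T * T₀ ((T : ℂ)⁻¹ • q)) x r (r ^ (1 - γ)) hr
    ((a4.1.mul_const (M : ℂ)⁻¹).sub ((d1.comp (by fun_prop) fun q hq =>
      ball_subset_ball (min_le_left _ _) (a5 q hq).1).const_mul _)) fun q hq => by
      rw [show τ q / M - T * T₀ ((T : ℂ)⁻¹ • q) = (τ q - M * T * T₀ ((T : ℂ)⁻¹ • q)) / M by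
        field_simp, norm_div, Complex.norm_real, Real.norm_of_nonneg hM0.le, div_le_iff₀' hM0]
      exact (a5 q hq).2.1).2
  have e2 : 4 * r ^ (1 - γ) / r ≤ δ / 2 := by
    have := h2 r c3
    rw [div_le_iff₀ hδ] at this
    rw [Real.rpow_sub hr, Real.rpow_one, div_le_iff₀ hr, mul_div_assoc',
      div_le_iff₀ (Real.rpow_pos_of_pos hr γ)]
    nlinarith
  have sub : ball x (r / 2) ⊆ ball x r := ball_subset_ball (by linarith)
  have e3 : NearLin ν δ x (r / 2) fun q => τ q / M := fun p hp p' hp' => by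
    have f1 := hL _ (ball_subset_ball (min_le_right _ _) (a5 p (sub hp)).1) _
      (ball_subset_ball (min_le_right _ _) (a5 p' (sub hp')).1)
    have f2 := (e1 p hp p' hp').trans (mul_le_mul_of_nonneg_right e2 (norm_nonneg _))
    have f3 : dr ν (p - p') = T * dr ν ((T : ℂ)⁻¹ • (p - p')) := by
      simp only [dr, Finset.mul_sum, Pi.smul_apply, smul_eq_mul]
      exact Finset.sum_congr rfl fun i _ => by field_simp
    rw [← smul_sub, norm_smul, norm_inv, Complex.norm_real, Real.norm_of_nonneg hT0.le] at f1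
    have f4 := norm_add_le
      (τ p / M - T * T₀ ((T : ℂ)⁻¹ • p) - (τ p' / M - T * T₀ ((T : ℂ)⁻¹ • p')))
      (T * (T₀ ((T : ℂ)⁻¹ • p) - T₀ ((T : ℂ)⁻¹ • p') + dr ν ((T : ℂ)⁻¹ • (p - p'))))
    rw [norm_mul, Complex.norm_real, Real.norm_of_nonneg hT0.le] at f4
    have f5 := mul_le_mul_of_nonneg_left f1 hT0.le
    rw [mul_left_comm T (δ / 2), mul_inv_cancel_left₀ hT0.ne'] at f5
    refine le_trans (le_of_eq (congrArg _ ?_)) (f4.trans (by linarith))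
    rw [f3]
    ring
  obtain ⟨b, hb⟩ : ∃ b : ℂ, b = ((τ x).im / M : ℝ) * Complex.I := ⟨_, rfl⟩
  have mem : ∀ q ∈ ball (x + b • cQ v) (r / 2), q - b • cQ v ∈ ball x (r / 2) := fun q hq => by
    rwa [mem_ball_iff_norm, sub_sub, add_comm, ← mem_ball_iff_norm]
  have hz : ∀ q, zt A M (cQ v) (fun q => τ (q - b • cQ v) - M * b) q =
      zt A M (cQ v) τ (q - b • cQ v) := fun q => by
    rw [zt, zt, sub_eq_add_neg q, ← neg_smul, dil_add_smul hv.cQ, add_assoc, ← add_smul]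
    congr 2
    ring
  refine ⟨r / 2, M, x + b • cQ v, fun q => τ (q - b • cQ v) - M * b, by linarith, hM1,
    a3.add fun i => by simp [hb, cQ], ⟨?_, fun q hq => ?_, fun q hq t ht => ?_⟩,
    fun p hp p' hp' => ?_, ?_⟩
  · exact (a4.1.comp (by fun_prop) fun q hq => sub (mem q hq)).sub_const _
  · rw [hz]
    refine ⟨(a4.2.1 _ (sub (mem q hq))).1, (a4.2.1 _ (sub (mem q hq))).2.mono ?_⟩
    have := Real.log_le_log hr (show r ≤ (r / 2) ^ 2 by nlinarith)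
    rw [Real.log_pow] at this
    push_cast at this
    nlinarith
  · have := sub (mem _ ht)
    rw [add_sub_right_comm] at this
    simp only
    rw [add_sub_right_comm, a4.2.2 _ (sub (mem q hq)) t this]
    ring
  · have := e3 _ (mem p hp) _ (mem p' hp')
    rw [sub_sub_sub_cancel_right] at this
    refine le_trans (le_of_eq (congrArg _ ?_)) this
    ring
  · obtain ⟨f1, f2, -⟩ := a5 x (mem_ball_self hr)
    have f3 : Imag ((T : ℂ)⁻¹ • x) := Complex.ofReal_inv T ▸ a3.smul T⁻¹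
    have f4 := d2 _ (f3.eq_iR ▸ ball_subset_ball (min_le_left _ _) f1)
    rw [← f3.eq_iR] at f4
    have f5 := (Complex.abs_re_le_norm _).trans f2
    have f6 : τ x - M * b = (τ x).re := by
      rw [hb]
      push_cast
      field_simp
      linear_combination -(τ x).re_add_im
    simp only [Complex.sub_re, Complex.mul_re, Complex.mul_im, Complex.ofReal_re,
      Complex.ofReal_im, f4, mul_zero, zero_mul, add_zero, sub_zero] at f5
    simp only [add_sub_cancel_right]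
    rw [f6, Complex.norm_real]
    refine f5.trans (mul_le_mul_of_nonneg_left ?_ hM0.le)
    have f7 : r ^ (1 - γ) = 2 ^ (1 - γ) * (r / 2) ^ (1 - γ) := by
      rw [← Real.mul_rpow zero_le_two (by linarith), mul_div_cancel₀ r two_ne_zero]
    rw [f7, show 1 - γ / 2 = γ / 2 + (1 - γ) by ring, Real.rpow_add (half_pos hr)]
    refine mul_le_mul_of_nonneg_right (le_trans ?_ (h1 _ (by linarith))) (by positivity)
    exact (Real.rpow_le_rpow_of_exponent_le one_le_two (by linarith)).trans_eq (Real.rpow_one 2)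

end Pool.Agent.P.MP_d2ed07_lc
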