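import Pool.Agent.P.MP_d2ed07_lc.Basic2

/-!
The case of curve fibres, and density, second part.
-/

namespace Pool.Agent.P.MP_d2ed07_lc

open MvPolynomial Metric Filter Topology

theorem t2_ray (hray : T_RAY) (hspan : T_SPAN) (hr2 : T_R2) {n : ℕ} {F : Type} [Field F]
    [Algebra ℂ F] (D : Data n F) (A : Finset (Fin n)) (hc : D.Curve) (hA : D.AlgOn A) (Q : MP n)
    (u : Cn n) (hu : Off A u) (hN : ∀ m, D.Alg (mon D.y m) → ∀ j, j ∉ A → m j = 0)
    (hQ : ddir u Q ≠ 0) : ∃ v, D.IsRay v ∧ Off A v ∧ ddir (cQ v) Q ≠ 0 := by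
  have hoff : ∀ v, D.IsRay v → Off A v := fun v hv i hi => by
    have := hr2 n F D v (Pi.single i 1) hv (by rw [mon_single]; exact hA i hi)
    rwa [dz_single_left] at this
  by_contra hcon
  push Not at hcon
  apply hQ
  ext mo
  have := hspan n {v | D.IsRay v} u (fun i => coeff mo (pderiv i Q)) (fun l hl => by
    by_contra h0
    obtain ⟨v, hv, h1⟩ := hray n F D hc l fun h => h0 (Finset.sum_eq_zero fun i _ => by
      by_cases hi : i ∈ A
      · rw [hu i hi, mul_zero]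
      · rw [hN l h i hi]; simp)
    rw [hl v hv] at h1; exact zero_ne_one h1) (fun v hv => by
    have := congrArg (coeff mo) (hcon v hv (hoff v hv))
    simp only [ddir, coeff_sum, coeff_C_mul, coeff_zero, cQ] at this
    rw [← this]; exact Finset.sum_congr rfl fun i _ => mul_comm _ _)
  simp only [ddir, coeff_sum, coeff_C_mul, coeff_zero]
  rw [← this]; exact Finset.sum_congr rfl fun i _ => mul_comm _ _

theorem t2_nf (hray : T_RAY) (hspan : T_SPAN) (hr2 : T_R2) (hhom2 : T_HOM2)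
    (hcase1a : T_CASE1A) (hcone1 : T_CONE1) (hcone2a : T_CONE2A) (hsh2a : T_SH2A)
    (hsh2b : T_SH2B) (hcase2a : T_CASE2A) (hcase3a : T_CASE3A) {n : ℕ} {F : Type} [Field F]
    [Algebra ℂ F] (D : Data n F) (A : Finset (Fin n)) (hA : D.NF A) (hc : D.Curve)
    (hf : Free D.z) (hm : MFree D.y) (hs : D.Star2) : D.Sol := by
  obtain ⟨u₀, hu₀, hP⟩ := hs
  obtain ⟨Q, E, g, B, hB, ⟨u, hu, hQ⟩, has⟩ := hhom2 n D.P A ⟨u₀, fun i hi => by
    have := hu₀ (Pi.single i 1) (by rw [mon_single]; exact hA.1 i hi)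
    rwa [dz_single_left] at this, hP⟩
  obtain ⟨v, hv, hoff, hQ⟩ := t2_ray hray hspan hr2 D A hc hA.1 Q u hu hA.2 hQ
  by_cases h1 : ∃ (s : Fin n → ℝ) (τ : ℂ), eval (iR s + τ • cQ v) Q = 0 ∧
      (∃ τ' : ℂ, eval (iR s + τ' • cQ v) Q ≠ 0) ∧ τ.re ≠ 0
  · obtain ⟨s, τ, h0, ⟨τ', h2⟩, h3⟩ := h1
    rcases lt_or_gt_of_ne h3 with h3 | h3
    · have e : ∀ t : ℂ, iR (fun i => if i ∈ A then s i else (-1 : ℝ) * s i) + (-t) • cQ v =
          dil A ((-1 : ℝ) : ℂ) (iR s + t • cQ v) := fun t => by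
        rw [dil_add_smul hoff.cQ, dil_iR]; simp
      refine hcase1a n F D A Q E g v _ (-τ) hv hoff has (by rw [e, hB, h0, mul_zero]) ⟨-τ', ?_⟩
        (by simpa using h3)
      rw [e, hB]
      exact mul_ne_zero (pow_ne_zero _ (by norm_num)) h2
    · exact hcase1a n F D A Q E g v s τ hv hoff has h0 ⟨τ', h2⟩ h3
  push Not at h1
  obtain ⟨s, δ, σ, κ, K, T, hT⟩ := hcone1 n Q (cQ v) (fun i => by simp [cQ]) hQ h1
  rcases hcone2a n A Q B v s δ σ κ K T hB hoff hT with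
    ⟨m, k, δ', hmk, hmv, hmA, hT', h0⟩ | ⟨s', ν, h2, h3, h4⟩
  · exact hcase3a n F D A v m k hc hf hm hA.1 hv hoff hmA hmk hmv
      (hsh2b n D.P A (cQ v) Q E g s δ' σ κ K T m D.prime hoff.cQ hmA has hT' h0)
  · exact hcase2a n F D A v ν hc hA.1 hv hoff h2 h3
      (hsh2a n D.P A v Q E g s' ν D.prime hoff has h4)

theorem t_t2 (hcoord : T_COORD) (hray : T_RAY) (hspan : T_SPAN) (hr2 : T_R2) (hhom2 : T_HOM2)
    (hcase1a : T_CASE1A) (hcone1 : T_CONE1) (hcone2a : T_CONE2A) (hsh2a : T_SH2A)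
    (hsh2b : T_SH2B) (hcase2a : T_CASE2A) (hcase3a : T_CASE3A) : T_T2 := by
  intro n F _ _ D hc hf hm hs
  obtain ⟨D', A, hA, h1, h2, h3, -, h5, h6⟩ := hcoord n F D
  exact h6 (t2_nf hray hspan hr2 hhom2 hcase1a hcone1 hcone2a hsh2a hsh2b hcase2a hcase3a D' A hA
    (h1 hc) (h2 hf) (h3 hm) (h5.1 hs))

theorem dens2_aux (hslice : T_SLICE) (hcurv : T_CURV) (hmfs : T_MFS) (ht2 : T_T2) {n : ℕ}
    (e : ℕ) : ∀ (F : Type) [Field F] [Algebra ℂ F] (D : Data n F), D.Rk (e + 1) → Free D.z →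
      MFree D.y → D.Star2 → D.Sol := by
  induction e with
  | zero => exact fun F _ _ D hr hf hm hs => ht2 n F D (hcurv n F D hr) hf hm hs
  | succ e ih =>
    intro F _ _ D hr hf hm hs
    obtain ⟨F', _, _, D', hP, hr', hev, halg⟩ := hslice n (e + 1) F D (by omega) hr
    obtain ⟨u, hu, hQ⟩ := hs
    obtain ⟨x, hx⟩ := ih F' D' hr' (by rw [Data.free_iff, hP, ← Data.free_iff]; exact hf)
      (hmfs n F F' D D' hP hev halg hm) ⟨u, fun m hm => hu m (halg m hm), by rw [hP]; exact hQ⟩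
    exact ⟨x, fun g hg => hx g (hev g hg)⟩

theorem t_dens2 (hrab2 : T_RAB2) (hslice : T_SLICE) (hcurv : T_CURV) (hmfs : T_MFS)
    (ht2 : T_T2) : T_DENS2 := by
  intro n F _ _ D hf hm hs f h0
  obtain ⟨D', hf', hm', hs', h⟩ := hrab2 n F D f h0 hf hm hs
  refine h (dens2_aux hslice hcurv hmfs ht2 n _ D' (fun s _ => ?_) hf' hm' hs')
  simpa using s.card_le_univ

end Pool.Agent.P.MP_d2ed07_lc
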