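import Pool.Agent.P.MP_d2ed07_lc.Basic2

/-!
The iterated derivative along a word is a tame function.
-/

namespace Pool.Agent.P.MP_d2ed07_lc

open MvPolynomial Metric Filter Topology

variable {n : ℕ}

/-- the linear conditions on a tangent vector -/
noncomputable def word_lam (A : Finset (Fin n)) (v : Cn n) (j₀ i : Fin n)
    (s : Option (Fin n ⊕ Fin n)) : MvPolynomial (Option (Fin n ⊕ Fin n)) ℂ :=
  if i ∈ A then
    (if s = some (.inl i) then X (some (.inr i)) else 0) - if s = some (.inr i) then 1 else 0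
  else (if s = some (.inl i) then C (v j₀) else 0) - if s = some (.inl j₀) then C (v i) else 0

/-- their right hand sides -/
noncomputable def word_rho (A : Finset (Fin n)) (v : Cn n) (j₀ l i : Fin n) :
    MvPolynomial (Option (Fin n ⊕ Fin n)) ℂ :=
  if i ∈ A then X (some (.inr i)) * C (uv l i) else C (v j₀ * uv l i - v i * uv l j₀)

theorem word_sum {R : Type} [CommRing R] [Algebra ℂ R] (A : Finset (Fin n)) (v : Cn n)
    (j₀ i : Fin n) (al η : Option (Fin n ⊕ Fin n) → R) :
    ∑ s, aeval al (word_lam A v j₀ i s) * η s =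
      if i ∈ A then al (some (.inr i)) * η (some (.inl i)) - η (some (.inr i))
      else algebraMap ℂ R (v j₀) * η (some (.inl i)) - algebraMap ℂ R (v i) * η (some (.inl j₀)) := by
  by_cases h : i ∈ A <;>
    simp only [word_lam, h, if_true, if_false, map_sub, apply_ite (aeval al), aeval_X, aeval_C,
      map_zero, map_one, sub_mul, ite_mul, zero_mul, one_mul, Finset.sum_sub_distrib,
      Finset.sum_ite_eq', Finset.mem_univ]

theorem word_fd {f g : Cn n → ℂ} {Ω : Set (Cn n)} (hΩ : IsOpen Ω) {p : Cn n} (hp : p ∈ Ω)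
    (h : ∀ q ∈ Ω, f q = g q) : fderiv ℂ f p = fderiv ℂ g p :=
  Filter.EventuallyEq.fderiv_eq (Filter.eventually_of_mem (hΩ.mem_nhds hp) h)

theorem word_on {Ω : Set (Cn n)} (hΩ : IsOpen Ω) {p : Cn n} (hp : p ∈ Ω) {z w y : Cn n → ℂ}
    (hw : DifferentiableOn ℂ w Ω) (c : ℂ) (i : Fin n) (h1 : ∀ q ∈ Ω, y q = Complex.exp (w q))
    (h2 : ∀ q ∈ Ω, z q = w q + c + q i) (u : Cn n) :
    y p * fderiv ℂ z p u - fderiv ℂ y p u = y p * u i := by
  have h := (hw.differentiableAt (hΩ.mem_nhds hp)).hasFDerivAt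
  rw [word_fd hΩ hp h1, word_fd hΩ hp h2, h.cexp.fderiv,
    ((h.add_const c).fun_add (hasFDerivAt_apply i p)).fderiv, h1 p hp]
  simp only [add_apply, smul_apply,
    ContinuousLinearMap.proj_apply, smul_eq_mul]
  ring

theorem word_off {Ω : Set (Cn n)} (hΩ : IsOpen Ω) {p : Cn n} (hp : p ∈ Ω) {z z' τ : Cn n → ℂ}
    (hz : DifferentiableOn ℂ z Ω) (hz' : DifferentiableOn ℂ z' Ω) (c c' a a' : ℂ) (i j : Fin n)
    (h1 : ∀ q ∈ Ω, z q = c + q i + τ q * a) (h2 : ∀ q ∈ Ω, z' q = c' + q j + τ q * a')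
    (u : Cn n) : a' * fderiv ℂ z p u - a * fderiv ℂ z' p u = a' * u i - a * u j := by
  have h := (hz.differentiableAt (hΩ.mem_nhds hp)).hasFDerivAt
  have h' := (hz'.differentiableAt (hΩ.mem_nhds hp)).hasFDerivAt
  have e := word_fd (f := fun q => a' * z q - a * z' q)
    (g := fun q => a' * (c + q i) - a * (c' + q j)) hΩ hp fun q hq => by
      rw [h1 q hq, h2 q hq]; ring
  rw [((h.const_mul a').fun_sub (h'.const_mul a)).fderiv,
    ((((hasFDerivAt_apply i p).const_add c).const_mul a').fun_sub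
      (((hasFDerivAt_apply j p).const_add c').const_mul a)).fderiv] at e
  simpa using DFunLike.congr_fun e u

theorem t_word (hjac : T_JAC) (halgw : T_ALGW) (hode : T_ODE) (hchain : T_CHAIN) (htal : T_TAL) :
    T_WORD := by
  classical
  intro n F _ _ D A v m b d hgen halg hfree hmf hm hAm hAv hv hb
  have fg : (⊤ : IntermediateField ℂ F).FG :=
    ⟨(Set.finite_range _).toFinset, by rw [Set.Finite.coe_toFinset]; exact hgen⟩
  obtain ⟨inj, hex⟩ := hjac n F D A v fg halg hAv hv
  choose δ hδ using fun l => hex (uv l)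
  obtain ⟨i₀, w, hsh, hne⟩ := halgw n F D.z D.y A v m b δ d fg D.hy hfree hmf hm hAm hb inj hδ
  obtain ⟨j₀, hj₀⟩ : ∃ j, v j ≠ 0 := by
    by_contra h
    push Not at h
    exact hv (by simp [ddir, h])
  have hjA : j₀ ∉ A := fun h => hj₀ (hAv j₀ h)
  have hj₁ : algebraMap ℂ F (v j₀) ≠ 0 := by simpa using hj₀
  set a := ext1 b (Sum.elim D.z D.y) with ha
  have a0 : a none = b := rfl
  have a1 : ∀ i, a (some (.inl i)) = D.z i := fun _ => rfl
  have a2 : ∀ i, a (some (.inr i)) = D.y i := fun _ => rfl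
  obtain ⟨c, ν, hc, h1, h2⟩ := hode F _ (Fin n) a (word_lam A v j₀) hgen fun d hd =>
    inj d ⟨fun i hi => by
      have := hd i
      rw [word_sum, if_pos hi, a1, a2] at this
      have h0 := D.hy i
      rw [Pi.zero_apply, map_zero]
      field_simp
      linear_combination this, d (D.z j₀) / algebraMap ℂ F (v j₀), fun j hj => by
      have := hd j
      rw [word_sum, if_neg hj, a1, a1] at this
      rw [Pi.zero_apply, map_zero]
      field_simp
      linear_combination this⟩
  let U : Fin n → Option (Fin n ⊕ Fin n) → MvPolynomial (Option (Fin n ⊕ Fin n)) ℂ :=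
    fun l s => ∑ i, ν s i * word_rho A v j₀ l i
  have hU : ∀ l s, aeval a c * δ l (a s) = aeval a (U l s) := fun l s => by
    rw [h1, map_sum]
    refine Finset.sum_congr rfl fun i _ => ?_
    rw [word_sum, map_mul, word_rho]
    congr 1
    obtain ⟨e1, t, e2⟩ := hδ l
    split_ifs with hi
    · have h0 := D.hy i
      rw [map_mul, aeval_X, aeval_C, a1, a2, ← e1 i hi]
      field_simp
    · rw [aeval_C, a1, a1, e2 i hi, e2 j₀ hjA, map_sub, map_mul, map_mul]
      ring
  let f₁ := (∑ i, C (m i : ℂ) * U i₀ (some (.inl i))) * X none - U i₀ none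
  have hf₂ : aeval a (c * X none) ≠ 0 := by
    rw [map_mul, aeval_X]; exact mul_ne_zero hc hb
  obtain ⟨g₁, e, hg, hch⟩ := hchain n F _ (Fin n) a δ c U hc hU w
    (δ i₀ (dz m D.z) - δ i₀ b / b) f₁ (c * X none) hf₂ (by
      simp only [f₁, map_sub, map_mul, map_sum, aeval_X, ← hU, a0, a1, dz, map_intCast,
        Derivation.leibniz, smul_eq_mul, Derivation.map_intCast, mul_zero, add_zero]
      field_simp
      simp only [Finset.mul_sum, Finset.sum_mul, sub_mul]
      congr 1
      exact Finset.sum_congr rfl fun i _ => by ring)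
  have hc₂ : aeval a (c * (c * X none)) ≠ 0 := by rw [map_mul]; exact mul_ne_zero hc hf₂
  obtain ⟨S₁, C₁, s1, s2, s3⟩ := htal n F D _ a (fun i => some (.inl i)) _ a1 hc₂ (halg _)
  obtain ⟨S₂, C₂, t1, t2, t3⟩ := htal n F D _ a (fun i => some (.inl i)) g₁ a1 (by
    rw [← hg, map_pow]; exact mul_ne_zero hne (pow_ne_zero _ hc₂)) (halg _)
  have he : (0 : ℝ) ≤ e * C₁ := by positivity
  refine ⟨i₀ :: w, S₁ ∪ S₂, C₂ + e * C₁, hsh, s1.union t1, by linarith,
    fun Ω ζ ω y' τ lb c₀ L b1 b2 b3 b4 b5 b6 b7 => ?_⟩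
  let al : Cn n → Option (Fin n ⊕ Fin n) → ℂ := fun p =>
    ext1 (Complex.exp (lb p)) (Sum.elim (ζ p) (y' p))
  have hal : DifferentiableOn ℂ al Ω := differentiableOn_pi.2 fun o => by
    rcases o with _ | i | i
    exacts [b5.cexp, differentiableOn_pi.1 b2 i, differentiableOn_pi.1 b4 i]
  have ode : ∀ p ∈ Ω, ∀ l s,
      eval (al p) c * fderiv ℂ (fun q => al q s) p (uv l) = eval (al p) (U l s) := by
    intro p hp l s
    rw [h2 (al p) (fun s => fderiv ℂ (fun q => al q s) p (uv l)) (b7 p hp).1 (fun g hg => by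
      rw [← fderiv_eval_comp (hal.differentiableAt (b1.mem_nhds hp)),
        word_fd (g := fun _ => 0) b1 hp fun q hq => (b7 q hq).1 g hg]
      simp) s, map_sum]
    refine Finset.sum_congr rfl fun i _ => ?_
    rw [map_mul]
    congr 1
    refine (word_sum A v j₀ i (al p) _).trans ?_
    rw [word_rho]
    split_ifs with hi
    · rw [map_mul, eval_X, eval_C]
      exact word_on b1 hp (differentiableOn_pi.1 b3 i) (c₀ i) i
        (fun q hq => (b7 q hq).2.2.1 i hi) (fun q hq => (b7 q hq).2.2.2.1 i hi) _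
    · rw [eval_C]
      exact word_off b1 hp (differentiableOn_pi.1 b2 i) (differentiableOn_pi.1 b2 j₀) _ _ _ _ i j₀
        (fun q hq => (b7 q hq).2.2.2.2 i hi) (fun q hq => (b7 q hq).2.2.2.2 j₀ hjA) _
  have r1 := fun p hp => s3 (al p) L b6 (b7 p hp).1 ((b7 p hp).2.1.subset Finset.subset_union_left)
  have r2 := fun p hp => t3 (al p) L b6 (b7 p hp).1 ((b7 p hp).2.1.subset Finset.subset_union_right)
  have r0 : ∀ p ∈ Ω, eval (al p) (c * (c * X none)) ≠ 0 := fun p hp =>
    norm_pos_iff.1 ((Real.exp_pos _).trans_le (r1 p hp).1)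
  refine ⟨_, ⟨((differentiable_dz m).comp_differentiableOn b2).sub b5, _, fun p hp => ?_,
    hch Ω al uv b1 hal fun p hp => ⟨r0 p hp, ode p hp⟩⟩, fun p hp => ?_⟩
  · have hp' := b1.mem_nhds hp
    have e1 := (b5.differentiableAt hp').hasFDerivAt
    have e2 := fun i => ((differentiableOn_pi.1 b2 i).differentiableAt hp').hasFDerivAt
    have e3 := (HasFDerivAt.fun_sum (u := Finset.univ) fun i _ =>
      (e2 i).const_mul (m i : ℂ)).fun_sub e1
    have e4 : fderiv ℂ (fun q => al q none) p = _ := e1.cexp.fderiv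
    have e5 : eval (al p) c ≠ 0 := fun h => r0 p hp (by rw [map_mul, h, zero_mul])
    have e6 := Complex.exp_ne_zero (lb p)
    have e7 : al p none = Complex.exp (lb p) := rfl
    have e8 : ∀ i, (fun q => al q (some (.inl i))) = fun q => ζ q i := fun _ => rfl
    rw [show fderiv ℂ (fun p => dz m (ζ p) - lb p) p = _ from e3.fderiv]
    simp only [f₁, map_sub, map_mul, map_sum, eval_X, eval_C, ← ode p hp, e4, e7, e8,
      sub_apply, sum_apply, smul_apply,
      smul_eq_mul]
    field_simp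
    simp only [Finset.sum_mul, sub_mul]
    congr 1
    exact Finset.sum_congr rfl fun i _ => by ring
  · have q1 := pow_le_pow_left₀ (Real.exp_pos _).le (r1 p hp).1 e
    have q2 := pow_le_pow_left₀ (norm_nonneg _) (r1 p hp).2 e
    rw [← Real.exp_nat_mul] at q1 q2
    have q0 := (Real.exp_pos _).trans_le q1
    rw [norm_div, map_pow, norm_pow, le_div_iff₀ q0, div_le_iff₀ q0]
    constructor
    · refine le_trans ?_ (r2 p hp).1
      refine (mul_le_mul_of_nonneg_left q2 (Real.exp_pos _).le).trans_eq ?_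
      rw [← Real.exp_add]; congr 1; ring
    · refine (r2 p hp).2.trans ?_
      refine le_trans (le_of_eq ?_) (mul_le_mul_of_nonneg_left q1 (Real.exp_pos _).le)
      rw [← Real.exp_add]; congr 1; ring

end Pool.Agent.P.MP_d2ed07_lc
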