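import Pool.Agent.P.MP_d2ed07_lc.Basic2

/-! A lower bound for exponential sums along a curve. -/

namespace Pool.Agent.P.MP_d2ed07_lc

open MvPolynomial Metric Filter Topology

variable {n : ℕ} {F : Type} [Field F] [Algebra ℂ F]

theorem wrm_trans {z : Fin n → F} (h : Free z) {m : Fin n → ℤ} (hm : m ≠ 0) :
    Transcendental ℂ (dz m z) := fun ha => by
  obtain ⟨c, hc⟩ := minpoly.mem_range_of_degree_eq_one ℂ _
    (IsAlgClosed.degree_eq_one_of_irreducible ℂ (minpoly.irreducible ha.isIntegral))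
  exact h m hm c hc.symm

/-- the constants of one derivation -/
def wrm_C (d : Derivation ℂ F F) : IntermediateField ℂ F where
  carrier := {a | d a = 0}
  mul_mem' {a b} (ha : d a = 0) (hb : d b = 0) := by
    rw [Set.mem_ofPred_eq, d.leibniz, ha, hb]; simp
  add_mem' {a b} (ha : d a = 0) (hb : d b = 0) := by
    rw [Set.mem_ofPred_eq, map_add, ha, hb, add_zero]
  algebraMap_mem' c := d.map_algebraMap c
  inv_mem' a (ha : d a = 0) := by rw [Set.mem_ofPred_eq, d.leibniz_inv, ha, smul_zero]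

theorem wrm_kill (h1 : Algebra.trdeg ℂ F ≤ 1) {t : F} (ht : Transcendental ℂ t)
    (d : Derivation ℂ F F) (hd : d t = 0) : d = 0 := by
  ext x
  have hx : IsAlgebraic (wrm_C d) x := by
    by_contra hx
    have i1 : Algebra.Transcendental (wrm_C d) F := ⟨x, hx⟩
    have i2 : Algebra.Transcendental ℂ (wrm_C d) :=
      ⟨⟨t, hd⟩, fun h => ht (h.algHom (wrm_C d).val)⟩
    have h2 := add_le_add (Cardinal.one_le_iff_pos.2 (trdeg_pos ℂ (wrm_C d)))
      (Cardinal.one_le_iff_pos.2 (trdeg_pos (wrm_C d) F))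
    rw [trdeg_add_eq ℂ (wrm_C d) (A := F)] at h2
    have h3 := h2.trans h1
    norm_cast at h3
  let d' : Derivation (wrm_C d) F F := Derivation.mk'
    { toFun := d
      map_add' := d.map_add
      map_smul' := fun c a => by
        have hc : d (c : F) = 0 := c.2
        rw [RingHom.id_apply, IntermediateField.smul_def, IntermediateField.smul_def, smul_eq_mul,
          d.leibniz, hc, smul_zero, add_zero] } d.leibniz
  have : CharZero F := charZero_of_injective_algebraMap (algebraMap ℂ F).injective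
  have h2 := d'.map_aeval (minpoly (wrm_C d) x) x
  rw [minpoly.aeval, map_zero, smul_eq_mul] at h2
  exact (mul_eq_zero.1 h2.symm).resolve_left
    ((minpoly.irreducible hx.isIntegral).separable.aeval_derivative_ne_zero (minpoly.aeval _ _))

theorem wrm_fg {z : Fin n → F} (ha : IntermediateField.adjoin ℂ (Set.range z) = ⊤) :
    (⊤ : IntermediateField ℂ F).FG :=
  ha ▸ IntermediateField.fg_adjoin_of_finite (Set.finite_range z)

theorem wrm_pderiv (m : Fin n → ℤ) (i : Fin n) : pderiv i (lform m) = C (m i : ℂ) := by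
  rw [lform, map_sum, Finset.sum_eq_single i]
  · rw [pderiv_C_mul, pderiv_X_self, mul_one]
  · intro j _ h
    rw [pderiv_C_mul, pderiv_X_of_ne h, mul_zero]
  · simp

theorem wrm_setup (hode : T_ODE) {z : Fin n → F} {l : Fin n → ℤ}
    (hg : IntermediateField.adjoin ℂ (Set.range z) = ⊤) (h1 : Algebra.trdeg ℂ F ≤ 1)
    (ht : Transcendental ℂ (dz l z)) : ∃ (c₀ : MP n) (D : MP n → MP n), aeval z c₀ ≠ 0 ∧
      (∀ (d : Derivation ℂ F F) g, aeval z c₀ * d (aeval z g) = aeval z (D g) * d (dz l z)) ∧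
      ∀ (ζ : ℂ → Cn n) (s₀ : ℂ) (ρ : ℝ), DifferentiableOn ℂ ζ (ball s₀ ρ) →
        (∀ s ∈ ball s₀ ρ, Loc z (ζ s) ∧ dz l (ζ s) = s ^ 3) → ∀ s ∈ ball s₀ ρ, ∀ g, ∃ g',
          HasDerivAt (fun s => eval (ζ s) g) g' s ∧
            eval (ζ s) c₀ * g' = 3 * s ^ 2 * eval (ζ s) (D g) := by
  have e : ∀ d : Derivation ℂ F F,
      ∑ s, aeval z (C (l s : ℂ) : MP n) * d (z s) = d (dz l z) := fun d => by
    rw [← aeval_lform, deriv_aeval]
    exact Finset.sum_congr rfl fun s _ => by rw [wrm_pderiv, mul_comm]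
  obtain ⟨c₀, ν, h2, h3, h4⟩ := hode F (Fin n) Unit z (fun _ s => C (l s : ℂ)) hg
    fun d hd => wrm_kill h1 ht d ((e d).symm.trans (hd ()))
  refine ⟨c₀, fun g => ∑ s, ν s () * pderiv s g, h2, fun d g => ?_, fun ζ s₀ ρ hζ h s hs g => ?_⟩
  · rw [deriv_aeval, Finset.mul_sum, map_sum, Finset.sum_mul]
    refine Finset.sum_congr rfl fun s _ => ?_
    rw [← mul_assoc, h3, Fintype.sum_unique, e, map_mul]
    ring
  · have hn := isOpen_ball.mem_nhds hs
    have hd := hζ.differentiableAt hn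
    have h5 : ∑ i, eval (ζ s) (C (l i : ℂ) : MP n) * fderiv ℂ (fun q => ζ q i) s 1 =
        3 * s ^ 2 := by
      have h6 := fderiv_eval_comp hd (lform l) 1
      have h7 : (fun q => eval (ζ q) (lform l)) =ᶠ[𝓝 s] fun q => q ^ 3 := by
        filter_upwards [hn] with q hq
        rw [eval_lform, (h q hq).2]
      rw [h7.fderiv_eq, fderiv_apply_one_eq_deriv] at h6
      simp only [wrm_pderiv] at h6
      refine (Finset.sum_congr rfl fun i _ => mul_comm _ _).trans (h6.symm.trans ?_)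
      simp
    have h6 := h4 (ζ s) (fun i => fderiv ℂ (fun q => ζ q i) s 1) (h s hs).1 fun g hg => by
      have h7 : (fun q => eval (ζ q) g) =ᶠ[𝓝 s] fun _ => 0 := by
        filter_upwards [hn] with q hq
        exact (h q hq).1 g hg
      rw [← fderiv_eval_comp hd g 1, h7.fderiv_eq]
      simp
    refine ⟨_, ((differentiable_eval g).differentiableAt.comp s hd).hasDerivAt, ?_⟩
    change _ * deriv (fun q => eval (ζ q) g) s = _
    rw [← fderiv_apply_one_eq_deriv, fderiv_eval_comp hd g 1, Finset.mul_sum, map_sum,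
      Finset.mul_sum]
    refine Finset.sum_congr rfl fun i _ => ?_
    rw [← mul_assoc, h6, Fintype.sum_unique, h5, map_mul]
    ring

theorem wrm_up (htal1 : T_TAL1) {z : Fin n → F} {l : Fin n → ℤ} (h1 : Algebra.trdeg ℂ F ≤ 1)
    (ht : Transcendental ℂ (dz l z)) (g : MP n) : ∃ (C : ℕ) (R : ℝ), ∀ (s₀ s : ℂ) (ξ : Cn n),
      R ≤ ‖s₀‖ → ‖s - s₀‖ ≤ 1 → Loc z ξ → dz l ξ = s ^ 3 → ‖eval ξ g‖ ≤ ‖s₀‖ ^ C := by
  by_cases hg : aeval z g = 0
  · exact ⟨0, 0, fun s₀ s ξ _ _ h _ => by rw [h g hg]; simp⟩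
  obtain ⟨C, R, h⟩ := htal1 n F z l g h1 ht hg
  refine ⟨6 * C, max R 1 + 1, fun s₀ s ξ h2 h3 h4 h5 => ?_⟩
  have h6 := abs_le.1 ((abs_norm_sub_norm_le s s₀).trans h3)
  have h7 := le_max_left R 1
  have h8 := le_max_right R 1
  have h9 : 1 ≤ ‖s‖ := by linarith
  have h10 : ‖s‖ ≤ ‖s‖ ^ 3 := le_self_pow₀ h9 (by norm_num)
  refine (h ξ h4 (by rw [h5, norm_pow]; linarith)).2.trans ?_
  rw [h5, norm_pow, pow_mul]
  refine pow_le_pow_left₀ (by positivity) ?_ _
  rw [show 6 = 2 * 3 from rfl, pow_mul]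
  exact pow_le_pow_left₀ (by positivity) (by nlinarith) _

theorem wrm_ne (hros : T_ROS) (hder1 : T_DER1) {z : Fin n → F} {t : F}
    (hfg : (⊤ : IntermediateField ℂ F).FG) (hf : Free z) {c₀ : MP n} {D : MP n → MP n}
    (h0 : aeval z c₀ ≠ 0)
    (h : ∀ (d : Derivation ℂ F F) g, aeval z c₀ * d (aeval z g) = aeval z (D g) * d t)
    {p q : MP n} (hp : aeval z p ≠ 0) (hq : aeval z q ≠ 0) {a b : Fin n → ℤ} (hab : a ≠ b) :
    aeval z (q * D p - p * D q + p * q * (D (lform a) - D (lform b))) ≠ 0 := by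
  intro h1
  have e : dz (b - a) z = dz b z - dz a z := by
    rw [sub_eq_add_neg, dz_add_left, dz_neg_left, sub_eq_add_neg]
  have h2 : ∀ d : Derivation ℂ F F,
      d (aeval z p / aeval z q) / (aeval z p / aeval z q) = d (dz (b - a) z) := fun d => by
    have a1 := h d p
    have a2 := h d q
    have a3 := h d (lform a)
    have a4 := h d (lform b)
    rw [aeval_lform] at a3 a4
    simp only [map_add, map_sub, map_mul] at h1
    rw [e, map_sub, d.leibniz_div, smul_eq_mul, smul_eq_mul, smul_eq_mul]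
    field_simp
    refine mul_left_cancel₀ h0 ?_
    linear_combination aeval z q * a1 - aeval z p * a2 + aeval z p * aeval z q * (a3 - a4) +
      d t * h1
  have h3 := hros ℂ F hfg Unit (fun _ => 1) (fun _ => aeval z p / aeval z q) (dz (b - a) z)
    (linearIndependent_unique_iff.2 one_ne_zero) (fun _ => div_ne_zero hp hq)
    (fun d => by rw [Fintype.sum_unique, map_one, one_mul, h2]) ()
  obtain ⟨d, hd⟩ := hder1 ℂ F hfg _ (wrm_trans hf (sub_ne_zero.2 hab.symm))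
  rw [← h2, h3 d, zero_div] at hd
  exact zero_ne_one hd

theorem wrm_num {X B B' u v r ρ : ℝ} {C₁ C₂ : ℕ} (hr : 2 ≤ r) (hρ : 0 < ρ) (hρ1 : ρ ≤ 1)
    (hX : X = r / ρ) (hB : 0 ≤ B) (hu : u ≤ r ^ C₁) (hv : v ≤ r ^ C₂)
    (h : B' ≤ u * (4 * B / ρ) + v * B) : B' ≤ X ^ (C₁ + C₂ + 4) * B := by
  have h1 : r ≤ X := by rw [hX, le_div_iff₀ hρ]; nlinarith
  have h2 : 1 / ρ ≤ X := by rw [hX]; exact div_le_div_of_nonneg_right (by linarith) hρ.le
  have h3 : 1 ≤ X := by linarith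
  have h4 : u ≤ X ^ (C₁ + C₂) := hu.trans ((pow_le_pow_left₀ (by linarith) h1 _).trans
    (pow_le_pow_right₀ h3 (Nat.le_add_right _ _)))
  have h5 : v ≤ X ^ (C₁ + C₂) := hv.trans ((pow_le_pow_left₀ (by linarith) h1 _).trans
    (pow_le_pow_right₀ h3 (Nat.le_add_left _ _)))
  have h6 : 4 * B / ρ ≤ 4 * X * B := by
    rw [show 4 * B / ρ = 4 * (1 / ρ) * B by ring]
    gcongr
  have h7 : 4 * X + 1 ≤ X ^ 4 := by
    have : 2 ≤ X := by linarith
    have h8 : 8 ≤ X ^ 3 := le_trans (by norm_num) (pow_le_pow_left₀ (by norm_num) this 3)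
    nlinarith
  have h8 : 0 ≤ X ^ (C₁ + C₂) := by positivity
  calc B' ≤ X ^ (C₁ + C₂) * (4 * X * B) + X ^ (C₁ + C₂) * B := h.trans (add_le_add
        (mul_le_mul h4 h6 (by positivity) h8) (mul_le_mul_of_nonneg_right h5 hB))
    _ = X ^ (C₁ + C₂) * (4 * X + 1) * B := by ring
    _ ≤ X ^ (C₁ + C₂) * X ^ 4 * B := by gcongr
    _ = _ := by rw [pow_add X (C₁ + C₂)]

theorem t_wrm (hode : T_ODE) (hros : T_ROS) (hder1 : T_DER1) (htal1 : T_TAL1) (hcl : T_CL) :
    T_WRM := by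
  intro n F _ _ z l Su c a₀ hg h1 hf hl ha₀ hc
  have ht := wrm_trans hf hl
  obtain ⟨c₀, D, h0, hD, hζD⟩ := wrm_setup hode hg h1 ht
  induction Su using Finset.strongInduction generalizing c with
  | H Su ih =>
  by_cases hA : ∀ a ∈ Su, a = a₀
  · obtain rfl : Su = {a₀} := Finset.eq_singleton_iff_unique_mem.2 ⟨ha₀, hA⟩
    obtain ⟨C, R, h⟩ := htal1 n F z l _ h1 ht (hc a₀ ha₀)
    refine ⟨3 * C, max R 1, fun ζ s₀ ρ B h2 hρ hρ1 _ h3 => ?_⟩
    obtain ⟨h4, h5, h6⟩ := h3 s₀ (mem_ball_self hρ)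
    have h7 : 1 ≤ ‖s₀‖ := (le_max_right _ _).trans h2
    have h8 := (h _ h4 (by
      rw [h5, norm_pow]
      exact ((le_max_left _ _).trans h2).trans (le_self_pow₀ h7 (by norm_num)))).1
    rw [h5, norm_pow, ← pow_mul] at h8
    rw [Finset.sum_singleton, norm_mul, Complex.norm_exp] at h6
    have h9 : ‖s₀‖ ≤ ‖s₀‖ / ρ := by rw [le_div_iff₀ hρ]; nlinarith
    calc _ ≤ ‖s₀‖ ^ (3 * C) * ‖eval (ζ s₀) (c a₀)‖ * Real.exp (dz a₀ (ζ s₀)).re :=
          le_mul_of_one_le_left (Real.exp_pos _).le h8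
      _ ≤ ‖s₀‖ ^ (3 * C) * B := by rw [mul_assoc]; gcongr
      _ ≤ _ := mul_le_mul_of_nonneg_right (pow_le_pow_left₀ (norm_nonneg _) h9 _)
          (le_trans (by positivity) h6)
  push Not at hA
  obtain ⟨b, hb, hne⟩ := hA
  obtain ⟨C, R, h⟩ := ih _ (Finset.erase_ssubset hb)
    (fun a => c b * D (c a) - c a * D (c b) + c a * c b * (D (lform a) - D (lform b)))
    (Finset.mem_erase.2 ⟨hne.symm, ha₀⟩) fun a ha => wrm_ne hros hder1 (wrm_fg hg) hf h0 hD
      (hc a (Finset.mem_of_mem_erase ha)) (hc b hb) (Finset.ne_of_mem_erase ha)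
  obtain ⟨C₁, R₁, u1⟩ := wrm_up htal1 h1 ht (c₀ * c b)
  obtain ⟨C₂, R₂, u2⟩ := wrm_up htal1 h1 ht (D (c b) + c b * D (lform b))
  refine ⟨2 * C + (C₁ + C₂ + 4), max (max R 2) (max R₁ R₂), fun ζ s₀ ρ B h2 hρ hρ1 hζ h3 => ?_⟩
  simp only [max_le_iff] at h2
  have hB : 0 ≤ B := (norm_nonneg _).trans (h3 s₀ (mem_ball_self hρ)).2.2
  have hsub : ball s₀ (ρ / 2) ⊆ ball s₀ ρ := ball_subset_ball (half_le_self hρ.le)
  have key : ∀ s ∈ ball s₀ ρ, ∃ Φ', HasDerivAt
      (fun s => ∑ a ∈ Su, eval (ζ s) (c a) * Complex.exp (dz a (ζ s))) Φ' s ∧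
      eval (ζ s) c₀ * Φ' = 3 * s ^ 2 *
        ∑ a ∈ Su, eval (ζ s) (D (c a) + c a * D (lform a)) * Complex.exp (dz a (ζ s)) := by
    intro s hs
    choose g' k1 k2 using hζD ζ s₀ ρ hζ (fun s hs => ⟨(h3 s hs).1, (h3 s hs).2.1⟩) s hs
    refine ⟨_, HasDerivAt.fun_sum fun a _ => (k1 (c a)).fun_mul
      (by simpa only [eval_lform] using (k1 (lform a)).cexp), ?_⟩
    rw [Finset.mul_sum, Finset.mul_sum]
    refine Finset.sum_congr rfl fun a _ => ?_
    rw [map_add, map_mul]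
    linear_combination Complex.exp (dz a (ζ s)) * k2 (c a) +
      eval (ζ s) (c a) * Complex.exp (dz a (ζ s)) * k2 (lform a)
  have d1 := (hcl _ _ _ s₀ ρ B hρ (fun s hs => by
    obtain ⟨_, k, -⟩ := key s hs
    exact k.differentiableAt.differentiableWithinAt) fun s hs => (h3 s hs).2.2).1
  have h4 := h ζ s₀ (ρ / 2) ((‖s₀‖ / ρ) ^ (C₁ + C₂ + 4) * B) h2.1.1 (half_pos hρ) (by linarith)
    (hζ.mono hsub) fun s hs => by
      obtain ⟨k1, k2, k3⟩ := h3 s (hsub hs)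
      refine ⟨k1, k2, ?_⟩
      obtain ⟨Φ', k4, k5⟩ := key s (hsub hs)
      have k6 := d1 s hs
      rw [← norm_deriv_eq_norm_fderiv, k4.deriv] at k6
      have k7 : ‖s - s₀‖ ≤ 1 := (mem_ball_iff_norm.1 (hsub hs)).le.trans hρ1
      have k8 : 1 ≤ ‖s‖ := by linarith [(abs_le.1 ((abs_norm_sub_norm_le s s₀).trans k7)).1, h2.1.2]
      have k9 : 1 ≤ ‖3 * s ^ 2‖ := by
        rw [norm_mul, norm_pow, Complex.norm_ofNat]
        nlinarith
      have k10 : 3 * s ^ 2 ≠ 0 := norm_pos_iff.1 (by linarith)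
      refine wrm_num h2.1.2 hρ hρ1 rfl hB (u1 s₀ s _ h2.2.1 k7 k1 k2) (u2 s₀ s _ h2.2.2 k7 k1 k2) ?_
      have e : ∑ a ∈ Su.erase b, eval (ζ s) (c b * D (c a) - c a * D (c b) +
          c a * c b * (D (lform a) - D (lform b))) * Complex.exp (dz a (ζ s)) =
          eval (ζ s) (c₀ * c b) * Φ' / (3 * s ^ 2) - eval (ζ s) (D (c b) + c b * D (lform b)) *
            ∑ a ∈ Su, eval (ζ s) (c a) * Complex.exp (dz a (ζ s)) := by
        rw [Finset.sum_erase _ (by simp [mul_comm]), map_mul, mul_right_comm, k5, mul_assoc,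
          mul_div_cancel_left₀ _ k10, Finset.sum_mul, Finset.mul_sum, ← Finset.sum_sub_distrib]
        refine Finset.sum_congr rfl fun a _ => ?_
        simp only [map_add, map_sub, map_mul]
        ring
      rw [e]
      refine (norm_sub_le _ _).trans (add_le_add ?_ ?_)
      · rw [norm_div, norm_mul]
        exact (div_le_self (by positivity) k9).trans (mul_le_mul_of_nonneg_left k6 (norm_nonneg _))
      · rw [norm_mul]
        exact mul_le_mul_of_nonneg_left k3 (norm_nonneg _)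
  refine h4.trans ?_
  have h5 : 2 ≤ ‖s₀‖ / ρ := by rw [le_div_iff₀ hρ]; nlinarith [h2.1.2]
  rw [pow_add _ (2 * C), mul_assoc, pow_mul]
  refine mul_le_mul_of_nonneg_right (pow_le_pow_left₀ (by positivity) ?_ _) (by positivity)
  rw [show ‖s₀‖ / (ρ / 2) = 2 * (‖s₀‖ / ρ) by field_simp]
  nlinarith

end Pool.Agent.P.MP_d2ed07_lc
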