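import Pool.Agent.P.MP_d2ed07_lc.All
import Pool.Agent.P.MP_d2ed07_lc.CASE3A
import Pool.Agent.P.MP_d2ed07_lc.CASE2A
import Pool.Agent.P.MP_d2ed07_lc.DISC
import Pool.Agent.P.MP_d2ed07_lc.ROOTW
import Pool.Agent.P.MP_d2ed07_lc.WORD
import Pool.Agent.P.MP_d2ed07_lc.JAC
import Pool.Agent.P.MP_d2ed07_lc.ALGW
import Pool.Agent.P.MP_d2ed07_lc.B3
import Pool.Agent.P.MP_d2ed07_lc.COORD
import Pool.Agent.P.MP_d2ed07_lc.ASC2
import Pool.Agent.P.MP_d2ed07_lc.AENG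
import Pool.Agent.P.MP_d2ed07_lc.LOCTA
import Pool.Agent.P.MP_d2ed07_lc.SH2
import Pool.Agent.P.MP_d2ed07_lc.SH2A
import Pool.Agent.P.MP_d2ed07_lc.CONE2A
import Pool.Agent.P.MP_d2ed07_lc.HOM2
import Pool.Agent.P.MP_d2ed07_lc.CASE1A
import Pool.Agent.P.MP_d2ed07_lc.PFIX
import Pool.Agent.P.MP_d2ed07_lc.ALGB
import Pool.Agent.P.MP_d2ed07_lc.BALL
import Pool.Agent.P.MP_d2ed07_lc.FIBA
import Pool.Agent.P.MP_d2ed07_lc.EXTZ
import Pool.Agent.P.MP_d2ed07_lc.SQF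
import Pool.Agent.P.MP_d2ed07_lc.FINF
import Pool.Agent.P.MP_d2ed07_lc.DIFF
import Pool.Agent.P.MP_d2ed07_lc.ODE
import Pool.Agent.P.MP_d2ed07_lc.RAB2
import Pool.Agent.P.MP_d2ed07_lc.DOM
import Pool.Agent.P.MP_d2ed07_lc.MMA
import Pool.Agent.P.MP_d2ed07_lc.PAR1
import Pool.Agent.P.MP_d2ed07_lc.WRM
import Pool.Agent.P.MP_d2ed07_lc.MMB
import Pool.Agent.P.MP_d2ed07_lc.T2
import Pool.Agent.P.MP_d2ed07_lc.EC3

/-! All steps of the second part, without hypotheses. -/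

namespace Pool.Agent.P.MP_d2ed07_lc

theorem a_lin : T_LIN := t_lin a_ros a_der1
theorem a_algw : T_ALGW := t_algw a_lin a_der1
theorem a_coord : T_COORD := t_coord a_trans
theorem a_asc2 : T_ASC2 := t_asc2 a_bc a_lim a_two a_trop a_pick a_pers
theorem a_aeng : T_AENG := t_aeng a_bc a_asc2
theorem a_locta : T_LOCTA := t_locta a_tame a_sheet a_cop a_plow a_grow a_grow1
theorem a_sh2 : T_SH2 := t_sh2 a_locta a_minmod
theorem a_sh2a : T_SH2A := t_sh2a a_sh2 a_cl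
theorem a_sh2b : T_SH2B := t_sh2b a_sh2
theorem a_cone2a : T_CONE2A := t_cone2a a_cl a_imag
theorem a_hom2 : T_HOM2 := t_hom2
theorem a_hyp2 : T_HYP2 := t_hyp2
theorem a_case1a : T_CASE1A := t_case1a a_scale a_hur
theorem a_pfix : T_PFIX := t_pfix a_fix
theorem a_elim : T_ELIM := t_elim a_pfix a_bc
theorem a_uniq : T_UNIQ := t_uniq
theorem a_rb : T_RB := t_rb
theorem a_tal : T_TAL := t_tal a_rel1 a_rb
theorem a_algb : T_ALGB := t_algb a_tal a_uniq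
theorem a_half2 : T_HALF2 := t_half2 a_half
theorem a_ball : T_BALL := t_ball a_cl a_half2 a_grow1 a_tame
theorem a_parf : T_PARF := t_parf
theorem a_extz : T_EXTZ := t_extz
theorem a_trc : T_TRC := t_trc
theorem a_liftp : T_LIFTP := t_liftp a_extz
theorem a_tdk : T_TDK := t_tdk
theorem a_sqf : T_SQF := t_sqf
theorem a_finf : T_FINF := t_finf a_bc a_fix
theorem a_hj : T_HJ := t_hj
theorem a_diff : T_DIFF := t_diff
theorem a_cau : T_CAU := t_cau a_cl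
theorem a_ident : T_IDENT := t_ident
theorem a_ode : T_ODE := t_ode a_du
theorem a_chain : T_CHAIN := t_chain
theorem a_rab2 : T_RAB2 := t_rab2 a_rel1
theorem a_mfs : T_MFS := t_mfs a_trans
theorem a_dom : T_DOM := t_dom a_dens
theorem a_s2 : T_S2 := t_s2 a_hyp2
theorem a_ht1 : T_HT1 := t_ht1
theorem a_mma : T_MMA := t_mma a_ht1
theorem a_tal1 : T_TAL1 := t_tal1 a_rb
theorem a_par1 : T_PAR1 := t_par1 a_sheet
theorem a_wrm : T_WRM := t_wrm a_ode a_ros a_der1 a_tal1 a_cl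
theorem a_harn : T_HARN := t_harn
theorem a_cara : T_CARA := t_cara
theorem a_mmb : T_MMB := t_mmb a_par1 a_tal1 a_wrm a_harn a_cara a_log a_cl
theorem a_case2a : T_CASE2A :=
  t_case2a a_vrel a_vtrop a_adapt a_r2 a_strip a_relv a_algb a_elim a_aeng
theorem a_jac : T_JAC := t_jac a_as a_der2 a_tdk
theorem a_surj : T_SURJ := t_surj a_extz a_trc
theorem a_fiba : T_FIBA := t_fiba a_parf a_surj a_lift a_grow1
theorem a_fin3 : T_FIN3 := t_fin3 a_fiba a_algb a_finf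
theorem a_mm : T_MM := t_mm a_mma a_mmb
theorem a_word : T_WORD := t_word a_jac a_algw a_ode a_chain a_tal
theorem a_rootw : T_ROOTW := t_rootw a_word a_ident
theorem a_disc : T_DISC := t_disc a_rootw a_sheet a_log a_uniq a_hj a_diff a_cau a_relv a_bc a_rb
theorem a_case3a : T_CASE3A := t_case3a a_r2 a_fin3 a_sqf a_disc a_ball a_algb a_elim a_cl
theorem a_t2 : T_T2 :=
  t_t2 a_coord a_ray a_span a_r2 a_hom2 a_case1a a_cone1 a_cone2a a_sh2a a_sh2b a_case2a a_case3a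
theorem a_dens2 : T_DENS2 := t_dens2 a_rab2 a_slice a_curv a_mfs a_t2
theorem a_b3 : T_B3 := t_b3 a_coord a_dens2 a_s2 a_tdk a_hyp2 a_liftp a_trc
theorem a_ec3 : T_EC3 := t_ec3 a_dom a_ht1 a_dens2 a_b3 a_mm

end Pool.Agent.P.MP_d2ed07_lc
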