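import Pool.Agent.P.MP_d2ed07_lc.Iface

/-!
Small toolbox.
-/

namespace Pool.Agent.P.MP_d2ed07_lc

open MvPolynomial Metric

variable {n : ℕ}

section dz
variable {R : Type} [CommRing R]

theorem dz_add (m : Fin n → ℤ) (x x' : Fin n → R) : dz m (x + x') = dz m x + dz m x' := by
  simp [dz, mul_add, Finset.sum_add_distrib]
theorem dz_sub (m : Fin n → ℤ) (x x' : Fin n → R) : dz m (x - x') = dz m x - dz m x' := by
  simp [dz, mul_sub, Finset.sum_sub_distrib]
theorem dz_smul (m : Fin n → ℤ) (c : R) (x : Fin n → R) : dz m (c • x) = c * dz m x := by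
  simp [dz, Finset.mul_sum, mul_left_comm]
theorem dz_neg_left (m : Fin n → ℤ) (x : Fin n → R) : dz (-m) x = -dz m x := by
  simp [dz]
theorem dz_add_left (m m' : Fin n → ℤ) (x : Fin n → R) : dz (m + m') x = dz m x + dz m' x := by
  simp [dz, add_mul, Finset.sum_add_distrib]
theorem dz_smul_left (c : ℤ) (m : Fin n → ℤ) (x : Fin n → R) : dz (c • m) x = c * dz m x := by
  simp [dz, Finset.mul_sum, mul_assoc]
theorem dz_single_left (i : Fin n) (x : Fin n → R) : dz (Pi.single i 1) x = x i := by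
  simp [dz, Pi.single_apply]
theorem dz_single (m : Fin n → ℤ) (i : Fin n) : dz m (Pi.single i (1 : R)) = m i := by
  simp [dz, Pi.single_apply]
end dz

theorem dz_cZ (m k : Fin n → ℤ) : dz m (cZ k) = ((dz m k : ℤ) : ℂ) := by simp [dz, cZ]
theorem dz_cQ (m : Fin n → ℤ) (v : Fin n → ℚ) : dz m (cQ v) = ((dz m v : ℚ) : ℂ) := by
  simp [dz, cQ]
theorem dz_iR (m : Fin n → ℤ) (s : Fin n → ℝ) :
    dz m (iR s) = ((dz m s : ℝ) : ℂ) * Complex.I := by
  simp [dz, iR, Finset.sum_mul, mul_assoc]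
theorem re_dz (m : Fin n → ℤ) (w : Cn n) : (dz m w).re = dz m fun i => (w i).re := by
  simp [dz]
theorem norm_dz_le (m : Fin n → ℤ) (w : Cn n) : ‖dz m w‖ ≤ (∑ i, |(m i : ℝ)|) * ‖w‖ := by
  rw [Finset.sum_mul]
  refine (norm_sum_le _ _).trans (Finset.sum_le_sum fun i _ => ?_)
  rw [norm_mul, Complex.norm_intCast]
  exact mul_le_mul_of_nonneg_left (norm_le_pi_norm w i) (abs_nonneg _)
theorem norm_dr_le (ν : Fin n → ℝ) (w : Cn n) : ‖dr ν w‖ ≤ (∑ i, |ν i|) * ‖w‖ := by
  rw [Finset.sum_mul]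
  refine (norm_sum_le _ _).trans (Finset.sum_le_sum fun i _ => ?_)
  rw [norm_mul, Complex.norm_real, Real.norm_eq_abs]
  exact mul_le_mul_of_nonneg_left (norm_le_pi_norm w i) (abs_nonneg _)
theorem differentiable_dz (m : Fin n → ℤ) : Differentiable ℂ fun w : Cn n => dz m w := by
  unfold dz; fun_prop
theorem differentiable_dr (ν : Fin n → ℝ) : Differentiable ℂ fun w : Cn n => dr ν w := by
  unfold dr; fun_prop

theorem imag_iR (s : Fin n → ℝ) : Imag (iR s) := fun i => by simp [iR]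
theorem Imag.add {x x' : Cn n} (h : Imag x) (h' : Imag x') : Imag (x + x') := fun i => by
  simp [h i, h' i]
theorem Imag.smul {x : Cn n} (h : Imag x) (R : ℝ) : Imag ((R : ℂ) • x) := fun i => by
  simp [h i]
theorem iR_add (s s' : Fin n → ℝ) : iR (s + s') = iR s + iR s' := by
  funext i; simp [iR, add_mul]
theorem iR_neg (s : Fin n → ℝ) : iR (-s) = -iR s := by funext i; simp [iR]
theorem iR_smul (R : ℝ) (s : Fin n → ℝ) : iR (R • s) = (R : ℂ) • iR s := by
  funext i; simp [iR, mul_assoc]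
theorem norm_iR (s : Fin n → ℝ) : ‖iR s‖ = ‖s‖ := by
  simp [Pi.norm_def, iR]
theorem Imag.eq_iR {x : Cn n} (h : Imag x) : x = iR fun i => (x i).im := by
  funext i; apply Complex.ext <;> simp [iR, h i]

section mon
variable {F : Type} [Field F]
theorem mon_ne_zero {y : Fin n → F} (hy : ∀ i, y i ≠ 0) (m : Fin n → ℤ) : mon y m ≠ 0 :=
  Finset.prod_ne_zero_iff.2 fun i _ => zpow_ne_zero _ (hy i)
theorem mon_zero (y : Fin n → F) : mon y 0 = 1 := by simp [mon]
theorem mon_add {y : Fin n → F} (hy : ∀ i, y i ≠ 0) (m m' : Fin n → ℤ) :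
    mon y (m + m') = mon y m * mon y m' := by
  simp [mon, zpow_add₀ (hy _), Finset.prod_mul_distrib]
theorem mon_neg (y : Fin n → F) (m : Fin n → ℤ) : mon y (-m) = (mon y m)⁻¹ := by
  simp [mon]
theorem mon_smul (y : Fin n → F) (c : ℤ) (m : Fin n → ℤ) : mon y (c • m) = mon y m ^ c := by
  simp [mon, ← Finset.prod_zpow, ← zpow_mul, mul_comm]
theorem mon_single (y : Fin n → F) (i : Fin n) : mon y (Pi.single i 1) = y i := by
  rw [mon, Finset.prod_eq_single i] <;> simp +contextual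
end mon

theorem exp_dz (m : Fin n → ℤ) (w : Cn n) : Complex.exp (dz m w) = mon (ex w) m := by
  simp [dz, mon, ex, Complex.exp_sum, Complex.exp_int_mul]
theorem ex_ne_zero (w : Cn n) (i : Fin n) : ex w i ≠ 0 := Complex.exp_ne_zero _
theorem ex_add_int (w : Cn n) (k : Fin n → ℤ) :
    ex (w + (2 * Real.pi * Complex.I : ℂ) • cZ k) = ex w := by
  funext i
  simp only [ex, cZ, Pi.add_apply, Pi.smul_apply, smul_eq_mul, Complex.exp_add]
  rw [mul_comm _ (k i : ℂ), Complex.exp_int_mul_two_pi_mul_I, mul_one]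

theorem Tm.mono {S : Finset (MP n)} {L L' : ℝ} {x : Cn n} (h : Tm S L x) (hL : L ≤ L') :
    Tm S L' x := fun g hg =>
  ⟨(Real.exp_le_exp.2 (by linarith)).trans (h g hg).1, (h g hg).2.trans (Real.exp_le_exp.2 hL)⟩
theorem Tm.subset {S S' : Finset (MP n)} {L : ℝ} {x : Cn n} (h : Tm S L x) (hS : S' ⊆ S) :
    Tm S' L x := fun g hg => h g (hS hg)
theorem Tm.ne_zero {S : Finset (MP n)} {L : ℝ} {x : Cn n} (h : Tm S L x) {g : MP n}
    (hg : g ∈ S) : eval x g ≠ 0 :=
  norm_pos_iff.1 ((Real.exp_pos _).trans_le (h g hg).1)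
theorem Tm.abs_log {S : Finset (MP n)} {L : ℝ} {x : Cn n} (h : Tm S L x) {g : MP n}
    (hg : g ∈ S) : |Real.log ‖eval x g‖| ≤ L := by
  have h0 : 0 < ‖eval x g‖ := norm_pos_iff.2 (h.ne_zero hg)
  exact abs_le.2 ⟨(Real.le_log_iff_exp_le h0).2 (h g hg).1, (Real.log_le_iff_le_exp h0).2 (h g hg).2⟩
theorem Good.union {P : MP n} {S S' : Finset (MP n)} [DecidableEq (MP n)] (h : Good P S)
    (h' : Good P S') : Good P (S ∪ S') := fun g hg =>
  (Finset.mem_union.1 hg).elim (h g) (h' g)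

theorem convex_strip (θ ε : ℝ) : Convex ℝ (strip θ ε) := by
  have : strip θ ε = {l : ℂ | θ - ε < l.im} ∩ {l : ℂ | l.im < θ + ε} := by
    ext l; simp only [strip, Set.mem_ofPred_eq, Set.mem_inter_iff, abs_lt]
    constructor <;> rintro ⟨a, b⟩ <;> constructor <;> linarith
  rw [this]; exact (convex_halfSpace_im_gt _).inter (convex_halfSpace_im_lt _)
theorem isOpen_strip (θ ε : ℝ) : IsOpen (strip θ ε) :=
  isOpen_lt (by fun_prop) continuous_const
theorem convex_half (a : ℝ) : Convex ℝ (half a) := convex_halfSpace_re_gt a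
theorem isOpen_half (a : ℝ) : IsOpen (half a) := isOpen_lt continuous_const (by fun_prop)

theorem differentiable_eval {σ : Type} [Fintype σ] (g : MvPolynomial σ ℂ) :
    Differentiable ℂ fun x : σ → ℂ => eval x g := by
  induction g using MvPolynomial.induction_on with
  | C a => simp
  | add p q hp hq => simp only [map_add]; exact hp.add hq
  | mul_X p i hp => simp only [map_mul, eval_X]; exact hp.mul (differentiable_apply i)
theorem continuous_eval' {σ : Type} [Fintype σ] (g : MvPolynomial σ ℂ) :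
    Continuous fun x : σ → ℂ => eval x g := (differentiable_eval g).continuous

theorem ddir_add (u : Cn n) (p q : MP n) : ddir u (p + q) = ddir u p + ddir u q := by
  simp [ddir, mul_add, Finset.sum_add_distrib]
theorem ddir_mul (u : Cn n) (p q : MP n) : ddir u (p * q) = p * ddir u q + q * ddir u p := by
  simp only [ddir, Derivation.leibniz, smul_eq_mul, mul_add, Finset.sum_add_distrib,
    Finset.mul_sum]
  congr 1 <;> exact Finset.sum_congr rfl fun i _ => by ring
theorem ddir_C (u : Cn n) (a : ℂ) : ddir u (C a) = 0 := by simp [ddir]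
theorem ddir_X (u : Cn n) (i : Fin n) : ddir u (X i) = C (u i) := by
  classical
  simp [ddir, pderiv_X, Pi.single_apply]

/-- the derivative of a polynomial function is given by `ddir` -/
theorem hasFDerivAt_eval (g : MP n) (x : Cn n) :
    ∃ A : Cn n →L[ℂ] ℂ, HasFDerivAt (fun x => eval x g) A x ∧ ∀ u, A u = eval x (ddir u g) := by
  induction g using MvPolynomial.induction_on with
  | C a => exact ⟨0, by simpa using hasFDerivAt_const a x, fun u => by simp [ddir_C]⟩
  | add p q hp hq =>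
    obtain ⟨A, hA, hA'⟩ := hp
    obtain ⟨B, hB, hB'⟩ := hq
    exact ⟨A + B, by simp only [map_add]; exact hA.add hB, fun u => by simp [ddir_add, hA', hB']⟩
  | mul_X p i hp =>
    obtain ⟨A, hA, hA'⟩ := hp
    refine ⟨_, by simp only [map_mul, eval_X]; exact hA.mul (hasFDerivAt_apply (𝕜 := ℂ) i x),
      fun u => ?_⟩
    simp [ddir_mul, ddir_X, hA']
theorem fderiv_eval (g : MP n) (x u : Cn n) :
    fderiv ℂ (fun x => eval x g) x u = eval x (ddir u g) := by
  obtain ⟨A, hA, hA'⟩ := hasFDerivAt_eval g x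
  rw [hA.fderiv, hA']

theorem ev1_eq (x : Cn n) (β : ℂ) (h : P1 n) : ev1 x β h = (h.map (eval x)).eval β := by
  rw [ev1, Polynomial.eval₂_eq_eval_map]
theorem ev1_eq_sum (x : Cn n) (β : ℂ) (h : P1 n) {d : ℕ} (hd : h.natDegree ≤ d) :
    ev1 x β h = ∑ a ∈ Finset.range (d + 1), eval x (h.coeff a) * β ^ a := by
  rw [ev1, Polynomial.eval₂_eq_sum_range' _ (Nat.lt_succ_of_le hd)]
theorem coeff_sp2 (x : Cn n) (β : ℂ) (G : P2 n) (j : ℕ) :
    (sp2 x β G).coeff j = ev1 x β (G.coeff j) := by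
  simp [sp2, ev1]
theorem differentiableOn_ev1 {E : Type} [NormedAddCommGroup E] [NormedSpace ℂ E] {Ω : Set E}
    {ζ : E → Cn n} {b : E → ℂ} (hζ : DifferentiableOn ℂ ζ Ω) (hb : DifferentiableOn ℂ b Ω)
    (h : P1 n) : DifferentiableOn ℂ (fun x => ev1 (ζ x) (b x) h) Ω := by
  simp only [fun x => ev1_eq_sum (ζ x) (b x) h le_rfl]
  exact DifferentiableOn.fun_sum fun a _ =>
    ((differentiable_eval _).comp_differentiableOn hζ).mul (hb.pow a)

theorem lin_eval (v p : Cn n) (τ : ℂ) (g : MP n) : ev1 p τ (lin v g) = eval (p + τ • v) g := by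
  induction g using MvPolynomial.induction_on with
  | C a => simp [lin, ev1]
  | add p q hp hq => simp_all [lin, ev1, Polynomial.eval₂_add]
  | mul_X p i hp =>
    simp only [lin, ev1, map_mul, aeval_X, Polynomial.eval₂_mul, Polynomial.eval₂_add,
      Polynomial.eval₂_C, Polynomial.eval₂_X, eval_X, eval_C] at hp ⊢
    rw [hp]; simp [mul_comm]
theorem lin_mul (v : Cn n) (p q : MP n) : lin v (p * q) = lin v p * lin v q := map_mul _ _ _
theorem lin_add (v : Cn n) (p q : MP n) : lin v (p + q) = lin v p + lin v q := map_add _ _ _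
theorem derivative_lin (v : Cn n) (g : MP n) :
    Polynomial.derivative (lin v g) = lin v (ddir v g) := by
  induction g using MvPolynomial.induction_on with
  | C a => simp [lin, ddir_C]
  | add p q hp hq => rw [lin_add, map_add, hp, hq, ddir_add, lin_add]
  | mul_X p i hp =>
    rw [lin_mul, Polynomial.derivative_mul, hp, ddir_mul, lin_add, lin_mul, lin_mul, ddir_X]
    simp [lin]; ring
theorem coeff_lin_zero (v : Cn n) (g : MP n) : (lin v g).coeff 0 = g := by
  induction g using MvPolynomial.induction_on with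
  | C a => simp [lin]
  | add p q hp hq => rw [lin_add, Polynomial.coeff_add, hp, hq]
  | mul_X p i hp => rw [lin_mul, Polynomial.mul_coeff_zero, hp]; simp [lin]
theorem lin_ne_zero (v : Cn n) {g : MP n} (hg : g ≠ 0) : lin v g ≠ 0 := fun h =>
  hg (by rw [← coeff_lin_zero v g, h, Polynomial.coeff_zero])
theorem natDegree_lin_pos {v : Cn n} {g : MP n} : 0 < (lin v g).natDegree ↔ ddir v g ≠ 0 := by
  rw [Nat.pos_iff_ne_zero, ← Polynomial.derivative_ne_zero, derivative_lin]
  exact ⟨fun h h' => h (by rw [h']; simp [lin]), lin_ne_zero v⟩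
theorem not_dvd_ddir {v : Cn n} {P : MP n} (h : ddir v P ≠ 0) : ¬ P ∣ ddir v P := by
  rintro ⟨c, hc⟩
  have h1 := Polynomial.natDegree_derivative_lt (natDegree_lin_pos.2 h).ne'
  have h2 : lin v P ∣ Polynomial.derivative (lin v P) :=
    ⟨lin v c, by rw [derivative_lin, hc, lin_mul]⟩
  have := Polynomial.natDegree_le_of_dvd h2 (by rw [derivative_lin]; exact lin_ne_zero v h)
  omega
theorem Rou.ddir_ne_zero {P : MP n} {v p : Cn n} {c : ℂ} {σ : ℝ} (h : Rou P v p c σ) :
    ddir v P ≠ 0 := by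
  intro h0
  have h1 : (lin v P).natDegree = 0 := by
    by_contra h1; exact natDegree_lin_pos.1 (Nat.pos_of_ne_zero h1) h0
  obtain ⟨⟨τ, h2, h3⟩, h4⟩ := h
  have hσ : 0 ≤ σ := (norm_nonneg _).trans h2.le
  refine h4 (c + σ) (by simp [abs_of_nonneg hσ]) ?_
  rw [← lin_eval] at h3 ⊢
  rw [Polynomial.eq_C_of_natDegree_eq_zero h1] at h3 ⊢
  simpa [ev1] using h3

theorem eval_lform (m : Fin n → ℤ) (x : Cn n) : eval x (lform m) = dz m x := by
  simp [lform, dz]
theorem aeval_lform {F : Type} [Field F] [Algebra ℂ F] (m : Fin n → ℤ) (z : Fin n → F) :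
    aeval z (lform m) = dz m z := by
  simp [lform, dz]

theorem proj_add_smul {m k : Fin n → ℤ} (p : Cn n) : proj m k p + dz m p • cZ k = p := by
  simp [proj]
theorem dz_proj {m k : Fin n → ℤ} (h : dz m k = 1) (p : Cn n) : dz m (proj m k p) = 0 := by
  rw [proj, dz_sub, dz_smul, dz_cZ, h]; simp
theorem proj_of_dz {m k : Fin n → ℤ} {p : Cn n} (h : dz m p = 0) : proj m k p = p := by
  simp [proj, h]
theorem proj_add (m k : Fin n → ℤ) (p q : Cn n) :
    proj m k (p + q) = proj m k p + proj m k q := by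
  simp only [proj, dz_add, add_smul]; abel
theorem proj_sub (m k : Fin n → ℤ) (p q : Cn n) :
    proj m k (p - q) = proj m k p - proj m k q := by
  simp only [proj, dz_sub, sub_smul]; abel
theorem proj_smul (m k : Fin n → ℤ) (c : ℂ) (p : Cn n) :
    proj m k (c • p) = c • proj m k p := by
  simp only [proj, dz_smul, smul_sub, mul_smul]
theorem proj_cZ {m k : Fin n → ℤ} (h : dz m k = 1) : proj m k (cZ k) = 0 := by
  rw [proj, dz_cZ, h]; simp

/-- chain rule for derivations -/
theorem deriv_aeval {K F σ : Type} [Field K] [Field F] [Algebra K F] [Fintype σ]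
    (d : Derivation K F F) (a : σ → F) (g : MvPolynomial σ K) :
    d (aeval a g) = ∑ s, d (a s) * aeval a (pderiv s g) := by
  classical
  induction g using MvPolynomial.induction_on with
  | C c => simp
  | add p q hp hq => simp [hp, hq, mul_add, Finset.sum_add_distrib]
  | mul_X p i hp =>
    simp only [map_mul, aeval_X, Derivation.leibniz, smul_eq_mul, hp, pderiv_X, map_add, mul_add,
      Finset.sum_add_distrib, Finset.mul_sum, Pi.single_apply]
    congr 1
    · rw [Finset.sum_eq_single i] <;> simp +contextual [mul_comm, eq_comm]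
    · exact Finset.sum_congr rfl fun s _ => by ring
theorem expDer_ev {F : Type} [Field F] [Algebra ℂ F] {z y : Fin n → F} {d : Derivation ℂ F F}
    (hd : d ∈ expDer z y) (g : MP2 n) : d (ev z y g) = ∑ i, d (z i) * ev z y (del i g) := by
  have hd' : ∀ i, d (y i) = y i * d (z i) := hd
  rw [ev, deriv_aeval, Fintype.sum_sum_type, ← Finset.sum_add_distrib]
  refine Finset.sum_congr rfl fun i _ => ?_
  simp only [Sum.elim_inl, Sum.elim_inr, hd', ev, del, map_add, map_mul, aeval_X]; ring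

namespace Data
variable {F : Type} [Field F] [Algebra ℂ F] (D : Data n F)

theorem prime : Prime D.P := by
  refine ⟨D.hP0, fun h => ?_, fun a b h => ?_⟩
  · simpa using (D.hP 1).2 h.dvd
  · rw [← D.hP, map_mul, mul_eq_zero, D.hP, D.hP] at h; exact h
theorem exists_pt {S : Finset (MP n)} (hS : Good D.P S) :
    ∃ x : Cn n, eval x D.P = 0 ∧ ∀ g ∈ S, eval x g ≠ 0 := by
  by_contra hcon
  push Not at hcon
  have : (Ideal.span {D.P}).IsPrime := (Ideal.span_singleton_prime D.hP0).2 D.prime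
  have : ∏ g ∈ S, g ∈ Ideal.span {D.P} := by
    rw [← IsPrime.vanishingIdeal_zeroLocus (K := ℂ) (Ideal.span {D.P}), mem_vanishingIdeal_iff]
    intro x hx
    rw [mem_zeroLocus_iff] at hx
    obtain ⟨g, hg, h0⟩ := hcon x (hx _ (Ideal.mem_span_singleton_self _))
    rw [map_prod]
    exact Finset.prod_eq_zero hg h0
  obtain ⟨g, hg, h⟩ := Ideal.IsPrime.prod_mem_iff.1 this
  exact hS g hg (Ideal.mem_span_singleton.1 h)
theorem exists_tm {S : Finset (MP n)} (hS : Good D.P S) :
    ∃ (x : Cn n) (L : ℝ), 1 ≤ L ∧ eval x D.P = 0 ∧ Tm S L x := by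
  obtain ⟨x, hx, h⟩ := D.exists_pt hS
  refine ⟨x, 1 + ∑ g ∈ S, |Real.log ‖eval x g‖|,
    le_add_of_nonneg_right (Finset.sum_nonneg fun _ _ => abs_nonneg _), hx, fun g hg => ?_⟩
  have h0 : 0 < ‖eval x g‖ := norm_pos_iff.2 (h g hg)
  have h1 := abs_le.1 (Finset.single_le_sum (f := fun g => |Real.log ‖eval x g‖|)
    (fun _ _ => abs_nonneg _) hg)
  exact ⟨(Real.le_log_iff_exp_le h0).1 (by linarith [h1.1]),
    (Real.log_le_iff_le_exp h0).1 (by linarith [h1.2])⟩
theorem eval_of_dvd {x : Cn n} (hx : eval x D.P = 0) {g : MP n} (h : D.P ∣ g) : eval x g = 0 := by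
  obtain ⟨c, rfl⟩ := h; rw [map_mul, hx, zero_mul]
theorem OnE.eval_P {D : Data n F} {x w : Cn n} (h : D.OnE x w) : eval x D.P = 0 := by
  have := h (rename Sum.inl D.P) (by
    rw [ev, aeval_rename]; exact (D.hP _).2 dvd_rfl)
  rwa [eval_rename] at this
theorem sol_of_shift {x w : Cn n} (h : D.OnE x w) (k : Fin n → ℤ)
    (e : x = w + (2 * Real.pi * Complex.I : ℂ) • cZ k) : D.Sol :=
  ⟨x, by rw [Data.OnE, e, ex_add_int, ← e]; exact h⟩
theorem not_alg_neg {m : Fin n → ℤ} (h : ¬ D.Alg (mon D.y m)) : ¬ D.Alg (mon D.y (-m)) := by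
  rw [mon_neg]; exact fun h' => h (IsAlgebraic.inv_iff.1 h')
theorem free_iff : Free D.z ↔ ∀ m : Fin n → ℤ, m ≠ 0 → ∀ c : ℂ, ¬ D.P ∣ lform m - C c := by
  simp only [Free, ← D.hP, map_sub, aeval_lform, aeval_C, sub_eq_zero]

end Data

end Pool.Agent.P.MP_d2ed07_lc
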