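import Pool.Agent.P.MP_d2ed07_lc.Iface2

/-!
Small toolbox, second part.
-/

namespace Pool.Agent.P.MP_d2ed07_lc

open MvPolynomial Metric

variable {n : ℕ} {A : Finset (Fin n)}

theorem dil_mem {c : ℂ} {p : Cn n} {i : Fin n} (h : i ∈ A) : dil A c p i = p i := if_pos h
theorem dil_not_mem {c : ℂ} {p : Cn n} {i : Fin n} (h : i ∉ A) : dil A c p i = c * p i := if_neg h
theorem dil_add (c : ℂ) (p q : Cn n) : dil A c (p + q) = dil A c p + dil A c q := by
  funext i; by_cases h : i ∈ A <;> simp [dil, h, mul_add]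
theorem dil_sub (c : ℂ) (p q : Cn n) : dil A c (p - q) = dil A c p - dil A c q := by
  funext i; by_cases h : i ∈ A <;> simp [dil, h, mul_sub]
theorem dil_smul (c t : ℂ) (p : Cn n) : dil A c (t • p) = t • dil A c p := by
  funext i; by_cases h : i ∈ A <;> simp [dil, h, mul_left_comm]
theorem dil_dil (c c' : ℂ) (p : Cn n) : dil A c (dil A c' p) = dil A (c * c') p := by
  funext i; by_cases h : i ∈ A <;> simp [dil, h, mul_assoc]
theorem dil_one (p : Cn n) : dil A 1 p = p := by funext i; simp [dil]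
theorem Off.dil {v : Cn n} (h : Off A v) (c : ℂ) : dil A c v = c • v := by
  funext i; by_cases hi : i ∈ A <;> simp [Pool.Agent.P.MP_d2ed07_lc.dil, hi, h i]
theorem dil_add_smul {v : Cn n} (h : Off A v) (c t : ℂ) (p : Cn n) :
    dil A c (p + t • v) = dil A c p + (c * t) • v := by
  rw [dil_add, dil_smul, h.dil, smul_smul, mul_comm]
theorem norm_dil_le {c : ℂ} (h : 1 ≤ ‖c‖) (p : Cn n) : ‖dil A c p‖ ≤ ‖c‖ * ‖p‖ := by
  refine (pi_norm_le_iff_of_nonneg (by positivity)).2 fun i => ?_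
  have h1 := norm_le_pi_norm p i
  by_cases hi : i ∈ A
  · rw [dil_mem hi]; nlinarith [norm_nonneg p]
  · rw [dil_not_mem hi, norm_mul]; gcongr
theorem norm_dil_le' {c : ℂ} (h : ‖c‖ ≤ 1) (p : Cn n) : ‖dil A c p‖ ≤ ‖p‖ := by
  refine (pi_norm_le_iff_of_nonneg (by positivity)).2 fun i => ?_
  have h1 := norm_le_pi_norm p i
  by_cases hi : i ∈ A
  · rwa [dil_mem hi]
  · rw [dil_not_mem hi, norm_mul]; nlinarith [norm_nonneg (p i), norm_nonneg c]
theorem Imag.dil {x : Cn n} (h : Imag x) (c : ℝ) : Imag (dil A c x) := fun i => by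
  by_cases hi : i ∈ A <;> simp [Pool.Agent.P.MP_d2ed07_lc.dil, hi, h i]
theorem dil_iR (c : ℝ) (s : Fin n → ℝ) :
    dil A c (iR s) = iR fun i => if i ∈ A then s i else c * s i := by
  funext i; by_cases hi : i ∈ A <;> simp [dil, iR, hi, mul_assoc]
theorem differentiable_dil (c : ℂ) : Differentiable ℂ (dil A c) := by
  refine differentiable_pi.2 fun i => ?_
  by_cases hi : i ∈ A
  · simp only [dil_mem hi]; fun_prop
  · simp only [dil_not_mem hi]; fun_prop
theorem Off.dz_congr {R : Type} [Ring R] {m : Fin n → ℤ} (h : Off A m) {p q : Fin n → R}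
    (e : ∀ j, j ∉ A → p j = q j) : dz m p = dz m q :=
  Finset.sum_congr rfl fun i _ => by
    by_cases hi : i ∈ A
    · simp [h i hi]
    · rw [e i hi]
theorem Off.dz_dil {m : Fin n → ℤ} (h : Off A m) (c : ℂ) (p : Cn n) :
    dz m (Pool.Agent.P.MP_d2ed07_lc.dil A c p) = c * dz m p := by
  rw [← dz_smul]; exact h.dz_congr fun j hj => dil_not_mem hj
theorem Off.cQ {v : Fin n → ℚ} (h : Off A v) : Off A (cQ v) := fun i hi => by
  simp [Pool.Agent.P.MP_d2ed07_lc.cQ, h i hi]
theorem off_cut {R : Type} [Zero R] (u : Fin n → R) : Off A (cut A u) := fun _ hi => if_pos hi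
theorem Off.dq_cut {v : Fin n → ℚ} (h : Off A v) (ν : Fin n → ℝ) : dq (cut A ν) v = dq ν v :=
  Finset.sum_congr rfl fun i _ => by by_cases hi : i ∈ A <;> simp [cut, hi, h i]
theorem Sh.differentiableOn_zt {P : MP n} {v x : Cn n} {M r L : ℝ} {τ : Cn n → ℂ}
    {S : Finset (MP n)} (h : Sh P A v M x r τ S L) :
    DifferentiableOn ℂ (zt A M v τ) (ball x r) :=
  (differentiable_dil _).differentiableOn.add (h.1.smul_const v)
theorem Sh.zt_inv {P : MP n} {v x : Cn n} {M r L : ℝ} {τ : Cn n → ℂ} {S : Finset (MP n)}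
    (h : Sh P A v M x r τ S L) (hv : Off A v) {q : Cn n} (hq : q ∈ ball x r) {t : ℂ}
    (ht : q + t • v ∈ ball x r) : zt A M v τ (q + t • v) = zt A M v τ q := by
  rw [zt, zt, dil_add_smul hv, h.2.2 q hq t ht, sub_smul]; abel

theorem imag_gp (t : Fin n → ℕ) : Imag (gp t) := fun i => by simp [gp]
theorem norm_gp_le {t : Fin n → ℕ} {G : ℕ} (h : ∀ i, t i ≤ G) : ‖gp t‖ ≤ 2 * Real.pi * G := by
  refine (pi_norm_le_iff_of_nonneg (by positivity)).2 fun i => ?_
  simp only [gp, norm_mul, Complex.norm_I, Complex.norm_real, Complex.norm_natCast,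
    Complex.norm_ofNat, mul_one, Real.norm_eq_abs, abs_of_pos Real.pi_pos]
  have : (t i : ℝ) ≤ G := by exact_mod_cast h i
  gcongr
theorem norm_uv (i : Fin n) : ‖uv i‖ = 1 := by simp [uv, Pi.norm_single]

theorem Chn.mono {Ω Ω' : Set (Cn n)} (hΩ : Ω' ⊆ Ω) : ∀ {l : List (Cn n)} {f g : Cn n → ℂ},
    Chn Ω l f g → Chn Ω' l f g
  | [], _, _, h => ⟨h.1.mono hΩ, fun p hp => h.2 p (hΩ hp)⟩
  | _ :: _, _, _, ⟨h1, f', h2, h3⟩ => ⟨h1.mono hΩ, f', fun p hp => h2 p (hΩ hp), Chn.mono hΩ h3⟩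
theorem Chn.left {Ω : Set (Cn n)} : ∀ {l : List (Cn n)} {f g : Cn n → ℂ},
    Chn Ω l f g → DifferentiableOn ℂ f Ω
  | [], _, _, h => h.1
  | _ :: _, _, _, h => h.1
theorem Chn.right {Ω : Set (Cn n)} : ∀ {l : List (Cn n)} {f g : Cn n → ℂ},
    Chn Ω l f g → DifferentiableOn ℂ g Ω
  | [], _, _, h => h.1.congr fun p hp => (h.2 p hp).symm
  | _ :: _, _, _, ⟨_, _, _, h⟩ => Chn.right h

theorem ddir_eq_zero_iff {u : Cn n} {P : MP n} :
    ddir u P = 0 ↔ ∀ (p : Cn n) (t : ℂ), eval (p + t • u) P = eval p P := by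
  constructor
  · intro h p t
    have h1 : (lin u P).natDegree = 0 := by
      by_contra h1; exact natDegree_lin_pos.1 (Nat.pos_of_ne_zero h1) h
    rw [← lin_eval, Polynomial.eq_C_of_natDegree_eq_zero h1, coeff_lin_zero]
    simp [ev1]
  · intro h
    refine MvPolynomial.funext fun p => ?_
    obtain ⟨L, hL, e⟩ := hasFDerivAt_eval P p
    have h1 : HasDerivAt (fun t : ℂ => p + t • u) u 0 := by
      simpa using ((hasDerivAt_id (0 : ℂ)).smul_const u).const_add p
    have h0 : HasFDerivAt (fun x => eval x P) L ((fun t : ℂ => p + t • u) 0) := by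
      simpa using hL
    have h2 := h0.comp_hasDerivAt (f := fun t : ℂ => p + t • u) 0 h1
    simp only [Function.comp_def, h] at h2
    rw [← e, map_zero]
    exact h2.unique (hasDerivAt_const _ _)
theorem ddir_single (i : Fin n) (g : MP n) : ddir (Pi.single i 1) g = pderiv i g := by
  rw [ddir, Finset.sum_eq_single i] <;> simp +contextual

theorem dirs_mono (N : ℕ) : dirs n N ⊆ dirs n (N + 1) := by
  refine Fintype.piFinset_subset _ _ fun _ => Finset.image_subset_image ?_
  refine Finset.product_subset_product ?_ ?_ <;> refine Finset.Icc_subset_Icc ?_ ?_ <;>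
    push_cast <;> omega
theorem single_mem_dirs (N : ℕ) (i : Fin n) : Pi.single i 1 ∈ dirs n N := by
  refine Fintype.mem_piFinset.2 fun j => Finset.mem_image.2 ?_
  by_cases h : j = i
  · exact ⟨(1, 1), by simp; omega, by simp [h]⟩
  · exact ⟨(0, 1), by simp; omega, by simp [h]⟩
theorem sq_mono (N : ℕ) : sq N ⊆ sq (N + 1) :=
  Finset.product_subset_product (Finset.range_mono (by omega)) (Finset.range_mono (by omega))

theorem onV_iff_loc {F : Type} [Field F] [Algebra ℂ F] {z y : Fin n → F} {x y' : Cn n} :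
    OnV z y x y' ↔ Loc (Sum.elim z y) (Sum.elim x y') := Iff.rfl
theorem Loc.comp {F σ τ : Type} [Field F] [Algebra ℂ F] {a : σ → F} {ξ : σ → ℂ} (h : Loc a ξ)
    (e : τ → σ) : Loc (fun s => a (e s)) (fun s => ξ (e s)) := fun g hg => by
  have := h (rename e g) (by rw [aeval_rename]; exact hg)
  rwa [eval_rename] at this
/-- polynomial images of a point of the locus -/
theorem Loc.aeval {F σ τ : Type} [Field F] [Algebra ℂ F] {a : σ → F} {ξ : σ → ℂ} (h : Loc a ξ)
    (f : τ → MvPolynomial σ ℂ) : Loc (fun s => aeval a (f s)) (fun s => eval ξ (f s)) :=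
  fun g hg => by
    have h1 := h (MvPolynomial.aeval f g) (by rw [← hg, ← AlgHom.comp_apply, comp_aeval])
    rw [← h1, ← coe_aeval_eq_eval, ← coe_aeval_eq_eval]
    exact (DFunLike.congr_fun (comp_aeval f (MvPolynomial.aeval ξ)) g).symm
theorem loc_map {F F' σ : Type} [Field F] [Algebra ℂ F] [Field F'] [Algebra ℂ F']
    (φ : F →ₐ[ℂ] F') (a : σ → F) (ξ : σ → ℂ) : Loc (fun s => φ (a s)) ξ ↔ Loc a ξ := by
  refine forall_congr' fun g => imp_congr_left ?_
  rw [← comp_aeval, AlgHom.comp_apply, map_eq_zero]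

/-- chain rule for a polynomial in differentiable functions -/
theorem fderiv_eval_comp {σ E : Type} [Fintype σ] [NormedAddCommGroup E] [NormedSpace ℂ E]
    {α : E → σ → ℂ} {p : E} (h : DifferentiableAt ℂ α p) (g : MvPolynomial σ ℂ) (u : E) :
    fderiv ℂ (fun q => eval (α q) g) p u =
      ∑ s, fderiv ℂ (fun q => α q s) p u * eval (α p) (pderiv s g) := by
  classical
  have hd : ∀ g : MvPolynomial σ ℂ, DifferentiableAt ℂ (fun q => eval (α q) g) p := fun g =>
    (differentiable_eval g _).comp p h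
  have hs : ∀ s, DifferentiableAt ℂ (fun q => α q s) p := differentiableAt_pi.1 h
  induction g using MvPolynomial.induction_on with
  | C c => simp
  | add f g hf hg =>
    simp only [map_add, mul_add, Finset.sum_add_distrib, ← hf, ← hg]
    rw [fderiv_fun_add (hd f) (hd g)]; rfl
  | mul_X f i hf =>
    simp only [map_mul, eval_X]
    rw [fderiv_fun_mul (hd f) (hs i)]
    simp only [add_apply, smul_apply, smul_eq_mul, hf,
      Derivation.leibniz, pderiv_X, map_add, map_mul, eval_X, mul_add, Finset.sum_add_distrib,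
      Finset.mul_sum, Pi.single_apply]
    congr 1
    · rw [Finset.sum_eq_single i] <;> simp +contextual [mul_comm, eq_comm]
    · exact Finset.sum_congr rfl fun s _ => by ring

theorem SRot.mfree {F : Type} [Field F] [Algebra ℂ F] {z y : Fin n → F} (h : SRot z y) :
    MFree y := by
  intro m hm c hc
  obtain ⟨s, hs, hi⟩ := h 1 (fun _ => m) one_pos (linearIndependent_unique_iff.2 hm)
  have hu : s = Finset.univ := (Finset.card_eq_iff_eq_univ s).1 (by simpa using hs)
  have := hi.transcendental ⟨Sum.inr 0, hu ▸ Finset.mem_univ _⟩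
  simp only [Sum.elim_inr, hc] at this
  exact this (isAlgebraic_algebraMap c)

end Pool.Agent.P.MP_d2ed07_lc
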