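import Mathlib

/-!
Internal definitions for the project on exponential points of varieties whose additive
projection is a hypersurface.
-/

namespace Pool.Agent.P.MP_d2ed07_lc

open MvPolynomial Metric

noncomputable section

abbrev Cn (n : ℕ) := Fin n → ℂ
abbrev MP (n : ℕ) := MvPolynomial (Fin n) ℂ
abbrev MP2 (n : ℕ) := MvPolynomial (Fin n ⊕ Fin n) ℂ
abbrev P1 (n : ℕ) := Polynomial (MP n)
abbrev P2 (n : ℕ) := Polynomial (Polynomial (MP n))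

variable {n : ℕ}

/-- `m · x` for an integer vector `m` -/
def dz {R : Type} [Ring R] (m : Fin n → ℤ) (x : Fin n → R) : R := ∑ i, (m i : R) * x i
/-- the Laurent monomial `y ^ m` -/
def mon {F : Type} [Field F] (y : Fin n → F) (m : Fin n → ℤ) : F := ∏ i, y i ^ m i
/-- real vector times rational vector -/
def dq (ν : Fin n → ℝ) (d : Fin n → ℚ) : ℝ := ∑ i, ν i * (d i : ℝ)
/-- real vector times complex vector -/
def dr (ν : Fin n → ℝ) (u : Cn n) : ℂ := ∑ i, (ν i : ℂ) * u i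
def iR (s : Fin n → ℝ) : Cn n := fun i => (s i : ℂ) * Complex.I
def cQ (v : Fin n → ℚ) : Cn n := fun i => (v i : ℂ)
def cZ (k : Fin n → ℤ) : Cn n := fun i => (k i : ℂ)
def Imag (x : Cn n) : Prop := ∀ i, (x i).re = 0
def ex (w : Cn n) : Cn n := fun i => Complex.exp (w i)
/-- directional derivative -/
def ddir (u : Cn n) (g : MP n) : MP n := ∑ i, C (u i) * pderiv i g
/-- top degree form -/
def top (P : MP n) : MP n := homogeneousComponent P.totalDegree P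
/-- the linear form `m · X` -/
def lform (m : Fin n → ℤ) : MP n := ∑ i, C (m i : ℂ) * X i
/-- `g (X + τ v)` as a polynomial in `τ` -/
def lin (v : Cn n) (g : MP n) : P1 n :=
  aeval (fun i => Polynomial.C (X i : MP n) + Polynomial.C (C (v i) : MP n) * Polynomial.X) g
def ev1 (x : Cn n) (β : ℂ) (h : P1 n) : ℂ := h.eval₂ (eval x) β
def sp2 (x : Cn n) (β : ℂ) (G : P2 n) : Polynomial ℂ :=
  G.map (Polynomial.eval₂RingHom (eval x) β)
def Good (P : MP n) (S : Finset (MP n)) : Prop := ∀ g ∈ S, ¬ P ∣ g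
def Tm (S : Finset (MP n)) (L : ℝ) (x : Cn n) : Prop :=
  ∀ g ∈ S, Real.exp (-L) ≤ ‖eval x g‖ ∧ ‖eval x g‖ ≤ Real.exp L
def strip (θ ε : ℝ) : Set ℂ := {l | |l.im - θ| < ε}
def half (a : ℝ) : Set ℂ := {l | a < l.re}
def sq (N : ℕ) : Finset (ℕ × ℕ) := Finset.range (N + 1) ×ˢ Finset.range (N + 1)
/-- the finite set of candidate directions -/
def dirs (n N : ℕ) : Finset (Fin n → ℚ) :=
  Fintype.piFinset fun _ =>
    (Finset.Icc (-(N + 1 : ℤ)) (N + 1) ×ˢ Finset.Icc (1 : ℤ) (N + 1)).image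
      fun ab => (ab.1 : ℚ) / (ab.2 : ℚ)
def Adapt (N : ℕ) (ν : Fin n → ℝ) (l : Fin n → ℤ) : Prop :=
  ∀ d ∈ dirs n N, (0 < dz l d → 0 < dq ν d) ∧ (dz l d < 0 → dq ν d < 0)
def DenseZ (ν : Fin n → ℝ) : Prop := Dense (Set.range fun k : Fin n → ℤ => dz k ν)
/-- `τ` is a holomorphic root of `P (p + τ v)` on a ball, invariant along `v` -/
def Sheet (P : MP n) (v x : Cn n) (r : ℝ) (τ : Cn n → ℂ) : Prop :=
  DifferentiableOn ℂ τ (ball x r) ∧ (∀ p ∈ ball x r, eval (p + τ p • v) P = 0) ∧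
    ∀ p ∈ ball x r, ∀ t : ℂ, p + t • v ∈ ball x r → τ (p + t • v) = τ p - t
def NearLin (ν : Fin n → ℝ) (η : ℝ) (x : Cn n) (r : ℝ) (τ : Cn n → ℂ) : Prop :=
  ∀ p ∈ ball x r, ∀ p' ∈ ball x r, ‖τ p - τ p' + dr ν (p - p')‖ ≤ η * ‖p - p'‖
/-- a root of `P (p + τ v)` inside the circle, none on it -/
def Rou (P : MP n) (v p : Cn n) (c : ℂ) (σ : ℝ) : Prop :=
  (∃ τ : ℂ, ‖τ - c‖ < σ ∧ eval (p + τ • v) P = 0) ∧
    ∀ τ : ℂ, ‖τ - c‖ = σ → eval (p + τ • v) P ≠ 0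
/-- a local sheet of the cone `Q = 0` at the imaginary point `i s` -/
def Cone0 (Q : MP n) (v : Cn n) (s : Fin n → ℝ) (δ σ κ : ℝ) (K : ℕ) (T : Cn n → ℂ) : Prop :=
  0 < δ ∧ 0 < σ ∧ 0 < κ ∧ 1 ≤ K ∧ DifferentiableOn ℂ T (ball (iR s) δ) ∧ T (iR s) = 0 ∧
    (∀ s' : Fin n → ℝ, iR s' ∈ ball (iR s) δ → (T (iR s')).re = 0) ∧
    ∀ u ∈ ball (iR s) δ, ‖T u‖ ≤ σ / 2 ∧ eval (u + T u • v) Q = 0 ∧
      ∀ τ : ℂ, ‖τ‖ ≤ σ → κ * ‖τ - T u‖ ^ K ≤ ‖eval (u + τ • v) Q‖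
def ConeSh (Q : MP n) (v : Cn n) (s ν : Fin n → ℝ) : Prop :=
  ∃ (δ σ κ : ℝ) (K : ℕ) (T : Cn n → ℂ), Cone0 Q v s δ σ κ K T ∧
    ∀ η : ℝ, 0 < η → ∃ δ' : ℝ, 0 < δ' ∧ NearLin ν η (iR s) δ' T
/-- projection along `k` onto `m · u = 0` (when `m · k = 1`) -/
def proj (m k : Fin n → ℤ) (p : Cn n) : Cn n := p - dz m p • cZ k
/-- asymptotics of `P` along an edge of the Newton polygon -/
def Newt (P : MP n) (m k : Fin n → ℤ) (θ : ℝ) (s : Fin n → ℝ) (q : Polynomial ℂ) (η₀ : ℂ)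
    (d₀ : ℕ) : Prop :=
  dz m s = 0 ∧ q ≠ 0 ∧ q.eval η₀ = 0 ∧ ∀ K κ : ℝ, 0 < κ → ∀ᶠ R : ℝ in Filter.atTop,
    ∀ (p : Cn n) (η : ℂ), ‖p - (R : ℂ) • iR s‖ ≤ K * R ^ (max θ (1 / 2)) → ‖η‖ ≤ K →
      ‖eval (proj m k p + (((R ^ θ : ℝ) : ℂ) * η) • cZ k) P / (R : ℂ) ^ d₀ - q.eval η‖ ≤ κ
/-- derivations of the polynomial ring that preserve the ideal `(P)` -/
def Dt (P : MP n) (m k : Fin n → ℤ) (i : Fin n) (g : MP n) : MP n :=
  ddir (cZ k) P * ddir (proj m k (Pi.single i 1)) g -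
    ddir (proj m k (Pi.single i 1)) P * ddir (cZ k) g

section points
variable {F : Type} [Field F] [Algebra ℂ F]

def ev (z y : Fin n → F) (g : MP2 n) : F := aeval (Sum.elim z y) g
/-- `(x, y')` lies on the locus of `(z, y)` over `ℂ` -/
def OnV (z y : Fin n → F) (x y' : Cn n) : Prop :=
  ∀ g : MP2 n, ev z y g = 0 → eval (Sum.elim x y') g = 0
def Free (z : Fin n → F) : Prop :=
  ∀ m : Fin n → ℤ, m ≠ 0 → ∀ c : ℂ, dz m z ≠ algebraMap ℂ F c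
def Gen (z y : Fin n → F) : Prop :=
  IntermediateField.adjoin ℂ (Set.range (Sum.elim z y)) = ⊤
/-- strongly rotund -/
def SRot (z y : Fin n → F) : Prop :=
  ∀ (k : ℕ) (M : Fin k → Fin n → ℤ), 0 < k → LinearIndependent ℤ M →
    ∃ s : Finset (Fin k ⊕ Fin k), s.card = k + 1 ∧ AlgebraicIndependent ℂ (fun j : s =>
      Sum.elim (fun r => dz (M r) z) (fun r => mon y (M r)) (j : Fin k ⊕ Fin k))
/-- derivations compatible with the exponential -/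
def expDer (z y : Fin n → F) : Submodule F (Derivation ℂ F F) where
  carrier := {d | ∀ i, d (y i) = y i * d (z i)}
  add_mem' := by
    intro a b ha hb i
    simp only [Derivation.coe_add, Pi.add_apply, ha i, hb i]; ring
  zero_mem' := by intro i; simp
  smul_mem' := by
    intro c a ha i
    simp only [Derivation.coe_smul, Pi.smul_apply, smul_eq_mul, ha i]; ring
end points

/-- the operator `∂/∂z_i + y_i ∂/∂y_i` -/
def del (i : Fin n) (g : MP2 n) : MP2 n :=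
  pderiv (Sum.inl i) g + X (Sum.inr i) * pderiv (Sum.inr i) g
def DD (u : Fin n → MP2 n) (g : MP2 n) : MP2 n := ∑ i, u i * del i g
/-- iterated application of the vector fields `U l` -/
def word {T : Finset (Fin n)} (U : T → Fin n → MP2 n) : List T → MP2 n → MP2 n
  | [], g => g
  | l :: α, g => DD (U l) (word U α g)
/-- polynomial identities of a frame -/
def Frame0 (T : Finset (Fin n)) (f : {i // i ∉ T} → MP2 n) (U : T → Fin n → MP2 n)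
    (Δ : MP2 n) : Prop :=
  Δ = (Matrix.of fun a i : {i // i ∉ T} => del i.1 (f a)).det ∧
    (∀ l l' : T, U l l'.1 = if l = l' then Δ else 0) ∧ ∀ l a, DD (U l) (f a) = 0
def Frame {F : Type} [Field F] [Algebra ℂ F] (z y : Fin n → F) (T : Finset (Fin n))
    (f : {i // i ∉ T} → MP2 n) (U : T → Fin n → MP2 n) (Δ : MP2 n) : Prop :=
  Frame0 T f U Δ ∧ (∀ a, ev z y (f a) = 0) ∧ ev z y Δ ≠ 0 ∧
    (∀ l g, ev z y g = 0 → ev z y (DD (U l) g) = 0) ∧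
    ((T.card + n : ℕ) : Cardinal) = Algebra.trdeg ℂ F ∧
    ∀ d ∈ expDer z y, ∀ i, ev z y Δ * d (z i) = ∑ l : T, d (z l.1) * ev z y (U l i)
def Spans {F : Type} [Field F] [Algebra ℂ F] (z y : Fin n → F) {T : Finset (Fin n)}
    (U : T → Fin n → MP2 n) (g₁ : MP2 n) : Prop :=
  ∀ x y' : Cn n, OnV z y x y' → eval (Sum.elim x y') g₁ ≠ 0 → ∀ μ : Cn n,
    (∀ (l : T) (α : List T),
      ∑ i, μ i * eval (Sum.elim x y') (word U (l :: α) (X (Sum.inl i))) = 0) →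
    ∃ c : ℂ, ∑ i, algebraMap ℂ F (μ i) * z i = algebraMap ℂ F c

/-- a generic point `(z, y)` whose first half is a generic point of the hypersurface `P = 0` -/
structure Data (n : ℕ) (F : Type) [Field F] [Algebra ℂ F] where
  z : Fin n → F
  y : Fin n → F
  hy : ∀ i, y i ≠ 0
  P : MP n
  hP0 : P ≠ 0
  hP : ∀ g : MP n, aeval z g = 0 ↔ P ∣ g

namespace Data
variable {F : Type} [Field F] [Algebra ℂ F] (D : Data n F)

abbrev k : IntermediateField ℂ F := IntermediateField.adjoin ℂ (Set.range D.z)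
def Alg (a : F) : Prop := IsAlgebraic D.k a
def OnE (x w : Cn n) : Prop := OnV D.z D.y x (ex w)
def Sol : Prop := ∃ x, D.OnE x x
def Curve : Prop := ∀ m m' : Fin n → ℤ, ¬ AlgebraicIndependent D.k ![mon D.y m, mon D.y m']
def Rk (e : ℕ) : Prop :=
  ∀ s : Finset (Fin n), AlgebraicIndependent D.k (fun i : s => D.y i) → s.card ≤ e
def Star : Prop :=
  ∃ u : Cn n, (∀ m, D.Alg (mon D.y m) → dz m u = 0) ∧ ddir u (top D.P) ≠ 0
def Rel (N : ℕ) (c : Fin n → Fin n → ℕ × ℕ → MP n) : Prop :=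
  (∀ i j ab, c i j ab = 0 ∨ ¬ D.P ∣ c i j ab) ∧ (∀ i j, ∃ ab ∈ sq N, c i j ab ≠ 0) ∧
    ∀ x w, D.OnE x w → ∀ i j,
      ∑ ab ∈ sq N, eval x (c i j ab) * Complex.exp (ab.1 * w i + ab.2 * w j) = 0
def IsRay (v : Fin n → ℚ) : Prop :=
  ∃ (S : Finset (MP n)) (C : ℝ), Good D.P S ∧ 1 ≤ C ∧
    ∀ (B : Set (Cn n)) (ζ : Cn n → Cn n) (L : ℝ), Convex ℝ B → IsOpen B →
      DifferentiableOn ℂ ζ B → 1 ≤ L → (∀ x ∈ B, eval (ζ x) D.P = 0 ∧ Tm S L (ζ x)) →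
      ∃ w : Cn n × ℂ → Cn n, DifferentiableOn ℂ w (B ×ˢ half (C * L)) ∧
        ∀ x ∈ B, ∀ l ∈ half (C * L), D.OnE (ζ x) (w (x, l)) ∧
          ∀ i, |(w (x, l) i).re - (v i : ℝ) * l.re| ≤ C * L
def Par (l : Fin n → ℤ) (M : Finset (Fin n → ℤ)) (μ : P2 n) (h : P1 n)
    (G : (Fin n → ℤ) → P2 n) : Prop :=
  μ.Monic ∧ 0 < μ.natDegree ∧ (∃ a, ¬ D.P ∣ h.coeff a) ∧
    ∀ (x : Cn n) (β θ : ℂ), eval x D.P = 0 → ev1 x β h ≠ 0 → (sp2 x β μ).eval θ = 0 →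
      (Polynomial.derivative (sp2 x β μ)).eval θ ≠ 0 ∧
      ∃ y' : Cn n, (∀ i, y' i ≠ 0) ∧ OnV D.z D.y x y' ∧ mon y' l = β ∧
        ∀ m ∈ M, mon y' m * ev1 x β h = (sp2 x β (G m)).eval θ
/-- bounded oscillation of the real part on windows of length one -/
def Osc (B : Set (Cn n)) (θ ε C : ℝ) (w : Cn n × ℂ → Cn n) : Prop :=
  ∀ x ∈ B, ∀ x' ∈ B, ∀ l ∈ strip θ ε, ∀ l' ∈ strip θ ε, |l.re - l'.re| ≤ 1 →
    ∀ i, |(w (x, l) i).re - (w (x', l') i).re| ≤ C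
def LimDat (v : Cn n) (ν : Fin n → ℝ) (l : Fin n → ℤ) (N : ℕ)
    (c : Fin n → Fin n → ℕ × ℕ → MP n) (C ε δ : ℝ) : Prop :=
  ∃ (p : Cn n) (ρ : ℝ) (τ : Cn n → ℂ) (w : Cn n × ℂ → Cn n),
    δ⁻¹ ≤ ρ ∧ DifferentiableOn ℂ τ (ball p ρ) ∧ τ p = 0 ∧ NearLin ν δ p ρ τ ∧
    DifferentiableOn ℂ w (ball p ρ ×ˢ strip 0 ε) ∧
    (∀ x ∈ ball p ρ, ∀ μ ∈ strip 0 ε,
      D.OnE (x + τ x • v) (w (x, μ)) ∧ dz l (w (x, μ)) - dz l (w (x, 0)) = μ) ∧
    Osc (ball p ρ) 0 ε C w ∧ (∀ i, |(w (p, 0) i).re - (p i).re| ≤ δ) ∧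
    ∀ i j, ∃ ab ∈ sq N, eval p (c i j ab) ≠ 0

end Data

end

end Pool.Agent.P.MP_d2ed07_lc
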