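import Pool.Agent.P.MP_d2ed07_lc.Basic

/-!
Internal definitions, second part.
-/

namespace Pool.Agent.P.MP_d2ed07_lc

open MvPolynomial Metric

noncomputable section

variable {n : ℕ}

/-- `u` vanishes on `A` -/
def Off {R : Type} [Zero R] (A : Finset (Fin n)) (u : Fin n → R) : Prop := ∀ i ∈ A, u i = 0
/-- the coordinates in `A` are replaced by `0` -/
def cut {R : Type} [Zero R] (A : Finset (Fin n)) (u : Fin n → R) : Fin n → R :=
  fun i => if i ∈ A then 0 else u i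
/-- the coordinates outside `A` are multiplied by `c` -/
def dil (A : Finset (Fin n)) (c : ℂ) (p : Cn n) : Cn n := fun i => if i ∈ A then p i else c * p i
/-- `Q` is homogeneous of degree `B` in the variables outside `A` -/
def HomOff (A : Finset (Fin n)) (Q : MP n) (B : ℕ) : Prop :=
  ∀ (c : ℂ) (u : Cn n), eval (dil A c u) Q = c ^ B * eval u Q
/-- `Q` is the initial form of `P` for the weights `1` on `A` and `E + 1` outside -/
def Asy (P : MP n) (A : Finset (Fin n)) (Q : MP n) (E g : ℕ) : Prop :=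
  ∀ K : ℝ, ∃ C : ℝ, 0 ≤ C ∧ ∀ (T : ℝ) (u : Cn n), 1 ≤ T → ‖u‖ ≤ K →
    ‖eval (dil A ((T : ℂ) ^ E) ((T : ℂ) • u)) P / (T : ℂ) ^ g - eval u Q‖ ≤ C / T
/-- the point of the hypersurface above `q` -/
def zt (A : Finset (Fin n)) (M : ℝ) (v : Cn n) (τ : Cn n → ℂ) (q : Cn n) : Cn n :=
  dil A M q + τ q • v
/-- a tame sheet in dilated coordinates -/
def Sh (P : MP n) (A : Finset (Fin n)) (v : Cn n) (M : ℝ) (x : Cn n) (r : ℝ) (τ : Cn n → ℂ)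
    (S : Finset (MP n)) (L : ℝ) : Prop :=
  DifferentiableOn ℂ τ (ball x r) ∧
    (∀ q ∈ ball x r, eval (zt A M v τ q) P = 0 ∧ Tm S L (zt A M v τ q)) ∧
    ∀ q ∈ ball x r, ∀ t : ℂ, q + t • v ∈ ball x r → τ (q + t • v) = τ q - M * t
/-- nearly linear sheets -/
def ShA (P : MP n) (A : Finset (Fin n)) (v : Cn n) (ν : Fin n → ℝ) : Prop :=
  ∃ γ : ℝ, 0 < γ ∧ ∀ S, Good P S → ∃ N : ℝ, 1 ≤ N ∧ ∀ δ r₀ : ℝ, 0 < δ →
    ∃ (r M : ℝ) (x : Cn n) (τ : Cn n → ℂ), r₀ ≤ r ∧ 1 ≤ M ∧ Imag x ∧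
      Sh P A v M x r τ S (N * Real.log r) ∧ NearLin ν δ x r (fun q => τ q / M) ∧
      ‖τ x‖ ≤ M * r ^ (1 - γ)
/-- sheets close to the hyperplane `m · z = 0` -/
def ShB (P : MP n) (A : Finset (Fin n)) (v : Cn n) (m : Fin n → ℤ) : Prop :=
  ddir v P ≠ 0 ∧ ∃ (γ : ℝ) (N₁ : ℕ), 0 < γ ∧ ∀ S, Good P S → ∃ N : ℝ, 1 ≤ N ∧ ∀ r₀ : ℝ,
    ∃ (r M : ℝ) (x : Cn n) (τ : Cn n → ℂ), r₀ ≤ r ∧ 1 ≤ M ∧ Imag x ∧
      Sh P A v M x r τ S (N * Real.log r) ∧ ∀ q ∈ ball x r,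
        ‖dz m (zt A M v τ q)‖ ≤ M * r ^ (1 - γ) ∧ ‖zt A M v τ q‖ ≤ r ^ N₁
/-- the real part is close to a ray -/
def Trop (N : ℕ) (K : ℝ) (w : Cn n) : Prop :=
  ∃ d ∈ dirs n N, ∃ t : ℝ, 0 ≤ t ∧ ∀ i, |(w i).re - t * (d i : ℝ)| ≤ K
/-- exponential relations between pairs of coordinates, with constant coefficients -/
def PairRel (N : ℕ) (Ω : Set ℂ) (w : ℂ → Cn n) : Prop :=
  ∀ i j, ∃ a : ℕ × ℕ → ℂ, (∃ ab ∈ sq N, a ab ≠ 0) ∧
    ∀ t ∈ Ω, ∑ ab ∈ sq N, a ab * Complex.exp (ab.1 * w t i + ab.2 * w t j) = 0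
/-- `h` has simple nonzero roots over the hypersurface, away from `d = 0` -/
def Simple (P : MP n) (h : P1 n) (d : MP n) : Prop :=
  ¬ P ∣ h.coeff 0 ∧ ¬ P ∣ h.leadingCoeff ∧ ¬ P ∣ d ∧ ∃ a b : P1 n,
    ∀ j, P ∣ (a * h + b * Polynomial.derivative h - Polynomial.C d).coeff j
/-- `g` is the iterated derivative of `f` along the list of directions -/
def Chn (Ω : Set (Cn n)) : List (Cn n) → (Cn n → ℂ) → (Cn n → ℂ) → Prop
  | [], f, g => DifferentiableOn ℂ f Ω ∧ ∀ p ∈ Ω, f p = g p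
  | u :: l, f, g => DifferentiableOn ℂ f Ω ∧
      ∃ f' : Cn n → ℂ, (∀ p ∈ Ω, fderiv ℂ f p u = f' p) ∧ Chn Ω l f' g
/-- unit vector -/
def uv (i : Fin n) : Cn n := Pi.single i 1
def Shape (A : Finset (Fin n)) (d : ℕ) (l : List (Fin n)) : Prop :=
  (∃ j, j ∉ A ∧ l = [j]) ∨ (l.length = d + 1 ∧ ∀ i ∈ l, i ∈ A)
/-- the normalisation of the parameters `p` -/
def Eqs (A : Finset (Fin n)) (v c ζ ω : Cn n) (τ : ℂ) (p : Cn n) : Prop :=
  (∀ i ∈ A, ζ i = ω i + c i + p i) ∧ ∀ j, j ∉ A → ζ j = c j + p j + τ * v j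
/-- grid point -/
def gp (t : Fin n → ℕ) : Cn n := fun i => 2 * Real.pi * Complex.I * t i
/-- one more coordinate -/
def ext1 {σ R : Type} (b : R) (a : σ → R) : Option σ → R := fun o => o.elim b a

section points
variable {F : Type} [Field F] [Algebra ℂ F]

/-- `ξ` lies on the locus of `a` over `ℂ` -/
def Loc {σ : Type} (a : σ → F) (ξ : σ → ℂ) : Prop :=
  ∀ g : MvPolynomial σ ℂ, aeval a g = 0 → eval ξ g = 0
def MFree (y : Fin n → F) : Prop :=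
  ∀ m : Fin n → ℤ, m ≠ 0 → ∀ c : ℂ, mon y m ≠ algebraMap ℂ F c
/-- multiplicatively free in the coordinates of `A` -/
def MFreeOn (A : Finset (Fin n)) (y : Fin n → F) : Prop :=
  ∀ m : Fin n → ℤ, m ≠ 0 → (∀ j, j ∉ A → m j = 0) → ∀ c : ℂ, mon y m ≠ algebraMap ℂ F c
/-- rotund -/
def Rot (z y : Fin n → F) : Prop :=
  ∀ (k : ℕ) (M : Fin k → Fin n → ℤ), LinearIndependent ℤ M →
    ∃ s : Finset (Fin k ⊕ Fin k), s.card = k ∧ AlgebraicIndependent ℂ (fun j : s =>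
      Sum.elim (fun r => dz (M r) z) (fun r => mon y (M r)) (j : Fin k ⊕ Fin k))
/-- the derivation `d` is dual to the direction `e` -/
def Dual (A : Finset (Fin n)) (v : Cn n) (z y : Fin n → F) (e : Cn n) (d : Derivation ℂ F F) :
    Prop :=
  (∀ i ∈ A, d (z i) - d (y i) / y i = algebraMap ℂ F (e i)) ∧
    ∃ t : F, ∀ j, j ∉ A → d (z j) = algebraMap ℂ F (e j) + t * algebraMap ℂ F (v j)
end points

namespace Data
variable {F : Type} [Field F] [Algebra ℂ F] (D : Data n F)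

def Star2 : Prop :=
  ∃ u : Cn n, (∀ m, D.Alg (mon D.y m) → dz m u = 0) ∧ ddir u D.P ≠ 0
def AlgOn (A : Finset (Fin n)) : Prop := ∀ i ∈ A, D.Alg (D.y i)
/-- normal form: the algebraic monomials are those supported on `A` -/
def NF (A : Finset (Fin n)) : Prop :=
  D.AlgOn A ∧ ∀ m, D.Alg (mon D.y m) → ∀ j, j ∉ A → m j = 0
/-- evaluation at `(z, y ^ l)` -/
def evF (l : Fin n → ℤ) : P1 n →+* F :=
  Polynomial.eval₂RingHom (aeval D.z : MP n →ₐ[ℂ] F).toRingHom (mon D.y l)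
def ParF (l : Fin n → ℤ) (M : Finset (Fin n → ℤ)) (μ : P2 n) (h : P1 n)
    (G : (Fin n → ℤ) → P2 n) (θ : F) : Prop :=
  μ.eval₂ (D.evF l) θ = 0 ∧ ∀ m ∈ M, mon D.y m * D.evF l h = (G m).eval₂ (D.evF l) θ
/-- the equations in `A` are solved -/
def PSol (A : Finset (Fin n)) (v ζ ω : Cn n) (τ : ℂ) (p : Cn n) : Prop :=
  D.OnE ζ ω ∧ (∀ i ∈ A, Complex.exp (ζ i) = Complex.exp (ω i)) ∧
    ∀ j, j ∉ A → ζ j = p j + τ * v j

end Data

end

end Pool.Agent.P.MP_d2ed07_lc
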