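import Mathlib

/-! The function field of an irreducible variety and its coordinate functions. -/

namespace Pool.Agent.P.MP_d2ed07_lc

/-- the function field of the variety with prime ideal `I` -/
abbrev Fn {n : ℕ} (I : Ideal (MvPolynomial (Fin n ⊕ Fin n) ℂ)) : Type :=
  FractionRing (MvPolynomial (Fin n ⊕ Fin n) ℂ ⧸ I)

/-- the coordinate function `x_i` -/
noncomputable def xc {n : ℕ} (I : Ideal (MvPolynomial (Fin n ⊕ Fin n) ℂ)) (i : Fin n) : Fn I :=
  algebraMap (MvPolynomial (Fin n ⊕ Fin n) ℂ ⧸ I) (Fn I)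
    (Ideal.Quotient.mk I (MvPolynomial.X (Sum.inl i)))

/-- the coordinate function `y_i` -/
noncomputable def yc {n : ℕ} (I : Ideal (MvPolynomial (Fin n ⊕ Fin n) ℂ)) (i : Fin n) : Fn I :=
  algebraMap (MvPolynomial (Fin n ⊕ Fin n) ℂ ⧸ I) (Fn I)
    (Ideal.Quotient.mk I (MvPolynomial.X (Sum.inr i)))

end Pool.Agent.P.MP_d2ed07_lc
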