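import Pool.Agent.P.MP_d2ed07_lc.Basic
import Pool.Agent.P.MP_d2ed07_lc.Stmt

/-! The generic point of a prime ideal. -/

namespace Pool.Agent.P.MP_d2ed07_lc

open MvPolynomial

variable {n : ℕ} (I : Ideal (MP2 n)) [I.IsPrime]

theorem fin_ev (g : MP2 n) :
    ev (xc I) (yc I) g = algebraMap (MP2 n ⧸ I) (Fn I) (Ideal.Quotient.mk I g) := by
  induction g using MvPolynomial.induction_on with
  | C a =>
    rw [ev, aeval_C, IsScalarTower.algebraMap_apply ℂ (MP2 n ⧸ I) (Fn I)]; rfl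
  | add p q hp hq => rw [ev, map_add, map_add, map_add, ← hp, ← hq]; rfl
  | mul_X p i hp =>
    rw [ev, map_mul, map_mul, map_mul, ← hp, aeval_X]
    rcases i with i | i <;> rfl

theorem fin_ev_zero (g : MP2 n) : ev (xc I) (yc I) g = 0 ↔ g ∈ I := by
  rw [fin_ev, map_eq_zero_iff _ (IsFractionRing.injective _ _), Ideal.Quotient.eq_zero_iff_mem]

theorem fin_gen : Gen (xc I) (yc I) := by
  rw [Gen, eq_top_iff]
  rintro a -
  obtain ⟨b, c, -, rfl⟩ := IsFractionRing.div_surjective (A := MP2 n ⧸ I) a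
  have h : ∀ b : MP2 n ⧸ I, algebraMap (MP2 n ⧸ I) (Fn I) b ∈
      IntermediateField.adjoin ℂ (Set.range (Sum.elim (xc I) (yc I))) := fun b => by
    obtain ⟨g, rfl⟩ := Ideal.Quotient.mk_surjective b
    rw [← fin_ev]
    exact IntermediateField.algebra_adjoin_le_adjoin _ _
      (by rw [Algebra.adjoin_range_eq_range_aeval]; exact ⟨g, rfl⟩)
  exact div_mem (h b) (h c)

theorem fin_onV (x y : Cn n) :
    OnV (xc I) (yc I) x y ↔ ∀ g ∈ I, eval (Sum.elim x y) g = 0 := by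
  simp only [OnV, fin_ev_zero]

theorem fin_hy (hy : ∀ i, (X (Sum.inr i) : MP2 n) ∉ I) (i : Fin n) : yc I i ≠ 0 := fun h =>
  hy i ((fin_ev_zero I _).1 (by rw [ev, aeval_X]; exact h))

/-- the data attached to a prime ideal -/
noncomputable def finData (hy : ∀ i, (X (Sum.inr i) : MP2 n) ∉ I) (p : MP n) (hp0 : p ≠ 0)
    (hp : ∀ g : MP n, rename Sum.inl g ∈ I ↔ p ∣ g) : Data n (Fn I) where
  z := xc I
  y := yc I
  hy := fin_hy I hy
  P := p
  hP0 := hp0
  hP := fun g => by rw [← hp, ← fin_ev_zero, ev, aeval_rename]; rfl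

theorem fin_countable (K : Subfield ℂ) (hK : ∃ s : Finset ℂ, K = Subfield.closure (s : Set ℂ))
    (σ : Type) [Fintype σ] :
    {g : MvPolynomial σ ℂ | ∀ mo, g.coeff mo ∈ K}.Countable := by
  obtain ⟨s, rfl⟩ := hK
  have hc : Countable (Subfield.closure (s : Set ℂ)) := by
    rw [← Cardinal.mk_le_aleph0_iff]
    exact (Subfield.cardinalMk_closure_le_max _).trans
      (max_le (Cardinal.mk_le_aleph0_iff.2 s.countable_toSet) le_rfl)
  have : Countable (MvPolynomial σ (Subfield.closure (s : Set ℂ))) := by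
    rw [← Cardinal.mk_le_aleph0_iff]
    exact cardinalMk_le_max.trans
      (max_le (max_le Cardinal.mk_le_aleph0 Cardinal.mk_le_aleph0) le_rfl)
  refine (Set.countable_range (map (Subfield.closure (s : Set ℂ)).subtype)).mono fun g hg => ?_
  refine mem_range_map_iff_coeffs_subset.2 fun c hc => ?_
  obtain ⟨mo, -, rfl⟩ := mem_coeffs_iff.1 hc
  exact Set.mem_range.2 ⟨⟨_, hg mo⟩, rfl⟩

/-- from density to generic points -/
theorem fin_generic (hsec : T_SEC) (htd : T_TD) (hy : ∀ i, (X (Sum.inr i) : MP2 n) ∉ I)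
    (hrot : SRot (xc I) (yc I))
    (hd : ∀ f ∉ I, ∃ x : Cn n, (∀ g ∈ I, eval (Sum.elim x (ex x)) g = 0) ∧
      eval (Sum.elim x (ex x)) f ≠ 0)
    (K : Subfield ℂ) (hK : ∃ s : Finset ℂ, K = Subfield.closure (s : Set ℂ))
    (hI : I = Ideal.span {f : MP2 n | f ∈ I ∧ ∀ mo, f.coeff mo ∈ K}) :
    ∃ x : Cn n, (∀ f ∈ I, eval (Sum.elim x (ex x)) f = 0) ∧
      Algebra.trdeg K (IntermediateField.adjoin K (Set.range x ∪ Set.range (ex x))) =
        Algebra.trdeg ℂ (Fn I) := by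
  obtain ⟨x, hx, h⟩ := hsec n _ (xc I) (yc I) (fin_hy I hy) (fin_gen I) hrot
    (fun f hf => by simpa only [fin_onV] using hd f (by rwa [← fin_ev_zero]))
    {g | (∀ mo, g.coeff mo ∈ K) ∧ g ∉ I} ((fin_countable K hK _).mono fun g hg => hg.1)
    (fun g hg => by rw [Ne, fin_ev_zero]; exact hg.2)
  refine ⟨x, (fin_onV I _ _).1 hx, ?_⟩
  rw [← Set.Sum.elim_range]
  have e : ∀ g : MP2 n, aeval (Sum.elim (xc I) (yc I)) g = 0 ↔ g ∈ I := fin_ev_zero I
  refine htd _ _ (Sum.elim (xc I) (yc I)) K _ (fin_gen I) (fun g hg => ?_) fun g hg => ?_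
  · simp only [e] at hg ⊢; rwa [← hI]
  · rw [e]
    exact ⟨fun h0 => by_contra fun h1 => h g ⟨hg, h1⟩ h0, (fin_onV I _ _).1 hx g⟩

end Pool.Agent.P.MP_d2ed07_lc
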