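import Pool.Agent.P.MP_d2ed07_lc.Basic

/-!
Step G2C: the iterated vector fields span the same space at a general point.
-/

namespace Pool.Agent.P.MP_d2ed07_lc

open MvPolynomial Metric Filter Topology

theorem g2c_zero {F σ : Type} [Field F] [Algebra ℂ F] (a : σ → F)
    (ha : IntermediateField.adjoin ℂ (Set.range a) = ⊤) (D : Derivation ℂ F F)
    (hD : ∀ s, D (a s) = 0) (x : F) : D x = 0 := by
  have hx : x ∈ IntermediateField.adjoin ℂ (Set.range a) := by rw [ha]; trivial
  induction hx using IntermediateField.adjoin_induction with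
  | mem x hx => obtain ⟨s, rfl⟩ := hx; exact hD s
  | algebraMap c => simp
  | add x y _ _ hx hy => rw [map_add, hx, hy, add_zero]
  | inv x _ hx => rw [Derivation.leibniz_inv, hx, smul_zero]
  | mul x y _ _ hx hy => rw [Derivation.leibniz, hx, hy]; simp

theorem g2c_ann {F A L : Type} [Field F] [Algebra ℂ F] {s : ℕ} (r : A → Fin s → F)
    (d : L → Derivation ℂ F F) (hr : ∀ l α, ∃ β, ∀ a, d l (r α a) = r β a)
    (hc : ∀ x : F, (∀ l, d l x = 0) → ∃ c : ℂ, x = algebraMap ℂ F c)
    (h0 : ∀ c : Fin s → ℂ, (∀ α, ∑ a, algebraMap ℂ F (c a) * r α a = 0) → c = 0)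
    (c : Fin s → F) (h : ∀ α, ∑ a, c a * r α a = 0) : c = 0 := by
  classical
  generalize hk : (Finset.univ.filter fun a => c a ≠ 0).card = k
  induction k using Nat.strong_induction_on generalizing c with
  | _ k ih =>
    by_contra hne
    obtain ⟨a₀, ha₀⟩ : ∃ a, c a ≠ 0 := by
      by_contra h'
      push Not at h'
      exact hne (funext h')
    have h1 : ∀ α, ∑ a, (c a / c a₀) * r α a = 0 := fun α => by
      have : ∑ a, (c a / c a₀) * r α a = (∑ a, c a * r α a) / c a₀ := by
        rw [Finset.sum_div]; exact Finset.sum_congr rfl fun a _ => by ring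
      rw [this, h α, zero_div]
    have h2 : ∀ l, (fun a => d l (c a / c a₀)) = 0 := fun l => by
      refine ih _ ?_ _ (fun α => ?_) rfl
      · rw [← hk]
        refine Finset.card_lt_card ⟨fun a ha => ?_, fun hsub => ?_⟩
        · simp only [Finset.mem_filter, Finset.mem_univ, true_and] at ha ⊢
          intro h0; apply ha; rw [h0, zero_div, map_zero]
        · have := hsub (Finset.mem_filter.2 ⟨Finset.mem_univ a₀, ha₀⟩)
          simp only [Finset.mem_filter, Finset.mem_univ, true_and] at this
          apply this; rw [div_self ha₀]; simp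
      · obtain ⟨β, hβ⟩ := hr l α
        have := congrArg (d l) (h1 α)
        rw [map_sum, map_zero] at this
        simp only [Derivation.leibniz, smul_eq_mul, hβ, Finset.sum_add_distrib, h1 β,
          zero_add] at this
        rw [← this]
        exact Finset.sum_congr rfl fun a _ => mul_comm _ _
    have h3 : ∀ a, ∃ e : ℂ, c a / c a₀ = algebraMap ℂ F e := fun a =>
      hc _ fun l => congrFun (h2 l) a
    choose e he using h3
    have h4 := h0 e fun α => by simpa only [← he] using h1 α
    have h5 := he a₀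
    rw [div_self ha₀, h4] at h5
    simp at h5

theorem g2c_det {F A : Type} [Field F] {s : ℕ} (r : A → Fin s → F)
    (h : ∀ c : Fin s → F, (∀ α, ∑ a, c a * r α a = 0) → c = 0) :
    ∃ β : Fin s → A, (Matrix.of fun b a => r (β b) a).det ≠ 0 := by
  classical
  have hsp : Submodule.span F (Set.range r) = ⊤ := by
    by_contra hne
    obtain ⟨f, hf, hle⟩ := Submodule.exists_le_ker_of_lt_top _ (lt_top_iff_ne_top.2 hne)
    have hf' : ∀ x : Fin s → F, f x = ∑ a, f (Pi.single a 1) * x a := fun x => by
      rw [LinearMap.pi_apply_eq_sum_univ]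
      refine Finset.sum_congr rfl fun a _ => ?_
      rw [smul_eq_mul, mul_comm]
      congr 2
      funext j
      simp [Pi.single_apply, eq_comm]
    have := h (fun a => f (Pi.single a 1)) fun α => by
      rw [← hf']; exact hle (Submodule.subset_span ⟨α, rfl⟩)
    apply hf
    refine LinearMap.ext fun x => ?_
    rw [hf']
    exact Finset.sum_eq_zero fun a _ => by rw [congrFun this a]; simp
  obtain ⟨κ, a, -, hspan, hli⟩ := exists_linearIndependent' F r
  let B : Module.Basis κ F (Fin s → F) := Module.Basis.mk hli (by rw [hspan, hsp])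
  have : Finite κ := Module.Finite.finite_basis B
  have := Fintype.ofFinite κ
  have hcard : Fintype.card κ = s := by
    rw [← Module.finrank_eq_card_basis B]; simp
  let e : Fin s ≃ κ := (Fintype.equivFinOfCardEq hcard).symm
  refine ⟨fun b => a (e b), ?_⟩
  have hli' : LinearIndependent F fun b => r (a (e b)) := hli.comp e e.injective
  have hu : IsUnit (Matrix.of fun b a' => r (a (e b)) a') :=
    Matrix.linearIndependent_rows_iff_isUnit.1 hli'
  exact ((Matrix.isUnit_iff_isUnit_det _).1 hu).ne_zero

theorem g2c_sum {F L : Type} [Field F] [Algebra ℂ F] (s : Finset L) (D : L → Derivation ℂ F F)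
    (w : F) : (∑ l ∈ s, D l) w = ∑ l ∈ s, D l w := by
  classical
  induction s using Finset.induction_on with
  | empty => simp
  | insert a s ha ih => rw [Finset.sum_insert ha, Finset.sum_insert ha, Derivation.add_apply, ih]

theorem g2c_evDD {n : ℕ} {F : Type} [Field F] [Algebra ℂ F] (z y : Fin n → F)
    (u : Fin n → MP2 n) (g : MP2 n) :
    ev z y (DD u g) = ∑ i, ev z y (u i) * ev z y (del i g) := by
  simp [ev, DD]

theorem g2c_DD_X {n : ℕ} (u : Fin n → MP2 n) (i : Fin n) : DD u (X (Sum.inl i)) = u i := by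
  classical
  simp [DD, del, pderiv_X, Pi.single_apply]

theorem t_g2c (hdu : T_DU) : T_G2C := by
  classical
  intro n F _ _ z y T f U Δ hgen hfr hconst
  obtain ⟨-, -, hΔ, hst, -, hexp⟩ := hfr
  have hex : ∀ l : T, ∃ d : Derivation ℂ F F, d ∈ expDer z y ∧ ∀ i, d (z i) = ev z y (U l i) := by
    intro l
    obtain ⟨d, hd⟩ := hdu F (Fin n ⊕ Fin n) (Sum.elim z y)
      (Sum.elim (fun i => ev z y (U l i)) fun i => y i * ev z y (U l i)) hgen (fun g hg => by
        have := hst l g hg
        rw [g2c_evDD] at this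
        rw [← this, Fintype.sum_sum_type, ← Finset.sum_add_distrib]
        refine Finset.sum_congr rfl fun i _ => ?_
        simp only [Sum.elim_inl, Sum.elim_inr, ev, del, map_add, map_mul, aeval_X]; ring)
    refine ⟨d, fun i => ?_, fun i => hd (Sum.inl i)⟩
    have h1 := hd (Sum.inl i)
    have h2 := hd (Sum.inr i)
    simp only [Sum.elim_inl, Sum.elim_inr] at h1 h2
    rw [h1, h2]
  choose d hd hdz using hex
  have hdev : ∀ l g, d l (ev z y g) = ev z y (DD (U l) g) := fun l g => by
    rw [expDer_ev (hd l), g2c_evDD]; simp only [hdz]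
  have hc : ∀ x : F, (∀ l, d l x = 0) → ∃ c : ℂ, x = algebraMap ℂ F c := fun x hx => by
    refine hconst x fun e he => ?_
    have hmem : ev z y Δ • e - ∑ l : T, e (z l.1) • d l ∈ expDer z y :=
      Submodule.sub_mem _ (Submodule.smul_mem _ _ he)
        (Submodule.sum_mem _ fun l _ => Submodule.smul_mem _ _ (hd l))
    have happ : ∀ w, (ev z y Δ • e - ∑ l : T, e (z l.1) • d l) w =
        ev z y Δ * e w - ∑ l : T, e (z l.1) * d l w := fun w => by
      rw [Derivation.coe_sub, Pi.sub_apply, g2c_sum]
      simp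
    have hz : ∀ i, (ev z y Δ • e - ∑ l : T, e (z l.1) • d l) (z i) = 0 := fun i => by
      rw [happ, hexp e he i]; simp only [hdz, sub_self]
    have := g2c_zero _ hgen (ev z y Δ • e - ∑ l : T, e (z l.1) • d l) (fun s => by
      rcases s with i | i
      · exact hz i
      · have h1 : _ = y i * _ := hmem i
        rw [Sum.elim_inr, h1, hz, mul_zero]) x
    rw [happ] at this
    simp only [hx, mul_zero, Finset.sum_const_zero, sub_zero] at this
    exact (mul_eq_zero.1 this).resolve_left hΔ
  -- the polynomial `μ · word`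
  let W : Cn n → T × List T → MP2 n := fun μ α =>
    ∑ i, C (μ i) * word U (α.1 :: α.2) (X (Sum.inl i))
  have hWev : ∀ μ α, ev z y (W μ α) =
      ∑ i, algebraMap ℂ F (μ i) * ev z y (word U (α.1 :: α.2) (X (Sum.inl i))) := fun μ α => by
    simp [W, ev]
  have hWd : ∀ l μ α, d l (ev z y (W μ α)) = ev z y (W μ (l, α.1 :: α.2)) := fun l μ α => by
    rw [hWev, hWev, map_sum]
    refine Finset.sum_congr rfl fun i _ => ?_
    rw [Derivation.leibniz, hdev]
    simp [word]
  have hWadd : ∀ μ μ' α, W (μ + μ') α = W μ α + W μ' α := fun μ μ' α => by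
    simp [W, add_mul, Finset.sum_add_distrib]
  have hWsmul : ∀ (c : ℂ) μ α, W (c • μ) α = C c * W μ α := fun c μ α => by
    simp [W, Finset.mul_sum, mul_assoc]
  have hWsum : ∀ {s : ℕ} (c : Fin s → ℂ) (m : Fin s → Cn n) α,
      W (∑ a, c a • m a) α = ∑ a, C (c a) * W (m a) α := fun c m α => by
    simp only [W, Finset.sum_apply, Pi.smul_apply, smul_eq_mul, map_sum, map_mul, Finset.sum_mul,
      Finset.mul_sum, mul_assoc]
    exact Finset.sum_comm
  let N : Submodule ℂ (Cn n) :=
    { carrier := {μ | ∀ α, ev z y (W μ α) = 0}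
      add_mem' := fun {μ μ'} h h' α => by
        have h1 : aeval (Sum.elim z y) (W μ α) = 0 := h α
        have h2 : aeval (Sum.elim z y) (W μ' α) = 0 := h' α
        rw [hWadd, ev, map_add, h1, h2, add_zero]
      zero_mem' := fun α => by simp [W, ev]
      smul_mem' := fun c μ h α => by
        have h1 : aeval (Sum.elim z y) (W μ α) = 0 := h α
        rw [hWsmul, ev, map_mul, h1, mul_zero] }
  obtain ⟨M, hM⟩ := Submodule.exists_isCompl N
  let B := Module.finBasis ℂ M
  have hind : ∀ c : Fin (Module.finrank ℂ M) → ℂ, ∑ a, c a • (B a : Cn n) ∈ N → c = 0 := by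
    intro c hcN
    have h1 : ∑ a, c a • (B a : Cn n) ∈ M :=
      Submodule.sum_mem _ fun a _ => Submodule.smul_mem _ _ (B a).2
    have h2 : ∑ a, c a • (B a : Cn n) = 0 := by
      have := hM.disjoint.le_bot (Submodule.mem_inf.2 ⟨hcN, h1⟩)
      simpa using this
    have h3 : ∑ a, c a • B a = 0 := by
      apply Subtype.ext
      simpa using h2
    exact funext (Fintype.linearIndependent_iff.1 B.linearIndependent c h3)
  obtain ⟨β, hβ⟩ := g2c_det (fun α a => ev z y (W (B a) α))
    (g2c_ann _ d (fun l α => ⟨(l, α.1 :: α.2), fun a => hWd l _ α⟩) hc fun c h => hind c fun α => by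
      rw [hWsum, ev, map_sum, ← h α]
      exact Finset.sum_congr rfl fun a _ => by rw [map_mul, aeval_C]; rfl)
  refine ⟨(Matrix.of fun b a => W (B a) (β b)).det, ?_, ?_⟩
  · rw [ev, AlgHom.map_det]; exact hβ
  · intro x y' hV hg μ hμ
    have hμW : ∀ α, eval (Sum.elim x y') (W μ α) = 0 := fun α => by
      rw [← hμ α.1 α.2]; simp [W]
    obtain ⟨ν, hν, m, hm, rfl⟩ := Submodule.mem_sup.1
      (show μ ∈ N ⊔ M by rw [hM.sup_eq_top]; trivial)
    have hm' : m = ∑ a, B.repr ⟨m, hm⟩ a • (B a : Cn n) := by
      have := congrArg Subtype.val (B.sum_repr ⟨m, hm⟩)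
      rw [Submodule.coe_sum] at this
      exact this.symm
    have hm0 : (fun a => B.repr ⟨m, hm⟩ a) = 0 := by
      rw [RingHom.map_det] at hg
      refine Matrix.eq_zero_of_mulVec_eq_zero hg (funext fun b => ?_)
      have h1 := hμW (β b)
      rw [hWadd, map_add, hV _ (hν (β b)), zero_add, hm', hWsum, map_sum] at h1
      rw [Pi.zero_apply, ← h1]
      simp [Matrix.mulVec, dotProduct, mul_comm]
    have hm1 : m = 0 := by
      rw [hm']; exact Finset.sum_eq_zero fun a _ => by rw [congrFun hm0 a]; simp
    subst hm1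
    rw [add_zero]
    refine hc _ fun l => ?_
    rw [← hν (l, []), hWev, map_sum]
    refine Finset.sum_congr rfl fun i _ => ?_
    rw [Derivation.leibniz, hdz]
    simp [word, g2c_DD_X]

end Pool.Agent.P.MP_d2ed07_lc
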