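import Pool.Agent.P.MP_d2ed07_lc.Defs

/-!
Statements of all steps.
-/

namespace Pool.Agent.P.MP_d2ed07_lc

open MvPolynomial Metric Filter Topology

/-! ### complex analysis -/

def T_CL : Prop := ∀ (E G : Type) [NormedAddCommGroup E] [NormedSpace ℂ E]
  [NormedAddCommGroup G] [NormedSpace ℂ G] [CompleteSpace G] (f : E → G) (x : E) (ρ M : ℝ),
  0 < ρ → DifferentiableOn ℂ f (ball x ρ) → (∀ p ∈ ball x ρ, ‖f p‖ ≤ M) →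
  (∀ p ∈ ball x (ρ / 2), ‖fderiv ℂ f p‖ ≤ 4 * M / ρ) ∧
  ∀ p ∈ ball x (ρ / 2), ∀ p' ∈ ball x (ρ / 2), ‖f p - f p'‖ ≤ 4 * M / ρ * ‖p - p'‖

def T_BC : Prop := ∀ (E : Type) [NormedAddCommGroup E] [NormedSpace ℂ E]
  (f : E → ℂ) (x : E) (ρ M : ℝ), 0 < ρ → DifferentiableOn ℂ f (ball x ρ) →
  (∀ p ∈ ball x ρ, ∀ p' ∈ ball x ρ, |(f p).re - (f p').re| ≤ M) →
  (∀ p ∈ ball x (ρ / 2), ‖fderiv ℂ f p‖ ≤ 8 * M / ρ) ∧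
  ∀ p ∈ ball x (ρ / 2), ∀ p' ∈ ball x (ρ / 2), ‖f p - f p'‖ ≤ 8 * M / ρ * ‖p - p'‖

def T_LOG : Prop := ∀ (E : Type) [NormedAddCommGroup E] [NormedSpace ℂ E]
  (Ω : Set E) (f : E → ℂ), Convex ℝ Ω → IsOpen Ω → DifferentiableOn ℂ f Ω →
  (∀ x ∈ Ω, f x ≠ 0) → ∃ g : E → ℂ, DifferentiableOn ℂ g Ω ∧ ∀ x ∈ Ω, Complex.exp (g x) = f x

def T_SHEET : Prop := ∀ (E : Type) [NormedAddCommGroup E] [NormedSpace ℂ E]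
  [FiniteDimensional ℂ E] (Ω : Set E) (p : E → Polynomial ℂ) (d : ℕ), Convex ℝ Ω → IsOpen Ω →
  (∀ j, DifferentiableOn ℂ (fun x => (p x).coeff j) Ω) →
  (∀ x ∈ Ω, (p x).natDegree ≤ d ∧ (p x).coeff d ≠ 0) →
  (∀ x ∈ Ω, ∀ t, (p x).eval t = 0 → (Polynomial.derivative (p x)).eval t ≠ 0) →
  ∀ x₀ ∈ Ω, ∀ t₀, (p x₀).eval t₀ = 0 →
  ∃ θ : E → ℂ, DifferentiableOn ℂ θ Ω ∧ θ x₀ = t₀ ∧ ∀ x ∈ Ω, (p x).eval (θ x) = 0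

def T_FIX : Prop := ∀ (E : Type) [NormedAddCommGroup E] [CompleteSpace E] (Ψ : E → E) (x : E)
  (ρ : ℝ), 0 < ρ →
  (∀ p ∈ closedBall x ρ, ∀ p' ∈ closedBall x ρ, ‖Ψ p - Ψ p'‖ ≤ 1 / 2 * ‖p - p'‖) →
  ‖Ψ x - x‖ ≤ ρ / 2 → ∃ p ∈ closedBall x ρ, Ψ p = p

def T_PERS : Prop := ∀ (E : Type) [NormedAddCommGroup E] [NormedSpace ℂ E]
  [FiniteDimensional ℂ E] (H : E → E) (x₀ : E) (r : ℝ), 0 < r →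
  DifferentiableOn ℂ H (ball x₀ r) → H x₀ = 0 → Function.Injective (fderiv ℂ H x₀) →
  ∃ κ : ℝ, 0 < κ ∧ ∀ G : E → E, DifferentiableOn ℂ G (ball x₀ r) →
    (∀ p ∈ ball x₀ r, ‖G p - H p‖ ≤ κ) → ∃ p ∈ ball x₀ r, G p = 0

def T_MINMOD : Prop := ∀ (f : ℂ → ℂ) (c a : ℂ) (σ : ℝ), Differentiable ℂ f → ‖a - c‖ < σ →
  (∀ t, ‖t - c‖ = σ → ‖f a‖ < ‖f t‖) → ∃ t, ‖t - c‖ < σ ∧ f t = 0

/-- Hurwitz: a zero of a nonzero polynomial survives small perturbations -/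
def T_HUR : Prop := ∀ (q : Polynomial ℂ) (t₀ : ℂ) (σ₀ : ℝ), q ≠ 0 → q.eval t₀ = 0 → 0 < σ₀ →
  ∃ σ κ : ℝ, 0 < σ ∧ σ ≤ σ₀ ∧ 0 < κ ∧ ∀ f : ℂ → ℂ, Differentiable ℂ f →
    (∀ t, ‖t - t₀‖ ≤ σ → ‖f t - q.eval t‖ ≤ κ) →
    (∃ t, ‖t - t₀‖ < σ ∧ f t = 0) ∧ ∀ t, ‖t - t₀‖ = σ → f t ≠ 0

def T_LIM : Prop := ∀ (G : Type) [NormedAddCommGroup G] [NormedSpace ℂ G]
  [FiniteDimensional ℂ G] (𝒰 : Ultrafilter ℕ) (Ω : Set ℂ) (f : ℕ → ℂ → G) (K : ℝ) (a₀ : ℂ),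
  IsOpen Ω → a₀ ∈ Ω → (∀ j, DifferentiableOn ℂ (f j) Ω) → (∀ j, ‖f j a₀‖ ≤ K) →
  (∀ j, ∀ a ∈ Ω, ∀ b ∈ Ω, ‖f j a - f j b‖ ≤ K * ‖a - b‖) →
  ∃ g : ℂ → G, DifferentiableOn ℂ g Ω ∧ (∀ a ∈ Ω, Tendsto (fun j => f j a) 𝒰 (𝓝 (g a))) ∧
    ∀ Z : Set ℂ, Z ⊆ Ω → Bornology.IsBounded Z → TendstoUniformlyOn f g 𝒰 Z

def T_REALPT : Prop := ∀ A : ℝ, ∃ c : ℝ, 0 < c ∧ ∀ φ : ℂ → ℂ,
  DifferentiableOn ℂ φ (ball 0 15) → (∀ t ∈ ball (0 : ℂ) 15, ‖φ t‖ ≤ A) →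
  1 / 2 ≤ ‖φ (-Complex.I)‖ → ∃ t : ℝ, |t| ≤ 3 ∧ c ≤ ‖φ t‖

def T_TAME : Prop := ∀ (n : ℕ) (N α : ℝ), 0 ≤ N → 0 < α → ∃ ε R₀ : ℝ, 0 < ε ∧ ε ≤ 1 ∧
  ∀ R : ℝ, R₀ ≤ R → ∀ (ρ : ℝ) (x : Cn n) (f : Cn n → ℂ), 0 < ρ →
  DifferentiableOn ℂ f (ball x (ρ * R ^ α)) → (∀ p ∈ ball x (ρ * R ^ α), ‖f p‖ ≤ R ^ N) →
  (∃ p ∈ ball x ρ, R ^ (-N) ≤ ‖f p‖) →
  ∃ s : Fin n → ℝ, ‖s‖ ≤ ρ * R ^ α / 4 ∧ ∀ p ∈ ball (x + iR s) (ε * ρ), ε * R ^ (-N) ≤ ‖f p‖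

def T_RELV : Prop := ∀ η : ℝ, 0 < η → ∃ c : ℝ, 0 < c ∧ c ≤ 1 ∧
  ∀ (n : ℕ) (f : Cn n → ℂ) (x : Cn n) (r L : ℝ), 0 < r → 1 ≤ L →
  DifferentiableOn ℂ f (ball x r) →
  (∀ p ∈ ball x r, Real.exp (-L) ≤ ‖f p‖ ∧ ‖f p‖ ≤ Real.exp L) →
  ∀ p ∈ ball x (c * r / L), ‖f p - f x‖ ≤ η * ‖f x‖

def T_PICK : Prop := ∀ (Ω : Set ℂ) (g : ℂ → ℂ) (Λ : Set ℝ), IsOpen Ω → IsPreconnected Ω →
  (0 : ℂ) ∈ Ω → DifferentiableOn ℂ g Ω → g 0 = 0 → (∃ a ∈ Ω, g a ≠ 0) → Dense Λ →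
  ∃ μ ∈ Ω, ∃ t ∈ Λ, g μ = (t : ℂ) * Complex.I ∧ deriv g μ ≠ 0

/-! ### elementary estimates -/

def T_TWO : Prop := ∀ (ι : Type) (s : Finset ι) (a : ι → ℂ), ∑ i ∈ s, a i = 0 →
  (∃ i ∈ s, a i ≠ 0) → ∃ i ∈ s, ∃ j ∈ s, i ≠ j ∧ a i ≠ 0 ∧ a j ≠ 0 ∧
    |Real.log ‖a i‖ - Real.log ‖a j‖| ≤ Real.log s.card

def T_TROP : Prop := ∀ (n N : ℕ) (x : Fin n → ℝ) (L : ℝ), 0 ≤ L →
  (∀ i j, i ≠ j → ∃ a b : ℤ, (a ≠ 0 ∨ b ≠ 0) ∧ |a| ≤ N ∧ |b| ≤ N ∧ |a * x i + b * x j| ≤ L) →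
  ∃ d ∈ dirs n N, ∃ t : ℝ, 0 ≤ t ∧ ∀ i, |x i - t * (d i : ℝ)| ≤ L

def T_ANG : Prop := ∀ d K : ℕ, ∃ ε κ : ℝ, 0 < ε ∧ ε ≤ 1 ∧ 0 < κ ∧ κ ≤ 1 ∧
  ∀ A : Finset (Polynomial ℂ), A.card ≤ K → (∀ f ∈ A, f.natDegree ≤ d) →
  ∃ θ : ℝ, ∀ f ∈ A, ∀ l ∈ strip θ ε,
    κ * ∑ a ∈ Finset.range (d + 1), ‖f.coeff a‖ * Real.exp (a * l.re) ≤ ‖f.eval (Complex.exp l)‖

def T_HALF : Prop := ∀ d : ℕ, ∃ C : ℝ, 1 ≤ C ∧ ∀ (f : Polynomial ℂ) (L : ℝ) (l : ℂ), 1 ≤ L →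
  f ≠ 0 → f.natDegree ≤ d →
  (∀ a, f.coeff a = 0 ∨ (Real.exp (-L) ≤ ‖f.coeff a‖ ∧ ‖f.coeff a‖ ≤ Real.exp L)) →
  C * L < l.re → f.eval (Complex.exp l) ≠ 0 ∧
    |Real.log ‖f.eval (Complex.exp l)‖ - f.natDegree * l.re| ≤ C * L

/-- size of the largest root -/
def T_ROOT : Prop := ∀ d : ℕ, ∃ C : ℝ, 0 ≤ C ∧ ∀ (f : Polynomial ℂ) (Y : ℂ), f.natDegree = d →
  f.eval Y = 0 → Y ≠ 0 → f ≠ 0 → (∀ Y', f.eval Y' = 0 → ‖Y'‖ ≤ ‖Y‖) →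
  (∀ j < d, f.coeff j ≠ 0 →
    Real.log ‖f.coeff j‖ - Real.log ‖f.coeff d‖ ≤ (d - j : ℝ) * (Real.log ‖Y‖ + C)) ∧
  ∃ j < d, f.coeff j ≠ 0 ∧
    (d - j : ℝ) * (Real.log ‖Y‖ - C) ≤ Real.log ‖f.coeff j‖ - Real.log ‖f.coeff d‖

def T_COVER : Prop := ∀ (A : Set ℝ) (Z : Finset ℝ) (r : ℝ), 0 ≤ r → IsPreconnected A →
  (∀ a ∈ A, ∃ c ∈ Z, |a - c| ≤ r) → ∀ a ∈ A, ∀ b ∈ A, |a - b| ≤ 2 * r * Z.card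

def T_ADAPT : Prop := ∀ (n : ℕ) (ν : Fin n → ℝ) (Z : Finset (Fin n → ℚ)), ∃ l : Fin n → ℤ,
  ∀ d ∈ Z, (0 < dq ν d ↔ 0 < dz l d) ∧ (dq ν d < 0 ↔ dz l d < 0)

def T_SPAN : Prop := ∀ (n : ℕ) (Z : Set (Fin n → ℚ)) (u a : Cn n),
  (∀ l : Fin n → ℤ, (∀ v ∈ Z, dz l v = 0) → dz l u = 0) →
  (∀ v ∈ Z, ∑ i, a i * (v i : ℂ) = 0) → ∑ i, a i * u i = 0

def T_SEP : Prop := ∀ (n : ℕ) (Z : Finset (Fin n → ℚ)), ∃ m : Fin n → ℤ,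
  ∀ v ∈ Z, ∀ v' ∈ Z, dz m v = dz m v' → v = v'

/-! ### polynomials -/

def T_GROW : Prop := ∀ (n : ℕ) (g : MP n), ∃ N : ℕ, ∀ (R : ℝ) (x : Cn n), 2 ≤ R → ‖x‖ ≤ R →
  ‖eval x g‖ ≤ R ^ N

def T_GROW1 : Prop := ∀ (n : ℕ) (h : P1 n), ∃ N : ℕ, ∀ (R : ℝ) (x : Cn n) (β : ℂ), 2 ≤ R →
  ‖x‖ ≤ R → ‖β‖ ≤ R → ‖ev1 x β h‖ ≤ R ^ N

def T_PLOW : Prop := ∀ (n : ℕ) (c : MP n), c ≠ 0 → ∃ κ : ℝ, 0 < κ ∧ ∀ x : Cn n,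
  ∃ p ∈ ball x 1, κ ≤ ‖eval p c‖

def T_HOM : Prop := ∀ (n : ℕ) (P : MP n) (K : ℝ), ∃ C : ℝ, 0 ≤ C ∧ ∀ (R : ℝ) (u : Cn n), 1 ≤ R →
  ‖u‖ ≤ K → ‖eval ((R : ℂ) • u) P / (R : ℂ) ^ P.totalDegree - eval u (top P)‖ ≤ C / R

def T_IMAG : Prop := ∀ (n : ℕ) (c : MP n) (U : Set (Fin n → ℝ)), IsOpen U → U.Nonempty →
  (∀ s ∈ U, eval (iR s) c = 0) → c = 0

def T_COP : Prop := ∀ (n : ℕ) (P g : MP n) (v : Cn n), Prime P → 0 < (lin v P).natDegree →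
  ¬ P ∣ g → ∃ (A B : P1 n) (c : MP n), c ≠ 0 ∧ A * lin v P + B * lin v g = Polynomial.C c

def T_HYP : Prop := ∀ (n : ℕ) (P : MP n) (m k : Fin n → ℤ), Prime P → dz m k = 1 →
  (∀ u : Cn n, dz m u = 0 → eval u P = 0) → P ∣ lform m

def T_RES : Prop := ∀ (n : ℕ) (μ g : P2 n) (h : P1 n), μ.Monic → ∃ Γ : P2 n,
  ∀ (x : Cn n) (β : ℂ), sp2 x β Γ = ((sp2 x β μ).roots.map fun θ =>
    Polynomial.C (ev1 x β h) * Polynomial.X - Polynomial.C ((sp2 x β g).eval θ)).prod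

def T_LOCT : Prop := ∀ (n : ℕ) (P : MP n) (v : Cn n) (S : Finset (MP n)) (α : ℝ), Prime P →
  Good P S → 0 < α → ∃ N ε R₀ : ℝ, 1 ≤ N ∧ 0 < ε ∧ ε ≤ 1 ∧ 3 ≤ R₀ ∧ ∀ R : ℝ, R₀ ≤ R →
  ∀ (ρ : ℝ) (x : Cn n) (c : Cn n → ℂ) (σ : ℝ), 1 ≤ ρ → Continuous c →
  (∀ p ∈ ball x (ρ * R ^ α), ‖p‖ ≤ R ^ 2 ∧ ‖c p‖ + σ ≤ R ^ 2 ∧ Rou P v p (c p) σ) →
  ∃ (s : Fin n → ℝ) (τ : Cn n → ℂ), ball (x + iR s) (ε * ρ) ⊆ ball x (ρ * R ^ α) ∧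
    Sheet P v (x + iR s) (ε * ρ) τ ∧
    ∀ p ∈ ball (x + iR s) (ε * ρ), ‖τ p - c p‖ < σ ∧ Tm S (N * Real.log R) (p + τ p • v)

def T_CONE1 : Prop := ∀ (n : ℕ) (Q : MP n) (v : Cn n), (∀ i, (v i).im = 0) → ddir v Q ≠ 0 →
  (∀ (s : Fin n → ℝ) (τ : ℂ), eval (iR s + τ • v) Q = 0 →
    (∃ τ' : ℂ, eval (iR s + τ' • v) Q ≠ 0) → τ.re = 0) →
  ∃ (s : Fin n → ℝ) (δ σ κ : ℝ) (K : ℕ) (T : Cn n → ℂ), Cone0 Q v s δ σ κ K T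

def T_CONE2 : Prop := ∀ (n : ℕ) (Q : MP n) (d : ℕ) (v : Fin n → ℚ) (s : Fin n → ℝ) (δ σ κ : ℝ)
  (K : ℕ) (T : Cn n → ℂ), Q.IsHomogeneous d → Cone0 Q (cQ v) s δ σ κ K T →
  (∃ m k : Fin n → ℤ, dz m k = 1 ∧ dz m v ≠ 0 ∧ ∀ u : Cn n, dz m u = 0 → eval u Q = 0) ∨
    ∃ s' ν : Fin n → ℝ, dq ν v = 1 ∧ DenseZ ν ∧ ConeSh Q (cQ v) s' ν

def T_NEWT : Prop := ∀ (n : ℕ) (P : MP n) (m k : Fin n → ℤ), dz m k = 1 →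
  (∀ u : Cn n, dz m u = 0 → eval u (top P) = 0) → (∃ u : Cn n, dz m u = 0 ∧ eval u P ≠ 0) →
  ∃ (θ : ℝ) (s : Fin n → ℝ) (q : Polynomial ℂ) (η₀ : ℂ) (d₀ : ℕ), θ < 1 ∧
    Newt P m k θ s q η₀ d₀ ∧ (0 < θ → η₀.re ≠ 0)

/-! ### the variety over the hypersurface -/

def T_REL1 : Prop := ∀ (n : ℕ) (F : Type) [Field F] [Algebra ℂ F] (D : Data n F) (a : F),
  a ≠ 0 → D.Alg a → ∃ (J : ℕ) (c : ℕ → MP n), ¬ D.P ∣ c 0 ∧ ¬ D.P ∣ c J ∧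
    ∑ j ∈ Finset.range (J + 1), aeval D.z (c j) * a ^ j = 0

def T_REL2 : Prop := ∀ (n : ℕ) (F : Type) [Field F] [Algebra ℂ F] (D : Data n F) (a b : F),
  ¬ AlgebraicIndependent D.k ![a, b] → ∃ (N : ℕ) (c : ℕ × ℕ → MP n),
    (∀ ab, c ab = 0 ∨ ¬ D.P ∣ c ab) ∧ (∃ ab ∈ sq N, c ab ≠ 0) ∧
    ∑ ab ∈ sq N, aeval D.z (c ab) * (a ^ ab.1 * b ^ ab.2) = 0

def T_TRANS : Prop := ∀ (n : ℕ) (F : Type) [Field F] [Algebra ℂ F] (z y : Fin n → F)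
  (ι : Type) (s : Finset ι) (c : ι → MP n) (m : ι → Fin n → ℤ), (∀ i, y i ≠ 0) →
  ∑ a ∈ s, aeval z (c a) * mon y (m a) = 0 → ∀ x y' : Cn n, (∀ i, y' i ≠ 0) → OnV z y x y' →
  ∑ a ∈ s, eval x (c a) * mon y' (m a) = 0

def T_VREL : Prop := ∀ (n : ℕ) (F : Type) [Field F] [Algebra ℂ F] (D : Data n F), D.Curve →
  ∃ N c, D.Rel N c

def T_VTROP : Prop := ∀ (n : ℕ) (F : Type) [Field F] [Algebra ℂ F] (D : Data n F) (N : ℕ)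
  (c : Fin n → Fin n → ℕ × ℕ → MP n), D.Rel N c → ∃ (S : Finset (MP n)) (C : ℝ),
  Good D.P S ∧ 1 ≤ C ∧ (∀ i j, ∃ ab ∈ sq N, c i j ab ∈ S) ∧
  ∀ (x w : Cn n) (L : ℝ), 1 ≤ L → D.OnE x w → Tm S L x →
    ∃ d ∈ dirs n N, ∃ t : ℝ, 0 ≤ t ∧ ∀ i, |(w i).re - t * (d i : ℝ)| ≤ C * L

def T_PARAM : Prop := ∀ (n : ℕ) (F : Type) [Field F] [Algebra ℂ F] (D : Data n F), D.Curve →
  ∀ l, ¬ D.Alg (mon D.y l) → ∀ M, ∃ μ h G, D.Par l M μ h G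

def T_LIFT : Prop := ∀ (n : ℕ) (F : Type) [Field F] [Algebra ℂ F] (D : Data n F)
  (l : Fin n → ℤ) (M : Finset (Fin n → ℤ)) (μ : P2 n) (h : P1 n) (G : (Fin n → ℤ) → P2 n),
  D.Par l M μ h G → (∀ i, Pi.single i 1 ∈ M) →
  ∀ (E : Type) [NormedAddCommGroup E] [NormedSpace ℂ E] [FiniteDimensional ℂ E] (Ω : Set E)
    (ζ : E → Cn n) (φ : E → ℂ), Convex ℝ Ω → IsOpen Ω → DifferentiableOn ℂ ζ Ω →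
    DifferentiableOn ℂ φ Ω →
    (∀ x ∈ Ω, eval (ζ x) D.P = 0 ∧ ev1 (ζ x) (Complex.exp (φ x)) h ≠ 0) →
    ∀ x₀ ∈ Ω, ∀ t₀, (sp2 (ζ x₀) (Complex.exp (φ x₀)) μ).eval t₀ = 0 →
    ∃ (θ : E → ℂ) (w : E → Cn n) (j : ℤ), θ x₀ = t₀ ∧ DifferentiableOn ℂ w Ω ∧
      ∀ x ∈ Ω, (sp2 (ζ x) (Complex.exp (φ x)) μ).eval (θ x) = 0 ∧ D.OnE (ζ x) (w x) ∧
        dz l (w x) = φ x + 2 * Real.pi * Complex.I * j ∧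
        ∀ m ∈ M, Complex.exp (dz m (w x)) * ev1 (ζ x) (Complex.exp (φ x)) h =
          (sp2 (ζ x) (Complex.exp (φ x)) (G m)).eval (θ x)

def T_RAY : Prop := ∀ (n : ℕ) (F : Type) [Field F] [Algebra ℂ F] (D : Data n F), D.Curve →
  ∀ l, ¬ D.Alg (mon D.y l) → ∃ v, D.IsRay v ∧ dz l v = 1

def T_R2 : Prop := ∀ (n : ℕ) (F : Type) [Field F] [Algebra ℂ F] (D : Data n F)
  (v : Fin n → ℚ) (m : Fin n → ℤ), D.IsRay v → D.Alg (mon D.y m) → dz m v = 0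

def T_STRIP : Prop := ∀ (n : ℕ) (F : Type) [Field F] [Algebra ℂ F] (D : Data n F), D.Curve →
  ∀ l, ¬ D.Alg (mon D.y l) → ∃ (S : Finset (MP n)) (C ε η : ℝ), Good D.P S ∧ 0 ≤ C ∧ 0 < ε ∧
  0 < η ∧ ∀ (B : Set (Cn n)) (x₀ : Cn n) (ζ : Cn n → Cn n), Convex ℝ B → IsOpen B → x₀ ∈ B →
  DifferentiableOn ℂ ζ B → (∀ x ∈ B, eval (ζ x) D.P = 0) →
  (∀ g ∈ S, eval (ζ x₀) g ≠ 0 ∧
    ∀ x ∈ B, ‖eval (ζ x) g - eval (ζ x₀) g‖ ≤ η * ‖eval (ζ x₀) g‖) →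
  ∃ (θ : ℝ) (j : ℤ) (w : Cn n × ℂ → Cn n), DifferentiableOn ℂ w (B ×ˢ strip θ ε) ∧
    (∀ x ∈ B, ∀ t ∈ strip θ ε, D.OnE (ζ x) (w (x, t)) ∧
      dz l (w (x, t)) = t + 2 * Real.pi * Complex.I * j) ∧ Data.Osc B θ ε C w

def T_DEEP : Prop := ∀ (n : ℕ) (F : Type) [Field F] [Algebra ℂ F] (D : Data n F)
  (v : Fin n → ℚ), D.IsRay v → ∃ (S : Finset (MP n)) (C : ℝ), Good D.P S ∧ 1 ≤ C ∧
  ∀ (x : Cn n) (ρ L : ℝ) (τ : Cn n → ℂ), Imag x → 1 ≤ L → C * L ≤ ρ →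
  DifferentiableOn ℂ τ (ball x ρ) →
  (∀ p ∈ ball x ρ, eval (p + τ p • cQ v) D.P = 0 ∧ Tm S L (p + τ p • cQ v) ∧
    C * L < (τ p).re) → D.Sol

def T_SCALE : Prop := ∀ (n : ℕ) (F : Type) [Field F] [Algebra ℂ F] (D : Data n F)
  (v : Fin n → ℚ) (α : ℝ), D.IsRay v → 0 < α →
  (∀ᶠ R : ℝ in atTop, ∃ (x : Cn n) (τ₀ : ℂ) (σ : ℝ), Imag x ∧ R ^ α ≤ τ₀.re - σ ∧
    ‖τ₀‖ + σ ≤ R ^ 2 ∧ ∀ p ∈ ball x (R ^ α), ‖p‖ ≤ R ^ 2 ∧ Rou D.P (cQ v) p τ₀ σ) → D.Sol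

def T_CASE1 : Prop := ∀ (n : ℕ) (F : Type) [Field F] [Algebra ℂ F] (D : Data n F)
  (v : Fin n → ℚ) (s : Fin n → ℝ) (τ₀ : ℂ), D.IsRay v →
  eval (iR s + τ₀ • cQ v) (top D.P) = 0 → (∃ τ : ℂ, eval (iR s + τ • cQ v) (top D.P) ≠ 0) →
  0 < τ₀.re → D.Sol

def T_SC2 : Prop := ∀ (n : ℕ) (F : Type) [Field F] [Algebra ℂ F] (D : Data n F) (v : Cn n)
  (ν : Fin n → ℝ) (l : Fin n → ℤ) (N : ℕ) (c : Fin n → Fin n → ℕ × ℕ → MP n) (C ε : ℝ),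
  0 < ε → D.Rel N c → Adapt N ν l → DenseZ ν →
  (∀ δ : ℝ, 0 < δ → D.LimDat v ν l N c C ε δ) → D.Sol

def T_SC1 : Prop := ∀ (n : ℕ) (F : Type) [Field F] [Algebra ℂ F] (D : Data n F)
  (v : Fin n → ℚ) (ν : Fin n → ℝ), D.Curve → D.IsRay v → dq ν v = 1 → DenseZ ν →
  ∃ S : Finset (MP n), Good D.P S ∧ ((∀ δ : ℝ, 0 < δ →
    ∃ (x : Cn n) (r L : ℝ) (τ : Cn n → ℂ), Imag x ∧ 0 < r ∧ 1 ≤ L ∧ Sheet D.P (cQ v) x r τ ∧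
      NearLin ν δ x r τ ∧ (∀ p ∈ ball x r, Tm S L (p + τ p • cQ v)) ∧
      (‖τ x‖ + L) * L ≤ δ * r) → D.Sol)

def T_CASE2 : Prop := ∀ (n : ℕ) (F : Type) [Field F] [Algebra ℂ F] (D : Data n F)
  (v : Fin n → ℚ) (s ν : Fin n → ℝ), D.Curve → D.IsRay v → dq ν v = 1 → DenseZ ν →
  ConeSh (top D.P) (cQ v) s ν → D.Sol

def T_3A : Prop := ∀ (n : ℕ) (F : Type) [Field F] [Algebra ℂ F] (D : Data n F)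
  (m k : Fin n → ℤ) (θ : ℝ) (s : Fin n → ℝ) (q : Polynomial ℂ) (η₀ : ℂ) (d₀ : ℕ), D.Curve →
  dz m k = 1 → ¬ D.Alg (mon D.y m) → Newt D.P m k θ s q η₀ d₀ → 0 < θ → θ < 1 → η₀.re ≠ 0 →
  D.Sol

def T_FIB : Prop := ∀ (n : ℕ) (F : Type) [Field F] [Algebra ℂ F] (D : Data n F), D.Curve →
  ∀ m, ¬ D.Alg (mon D.y m) → ∃ (h : P1 n) (N : ℝ), 1 ≤ N ∧ (∃ a, ¬ D.P ∣ h.coeff a) ∧
  ∀ (B : Set (Cn n)) (ζ : Cn n → Cn n) (φ : Cn n → ℂ) (L : ℝ), Convex ℝ B → IsOpen B →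
  DifferentiableOn ℂ ζ B → DifferentiableOn ℂ φ B → 1 ≤ L →
  (∀ x ∈ B, eval (ζ x) D.P = 0 ∧ ‖ζ x‖ ≤ Real.exp L ∧ ‖φ x‖ ≤ L ∧
    Real.exp (-L) ≤ ‖ev1 (ζ x) (Complex.exp (φ x)) h‖) →
  ∃ (w : Cn n → Cn n) (j : ℤ), DifferentiableOn ℂ w B ∧ ∀ x ∈ B, D.OnE (ζ x) (w x) ∧
    dz m (w x) = φ x + 2 * Real.pi * Complex.I * j ∧ ∀ i, |(w x i).re| ≤ N * L

def T_NLD : Prop := ∀ (n : ℕ) (F : Type) [Field F] [Algebra ℂ F] (D : Data n F)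
  (m k : Fin n → ℤ) (g₁ g₂ : MP n) (a : ℤ), Free D.z → dz m k = 1 → ¬ D.P ∣ ddir (cZ k) D.P →
  ¬ D.P ∣ g₁ → ¬ D.P ∣ g₂ → a ≠ 0 → ∃ i, ¬ D.P ∣
    g₂ * Dt D.P m k i g₁ - g₁ * Dt D.P m k i g₂ + C (a : ℂ) * g₁ * g₂ * Dt D.P m k i (lform m)

def T_WRON : Prop := ∀ (n : ℕ) (F : Type) [Field F] [Algebra ℂ F] (D : Data n F)
  (m k : Fin n → ℤ) (h : P1 n) (ρ : ℝ), Free D.z → dz m k = 1 → ¬ D.P ∣ ddir (cZ k) D.P →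
  (∃ a, ¬ D.P ∣ h.coeff a) → 0 < ρ → ∃ (S : Finset (MP n)) (N : ℝ), Good D.P S ∧ 1 ≤ N ∧
  ∀ (x : Cn n) (τ : Cn n → ℂ) (L : ℝ), 1 ≤ L → DifferentiableOn ℂ τ (ball x ρ) →
  (∀ p ∈ ball x ρ, eval (p + τ p • cZ k) D.P = 0 ∧ ‖p + τ p • cZ k‖ ≤ Real.exp L ∧
    ‖dz m (p + τ p • cZ k)‖ ≤ L ∧ Tm S L (p + τ p • cZ k)) →
  ∃ p ∈ ball x ρ, Real.exp (-(N * L)) ≤
    ‖ev1 (p + τ p • cZ k) (Complex.exp (dz m (p + τ p • cZ k))) h‖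

def T_3B : Prop := ∀ (n : ℕ) (F : Type) [Field F] [Algebra ℂ F] (D : Data n F)
  (m k : Fin n → ℤ) (θ : ℝ) (s : Fin n → ℝ) (q : Polynomial ℂ) (η₀ : ℂ) (d₀ : ℕ), D.Curve →
  Free D.z → dz m k = 1 → ¬ D.Alg (mon D.y m) → Newt D.P m k θ s q η₀ d₀ → θ ≤ 0 → D.Sol

def T_T1 : Prop := ∀ (n : ℕ) (F : Type) [Field F] [Algebra ℂ F] (D : Data n F), D.Curve →
  Free D.z → D.Star → D.Sol

/-! ### reductions -/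

def T_RAB : Prop := ∀ (n : ℕ) (F : Type) [Field F] [Algebra ℂ F] (D : Data n F) (f : MP2 n),
  ev D.z D.y f ≠ 0 → Free D.z → D.Star → ∃ D' : Data (n + 1) (RatFunc F), Free D'.z ∧ D'.Star ∧
    (D'.Sol → ∃ x, D.OnE x x ∧ eval (Sum.elim x (ex x)) f ≠ 0)

def T_SL1 : Prop := ∀ (n : ℕ) (K F : Type) [Field K] [Field F] [Algebra ℂ K] [Algebra K F]
  [Algebra ℂ F] [IsScalarTower ℂ K F] (y : Fin n → F) (i j : Fin n),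
  AlgebraicIndependent K ![y i, y j] → ∃ a : Cn n,
    Transcendental K (∑ r, algebraMap ℂ F (a r) * y r) ∧ ∀ m : Fin n → ℤ,
    Transcendental K (mon y m) →
      AlgebraicIndependent K ![mon y m, ∑ r, algebraMap ℂ F (a r) * y r]

def T_SL2 : Prop := ∀ (n e : ℕ) (K F : Type) [Field K] [Field F] [Algebra ℂ K] [Algebra K F]
  (y : Fin n → F) (t : F), (∀ i, y i ≠ 0) → t ∈ Algebra.adjoin K (Set.range y) →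
  Transcendental K t →
  (∀ s : Finset (Fin n), AlgebraicIndependent K (fun i : s => y i) → s.card ≤ e + 1) →
  ∃ (F' : Type) (_ : Field F') (_ : Algebra K F') (y' : Fin n → F'), (∀ i, y' i ≠ 0) ∧
    (∀ g : MvPolynomial (Fin n) K, aeval y g = 0 → aeval y' g = 0) ∧
    (∀ s : Finset (Fin n), AlgebraicIndependent K (fun i : s => y' i) → s.card ≤ e) ∧
    ∀ m : Fin n → ℤ, AlgebraicIndependent K ![mon y m, t] → Transcendental K (mon y' m)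

def T_SLICE : Prop := ∀ (n e : ℕ) (F : Type) [Field F] [Algebra ℂ F] (D : Data n F), 1 ≤ e →
  D.Rk (e + 1) → ∃ (F' : Type) (_ : Field F') (_ : Algebra ℂ F') (D' : Data n F'),
    D'.P = D.P ∧ D'.Rk e ∧ (∀ g, ev D.z D.y g = 0 → ev D'.z D'.y g = 0) ∧
    ∀ m, D'.Alg (mon D'.y m) → D.Alg (mon D.y m)

def T_CURV : Prop := ∀ (n : ℕ) (F : Type) [Field F] [Algebra ℂ F] (D : Data n F), D.Rk 1 →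
  D.Curve

def T_DENS : Prop := ∀ (n : ℕ) (F : Type) [Field F] [Algebra ℂ F] (D : Data n F), Free D.z →
  D.Star → ∀ f, ev D.z D.y f ≠ 0 → ∃ x, D.OnE x x ∧ eval (Sum.elim x (ex x)) f ≠ 0

/-! ### derivations and the theorem of Ax -/

def T_DER0 : Prop := ∀ (K F : Type) [Field K] [CharZero K] [Field F] [Algebra K F],
  (⊤ : IntermediateField K F).FG → ∀ (ι : Type) (b : ι → F), IsTranscendenceBasis K b →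
  Function.Bijective fun (d : Derivation K F F) (i : ι) => d (b i)

def T_DER1 : Prop := ∀ (K F : Type) [Field K] [CharZero K] [Field F] [Algebra K F],
  (⊤ : IntermediateField K F).FG → ∀ a : F, Transcendental K a →
  ∃ d : Derivation K F F, d a = 1

def T_DER2 : Prop := ∀ (K F : Type) [Field K] [CharZero K] [Field F] [Algebra K F],
  (⊤ : IntermediateField K F).FG → Module.Finite F (Derivation K F F) ∧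
  (Module.finrank F (Derivation K F F) : Cardinal) = Algebra.trdeg K F

def T_ROS1 : Prop := ∀ (E L : Type) [Field E] [Field L] [Algebra E L] [FiniteDimensional E L]
  (d₀ : Derivation ℤ E E) (d : Derivation ℤ L L),
  (∀ a : E, d (algebraMap E L a) = algebraMap E L (d₀ a)) →
  (∀ ξ : L, Algebra.trace E L (d ξ) = d₀ (Algebra.trace E L ξ)) ∧
  ∀ v : L, v ≠ 0 → Algebra.trace E L (d v / v) = d₀ (Algebra.norm E v) / Algebra.norm E v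

def T_ROS2 : Prop := ∀ (K : Type) [Field K] [CharZero K] (d : Derivation K (RatFunc K) (RatFunc K))
  (ι : Type) [Fintype ι] (e : ι → K) (u : ι → RatFunc K) (ξ : RatFunc K), d RatFunc.X = 1 →
  LinearIndependent ℚ e → (∀ a, u a ≠ 0) →
  ∑ a, algebraMap K (RatFunc K) (e a) * (d (u a) / u a) = d ξ →
  ∀ (a : ι) (j : ℕ), u a = RatFunc.X ^ j → j = 0

def T_ROS : Prop := ∀ (K F : Type) [Field K] [CharZero K] [Field F] [Algebra K F],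
  (⊤ : IntermediateField K F).FG → ∀ (ι : Type) [Fintype ι] (e : ι → K) (v : ι → F) (ξ : F),
  LinearIndependent ℚ e → (∀ a, v a ≠ 0) →
  (∀ d : Derivation K F F, ∑ a, algebraMap K F (e a) * (d (v a) / v a) = d ξ) →
  ∀ (a : ι) (d : Derivation K F F), d (v a) = 0

/-- the theorem of Ax for finitely generated fields -/
def T_AS : Prop := ∀ (F : Type) [Field F] [Algebra ℂ F], (⊤ : IntermediateField ℂ F).FG →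
  ∀ (ι κ : Type) [Fintype ι] [Fintype κ] (d : ι → Derivation ℂ F F)
    (C' : IntermediateField ℂ F) (x y : κ → F), LinearIndependent F d →
  (∀ a, a ∈ C' ↔ ∀ l, d l a = 0) → (∀ i, y i ≠ 0) → (∀ l i, d l (y i) = y i * d l (x i)) →
  (∀ m : κ → ℤ, ∑ i, (m i : F) * x i ∈ C' → m = 0) →
  ((Fintype.card κ + Fintype.card ι : ℕ) : Cardinal) ≤ Algebra.trdeg C' F

def T_DU : Prop := ∀ (F : Type) [Field F] [Algebra ℂ F] (σ : Type) [Fintype σ] (a u : σ → F),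
  IntermediateField.adjoin ℂ (Set.range a) = ⊤ →
  (∀ g : MvPolynomial σ ℂ, aeval a g = 0 → ∑ s, u s * aeval a (pderiv s g) = 0) →
  ∃ d : Derivation ℂ F F, ∀ s, d (a s) = u s

def T_DROP : Prop := ∀ (F F' : Type) [Field F] [Algebra ℂ F] [Field F'] [Algebra ℂ F']
  (σ : Type) [Fintype σ] (a : σ → F) (a' : σ → F'),
  IntermediateField.adjoin ℂ (Set.range a) = ⊤ → IntermediateField.adjoin ℂ (Set.range a') = ⊤ →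
  (∀ g : MvPolynomial σ ℂ, aeval a g = 0 → aeval a' g = 0) →
  Algebra.trdeg ℂ F ≤ Algebra.trdeg ℂ F' → ∀ g : MvPolynomial σ ℂ, aeval a' g = 0 → aeval a g = 0

def T_G2A : Prop := ∀ (n : ℕ) (F : Type) [Field F] [Algebra ℂ F] (z y : Fin n → F),
  (∀ i, y i ≠ 0) → Gen z y → SRot z y →
  ((Module.finrank F (expDer z y) + n : ℕ) : Cardinal) = Algebra.trdeg ℂ F ∧
  ∀ a : F, (∀ d ∈ expDer z y, d a = 0) → ∃ c : ℂ, a = algebraMap ℂ F c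

def T_G2B : Prop := ∀ (n : ℕ) (F : Type) [Field F] [Algebra ℂ F] (z y : Fin n → F), Gen z y →
  ((Module.finrank F (expDer z y) + n : ℕ) : Cardinal) = Algebra.trdeg ℂ F →
  ∃ T f U Δ, Frame z y T f U Δ

def T_G2E : Prop := ∀ (n : ℕ) (F : Type) [Field F] [Algebra ℂ F] (z y : Fin n → F)
  (T : Finset (Fin n)) (f : {i // i ∉ T} → MP2 n) (U : T → Fin n → MP2 n) (Δ : MP2 n),
  Gen z y → Frame z y T f U Δ → ∃ g₀ : MP2 n, ev z y g₀ ≠ 0 ∧ ∀ x y' : Cn n,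
    eval (Sum.elim x y') g₀ ≠ 0 → (∀ a, eval (Sum.elim x y') (f a) = 0) → OnV z y x y'

def T_G2C : Prop := ∀ (n : ℕ) (F : Type) [Field F] [Algebra ℂ F] (z y : Fin n → F)
  (T : Finset (Fin n)) (f : {i // i ∉ T} → MP2 n) (U : T → Fin n → MP2 n) (Δ : MP2 n),
  Gen z y → Frame z y T f U Δ →
  (∀ a : F, (∀ d ∈ expDer z y, d a = 0) → ∃ c : ℂ, a = algebraMap ℂ F c) →
  ∃ g₁ : MP2 n, ev z y g₁ ≠ 0 ∧ Spans z y U g₁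

def T_G2D : Prop := ∀ (n : ℕ) (F : Type) [Field F] [Algebra ℂ F] (z y : Fin n → F)
  (T : Finset (Fin n)) (f : {i // i ∉ T} → MP2 n) (U : T → Fin n → MP2 n) (Δ g₁ : MP2 n),
  Gen z y → Free z → Frame z y T f U Δ → Spans z y U g₁ →
  ∀ J : Ideal (MP2 n), J.IsPrime → (∀ g, ev z y g = 0 → g ∈ J) →
  (∀ l, ∀ g ∈ J, DD (U l) g ∈ J) → ∀ x y' : Cn n, (∀ i, y' i ≠ 0) →
  (∀ g ∈ J, eval (Sum.elim x y') g = 0) → eval (Sum.elim x y') (Δ * g₁) ≠ 0 →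
  ∀ g ∈ J, ev z y g = 0

def T_G3 : Prop := ∀ (n : ℕ) (T : Finset (Fin n)) (f : {i // i ∉ T} → MP2 n)
  (U : T → Fin n → MP2 n) (Δ g₀ : MP2 n) (x₀ : Cn n), Frame0 T f U Δ →
  (∀ a, eval (Sum.elim x₀ (ex x₀)) (f a) = 0) → eval (Sum.elim x₀ (ex x₀)) (Δ * g₀) ≠ 0 →
  ∃ (Ω : Set (T → ℂ)) (t₀ : T → ℂ) (γ : (T → ℂ) → Cn n), IsOpen Ω ∧ IsPreconnected Ω ∧
    t₀ ∈ Ω ∧ γ t₀ = x₀ ∧ (∀ t ∈ Ω, AnalyticAt ℂ γ t) ∧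
    (∀ t ∈ Ω, eval (Sum.elim (γ t) (ex (γ t))) g₀ ≠ 0 ∧
      ∀ a, eval (Sum.elim (γ t) (ex (γ t))) (f a) = 0) ∧
    ∀ g : MP2 n, (∀ t ∈ Ω, eval (Sum.elim (γ t) (ex (γ t))) g = 0) →
      ∀ l, ∀ t ∈ Ω, eval (Sum.elim (γ t) (ex (γ t))) (DD (U l) g) = 0

def T_G4 : Prop := ∀ (E : Type) [NormedAddCommGroup E] [NormedSpace ℂ E] [CompleteSpace E]
  (Ω : Set E) (A : Set (E → ℂ)), IsOpen Ω → IsPreconnected Ω → Ω.Nonempty → A.Countable →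
  (∀ g ∈ A, AnalyticOnNhd ℂ g Ω ∧ ∃ t ∈ Ω, g t ≠ 0) → ∃ t ∈ Ω, ∀ g ∈ A, g t ≠ 0

def T_TD : Prop := ∀ (F : Type) [Field F] [Algebra ℂ F] (σ : Type) [Fintype σ] (a : σ → F)
  (K : Subfield ℂ) (p : σ → ℂ), IntermediateField.adjoin ℂ (Set.range a) = ⊤ →
  (∀ g : MvPolynomial σ ℂ, aeval a g = 0 →
    g ∈ Ideal.span {f : MvPolynomial σ ℂ | aeval a f = 0 ∧ ∀ mo, f.coeff mo ∈ K}) →
  (∀ g : MvPolynomial σ ℂ, (∀ mo, g.coeff mo ∈ K) → (eval p g = 0 ↔ aeval a g = 0)) →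
  Algebra.trdeg K (IntermediateField.adjoin K (Set.range p)) = Algebra.trdeg ℂ F

def T_SEC : Prop := ∀ (n : ℕ) (F : Type) [Field F] [Algebra ℂ F] (z y : Fin n → F),
  (∀ i, y i ≠ 0) → Gen z y → SRot z y →
  (∀ f, ev z y f ≠ 0 → ∃ x, OnV z y x (ex x) ∧ eval (Sum.elim x (ex x)) f ≠ 0) →
  ∀ A : Set (MP2 n), A.Countable → (∀ g ∈ A, ev z y g ≠ 0) →
  ∃ x, OnV z y x (ex x) ∧ ∀ g ∈ A, eval (Sum.elim x (ex x)) g ≠ 0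

end Pool.Agent.P.MP_d2ed07_lc
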