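import Pool.Agent.P.MP_d2ed07_lc.COORD
import Pool.Agent.P.MP_d2ed07_lc.SL2

/-! Density from geometric hypotheses. -/

namespace Pool.Agent.P.MP_d2ed07_lc

open MvPolynomial Metric Filter Topology

variable {n : ℕ} {F : Type} [Field F] [Algebra ℂ F]

theorem nice_star (D : Data n F)
    (h : ∀ (k : ℕ) (M : Fin k → Fin n → ℤ), LinearIndependent ℤ M →
      (∀ r, D.Alg (mon D.y (M r))) → AlgebraicIndependent ℂ fun r => dz (M r) D.z) :
    D.Star2 := by
  classical
  obtain ⟨r, N⟩ := (coord_L D).smithNormalForm (Pi.basisFun ℤ (Fin n))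
  let φ : coord_E n := N.bM.equivFun.symm
  have hφ : ∀ i, φ (Pi.single i 1) = N.bM i := fun i => by
    simp [φ, Pi.single_apply]
  have h1 := h r (fun a => N.bM (N.f a)) (N.bM.linearIndependent.comp _ N.f.injective) fun a => by
    have h1 := (N.bN a).2
    have h2 : N.a a ≠ 0 := fun h0 => N.bN.ne_zero a (Subtype.ext (by rw [N.snf, h0]; simp))
    rw [N.snf] at h1
    exact coord_sat D h2 h1
  rw [coord_star φ D]
  set D' := coord_D φ D
  replace h1 : AlgebraicIndependent ℂ fun a => D'.z (N.f a) := by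
    simp only [← hφ] at h1; exact h1
  by_contra hs
  have h2 : ∀ u : Cn n, (∀ a, u (N.f a) = 0) → ddir u D'.P = 0 := fun u hu => by
    by_contra h0
    refine hs ⟨u, fun m hm => Finset.sum_eq_zero fun j _ => ?_, h0⟩
    by_cases hj : j ∈ Set.range N.f
    · obtain ⟨a, rfl⟩ := hj
      rw [hu, mul_zero]
    · have := N.repr_eq_zero_of_notMem_range ⟨φ m, (coord_alg φ D m).1 hm⟩ hj
      rw [(congrFun (N.bM.equivFun.apply_symm_apply m) j).symm.trans this]
      simp
  let ψ : Fin n → MP r := fun j => if h : j ∈ Set.range N.f then X h.choose else 0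
  have h3 : rename N.f (aeval ψ D'.P) = D'.P := MvPolynomial.funext fun x => by
    have := ddir_eq_zero_iff.1 (h2 (fun j => if j ∈ Set.range N.f then 0 else x j)
      fun a => if_pos ⟨a, rfl⟩) x (-1)
    rw [eval_rename, ← coe_aeval_eq_eval, ← this, ← coe_aeval_eq_eval]
    change aeval _ (aeval ψ D'.P) = aeval _ D'.P
    rw [← AlgHom.comp_apply, comp_aeval]
    congr 2
    funext j
    by_cases hj : j ∈ Set.range N.f
    · simp only [ψ, dif_pos hj, aeval_X, Function.comp_apply, hj.choose_spec, Pi.add_apply,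
        Pi.smul_apply, if_pos hj, smul_zero, add_zero]
    · simp only [ψ, dif_neg hj, map_zero, Pi.add_apply, Pi.smul_apply, if_neg hj, smul_eq_mul]
      ring
  have h4 := algebraicIndependent_iff.1 h1 (aeval ψ D'.P) (by
    have := (D'.hP D'.P).2 dvd_rfl
    rwa [← h3, aeval_rename] at this)
  exact D'.hP0 (by rw [← h3, h4, map_zero])

theorem nice_idx {z : Fin (n + 1) → F} (h : ((n + 1 : ℕ) : Cardinal) ≤
    Algebra.trdeg ℂ (IntermediateField.adjoin ℂ (Set.range z)) + 1) :
    ∃ i₀ : Fin (n + 1), AlgebraicIndependent ℂ fun s : {s // s ≠ i₀} => z s := by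
  by_contra hc
  push Not at hc
  have key : ∀ s : Finset (Fin (n + 1)), AlgebraicIndependent ℂ (fun i : s => z i) →
      s.card < n := fun s hs => by
    by_contra h2
    have h3 : sᶜ.card ≤ 1 := by rw [Finset.card_compl, Fintype.card_fin]; omega
    obtain ⟨i₀, hi⟩ := Finset.card_le_one_iff_subset_singleton.1 h3
    have h4 : ∀ i, i ≠ i₀ → i ∈ s := fun i hi' => by
      by_contra h5
      exact hi' (Finset.mem_singleton.1 (hi (Finset.mem_compl.2 h5)))
    exact hc i₀ (hs.comp (fun a : {s // s ≠ i₀} => (⟨a.1, h4 a.1 a.2⟩ : s)) fun a b e =>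
      Subtype.ext (congrArg (fun c : s => c.1) e))
  have h0 := key ∅ (algebraicIndependent_empty_type_iff.2 (algebraMap ℂ F).injective)
  have h1 := h.trans (add_le_add_left (sl2_trdeg z (n - 1) fun s hs => by
    have := key s hs; omega) 1)
  norm_cast at h1
  simp only [Finset.card_empty] at h0
  omega

theorem nice_dens (hdom : T_DOM) (hht1 : T_HT1) (hdens2 : T_DENS2) {z y : Fin n → F}
    (hy : ∀ i, y i ≠ 0) (hf : Free z) (hm : MFree y) (hd : (n : Cardinal) ≤
      Algebra.trdeg ℂ (IntermediateField.adjoin ℂ (Set.range z)) + 1)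
    (h : ∀ (k : ℕ) (M : Fin k → Fin n → ℤ), LinearIndependent ℤ M →
      (∀ r, IsAlgebraic (IntermediateField.adjoin ℂ (Set.range z)) (mon y (M r))) →
      AlgebraicIndependent ℂ fun r => dz (M r) z) (f : MP2 n) (h0 : ev z y f ≠ 0) :
    ∃ x, OnV z y x (ex x) ∧ eval (Sum.elim x (ex x)) f ≠ 0 := by
  cases n with
  | zero =>
    refine ⟨0, fun g hg => ?_, ?_⟩
    · rw [eq_C_of_isEmpty g] at hg ⊢
      simpa [ev] using hg
    · rw [eq_C_of_isEmpty f] at h0 ⊢
      simpa [ev] using h0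
  | succ n =>
    by_cases h1 : AlgebraicIndependent ℂ z
    · exact hdom n F z y hy h1 f h0
    obtain ⟨i₀, h2⟩ := nice_idx hd
    obtain ⟨P, hP0, hP⟩ := hht1 ℂ F _ z i₀ h2 h1
    exact hdens2 _ F ⟨z, y, hy, P, hP0, hP⟩ hf hm (nice_star _ h) f h0

end Pool.Agent.P.MP_d2ed07_lc
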