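import Pool.Agent.P.MP_d2ed07_lc.Basic

/-!
Existence of a ray.
-/

namespace Pool.Agent.P.MP_d2ed07_lc

open MvPolynomial Metric Filter Topology

variable {n : ℕ}

theorem ray_pos {ι : Type} (s : Finset ι) (f : ι → ℝ) :
    ∃ γ : ℝ, 0 < γ ∧ ∀ i ∈ s, f i ≠ 0 → γ ≤ |f i| := by
  classical
  induction s using Finset.induction_on with
  | empty => exact ⟨1, one_pos, by simp⟩
  | insert a s _ ih =>
    obtain ⟨γ, h0, h⟩ := ih
    by_cases ha : f a = 0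
    · refine ⟨γ, h0, fun i hi h1 => ?_⟩
      rcases Finset.mem_insert.1 hi with rfl | hi
      · exact (h1 ha).elim
      · exact h i hi h1
    · refine ⟨min γ |f a|, lt_min h0 (abs_pos.2 ha), fun i hi h1 => ?_⟩
      rcases Finset.mem_insert.1 hi with rfl | hi
      · exact min_le_right _ _
      · exact (min_le_left _ _).trans (h i hi h1)

theorem ray_dz (m : Fin n → ℤ) {f : Fin n → ℝ} {v : Fin n → ℚ} {r K : ℝ}
    (h : ∀ i, |f i - (v i : ℝ) * r| ≤ K) :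
    |dz m f - ((dz m v : ℚ) : ℝ) * r| ≤ (∑ i, |(m i : ℝ)|) * K := by
  have : dz m f - ((dz m v : ℚ) : ℝ) * r = ∑ i, (m i : ℝ) * (f i - (v i : ℝ) * r) := by
    simp only [dz, mul_sub, Finset.sum_sub_distrib]
    push_cast
    rw [Finset.sum_mul]
    simp only [mul_assoc]
  rw [this, Finset.sum_mul]
  refine (Finset.abs_sum_le_sum_abs _ _).trans (Finset.sum_le_sum fun i _ => ?_)
  rw [abs_mul]
  exact mul_le_mul_of_nonneg_left (h i) (abs_nonneg _)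

theorem ray_trop {F : Type} [Field F] [Algebra ℂ F] (hvrel : T_VREL) (hvtrop : T_VTROP)
    (D : Data n F) (hC : D.Curve) (l : Fin n → ℤ) :
    ∃ (S : Finset (MP n)) (Z : Finset (Fin n → ℚ)) (C : ℝ), Good D.P S ∧ 1 ≤ C ∧
      (∀ v ∈ Z, dz l v = 1) ∧ ∀ (x w : Cn n) (L : ℝ), 1 ≤ L → D.OnE x w → Tm S L x →
        C * L < (dz l w).re → ∃ v ∈ Z, ∀ i, |(w i).re - (v i : ℝ) * (dz l w).re| ≤ C * L := by
  classical
  obtain ⟨N, c, hR⟩ := hvrel n F D hC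
  obtain ⟨S, C, hS, C1, -, h⟩ := hvtrop n F D N c hR
  set Z := ((dirs n N).filter fun d => 0 < dz l d).image fun d => (dz l d)⁻¹ • d with hZ
  set a : ℝ := ∑ i, |(l i : ℝ)| with ha
  set V : ℝ := ∑ v ∈ Z, ∑ i, |(v i : ℝ)| with hV
  have a0 : 0 ≤ a := Finset.sum_nonneg fun _ _ => abs_nonneg _
  have V0 : 0 ≤ V := Finset.sum_nonneg fun _ _ => Finset.sum_nonneg fun _ _ => abs_nonneg _
  have hV' : ∀ v ∈ Z, ∀ i, |(v i : ℝ)| ≤ V := fun v hv i =>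
    (Finset.single_le_sum (f := fun i => |(v i : ℝ)|) (fun _ _ => abs_nonneg _)
      (Finset.mem_univ i)).trans (Finset.single_le_sum (f := fun v : Fin n → ℚ => ∑ i, |(v i : ℝ)|)
        (fun _ _ => Finset.sum_nonneg fun _ _ => abs_nonneg _) hv)
  have aV : 0 ≤ a * V := mul_nonneg a0 V0
  refine ⟨S, Z, C * (1 + a + a * V), hS, by nlinarith, fun v hv => ?_, fun x w L L1 hw hT hl => ?_⟩
  · obtain ⟨d, hd, rfl⟩ := Finset.mem_image.1 hv
    rw [dz_smul, inv_mul_cancel₀ (Finset.mem_filter.1 hd).2.ne']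
  obtain ⟨d, hd, t, t0, ht⟩ := h x w L L1 hw hT
  have h1 := ray_dz l (f := fun i => (w i).re) (v := d) (r := t) (K := C * L) fun i => by
    rw [mul_comm (d i : ℝ)]; exact ht i
  rw [← re_dz, ← ha] at h1
  have CL : 0 ≤ C * L := by positivity
  have h2 : 0 < ((dz l d : ℚ) : ℝ) * t := by
    have := (abs_le.1 h1).2
    nlinarith [mul_nonneg aV CL]
  have h3 : 0 < dz l d := by
    have : (0 : ℝ) < ((dz l d : ℚ) : ℝ) := by
      by_contra hc
      nlinarith [mul_nonneg (neg_nonneg.2 (not_lt.1 hc)) t0]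
    exact_mod_cast this
  have hm : (dz l d)⁻¹ • d ∈ Z := Finset.mem_image.2 ⟨d, Finset.mem_filter.2 ⟨hd, h3⟩, rfl⟩
  refine ⟨_, hm, fun i => ?_⟩
  have h4 := hV' _ hm i
  have h5 : t * (d i : ℝ) = ((((dz l d)⁻¹ • d) i : ℚ) : ℝ) * (((dz l d : ℚ) : ℝ) * t) := by
    have : ((dz l d : ℚ) : ℝ) ≠ 0 := by exact_mod_cast h3.ne'
    simp only [Pi.smul_apply, smul_eq_mul]
    push_cast
    field_simp
  generalize ((((dz l d)⁻¹ • d) i : ℚ) : ℝ) = u at h4 h5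
  have h6 := ht i
  rw [h5] at h6
  have h7 : (w i).re - u * (dz l w).re = ((w i).re - u * (((dz l d : ℚ) : ℝ) * t)) -
      u * ((dz l w).re - ((dz l d : ℚ) : ℝ) * t) := by ring
  rw [h7]
  refine (abs_sub _ _).trans ?_
  rw [abs_mul]
  have h8 := mul_le_mul h4 h1 (abs_nonneg _) V0
  nlinarith [mul_nonneg a0 CL]

theorem ray_conn {E : Type} [TopologicalSpace E] {Ω : Set E} (hΩ : IsPreconnected Ω)
    {f : E → Fin n → ℝ} {r : E → ℝ} (hf : ∀ i, ContinuousOn (fun x => f x i) Ω)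
    (hr : ContinuousOn r Ω) (Z : Finset (Fin n → ℚ)) {K : ℝ}
    (h1 : ∀ x ∈ Ω, ∃ v ∈ Z, ∀ i, |f x i - (v i : ℝ) * r x| ≤ K)
    (h2 : ∀ x ∈ Ω, ∀ v ∈ Z, ∀ v' ∈ Z, (∀ i, |f x i - (v i : ℝ) * r x| ≤ K) →
      (∀ i, |f x i - (v' i : ℝ) * r x| ≤ K) → v = v')
    {x₀ : E} (hx₀ : x₀ ∈ Ω) {v : Fin n → ℚ} (hv : v ∈ Z)
    (h0 : ∀ i, |f x₀ i - (v i : ℝ) * r x₀| ≤ K) :
    ∀ x ∈ Ω, ∀ i, |f x i - (v i : ℝ) * r x| ≤ K := by
  classical
  have := isPreconnected_iff_preconnectedSpace.1 hΩ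
  have cl : ∀ u : Fin n → ℚ, IsClosed {x : Ω | ∀ i, |f x i - (u i : ℝ) * r x| ≤ K} := fun u => by
    rw [Set.ofPred_forall]
    refine isClosed_iInter fun i => isClosed_le ?_ continuous_const
    have a := continuousOn_iff_continuous_domRestrict.1 (hf i)
    have b := continuousOn_iff_continuous_domRestrict.1 hr
    exact (a.sub (continuous_const.mul b)).abs
  by_contra hcon
  push Not at hcon
  obtain ⟨x, hx, hcon⟩ := hcon
  have cover : ∀ y : Ω, (∀ i, |f y i - (v i : ℝ) * r y| ≤ K) ∨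
      y ∈ ⋃ u ∈ Z.erase v, {x : Ω | ∀ i, |f x i - (u i : ℝ) * r x| ≤ K} := fun y => by
    obtain ⟨u, hu, h⟩ := h1 y y.2
    by_cases huv : u = v
    · exact Or.inl (huv ▸ h)
    · exact Or.inr (Set.mem_biUnion (Finset.mem_erase.2 ⟨huv, hu⟩) h)
  obtain ⟨y, -, hy, hy'⟩ := isPreconnected_closed_iff.1 (isPreconnected_univ (α := Ω)) _ _ (cl v)
    ((Z.erase v).finite_toSet.isClosed_biUnion fun u _ => cl u) (fun y _ => cover y)
    ⟨⟨x₀, hx₀⟩, trivial, h0⟩ ⟨⟨x, hx⟩, trivial, (cover ⟨x, hx⟩).resolve_left fun h => by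
      obtain ⟨i, hi⟩ := hcon
      exact (h i).not_gt hi⟩
  obtain ⟨u, hu, hy'⟩ := Set.mem_iUnion₂.1 hy'
  exact (Finset.mem_erase.1 hu).1 (h2 y y.2 u (Finset.mem_erase.1 hu).2 v hv hy' hy)

theorem ray_ev (hhalf : T_HALF) (P : MP n) (f : P1 n) :
    ∃ (S : Finset (MP n)) (e : ℕ) (C : ℝ), Good P S ∧ 1 ≤ C ∧ ∀ (x : Cn n) (L : ℝ) (l : ℂ),
      1 ≤ L → eval x P = 0 → Tm S L x → C * L < l.re →
      ((∃ a, ¬ P ∣ f.coeff a) → ev1 x (Complex.exp l) f ≠ 0 ∧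
        |Real.log ‖ev1 x (Complex.exp l) f‖ - e * l.re| ≤ C * L) ∧
      ((¬ ∃ a, ¬ P ∣ f.coeff a) → ev1 x (Complex.exp l) f = 0) := by
  classical
  obtain ⟨C, C1, hC⟩ := hhalf f.natDegree
  set A := f.support.filter fun a => ¬ P ∣ f.coeff a with hA
  have mA : ∀ a, a ∈ A ↔ ¬ P ∣ f.coeff a := fun a => by
    rw [hA, Finset.mem_filter, Polynomial.mem_support_iff]
    exact ⟨fun h => h.2, fun h => ⟨fun h0 => h (h0 ▸ dvd_zero P), h⟩⟩
  refine ⟨A.image f.coeff, A.sup id, C, fun g hg => ?_, C1, fun x L l L1 hx hT hl => ?_⟩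
  · obtain ⟨a, ha, rfl⟩ := Finset.mem_image.1 hg
    exact (mA a).1 ha
  have z : ∀ a, a ∉ A → (f.map (eval x)).coeff a = 0 := fun a ha => by
    obtain ⟨c, hc⟩ := not_not.1 (mt (mA a).2 ha)
    rw [Polynomial.coeff_map, hc, map_mul, hx, zero_mul]
  have nz : ∀ a ∈ A, (f.map (eval x)).coeff a ≠ 0 := fun a ha => by
    rw [Polynomial.coeff_map]
    exact hT.ne_zero (Finset.mem_image_of_mem _ ha)
  rw [ev1_eq]
  refine ⟨fun ⟨a, ha⟩ => ?_, fun h => ?_⟩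
  · obtain ⟨b, hb, e⟩ := Finset.exists_mem_eq_sup A ⟨a, (mA a).2 ha⟩ id
    have hd : (f.map (eval x)).natDegree = A.sup id := by
      refine le_antisymm (Polynomial.natDegree_le_iff_coeff_eq_zero.2 fun j hj => z j fun h => ?_)
        (e ▸ Polynomial.le_natDegree_of_ne_zero (nz b hb))
      exact (Finset.le_sup (f := id) h).not_gt hj
    rw [← hd]
    refine hC _ L l L1 (fun h0 => nz b hb (by rw [h0, Polynomial.coeff_zero]))
      Polynomial.natDegree_map_le (fun j => ?_) hl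
    by_cases hj : j ∈ A
    · rw [Polynomial.coeff_map]
      exact Or.inr (hT _ (Finset.mem_image_of_mem _ hj))
    · exact Or.inl (z j hj)
  · have : f.map (eval x) = 0 := Polynomial.ext fun j => z j fun hj => h ⟨j, (mA j).1 hj⟩
    rw [this, Polynomial.eval_zero]

theorem ray_prod (p : Polynomial ℂ) (hp : p.Monic) (g : ℂ → ℂ) {H : ℂ} (hH : H ≠ 0) :
    (p.roots.map fun θ => Polynomial.C H * Polynomial.X - Polynomial.C (g θ)).prod ≠ 0 ∧
    (p.roots.map fun θ => Polynomial.C H * Polynomial.X - Polynomial.C (g θ)).prod.natDegree =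
      p.natDegree ∧ ∀ Y, (p.roots.map fun θ => Polynomial.C H * Polynomial.X -
        Polynomial.C (g θ)).prod.eval Y = 0 ↔ ∃ θ, p.eval θ = 0 ∧ Y * H = g θ := by
  have d1 : ∀ θ, (Polynomial.C H * Polynomial.X - Polynomial.C (g θ)).natDegree = 1 := fun θ => by
    rw [Polynomial.natDegree_sub_C, Polynomial.natDegree_C_mul_X _ hH]
  have h0 : (0 : Polynomial ℂ) ∉
      p.roots.map fun θ => Polynomial.C H * Polynomial.X - Polynomial.C (g θ) := fun h => by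
    obtain ⟨θ, -, h⟩ := Multiset.mem_map.1 h
    have := d1 θ
    rw [h] at this
    simp at this
  refine ⟨Multiset.prod_ne_zero h0, ?_, fun Y => ?_⟩
  · rw [Polynomial.natDegree_multiset_prod _ h0, Multiset.map_map]
    simp only [Function.comp_def, d1, Multiset.map_const', Multiset.sum_replicate, smul_eq_mul,
      mul_one]
    exact IsAlgClosed.card_roots_eq_natDegree
  · rw [Polynomial.eval_multiset_prod, Multiset.prod_eq_zero_iff, Multiset.map_map,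
      Multiset.mem_map]
    refine exists_congr fun θ => and_congr (Polynomial.mem_roots hp.ne_zero) ?_
    simp only [Function.comp_def, Polynomial.eval_sub, Polynomial.eval_mul, Polynomial.eval_C,
      Polynomial.eval_X, sub_eq_zero, mul_comm H]

/-- the slope condition read off from the Newton polygon at infinity -/
def ray_Pi (d : ℕ) (Has : ℕ → Prop) (e : ℕ → ℕ) (s : ℝ) : Prop :=
  (∀ j < d, Has j → (e j : ℝ) - e d - (d - j : ℝ) * s ≤ 0) ∧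
    ∃ j < d, Has j ∧ 0 ≤ (e j : ℝ) - e d - (d - j : ℝ) * s

theorem ray_Pi_le {d : ℕ} {Has : ℕ → Prop} {e : ℕ → ℕ} {s s' : ℝ} (h : ray_Pi d Has e s)
    (h' : ray_Pi d Has e s') : s ≤ s' := by
  obtain ⟨j, hj, h1, h2⟩ := h.2
  have h3 := h'.1 j hj h1
  have h4 : (0 : ℝ) < d - j := sub_pos.2 (by exact_mod_cast hj)
  exact le_of_mul_le_mul_left (by linarith) h4

theorem ray_base (hroot : T_ROOT) (d : ℕ) : ∃ C : ℝ, 0 ≤ C ∧ ∀ (f : Polynomial ℂ) (Y : ℂ)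
    (Has : ℕ → Prop) (e : ℕ → ℕ) (s r K δ : ℝ), f.natDegree = d → f.eval Y = 0 → Y ≠ 0 → f ≠ 0 →
    (∀ Y', f.eval Y' = 0 → ‖Y'‖ ≤ ‖Y‖) → 1 ≤ K → 0 < r →
    (∀ j ≤ d, (Has j → f.coeff j ≠ 0 ∧ |Real.log ‖f.coeff j‖ - e j * r| ≤ K) ∧
      (¬ Has j → f.coeff j = 0)) → |Real.log ‖Y‖ - s * r| ≤ K →
    (∀ j < d, (e j : ℝ) - e d - (d - j : ℝ) * s ≠ 0 → δ ≤ |(e j : ℝ) - e d - (d - j : ℝ) * s|) →
    C * K < δ * r → ray_Pi d Has e s := by
  obtain ⟨C, C0, hC⟩ := hroot d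
  refine ⟨2 + d * (1 + C), by positivity, fun f Y Has e s r K δ hd hY Y0 f0 hm K1 r0 hc hs hδ hr =>
    ?_⟩
  obtain ⟨h1, j, hj, h2, h3⟩ := hC f Y hd hY Y0 f0 hm
  have ld : f.coeff d ≠ 0 := hd ▸ Polynomial.leadingCoeff_ne_zero.2 f0
  have bd := abs_le.1 ((hc d le_rfl).1 (not_not.1 fun h => ld ((hc d le_rfl).2 h))).2
  have bs := abs_le.1 hs
  have bj : ∀ j < d, (0 : ℝ) ≤ d - j ∧ (d - j : ℝ) * (K + C) ≤ d * (1 + C) * K := fun j hj => by
    have a1 : (0 : ℝ) ≤ d - j := sub_nonneg.2 (by exact_mod_cast hj.le)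
    have a2 : (d - j : ℝ) ≤ d := sub_le_self _ (Nat.cast_nonneg j)
    have a3 : K + C ≤ (1 + C) * K := by nlinarith
    exact ⟨a1, by rw [mul_assoc]; exact mul_le_mul a2 a3 (by linarith) (Nat.cast_nonneg d)⟩
  refine ⟨fun j hj hH => ?_, j, hj, not_not.1 fun h => h2 ((hc j hj.le).2 h), ?_⟩
  · obtain ⟨a1, a2⟩ := (hc j hj.le).1 hH
    have a3 := h1 j hj a1
    have a4 := abs_le.1 a2
    obtain ⟨b1, b2⟩ := bj j hj
    have a5 : (d - j : ℝ) * (Real.log ‖Y‖ + C) ≤ (d - j : ℝ) * (s * r + (K + C)) :=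
      mul_le_mul_of_nonneg_left (by linarith) b1
    by_contra hq
    push Not at hq
    have a6 := hδ j hj hq.ne'
    rw [abs_of_pos hq] at a6
    have a7 := mul_le_mul_of_nonneg_right a6 r0.le
    nlinarith
  · have a4 := abs_le.1 ((hc j hj.le).1 (not_not.1 fun h => h2 ((hc j hj.le).2 h))).2
    obtain ⟨b1, b2⟩ := bj j hj
    have a5 : (d - j : ℝ) * (s * r - (K + C)) ≤ (d - j : ℝ) * (Real.log ‖Y‖ - C) :=
      mul_le_mul_of_nonneg_left (by linarith) b1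
    by_contra hq
    push Not at hq
    have a6 := hδ j hj hq.ne
    rw [abs_of_neg hq] at a6
    have a7 := mul_le_mul_of_nonneg_right a6 r0.le
    nlinarith

theorem t_ray (hvrel : T_VREL) (hvtrop : T_VTROP) (hparam : T_PARAM) (hlift : T_LIFT)
    (hres : T_RES) (hhalf : T_HALF) (hroot : T_ROOT) (hsep : T_SEP) : T_RAY := by
  classical
  intro n F _ _ D hC l hl
  obtain ⟨S₀, Z, C₂, gS₀, C₂1, hZ, htr⟩ := ray_trop hvrel hvtrop D hC l
  obtain ⟨m, hm⟩ := hsep n Z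
  set M : Finset (Fin n → ℤ) := insert m (Finset.univ.image fun i => Pi.single i 1) with hM
  obtain ⟨μ, h, G, hP⟩ := hparam n F D hC l hl M
  obtain ⟨Γ, hΓ⟩ := hres n μ (G m) h hP.1
  obtain ⟨Sh, eh, Ch, gSh, Ch1, hh⟩ := ray_ev hhalf D.P h
  choose S e C gS C1 hS using fun j => ray_ev hhalf D.P (Γ.coeff j)
  set d := μ.natDegree with hd
  obtain ⟨C₄, C₄0, hbase⟩ := ray_base hroot d
  set Has : ℕ → Prop := fun j => ∃ a, ¬ D.P ∣ (Γ.coeff j).coeff a with hHas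
  obtain ⟨v, hv1, hv⟩ : ∃ v, dz l v = 1 ∧ ∀ v' ∈ Z, ray_Pi d Has e (dz m v' : ℚ) → v' = v := by
    by_cases hex : ∃ v ∈ Z, ray_Pi d Has e (dz m v : ℚ)
    · obtain ⟨v, hv, hp⟩ := hex
      refine ⟨v, hZ v hv, fun v' hv' hp' => hm v' hv' v hv ?_⟩
      exact_mod_cast le_antisymm (ray_Pi_le hp' hp) (ray_Pi_le hp hp')
    · have l0 : l ≠ 0 := by
        rintro rfl
        exact hl (by rw [mon_zero]; exact isAlgebraic_one)
      obtain ⟨i, hi⟩ := Function.ne_iff.1 l0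
      refine ⟨(l i : ℚ)⁻¹ • Pi.single i 1, ?_, fun v' hv' hp => (hex ⟨v', hv', hp⟩).elim⟩
      rw [dz_smul, dz_single, inv_mul_cancel₀ (by exact_mod_cast hi)]
  obtain ⟨γ, γ0, hγ⟩ := ray_pos (Z ×ˢ Z) fun p => ((dz m p.1 : ℚ) : ℝ) - (dz m p.2 : ℚ)
  obtain ⟨δ, δ0, hδ⟩ := ray_pos (Z ×ˢ Finset.range d) fun p =>
    (e p.2 : ℝ) - e d - (d - p.2 : ℝ) * (dz m p.1 : ℚ)
  obtain ⟨b, hb⟩ : ∃ b : ℝ, b = ∑ i, |(m i : ℝ)| := ⟨_, rfl⟩
  have b0 : 0 ≤ b := hb ▸ Finset.sum_nonneg fun _ _ => abs_nonneg _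
  obtain ⟨C₃, hC₃⟩ : ∃ C₃ : ℝ, C₃ = ∑ j ∈ Finset.range (d + 1), C j := ⟨_, rfl⟩
  have C₃j : ∀ j ≤ d, C j ≤ C₃ := fun j hj => hC₃ ▸ Finset.single_le_sum (f := C)
    (fun j _ => zero_le_one.trans (C1 j)) (Finset.mem_range.2 (Nat.lt_succ_of_le hj))
  have C₃1 : 1 ≤ C₃ := (C1 0).trans (C₃j 0 (Nat.zero_le d))
  have q0 : 0 ≤ 2 * b * C₂ / γ := by positivity
  have bC : 0 ≤ b * C₂ := by positivity
  obtain ⟨K, hK⟩ : ∃ K : ℝ, K = C₂ + Ch + C₃ + b * C₂ + 2 * b * C₂ / γ := ⟨_, rfl⟩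
  have K1 : 1 ≤ K := by linarith
  refine ⟨v, ⟨S₀ ∪ Sh ∪ (Finset.range (d + 1)).biUnion S, K,
    (gS₀.union gSh).union fun g hg => ?_, K1, fun B ζ L cB oB dζ L1 hB => ?_⟩, hv1⟩
  · obtain ⟨j, -, hj⟩ := Finset.mem_biUnion.1 hg
    exact gS j g hj
  rcases B.eq_empty_or_nonempty with rfl | ⟨x₀, hx₀⟩
  · exact ⟨0, by simp, by simp⟩
  have L0 : 0 ≤ L := by linarith
  have le : ∀ {c : ℝ}, c ≤ K → c * L ≤ K * L := fun h => mul_le_mul_of_nonneg_right h L0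
  have KL : 1 ≤ K * L := one_le_mul_of_one_le_of_one_le K1 L1
  have T0 : ∀ x ∈ B, Tm S₀ L (ζ x) := fun x hx => (hB x hx).2.subset
    (Finset.subset_union_left.trans Finset.subset_union_left)
  have Th : ∀ x ∈ B, Tm Sh L (ζ x) := fun x hx => (hB x hx).2.subset
    (Finset.subset_union_right.trans Finset.subset_union_left)
  have Tj : ∀ j ≤ d, Tm (S j) L (ζ x₀) := fun j hj => (hB x₀ hx₀).2.subset
    ((Finset.subset_biUnion_of_mem S (Finset.mem_range.2 (Nat.lt_succ_of_le hj))).trans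
      Finset.subset_union_right)
  have hH : ∀ p ∈ B ×ˢ half (K * L), eval (ζ p.1) D.P = 0 ∧
      ev1 (ζ p.1) (Complex.exp p.2) h ≠ 0 := fun p hp => ⟨(hB _ hp.1).1,
    ((hh _ L _ L1 (hB _ hp.1).1 (Th _ hp.1) ((le (by linarith)).trans_lt hp.2)).1 hP.2.2.1).1⟩
  obtain ⟨r, hr⟩ : ∃ r : ℝ, r = K * L + C₄ * (K * L) / δ + 1 := ⟨_, rfl⟩
  have q1 : 0 ≤ C₄ * (K * L) / δ := by positivity
  have r1 : K * L < r := by linarith
  have r2 : C₄ * (K * L) < δ * r := by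
    rw [← div_lt_iff₀' δ0]; linarith
  have hp₀ : (x₀, (r : ℂ)) ∈ B ×ˢ half (K * L) := ⟨hx₀, r1⟩
  have mon : (sp2 (ζ x₀) (Complex.exp r) μ).Monic := hP.1.map _
  have deg : (sp2 (ζ x₀) (Complex.exp r) μ).natDegree = d := hP.1.natDegree_map _
  obtain ⟨f0, fd, fr⟩ := ray_prod _ mon (fun θ => (sp2 (ζ x₀) (Complex.exp r) (G m)).eval θ)
    (hH _ hp₀).2
  rw [← hΓ] at f0 fd fr
  obtain ⟨θ₀, hθ₀, hmax⟩ := Finset.exists_max_image (sp2 (ζ x₀) (Complex.exp r) μ).roots.toFinset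
    (fun θ => ‖(sp2 (ζ x₀) (Complex.exp r) (G m)).eval θ‖) (by
      rw [Multiset.toFinset_nonempty, ← Multiset.card_pos, IsAlgClosed.card_roots_eq_natDegree, deg]
      exact hP.2.1)
  simp only [Multiset.mem_toFinset, Polynomial.mem_roots mon.ne_zero] at hθ₀ hmax
  obtain ⟨θ, w, j, eθ, dw, hw⟩ := hlift n F D l M μ h G hP
    (fun i => Finset.mem_insert_of_mem (Finset.mem_image_of_mem _ (Finset.mem_univ i)))
    (Cn n × ℂ) (B ×ˢ half (K * L)) (fun p => ζ p.1) Prod.snd (cB.prod (convex_half _))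
    (oB.prod (isOpen_half _)) (dζ.comp differentiableOn_fst fun p hp => hp.1)
    differentiableOn_snd hH _ hp₀ θ₀ hθ₀
  have hre : ∀ p ∈ B ×ˢ half (K * L), (dz l (w p)).re = p.2.re := fun p hp => by
    rw [(hw p hp).2.2.1]; simp
  have h1 : ∀ p ∈ B ×ˢ half (K * L), ∃ u ∈ Z, ∀ i, |(w p i).re - (u i : ℝ) * p.2.re| ≤ C₂ * L :=
    fun p hp => hre p hp ▸ htr _ _ L L1 (hw p hp).2.1 (T0 _ hp.1)
      (by rw [hre p hp]; exact (le (by linarith)).trans_lt hp.2)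
  obtain ⟨u, hu, hu0⟩ := h1 _ hp₀
  have huv : u = v := by
    have eY := (hw _ hp₀).2.2.2 m (Finset.mem_insert_self _ _)
    rw [eθ] at eY
    refine hv u hu (hbase _ (Complex.exp (dz m (w (x₀, r)))) Has e _ r (K * L) δ (fd.trans deg)
      ((fr _).2 ⟨θ₀, hθ₀, eY⟩) (Complex.exp_ne_zero _) f0 (fun Y' hY' => ?_) KL (by linarith)
      (fun j hj => ?_) ?_ (fun j hj => hδ (u, j) (by simp [hu, hj])) r2)
    · obtain ⟨θ', a1, a2⟩ := (fr _).1 hY'
      have a3 := hmax θ' a1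
      rw [← a2, ← eY, norm_mul, norm_mul] at a3
      exact le_of_mul_le_mul_right a3 (norm_pos_iff.2 (hH _ hp₀).2)
    · rw [coeff_sp2]
      have a0 : C j * L ≤ K * L := le (by linarith [C₃j j hj])
      obtain ⟨a1, a2⟩ := hS j (ζ x₀) L r L1 (hB x₀ hx₀).1 (Tj j hj) (a0.trans_lt r1)
      exact ⟨fun hj' => ⟨(a1 hj').1, (a1 hj').2.trans a0⟩, a2⟩
    · rw [Complex.norm_exp, Real.log_exp, re_dz]
      refine (ray_dz m hu0).trans ?_
      rw [← hb, ← mul_assoc]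
      exact le (by linarith)
  subst huv
  have key := ray_conn (cB.prod (convex_half (K * L))).isPreconnected
    (f := fun p i => (w p i).re) (r := fun p => p.2.re)
    (fun i => Complex.continuous_re.comp_continuousOn
      ((continuous_apply i).comp_continuousOn dw.continuousOn)) (by fun_prop) Z h1
    (fun p hp v hv v' hv' a a' => hm v hv v' hv' ?_) hp₀ hu hu0
  · exact ⟨w, dw, fun x hx t ht => ⟨(hw (x, t) ⟨hx, ht⟩).2.1, fun i =>
      (key (x, t) ⟨hx, ht⟩ i).trans (le (by linarith))⟩⟩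
  · by_contra hne
    have a1 := hγ (v, v') (by simp [hv, hv']) (sub_ne_zero.2 (by exact_mod_cast hne))
    have a2 := abs_le.1 (ray_dz m a)
    have a3 := abs_le.1 (ray_dz m a')
    rw [← hb] at a2 a3
    have a4 : 2 * b * C₂ / γ * L < p.2.re := (le (by linarith)).trans_lt hp.2
    rw [div_mul_eq_mul_div, div_lt_iff₀ γ0] at a4
    have a5 : 0 ≤ p.2.re := by linarith [show K * L < p.2.re from hp.2]
    have a6 := mul_le_mul_of_nonneg_right a1 a5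
    have a7 : |((dz m v : ℚ) : ℝ) - (dz m v' : ℚ)| * p.2.re ≤ 2 * (b * (C₂ * L)) := by
      rw [← abs_of_nonneg a5, ← abs_mul, abs_le, sub_mul]
      constructor <;> linarith [a2.1, a2.2, a3.1, a3.2]
    linarith

end Pool.Agent.P.MP_d2ed07_lc
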