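import Pool.Agent.P.MP_d2ed07_lc.Basic2
import Pool.Agent.P.MP_d2ed07_lc.PARAM

/-!
The squarefree part of a polynomial over a hypersurface.
-/

namespace Pool.Agent.P.MP_d2ed07_lc

open MvPolynomial Metric Filter Topology

theorem sqf_abs {R K : Type} [CommRing R] [Field K] [CharZero K] (φ : R →+* K)
    (hfr : ∀ a : K, ∃ r s, φ s ≠ 0 ∧ φ s * a = φ r) (h : Polynomial R) (hh : h.map φ ≠ 0) :
    ∃ (h₁ q A B : Polynomial R) (d c : R) (a e : ℕ), φ (h₁.coeff 0) ≠ 0 ∧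
      φ h₁.leadingCoeff ≠ 0 ∧ φ d ≠ 0 ∧ φ c ≠ 0 ∧
      (A * h₁ + B * Polynomial.derivative h₁ - Polynomial.C d).map φ = 0 ∧
      (Polynomial.C c * Polynomial.X ^ a * h₁ ^ e - h * q).map φ = 0 := by
  obtain ⟨g, hg, hnd⟩ := Polynomial.exists_eq_pow_rootMultiplicity_mul_and_not_dvd _ hh 0
  set a := Polynomial.rootMultiplicity 0 (h.map φ) with ha
  rw [map_zero, sub_zero] at hg hnd
  have hg0 : g ≠ 0 := fun h0 => hnd (h0 ▸ dvd_zero _)
  obtain ⟨y, e, hy, hyg, qb, hq⟩ := exists_squarefree_dvd_pow_of_ne_zero hg0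
  have hy0 : y.coeff 0 ≠ 0 := fun h0 => hnd ((Polynomial.X_dvd_iff.2 h0).trans hyg)
  obtain ⟨u, v, huv⟩ := PerfectField.separable_iff_squarefree.2 hy
  obtain ⟨s, Y, hs, eY⟩ := param_den φ hfr y
  obtain ⟨h₁, e1, d1⟩ := Polynomial.exists_degree_eq_of_mem_lifts
    (p := Polynomial.C (φ s) * y) (f := φ) ⟨Y, eY⟩
  obtain ⟨su, U, hsu, eU⟩ := param_den φ hfr u
  obtain ⟨sv, V, hsv, eV⟩ := param_den φ hfr v
  obtain ⟨sq, Q, hsq, eQ⟩ := param_den φ hfr qb
  have hne : Polynomial.C (φ s) * y ≠ 0 :=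
    mul_ne_zero (Polynomial.C_ne_zero.2 hs) hy.ne_zero
  refine ⟨h₁, Polynomial.C (s ^ e) * Q, Polynomial.C sv * U, Polynomial.C su * V, s * su * sv, sq,
    a, e, ?_, ?_, by simp [hs, hsu, hsv], hsq, ?_, ?_⟩
  · rw [← Polynomial.coeff_map, e1, Polynomial.coeff_C_mul]
    exact mul_ne_zero hs hy0
  · rw [Polynomial.leadingCoeff, ← Polynomial.coeff_map, e1,
      Polynomial.natDegree_eq_of_degree_eq d1]
    exact Polynomial.leadingCoeff_ne_zero.2 hne
  · simp only [Polynomial.map_sub, Polynomial.map_add, Polynomial.map_mul, Polynomial.map_C,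
      ← Polynomial.derivative_map, e1, eU, eV, map_mul, Polynomial.derivative_C_mul]
    linear_combination (Polynomial.C (φ s) * Polynomial.C (φ su) * Polynomial.C (φ sv)) * huv
  · simp only [Polynomial.map_sub, Polynomial.map_mul, Polynomial.map_C, Polynomial.map_pow,
      Polynomial.map_X, e1, eQ, map_pow, mul_pow, hq]
    rw [hg]
    ring

theorem sqf_ev {n : ℕ} {P : MP n} {G : P1 n} (hG : ∀ j, P ∣ G.coeff j) {x : Cn n} (β : ℂ)
    (hx : eval x P = 0) : ev1 x β G = 0 := by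
  rw [ev1_eq_sum x β G le_rfl]
  refine Finset.sum_eq_zero fun j _ => ?_
  obtain ⟨r, hr⟩ := hG j
  rw [hr, map_mul, hx, zero_mul, zero_mul]

theorem t_sqf : T_SQF := by
  intro n P h hP hh
  have hI : (Ideal.span {P}).IsPrime := (Ideal.span_singleton_prime hP.ne_zero).2 hP
  let φ : MP n →+* FractionRing (MP n ⧸ Ideal.span {P}) :=
    (algebraMap (MP n ⧸ Ideal.span {P}) _).comp (Ideal.Quotient.mk _)
  have hker : ∀ g, φ g = 0 ↔ P ∣ g := fun g => by
    simp only [φ, RingHom.comp_apply]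
    rw [map_eq_zero_iff _ (IsFractionRing.injective _ _), Ideal.Quotient.eq_zero_iff_mem,
      Ideal.mem_span_singleton]
  have hfr : ∀ a, ∃ r s, φ s ≠ 0 ∧ φ s * a = φ r := fun a => by
    obtain ⟨r, s, hs, rfl⟩ := IsFractionRing.div_surjective (A := MP n ⧸ Ideal.span {P}) a
    obtain ⟨r, rfl⟩ := Ideal.Quotient.mk_surjective r
    obtain ⟨s, rfl⟩ := Ideal.Quotient.mk_surjective s
    have h0 : φ s ≠ 0 := fun h => nonZeroDivisors.ne_zero hs
      (Ideal.Quotient.eq_zero_iff_mem.2 (Ideal.mem_span_singleton.2 ((hker s).1 h)))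
    exact ⟨r, s, h0, mul_div_cancel₀ _ h0⟩
  have hc : CharZero (FractionRing (MP n ⧸ Ideal.span {P})) :=
    (RingHom.charZero_iff (φ.comp (C : ℂ →+* MP n)).injective).1 inferInstance
  have hz : ∀ G : P1 n, G.map φ = 0 → ∀ j, P ∣ G.coeff j := fun G hG j => by
    rw [← hker, ← Polynomial.coeff_map, hG, Polynomial.coeff_zero]
  obtain ⟨h₁, q, A, B, d, c, a, e, h1, h2, h3, h4, h5, h6⟩ := sqf_abs φ hfr h fun h0 => by
    obtain ⟨j, hj⟩ := hh
    exact hj (hz h h0 j)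
  refine ⟨h₁, q, d, c, a, e, ⟨fun h => h1 ((hker _).2 h), fun h => h2 ((hker _).2 h),
    fun h => h3 ((hker _).2 h), A, B, hz _ h5⟩, fun h => h4 ((hker _).2 h), fun x β hx => ?_⟩
  have := sqf_ev (hz _ h6) β hx
  simpa [ev1, Polynomial.eval₂_sub, Polynomial.eval₂_mul, Polynomial.eval₂_pow, sub_eq_zero]
    using this

end Pool.Agent.P.MP_d2ed07_lc
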