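import Pool.Agent.P.MP_d2ed07_lc.Basic

/-!
Lifting along horizontal strips with bounded oscillation.
-/

namespace Pool.Agent.P.MP_d2ed07_lc

open MvPolynomial Metric Filter Topology

/-- the majorant of an exponential polynomial -/
noncomputable def stripM (d : ℕ) (u : ℕ → ℂ) (t : ℝ) : ℝ :=
  ∑ a ∈ Finset.range (d + 1), ‖u a‖ * Real.exp (a * t)

theorem strip_norm (u : ℂ) (l : ℂ) (a : ℕ) :
    ‖u * Complex.exp l ^ a‖ = ‖u‖ * Real.exp (a * l.re) := by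
  rw [norm_mul, norm_pow, Complex.norm_exp, Real.exp_nat_mul]

theorem strip_le (d : ℕ) (u v : ℕ → ℂ) (c : ℝ) (l : ℂ) (h : ∀ a, ‖u a‖ ≤ c * ‖v a‖) :
    ‖∑ a ∈ Finset.range (d + 1), u a * Complex.exp l ^ a‖ ≤ c * stripM d v l.re := by
  refine (norm_sum_le _ _).trans ?_
  rw [stripM, Finset.mul_sum]
  refine Finset.sum_le_sum fun a _ => ?_
  rw [strip_norm, ← mul_assoc]
  exact mul_le_mul_of_nonneg_right (h a) (Real.exp_pos _).le

theorem strip_shift (d : ℕ) (u : ℕ → ℂ) {t t' : ℝ} (h : t - t' ≤ 1) :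
    stripM d u t ≤ Real.exp d * stripM d u t' := by
  rw [stripM, stripM, Finset.mul_sum]
  refine Finset.sum_le_sum fun a ha => ?_
  rw [mul_left_comm, ← Real.exp_add]
  refine mul_le_mul_of_nonneg_left (Real.exp_le_exp.2 ?_) (norm_nonneg _)
  have h1 : (a : ℝ) ≤ d := by exact_mod_cast Nat.lt_succ_iff.1 (Finset.mem_range.1 ha)
  have h2 : (0 : ℝ) ≤ a := Nat.cast_nonneg _
  nlinarith

theorem strip_pos (d : ℕ) (u : ℕ → ℂ) (t : ℝ) {a : ℕ} (ha : a ≤ d) (h : u a ≠ 0) :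
    0 < stripM d u t :=
  Finset.sum_pos' (fun _ _ => by positivity)
    ⟨a, Finset.mem_range.2 (Nat.lt_succ_of_le ha), mul_pos (norm_pos_iff.2 h) (Real.exp_pos _)⟩

theorem strip_est (d : ℕ) (u v : ℕ → ℂ) {κ : ℝ} (κ0 : 0 < κ) (κ1 : κ ≤ 1) (l : ℂ) {t : ℝ}
    (ht : |l.re - t| ≤ 1) {a : ℕ} (ha : a ≤ d) (hv : v a ≠ 0)
    (h : ∀ a, ‖u a - v a‖ ≤ κ / 2 * ‖v a‖)
    (h0 : κ * stripM d v l.re ≤ ‖∑ a ∈ Finset.range (d + 1), v a * Complex.exp l ^ a‖) :
    ∑ a ∈ Finset.range (d + 1), u a * Complex.exp l ^ a ≠ 0 ∧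
      |Real.log ‖∑ a ∈ Finset.range (d + 1), u a * Complex.exp l ^ a‖ -
        Real.log (stripM d v t)| ≤ Real.log (2 / κ) + d := by
  have h1 := strip_le d (fun a => u a - v a) v _ l h
  simp only [sub_mul, Finset.sum_sub_distrib] at h1
  have h2 := strip_le d v v 1 l fun a => (one_mul _).ge
  set X := ∑ a ∈ Finset.range (d + 1), u a * Complex.exp l ^ a
  set Y := ∑ a ∈ Finset.range (d + 1), v a * Complex.exp l ^ a
  have m1 := strip_pos d v l.re ha hv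
  have m2 := strip_pos d v t ha hv
  have h3 := abs_le.1 (abs_norm_sub_norm_le X Y)
  have ht' := abs_le.1 ht
  have s1 := strip_shift d v (t := l.re) (t' := t) ht'.2
  have s2 := strip_shift d v (t := t) (t' := l.re) (by linarith [ht'.1])
  have l1 : κ / 2 * stripM d v l.re ≤ ‖X‖ := by linarith [h3.1]
  have l2 : ‖X‖ ≤ 2 / κ * stripM d v l.re := by
    have : 2 ≤ 2 / κ := by rw [le_div_iff₀ κ0]; linarith
    nlinarith [h3.2]
  have x0 : 0 < ‖X‖ := lt_of_lt_of_le (by positivity) l1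
  have k0 : 0 < 2 / κ := by positivity
  have t1 := Real.log_le_log m1 s1
  have t2 := Real.log_le_log m2 s2
  rw [Real.log_mul (Real.exp_pos _).ne' m2.ne', Real.log_exp] at t1
  rw [Real.log_mul (Real.exp_pos _).ne' m1.ne', Real.log_exp] at t2
  have t3 := Real.log_le_log x0 l2
  rw [Real.log_mul k0.ne' m1.ne'] at t3
  have l3 : stripM d v l.re ≤ 2 / κ * ‖X‖ := by
    rw [div_mul_eq_mul_div, le_div_iff₀ κ0]; linarith
  have t4 := Real.log_le_log m1 l3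
  rw [Real.log_mul k0.ne' x0.ne'] at t4
  exact ⟨norm_pos_iff.1 x0, abs_le.2 ⟨by linarith, by linarith⟩⟩

theorem strip_div {b b' : ℕ} (hb : b ≠ b') {x α r : ℝ} (h : |((b : ℝ) - b') * x - α| ≤ r) :
    |x - α / ((b : ℝ) - b')| ≤ r := by
  have h1 : (1 : ℝ) ≤ |(b : ℝ) - b'| := by
    have : (1 : ℤ) ≤ |(b : ℤ) - b'| := Int.one_le_abs (sub_ne_zero.2 (by exact_mod_cast hb))
    exact_mod_cast this
  have h2 : (b : ℝ) - b' ≠ 0 := fun h0 => by rw [h0, abs_zero] at h1; linarith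
  have h3 : ((b : ℝ) - b') * x - α = ((b : ℝ) - b') * (x - α / ((b : ℝ) - b')) := by
    field_simp
  rw [h3, abs_mul] at h
  nlinarith [abs_nonneg (x - α / ((b : ℝ) - b'))]

variable {n : ℕ}

/-- one column of a relation as a polynomial -/
noncomputable def stripH (N : ℕ) (c : ℕ × ℕ → MP n) (b : ℕ) : P1 n :=
  ∑ a ∈ Finset.range (N + 1), Polynomial.monomial a (c (a, b))

theorem strip_deg (N : ℕ) (c : ℕ × ℕ → MP n) (b : ℕ) : (stripH N c b).natDegree ≤ N :=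
  Polynomial.natDegree_sum_le_of_forall_le _ _ fun _ ha =>
    (Polynomial.natDegree_monomial_le _).trans (Nat.lt_succ_iff.1 (Finset.mem_range.1 ha))

theorem strip_coeff (N : ℕ) (c : ℕ × ℕ → MP n) (b : ℕ) {a : ℕ} (ha : a ∈ Finset.range (N + 1)) :
    (stripH N c b).coeff a = c (a, b) := by
  rw [stripH, Polynomial.finsetSum_coeff]
  simp only [Polynomial.coeff_monomial]
  rw [Finset.sum_ite_eq', if_pos ha]

theorem strip_sum (N : ℕ) (c : ℕ × ℕ → MP n) (x : Cn n) (β γ : ℂ) :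
    ∑ b ∈ Finset.range (N + 1), ev1 x β (stripH N c b) * γ ^ b =
      ∑ ab ∈ sq N, eval x (c ab) * (β ^ ab.1 * γ ^ ab.2) := by
  rw [sq, Finset.sum_product_right]
  refine Finset.sum_congr rfl fun b _ => ?_
  rw [ev1_eq_sum x β _ (strip_deg N c b), Finset.sum_mul]
  refine Finset.sum_congr rfl fun a ha => ?_
  rw [strip_coeff N c b ha, mul_assoc]

theorem strip_mon {F : Type} [Field F] {y : Fin n → F} (hy : ∀ i, y i ≠ 0) (l : Fin n → ℤ)
    (i : Fin n) (ab : ℕ × ℕ) : mon y ((ab.1 : ℤ) • l + (ab.2 : ℤ) • Pi.single i 1) =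
      mon y l ^ ab.1 * y i ^ ab.2 := by
  rw [mon_add hy, mon_smul, mon_smul, mon_single, zpow_natCast, zpow_natCast]

theorem t_strip (hrel2 : T_REL2) (htrans : T_TRANS) (hparam : T_PARAM) (hlift : T_LIFT)
    (hang : T_ANG) (htwo : T_TWO) (hcover : T_COVER) : T_STRIP := by
  classical
  intro n F _ _ D hC l hl
  obtain ⟨μ, h, G, hP⟩ := hparam n F D hC l hl
    (Finset.univ.image fun i : Fin n => (Pi.single i 1 : Fin n → ℤ))
  have r2 : ∀ i : Fin n, ∃ (N : ℕ) (c : ℕ × ℕ → MP n),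
      (∀ ab, c ab = 0 ∨ ¬ D.P ∣ c ab) ∧ (∃ ab ∈ sq N, c ab ≠ 0) ∧
      ∑ ab ∈ sq N, aeval D.z (c ab) * (mon D.y l ^ ab.1 * D.y i ^ ab.2) = 0 := fun i => by
    have := hC l (Pi.single i 1)
    rw [mon_single] at this
    exact hrel2 n F D _ _ this
  choose N c c1 c2 c3 using r2
  obtain ⟨d, hd, hN⟩ : ∃ d : ℕ, h.natDegree ≤ d ∧ ∀ i, N i ≤ d :=
    ⟨max h.natDegree (Finset.univ.sup N), le_max_left _ _,
      fun i => (Finset.le_sup (Finset.mem_univ i)).trans (le_max_right _ _)⟩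
  obtain ⟨T, hT, hT', dT⟩ : ∃ T : Finset (P1 n), h ∈ T ∧
      (∀ i, ∀ b ∈ Finset.range (N i + 1), stripH (N i) (c i) b ∈ T) ∧
      ∀ g ∈ T, g.natDegree ≤ d := by
    refine ⟨insert h (Finset.univ.biUnion fun i =>
      (Finset.range (N i + 1)).image (stripH (N i) (c i))), Finset.mem_insert_self _ _,
      fun i b hb => Finset.mem_insert_of_mem (Finset.mem_biUnion.2
        ⟨i, Finset.mem_univ _, Finset.mem_image_of_mem _ hb⟩), fun g hg => ?_⟩
    rcases Finset.mem_insert.1 hg with rfl | hg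
    · exact hd
    · obtain ⟨i, _, hg⟩ := Finset.mem_biUnion.1 hg
      obtain ⟨b, _, rfl⟩ := Finset.mem_image.1 hg
      exact (strip_deg _ _ _).trans (hN i)
  obtain ⟨ε, κ, ε0, -, κ0, κ1, hA⟩ := hang d T.card
  have lk : 0 ≤ Real.log (2 / κ) := Real.log_nonneg (by rw [le_div_iff₀ κ0]; linarith)
  have ld : 0 ≤ Real.log ((d + 1 : ℕ) : ℝ) := Real.log_natCast_nonneg _
  set r := 2 * (Real.log (2 / κ) + d) + Real.log ((d + 1 : ℕ) : ℝ) with hr
  have r0 : 0 ≤ r := by positivity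
  refine ⟨(T.biUnion fun g => (Finset.range (d + 1)).image g.coeff).filter fun g => ¬ D.P ∣ g,
    2 * r * ((d + 1) * (d + 1) : ℕ), ε, κ / 2, fun g hg => (Finset.mem_filter.1 hg).2,
    by positivity, ε0, by positivity, fun B x₀ ζ B1 B2 B3 hζ hz hS => ?_⟩
  have le_d : ∀ g ∈ T, ∀ a, ¬ D.P ∣ g.coeff a → a ≤ d := fun g hg a ha => by
    by_contra h0
    rw [Polynomial.coeff_eq_zero_of_natDegree_lt ((dT g hg).trans_lt (not_le.1 h0))] at ha
    exact ha (dvd_zero _)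
  have hS' : ∀ g ∈ T, ∀ a, ¬ D.P ∣ g.coeff a → eval (ζ x₀) (g.coeff a) ≠ 0 ∧ ∀ x ∈ B,
      ‖eval (ζ x) (g.coeff a) - eval (ζ x₀) (g.coeff a)‖ ≤ κ / 2 * ‖eval (ζ x₀) (g.coeff a)‖ :=
    fun g hg a ha => hS _ (Finset.mem_filter.2 ⟨Finset.mem_biUnion.2 ⟨g, hg,
      Finset.mem_image_of_mem _ (Finset.mem_range.2 (Nat.lt_succ_of_le (le_d g hg a ha)))⟩, ha⟩)
  obtain ⟨θ, hθ⟩ := hA (T.image fun g => g.map (eval (ζ x₀))) Finset.card_image_le fun f hf => by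
    obtain ⟨g, hg, rfl⟩ := Finset.mem_image.1 hf
    exact Polynomial.natDegree_map_le.trans (dT g hg)
  have key : ∀ g ∈ T, (∃ a, ¬ D.P ∣ g.coeff a) → ∀ x ∈ B, ∀ t ∈ strip θ ε, ∀ s : ℝ,
      |t.re - s| ≤ 1 → ev1 (ζ x) (Complex.exp t) g ≠ 0 ∧
        |Real.log ‖ev1 (ζ x) (Complex.exp t) g‖ -
          Real.log (stripM d (fun a => eval (ζ x₀) (g.coeff a)) s)| ≤ Real.log (2 / κ) + d := by
    rintro g hg ⟨a, ha⟩ x hx t ht s hs
    rw [ev1_eq_sum _ _ _ (dT g hg)]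
    refine strip_est d _ _ κ0 κ1 t hs (le_d g hg a ha) (hS' g hg a ha).1 (fun a => ?_) ?_
    · by_cases h0 : D.P ∣ g.coeff a
      · rw [D.eval_of_dvd (hz x hx) h0, D.eval_of_dvd (hz x₀ B3) h0]; simp
      · exact (hS' g hg a h0).2 x hx
    · have := hθ _ (Finset.mem_image_of_mem _ hg) t ht
      rw [← ev1_eq, ev1_eq_sum _ _ _ (dT g hg)] at this
      simpa only [Polynomial.coeff_map, stripM] using this
  have zero : ∀ g : P1 n, ∀ x ∈ B, ∀ β, ev1 (ζ x) β g ≠ 0 → ∃ a, ¬ D.P ∣ g.coeff a := by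
    intro g x hx β h0
    by_contra h1
    push Not at h1
    refine h0 ?_
    rw [ev1_eq_sum _ _ _ le_rfl]
    exact Finset.sum_eq_zero fun a _ => by rw [D.eval_of_dvd (hz x hx) (h1 a), zero_mul]
  have t0 : (θ : ℂ) * Complex.I ∈ strip θ ε := by simpa [strip] using ε0
  obtain ⟨t₀, ht₀⟩ : ∃ t₀, (sp2 (ζ x₀) (Complex.exp (θ * Complex.I)) μ).eval t₀ = 0 := by
    refine IsAlgClosed.exists_root _ (Polynomial.natDegree_pos_iff_degree_pos.1 ?_).ne'
    rw [sp2, hP.1.natDegree_map]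
    exact hP.2.1
  obtain ⟨ϑ, w, j, -, hw, hw'⟩ := hlift n F D l _ μ h G hP
    (fun i => Finset.mem_image_of_mem _ (Finset.mem_univ i)) (Cn n × ℂ) (B ×ˢ strip θ ε)
    (fun q => ζ q.1) Prod.snd (B1.prod (convex_strip θ ε)) (B2.prod (isOpen_strip θ ε))
    (hζ.comp differentiableOn_fst fun q hq => hq.1) differentiableOn_snd
    (fun q hq => ⟨hz _ hq.1, (key h hT hP.2.2.1 _ hq.1 _ hq.2 q.2.re (by simp)).1⟩)
    (x₀, θ * Complex.I) ⟨B3, t0⟩ t₀ ht₀
  refine ⟨θ, j, w, hw, fun x hx t ht => ⟨(hw' (x, t) ⟨hx, ht⟩).2.1, (hw' (x, t) ⟨hx, ht⟩).2.2.1⟩,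
    fun x hx x' hx' t ht t' ht' htt i => ?_⟩
  set α : ℕ → ℝ := fun b =>
    Real.log (stripM d (fun a => eval (ζ x₀) ((stripH (N i) (c i) b).coeff a)) t'.re) with hα
  set W : Set (Cn n × ℂ) := B ×ˢ (strip θ ε ∩ ({s | t'.re - 1 ≤ s.re} ∩ {s | s.re ≤ t'.re + 1}))
    with hW
  have W1 : Convex ℝ W := B1.prod ((convex_strip θ ε).inter
    ((convex_halfSpace_re_ge _).inter (convex_halfSpace_re_le _)))
  have W2 : ContinuousOn (fun q => (w q i).re) W :=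
    Complex.continuous_re.comp_continuousOn ((continuous_apply i).comp_continuousOn
      (hw.continuousOn.mono fun q hq => ⟨hq.1, hq.2.1⟩))
  have htt' := abs_le.1 htt
  have cov := hcover ((fun q => (w q i).re) '' W)
    ((Finset.range (d + 1) ×ˢ Finset.range (d + 1)).image
      fun bb => (α bb.2 - α bb.1) / ((bb.1 : ℝ) - bb.2)) r r0 (W1.isPreconnected.image _ W2) ?_
    _ ⟨(x, t), ⟨hx, ht, show _ ≤ t.re by linarith [htt'.1], show t.re ≤ _ by linarith [htt'.2]⟩,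
      rfl⟩
    _ ⟨(x', t'), ⟨hx', ht', show _ ≤ t'.re by linarith, show t'.re ≤ _ by linarith⟩, rfl⟩
  · refine cov.trans (mul_le_mul_of_nonneg_left ?_ (by positivity))
    have := Finset.card_image_le (s := Finset.range (d + 1) ×ˢ Finset.range (d + 1))
      (f := fun bb => (α bb.2 - α bb.1) / ((bb.1 : ℝ) - bb.2))
    rw [Finset.card_product, Finset.card_range] at this
    exact_mod_cast this
  rintro _ ⟨q, ⟨q1, q2, q3, q4⟩, rfl⟩
  have q5 : |q.2.re - t'.re| ≤ 1 :=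
    abs_le.2 ⟨by linarith [show _ ≤ q.2.re from q3], by linarith [show q.2.re ≤ _ from q4]⟩
  obtain ⟨-, e1, e2, -⟩ := hw' q ⟨q1, q2⟩
  have e3 : mon (ex (w q)) l = Complex.exp q.2 := by
    rw [← exp_dz, e2, Complex.exp_add, mul_comm _ (j : ℂ), Complex.exp_int_mul_two_pi_mul_I,
      mul_one]
  have e4 := htrans n F D.z D.y (ℕ × ℕ) (sq (N i)) (c i)
    (fun ab => (ab.1 : ℤ) • l + (ab.2 : ℤ) • Pi.single i 1) D.hy
    (by simpa only [strip_mon D.hy] using c3 i) (ζ q.1) (ex (w q)) (ex_ne_zero _) e1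
  simp only [strip_mon (ex_ne_zero _), e3] at e4
  rw [← strip_sum] at e4
  obtain ⟨b, hb, b', hb', bb, n1, n2, e5⟩ := htwo ℕ _ _ e4 (by
    obtain ⟨ab, hab, h0⟩ := c2 i
    obtain ⟨a1, a2⟩ := Finset.mem_product.1 hab
    refine ⟨ab.2, a2, mul_ne_zero (key _ (hT' i _ a2) ⟨ab.1, ?_⟩ _ q1 _ q2 _ q5).1
      (pow_ne_zero _ (ex_ne_zero _ _))⟩
    rw [strip_coeff _ _ _ a1]
    exact (c1 i ab).resolve_left h0)
  have k1 := key _ (hT' i b hb) (zero _ _ q1 _ (left_ne_zero_of_mul n1)) _ q1 _ q2 _ q5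
  have k2 := key _ (hT' i b' hb') (zero _ _ q1 _ (left_ne_zero_of_mul n2)) _ q1 _ q2 _ q5
  have sub : Finset.range (N i + 1) ⊆ Finset.range (d + 1) :=
    Finset.range_subset_range.2 (Nat.succ_le_succ (hN i))
  refine ⟨_, Finset.mem_image_of_mem _ (Finset.mk_mem_product (sub hb) (sub hb')),
    strip_div bb ?_⟩
  simp only [ex, strip_norm] at e5
  rw [Real.log_mul (norm_ne_zero_iff.2 k1.1) (Real.exp_pos _).ne',
    Real.log_mul (norm_ne_zero_iff.2 k2.1) (Real.exp_pos _).ne', Real.log_exp, Real.log_exp,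
    Finset.card_range] at e5
  have e6 : Real.log ((N i + 1 : ℕ) : ℝ) ≤ Real.log ((d + 1 : ℕ) : ℝ) :=
    Real.log_le_log (by positivity) (by exact_mod_cast Nat.succ_le_succ (hN i))
  have f1 := abs_le.1 e5
  have f2 := abs_le.1 k1.2
  have f3 := abs_le.1 k2.2
  simp only [hα]
  exact abs_le.2 ⟨by linarith [f1.1, f2.2, f3.1], by linarith [f1.2, f2.1, f3.2]⟩

end Pool.Agent.P.MP_d2ed07_lc
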